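import Pool.Agent.Lib.H56.Gen.Check

/-!
# Certificate data: parameters and tables
-/

set_option maxRecDepth 100000

namespace Pool.Agent.Lib.H56.Gen.D7

noncomputable def par : Par := .mk 256 1024 384 3 5 7 1 1 2
  0xd400d400d400d400d400d400d400d400d400d400d400d400d400d400d400d400d400d400d400d400d400d400d400d400d400d400d400d400d400d400d400d400d400d400d400d400d400d400d400d400d400d400d400d400d400d400d400d400d400d400d400d400d400d400d400d400d400d400d400d400d400d400d500d700da00dd00e000e400e700ea00ee00f100f500f800fc010001040108010c011001140119011d01210126012b012f01340139013e01430148014d01530158015d01630169016e0174017a01800186018c01920198019e01a501ab01b201b801bf01c601cc01d301da01e101e801f001f701fe0206020d0215021c0224022c0234023b0243024b0254025c0264026c0275027d0286028e029702a002a802b102ba02c302cc02d502df02e802f102fb0304030e03170321032b0334033e03480352035c03660370037b0385038f039a03a403af03b903c403ce03d903e403ef03fa04050410041b04260431043d04480453045f046a04760481048d049904a504b004bc04c804d404e004ec04f805050511051d052905360542054f055b056805750581058e059b05a805b405c105ce05db05e805f606030610061d062a0638064506530660066e06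7b0689069606a406b206c006cd06db06e906f7070507130721072f073d074b075a076807760784079307a107af07be07cc07db07e907f8080708150824083308410850085f086e087d088c089b08aa08b908c808d708e608f50904091309230932094109500960096f097e098e099d09ad09bc09cc09db09eb09fa0a0a0a190a290a390a480a580a680a780a870a970aa70ab70ac70ad70ae60af60b060b160b260b360b460b560b660b760b860b960ba60bb70bc70bd70be70bf70c070c180c280c380c480c580c690c790c890c9a0caa0cba0cca0cdb0ceb0cfb0d0c0d1c0d2d0d3d0d4d0d5e0d6e0d7f0d8f0d9f0db00dc00dd10de10df20e020e120e230e330e440e540e650e750e860e960ea70eb70ec80ed80ee90ef90f0a0f1a0f2a0f3b0f4b0f5c0f6c0f7d0f8d0f9e0fae0fbf0fcf0fe00ff01000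
  0x660069006b006e00700072007400760078007a007c007e007e007e007e007e007e007e007e007e007e007e007e007e007e007e007e007e007e007f007f0080008100820083008500860088008a008c008e0090009200950097009a009d00a000a300a600a900ad00b000b400b700bb00bf00c300c700cb00d000d400d900dd00e200e700eb00f000f500fa00ff0105010a010f0114011a011f0125012b01300136013c01410147014d01530159015f0165016b01710177017d0183018a01900196019c01a201a901af01b501bc01c201c801ce01d501db01e101e801ee01f401fa02010207020d0213021a02200226022c02320238023e0245024b02510257025d02630268026e0274027a02800286028b02910297029c02a202a702ad02b202b802bd02c302c802cd02d302d802dd02e202e802ed02f202f702fc03010306030b031003150319031e03230328032d03320336033b034003450349034e03530358035d03610366036b037003750379037e03830388038d03920398039d03a203a703ad03b203b803be03c303c903cf03d503dc03e203e803ef03f603fd0404040b0413041b0423042b0433043c0445044e04580461046b04760481048c049704a304af04bc04c904d704e504f30502051205220533054405560569057c059005a505ba05d005e805ff06180632064d0668068506a306c206e2070307250749076e079507bd07e60811083e086c089c08ce09020938096f09a909e50a240a650aa80aee0b370b820bd00c220c760cce0d2a0d890dd70df30e100e2f0e500e710e950eba0ee10f0a0f340f610f900fc10ff5102b1064109f10de1120116411ad11f81248129c12f3134f13b01416148014f0156615e1166316ec177b181218b019571a061abf1b811c4d1d241e071ef51ff120fa22112338246f25b8271328812a052b9f2d522f1e3106330b3530377839e43c793f394228454948a34c385010543158a15d69629268266e3374c57bed83be8c4e95b8a01aab9bb868c6b8d6d0e906ea60ea60ea60ea60ea60ea60ea60ea60ea60ea60ea60ea60ea60ea60ea60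
  6963 2176

end Pool.Agent.Lib.H56.Gen.D7
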