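import Pool.Agent.Lib.H56.Gen.Data
import Pool.Agent.Lib.H56.Gen.PolyCheck
import Pool.Agent.Lib.H56.Gen.D7.Par

/-!
# Certificate data: polynomials
-/

set_option maxRecDepth 100000

namespace Pool.Agent.Lib.H56.Gen.D7

noncomputable def pd : PD := .mk [10000, -15413, -841, 6220, 1645, -1095]
  [-19431, 12935, 6937, 2465, -2907]
  [-37477, 54695, 5916, -19347, -4481] 10000 5075 7124 33838 10000 4096 1024

theorem okpar : okP par = true := by decide +kernel

theorem okpd : pdOK par pd = true := by decide +kernel

end Pool.Agent.Lib.H56.Gen.D7
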