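import Pool.Agent.Lib.H56.Gen.D7.Par
import Pool.Agent.Lib.H56.Gen.D7.Cos

/-!
# Certificate tree V, part 0
-/

set_option maxRecDepth 100000

namespace Pool.Agent.Lib.H56.Gen.D7

open Tr

noncomputable def v0_0 : Tr := (S (V (U (F 169 (T (F 3 (S (K 1) (K 0))) (F 8 (S (F 4 (V (U (K 1) (T (K 1) (K 0))) (K 1))) (K 2))))) (T (F 33 (S (F 15 (V (U (K 0) (T (K 0) (S (K 1) (V (K 0) (K 1))))) (K 1))) (V (K 5) (U (K 1) (T (F 15 (S (S (K 1) (K 0)) (K 0))) (S (U (K 1) (S L L)) (F 27 (V (K 0) (F 1 (S (K 0) (K 0))))))))))) (S (V (U (F 233 (T (F 1 (S (K 1) (V (K 0) (K 1)))) (F 4 (S (K 0) (K 1))))) (T (S (K 2) (V (T (K 1) (S (F 32 L) (F 160 L))) (S (K 2) (F 32 L)))) (S (V (S (K 2) (S L (K 4))) (F 235 (S (K 1) (K 0)))) (F 239 (S (S (K 0) (K 0)) (K 0)))))) (F 235 (U (T (K 1) (K 0)) (T (S (K 1) (S (K 1) (K 0))) (S (K 1)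 (K 0)))))) (V (U (F 237 (T (K 1) (F 2 (S (K 0) (K 0))))) (T (S (V (K 1) (S (F 32 L) (F 160 (S L (K 1))))) (K 1)) (F 239 (S (V (S (K 0) (K 0)) (K 0)) (K 0))))) (F 239 (U (K 0) (T (S (K 0) (K 0)) (K 0)))))))) (F 41 (U (F 19 (T (K 0) (K 1))) (T (S (K 3) (V (U (F 25 (T (K 1) (K 0))) (T (S (K 3) (S L (K 1))) (F 27 (S (K 0) (K 0))))) (K 0))) (F 26 (S (K 1) (K 0))))))) (F 165 (V (F 1 (U (F 2 (T (K 1) (S (V (K 1) (K 0)) (K 1)))) (T (K 0) (S (V (U (K 0) (T (K 0) (F 1 (S (K 0) (K 1))))) (F 3 (U (K 0) (T (S (K 0) (K 0)) (K 0))))) (F 2 (V (K 1) (U (K 0) (T (K 1) (K 0))))))))) (F 4 (U (K 2) (T (S (F 1 (V (K 0) (F 1 (U (K 0) (T (S (K 0) (K 0)) (K 0)))))) (V (F 2 (U (K 1) (T (K 1) (K 0)))) (K 1))) (F 5 (S (K 0) (K 0)))))))))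
noncomputable def v0_1 : Tr := (S (V (U (K 6) (T (K 6) (S (V (K 6) (U (K 6) (T (K 6) (S (V (F 1153 (U (K 2) (T (K 2) (S (S L (K 2)) (K 2))))) (U (F 1943 (T (K 0) (S (V (K 0) (U (K 1) (F 2 (T (K 1) (K 0))))) (K 0)))) (T (F 1951 (S (S (K 1) (K 0)) (K 0))) (S (F 1664 (V (S (S (F 128 L) (F 128 L)) (F 128 L)) (S (S L L) L))) (F 1153 (V (S (F 64 L) (K 2)) (S (S (F 1 L) (F 1 L)) (F 65 (S L L))))))))) (F 1669 (V (K 1) (U (K 1) (T (K 1) (S (T (K 1) (S L (K 3))) (K 1)))))))))) (K 6)))) (U (F 924 (T (F 25 (U (S (K 0) (K 1)) (S (K 0) (K 1)))) (U (F 22 (S (V (K 0) (K 1)) (K 0))) (F 5 (S (F 4 (V (K 0) (K 1))) (F 1 (V (K 0) (K 1)))))))) (F 1664 (T (F 185 (S (V (F 1 (U (K 0) (T (K 0) (S (K 1) (K 0))))) (U (K 1) (T (F 1 (S (K 1) (V (K 0) (U (K 1) (T (S (K 1) (K 0)) (F 1 (S (K 0) (K 0)))))))) (S (K 1) (V (U (K 1) (T (K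 2) (F 4 (S (K 0) (K 1))))) (F 5 (U (K 0) (T (K 0) (S (K 0) (K 0)))))))))) (F 2 (V (K 0) (U (T (K 0) (K 1)) (T (K 0) (S (V (K 0) (K 1)) (V (K 0) (K 1))))))))) v0_0)))) (F 1957 (V (K 1) (U (F 6 (T (K 1) (U (F 1 (S (K 0) (K 0))) (S (V (K 1) (K 0)) (K 1))))) (T (K 0) (S (V (K 1) (U (F 6 (T (K 1) (K 0))) (T (F 6 (S (V (K 1) (K 0)) (V (K 1) (K 0)))) (F 9 (S (K 0) (V (K 1) (K 0))))))) (K 1)))))))
noncomputable def v0_2 : Tr := (U (S (V (T (U (S (V (T (S (F 272 L) (K 3)) (K 3)) (K 3)) (K 3)) (S (F 274 (V (T (S (F 32 L) (F 32 L)) (S (F 2 L) (F 34 (V L L)))) (F 34 (V L (S (F 20 L) (F 4 L)))))) (F 404 (V (T (S L (K 3)) (K 3)) (K 3))))) (F 402 (U (K 3) (S (V (S L (K 3)) (U (K 3) (S (F 16 L) (K 3)))) (K 3))))) (F 950 (T (U (K 1) (S L (K 1))) (U (K 1) (V (K 1) (S L (K 1))))))) (K 3)) (F 150 (S (V (T (U (S (V (S (F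 2 L) (F 2 L)) (F 3 (S L L))) (V (S (F 2 L) (F 2 L)) (S (F 2 L) (F 2 L)))) (V (F 2 L) (F 3 (S L (S L L))))) (U (V (S (F 2 L) (F 6 L)) (S (S (F 2 L) (F 2 L)) (F 2 L))) (V (F 34 (S L (F 4 L))) (S (F 2 L) (F 2 L))))) (T (F 11 (S (S L L) (U (S L (K 1)) (S L L)))) (U (F 9 (S (T (F 8 L) L) (S L (K 1)))) (S (F 10 (V L (F 8 (S L L)))) (V (F 10 L) (F 9 L)))))) (V (T (U (S (S (V (F 2 L) (K 4)) (K 4)) (K 4)) (V (F 34 (S (S (F 8 L) (F 4 L)) (F 4 L))) (F 3 (S L (K 1))))) (F 38 (U (K 0) (V L (K 0))))) (F 3 (T (S (U (K 1) (V L (F 4 L))) (K 1)) (K 1)))))))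
noncomputable def v0_3 : Tr := (V (T (U (S (V (K 5) (T (U (S (V (F 277 (V (K 3) (T L (F 32 L)))) (T (F 276 (U (V (S (F 64 L) (F 64 L)) (S L (K 4))) (V (F 64 L) L))) (F 273 (S (S L L) (K 4))))) (F 277 (V (T (S L (F 4 L)) (F 4 L)) (K 4)))) (F 276 (S (V (F 96 L) (V (F 96 (S L L)) (F 32 L))) (V (F 100 L) (S (F 64 L) (F 66 L)))))) (F 279 (U (S (V (T (F 4 L) (K 0)) (K 4)) (K 4)) (V (F 6 L) (S (S (F 2 L) (F 6 L)) (K 4))))))) (F 341 (V (T (U (K 2) (S (K 2) (F 16 L))) (F 18 (U (K 1) L))) (T (U (K 3) (V L (K 3))) (K 3))))) (F 279 (S (V (T (S (F 4 L) (F 6 L)) (F 6 L)) (T (U (S (V (F 4 L) L) (S L (F 4 L))) (S (F 2 L) (F 2 L))) (F 6 (S (S L L) L)))) (F 6 (V (S L L) (V L (S (S (T L L) L) L))))))) (F 471 (U (S (V (S L L) (T (U (K 2) (S L (K 2))) (K 2))) (K 2)) (S (S L L) (V (F 1 L) L))))) (T v0_2 (F 150 (U (F 12 (S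 (V (K 1) (T (F 13 (U (K 0) (S (T (K 0) (K 0)) (K 0)))) (U (K 1) (U (K 1) (S (T L L) (K 1)))))) (K 1))) (S (V (F 36 (S (S (U L L) L) L)) (T (U (S (T (F 8 L) (F 8 L)) (F 47 (T (K 0) (K 0)))) (S (S (F 8 L) (F 8 L)) (F 12 (S L L)))) (S (V (F 12 L) (T (S (F 8 L) (F 12 L)) (F 12 (S L (F 1 L))))) (F 44 (S L L))))) (F 44 (V (K 0) (T (K 0) L))))))))
noncomputable def v0_4 : Tr := (V (F 34 (T (S (V (F 4 L) (S L (F 4 L))) (F 12 (V L L))) (F 4 (S L L)))) (T (S (U (V (T (V (F 34 L) (F 3 (U (S (F 1 L) L) (F 1 L)))) (F 34 (S (S L L) L))) (U (S (F 3 (T (F 4 L) (V L (F 4 (S L L))))) (V (F 3 (S L L)) (F 9 (T (F 8 L) (T (F 8 L) L))))) (F 3 (S L L)))) (F 35 (V L (S L L)))) (U (V (V (F 38 (S L (F 4 L))) (U (T (F 3 (S (F 1 L) (F 8 (V (F 4 L) L)))) (F 38 L)) (F 39 (S L L)))) (V (U (T (F 3 (S L (F 8 L))) (F 37 L)) (F 33 (S (T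 (F 8 L) (F 4 L)) (F 12 L)))) (F 9 (S (T (F 8 (S L L)) L) (T (T (F 8 L) (F 4 L)) (F 5 (U (K 1) L))))))) (F 39 (V L L)))) (S (U (V (F 38 (S (U (S L L) L) L)) (T (U (S (F 8 L) (F 12 L)) (F 40 (S L (S L (F 2 L))))) (S (V (F 36 L) (U (U (F 12 (S L (F 1 L))) (F 40 L)) (F 40 L))) (F 44 (S L L))))) (T (F 33 (V (F 12 L) (S (F 8 L) (F 4 L)))) (F 36 L))) (F 36 (U (V (F 4 L) (F 2 (S (T L (F 1 L)) (F 1 L)))) (F 10 (S L L)))))))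
noncomputable def v0_5 : Tr := (U (S (V (T (F 42 (U (S (V (F 2 L) (K 3)) (K 3)) (S (F 18 (S L L)) (V (F 19 L) (F 20 L))))) (U (F 42 (S (V L (F 20 L)) (K 3))) (S (F 27 (S L L)) (F 162 L)))) (F 25 (T (U (S (V (F 20 (S L (K 0))) (T (U (T (K 3) (U (K 1) (S (F 4 L) (K 1)))) (S (S (F 4 L) (F 20 L)) (F 20 L))) (U (S (T (F 4 L) (K 1)) (K 1)) (F 20 (S (S L L) L))))) (F 21 (T (K 0) (F 1 (S (K 0) (K 0)))))) (S (V (F 20 L) (T (S (T (V (F 20 L) (F 4 L)) (F 20 L)) (F 20 L)) (F 20 (S L L)))) (F 20 (S L (F 4 L))))) (U (S (V (F 20 L) (T (F 20 (U (K 1) (S (S L L) (K 1)))) (U (K 1) (S (T (F 20 (S L L)) (F 16 L)) (K 1))))) (K 1)) (S (V (F 20 L) (T (F 20 (S (S L L) L)) (S (S (F 16 L) (F 20 L)) (F 20 L)))) (F 20 (S L L))))))) (F 179 (V (F 1 (T (K 0) (U (K 0) L))) (T (F 2 (U (K 0) (S L (K 0)))) (U (F 6 (S (K 0) (K 0))) (T (F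 2 L) L)))))) (F 3 (S (V (T (F 6 (S (F 2 L) (F 8 L))) (S L (F 5 L))) (F 24 (T (F 2 (S (U (S (T (U L L) L) L) (U (T L L) L)) (V L L))) (S (U (V (F 2 L) (T (F 2 (S L L)) (S L (F 2 L)))) (T (F 2 (S L (F 1 L))) (S L (F 2 L)))) (F 2 (T L L)))))) (F 5 (V (F 8 (S L (F 1 L))) (F 4 (T (V L (F 2 L)) L)))))))
noncomputable def v0_6 : Tr := (U (F 50 (S (V (F 120 (T (K 1) (U (K 1) (S L (K 1))))) (T (U (F 40 (S (V (K 3) (T (S (F 1 L) (K 3)) (S L (F 2 L)))) (K 3))) (F 88 (S (F 1 (S (S L L) (S L L))) (V (K 2) (S (F 1 (S L L)) L))))) (U (S (V (F 24 L) (T (S (F 40 L) (F 24 L)) (S (F 40 L) (F 24 L)))) (F 24 (V (K 3) (V (K 3) (S (S L L) (S L (K 3))))))) (F 24 (S (V (F 3 (S L L)) (S (S (F 2 L) (F 2 L)) (S (F 2 L) L))) (V (F 1 L) (S L (S L L)))))))) (V (K 1) (T (K 1) (U (K 1) (S (V (K 1) (S (V (F 80 L) (F 24 L)) (F 80 (S L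 L)))) (K 1))))))) (F 42 (S (V (F 112 (S (F 1 L) L)) (T (F 120 (U (S (S L L) (S L (S L L))) (S (S L L) (S L L)))) (U (S (F 56 (V (F 1 L) (S L L))) (V (F 112 L) (F 24 (S (S (F 2 L) (F 1 L)) (S (F 1 L) (F 1 L)))))) (F 112 (S (F 1 (V L (S (S L L) (S L L)))) (S (F 1 (T L (S L L))) L)))))) (V (F 113 (S L (F 2 L))) (T (F 112 (U (S (S (S (F 1 L) L) L) (U (K 2) (S L (K 2)))) (S (S L L) L))) (U (S (F 80 (S L L)) (F 65 (V (F 3 L) (T (S (F 2 L) (F 2 L)) L)))) (F 80 (S (S (F 1 L) (F 1 L)) (V (F 17 L) (S (F 16 L) (F 17 L)))))))))))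
noncomputable def v0_7 : Tr := (U (S (V (F 29 (T (U (S (V (F 1 L) (K 1)) (F 53 (V (K 0) (K 1)))) (S (S (F 40 L) (F 33 L)) (F 37 L))) (F 49 (U (S (V (S L (K 0)) (K 2)) (F 2 (V (K 1) (K 0)))) (S (S L L) (S L (F 2 L))))))) (T (F 23 (U (S (V (K 1) (T (F 40 (U (K 2) (S (T L (F 1 (S L L))) (K 2)))) (F 24 (U (S (V (K 2) (T (K 2) (S L (K 2)))) (K 2)) (F 1 (S (S (S L L) (S L L)) (S (S L (K 1)) (K 1)))))))) (K 1)) (S (F 40 (V L (T (S (S L L) (S L L)) (F 1 (U (S (S L L) (S L L)) (S (S L L) (S L L))))))) (V (F 33 L) (T (S (F 40 L) (F 36 L)) (S (S (F 40 L) (F 32 L)) (F 32 L))))))) v0_6)) (F 539 (V (F 18 (T (U (F 5 (S (S (K 0) (K 0)) (K 0))) L) (F 1 (U (K 1) (S L (K 1)))))) (T (F 18 (U (K 2) (S (K 2) L))) (U (K 0) (S (V (F 26 L) (T (F 24 (U (K 2) (S L (K 2)))) (S (V (F 26 L) (S (F 8 L) (F 24 L))) (F 26 (S L L)))))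 (F 26 L))))))) (F 31 (S (V (T (S (S (F 1 L) (F 1 L)) (F 5 L)) (S (F 17 (S L L)) (F 5 L))) (T (S (U (V (F 8 L) (T (S (S (F 8 L) (F 8 L)) (F 8 L)) (U (S (F 24 (S L L)) (F 8 L)) (S (F 24 (S L L)) (F 8 L))))) (V (F 8 L) (S (T (F 8 L) (F 8 L)) (S (F 8 L) (F 8 L))))) (U (S L (F 1 L)) (F 1 L))) (S (U (V (F 16 L) (T (U (F 24 (S (S L L) (S L L))) (S (F 24 (S L L)) (F 16 L))) (U (S (F 24 (S (S L L) (S L L))) (S (F 16 L) (F 16 L))) (S (S (F 24 (S L L)) (F 16 L)) (F 16 L))))) (V (F 17 L) (T (S (F 24 (S L L)) (F 16 L)) (S (S (F 24 (S L L)) (F 16 L)) (F 17 (S L L)))))) (U (V (F 17 L) (T (S (S (F 16 L) (F 16 L)) (F 17 (S L L))) (S (S (F 16 L) (F 17 (S L L))) (F 17 (S L L))))) (F 17 (S (S L L) L)))))) (F 5 (V (T (F 4 L) L) (T (S (T L L) (F 1 L)) (F 1 (U (S (T L (U L L)) L) L))))))))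
noncomputable def v0_8 : Tr := (U (S (V (K 3) (T (F 161 (U (S (V (F 15 (T (K 0) (S (K 0) (K 0)))) (T (F 7 (S (S (K 1) (K 0)) (K 0))) (U (F 7 (S (S (K 1) (K 0)) (K 0))) (S L L)))) (K 4)) (S (V (F 3 (S L L)) (S (S (F 1 L) (F 1 L)) (F 1 L))) (V (K 2) (S (F 1 L) (F 1 L)))))) (U (S (V (F 160 (T (S (V (K 2) L) (K 2)) (S (V (K 2) L) (K 2)))) (T (U (S (V (F 160 (S L (F 1 L))) (F 128 L)) (F 160 (V L (S L (F 32 L))))) (F 160 (S (S L (F 1 L)) L))) (U (S (V (F 128 L) L) (F 160 (V L (S L L)))) (F 160 (S (S L L) L))))) (F 160 (V (K 2) (T (S (S L L) (K 2)) (S (S L (F 8 L)) (K 2)))))) (F 224 (S (V (S (S L L) L) (T (S L L) (S (S L L) L))) (V (K 1) (T L L))))))) (K 3)) (F 224 (S (V (S (T (F 21 L) (F 1 L)) (K 1)) (T (U (S (S (F 16 L) (F 17 L)) (F 17 (S L L))) (F 17 (S L L))) (U (S (V L (S L (F 16 L))) (S L (F 4 L))) (S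 (S L (F 16 L)) (F 4 L))))) (S (T (F 21 L) (V (K 1) (F 4 L))) (K 1)))))
noncomputable def v0_9 : Tr := (S (V (T (F 80 (U (F 19 (S (K 1) (K 0))) (S (S (F 3 L) (F 1 L)) (V (K 3) (S (F 16 L) (F 16 L)))))) (U (S (F 121 (V (S (K 0) (K 1)) (K 0))) (V (K 1) (T (K 1) (V (K 1) (S (F 9 L) (F 65 L)))))) (S (V (F 81 (S L L)) (F 9 (S L L))) (F 65 (V (S (F 2 L) (F 3 L)) (S L L)))))) (T (U (S (F 24 (V (K 2) (T (S (K 2) (S (K 2) L)) (F 27 (S (K 0) (K 0)))))) (V (F 24 (S (S (K 2) L) (K 3))) (T (S (F 8 L) (F 8 L)) (S (F 8 L) (F 8 L))))) (S (V (F 24 (S (F 2 L) L)) (F 40 (T (S L L) (S L L)))) (V (S (F 24 L) (F 80 L)) (S (S (F 8 L) (F 8 L)) (S (F 8 L) (F 8 L)))))) (U (F 9 (S (F 23 (V (K 0) (S (K 0) (S (K 0) (K 0))))) (V (T (S L (S L L)) (S (S L L) (S L L))) (T (U (S (K 3) L) (S L L)) (S (S L L) (S L L)))))) (S (V (S (F 8 L)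 (F 9 (S L L))) (S (F 40 L) (F 8 L))) (V (S (F 9 (S L L)) (F 1 L)) (F 9 (T (S L L) (S L L)))))))) (V (F 65 (T (K 4) (U (K 4) (S (V (F 15 (S (K 0) (K 0))) (S L L)) (V (K 4) (F 8 L)))))) (T (U (S (V (K 1) (S (S (F 8 L) (F 9 (T (K 4) L))) (U (K 1) (S (F 9 L) (F 65 L))))) (K 1)) (S (V (F 65 (S L L)) (S (F 9 (S L L)) (F 65 (S L L)))) (F 65 (V (K 4) (S (S L L) (S L L)))))) (U (S (V (T (S (F 1 L) (K 1)) (S (F 1 L) (F 65 (S L L)))) (F 9 (T (S (S L L) (S L L)) (U (S L (S L (K 1))) (S L L))))) (V (K 1) (T (S (S (F 9 L) (F 65 L)) (F 65 L)) (S (F 1 L) (F 65 L))))) (S (V (F 65 (S (S L L) (S L L))) (S (F 9 (S L L)) (F 1 L))) (F 65 (V (S L (F 8 L)) (S (S L L) L))))))))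
noncomputable def v0_10 : Tr := (S (V (T (F 112 (S L (F 8 (S L L)))) (F 65 (U (S (S (S (F 1 L) (F 1 L)) (S (F 1 L) (F 1 L))) (V (F 3 L) L)) (S (S (F 1 L) (F 1 L)) (F 1 L))))) (T (U (S (F 40 (V (S (F 2 L) (F 2 L)) (S (S L L) (S L L)))) (V (F 80 L) (S (F 8 L) (F 8 L)))) (S (F 40 (V (S (F 1 L) (F 1 L)) (S (S L L) L))) (S (V (F 97 L) (F 40 L)) (F 65 L)))) (U (S (V (S (F 40 L) (F 9 L)) (F 40 (S L (T L (F 16 L))))) (V (S (F 9 L) (F 65 L)) (F 9 (S (S L L) (S L L))))) (S (F 40 (S (S L L) (T L (S (F 16 L) (F 16 L))))) (F 33 (V (S (F 1 L) (F 1 L)) (S L L))))))) (V (F 97 (T (F 1 (S (S L L) (F 2 L))) (U (S (S L L) (F 4 (S L (F 4 L)))) (S L (F 5 L))))) (T (F 65 (U (S (V L (S (S L L) L)) (V (F 2 L) (S L L))) (S (S L L) (S L L)))) (U (S (V (F 65 (S L L)) (S (F 1 L) (F 65 L))) (F 65 (V L (S L (F 8 L))))) (F 65 (S (V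 L (S L L)) (V (F 8 L) L)))))))
noncomputable def v0_11 : Tr := (U (S (V (F 1288 (T (U (S (S (K 2) (S (F 1 L) (F 1 L))) (V (S (F 33 L) (F 160 L)) (F 32 L))) (S (F 33 (S L L)) (S (F 33 L) (F 160 L)))) (U (S (S L L) (V (S (F 32 L) (F 160 L)) L)) (S L (V (F 160 L) (F 32 L)))))) (F 268 (T (U (S (K 3) (V (F 3 (S (F 8 L) L)) (F 18 L))) (F 3 (S (F 8 L) (S L L)))) (U (F 18 (S L (K 2))) (S (F 19 L) (S (F 3 L) (F 1 L))))))) (F 1292 (V (T (U (S (V (F 64 L) (S (F 1 L) (F 65 L))) (S (F 64 L) (F 64 L))) (S (S (F 64 L) (F 65 L)) (F 64 L))) (U (S (V (S (F 64 L) (F 68 L)) (F 111 (S (K 0) (K 0)))) (S (F 64 L) (F 68 L))) (S (S (F 64 L) (F 64 L)) (F 64 L)))) (T (U (S (V L (F 1 L)) (V (F 64 L) (K 4))) (S (S (F 1 L) (F 1 L)) (S (F 1 L) (F 65 L)))) (U (F 111 (S (K 0) (K 0))) (S (S L (K 4)) (F 111 (S (K 0) (K 0))))))))) (F 1292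 (S (V (T (S (F 1 L) (F 64 L)) (S L (S (F 64 L) (F 64 L)))) (T (S (F 9 L) (F 1 L)) (S (F 33 L) (F 1 L)))) (V (S (T (F 64 L) (F 64 L)) (F 64 L)) (T (U (S (F 1 L) (F 64 L)) (F 65 (S L L))) (S L (S (F 64 L) (F 64 L))))))))
noncomputable def v0_12 : Tr := (V (T (F 1292 (U (S (V (T (F 65 (S (K 3) (U (K 4) L))) (U (S (K 2) (V (F 65 (S L (K 4))) (F 1 L))) (S (S (K 2) (F 1 L)) (F 65 (S L L))))) (T (F 9 (U (K 3) (S (K 3) L))) (U (S (K 2) (S (K 2) (F 1 L))) (S (K 2) (F 1 L))))) (V (T (F 65 (U (K 4) (S L (K 4)))) (U (S (T (K 1) (S (F 64 L) (F 65 L))) (K 1)) (F 65 (S (S L L) L)))) (T (U (S (F 1 L) (F 65 (S L (K 4)))) (S (F 1 L) (F 65 L))) (U (S (S (F 1 L) (F 1 L)) (V (F 65 (S L L)) (F 1 L))) (S (F 1 L) (F 65 (S L L))))))) (S (V (S (F 1 L) (F 65 (S L L))) (S (S (F 9 L) (F 1 L)) (S (F 1 L) (F 1 L)))) (V (F 65 (S (S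 L L) L)) (T (F 65 (S L L)) (S (F 1 L) (F 65 L))))))) v0_11) (F 1804 (T (U (S (V (T (K 1) (S (K 1) (F 4 L))) (F 21 (U (K 2) (S (K 2) L)))) (V (T (U (S (F 4 L) (S (F 4 L) (F 4 L))) (S (F 4 L) (F 4 L))) (U (S (S (F 4 L) (F 4 L)) (S (F 4 L) (K 3))) (S (F 4 L) L))) (T (S (F 4 L) (S (F 4 L) (F 4 L))) (F 5 (S L (F 11 (S (K 0) (K 0)))))))) (S (V (S (F 20 L) (F 4 L)) (F 21 (S L L))) (V (T (S (F 4 L) (F 4 L)) (S (F 4 L) L)) (S (F 5 L) (S (F 4 L) (F 4 L)))))) (U (S (V (T (S (K 1) (F 4 L)) (F 21 (S L (K 1)))) (F 21 (S (K 0) L))) (F 5 (V (T (U (F 11 (S (K 0) (K 0))) (S (S L (K 2)) (F 11 (S (K 0) (K 0))))) (K 2)) (K 2)))) (S (F 21 (S L (S L (T L L)))) (V (T (S (F 4 L) (S L L)) (U (F 55 (S (S (K 0) (K 0)) (K 0))) (S (F 1 L) L))) (F 5 (S (F 2 L) (T L (K 2))))))))))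
noncomputable def v0_13 : Tr := (V (T (U (S (V (T (K 1) (S (F 64 L) (K 1))) (F 65 (T (U (K 4) (S L (K 4))) (U (S (V (K 4) L) L) (S L (F 8 L)))))) (F 69 (V (K 3) (T (K 3) (V (K 3) L))))) (F 65 (S (V L (S (S L L) L)) (V (K 2) (S (F 8 L) (F 9 L)))))) (U (S (V (T (S (F 64 L) (K 3)) (F 68 (S (S L L) (K 2)))) (T (U (S (S (F 64 L) (K 4)) (F 68 L)) (S (F 64 L) (F 69 L))) (F 111 (U (K 0) (S (K 0) (K 0)))))) (F 68 (V (K 2) (S (T L (K 1)) L)))) (S (V (F 68 (S L (F 1 L))) (S (F 64 L) (F 68 L))) (F 68 (T L L))))) (T (U (S (V (T (S (F 1 L) (F 65 (S L L))) (U (F 111 (S (S (K 0) (K 0)) (S (K 0) (K 0)))) (S (F 1 L) (F 65 L)))) (T (U (F 111 (S (S (K 0) (K 0)) (K 0))) (S (F 9 L) (F 1 L))) (F 111 (U (K 0) (S (K 0) (K 0)))))) (F 65 (V (T (S L (F 8 L)) (S (S L (F 8 L)) (F 8 L))) (T (U (K 0) (S L (F 8 L))) (F 29 (S (K 0) (K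 0))))))) (S (V (T (F 65 (S L L)) (S (F 1 L) (F 65 L))) (T (S (F 9 (S L L)) (F 1 L)) (S (F 9 (S L L)) (F 1 L)))) (V (F 65 (S L (F 8 L))) (T (F 65 (S L (F 8 L))) (S (F 1 L) (F 69 L)))))) (U (F 111 (S (V (T (U (K 0) (S (K 0) (K 0))) (K 0)) (K 0)) (V (T (S (K 0) (K 0)) (K 0)) (K 0)))) (S (V (T (S (S (F 1 L) (F 1 L)) (F 65 L)) (S L (F 64 L))) (F 3 (T (U (K 2) (S L (K 2))) (K 2)))) (F 68 (V (S L (F 16 L)) (F 29 (T (S (K 0) (K 0)) (K 0)))))))))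
noncomputable def v0_14 : Tr := (S (V (T (U (S (F 33 (V (S (S (F 1 L) (F 1 L)) (F 1 L)) (S L L))) (F 65 (V (S (F 1 L) (F 1 L)) (S L L)))) (F 97 (S (V L (S L L)) (V L (S L L))))) (U (S (V (F 96 (T (S (F 16 L) (F 16 L)) (S L (F 16 L)))) (F 33 (S L (S L L)))) (V (F 96 (S L (F 16 L))) (S (F 1 L) (F 64 L)))) (F 33 (S (V (S (F 1 L) (F 1 L)) (S (F 16 L) (F 16 L))) (V (F 1 L) (S (F 1 L) (F 1 L))))))) (T (U (S (F 33 (V (S (F 4 L) L) (F 20 (S L L)))) (V (S (F 1 L) (F 1 L)) (F 9 (S (F 2 L) L)))) (F 33 (S (V L (F 20 (S L L))) (S L (T L L))))) (U (S (F 43 (S L (T L L))) (V (S (F 33 L) (F 1 L)) (F 35 (S (F 4 L) (S L L))))) (F 33 (S (V (F 16 L) (F 20 L)) (V (S (F 16 L) (F 1 L)) (S (F 20 L) (F 16 L)))))))) (V (T (F 65 (U (S (V (F 1 L) L) (F 9 (T L L))) (S (S (F 1 L) (F 9 L)) (F 9 L)))) (U (S (S (F 64 L) (F 68 L)) (F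 100 (S L (F 8 L)))) (F 97 (S (S L (F 4 L)) (F 4 L))))) (T (U (S (V (F 65 (S L L)) (S (F 1 L) (F 1 L))) (F 65 (V (S (F 8 L) (F 9 L)) (S L (F 8 L))))) (S (V (F 65 L) (S (F 33 L) (F 65 L))) (F 65 (S L (F 8 L))))) (U (S (V (S (S (F 3 L) (F 65 L)) (F 65 L)) (S (F 3 (T L (S L L))) (F 1 L))) (F 65 (V (S (F 8 L) (F 9 L)) (S (S L L) (F 8 L))))) (S (V (F 65 (S (F 1 L) (F 8 L))) (F 33 (S (S (F 16 L) (F 16 L)) (S (F 16 L) (F 1 L))))) (F 69 (S L L)))))))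
noncomputable def v0_15 : Tr := (T (U (S (V (K 0) (T (U (K 0) (S (V (K 0) (S (F 16 L) (K 0))) (K 0))) (U (F 18 (S (V (K 3) (U (K 3) (S L L))) (K 3))) (S (F 18 (V L (S L L))) (F 2 L))))) (F 42 (V (K 2) (T (K 2) (U (K 2) (S L (K 1))))))) (S (V (F 58 L) (T (U (S (S (F 16 L) (F 18 L)) (F 42 L)) (F 18 (V (F 3 L) L))) (F 18 (U (S (V (F 1 L) L) L) (S L (F 1 L)))))) (F 42 (S (V (K 1) L) (F 1 L))))) (U (S (F 18 (V (F 3 (T (U (K 0) (F 1 (S (S (K 0) (K 0)) (K 0)))) (F 1 (U (K 0) (S (S (K 0) (K 0)) (K 0)))))) (T (U (S (V (S (S L L) L) (S (T L (K 1)) (S L L))) (V (K 2) (S L L))) (S (V L (S L L)) (V (F 1 L) L))) (U (F 9 (S (V (S (K 1) (S (K 1) (K 0))) (K 1)) (V (K 0) (K 1)))) (S (V L (F 13 (S (K 0) (K 0)))) (V L L)))))) (V (K 2) (T (U (F 59 (S (K 0) (K 0))) (S (F 2 L) (K 2))) (F 18 (U (F 11 (S (V (K 0) (S (K 0) (K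 0))) (K 0))) (S (S L (K 2)) (K 2))))))) (F 18 (S (V (F 1 (T L (S L L))) (T (U (S (V (F 1 L) L) L) (S L (F 1 L))) (U (S (V (F 1 L) L) L) (S L (F 1 L))))) (F 1 (V (K 1) (T (S (S L L) L) (S (S L L) (S L L)))))))))
noncomputable def v0_16 : Tr := (T (S (U (V (F 97 (T (F 1 (S L L)) (U (S L (F 1 L)) (F 1 (S L L))))) (T (U (S (V (F 112 L) (F 40 (S L (S L (F 1 L))))) (F 96 (S L (S (F 16 L) (F 16 L))))) (F 96 (S (S (S (F 2 L) (F 2 L)) (F 16 L)) (S (F 16 L) (F 16 L))))) (U (S (S (F 40 (T L (F 16 L))) (F 33 (S L L))) (F 33 (V (F 1 L) (S (F 4 L) (F 1 L))))) (F 96 (S (S (T (F 2 L) (F 18 L)) (F 16 L)) (S (F 16 L) (F 16 L))))))) (F 97 (V (F 1 (S L L)) (T (S (S L L) (S L L)) (S L L))))) (F 65 (U (V (F 3 (S L (F 2 L))) (T (U (S (S (F 1 L) (F 1 L)) (S (F 1 L) (F 3 L))) (S (F 1 L) (F 1 L))) (U (S (S L L) (S (F 1 L) (F 9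 L))) (S (S (F 1 L) (F 1 L)) (F 1 L))))) (V (F 11 L) (S (S (F 1 L) (F 1 L)) (S (F 1 L) (F 9 L))))))) (F 33 (S (U (V (T (U (S (S (F 1 L) (F 1 L)) (S (F 1 L) (F 1 L))) (S (F 1 L) (F 1 L))) (U (S (S (F 1 L) (F 1 L)) (S (F 1 L) (F 1 L))) (S (F 1 L) (F 1 L)))) (T (U (S (S (F 20 (S L L)) (F 16 L)) (V (S (F 1 L) (F 17 L)) (F 16 L))) (S (S (F 20 L) (F 17 L)) (F 17 (S L L)))) (U (S (F 20 (S L L)) (V (F 1 L) (F 16 L))) (F 17 (S L (S L L)))))) (V (S (F 17 (S L L)) (F 1 L)) (F 17 (S (S L L) (S L L))))) (U (V (T (S (F 1 L) (F 9 L)) (F 9 (S (S L L) L))) (T (U (S (V (F 1 L) (S (F 1 L) (F 1 L))) (S (F 1 L) (F 9 L))) (S (S (F 1 L) (F 1 L)) (F 9 L))) (U (S (S (V (F 17 L) (F 16 L)) (F 1 L)) (F 9 (S L (F 1 L)))) (F 17 (S (S L L) (F 1 L)))))) (V (F 9 L) (F 17 (S (S L L) (F 1 L))))))))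
noncomputable def v0_17 : Tr := (V (F 96782 (T (U (S (F 261 (V (K 3) (T (U (S (V (K 3) L) (K 3)) (F 35 (S L (K 1)))) (U (K 3) (S (S (F 32 L) (K 3)) (K 3)))))) (F 194 (V (T (U (S (K 2) (V (S (K 2) L) (K 2))) (F 33 (S (K 2) L))) (F 35 (U (K 2) (S (K 2) (S (K 2) L))))) (K 2)))) (F 455 (S (V (F 4 (S L L)) (T L (S L (F 1 L)))) (F 1 (T (S L L) (S L L)))))) (F 483 (U (S (K 0) (V (T (U (K 0) (S (K 0) (T L (K 0)))) (K 0)) (K 0))) (U (F 2 (S (F 1 (S (U (K 0) (U L L)) (K 0))) (S (K 1) (V (V (S L L) (K 1)) (K 1))))) (F 4 (S (F 1 L) (T L (F 1 (U L L)))))))))) (T (F 144455 v0_7) (F 167233 (U (S (V (F 1288 (T (F 241 (U (S (V (F 2 (T (F 2 (S (K 0) (K 0))) (K 1))) (T (K 2) (U (K 2) (S (S L L) (K 2))))) (F 2 (V (K 1) (K 0)))) (S (V L (S L L)) (F 2 (S L L))))) v0_8)) (T (F 1548 (U v0_9 v0_10)) (U (S v0_12 (F 1292 v0_13))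 (F 1292 v0_14)))) (F 1797 (V (F 59 (T (U (K 0) (S (K 0) (K 0))) (K 0))) v0_15))) (F 1548 (S (V (F 97 (T (F 1 (S (S (S L L) L) (F 2 (S L L)))) (S (U (V (F 1 (S L (F 2 L))) (T (F 1 (S L L)) (S (S L L) L))) (V (F 5 L) L)) (F 5 (U (U (S L L) L) L))))) v0_16) (F 101 (V (F 1 (S (T L (S L L)) (F 1 (S L L)))) (T (S (U (V (F 1 L) (S (T L L) L)) (T (F 1 L) L)) (F 1 (U L L))) (S (U (V (S L L) (S (S L L) L)) (S L L)) (U (V (F 1 (S L L)) (S L L)) L)))))))))))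
noncomputable def v0_18 : Tr := (U (F 8390405 (T (F 153735 (U (F 983 (V (K 0) (F 1 (U (K 0) (T (K 0) (K 0)))))) (V (F 975 (T (K 0) (S (V (K 0) (U (K 0) (T (K 0) (S (K 0) (K 1))))) (V (K 0) (K 1))))) (T (S (V (U (F 511 (T (U (K 0) (S (K 0) (K 0))) (K 0))) (T (S (V (K 5) (U (K 3) (T (S (V (F 273 (U (K 0) (T (U (K 3) (S L (F 32 L))) (K 0)))) (U (K 3) (T (S (V (F 272 L) (K 3)) (K 3)) (K 3)))) (K 3)) (K 3)))) (F 983 (V (K 0) (K 1)))) (F 503 (S (K 0) (K 1))))) (K 3)) (K 3)) (F 247 (S (V (K 2) (F 4 (U (K 0) (T (S (V (K 1) (F 2 (U (K 0) (T (K 0) (K 0))))) (K 0)) (K 0))))) (F 1 (V (K 0) (U (K 1) (T (K 0) (K 1))))))))))) (F 107872 (U (F 1965 (V (K 1) (U (F 2 (T (F 1 (U (K 0) (S (K 0) (K 0)))) (U (S (V (K 1) (K 0)) (K 1)) (S (V (K 1) (K 0)) (K 1))))) (T (F 4 (S (K 1) (V (K 0) (K 1)))) (F 2 (S (V (K 1) (T (K 1) (K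 0))) (K 1))))))) (V (K 4) (T (F 1807 (S (F 8 (V (F 5 (U (K 0) (T (S (K 0) (K 0)) (K 0)))) (U (K 1) (T (K 1) (S (V (K 1) (U (K 1) (T (K 1) (S (V (K 1) (U (K 0) (T (F 1 (S (K 0) (K 1))) (K 0)))) (K 1))))) (K 1)))))) (F 5 (V (K 0) (K 1))))) v0_1)))))) (T (F 7344034 (V (F 3646 (T (F 35 (U (S (K 0) (V (K 0) (T (F 2 (U (K 1) (S (K 1) (V (K 1) L)))) (U (F 2 (S (K 1) (V (K 1) (K 0)))) (S L L))))) (F 2 (S (V (F 1 L) (V (S (F 1 L) L) (T (S L L) L))) (V (U (U (K 1) (T (K 1) L)) (F 1 L)) (V (S L L) L)))))) (U (S (F 33 (V (F 12 (T (K 1) L)) (T (F 8 (U (K 2) (V (K 2) L))) (U (S (V (K 0) L) (F 8 L)) (F 8 L))))) (V (T (F 35 (U (K 0) (T (K 0) L))) (U (S (K 4) (V (S (K 4) (F 2 L)) (F 35 L))) (F 35 (S (F 4 L) L)))) (F 35 (T (T L L) L)))) (F 35 (S (V (F 4 L) (T L L)) (V (T L L) L)))))) (T (F 12321 (U (S v0_3 (F 837 (V (T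 (U (S (V (T (U (K 1) (T (F 4 L) (F 5 L))) (K 3)) (K 3)) (K 3)) (F 21 (S (V L (V L (K 0))) (V L (K 0))))) (F 17 (U (K 0) (V L (K 0))))) (K 3)))) (F 150 (S v0_4 (F 37 (V (F 4 (V L (T L L))) (U (S (T (F 4 (V (V L L) (F 1 (U (K 0) L)))) (F 2 L)) (K 0)) (F 6 (U L L))))))))) (F 9753 v0_5)))) (F 2293848 v0_17)))
noncomputable def treeV0 : Tr := (F 0x3fffffffffffffffffffffffffffffffffffffffffffdbef7fff7bf7bffffffffffffffffffffffffffff7bfffe7f77ffdeffbeffb7dfffffffff9fffffffffffefff (U (U v0_18 (F 15927295 (T (V (F 71 (T (F 3 (U L (F 1 L))) (U (T L L) (F 7 L)))) (T (F 87 (U (S (V L (U (T L L) (F 3 L))) (S L (F 2 L))) (F 3 L))) (U (S (F 80 (V (F 28 (S L L)) (T (F 20 (U (S L (F 3 L)) (F 7 L))) (U (S (T (F 6 L) (F 2 L)) (F 22 L)) (F 31 L))))) (F 79 (T (F 2 L) L))) (F 127 L)))) (V (F 111 (U (U L (F 1 L)) (F 1 L)))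 (T (U (S (V (F 65 (T (F 16 L) (F 13 L))) (F 72 (T (U (S (U (S (F 2 L) (F 18 L)) (F 23 L)) (F 20 L)) (F 31 L)) (F 17 (U (S (S L (S L L)) L) (F 7 L)))))) (F 109 (V (F 2 L) (U L (F 3 L))))) (F 127 L)) (F 41 (U (S (V (F 13 L) (T (F 1 (U (S (S (F 1 (S L L)) L) (S L (F 2 L))) (F 7 L))) (F 8 (U (S (S L L) (F 1 (S L L))) (F 7 L))))) (F 13 (S (S L L) L))) (F 15 L)))))))) (F 16777215 L)))

theorem pV0 : chkV par treeV0 64 64 128 128 128 128 0 436907 Lc = true := by decide +kernel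

noncomputable def v1_0 : Tr := (S (F 1048 (V (F 501 (U (T (K 0) (U (K 0) (S (K 1) (K 0)))) (T (S (V (K 0) (U (K 0) (T (F 2 (S (V (K 0) (U (K 0) (T (K 0) (K 0)))) (K 0))) (S (V (K 0) (U (K 0) (T (K 0) (K 1)))) (K 0))))) (K 0)) (S (V (F 2 (U (K 0) (T (K 0) (K 0)))) (U (K 1) (T (S (V (U (K 0) (S (K 1) (K 0))) (K 1)) (K 0)) (K 1)))) (V (K 0) (K 1)))))) (U (F 375 (T (U (F 2 (S (K 0) (K 0))) (S (K 0) (V (K 1) (K 0)))) (K 0))) (T (S (V (U (F 375 (T (S (V (K 1) (K 0)) (K 1)) (K 0))) (T (S (V (U (F 375 (T (K 1) (S (K 0) (K 1)))) (T (S (V (S (F 64 L) (K 3)) (F 64 L)) (K 3)) (S (V (S (F 68 L) (K 3)) (F 383 (S (K 0) (K 0)))) (F 503 (T (K 0) (K 0)))))) (U (K 7) (T (S (T (F 5 L) (K 7)) (F 69 (V (S L L) (K 1)))) (K 7)))) (F 359 (V (K 2) (U (K 1) (T (F 1 (V (K 0) (K 1))) (K 0)))))) (F 381 (S (F 2 (V (U (K 0) (T (S (K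 0) (S (K 0) (K 0))) (K 0))) (K 0))) (V (K 1) (K 0)))))) (K 4)) (F 485 (V (F 1 (U (K 1) (T (K 1) (K 0)))) (K 0)))) (F 381 (S (K 0) (V (K 1) (K 0)))))))) (F 2349 (V (K 2) (U (F 61 (T (K 0) (K 0))) (T (F 51 (S (V (K 1) (K 0)) (V (K 1) (U (K 0) (T (K 0) (S (K 0) (K 1))))))) (S (F 29 (V (K 1) (K 0))) (F 36 (V (K 2) (U (K 2) (F 4 (T (S (F 6 (S (K 0) (K 0))) (F 1 (V (K 0) (K 1)))) (K 0))))))))))))
noncomputable def v1_1 : Tr := (S (V (U (F 887 (T (F 4 (S (V (K 0) (K 1)) (K 0))) (S (F 4 (V (K 0) (K 1))) (F 1 (V (K 1) (U (K 1) (S (T (K 1) (K 0)) (K 1)))))))) (T (F 608 (S (V (K 2) (T (F 128 L) L)) (V (K 2) (S L (K 2))))) (S (V (S (F 544 L) (S (F 544 L) (K 7))) (F 608 (V (S L (S L L)) (K 0)))) (F 608 (V (K 2) (V (S (S L L) (K 2)) (T (S (F 2 L) L) (S L L)))))))) (F 608 (U (K 0) (T (K 0) (S (K 0) (V (U (K 0) (V (S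 (K 0) L) (K 0))) (K 0))))))) (V (F 608 (U (K 2) (T (K 2) (S (V (K 2) (U (K 2) (S (V (K 2) L) (K 2)))) (K 2))))) (F 352 (U (T (F 250 (S (K 1) (V (K 0) (K 1)))) (S (V (U (K 0) (T (F 250 (S (K 1) (K 0))) (S (K 0) (S L (K 5))))) (K 0)) (F 250 (V (K 0) (K 1))))) (T (S (V (T (S (F 2 L) (K 2)) (V (S (F 2 L) (K 2)) (S (K 0) (F 2 L)))) (K 0)) (V (K 2) (S (K 0) L))) (S (V (U (T (S (S (K 0) (F 2 L)) L) (V (S L (K 2)) (K 0))) (T (V (S (F 2 L) (K 2)) L) (S (S L L) (S L L)))) (K 0)) (V (U (V (K 2) (S L (K 2))) (V (K 2) (S L L))) (V (T (S (K 0) L) (S L L)) (K 0)))))))))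
noncomputable def v1_2 : Tr := (S (V (U (F 1895 (T (F 4 (S (K 0) (K 1))) (F 2 (S (K 0) (K 1))))) (T (F 613 (S (F 33 (V (F 3 (U (K 0) (F 1 (T (K 0) (K 0))))) (F 8 (U (K 1) (T (F 1 (S (K 0) (K 1))) (F 2 (S (K 0) (V (K 1) (K 0))))))))) (V (K 2) (U (K 2) (T (K 2) (S (V (K 2) L) (K 2))))))) (S (F 551 (V (F 57 (U (K 1) (T (F 1 (S (K 0) (K 0))) (S (K 1) (K 0))))) (U (K 5) (T (S (K 5) (V L (K 5))) (F 31 (S (K 0) (T (K 0) (K 0)))))))) (V (K 7) (U (F 1911 (T (K 0) (S (K 1) (K 0)))) (T (F 613 (S (V (K 2) (S (K 4) L)) (K 2))) (F 546 (S (V (K 2) (S (K 5) L)) (V (K 2) (S L (K 2))))))))))) (U (K 10) (T (F 613 (S (K 0) (V (U (K 0) (T (K 3) (V (S (K 0) L) (K 0)))) (K 0)))) (S (K 10) (V (U (K 3) (T (F 612 (S (K 4) (V (T (F 64 L) L) (K 0)))) (S (K 3) (V (S (F 548 L) (F 544 L)) (K 10))))) (K 10)))))) (V (K 7) (U (F 873 (T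 (K 2) (S (F 24 (V (F 4 (U (K 0) (T (K 0) (S (K 1) (K 0))))) (K 2))) (V (K 1) (F 6 (U (K 2) (T (K 0) (F 1 (S (K 0) (K 1)))))))))) (T (F 609 (S (V (U (K 3) (T (K 3) (S (V (K 2) (F 32 L)) (K 2)))) (K 0)) (V (K 2) (U (F 114 (T (K 0) (F 1 (S (K 0) (K 1))))) (T (S (S (K 0) (F 2 L)) (K 2)) (S (V (S (F 2 L) (K 2)) (K 0)) (V (K 2) (S (K 0) (F 2 L))))))))) v1_1))))
noncomputable def v1_3 : Tr := (T (S (F 546 (V (U (F 253 (T (K 0) (S (K 0) (K 0)))) (T (F 249 (S (K 1) (S (K 1) (K 0)))) (S (F 80 (V (K 4) (S (K 4) L))) (V (K 2) (F 16 L))))) (U (K 5) (T (S (K 5) (V (V (F 64 L) (K 5)) (K 5))) (S (K 5) (V (S (K 5) L) (K 5))))))) (V (F 562 (U (K 2) (T (K 2) (S (S (V (K 2) L) (K 2)) (K 2))))) (U (F 1910 (T (F 4 (S (K 0) (V (K 1) (U (K 1) (S (K 0) (K 1)))))) (S (F 1 (V (T (K 1) (K 0)) (K 1))) (F 2 (V (K 1) (K 0)))))) (T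 (F 546 (S (V (S L L) (V (S (K 5) L) (K 5))) (V (K 2) (S (V L (S L L)) (V (K 2) (S L L)))))) (S (F 546 (V (T L L) (S (K 5) (T L L)))) (V (F 546 (S (T (F 1 L) (F 16 L)) (K 2))) (U (F 546 (S (S L L) (T L L))) (S (F 546 (S L L)) (T (F 546 L) (F 530 L)))))))))) (F 530 (S (V (U (K 7) (T (S (F 80 (V (K 2) L)) (V (F 17 L) (F 16 L))) (F 119 (S (K 1) (K 0))))) (U (K 5) (T (S (K 5) (V (S (K 5) (F 16 L)) (K 5))) (S (K 5) (V (K 7) (S (K 5) (F 64 L))))))) (V (U (F 123 (T (S (K 0) (K 1)) (K 0))) (T (F 17 (S (V (K 4) (S L L)) (K 4))) (S (S (K 3) (F 1 L)) (V (K 2) (F 1 L))))) (U (K 7) (T (S (V (T (S (F 16 L) (F 16 L)) (K 7)) (S (S (K 5) L) (S L L))) (V (S (S (F 16 L) L) L) (U (K 7) (T (S L L) (K 7))))) (K 7)))))))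
noncomputable def v1_4 : Tr := (V (U (T (S (F 1911 (V (V (K 0) (K 1)) (K 1))) (V (K 7) (U (F 2038 (T (K 0) (K 1))) (T (F 608 (V (K 2) (S (K 0) L))) (S (F 544 L) (F 32 L)))))) (F 1906 (S (F 5 (V (K 0) (K 1))) (F 2 (V (U (K 1) (F 2 (T (S (K 1) (K 0)) (K 1)))) (K 0)))))) (T (S (V (U (S (S (F 544 L) (F 544 L)) (S (F 544 L) (F 544 L))) (T (S (F 544 L) (F 544 L)) (S (F 544 L) (F 544 L)))) (S (S (F 544 L) (F 544 L)) (V (F 544 L) (F 544 L)))) (V (V (K 7) (S (S (F 544 L) (F 544 L)) (K 7))) (U (T (S (F 544 L) (F 544 L)) (S (F 544 L) (F 544 L))) (T (S (F 544 L) (F 544 L)) (F 32 L))))) (S (V (U (T (S (F 546 (S L L)) (F 514 L)) (F 530 (T (S L (K 7)) (K 7)))) (T (S (F 514 L) (F 514 L)) (S (F 530 (S L L)) (F 18 L)))) (S (S (F 18 L) (F 18 L)) (V (S (F 18 L) (F 18 L)) (F 18 L)))) (V (U (T (S (F 514 L) (K 7)) (S (F 18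 L) (F 18 L))) (T (S (F 514 L) (F 514 L)) (S (F 18 L) (F 18 L)))) (U (T (F 256 L) (K 0)) (T (F 16 L) (S (F 18 L) (F 18 L)))))))) (U (F 1022 (T (K 0) (S (K 0) (V (S (K 0) (K 1)) (K 0))))) (T (S (K 10) (V (S (K 10) (V (S (F 320 L) (F 320 L)) (K 10))) (K 10))) (S (K 10) (V (U (S (K 10) (S (F 272 L) (F 272 L))) (T (S (F 272 L) (F 272 L)) (F 274 (S L L)))) (K 10))))))
noncomputable def v1_5 : Tr := (V (U (F 1915 (T (S (V (K 0) (U (K 0) (T (K 0) (K 1)))) (K 0)) (K 1))) (T (S (V (K 7) (U (T (S (F 96 L) (K 7)) (S (F 320 L) (K 2))) (T (S (F 544 L) (F 96 L)) (F 256 L)))) (K 7)) (S (V (S (S (F 18 L) (F 18 L)) (K 7)) (U (T (S (F 272 L) (K 2)) (V (K 2) (F 272 L))) (T (S (F 272 L) (F 272 L)) (F 274 (S (S L L) L))))) (F 1915 (V (K 0) (F 1 (U (K 0) (T (K 0) (K 0))))))))) (U (T (S (V (U (F 1018 (T (F 4 (S (K 1) (K 0)))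 (K 2))) (T (S (K 10) (S (F 320 L) (K 2))) (S (F 320 L) (F 320 L)))) (K 10)) (F 1019 (V (K 1) (U (K 0) (V (S (K 0) (K 1)) (K 0)))))) (F 1018 (S (F 2 (V (K 0) (K 1))) (F 1 (V (K 1) (K 0)))))) (T (S (V (U (S (S (F 320 L) (F 320 L)) (T (F 320 L) (F 320 L))) (S (S (F 320 L) (F 320 L)) (S (F 320 L) (F 320 L)))) (K 10)) (V (U (S (T (F 320 L) (F 320 L)) (K 2)) (V (S (F 320 L) (F 336 L)) (S (F 320 L) (F 336 L)))) (U (V (S (F 320 L) (F 336 (S L (K 5)))) (K 10)) (T (S (F 320 L) (F 320 L)) (F 336 (S L L)))))) (S (V (U (S (S (F 272 L) (F 272 L)) (V (F 272 L) (F 336 L))) (T (S (F 272 L) (F 272 L)) (F 274 (S L L)))) (F 336 (S (K 0) (T L (S (F 64 L) (F 64 L)))))) (V (U (F 336 (V (K 5) (S L (K 5)))) (T (F 336 (S L L)) (F 274 (S L (F 8 L))))) (F 336 (S (T L L) (T L (F 64 L)))))))))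
noncomputable def v1_6 : Tr := (V (U (F 1915 (T (K 0) (K 1))) (T (S (V (K 7) (U (F 1918 (T (K 0) (S (V (K 0) (U (K 0) (S (K 1) (K 0)))) (K 0)))) (T (K 7) (S (V (K 7) (U (F 546 (T (F 251 (S (K 0) (K 0))) (S L (K 2)))) (T (F 546 (S L (K 2))) (F 530 (S L L))))) (K 7))))) (K 7)) (S (V (K 7) (U (F 2042 (T (S (K 1) (K 0)) (K 1))) (T (S (F 530 (V (T (K 2) (S (F 1 L) (K 2))) (U (K 7) (S (S L L) (S L L))))) (V (K 7) (S (F 530 (S L L)) (F 1042 L)))) (F 1562 (S (V (T (S (K 5) L) (K 5)) (K 5)) (V (S L (K 1)) (F 15 (T (S (K 0) (K 1)) (K 0))))))))) (F 1915 (V (K 0) (U (K 1) (T (K 0) (K 1)))))))) (U (F 1018 (T (S (F 2 (V (K 0) (K 1))) (F 1 (V (K 1) (K 0)))) (K 2))) (T (S v1_4 v1_5) (S (V (U (K 0) (T (S (V (U (K 0) (S (F 18 L) (F 18 L))) (U (K 0) (V (F 18 L) (F 274 (S (F 2 L) L))))) (V (U (K 0) (S (F 18 L) (F 18 L)))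 (U (K 0) (T (S (F 18 L) (F 274 (S L L))) (K 0))))) (K 0))) (F 274 (U (F 126 (T (S (K 1) (K 0)) (K 0))) (T (S (V (S (K 0) (T L (F 4 L))) (K 0)) (V (U (K 7) (S L L)) (K 0))) (F 68 (S (V (S L (K 0)) (K 5)) (V (K 0) L))))))) (F 274 (V (U (F 191 (T (K 0) (K 0))) (T (S (V (S (T L L) (K 6)) (U (K 7) (T (S L L) L))) (F 191 (V (K 0) (T (K 0) (K 0))))) (S (F 63 (V (S (K 0) (K 1)) (K 0))) (V (K 6) (S (F 32 L) (K 6)))))) (U (K 7) (T (S (V (U (K 7) (S L L)) (S (F 4 L) (S (F 4 L) (F 8 L)))) (V (S (S L L) (S (F 8 L) (F 8 L))) (S (F 8 L) (F 8 L)))) (K 7)))))))))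
noncomputable def v1_7 : Tr := (S (V (U (F 1017 (T (K 2) (F 4 (S (K 1) (V (K 0) (K 1)))))) (T (F 353 (S (V (U (K 0) (T (F 62 (S (K 1) (K 0))) (S (K 0) (V (S (F 2 L) (K 2)) (K 0))))) (K 0)) (V (U (K 6) (T (F 123 (T (K 0) (K 0))) (S (V (K 2) (S (K 0) (F 16 L))) (K 2)))) (K 0)))) (S (V (U (F 1017 (T (F 2 (S (K 1) (K 0))) (F 4 (S (K 1) (V (K 0) (K 1)))))) (T (F 352 (S (K 0) (V (T (F 128 L) L) (K 0)))) (S (V (S (K 10) (F 320 L)) (K 10)) (V (S (F 320 L) (F 336 L)) (K 10))))) (K 10)) (V (U (K 2) (T (F 360 (S (V (F 107 (T (K 1) (K 0))) (T (F 64 L) L)) (K 4))) (F 336 (S (V (K 5) (S L (K 5))) (K 5))))) (F 344 (U (K 0) (T (S (K 0) (V (S (K 0) (F 64 L)) (K 0))) (S (K 0) (V L (K 0)))))))))) (K 10)) (F 329 (V (U (K 5) (T (S (V (K 2) (U (K 6) (T (K 6) (S (V (F 8 L) (K 0)) (K 5))))) (F 91 (V (K 1) (K 0)))) (S (V (K 5)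 (U (K 5) (T (S (V (K 5) (F 16 L)) (K 5)) (F 93 (S (F 1 (S (K 0) (K 0))) (K 0)))))) (K 5)))) (F 28 (U (F 1 (T (F 2 (S (K 1) (V (K 0) (K 1)))) (K 1))) (T (F 4 (S (K 0) (V (U (K 1) (T (S (F 2 (V (K 0) (K 1))) (F 5 (T (K 0) (K 0)))) (F 4 (S (V (K 0) (K 1)) (K 0))))) (K 0)))) (F 11 (S (K 0) (K 0)))))))))
noncomputable def v1_8 : Tr := (V (U (F 1915 (T (K 0) (U (S (K 1) (K 0)) (S (K 1) (K 0))))) (T (S (V (K 7) (U (K 7) (T (K 7) (S (V (K 7) (U (F 1915 (T (K 0) (K 1))) (T (F 352 (S (V (K 2) (S L (K 2))) (K 2))) (S (V (K 7) (T (F 352 (S L L)) (S (F 320 L) (F 352 L)))) (F 1915 (V (K 0) (T (K 0) (K 1)))))))) (K 7))))) (K 7)) (S (V (K 7) (U (K 2) (T (S (V (K 2) (U (K 2) (T (S (V (F 2043 (T (K 0) (K 0))) (V (T (F 320 L) (F 336 (S L (K 5)))) (F 336 (T (S L (F 16 L)) L)))) (K 2)) (F 336 (S (V (K 5) (S (S L L) L)) (K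 5)))))) (K 2)) (F 338 (S (V (K 5) (U (K 5) (T (S (V (K 5) (S L (F 16 L))) (K 5)) (S (S (F 16 L) (F 16 L)) (K 5))))) (K 5)))))) (F 1915 (V (K 0) (U (K 1) (T (K 0) (K 1)))))))) (U (F 505 (T (F 2 (U (F 2 (S (K 0) (K 1))) (S (F 2 (V (K 1) (K 0))) (F 1 (V (K 1) (K 0)))))) (F 13 (U (S (K 0) (K 0)) (S (K 0) (K 0)))))) (T v1_7 (F 336 (S (V (U (F 252 (T (S (V (U (K 1) (T (S (K 1) (K 0)) (K 0))) (K 1)) (K 0)) (K 0))) (T (S (V (U (F 220 (T (F 2 (S (K 0) (V (K 1) (K 0)))) (F 1 (S (V (S (K 0) (K 1)) (K 0)) (K 1))))) (T (S (V (V (S (S (K 0) L) L) (K 0)) (K 0)) (V (S (S L L) (K 5)) (S (K 0) (F 16 L)))) (S (V (S (F 64 L) (F 64 L)) (K 0)) (V (S (F 64 L) (K 5)) (K 1))))) (K 0)) (V (U (K 5) (T (S (V (K 5) (S (F 16 L) (K 5))) (K 5)) (F 221 (S (V (K 0) (K 1)) (K 0))))) (F 253 (U (K 0) (T (S (K 0) (K 0)) (K 0)))))) (F 68 (S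 (V (U (K 4) (T (S (S L (K 4)) (K 4)) (K 3))) (K 4)) (F 47 (V (U (K 0) (T (S (K 0) (K 0)) (K 0))) (K 0))))))) (F 252 (U (K 1) (T (K 1) (K 0))))) (F 221 (V (U (K 0) (T (S (V (K 0) (K 1)) (K 0)) (F 1 (S (K 0) (K 0))))) (K 1))))))))
noncomputable def v1_9 : Tr := (S (F 140 (V (F 52 (U (K 2) (T (S (F 1 (V (K 0) (U (K 0) (T (S (S (K 1) (K 0)) (K 0)) (K 0))))) (F 2 (V (U (K 0) (T (S (K 1) (K 0)) (K 0))) (K 0)))) (K 2)))) (U (F 56 (T (F 1 (S (K 1) (K 0))) (F 4 (S (K 0) (K 1))))) (T (S (F 28 (V (F 1 (U (K 1) (T (K 1) (S (K 1) (S (K 1) (K 0)))))) (K 0))) (V (U (K 0) (T (S (V (K 0) L) (K 0)) (K 0))) (U (K 1) (T (S (K 5) (S L L)) (S L (K 2)))))) (F 48 (S (V (U (K 3) (T (F 3 (S (K 1) (K 0))) (F 12 (S (F 1 (S (K 0) (K 0))) (K 0))))) (F 9 (U (K 0) (T (K 0) (S (K 0) (K 1)))))) (F 5 (V (K 0) (K 1))))))))) (F 67 (V (U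 (F 56 (T (F 1 (S (K 0) (K 1))) (F 6 (S (K 0) (K 0))))) (T (S (V (U (K 1) (T (S (S L (K 1)) (K 1)) (F 60 (S (S (K 1) (K 0)) (K 0))))) (F 60 (U (K 1) (T (S (K 1) (V (S (K 1) (K 0)) (K 1))) (K 1))))) (F 61 (V (K 0) (U (K 0) (T (K 0) (K 0)))))) (F 56 (S (V (U (K 1) (T (F 1 (S (K 0) (K 1))) (F 6 (S (K 0) (K 0))))) (K 2)) (F 4 (V (K 0) (K 1))))))) (F 58 (U (K 1) (T (S (V (K 1) (U (K 1) (T (S (S (K 1) (K 0)) (K 0)) (K 0)))) (V (U (K 1) (T (S (K 1) (S (K 1) (K 0))) (K 0))) (K 1))) (K 1)))))))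
noncomputable def v1_10 : Tr := (V (F 3172 (U (F 95 (T (U (K 0) (S (K 0) (F 1 (V (K 1) (K 0))))) (K 0))) (T v1_9 (F 142 (S (V (K 0) (U (K 2) (T (S (V (K 0) (U (K 2) (T (S (V L L) (K 2)) (F 27 (S (T (K 0) (K 0)) (K 0)))))) (K 2)) (F 27 (S (V (K 0) (U (K 0) (T (K 0) (K 0)))) (K 0)))))) (F 27 (V (U (K 0) (T (S (K 0) (K 0)) (K 0))) (K 0)))))))) (F 4898 (U (F 478 (T (U (K 1) (S (K 1) (K 0))) (U (S (K 1) (K 0)) (S (V (T (K 1) (K 0)) (K 1)) (K 0))))) (T (F 478 (S (V (U (K 1) (T (K 1) (S (K 1) (V (K 0) (K 1))))) (K 1)) (V (U (K 0) (T (S (V (U (K 1) (T (K 1) (K 0))) (K 1)) (K 0)) (K 0))) (U (K 1) (T (K 1) (K 0)))))) (S (V (U (F 478 (T (S (K 1) (K 0)) (S (V (K 0) (K 1)) (K 0)))) (T (F 478 (S (V (U (K 1) (T (K 1) (S (V (S (K 1) (K 0)) (K 1)) (K 0)))) (K 1)) (K 0))) (S (V (U (F 479 (T (K 0) (K 0))) (T (S (V (S (F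 4 L) (K 5)) (F 478 (S (K 1) (K 0)))) (K 5)) (S (V (F 479 (T (K 0) (K 0))) (S (S (F 4 L) (F 4 L)) (K 5))) (K 5)))) (U (F 478 (T (K 1) (S (K 1) (K 0)))) (T (F 478 (S (K 1) (S (K 1) (K 0)))) (S (V (S (F 260 L) (S (F 260 L) (F 260 L))) (F 256 L)) (V (K 5) (S (F 260 L) (K 5))))))) (K 5)))) (F 324 (U (K 5) (T (K 5) (S (V (U (K 5) (T (K 5) (S (K 5) (U (K 5) (S (K 2) L))))) (K 5)) (F 25 (V (F 3 (U (K 0) (T (K 0) (S (T (K 0) (K 0)) (K 0))))) (U (K 0) (T (K 0) (F 1 (S (K 1) (K 0)))))))))))) (F 479 (V (K 0) (U (K 0) (T (K 0) (K 0))))))))))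
noncomputable def v1_11 : Tr := (T (F 287628 (S (V (U (F 870 (T (F 25 (U (K 0) (S (K 0) (V (K 1) (K 0))))) (U (F 5 (S (K 1) (F 2 (V (K 0) (K 1))))) (F 12 (S (F 2 (V (K 1) (K 0))) (F 4 (V (K 0) (K 1)))))))) (T v1_2 (S (V (U (F 1654 (T (S (F 10 (V (K 1) (K 0))) (F 1 (V (K 2) (F 4 (U (K 0) (T (K 0) (K 1))))))) (K 3))) v1_3) (U (K 3) (T (S (K 3) (V (U (K 3) (T (S (K 3) (V (U (K 3) (T (F 544 L) (F 546 (V L L)))) (K 10))) (S (K 3) (V (U (F 546 (V (S (K 5) (S (K 5) L)) (K 5))) (T (F 546 (S L L)) (F 530 (S L L)))) (F 530 (U (K 0) (S (K 0) L))))))) (K 10))) (S (K 3) (V (U (F 2038 (T (K 0) (K 1))) (T (S (K 3) (V (U (K 0) (S (F 530 L) (S (F 530 L) (F 18 L)))) (S (K 3) (F 18 L)))) (F 150 (S (F 31 (V (S (K 1) (K 0)) (K 1))) (V (K 6) (S L (K 6))))))) (K 10)))))) v1_6))) (F 338 (U (K 0) (T (K 0) (S (K 0) (V (U (K 0)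 (T (S (K 0) (V (U (K 0) (T (K 0) (S (K 0) (V (S (K 0) (S (K 0) L)) (K 0))))) (K 0))) (S (K 0) (V (U (F 118 (T (K 1) (K 0))) (T (S (K 0) (S (F 4 L) (F 4 L))) (F 119 (S (K 0) (K 0))))) (K 0))))) (K 0))))))) v1_8)) (F 346240 (S v1_10 (F 11981 (V (U (F 7 (T (K 0) (F 1 (U (S (K 0) (K 0)) (S (K 0) (K 0)))))) (T (F 5 (S (F 4 (V (K 1) (U (T (K 1) (K 0)) (T (S (V (K 1) (K 0)) (K 1)) (K 0))))) (F 2 (V (U (T (K 0) (K 1)) (T (K 0) (S (K 1) (V (K 0) (K 1))))) (K 1))))) (F 3 (S (F 5 (V (U (K 0) (T (S (K 0) (K 0)) (K 0))) (K 0))) (V (U (K 0) (F 1 (T (S (K 1) (V (K 0) (K 1))) (K 1)))) (K 1)))))) (F 22 (U (K 0) (T (S (K 0) (F 1 (V (U (K 0) (T (K 0) (K 0))) (K 0)))) (K 0)))))))))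
noncomputable def v1_12 : Tr := (U (F 275024 (V (F 1736 (U (T (F 106 (U (S (F 5 (V (K 1) (K 0))) (F 10 (V (K 0) (K 1)))) (S (F 5 (V (K 1) (K 0))) (F 10 (V (K 0) (K 1)))))) (F 84 (U (F 17 (S (K 1) (F 2 (V (K 0) (K 1))))) (S (F 14 (V (K 1) (K 0))) (F 21 (V (K 1) (K 0))))))) (T (S (F 110 (V (F 4 (T (K 0) (K 1))) (K 2))) (F 153 (V (F 9 (T (K 0) (K 1))) (F 6 (T (K 1) (K 0)))))) (F 86 (S (F 2 (V (K 2) (F 4 (T (K 1) (U (K 1) (S (K 1) (K 0))))))) (F 9 (V (T (K 1) (K 0)) (K 0)))))))) (F 2327 (U (F 40 (T (F 15 (U (S (K 0) (K 0)) (S (K 0) (K 0)))) (U (S (F 13 (V (K 0) (K 1))) (F 10 (V (K 0) (T (K 0) (U (F 1 (S (K 0) (K 1))) (F 6 (S (K 0) (K 0)))))))) (S (F 13 (V (K 0) (K 1))) (F 3 (V (K 0) (T (K 0) (F 1 (S (K 1) (K 0)))))))))) (F 68 (T (F 11 (S (V (K 0) (K 1)) (K 0))) (S (F 13 (V (K 0) (K 1))) (F 6 (V (K 2) (T (F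 6 (U (S (K 0) (K 0)) (S (K 0) (K 0)))) (F 1 (U (S (K 1) (K 0)) (S (K 1) (K 0)))))))))))))) (V v1_11 (F 260860 (T (S (F 11 (V (K 0) (K 1))) (V (F 7 (U (K 0) (T (K 0) (S (K 0) (V (K 1) (K 0)))))) (U (F 14 (T (K 0) (U (K 1) (F 2 (S (K 0) (K 0)))))) (T (F 10 (S (F 4 (V (K 1) (K 0))) (F 2 (V (K 1) (K 0))))) (F 25 (S (K 0) (V (K 1) (U (K 0) (F 1 (T (K 0) (K 0))))))))))) (F 9 (S (V (U (F 6 (T (K 0) (U (K 0) (S (K 0) (K 0))))) (T (F 6 (S (K 0) (K 0))) (S (K 1) (V (U (F 2 (T (K 1) (S (K 1) (K 0)))) (T (F 2 (S (K 1) (K 0))) (F 1 (S (V (U (K 1) (F 2 (T (K 0) (K 0)))) (K 1)) (K 0))))) (K 1))))) (K 1)) (F 1 (V (F 2 (U (K 0) (T (K 0) (S (V (K 0) (U (K 0) (T (K 0) (K 0)))) (K 0))))) (U (T (U (S (K 1) (K 0)) (S (K 1) (K 0))) (U (S (K 1) (K 0)) (S (K 1) (K 0)))) (T (S (K 1) (V (K 0) (K 1))) (S (K 1) (V (K 0) (K 1)))))))))))))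
noncomputable def treeV1 : Tr := (F 0x3fffffffffffffffffffffffffffffffffffffffffffebff7fffeb7fffffffffffffffffffffffffffffdfafdff7f73ffeeffbfffb7ffffe7fffff7ffffffffefb7fd (T (F 14988531 (U (F 2341 (V (U (F 13 (T (F 1 (U (F 2 (S (K 1) (V (K 0) (K 1)))) (F 4 (S (K 1) (V (K 0) (K 1)))))) (F 6 (U (S (V (K 0) (K 1)) (K 0)) (S (V (K 0) (K 1)) (K 0)))))) (F 40 (T (S (F 26 (V (K 0) (K 1))) (F 21 (V (K 1) (K 0)))) (S (F 22 (V (K 0) (K 1))) (F 13 (V (K 1) (K 0))))))) (K 3))) (V (T v1_0 (F 2413 (S (V (U (F 29 (T (K 0) (K 0))) (T (F 17 (S (V (U (K 2) (T (F 1 (S (V (K 1) (K 0)) (K 1))) (F 2 (S (V (K 1) (K 0)) (K 1))))) (K 2)) (F 2 (V (K 1) (K 0))))) (F 5 (S (V (F 1 (U (K 0) (T (S (V (K 1) (K 0)) (K 1)) (S (V (K 1) (K 0)) (K 1))))) (F 2 (U (K 1) (T (K 0) (S (K 1) (K 0)))))) (F 1 (V (K 1) (K 0))))))) (K 4)) (V (F 23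 (U (K 0) (T (K 0) (K 0)))) (U (F 30 (T (K 0) (K 0))) (T (S (F 13 (V (K 1) (K 0))) (F 22 (V (K 0) (K 1)))) (F 6 (S (V (U (K 2) (T (F 3 (S (K 0) (K 0))) (S (F 2 (V (U (K 1) (S (K 1) (K 0))) (K 1))) (F 4 (V (K 0) (K 1)))))) (K 0)) (V (F 1 (U (K 1) (T (K 1) (S (V (K 1) (K 0)) (K 1))))) (F 2 (U (K 1) (T (K 0) (S (K 1) (V (K 0) (K 1))))))))))))))) (F 4029 (T (K 0) (S (V (K 1) (K 0)) (V (K 1) (K 0)))))))) (F 35195396 v1_12)))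

theorem pV1 : chkV par treeV1 64 64 128 128 384 128 0 54613 Lc = true := by decide +kernel

noncomputable def v2_0 : Tr := (U (S (V (F 232 (T (F 4 (U (K 1) (S L (K 1)))) (U (K 1) (S (T (F 4 L) (V (F 4 L) L)) (K 1))))) (T (U (S (V (F 160 (U (K 3) (V (F 5 L) L))) (T (V (F 32 L) (S (S (F 32 L) (F 32 L)) (S (F 32 L) (K 2)))) (V (F 160 (S L (K 3))) (S (F 32 L) (F 32 L))))) (K 2)) (S (V (F 162 (V (T (F 5 L) (F 4 L)) L)) (T (F 32 L) (F 160 (S L L)))) (V (F 226 (U (K 2) (S L (K 2)))) (T (F 32 L) (F 160 (S L L)))))) (F 160 (U (S (V (T (S (F 4 L) (K 3)) (S (F 4 L) (K 3))) (T (V (S (F 4 L) (F 4 L)) (S L L)) (S L L))) (V (K 3) (T (K 3) (S L (K 3))))) (S (V (V (S (F 20 L) (F 4 L)) L) (T (S (F 32 L) L) L)) (V (U (K 3) L) (S (S L L) L))))))) (F 144 (V (K 3) (T (K 3) (U (K 3) (S (V (K 3) L) (K 3))))))) (S (V (F 194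 (T (F 5 (S (S L L) (U (S L L) (S L L)))) (U (S (S (F 5 L) (T (F 5 L) (F 4 L))) (T (F 4 L) (S (F 4 L) (F 4 L)))) (S (V (F 5 (S L L)) (F 1 L)) (V (F 4 L) (S (F 1 L) (F 4 L))))))) (F 160 (T (U (S (V (F 17 (S L L)) (S (F 16 L) (F 16 L))) (V (V (F 17 (S L L)) (S (F 17 L) (F 16 L))) L)) (V (F 17 (S L (S L L))) (F 48 (S L L)))) (U (S (V L L) (V L L)) (S (V (F 16 L) (F 48 L)) (V L (F 32 L))))))) (V (F 194 (T (U (K 3) (S (V (F 5 (S L (K 1))) (F 1 L)) (K 3))) (U (K 3) (S (S (F 4 L) (F 4 L)) (K 3))))) (T (U (F 160 (S (V (F 55 (T (K 0) (K 0))) L) (K 3))) (S (F 162 (V (V (S (F 1 L) (F 1 L)) (F 1 L)) (F 16 L))) (F 208 (V (F 8 L) (F 17 (S L L)))))) (F 144 (U (V (S L (K 3)) (S (F 32 L) (F 33 L))) (V (S (F 1 L) (F 33 L)) (S (F 34 L) (F 33 L)))))))))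
noncomputable def v2_1 : Tr := (U (S (V (T (F 72 (U (S (U (K 3) (V (K 3) (S (F 2 L) (K 3)))) (K 3)) (S (V (S (F 1 L) (F 1 L)) (S L L)) (S (T (K 3) (F 1 L)) (K 3))))) (U (F 72 (S (V (K 3) (T (S L (K 3)) (S L (F 4 L)))) (K 3))) (S (V (F 136 (S (S L L) (S (F 4 L) (F 4 L)))) (F 72 (T (S L (F 4 L)) (S L (F 4 L))))) (F 88 (V (K 2) (S L (F 1 L))))))) (T (U (S (V (F 72 (T (S (F 2 L) L) (T L L))) (F 96 (S (S L L) L))) (V (K 2) (S (F 96 L) (F 88 L)))) (S (V (F 72 (T (S (F 2 L) (F 2 L)) L)) (F 96 (S L (F 32 L)))) (V (F 72 (S L L)) (F 97 (S L (F 2 L)))))) (U (S (V (F 72 (T (S L L) (S L (F 4 L)))) (F 96 (T L (T (F 32 L) (K 0))))) (F 88 (V (V L L) (K 3)))) (S (V (F 72 (S L L)) (F 97 (S L (F 2 L)))) (F 80 (V (S (F 4 L) (F 36 L)) (F 34 L))))))) (F 81 (V (K 3) (T (U (K 3) (S (V (K 3) L) (S (F 4 L) (K 3)))) (U (S (F 7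 (V (K 1) (K 0))) (S (F 4 L) (K 3))) (V (F 4 L) (F 4 L))))))) (S (V (T (U (F 72 (S (V (T (F 17 L) (S (F 1 L) (F 17 L))) (S L L)) (V (F 17 (S L (K 1))) L))) (S (V (F 10 (V (S (F 3 L) (F 1 L)) (F 2 L))) (F 72 (S (F 2 L) L))) (F 72 (V (F 17 (T L L)) L)))) (U (S (V (F 136 (S L (F 4 L))) (F 72 (V (S L L) L))) (F 88 (V (F 1 L) L))) (S (V (F 10 L) (F 72 (S L L))) (F 24 (V (F 17 L) (T (F 2 L) (F 34 L))))))) (T (U (F 96 (S (V (S L L) (F 32 L)) (V L (F 32 L)))) (V (S (F 96 L) (F 65 L)) (F 97 (S (F 16 L) (F 2 L))))) (F 65 (U (S (V L (F 2 L)) (V (F 4 L) (F 6 L))) (S (V L (F 6 L)) (S L (F 4 L))))))) (V (F 24 (T (F 3 (S (V (F 2 (U (K 1) L)) (T L L)) (F 3 (T (K 1) L)))) (S (V (F 49 L) (F 34 L)) (F 51 L)))) (F 81 (T (S (V (T L L) L) (S L (F 1 L))) (V (S L (F 5 L)) L))))))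
noncomputable def v2_2 : Tr := (U (S (V (T (U (S (V (T (U (S (T L (F 4 L)) (V (F 4 L) (F 5 L))) (V (F 4 L) (F 5 L))) (V (S (F 4 L) (F 132 L)) (F 5 (S L L)))) (F 5 (V (T (S L L) (S L (F 1 L))) (K 3)))) (V (T (F 5 (V (K 4) (S L (K 4)))) (V (F 4 L) (F 5 L))) (F 5 (V (T L (F 4 L)) (K 3))))) (S (V (V (F 4 L) (F 5 L)) (F 7 (S L L))) (F 5 (V (T L L) (F 4 L))))) (U (S (V (F 132 (T (V (S L (F 32 L)) (S (F 32 L) (F 32 L))) (V L (F 34 (S (K 3) L))))) (F 5 (T (S L L) (K 1)))) (F 132 (V (T (V L (F 32 L)) (S (F 32 L) (F 34 L))) (F 34 (U (K 3) (S L L)))))) (F 133 (S (V (T L L) L) (V L (F 2 L)))))) (K 4)) (F 37 (V (T (U (S (V (K 3) (T L L)) (K 3)) (S (V (T L (F 1 L)) (F 1 L)) (V (K 3) (F 1 L)))) (U (S (V (T (K 3) (F 1 L)) (S (F 1 L) (F 1 L))) (V (K 3) (F 1 L))) (V (S (F 1 L) (F 1 L)) (F 1 L)))) (T (U (K 2) (V (F 1 L)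 (K 2))) (F 17 (U (K 1) (S L L))))))) (F 5 (S (V (T (U (S (V (F 32 L) (F 33 L)) (T (F 32 L) (F 1 L))) (S (F 32 L) (F 33 L))) (V (S (F 33 (S L L)) (F 5 L)) (F 33 L))) (F 36 (T (S L L) (F 8 L)))) (F 5 (V (T (V (S L L) (F 1 L)) (V (S L L) (F 1 L))) (F 1 (T (S L L) L)))))))
noncomputable def v2_3 : Tr := (S (V (T (F 644 v2_0) (F 641 v2_1)) (T (F 524 v2_2) (F 1157 (U (S (F 33 (V (T (U (S (V (U (K 0) (S (K 0) L)) (K 0)) (V (U (K 0) (F 2 L)) (K 0))) (S (V (S L (F 2 L)) (F 2 L)) (V (F 2 L) (F 2 L)))) (U (K 0) (V (S L (F 2 L)) (K 0)))) (K 0))) (V (T (F 17 (U (S (V L (K 0)) (V (K 4) (F 2 L))) (V (F 2 L) (F 2 L)))) (U (S (F 61 (V (K 1) (K 0))) (S (F 16 L) (F 16 L))) (F 49 (V L L)))) (F 48 (T (V L (K 0)) (K 0))))) (F 33 (S (V (T (U (S L (S (F 2 L) (F 2 L))) (S (F 16 L) (F 2 L))) (V (S L (F 2 L)) (F 18 L))) (F 26 L))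 (V (T (V (F 2 L) (F 18 L)) (V (F 2 L) (F 2 L))) (F 18 L)))))))) (F 1173 (V (F 33 (T (U (K 2) (S (V (K 2) (T (K 2) (S L (K 2)))) (K 2))) (U (F 2 (S (V (K 1) (T (K 1) (T (K 1) L))) (K 1))) (S (V (F 10 L) (V (F 2 L) (S L (F 2 L)))) (F 10 L))))) (T (U (S (V (T (K 2) (U (K 2) (F 1 L))) (F 17 (T (U (K 1) (S L L)) (U (V L (K 1)) (S L L))))) (V (K 2) (T (U (K 2) (F 1 L)) (U (F 51 (V (K 1) (K 0))) L)))) (S (V (T (S (F 17 L) (F 33 L)) (F 1 L)) (F 19 (T L L))) (V (F 33 (T L L)) (F 3 (T (F 2 L) L))))) (U (S (V (T (V (F 1 L) L) (U (V (K 1) (F 8 L)) (S (F 1 L) (F 9 L)))) (T (V (F 16 L) (K 3)) (V (F 16 L) (F 22 L)))) (V (T (F 33 (S L (K 2))) (S (F 8 L) (F 40 L))) (T (U (V (F 32 L) (F 20 L)) (S (F 16 L) (F 2 L))) (U (S (F 4 L) L) (S (F 4 L) (F 4 L)))))) (S (V (V (F 1 L) (F 1 L)) (S (F 18 L) (F 16 L))) (V (S (F 1 L) (F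 33 L)) (V L (F 2 L)))))))))
noncomputable def v2_4 : Tr := (T (F 66 (S (U (V (T (F 11 (S (S L L) (S L (S L L)))) (S (F 3 (V (F 4 (S L (S L L))) L)) (U (F 9 (T (S (F 8 L) L) L)) (F 3 L)))) (T (V (F 3 (U (S (F 1 L) L) (F 1 L))) (F 34 L)) (F 34 (V (S L L) (S (F 8 L) L))))) (F 35 (V (S L L) (S L L)))) (U (V (T (U (S (F 3 (V (F 4 (S L L)) L)) (F 9 (S (F 8 L) (F 4 L)))) (S (F 11 L) (F 33 (S (F 8 L) (F 6 L))))) (S (V (F 9 L) (F 33 L)) (F 5 (V (F 4 (U L (F 4 L))) (F 1 L))))) (V (T (S (F 3 (U L (F 1 L))) (F 33 (S (F 8 L) (F 4 L)))) (S (F 34 L) (F 37 (S L L)))) (F 34 (T (F 8 (S L (F 1 L))) (F 4 L))))) (F 35 (V (S L (F 4 L)) (F 4 L)))))) (S (U (V (T (F 66 (U (V (S (V (F 9 (S L L)) (F 8 L)) (F 9 L)) (S (F 2 L) (F 32 L))) (V (U (F 9 (S L L)) (S (F 3 L) (F 41 L))) (S (F 34 L) (F 33 L))))) (U (S (V (F 10 (S L (F 32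 L))) (F 65 L)) (F 17 (V (F 40 (S L (F 8 L))) (F 2 L)))) (F 3 (S (V (F 16 L) (F 2 L)) (V (F 25 L) (F 10 L)))))) (F 65 (T (V (S (F 34 (S L L)) (F 32 L)) (F 34 (S L (F 4 L)))) (U (V (S (F 2 L) (F 4 L)) (F 6 L)) (S (T (F 34 L) (F 2 L)) (F 4 L)))))) (F 67 (V (T (V (F 3 (S L L)) (F 2 L)) (S (T (F 2 L) (F 8 L)) (S (F 4 L) (F 5 L)))) (V (S (F 2 L) (F 6 L)) (F 6 L))))) (F 80 (U (V (T (S (V (F 21 (U (S L (F 1 L)) (F 1 (T L L)))) (F 48 (S L (F 8 L)))) (F 53 L)) (F 52 (S (V (F 4 L) L) (F 4 L)))) (V (U (F 32 L) (F 48 L)) (F 32 L))) (F 48 (V (F 8 (T L (F 2 L))) (S (F 4 L) (F 8 L))))))))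
noncomputable def v2_5 : Tr := (V (F 98 (T (U (S (V (V (F 33 (T (K 2) L)) (T (F 33 L) (F 32 L))) (T (F 34 (S (V L L) L)) (V (F 32 L) (F 34 (S L (F 1 L)))))) (F 34 (V (K 2) (T L L)))) (S (V (T (F 32 L) (F 32 L)) (V (S (F 32 L) (F 34 L)) (F 34 (S L (F 1 L))))) (V (F 97 L) (F 34 (S L (F 17 L)))))) (U (S (V (T (S (F 32 L) (F 33 L)) (S (F 32 L) (F 96 L))) (T (U (K 4) (S (F 32 L) (F 96 L))) (V (S (F 64 L) (F 96 L)) (F 64 L)))) (F 96 (V (K 2) (V L L)))) (S (V (T (F 32 L) (F 96 (S L (F 16 L)))) (F 96 (V (S L L) (S L (F 8 L))))) (F 96 (V (F 16 L) (S L (F 8 L)))))))) (T (F 326 (U (S (V (T (U (K 4) (F 4 L)) (V (S (F 4 L) (K 4)) (K 4))) (K 0)) (F 47 (V (S (K 0) (K 0)) (K 0)))) (S (V (V (S (F 4 L) (F 36 L)) (F 36 (S L L))) (V (F 32 L) (F 34 (S (K 3) L)))) (F 36 (V (S L L) L))))) (F 69 (U (F 74 (S (V (T (U (K 0) (V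 L (K 0))) (U (K 0) (V (S L L) (K 3)))) (K 3)) (F 6 (V (F 1 (S (K 0) (K 0))) (K 0))))) (S (V (F 72 (V (T (F 8 L) L) (U (F 8 L) (F 8 L)))) (F 66 (S (K 4) L))) (F 10 (V (S (F 1 L) (F 1 L)) L)))))))
noncomputable def v2_6 : Tr := (U (S v2_5 (F 359 (V (F 1 (T (U (K 1) (V (K 1) L)) (U (K 2) (V (K 2) (S L (K 2)))))) (T (U (S (K 3) (S (K 3) L)) (V L L)) (U (F 5 (S (F 2 (V (S (K 0) (K 0)) (K 0))) (V (K 1) (K 0)))) (S (V L L) (V (F 1 L) L))))))) (S (V (F 38 (T (U (S (V (S (F 8 L) (F 72 L)) (S (T (F 2 L) (F 72 L)) (F 72 L))) (F 72 (V (F 16 L) (S (F 8 L) (F 24 L))))) (S (V (F 72 (T L L)) (S (T (F 66 L) (F 72 L)) (F 72 L))) (F 72 (S L (F 16 L))))) (F 72 (U (S (V (T L L) (V (S L (F 8 L)) (S L (F 8 L)))) (V (F 16 L) L)) (S (V (S L (F 1 L)) (V L L)) (T L L)))))) (F 71 (T (U (S (V (S (F 2 L) (F 10 (S L L))) (T (F 6 L)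 (F 2 L))) (V (F 10 L) (F 6 L))) (S (V (S (F 2 L) (F 2 L)) (F 6 (S L L))) (T (F 2 L) (F 2 L)))) (U (S (V (V (S (F 8 L) (F 10 L)) (F 2 L)) (F 2 L)) (V (F 10 (S L L)) (F 2 L))) (S (V (V (F 2 L) (F 2 L)) (F 2 L)) (V (F 2 L) (F 2 L))))))) (F 71 (V (F 9 (T (F 8 (T L L)) (S (T L L) (F 1 L)))) (T (U (F 10 (V L L)) (S (F 2 L) (F 10 L))) (F 10 (U (S (V L L) (S L L)) (S (V L L) (S L L)))))))))
noncomputable def v2_7 : Tr := (V (F 49 (T (U (S (V (T (S L (K 2)) (S L (K 2))) (V (S (S L L) L) (S L L))) (V (K 2) (T (S L (K 2)) (S L (K 2))))) (S (V (V (F 32 L) (S (F 32 L) (F 32 L))) (V (S (F 32 L) (F 32 L)) (S L (F 32 L)))) (V (F 33 (S L L)) (V (F 32 L) (F 32 L))))) (U (S (V (T (S L (K 2)) (V L (S (F 8 L) (K 2)))) (T (U (V (F 8 L) (F 8 L)) (S (F 8 L) (F 8 L))) (U (V (F 8 L) (F 8 L)) (S (F 8 L) (F 8 L))))) (V (K 2) (T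 (S L (K 2)) (V (K 2) (S (F 8 L) (F 8 L)))))) (S (V (T (S L (F 32 L)) (S L (F 8 L))) (T (S L L) (V L (S (F 8 L) (F 8 L))))) (V (S (S (F 32 L) (F 32 L)) (S (F 32 L) (K 2))) (V (S (F 8 L) (F 32 L)) L)))))) (T (U (S (F 176 (V (T (U (K 0) (F 32 L)) (S (K 0) (S (F 4 L) (F 4 L)))) (K 0))) (V (V (F 49 L) (F 184 L)) (K 8))) (S (F 49 (V (T (V (F 32 L) (F 34 (S L L))) (S (S (F 8 L) (F 8 L)) (F 8 L))) (K 0))) (F 50 (V (V (F 32 L) (F 34 L)) (V (F 2 L) (K 0)))))) (F 56 (U (S (V (T (S (K 0) L) (S (K 0) L)) (K 0)) (V (S (S L L) (S L L)) (K 0))) (S (V (V (T (F 32 L) (S (F 32 L) (F 32 L))) (S (S (K 0) (F 32 L)) (F 32 L))) (K 0)) (V (V (S (F 32 L) (F 32 L)) L) (V (S (F 2 L) (F 2 L)) (K 0))))))))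
noncomputable def v2_8 : Tr := (T (U (S (V (F 51 (S (V L L) (S L L))) (F 146 (T (F 32 L) (U (S (K 0) (F 8 L)) (V (F 32 L) (F 40 L)))))) (V (F 51 (S L L)) (F 146 (S (F 32 L) (F 4 L))))) (F 19 (S (V (V (T (F 8 L) (F 8 L)) L) (V (F 2 L) (V (F 2 L) (F 18 L)))) (V (S (F 8 L) (F 8 L)) (S (F 2 L) (F 2 L)))))) (U (S (V (F 57 (V (S (S L L) L) (S (U L L) L))) (T (F 152 (U (S (K 0) (F 4 L)) (V (F 32 L) (S (K 0) (F 16 L))))) (F 25 (V (S (S (F 8 L) (F 8 L)) (F 8 L)) (S (K 0) (F 2 L)))))) (V (F 49 (V (S (F 8 L) (F 32 L)) (S (F 8 L) (F 8 L)))) (T (F 152 (V (F 4 L) (F 16 L))) (V (F 56 (S (F 32 L) (F 2 L))) (F 152 L))))) (S (V (T (F 19 (V (S (F 8 L) (F 8 L)) L)) (F 49 (V L (S (F 8 L) (F 8 L))))) (V (F 27 (S L (S L L))) (F 137 (U (T (F 40 (S L (S L L))) (F 8 L)) (T (F 40 L) (T (S (F 34 L) (F 40 L)) (F 32 L))))))) (V (F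 51 (V (S L L) (S L L))) (V (F 27 (S L L)) (F 152 (S (U (T (F 48 L) (F 32 L)) (F 48 (V (S L L) L))) (U (F 16 L) (F 48 (S L L))))))))))
noncomputable def v2_9 : Tr := (S (V (F 49 (T (U (S (V (T (F 32 L) (F 32 L)) (V (S (F 32 L) (F 32 L)) (S (F 32 L) (F 32 L)))) (V (F 33 L) (S (F 32 L) (F 32 L)))) (S (V (S (F 32 L) (F 48 L)) (V (S (F 32 L) (F 48 L)) (S (F 32 L) (F 32 L)))) (V (F 33 L) (S (F 32 L) (F 32 L))))) (U (S (V (V (F 32 L) (S (F 32 L) (F 32 L))) (V L L)) (V (S (F 32 L) (F 33 L)) (V (S (F 32 L) (F 32 L)) (S (F 32 L) (F 32 L))))) (S (V (S (F 32 L) (F 32 L)) (V (S (F 32 L) (F 32 L)) (S (F 32 L) (F 32 L)))) (V (F 32 L) (V (F 32 L) (S (F 32 L) (F 32 L)))))))) v2_8) (V (F 51 (T (V (F 1 L) (U L L)) (U (S (V (F 1 L) (V (S L L) (S L L))) (V (K 2) (U L L))) (S (V (F 17 (S L L)) (S L L)) (V (F 17 L) L))))) (T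 (F 146 (U (S (V (F 36 (S L L)) (F 4 L)) (V (F 36 (S L L)) (F 4 L))) (S (V (F 36 (S L L)) (F 32 L)) (V (F 36 L) (F 32 L))))) (U (S (V (F 51 (V L L)) (F 184 (V (S (S (F 8 L) (F 8 L)) (F 8 L)) (T (F 8 L) L)))) (F 50 (V (V (S (F 32 L) (F 32 L)) (S (F 32 L) (F 2 L))) (V (F 2 L) (F 10 (S L L)))))) (S (V (F 51 (S L L)) (T (F 147 L) (V (F 51 (S (F 8 L) (F 2 L))) (F 154 (S L (F 16 L)))))) (F 50 (V (V (F 32 L) (F 34 (S L L))) (V (F 34 (S L L)) (F 2 L)))))))))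
noncomputable def v2_10 : Tr := (U (F 24 (S (K 0) (V (T (U (K 0) (S (V (F 16 L) (K 0)) (V (F 16 L) (K 0)))) (U (K 0) (S (K 0) (V (V (S (F 4 L) (F 20 L)) (U (K 0) (F 16 L))) (K 0))))) (K 0)))) (F 10 (S (V (T (U (S (K 0) (U (K 0) (V (F 8 L) (K 0)))) (V (S (F 10 (U (T (F 1 L) (S (K 3) L)) (F 1 L))) (S (F 40 L) (F 8 L))) (F 58 L))) (U (S (K 0) (V (V (S (K 0) (F 8 L)) (K 0)) (K 0))) (V (V (S (U (F 40 (U (K 3) (S (K 3) L))) (F 34 L)) (U (T (F 8 L) (F 8 L)) (F 40 (S L L)))) (S (F 50 L) (T (F 40 L) (S (F 34 L) (F 40 L))))) (F 50 (U (K 2) L))))) (K 0)) (V (T (U (S (V (S (F 8 L) (F 8 L)) (K 0)) (V (F 8 L) (F 8 L))) (V (S (F 8 L) (F 8 L)) (F 10 L))) (U (S (V (V (S (F 8 L) (F 8 L)) (S (K 0) (F 8 L))) (K 0)) (V (V (S (F 8 L) (F 12 L)) (S (F 8 L) (F 8 L))) (U (S (K 0) (F 8 L)) (F 8 L)))) (S (V (S (F 8 L) (F 8 L)) (V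 (F 24 L) (F 18 (S (F 1 L) (F 2 L))))) (V (S (F 8 L) (F 8 L)) (V (S (F 24 L) (F 8 L)) (F 24 L)))))) (F 26 (U (K 2) (T (F 1 L) (S (K 2) (V (V L (F 1 L)) (K 2))))))))))
noncomputable def v2_11 : Tr := (V (T (F 2242 v2_6) (F 10386 (U (S v2_7 (V (F 51 (T (U (K 2) (V (K 2) (S L (K 2)))) (U (K 2) (S (V (K 2) (V (S L (K 2)) (S L L))) (K 2))))) (T (U (F 176 (S (V (V (F 16 L) (F 16 L)) (S (F 4 L) (F 20 L))) (F 20 (V (K 2) (S L L))))) (F 50 (S (V (S (F 32 L) (F 34 L)) (F 2 L)) (V (F 34 (S L L)) (F 2 L))))) (U (F 56 (S (V (V (S L (K 2)) (S (F 2 L) (F 2 L))) (V (S (K 0) (F 2 L)) (K 0))) (V (K 2) (T (F 18 (S L L)) (V (F 18 (S L (K 2))) (F 2 L)))))) (S (V (T (F 50 L) (T (F 50 L) (F 56 L))) (F 184 (V L (S L L)))) (F 50 (V (S L (S L L)) (F 10 (V (S L L) (S L L)))))))))) v2_9))) (F 10390 (T (F 18 (U (S (V (T (U (K 0) (S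 (K 0) (S (K 0) (F 2 L)))) (K 0)) (K 0)) (V (T (U (S (K 0) L) (V (F 32 L) (F 10 L))) (U (F 12 (S (K 3) (V L (K 3)))) (S (S (K 0) (F 8 L)) (S (F 8 L) (F 8 L))))) (K 0))) (S (V (T (F 34 (V (U (S L L) L) (F 2 L))) (V (S (U (F 10 (S (K 3) L)) (F 34 L)) (F 32 L)) (F 42 L))) (F 58 L)) (V (T (U (S (F 2 L) (F 32 L)) (S (F 34 L) (F 32 L))) (U (V L (F 10 L)) (S (F 2 L) L))) (F 26 (S (F 1 L) L)))))) v2_10)))
noncomputable def v2_12 : Tr := (U (F 40 (S (V (K 1) (T (U (K 1) (S (V (K 1) L) (K 1))) (U (F 29 (S (V (K 0) (T (K 0) (T (K 0) (K 0)))) (K 0))) (S (V (K 1) (T L (V (S (F 4 L) (K 1)) (S (F 4 L) (F 4 L))))) (V (K 1) (U (K 1) (V (K 1) (S (F 4 L) (K 1))))))))) (K 1))) (S (V (F 75 (T (F 1 (U (K 1) L)) (U (K 1) (T (F 1 L) (S (S L L) (F 1 L)))))) (T (F 40 (U (S (V (F 16 L) L) (V (K 1) L)) (V (S (F 16 L) (F 25 L)) (S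 (F 16 L) (F 16 L))))) (U (S (V (V (F 9 (S L (K 2))) (F 40 (S L L))) (F 40 (V (S L L) L))) (F 40 (V (K 1) (V (S L L) (S L L))))) (S (F 40 (V (V (F 16 L) (S (F 16 L) (F 16 L))) (S L L))) (V (F 33 (V (S (F 20 L) (F 17 L)) (F 4 L))) (F 40 (T L (S L L)))))))) (V (K 4) (T (F 104 (V (F 8 (S L (K 2))) (T (S L (F 8 L)) (F 8 (U (K 2) (S L (F 1 L))))))) (U (F 40 (S (V (K 1) (U (K 1) (S L (K 1)))) (K 1))) (S (V (F 99 (T (F 2 L) L)) (T (F 40 L) (U (F 40 L) (F 34 (V (F 16 L) (S (F 4 L) (F 4 L))))))) (F 34 (V (K 1) (V (F 17 (S L (K 2))) (S (S L (F 16 L)) (U (K 1) (S (F 16 L) (F 17 L)))))))))))))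
noncomputable def v2_13 : Tr := (V (T (F 294 (U (F 12 (S (V (K 2) (S L L)) (K 2))) (S (V (F 12 (S L (K 2))) (F 8 L)) (V (K 1) (V (F 4 L) (F 8 L)))))) (F 116 (U (S (V (K 2) (V (S (F 2 L) (K 2)) (T (F 2 L) L))) (V (K 2) (T (K 2) (V (K 2) L)))) (S (V (T (S (F 2 L) (K 2)) (V (K 2) (S (F 2 L) (F 2 L)))) (V (S (F 2 L) (F 2 L)) (S (F 2 L) (F 2 L)))) (V (K 2) (T (V (F 2 L) (F 2 L)) (S (V (F 2 L) (F 8 L)) (V (K 2) (F 8 L))))))))) (F 52 (T (U (F 34 (S (V (S (K 4) L) (K 4)) (V (U (K 0) L) (V (S (K 4) L) (K 4))))) (S (F 34 (V L (F 2 L))) (V (F 34 (S (F 2 L) L)) (F 48 (S L L))))) (U (S (V (T L (F 24 (V (S (K 4) L) (K 4)))) (K 0)) (V (T (V (F 10 L) (F 16 L)) (F 24 (U (V L (S (K 4) L)) (V L (S L L))))) (T (V (F 16 L) (K 0)) (U (K 0) (S (K 0) (F 16 L)))))) (S (V (T (F 48 (S L L)) (S (F 16 L) (F 16 L))) (F 48 (U (K 4)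 (T L L)))) (V (T (F 16 L) (V (F 24 (S L L)) (F 16 L))) (T (S (F 48 L) (F 16 L)) (S (F 16 L) (F 16 L)))))))))
noncomputable def v2_14 : Tr := (T (F 294 (U (S (V (S (F 4 L) (F 4 L)) (F 8 L)) (V (S (F 4 L) (F 4 L)) L)) (S (V (F 4 L) (F 16 L)) (V (F 4 L) (S (F 16 L) (F 16 L)))))) (U (S (V (F 356 (T (V (F 16 L) (F 16 L)) (V L (S (F 4 L) (F 4 L))))) (F 52 (T (F 34 L) (V (F 24 L) (F 48 L))))) (V (F 356 (T (U (K 1) (F 16 L)) (V (S (F 8 L) (K 1)) (U (S (F 4 L) (K 1)) (S (F 8 L) (F 8 L)))))) (T (F 292 (V (S (F 44 L) (F 20 L)) (F 24 L))) (F 124 (V (S L (S L L)) (S L L)))))) (S (F 38 (V (T (F 10 (S L L)) (V (F 10 (S (U L (F 2 L)) (U L (S (F 2 L) (F 2 L))))) (F 40 (S (S (F 8 L) (F 8 L)) (S L L))))) (T (F 34 (V L (F 2 L))) (F 48 (V L L))))) (V (F 76 (V (T (F 42 L) (S (F 10 (U L (S (F 2 L) (F 2 L)))) (F 34 L))) (S (F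 40 (V (T (F 8 L) (S L L)) (T (F 8 L) L))) (U (F 10 (T (S (F 2 L) (F 2 L)) L)) (T (F 42 L) (S (F 40 L) (F 34 L))))))) (F 44 (T (V (F 34 L) (F 48 L)) (V (F 24 (S L L)) (F 16 L))))))))
noncomputable def v2_15 : Tr := (S (V (F 292 (T (U (S (V (F 36 L) (F 40 L)) (V (F 36 L) (F 40 L))) (S (V (F 96 L) (F 40 L)) (S (F 32 L) (F 32 L)))) (U (S (F 40 (V (V (S (F 4 L) (F 4 L)) L) (S (V L L) (S L L)))) (V (T (F 36 (S (F 4 L) L)) (F 12 (S (V (F 2 L) (F 2 L)) (S L L)))) (F 40 (V L (S L (F 2 L)))))) (S (F 40 (V (S L L) (V (S (F 2 L) (F 2 L)) (S (F 2 L) (F 2 L))))) (V (V (F 36 L) (F 56 (S L L))) (F 56 (V (S L L) (S L L)))))))) (F 62 (T (V (S (F 2 L) (V (F 2 L) (F 2 L))) (F 6 (U L L))) (U (S (S (K 0) (V L (K 0))) (V (V (S L L) (S L L)) (T (F 4 L) (F 4 L)))) (S (V (S (F 2 L) L) (F 20 L)) (V (S L L) (F 4 L))))))) (V v2_14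 (F 60 (T (U (S (F 18 (V L L)) (V (F 18 (V L L)) (S (F 18 L) (F 16 L)))) (S (F 18 (V L L)) (V (F 18 (V L L)) (F 16 L)))) (U (S (V (V (S (F 16 L) (F 16 L)) (S (F 16 L) (F 16 L))) (T (F 16 L) (F 16 L))) (V (V L (S (F 16 L) L)) (V (T (F 16 L) L) (S (F 16 L) (F 16 L))))) (S (V (V (F 16 L) (S (F 16 L) (F 16 L))) (S (F 20 L) (F 16 L))) (V (V (S (F 16 L) (F 16 L)) (S (F 16 L) (F 16 L))) (V (S (F 16 L) (F 16 L)) (F 16 L)))))))))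
noncomputable def v2_16 : Tr := (T (F 294 (U (S (V (T (U (S (S L (F 4 L)) (S (F 4 L) (F 4 L))) (S L (F 4 L))) (U (F 12 (S (V L (K 3)) (V (K 2) L))) (S L L))) (T (V (F 8 L) (K 0)) (F 10 (U (K 3) (S (K 3) L))))) (V (T (U (S (F 4 L) (K 1)) (S (F 4 L) (F 5 L))) (U (F 12 (S (V (K 2) L) (K 2))) (V (F 4 L) L))) (T (U (V (F 8 L) (K 5)) (S (F 24 L) (F 8 L))) (U (F 30 (S (S (K 1) (K 0)) (K 0))) (V (F 8 L) (F 24 L)))))) (S (V (T (S L L) (V L (S (F 8 L) (F 8 L)))) (V (F 8 L) (F 26 L))) (V (T L (V (F 4 L) (S (F 16 L) L))) (T (V (F 16 L) (F 24 L)) (U (V (F 8 L) (F 24 L)) (V (F 16 L) (F 24 L)))))))) (U (S (V (T (F 294 (U (F 12 (S (V L (K 3)) (V (S L (K 2)) (S (K 3) L)))) (S (V (F 12 L) (F 8 L)) (V (F 4 L) (F 12 L))))) (F 304 (U (S (V (T (F 52 (S L L)) (S (F 36 (S L L)) (F 20 (S L L)))) (K 0)) (F 20 (V (V (K 3) (S L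 L)) (T (S (K 4) L) (V (S L L) (K 4)))))) (S (F 48 (V (V (S (F 4 L) (F 4 L)) (S (F 4 L) (F 4 L))) (V (S L L) (K 4)))) (V (F 20 (T (S (F 2 L) (F 2 L)) (V L L))) (F 48 (V (S (F 4 L) (F 4 L)) (S L L)))))))) (F 62 (T (U (K 0) (S (K 0) (V (F 2 L) (K 0)))) (U (K 0) (S (K 0) (V (V (S (K 0) L) (K 0)) (K 0))))))) v2_13) v2_15))
noncomputable def v2_17 : Tr := (V (T (F 41 (U (S (V (F 40 (S L L)) (V (F 8 L) (S (F 8 L) (F 40 L)))) (V (F 41 L) (F 8 L))) (S (V (F 40 (S L L)) (V (F 40 (S L L)) (F 32 L))) (F 40 (V (F 8 L) (S L L)))))) (F 25 (U (S (V (T (F 40 (S L L)) (F 32 L)) (V (S (F 8 L) (F 40 L)) (S (F 8 L) (F 8 L)))) (V (F 40 (S L L)) (S (F 8 L) (F 8 L)))) (S (V (S (F 32 L) (F 40 L)) (F 40 (V (S L L) (S (S L L) L)))) (F 40 (V L (V L (S L L)))))))) (T (F 41 (U (V (S L L) (S (F 2 L) (S (F 2 L) (F 2 L)))) (V (S L (F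 2 L)) (S (F 34 L) (F 2 L))))) (U (S (V (F 41 (V (S (F 8 L) (F 8 L)) (S (F 16 L) (F 8 L)))) (F 37 (V (S (F 16 L) (F 16 L)) (T (F 18 L) (F 34 (S L L)))))) (F 41 (V (V (F 8 L) (F 8 L)) (V (F 2 L) (T (F 2 L) (F 18 (S (S L L) L))))))) (S (F 35 (V (S (F 16 L) (F 16 L)) (S (F 34 L) (V (F 48 L) (F 34 L))))) (V (F 41 (U (S (F 8 L) (F 8 L)) (F 32 L))) (F 163 (V (S (F 8 L) (F 8 L)) (V (F 8 L) (S (F 16 L) (F 8 L))))))))))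
noncomputable def v2_18 : Tr := (S (U v2_17 (V (F 11 (T (S (V (F 24 (S L L)) (S (F 8 L) (F 8 L))) (F 24 (V (F 8 L) L))) (S (V (S (F 16 L) (F 16 L)) (U (T (F 24 (S L L)) (F 16 L)) (F 24 (S L L)))) (V (F 24 L) (T (F 24 (S L L)) (F 16 L)))))) (F 35 (T (S (V (S (F 16 L) (F 16 L)) (F 18 (S (F 4 L) L))) (F 18 (V (S L L) L))) (S (V (F 16 L) (T (F 18 L) (F 34 L))) (V (S (F 16 L) (F 16 L)) (F 18 (S L L)))))))) (F 41 (U (V (T (F 40 (S (T L L) (F 8 L))) (U (V (F 41 (S L (F 4 L))) (S (S (F 8 L) (F 40 L)) (F 40 L))) (F 40 (S (V (F 8 L) (S L L)) (F 8 L))))) (T (U (S (V (F 10 (S L L)) (F 2 L)) (V (F 10 L) (F 2 L))) (V (F 2 L) (S (F 2 L) (F 34 L)))) (U (S (V (S (F 8 L) (F 8 L)) (S (F 2 L) (F 2 L))) (V (F 10 (V L (S L L))) (V (F 10 (S L L)) (F 2 L)))) (S (V (F 40 (V L (S L L))) (F 34 (V L L))) (F 34 (V (F 2 (V (S L L)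 (S L L))) (S L L))))))) (V (F 40 (T (F 4 (S L (F 1 L))) (V (F 8 L) (S L (F 4 L))))) (T (F 34 (V (S L (F 2 L)) (S L L))) (S (V (S (F 32 L) (F 34 L)) (F 34 (U L L))) (F 34 (V (V (F 2 L) L) (S L L)))))))))
noncomputable def v2_19 : Tr := (S (F 161 (U (V (V (U (V (T (F 10 (S (F 2 L) L)) (S (F 48 (S (F 4 L) L)) (F 24 (U L (F 1 (S L (S L L))))))) (T (F 26 (S (F 1 L) L)) (F 48 (S (F 4 L) (S (F 4 L) (F 1 L)))))) (V (T (F 42 L) (F 48 (S (F 4 L) (T (F 1 L) L)))) (F 50 (T (F 1 L) L)))) (F 50 (T (F 1 L) L))) (F 58 L)) (F 50 (U (T (F 1 L) (S (F 1 L) L)) (F 1 L))))) (U (V (T (F 169 (U (V (S L L) (F 24 (S L L))) (V (S (F 16 L) (F 16 L)) (F 24 L)))) (U (S (F 164 (V (T (F 40 (S L L)) (V (F 40 (S L L)) (S (F 40 (U L (F 1 L))) (F 24 (U L (F 1 L)))))) (F 48 (S (F 4 L) (F 1 L))))) (F 168 (V (T (F 32 L) (V (F 48 (S L L)) (F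 24 (S (S L L) L)))) (F 24 (U L (S (F 1 L) L)))))) (F 171 (S (V (T L (F 8 (V (S L L) L))) (F 8 (S (F 2 L) L))) (V (V L (F 8 (S L L))) (F 8 (V L L))))))) (F 239 (U (U L L) L))) (F 171 (V (T (S (F 2 L) L) (V (S (S (F 8 L) L) (S L L)) (F 8 (S (F 2 L) L)))) (F 10 L)))))
noncomputable def v2_20 : Tr := (V (T (F 41 (S (U (V (T (U (S (V (V (F 40 L) (F 8 L)) L) (S (F 8 L) (F 40 L))) (S (V (F 40 (T L L)) (F 32 L)) (F 40 L))) (U (S (V (S (F 8 L) (F 40 L)) (T (F 8 L) (F 8 L))) (F 8 L)) (S (V (F 40 (S L (F 8 L))) L) (F 40 (T L L))))) (T (U (S (V (F 2 L) (F 6 L)) (T (F 2 L) (F 2 L))) (V (F 2 L) (F 6 L))) (V (S (V L (F 2 L)) (F 2 L)) (S (F 2 L) (F 2 L))))) (V (T (V (F 40 (S L (F 8 L))) (F 34 (S (S L L) L))) (S (V (F 40 (S L L)) (F 32 L)) (F 40 L))) (F 34 (T (V L (F 4 L)) (V (S L L) (F 4 (S L L))))))) (U (V (F 40 (V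 (F 8 L) (F 4 (T L L)))) (T (V (F 2 L) (F 2 L)) (V (F 2 L) (S (F 2 L) (F 34 L))))) (F 34 (V (F 10 (T L L)) (V (S L (F 2 L)) (S L L))))))) v2_18) (T (F 169 (S (U (V (V (U (F 2 L) (F 18 L)) (F 26 L)) (F 26 L)) (F 26 (S L L))) (U (V (T L (V L (F 18 L))) (F 26 L)) (V (S (F 18 L) (F 16 L)) (F 26 L))))) v2_19))
noncomputable def v2_21 : Tr := (T (F 149 (S (U (V (F 21 L) (V (F 20 (S L (F 4 L))) L)) (F 17 (V (F 2 L) (S L (F 2 L))))) (F 21 (T L L)))) (S (U (V (F 439 (T L (U (U (T L (T L L)) L) L))) (T (F 151 (V (F 4 L) (S L (S L (F 4 L))))) (U (S (F 149 (V (T (F 4 L) (S (F 4 L) (U (F 4 L) (F 20 L)))) (V (S (F 4 L) (F 4 L)) (S (F 16 L) (F 16 L))))) (F 164 (V (F 48 (S (F 2 (V L L)) (F 8 L))) (T (F 36 L) (F 20 (V (F 1 (S (V L L) (V L L))) (U L (F 1 (S L (S L L)))))))))) (F 151 (V (F 4 (U (S (S L L) L) L)) (S (V (F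 4 (S L L)) L) (V (F 4 (S L L)) (S L (F 4 (S L L)))))))))) (F 151 (V (F 5 L) (T (S L (F 4 L)) (V (F 4 (S L (F 4 L))) (S (S L L) (V (F 4 L) L))))))) (F 166 (U (V (F 21 L) (T (F 21 (U (T L (T L L)) L)) (V (F 17 L) (S (V (F 16 L) (S (U (T (F 20 L) (U (F 4 L) (F 16 L))) (F 20 L)) (S (F 16 L) (F 16 L)))) (F 17 (U (U (T L L) L) L)))))) (F 17 (T (F 2 L) L))))))
noncomputable def v2_22 : Tr := (V (T (F 150 (U (S (V (F 16 L) L) (V (T (F 17 L) (F 4 L)) L)) (V (F 16 L) (S (F 16 L) (S (F 16 L) (F 16 L)))))) (U (S (V (F 134 (V (T (F 12 L) (T (F 12 (S L L)) (S (F 12 L) (S (F 12 L) (F 36 L))))) (F 8 L))) (F 22 (T (F 2 L) (S (F 16 L) (F 16 L))))) (V (F 38 (V (T (S (F 10 L) (F 35 L)) (F 34 (S L L))) (T (F 10 (S L L)) (S (F 8 L) (F 32 L))))) (F 22 (T (S (F 2 L) (F 2 L)) (V (F 8 L) (F 16 L)))))) (S (V (F 135 (T (F 8 L) (V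 (S (F 8 L) (F 4 L)) (F 8 L)))) (F 22 (T (F 2 L) (U (F 16 L) (F 32 L))))) (F 7 (V (T (F 18 (S L (F 2 L))) (F 10 (U L L))) (V (T (F 18 L) (F 16 L)) (F 16 L))))))) (T (F 22 (U (S (F 18 (V L (F 1 L))) (V (F 2 L) (F 16 L))) (S (F 18 (V L (F 1 L))) (V (F 2 L) (F 18 L))))) (U (F 26 (S (V (S (F 16 L) (F 16 L)) (F 48 (T L L))) (V (V (S (F 16 L) (F 16 L)) (S (F 16 L) (F 16 L))) (T (F 16 L) (S (F 48 L) (F 32 L)))))) (F 19 (S (F 48 (V (V (S L L) L) L)) (V (V (S (F 48 L) (T (F 34 L) (F 48 L))) (F 48 (S L (S L L)))) (T (F 48 (S L L)) (F 16 L))))))))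
noncomputable def v2_23 : Tr := (S (U (V (T (F 148 (U (V L (F 24 (S L L))) (F 48 (V (S L L) (S (F 1 L) L))))) (F 22 (U (S (V (V (F 34 L) (F 18 (S L L))) (F 18 (V L L))) (V (T (F 2 L) (S (F 2 L) (F 2 L))) (F 18 (V (S L L) (S L L))))) (S (F 34 (V (S L L) (F 1 (V (S L L) (S L L))))) (V (F 34 (S L L)) (V (F 34 L) (F 48 (T (F 4 L) L)))))))) (F 30 (T (V (S (F 18 L) (F 2 L)) (F 22 L)) (U (S (V (T (F 18 L) (F 16 L)) (F 22 L)) (V L (F 20 L))) (V (S (F 18 L) (S (F 16 L) (F 16 L))) (F 20 (S (F 2 L) L))))))) (F 151 (V (T (V (S L L) (S (F 8 L) L)) (S (V (S L L) (V L (F 8 L))) (V (S L L) (S L (S L L))))) (F 8 (V (U (U (U L L) L) L) (F 2 L)))))) (U v2_22 (V (F 135 (T (U (V (F 9 L) (S (F 8 L) (F 8 L))) (F 8 L)) (S (V (S (F 8 L) (F 8 L)) (U (S (F 8 L) (F 8 L)) (F 8 L))) (V (F 4 L) (U (S (F 8 L) (F 8 L)) (F 8 L)))))) (F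 19 (T (S (F 34 (V L (F 1 L))) (V (F 34 L) (F 48 (S (F 4 L) L)))) (S (V (S (F 48 L) (T (F 48 L) (F 16 L))) (F 48 L)) (V (T (F 32 L) (S (F 16 L) (F 16 L))) (T (F 48 (S L L)) (F 16 L)))))))))
noncomputable def v2_24 : Tr := (T (F 71321 (U v2_3 (F 641 (S (V v2_4 (F 97 (T (S (U (V (T (F 16 L) (F 16 L)) (F 18 L)) (S (F 16 L) (F 18 L))) (F 18 (V (S L L) L))) (S (U (V (T (F 16 L) (F 18 (S L L))) (F 26 L)) (F 18 L)) (U (V (T (F 18 L) (F 2 L)) (F 26 L)) (F 18 (T L L))))))) (F 81 (V (T (F 17 (S (U (V (T (V (F 2 L) L) (F 2 L)) (T L L)) (S (F 4 L) (F 2 L))) (V (F 2 L) L))) (S (V (F 21 (T L L)) (U (S (F 1 L) (F 17 L)) (F 17 L))) (F 21 L))) (T (F 17 (S (F 4 (V (S L L) L)) (V L (F 4 L)))) (S (U (V L (F 18 L)) (F 19 (V L L))) (U (V (F 1 L) (S (F 16 L) (F 16 L))) (F 19 (V L L))))))))))) (U (F 266433 (S v2_11 (V (F 11378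 (T (F 41 (U (S (V (K 1) (T (V (F 1 L) L) (U (K 1) (S L (K 1))))) (K 1)) (S (V (F 9 L) (T (F 1 (S L L)) (V (F 1 L) (S L L)))) (F 9 (T L (U (F 1 (T (K 0) (K 0))) L)))))) v2_12)) (F 8276 v2_16)))) (F 270427 (S (F 642 v2_20) (F 84 (V v2_21 (T (F 148 (S (U (V (T (F 48 (S L L)) (U (S (F 32 L) (F 32 L)) (F 48 (S L L)))) (F 48 (V L (F 5 L)))) (F 48 (V (V L L) (F 4 L)))) (U (V (T (F 48 L) (V (F 48 L) (F 16 L))) (V (S (F 16 L) (F 16 L)) (F 16 L))) (F 48 (V (S L L) (V (S (F 4 L) L) L)))))) v2_23)))))))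
noncomputable def v2_25 : Tr := (U (S (F 486 (V (F 1 (T (U (K 0) L) (U (K 0) L))) (T (K 1) (U (K 1) L)))) (V (F 368 (T (F 12 (U (S (K 0) (V (T (V L (K 0)) (U (K 0) (V L (K 0)))) (K 0))) (S (F 4 L) (V (U (V L (F 4 L)) L) (F 4 L))))) (U (S (K 4) (V (T (U (K 4) (U (K 4) (V (S (K 4) (F 4 L)) (K 4)))) (U (K 4) (S (K 4) (V (V (S (K 4) L) (F 4 L)) (K 4))))) (K 4))) (S (F 5 (S (K 0) L)) (V (T (V (S (F 12 L) L) (F 5 L)) (U (S (F 5 L) (V (S (F 5 L) (F 4 L)) (F 5 L))) (F 5 (S L (T L L))))) (F 5 L)))))) (F 228 (T (F 11 (U (K 1) (S (K 1) L))) (U (S (K 2) (V (K 4) L)) (S (F 9 L) (F 3 (S L L)))))))) (F 416 (S (F 25 (V (F 4 (S L L)) (S (F 1 L) L))) (V (T (F 27 (U (T L (U L L)) L)) (S (F 27 (U L L)) (U (F 3 (V (S (F 4 (T (F 2 L) L)) (V (T L (S (F 4 L) L)) (F 4 (S L L)))) (F 4 L))) (F 10 (S (F 8 L) (T (F 8 L) L)))))) (F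 9 (T (F 2 (V (F 1 L) L)) (S (F 2 L) (S (F 2 L) L))))))))
noncomputable def treeV2 : Tr := (F 0x3fffffffffffffffffffffffffffffffffffffffffffefff7fffebffffffffffffffffffffffffffffffffafdff7f73ffeeffbfffb7ffffffffffffffffffffffb7fd (V v2_24 (F 307834 (T (F 342 (U (S (K 2) (V (T (F 1 (U (K 1) (V (U (K 1) (S (K 1) L)) (K 1)))) (F 2 (U (S (K 1) (V (T (K 1) L) (K 1))) (S (F 4 L) (V (S (F 4 L) L) (F 4 L)))))) (K 2))) (F 1 (S (F 4 (V (T (S L L) L) (F 2 L))) (V (U (T (V L (F 4 L)) (F 4 (T L L))) (T (F 1 L) (F 4 L))) (F 4 (T (F 2 L) (S (F 2 L) L)))))))) v2_25))))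

theorem pV2 : chkV par treeV2 64 64 64 64 384 128 54613 109226 Lc = true := by decide +kernel

noncomputable def v3_0 : Tr := (U (S (V (T (F 19 (V (S (F 1 L) (K 2)) (S L L))) (U (S (F 19 (S L L)) (S (F 19 L) (F 18 L))) (F 19 (S L (S L L))))) (F 19 (T (U (S (S L L) (V L (F 8 L))) (S (S (F 8 L) L) (V (F 8 L) (F 8 L)))) (U (S (V L (K 5)) (V (S L L) (S L L))) (S (V (F 16 L) (F 8 L)) (V L L)))))) (V (F 19 (T (K 2) (U (K 2) (S (S L (K 2)) (K 2))))) (T (F 19 (U (S (V L L) (V (K 2) (S L (K 2)))) (S (V L L) (V (S L (K 2)) (S L L))))) (U (S (V (S (F 19 L) (F 18 L)) (S (F 18 L) (F 18 L))) (V (K 6) (S (F 16 L) (F 16 L)))) (S (V (F 18 L) (S (F 19 L) (F 18 L))) (V (F 16 L) (S (F 18 L) (F 16 L)))))))) (S (F 19 (V (T (S L L) (V (F 17 (S L L)) (S (F 16 L) (F 16 L)))) (T (V (S (F 16 L) L) (S (F 8 L) L)) (U (V (S (F 16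 L) L) (S (F 16 L) L)) (S L (S L L)))))) (V (T (F 19 (S L (V (K 2) L))) (U (S (F 19 L) (F 281 (S L (K 1)))) (F 27 (S L (V (F 17 (S L (K 1))) L))))) (T (F 19 (U (V (S L L) (S L (S L L))) (V (S (F 16 L) L) (S L L)))) (U (S (F 19 (V L (S (F 16 L) L))) (V (F 19 (S L L)) (S (F 19 L) (F 17 L)))) (F 19 (S (V L L) (V L (S L L)))))))))
noncomputable def v3_1 : Tr := (U (S (F 7 (V (T (U (K 0) (V (S (K 0) (F 8 L)) (K 0))) (U (S (K 0) (V (S (K 0) L) (K 0))) (V (S (F 4 L) L) (K 0)))) (K 0))) (V (T (U (F 37 (S (V L (K 0)) (V (V L L) (S (K 0) L)))) (S (F 37 (V (S (F 32 L) (F 32 L)) L)) (V (S (F 7 L) (F 37 L)) (F 37 (S L L))))) (U (S (V (T (F 5 L) (F 6 L)) (K 8)) (V (S (F 4 L) (F 2 L)) (S (K 8) (F 4 L)))) (S (V (T (F 7 L) (F 6 L)) (F 7 (S (K 0) L))) (V (V (F 6 L) (F 6 L)) (S (F 5 L) (F 5 L)))))) (K 8))) (S (F 7 (V (V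 (S L (S L L)) (U (T (F 8 L) (F 8 L)) (T (F 8 L) L))) (T (K 0) (U (K 0) (S (K 0) (V (F 16 L) (K 0))))))) (V (T (U (S (F 7 (V L (S (F 8 L) (F 8 L)))) (V (F 7 (S L L)) (F 37 L))) (F 7 (S (V L L) (V L L)))) (U (S (F 7 (V (S L L) L)) (V (T (F 7 (S L L)) (F 6 L)) (F 7 (V L L)))) (F 7 (V (S L (S L L)) (S L (S L L)))))) (T (F 37 (U (S (K 0) (V L (K 0))) (S (V (F 32 L) (K 0)) (V L (S (K 0) (F 2 L)))))) (F 7 (U (S (K 0) (V (S L L) (K 0))) (S (V (F 16 L) (K 0)) (V (S (S (F 16 L) L) L) (V (T (F 8 L) (S (K 0) (F 16 L))) (K 0))))))))))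
noncomputable def v3_2 : Tr := (V (F 1090 (T (U (F 19 (S (V (T (V (S (F 8 L) (K 2)) (S (F 8 L) (F 8 L))) (U (S L (K 2)) (S L L))) (T (U (V (S (F 8 L) (F 8 L)) (F 8 L)) (V (F 8 L) (F 8 L))) (U (V (S (F 8 L) (F 8 L)) (S (F 8 L) (F 8 L))) (V (S (F 8 L) (F 8 L)) (S (F 8 L) (F 8 L)))))) (V (K 2) (T (U (V (K 2) (S (F 8 L) (K 2))) (V (S (F 8 L) (K 2)) (S (F 8 L) (F 8 L)))) (U (S (V (K 2) (F 8 L)) (K 2)) (S (V (F 8 L) (F 8 L)) (V (K 2) (S (F 8 L) (F 8 L))))))))) (S (F 19 (V (S (S L L) (S L L)) (T (V (S (F 8 L) (F 8 L)) (S (F 8 L) (F 8 L))) (U (S (S (F 8 L) (F 8 L)) L) (S L L))))) (V (T (F 7 (S (F 8 L) (F 1 L))) (V (F 263 L) (F 19 L))) (F 19 (T (V (S (F 8 L) (F 8 L)) (S (F 8 L) (F 8 L))) (U (S (S L L) (S L L)) (S L (S L L)))))))) v3_0)) (F 98 (T (F 37 (U (S (V (U (K 0) (V (S (K 0) (F 32 L)) (K 0))) (K 0)) (V (T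 (V (S (F 32 L) L) L) (U (V (S (F 32 L) L) (K 0)) (V (S (F 32 L) (F 32 L)) L))) (K 0))) (S (V (V (S (T (F 32 L) (F 32 L)) (T (F 32 L) (F 32 L))) (U (K 0) (T (F 32 L) (S (F 32 L) (F 32 L))))) (K 0)) (V (T (V (S (F 32 L) (F 32 L)) L) (U (V (S (F 32 L) (F 32 L)) L) (V (S (F 32 L) (F 32 L)) (S (F 32 L) (F 32 L))))) (V (S (S (K 0) L) (S L L)) (K 0)))))) v3_1)))
noncomputable def v3_3 : Tr := (T (U (K 6) (S (V (K 6) (T (F 35 (U (S (V (K 2) (F 8 L)) (K 2)) (V (S (F 32 L) (K 2)) (S (F 8 L) (F 32 L))))) (U (F 19 (S (S L (S L (K 2))) (K 2))) (S (F 19 (V (F 32 L) L)) (V (K 6) (T (F 39 L) (F 21 L))))))) (K 6))) (U (S (V (K 6) (T (U (K 6) (S (V (K 6) (S (F 17 L) (K 6))) (K 6))) (U (S (V (K 6) (S (S (F 16 L) (K 6)) (K 6))) (K 6)) (S (V (K 6) (S (F 16 L) (F 16 L))) (K 6))))) (K 6)) (S (V (F 29 (T (K 2) (S (V (K 2) (S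 L (K 2))) (K 2)))) (T (U (S (V (K 6) (S (F 19 L) (F 17 L))) (V (K 6) (F 17 L))) (S (F 19 (V L (S L L))) (F 21 (V (K 2) (S L L))))) (U (S (V (F 17 L) (S (F 17 L) (F 17 L))) (V (K 6) (S (S (F 17 L) (F 17 L)) (S (F 17 L) (F 17 L))))) (S (V (F 17 L) (F 17 L)) (V (F 21 (T L (V (S (F 16 L) (K 2)) L))) (V (S (F 25 L) (F 21 (S L L))) (F 17 L))))))) (F 21 (V (K 2) (T (U (K 2) (S (U (K 2) (S L (K 2))) (K 2))) (U (K 2) (S (V (K 2) (T (S L L) (S (S L L) (V (K 2) L)))) (V (K 2) (T (K 2) (U (K 2) (T (K 2) (S (F 16 L) (K 2))))))))))))))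
noncomputable def v3_4 : Tr := (U (S (V (T (F 18 (V (S L (K 2)) (S L L))) (U (S (F 18 (V (S (F 32 L) (K 2)) L)) (V (K 5) (F 16 L))) (F 18 (V (S L (K 2)) (S L L))))) (T (F 82 (U (V (S (K 0) L) (K 0)) (V (S L L) (K 0)))) (U (F 80 (S (K 0) (V (S (K 0) L) (K 0)))) (F 18 (S (V L (K 0)) (V (S (F 2 L) L) (K 0))))))) (V (T (K 5) (U (K 5) (S (S (F 16 L) (K 5)) (K 5)))) (F 80 (T (U (V L (S (K 0) (F 16 L))) (S (V (F 16 L) (F 16 L)) L)) (U (S (V (S L L) (K 0)) (V (K 1) (S L L))) (S (V (S L L) (T (F 16 L) L)) (V (S L L) (S L L)))))))) (S (F 18 (V (T (V (S (F 32 L) L) L) (U (V (S L L) (S L L)) (V (S (S (F 32 L) (F 32 L)) L) (S L L)))) (T (V (S (F 2 L) (F 2 L)) (S (S (F 2 L) (F 2 L)) (S (F 2 L) (F 2 L)))) (U (S (V L (K 0)) (V L (V (F 2 L) (K 0)))) (V (S L L) (S (S (F 2 L) (F 2 L)) (V (F 2 L) (S (F 2 L) (F 2 L)))))))))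 (V (T (U (S (S (F 18 L) (F 20 L)) (K 5)) (F 6 (V L (S (F 8 L) (F 8 L))))) (U (V (K 5) (S (F 18 L) (F 20 (S L (K 2))))) (S (V (F 20 L) (F 18 L)) (F 20 (V (K 2) L))))) (T (F 80 (U (V (S (F 16 L) (F 8 L)) (S (F 16 L) (F 24 L))) (S (S (F 16 L) (F 16 L)) (F 24 (V (S L L) (S L L)))))) (U (S (V (S (F 18 L) (F 80 L)) (F 82 (V L (S L L)))) (F 80 (V L L))) (F 80 (S (V (S (F 16 L) (F 16 L)) (V (F 16 L) (F 16 L))) (V (V (F 8 L) (F 8 L)) L))))))))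
noncomputable def v3_5 : Tr := (V (T (F 114 (U (S (V (K 5) (T (K 5) (S L (K 5)))) (K 5)) (S (V (K 5) (V (S (F 1 L) (K 5)) (S (F 1 L) (F 1 L)))) (V (K 5) (S (S (F 1 L) (K 5)) (K 5)))))) (U (F 98 (S (V (K 6) (S (T (F 32 L) L) (V (K 6) (S (F 32 L) (F 32 L))))) (K 6))) (S (F 98 (V (S (F 2 L) (K 6)) (S L (S (F 32 L) (F 32 L))))) (F 112 (V (K 5) (T (S (F 129 L) (K 5)) (S (F 128 L) (F 72 L)))))))) (T (F 112 (U (S (V (T (V (F 129 L) (F 193 (S L L))) (V (F 128 L) (S (F 192 L) (F 192 L)))) (T (K 8) (F 64 L))) (V (V (K 5) (T (F 193 (S L (K 1))) (F 192 L))) (T (S (F 65 L) (F 65 L)) (S (F 64 L) (F 64 L))))) (S (V (V (S (F 129 L) (F 129 L)) (T (F 193 L) (S (F 129 L) (F 65 L)))) (V (T (F 193 L) (F 65 L)) (F 65 L))) (V (V (T (F 193 L) (S (F 129 L) (F 193 L))) (T (F 193 L) (F 65 L))) (V (S (F 65 L) (F 65 L)) (S (F 65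 L) (F 65 L))))))) (U (S (F 112 (V (U (S (V (F 128 L) (F 64 L)) (V (F 64 L) (F 64 L))) (S (S (F 64 L) (F 64 L)) (S (F 64 L) (F 64 L)))) (V (S (K 8) (F 64 L)) (K 8)))) (F 52 (V (V (S (F 32 L) (F 32 L)) (S (F 32 L) (F 32 L))) (T (S (F 32 L) (F 32 L)) (S L L))))) (F 52 (S (V (S (S (F 32 L) (F 32 L)) (S (F 32 L) (F 32 L))) (S (F 32 L) L)) (V (T (F 32 L) L) (S L L)))))))
noncomputable def v3_6 : Tr := (V (F 98 (T (U (S (V (S (F 7 L) (F 5 L)) (F 37 (S L L))) (V (F 1 L) (S (F 33 L) (F 33 L)))) (S (F 7 (V (S L L) (S L L))) (V (F 3 L) (F 37 (S L L))))) (U (S (V (T (S (F 3 L) (F 3 L)) (F 2 L)) (T (F 5 L) (S (F 6 L) (F 6 L)))) (V (T (S (F 3 L) (F 3 L)) (F 2 L)) (S (F 1 L) (F 1 L)))) (S (V (S (T (F 7 L) (F 6 L)) (F 3 L)) (F 7 (V (S L L) (S L L)))) (V (S (F 3 L) (F 3 L)) (S (F 3 L) (F 3 L))))))) (T (F 2160 (U (S (F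 66 (V (S L L) (K 0))) (V (S (F 66 (S L L)) (F 64 L)) (V (S (F 66 (S L L)) (F 34 (T (F 2 L) L))) (F 34 (S (K 0) L))))) (S (F 66 (V L (V (S (F 2 L) L) (U (K 0) (F 2 L))))) (V (F 66 (S L L)) (F 34 (V (S (S (F 2 L) (F 2 L)) (T (F 2 L) L)) (S (S (F 2 L) L) L))))))) (U (S (F 2656 (V (S (F 64 L) (F 64 L)) (F 40 (V (S (K 0) L) (K 0))))) (V (F 98 (T (S (F 33 L) (F 33 L)) (F 128 L))) (F 564 (T (S (F 17 (S L L)) (F 1 L)) (S (F 8 L) (F 8 L)))))) (S (F 2592 (V (T (F 136 L) (S (F 137 L) (S (F 133 L) (F 5 L)))) (T (S (F 152 (S L L)) (F 88 L)) (F 69 (S L L))))) (V (T (F 2658 L) (F 3232 (S (F 1 L) (F 32 L)))) (F 2596 (S (T (F 20 L) (F 4 L)) (T (F 16 L) (F 4 L)))))))))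
noncomputable def v3_7 : Tr := (V (T (F 2146 (U (S (V (S (F 16 L) (F 4 L)) (S (F 16 L) (F 16 L))) (V (K 5) (S (F 16 L) (F 20 (V (K 2) L))))) (S (V (V (F 5 (S L L)) (F 4 L)) (F 16 L)) (F 20 (V (V (K 2) (S L L)) (S (S L L) (S L L))))))) (U (S (F 98 (V (T (S (F 3 L) (F 9 L)) (S (F 2 L) (F 10 L))) (S (F 1 L) (F 1 L)))) (V (F 2402 (T (K 4) (V (K 4) L))) (S (F 2146 (S L (F 4 L))) (F 2336 (T (S (F 136 L) (F 152 L)) (F 80 L)))))) (S (F 3106 (V (V (S (T (F 10 L) (F 8 L)) (F 10 (U L L))) (S (F 8 L) (T (F 10 L) (F 2 L)))) (S (F 8 L) (S (F 8 L) (F 8 L))))) (F 2336 (V (T (F 137 (S L L)) (U (F 137 (S L L)) (F 133 (S L L)))) (T (S (F 136 L) (F 136 L)) (V (F 5 L) (F 68 L)))))))) (T (F 2160 (U (S (V (V (F 64 L) (F 96 (S L L))) (T (F 96 (S L L)) (F 32 L))) (V (F 96 (V (S L L) (S L L))) (S (F 32 L) (F 32 L)))) (S (V (F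 96 (S L L)) (V (F 96 (T L L)) (F 34 L))) (V (V (S (F 96 L) (F 36 (T (F 2 L) L))) (F 96 L)) (F 32 L))))) (U (F 52 (S (V (S (F 32 L) (F 32 L)) (T (S (F 33 L) (F 33 L)) (F 16 L))) (V (T (S (F 33 L) (F 33 L)) (F 16 L)) (S (F 16 L) (F 16 L))))) (F 2084 (S (V (S (F 8 L) (F 40 L)) (T (F 40 L) (S (F 40 L) (F 40 L)))) (V (S (F 40 L) (T (F 36 L) (F 12 L))) (S (F 40 L) (F 40 L))))))))
noncomputable def v3_8 : Tr := (T (U (S (V (V (F 1 L) (F 4 L)) (V (F 12 (S L L)) (T (F 12 (S L L)) (F 4 L)))) (V (S (F 1 L) (F 3 L)) (T (V (S (F 12 L) (F 9 L)) (F 12 (S L L))) (V (F 4 L) (F 12 (S L L)))))) (S (V (S (S (F 6 L) (F 3 L)) (F 3 L)) (T (S (F 4 L) (F 4 L)) (S (F 4 L) (F 4 L)))) (V (F 3 (S L L)) (T (S (F 9 L) (F 1 L)) (V (F 1 L) (S (F 6 L) (F 5 L))))))) (U (S (V (F 6 (S (T L L) (S L L))) (T (V (F 4 L) (F 6 (S L L))) (U (S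 (F 4 L) (S (F 4 L) (F 4 L))) (F 6 (S (S L L) (V L L)))))) (V (F 6 (S (V (F 16 L) (S L L)) (V (F 16 L) (T (S (F 16 L) (F 16 L)) (S (F 16 L) (F 16 L)))))) (T (V (S (F 6 L) (F 4 L)) (S (F 4 L) (F 4 L))) (U (S (V (F 6 L) (F 4 L)) (V (F 6 (S L L)) (S (F 6 L) (F 4 L)))) (F 6 (V (S L L) (S (S L L) (S L L)))))))) (F 6 (S (V (S (S L L) (V (F 16 L) L)) (V (S L L) (S (S L L) (S L L)))) (V (S (T (S (F 16 L) (F 16 L)) (S (F 16 L) (F 16 L))) (T (F 16 L) (S (F 16 L) (F 16 L)))) (T (U (S (S L L) (V (S (F 16 L) (F 16 L)) L)) (S (S L L) (V (F 16 L) (S (F 16 L) (F 16 L))))) (U (S (V L L) (V (S (F 16 L) (F 16 L)) (S L L))) (S (S L L) (V (S (F 16 L) (F 16 L)) L)))))))))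
noncomputable def v3_9 : Tr := (U (F 224 (S (F 17 (V (V (S (T (F 8 L) (F 8 L)) (T (F 8 L) (F 8 L))) (S (U (S (F 8 L) (F 8 L)) (S (F 8 L) (F 8 L))) (T (S (F 8 L) (F 8 L)) (S (F 8 L) (F 8 L))))) (T (V (U (S (K 0) (F 8 L)) (S (F 8 L) (F 8 L))) (U (K 0) (S (K 0) (F 2 L)))) (U (V (S (K 0) (F 8 L)) (K 0)) (V (F 8 L) (S (K 0) (S (K 0) (F 8 L)))))))) (V (F 9 (V (S (T (F 8 L) L) (T (F 8 L) L)) (S (T (F 8 L) (S (F 8 L) (F 8 L))) (V (F 8 L) (S (F 8 L) (F 8 L)))))) (V (F 24 (S (T (S (F 32 L) (F 32 L)) (U (F 32 L) (F 32 L))) (T (F 32 L) (U L (F 32 L))))) (S (F 17 (U (K 0) (T (F 2 L) (S (F 8 L) (F 8 L))))) (F 24 (T (V (F 2 L) (F 2 L)) (S (V (F 32 L) L) (S L L))))))))) (S (F 1216 (V (F 12 (V (S (S (F 8 L) (F 8 L)) (S (F 8 L) (F 8 L))) (S (T (F 8 L) (S (F 16 L) (F 16 L))) (V (F 8 L) (S (F 8 L) (F 8 L)))))) (T (V (F 28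 (S L L)) (F 80 (S (F 16 L) (F 8 L)))) (U (S (F 18 (V (F 8 L) (F 4 L))) (V (F 28 L) (F 82 L))) (F 18 (S (V (F 8 L) (F 6 L)) (S (F 8 L) (F 8 L)))))))) (V (F 1200 (V (T (S (F 12 L) (F 9 L)) (F 4 L)) (F 12 (S (S L L) (S L L))))) (F 1216 (T (F 20 (V (S (F 8 L) (F 8 L)) (S (F 2 L) (F 2 L)))) (U (F 28 (V (S L L) (S (S L L) (S L L)))) (V (F 12 (S (T (F 8 L) (F 16 L)) (F 8 L))) (F 18 (S (F 2 L) (S (F 16 L) (F 16 L)))))))))))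
noncomputable def v3_10 : Tr := (V (F 1264 (T (U (S (S L L) (V L L)) (V (S (F 4 L) L) (S L L))) (U (S (V L (V (S (F 2 L) (F 2 L)) (S (F 2 L) (F 2 L)))) (V (S L L) (T L (U L (S (F 2 L) (S (F 2 L) (F 2 L))))))) (V (S (S (F 2 L) (F 2 L)) (T L (S (F 2 L) (F 2 L)))) (S (S (F 2 L) (S (F 2 L) (F 2 L))) (V (S (F 2 L) (F 2 L)) (S (F 2 L) (S (F 2 L) (F 2 L))))))))) (T (F 208 (U (V (F 9 (S (F 8 L) (S (F 8 L) L))) (F 24 (S (S (K 0) (F 32 L)) (S (S (F 32 L) (F 32 L)) (S (F 32 L) L))))) (S (V (F 9 L) (T (F 25 L) (F 5 (S (F 8 L) (F 16 L))))) (F 9 (V L (T (S (F 8 L) (F 8 L)) (S (F 16 L) (S (F 16 L) (F 16 L))))))))) (F 1136 (U (S (F 6 (S (S L L) (V L L))) (V (T (F 4 L) (S (F 6 (V L L)) (F 2 L))) (S (F 6 L) (T (F 6 (V L L)) (F 2 L))))) (S (F 6 (S (S L L) (V (S L L) L))) (V (F 6 (V (S L (S L L)) (S L (S L L)))) (T (F 6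 (S L (S L L))) (S (F 6 L) (F 2 L)))))))))
noncomputable def v3_11 : Tr := (S (V (F 6 (V (S (T L L) (T (S L L) (S L L))) (S (U L L) (U (T L (S L L)) (T L (S L L)))))) (T (U (S (F 10 (V L (S (F 4 L) (F 4 L)))) (V (F 6 L) (F 10 L))) (F 10 (S (V L (F 4 L)) (S L L)))) (S (F 18 L) (V (F 2 L) (F 18 L))))) (V (F 6 (V (S (T (S L L) (S L L)) (T (S L L) (V L (S L L)))) (S (T (S L L) (V (S L L) (S L (S L L)))) (V (T L (S L L)) (T L (S (S L L) (S L L))))))) (T (U (S (V (F 6 (S L L)) (F 10 (S L L))) (V (F 6 (S L L)) (T (V (F 6 (S L L)) (S (F 10 L) (F 6 (S L L)))) (F 6 (S L L))))) (S (V (F 6 L) (F 10 L)) (F 6 (V L (S L L))))) (U (S (V (F 6 (V (S L L) L)) (F 34 L)) (V (F 6 (V (S L L) (S L L))) (S (S (F 6 L) (F 4 L)) (S (F 4 L) (F 4 L))))) (S (V (F 6 (V L L)) (F 34 L)) (V (T (F 6 (S L L)) (F 4 L)) (S (F 34 L) (F 32 L))))))))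
noncomputable def v3_12 : Tr := (S (V (F 464 (T (V (F 33 (S L L)) (S (F 3 (S L L)) (F 1 L))) (S (F 3 (V (F 1 (S L L)) (S L (S L L)))) (S (V (F 35 (S L L)) (F 2 L)) (F 34 (U (S L (K 1)) L)))))) (T (U (F 112 (V (F 3 (S (S L L) (S L L))) (S (F 1 L) (S (S (F 1 L) (F 2 L)) (F 2 L))))) (S (F 624 (V (F 1 L) (S (F 2 L) (F 1 L)))) (F 336 (V (V (F 3 L) (F 5 L)) (S (F 5 L) (T (F 5 L) (F 4 L))))))) (F 112 (U (S (V (S (F 5 L) (F 6 (S L L))) (T (F 1 L) (S (F 4 L) (F 4 L)))) (V (F 6 (S (S L L) (S L L))) (T (S (F 2 L) (F 2 L)) (S (T (F 2 L) (F 4 L)) (V (F 6 (S L L)) (U (F 4 L) (F 6 (S L L)))))))) (S (V (S (F 5 (V (F 16 L) L)) (F 6 (T (S (F 16 L) (F 16 L)) L))) (F 5 (S (S L L) (V L L)))) (V (F 6 (S L L)) (S (V (F 6 L) (S (F 5 L) (F 6 L))) (F 6 (V L (S L L)))))))))) (V (F 449 (U (K 4) (S (T (F 5 (S L (K 1))) (F 2 L)) (K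 4)))) (T (F 336 (U (S (S (F 4 L) (F 4 L)) (V (K 4) (F 4 L))) (S (T (F 1 L) (V (F 6 L) (V (F 6 (S L L)) (F 4 L)))) (V (F 66 L) (F 6 (V L (S L L))))))) (V (F 480 (S (U (S (S (F 2 L) (F 2 L)) (T (K 3) (F 2 L))) (S (F 2 L) (F 2 L))) (U (K 3) (S (F 2 L) (F 32 L))))) (F 304 (S (U (S (T (F 4 L) (V (F 6 (S L (T L L))) (T (U (F 4 L) (F 6 L)) (F 2 L)))) (V (F 6 (T (S L L) (S L L))) (T (F 4 L) (S (V (F 6 (T L L)) (F 2 L)) (F 2 L))))) (V (F 6 (S (S L L) (T L L))) (S (T (F 6 L) (F 2 L)) (T (F 6 (S L L)) (F 2 L))))) (U (U (V (K 4) (T (F 4 L) (F 6 (S (S L L) L)))) (S (V (F 6 (S L L)) (T (F 6 (S L L)) (F 2 L))) (F 6 (T L L)))) (V (F 6 (S (T L L) L)) (S (T (F 6 (S L L)) (F 2 L)) (T (F 6 L) (F 2 L)))))))))))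
noncomputable def v3_13 : Tr := (V (F 976 (V (S (F 16 L) (F 16 L)) (T L (S (S (F 1 L) (F 1 L)) (S (F 1 L) (F 1 L)))))) (T (F 976 (V (S (S (S (F 1 L) (F 1 L)) L) (S L L)) (S (S (V (F 1 L) (F 1 L)) (V (S (F 1 L) (F 1 L)) (S (F 1 L) (F 1 L)))) (T (S L L) (S (V (S (F 1 L) (F 1 L)) (S (F 1 L) (F 1 L))) (V (S (F 1 L) L) (U (S (F 1 L) (F 1 L)) (F 1 L)))))))) (F 176 (U (S (F 5 (V (S (S (F 16 L) (F 16 L)) (T (F 16 L) (F 16 L))) (S L (V (S (F 16 L) (F 16 L)) (V (S (F 16 L) (F 16 L)) L))))) (V (F 6 (S (T (S (F 16 L) (F 16 L)) L) L)) (S (V (F 6 (T (S (F 16 L) (F 16 L)) L)) (F 3 (T (S (F 16 L) (F 16 L)) (S (F 16 L) L)))) (F 6 (T L (S L L)))))) (F 3 (S (V (S (F 16 L) (S (F 16 L) (F 16 L))) (S (V (F 16 L) (F 16 L)) (V (F 16 L) (S (F 16 L) (F 16 L))))) (V (S (S (F 16 L) (F 16 L)) (T (F 16 L) (S (F 16 L) (F 16 L)))) (S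 (V (S (F 16 L) (F 16 L)) (T (F 16 L) L)) (T (V (F 16 L) (S (F 16 L) (F 16 L))) L)))))))))
noncomputable def v3_14 : Tr := (S (V (T (S (F 51 (V L L)) (F 38 (V (F 32 L) (F 8 L)))) (U (S (F 50 (V (F 32 L) L)) (F 19 (V (S (F 8 L) (F 32 L)) (F 8 L)))) (F 19 (V (S (F 8 L) (S (F 32 L) (F 32 L))) (S (F 8 L) (F 8 L)))))) (F 50 (T (V (S (F 32 L) (F 2 L)) (S (S (F 2 L) (F 2 L)) (F 2 L))) (U (V (S L L) (S (S (F 2 L) (F 2 L)) (S (F 2 L) (F 2 L)))) (V (S (F 32 L) (F 32 L)) (S (S (F 2 L) (F 2 L)) (F 2 L))))))) (V (T (F 38 (U (S (V (F 32 L) (F 8 L)) L) (V (S (F 32 L) (F 32 L)) (S (F 8 L) (F 2 L))))) (U (S (V (T (F 38 L) (F 21 L)) (F 54 (S L L))) (V (V (F 37 L) (F 52 L)) (F 52 L))) (S (F 22 (V (S (F 32 L) (F 32 L)) (T (F 8 L) (F 8 L)))) (V (F 39 (S L L)) (F 52 (S (F 16 L) (F 32 L))))))) (T (F 50 (V (S (S (F 18 L) (F 16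 L)) (F 18 (V (S L L) (S L L)))) (S (T (F 18 (S L L)) (F 2 L)) (F 18 (V L L))))) (U (F 176 (S (V (S (F 16 L) (F 16 L)) (S (F 16 L) (F 16 L))) (V (S (F 8 L) (F 8 L)) (S (F 16 L) (F 8 L))))) (F 50 (V (S (S (F 16 L) (F 16 L)) (F 18 (V (S L L) (S L L)))) (S (F 2 L) (F 18 (V (S L L) (S L L))))))))))
noncomputable def v3_15 : Tr := (T (F 1714 (V (S (F 5 (S L L)) (F 17 (S L L))) (F 20 (S (S L L) (S L L))))) (U (F 1778 (S (V (V (S (F 1 L) (F 1 L)) (S (F 1 L) (F 8 L))) (V (S (F 8 L) (F 8 L)) (S (F 8 L) (F 8 L)))) (V (S (V (F 1 L) (F 8 L)) (V (F 8 L) (F 8 L))) (V (S (F 8 L) (F 8 L)) (S (F 8 L) (F 8 L)))))) (S (V (F 3810 (V (F 2 L) (S (F 2 L) (S (F 2 L) (T (F 10 L) (F 1 L)))))) (T (F 1782 (S L L)) (V (F 1634 (U (F 44 (S L L)) (T (F 12 (S (F 16 L) (F 2 L))) (F 3 (S (F 16 L) (S (F 16 L) (F 2 L))))))) (F 1108 (U (F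 24 (U (F 18 L) (T (F 18 L) (S (F 10 L) (F 24 L))))) (F 6 (S (T (F 18 L) (S (F 34 L) (F 40 L))) (T (F 18 L) (F 40 L))))))))) (F 1568 (V (T (F 212 (U (F 4 L) (F 16 L))) (U (F 156 (V (S (F 16 L) (F 16 L)) (S (F 2 L) (F 2 L)))) (T (F 148 (V (F 34 L) (S (F 40 L) (F 10 L)))) (F 11 (S (F 34 (S L L)) (V (F 34 L) (S (F 6 L) (F 20 L)))))))) (F 88 (T (F 10 (S L L)) (S (V (T (F 10 L) (F 48 (S L L))) (F 24 L)) (T (F 24 L) (F 48 L))))))))))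
noncomputable def v3_16 : Tr := (V (F 2146 (T (F 9 (U (S (V L L) (V L L)) (S (V L L) (V (V (S (F 32 L) (F 32 L)) (F 32 L)) L)))) (U (S (V (V (F 9 (S L L)) (S (F 9 L) (F 12 (T (F 32 L) L)))) (T (F 9 (S L L)) (S (T (F 9 L) (F 5 L)) (F 5 (S L L))))) (V (U (F 8 L) (F 12 (V L L))) (T (S (F 9 L) (F 12 L)) (S (F 4 L) (F 4 L))))) (S (V (F 9 (T L (V (S (F 16 L) (F 16 L)) (S (F 16 L) (F 16 L))))) (F 5 (V (S (F 16 L) (S (F 16 L) (F 16 L))) (T (S (F 16 L) (F 16 L)) L)))) (V (F 12 (S (T (S (F 32 L) L) L) (V (S (F 16 L) (F 16 L)) L))) (F 5 (T (V (S (F 16 L) (F 16 L)) (S (F 16 L) (F 16 L))) (S L L)))))))) (F 1120 (T (U (S (V (S (F 137 L) (F 152 L)) (F 152 (V (S (F 32 L) (F 2 L)) (S (S (F 2 L) (F 2 L)) (S (F 2 L) (F 2 L)))))) (V (F 152 (S L L)) (V (F 152 (S L (S (F 2 L) (F 2 L)))) (F 88 (T (S (F 2 L) (F 2 L)) L)))))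 (S (V (F 137 (S L L)) (V (F 137 (T (F 8 L) (S (F 16 L) (F 16 L)))) (T (F 152 (S (F 32 L) (F 2 L))) (F 133 (S (F 16 L) (S (F 16 L) (F 2 L))))))) (V (F 137 (S L L)) (T (F 216 (S L L)) (S (S (F 133 L) (F 69 L)) (F 84 L)))))) (U (S (V (T (F 137 (S L L)) (F 133 (S L L))) (T (U (S (F 140 L) (F 196 L)) (S (F 133 L) (F 69 L))) (F 69 (S L L)))) (V (S (T (F 137 L) (F 5 L)) (F 5 L)) (F 69 (S (S L L) (V L L))))) (S (V (F 133 (T (V (S (F 16 L) (F 16 L)) (S (F 16 L) (F 16 L))) (S L L))) (S (T (F 133 L) (F 69 L)) (F 69 L))) (V (F 133 (S L L)) (F 69 (S L L))))))))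
noncomputable def v3_17 : Tr := (V (T (F 226 (U (S (V (F 5 L) (S (F 3 L) (F 5 L))) (V (F 5 (S L L)) (T (F 20 L) (S (F 5 L) (F 20 L))))) (F 5 (S (S (V (T (F 32 L) L) (S (F 32 L) (F 32 L))) (V L L)) (V (S L (V (F 16 L) (F 16 L))) (S L (V (F 16 L) (S (F 16 L) (F 16 L))))))))) (F 2144 (U (S (V (T (F 138 (S L L)) (F 134 (S (V L L) (S L L)))) (T (S (F 140 L) (F 138 L)) (S (F 132 L) (F 6 L)))) (V (S (T (F 138 L) (F 134 L)) (T (U (F 138 L) (T (F 138 L) (F 134 L))) (F 134 L))) (S (S (F 6 L) (F 6 L)) (T (F 6 L) (F 70 L))))) (S (F 134 (V (T (V (S (F 16 L) (S (F 16 L) (F 16 L))) (S (F 16 L) (S (F 16 L) (F 16 L)))) (S L L)) (S L L))) (V (F 134 (T (V (S (S (F 16 L) (F 16 L)) (S (F 16 L) (F 16 L))) (S L L)) (S L L))) (S (S (F 134 L) (F 70 L)) (F 70 L))))))) (T (U (F 112 (S (V (S (F 146 L) (F 208 L)) (F 82 (S L L)))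 (V (F 212 (V (S L (S L L)) (S L L))) (T (F 84 L) (F 76 L))))) (S (V (F 98 (T (F 50 (S (F 32 L) (F 16 L))) (U (S (F 147 L) (F 148 L)) (S (F 27 L) (F 13 L))))) (F 1140 (T (F 40 (S L L)) (F 4 L)))) (F 612 (V (T (F 88 (S L L)) (S (F 5 L) (F 20 L))) (T (F 24 (S (F 16 L) (F 8 L))) (F 20 L)))))) (F 356 (U (S (V (S (F 1 L) (F 1 L)) (S (T (F 18 L) (F 3 (S L L))) (T (F 18 L) (F 1 L)))) (V (T (F 20 (S L L)) (F 5 (V L (S L L)))) (U (F 16 L) (V (S (F 17 L) (F 5 (T (F 8 L) L))) (F 17 L))))) (S (V (S (F 3 L) (F 5 L)) (F 3 (S L L))) (V (F 5 (S L L)) (V (F 5 (T (S (F 8 L) (F 8 L)) L)) (F 17 (S L (S (F 16 L) (F 16 L)))))))))))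
noncomputable def v3_18 : Tr := (T (F 9 (U (S (V L (S (F 16 L) (F 16 L))) (V (T (F 32 L) (T (S (F 32 L) (F 32 L)) (U (S (F 32 L) (F 32 L)) (U (F 32 L) (F 48 (V (S L L) (S L L))))))) (V (S (F 16 L) (F 48 (V (S L L) L))) (F 16 L)))) (V (S (S (F 16 L) (F 48 (V L L))) (F 48 (V (S L (S L L)) (S L (S L L))))) (S (F 16 L) (F 48 (V (S (S L L) (S L L)) (S L L))))))) (U (S (F 5 (V (S (S (F 16 L) (F 16 L)) (T (F 16 L) L)) (T (S (F 16 L) (F 16 L)) L))) (V (V (F 6 (S (T (F 48 (V L L)) (F 32 L)) (T (S (T (F 48 L) (F 32 L)) (F 16 L)) (F 32 L)))) (F 5 (S (F 16 L) (S (F 32 L) (F 32 L))))) (F 5 (S (S L L) (V (F 32 L) (F 32 L)))))) (F 5 (S (V (S (F 16 L) (T (F 48 (V L L)) (F 32 L))) (V (S (F 16 L) (F 16 L)) (F 16 L))) (V (T (V (F 48 (S L (S L L))) (S (F 48 (S L L)) (F 32 L))) (S (F 32 L) (F 32 L))) (S (S (F 32 L) (F 32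 L)) (S (F 32 L) (F 32 L))))))))
noncomputable def v3_19 : Tr := (T (U (F 140 (S (V (T (S (F 32 L) (F 32 L)) (S (T (F 32 L) (F 16 L)) (F 16 L))) (T (F 32 L) (S (V (U (F 32 L) (F 48 (S L L))) (F 48 (V L L))) (F 16 L)))) (V (S (S (F 16 L) (F 16 L)) (F 16 L)) (S (S (F 16 L) (F 16 L)) (S (F 16 L) (F 16 L)))))) (S (F 134 (V (V (T (F 32 L) (T (F 32 L) (S (F 48 (S L L)) (S (F 48 L) (F 16 L))))) (F 48 (S (S L L) (V L L)))) (F 48 (V (S (S L L) (S L L)) (S L (S L L)))))) (V (F 134 (T (F 32 L) (S (F 16 L) (F 16 L)))) (F 138 (S (T (F 48 (V L L)) (F 32 L)) (T (F 48 (V L L)) (F 2 L))))))) (U (S (F 138 (V (T (V (S (F 16 L) (F 16 L)) (S (F 16 L) (F 16 L))) L) (S (V (S (F 32 L) (F 32 L)) (F 32 L)) L))) (V (F 138 (S L L)) (S (S (F 138 L) (F 74 L)) (F 74 L)))) (S (F 11 (V (S (S (F 2 L) (F 2 L)) (S (F 2 L) (F 2 L))) (S (S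 (F 2 L) (F 2 L)) (T (F 2 L) L)))) (V (F 138 (S L L)) (F 74 (V (S (F 2 L) (F 2 L)) L))))))
noncomputable def v3_20 : Tr := (T (U (S (F 1120 (V (F 131 (T (S (F 16 L) (F 48 (V L (S L L)))) (S (F 32 L) (F 32 L)))) (T (U (F 88 (V (F 2 L) (F 8 L))) (S (F 69 (S (F 2 L) (F 8 L))) (F 86 L))) (F 69 (S (F 8 L) (S (F 32 L) (F 32 L))))))) (F 608 (V (T (U (F 216 (S L L)) (S (F 15 (V (F 2 L) (F 4 L))) (T (F 216 L) (F 85 L)))) (F 69 (S (F 32 L) (F 8 L)))) (S (F 70 (T (F 8 L) (V (F 32 L) (F 40 (V L (S L L)))))) (F 84 (T (F 16 L) (F 32 L))))))) (F 3936 (S (V (T (F 17 (S (S L L) (V L L))) (V (F 16 L) (F 24 (S L L)))) (T (S (S (V (F 24 L) (F 10 L)) (F 8 L)) (V (F 24 L) (F 10 L))) (S (F 8 L) (F 8 L)))) (V (T (S (V (F 17 L) (F 24 L)) (V (F 24 (S L L)) (F 10 L))) (S (F 8 L) (F 8 L))) (F 10 (V (S (S L L) L) (S (S L L) (S L L))))))))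 (F 2404 (U (S (V (F 3 (V (S L L) (S L L))) (V (F 3 (S L L)) (F 1 L))) (V (F 2 L) (T (S (F 3 (S L L)) (F 10 (S L L))) (F 2 L)))) (S (F 3 (V (S (S L L) (S L L)) (V (S L L) (S L L)))) (V (S (F 3 (S L L)) (F 2 L)) (F 3 (S (S L L) (S L L))))))))
noncomputable def v3_21 : Tr := (T (U (F 162 v3_14) (S (F 1154 (V (V (F 19 (T (F 8 L) (S (F 16 L) (F 16 L)))) (S (F 25 (V (T (F 40 L) (F 32 L)) (T (F 40 L) (F 8 L)))) (F 19 (T (F 8 L) (S (F 16 L) (F 16 L)))))) (T (V (F 57 (S (S L (F 16 L)) (S (F 16 L) (F 16 L)))) (F 168 (S (F 32 L) (S (F 16 L) (F 20 L))))) (U (F 56 (V (S (F 32 L) (F 32 L)) (S (S (F 32 L) (S (F 32 L) (F 32 L))) (S (F 2 L) (F 2 L))))) (S (F 41 (V (F 8 L) (V (F 24 (S L L)) (F 18 (S L L))))) (V (F 59 (V L (S L L))) (S (F 45 (V (F 8 L) (F 2 L))) (U (F 185 (S L L)) (T (F 171 L) (F 13 (V (F 48 L) (F 10 L))))))))))))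 (V (F 3746 (T (S (S (F 4 L) (F 4 L)) (S (F 4 L) (F 4 L))) (U (S (V (F 4 L) (T (F 4 L) (F 2 L))) (V (F 4 L) (V (F 4 L) (F 6 (S L L))))) (S (S (F 2 L) (S (F 2 L) (F 2 L))) (T (S (F 4 L) (F 4 L)) (S (S (F 1 L) (F 1 L)) (S (F 1 L) (F 1 L)))))))) v3_15))) (U (S v3_16 v3_17) (S (V (F 2146 v3_18) (F 1120 (T (U (S (F 133 (V (S (F 16 L) (F 16 L)) (V (S (F 16 L) (F 16 L)) (T (S (S (F 16 L) (F 16 L)) (S (F 16 L) (F 16 L))) (S (F 16 L) (F 2 L)))))) (V (F 141 (S L L)) (V (F 133 (S (F 16 L) (T (F 16 L) (F 2 L)))) (T (U (F 216 (S L L)) (F 77 (S (S (F 2 L) (F 2 L)) (S (F 2 L) (F 8 L))))) (F 69 (S (F 2 L) (F 8 L))))))) (F 133 (S (V (F 16 L) (V (F 16 L) (S (S (F 16 L) (F 16 L)) (T (F 16 L) (F 2 L))))) (V (S (F 16 L) (F 48 (V L (S L L)))) (T (S (S (F 16 L) (F 16 L)) (V (F 48 L) (F 2 L))) (S (F 2 L) (F 2 L))))))) (U (S (V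 (F 133 (T (V (F 16 L) (S (F 16 L) (F 16 L))) L)) (S (F 133 (T L L)) (F 69 (S L L)))) (V (F 133 (S L L)) (F 69 L))) (S (F 133 (V (S L L) (V (S (F 2 L) (F 2 L)) (S (F 2 L) (F 2 L))))) (V (S (F 133 L) (S (F 133 L) (F 7 L))) (F 69 L))))))) (V (F 2592 v3_19) v3_20))))
noncomputable def v3_22 : Tr := (S (F 16653 (V (F 1200 v3_8) (T v3_9 (U (S (F 1232 (V (T (S (F 4 L) (S (F 4 L) (F 4 L))) (F 6 (S (V L L) (V (S L L) (U L L))))) (T (U (F 12 (S (K 0) (V L (K 0)))) (S (F 10 (V L (K 0))) (V (F 6 (S L L)) (F 10 L)))) (U (S (F 18 (S (K 0) L)) (F 6 (V L (K 0)))) (S (F 18 (S L L)) (V (F 6 L) (F 18 L))))))) v3_10) (F 1360 v3_11))))) (V (F 17931 (T (F 832 (U (S (V (V (F 69 (S L (K 1))) (F 4 L)) (T (F 12 (V (S L L) (S L L))) (U (V (F 4 L) (F 6 (S L (S L L)))) (S (V (F 12 L) (F 6 L)) (F 4 L))))) (V (K 4) (U (S (T (F 12 (S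 L (K 2))) (F 4 L)) (K 4)) (T (F 12 (S L L)) (S (F 4 L) (F 4 L)))))) (S (V (F 5 (V (F 1 L) L)) (S (V (F 5 L) (F 4 L)) (F 5 (V L (S L L))))) (V (F 65 (S (F 8 L) (F 4 L))) (V (F 5 (T (S (F 8 L) (F 8 L)) L)) (T (F 12 L) (F 5 (S L L)))))))) (U v3_12 (S v3_13 (V (F 961 (S L L)) (T (F 448 (V (S (F 5 L) (F 65 L)) (S (U (T (F 5 L) (F 6 (S L L))) (F 5 (S L L))) (U (F 4 L) (F 5 L))))) (F 416 (U (S (F 6 (V (S L L) (S (V L (S L L)) (V L L)))) (V (F 66 L) (S (T (F 6 (S L L)) (F 4 L)) (F 2 L)))) (S (V (F 3 L) (F 6 (S (T (S (V (F 16 L) (T (F 16 L) (F 16 L))) L) L) (S L L)))) (F 2 L)))))))))) (F 777 v3_21)))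
noncomputable def v3_23 : Tr := (S (V (T (U (S (F 18 L) (S (F 18 L) (F 272 L))) (F 26 (V L (S (F 32 L) L)))) (U (S (F 26 (S L L)) (F 280 (V (F 16 L) (S (F 16 L) L)))) (F 26 (S (S L L) (S L L))))) (T (U (S (F 26 (V L (K 4))) (V (S (F 26 L) (F 18 L)) (S (F 26 L) (F 18 L)))) (S (S (F 19 L) (F 18 L)) (V (F 18 L) (F 18 L)))) (U (S (F 26 (V (S (F 32 L) L) (K 4))) (V (F 26 (S L (S L L))) (T (F 18 L) (F 26 (S L L))))) (F 26 (S (V L L) (V (S L L) (V L L))))))) (V (T (U (S (S (F 272 L) (K 6)) (K 6)) (F 280 (S (S L L) (S L (K 1))))) (U (S (V (K 6) (F 24 L)) (K 6)) (F 280 (S (S L L) (V (K 1) (S L L)))))) (T (U (S (V (S (F 18 L) (F 16 L)) (S (F 18 L) (F 16 L))) (V (S (F 16 L) (K 6)) (S (S (F 16 L) (F 16 L)) (T (F 16 L) (F 16 L))))) (S (V (S (F 26 L) (F 24 L)) (S (F 18 L) (F 18 L))) (V (F 16 L) (S (F 16 L) (F 16 L)))))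 (U (S (V (T (F 16 L) (S (F 26 L) (F 24 L))) (U (T (F 16 L) (S (F 26 L) (F 24 L))) (T (S (F 26 L) (F 24 L)) (S (F 26 L) (F 24 L))))) (V (T (F 16 L) (S (F 24 L) (F 24 L))) (T (S (F 16 L) (F 16 L)) (S (F 8 L) (F 8 L))))) (S (V (S (F 24 L) (F 24 L)) (S (F 26 (T L L)) (S (F 24 L) (F 24 L)))) (V (S (S (F 24 L) (F 24 L)) (S (F 24 L) (F 24 L))) (T (S (F 24 L) (S (F 24 L) (F 24 L))) (S (F 24 L) (F 8 L)))))))))
noncomputable def v3_24 : Tr := (S (V (T (U (S (F 138 (S L L)) (V (F 394 L) (F 136 L))) (S (F 138 (S L L)) (S (F 138 L) (F 392 L)))) (U (S (F 138 (V (K 3) L)) (S (F 392 L) (F 384 L))) (S (F 138 (S (F 1 L) L)) (S (F 386 L) (F 392 L))))) (T (U (S (F 138 (V L (S (K 4) (F 4 L)))) (V (S (F 138 L) (F 136 L)) (S (F 138 L) (F 130 L)))) (F 138 (S (V L L) (V (S L L) (S L L))))) (U (S (V (F 138 L) (F 162 L)) (V (F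 130 L) (F 130 L))) (S (F 138 (V L (F 4 L))) (V (F 130 L) (F 130 L)))))) (V (T (U (F 392 (S (V L (S L L)) (V (K 1) (S L L)))) (S (F 392 (S L L)) (V (F 396 L) (S (F 392 L) (F 388 L))))) (U (S (S (F 384 L) (F 384 L)) (F 388 (S L L))) (S (S (F 392 L) (F 388 L)) (F 388 (S L L))))) (T (U (S (V (S (F 136 L) (F 128 L)) (T (S (F 130 L) (F 136 L)) (F 128 L))) (V (S (F 128 L) (F 128 L)) (S (S (F 128 L) (F 128 L)) (T (F 128 L) (F 128 L))))) (S (V (F 128 L) (S (F 130 L) (F 128 L))) (V (F 128 L) (S (F 128 L) (S (F 128 L) (F 128 L)))))) (U (S (V (F 128 L) (S (F 130 L) (F 128 L))) (V (S (F 128 L) (F 384 L)) (S (F 128 L) L))) (S (V (F 128 L) (S (F 130 L) (F 130 L))) (V (F 128 L) (S (F 128 L) (F 128 L))))))))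
noncomputable def v3_25 : Tr := (T (F 1058 (U v3_23 (S (V (F 26 (T (S (S (F 32 L) (F 32 L)) (V (F 33 L) L)) (S (S L L) (S L L)))) (T (U (S (F 27 (V L L)) (V (F 26 L) (F 19 L))) (F 27 (S (V L L) (V L (S L L))))) (F 26 (U (S (S L L) (V L (S (F 32 L) L))) (S (S (F 32 L) L) (V L L)))))) (V (T (U (S (F 26 L) (F 25 (V (K 2) L))) (F 25 (S (F 32 L) (V (F 17 L) (F 16 L))))) (U (S (F 280 L) (F 28 (V (F 1 L) L))) (S (F 26 L) (F 284 (S L L))))) (T (U (S (V (F 26 (S L L)) (F 18 L)) (V (F 24 L) (T (F 16 L) (S (F 24 L) (F 24 L))))) (S (F 26 (V L (S L L))) (V (F 24 L) (S (F 26 L) (F 24 L))))) (U (S (V (S (F 26 L) (F 24 L)) (F 26 (T (S L L) (S L L)))) (V (S (F 24 L) (F 24 L)) (S (F 8 L) (F 8 L)))) (S (V (F 26 (S L L)) (S (F 26 L) (F 10 L))) (V (F 24 L) (S (F 10 L) (F 8 L)))))))))) (F 1184 (U v3_24 (S (V (T (F 138 (S (S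 L L) (S L L))) (U (S (F 138 L) (F 386 (S L L))) (S (F 138 L) (F 386 L)))) (T (U (S (F 138 (S L L)) (V (F 138 (S L L)) (F 130 L))) (S (F 138 (S (F 4 L) L)) (V (F 130 L) (F 130 L)))) (U (S (F 162 (S L L)) (V (F 130 L) (F 130 L))) (S (F 130 L) (S (F 130 L) (F 130 L)))))) (V (T (U (S (F 392 (S L L)) (V (F 396 L) (S (F 392 L) (F 388 L)))) (S (S (F 392 L) (F 388 L)) (F 388 L))) (S (V (F 388 L) (F 132 L)) (F 388 (V L (S L L))))) (T (U (S (V (S (F 138 L) (F 136 L)) (S (F 130 L) (F 130 L))) (V (F 128 L) (S (F 128 L) (F 128 L)))) (S (V (F 130 L) (S (F 130 L) (F 130 L))) (S (S (F 128 L) (F 128 L)) (F 128 L)))) (U (S (V (F 128 L) (S (F 130 L) (F 130 L))) (S (F 128 L) (F 128 L))) (S (V (F 130 L) (S (F 130 L) (F 130 L))) (S (F 128 L) (F 128 L))))))))))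
noncomputable def v3_26 : Tr := (S (F 1634 (V (T (U (F 61 (S (K 0) (F 1 (T (K 0) (K 0))))) (S (F 5 (V L (K 0))) (V (S (F 1 L) (F 1 L)) (K 6)))) (U (S (K 6) (V (U (K 1) (S (K 1) (F 4 L))) (K 6))) (S (F 20 (V L (K 0))) (V (S (F 4 L) (F 4 L)) (F 20 (V L (K 0))))))) (K 6))) (V (T (F 98 (U (S (V (S (F 6 L) (V (F 6 L) (F 6 L))) (K 8)) (V (S (S (F 2 L) (F 2 L)) (V (F 2 L) (F 2 L))) (T (S (F 4 L) (F 4 L)) (S (S (F 6 L) (F 6 L)) (F 2 L))))) (S (V (S (F 6 L) (F 6 L)) (F 6 L)) (V (V (F 2 L) (S (F 6 L) (F 2 L))) (V (S (F 6 L) (S (F 6 L) (F 18 L))) (S (F 6 L) (F 6 L))))))) (U (F 1058 (S (V (T (V (F 18 L) (F 18 L)) (S (F 10 L) (S (F 10 L) (F 10 L)))) (S (K 8) (F 10 L))) (V (T (S (F 16 L) L) (V (S (F 24 L) (F 8 L)) (F 8 L))) (S (U (S (K 2) (F 10 L)) (F 10 L)) (S (F 8 L) (F 8 L)))))) (F 1184 (S (V (T (S (F 138 L) (S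 (F 138 L) (F 130 L))) (S (F 138 L) (F 130 L))) (S (F 138 L) (F 130 L))) (V (T (S (F 128 L) (F 128 L)) (S (F 128 L) (F 128 L))) (S (S (F 130 L) (F 130 L)) (S (F 2 L) (F 2 L)))))))) (F 1568 (T (U (K 8) (S (K 8) (V (T (F 136 L) (F 132 L)) (K 8)))) (U (K 8) (S (K 8) (V (S (F 36 L) (F 68 L)) (K 8))))))))
noncomputable def v3_27 : Tr := (V (F 1058 (T (U (S (V (F 26 (V (S (F 32 L) L) (S (F 32 L) L))) (T (F 19 L) (F 26 (S L L)))) (V (T (S (F 26 L) (F 18 L)) (S (S (F 26 L) (F 10 L)) (F 24 L))) (T (F 18 L) (S (F 10 L) (F 10 L))))) (S (V (T (F 19 L) (F 26 (S (F 32 L) L))) (F 26 (S (T (F 32 L) (F 32 L)) (T (V (F 32 L) (F 32 L)) L)))) (V (F 26 (S (S L L) (V L L))) (S (V (F 26 L) (F 11 (S L L))) (F 10 L))))) (U (S (V (S (F 26 L) (F 10 L)) (F 10 L)) (V (S (S (F 10 L) (F 10 L)) (F 8 L)) (V (S (F 10 L) (F 10 L)) (F 10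 L)))) (S (V (F 10 L) (F 10 L)) (V (S (F 10 L) (S (F 10 L) (F 8 L))) (V (S (F 10 L) (F 10 L)) (F 10 L))))))) (F 1696 (T (U (S (F 69 (V (S (K 0) L) (K 0))) (V (S (F 65 (S L L)) (F 64 L)) (K 7))) (S (F 69 (V (S L L) (K 0))) (V (F 65 (S L (S L L))) (F 33 (S (F 2 L) L))))) (U (S (F 80 (V L (K 0))) (V (F 32 L) (F 48 L))) (S (V (F 65 (S (F 4 L) L)) (F 49 (S (F 2 L) L))) (V (F 64 L) (F 48 (S (F 32 L) L))))))))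
noncomputable def v3_28 : Tr := (U (F 1184 (S (F 162 (V (T (U (S (K 4) (U (K 4) (V (S (K 4) L) (K 0)))) (S (S (F 8 L) L) (V (S (F 8 L) L) L))) (U (S (K 4) (V (S (F 8 L) L) L)) (S L (V L L)))) (K 0))) (V (T (U (S (V (S (F 130 L) (S (F 130 L) (F 128 L))) (F 162 (U (K 4) (S L L)))) (V (S (S (F 128 L) (F 128 L)) (S L L)) (S (F 2 L) (F 2 L)))) (S (V (S (F 130 L) (F 130 L)) (S (F 162 L) (F 130 L))) (V (S (F 128 L) L) (S (F 130 L) (F 2 L))))) (U (S (V (S (F 162 L) (F 130 L)) (F 34 L)) (V L (T (F 34 L) (F 98 (S (F 2 L) L))))) (S (V (S (F 162 L) (F 130 L)) (F 34 L)) (V (F 2 L) (F 98 (S L L)))))) (F 98 (T (U (S (K 0) (V (U (K 0) (S (K 0) L)) (K 0))) (V (S (S (K 0) L) (S L (S L L))) (K 0))) (U (S (K 0) (S L (S L L))) (S L (S L L)))))))) (S (F 1674 (V (T (U (S (F 12 (V L (F 16 L))) (V (F 8 L) (F 40 L))) (S (F 9 L)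 (S (F 8 L) (F 8 L)))) (S (F 8 L) (V (S (F 8 L) (F 8 L)) (F 8 L)))) (S (F 33 (U (T (K 0) L) L)) (V (T (F 9 L) (F 40 L)) (F 33 (T L L)))))) (F 1184 (V (T (U (S (V (S (F 130 L) (F 130 L)) (F 162 (S L L))) (V (S (S (F 130 L) (F 130 L)) (F 128 L)) (F 2 L))) (S (V (S (F 162 L) (F 130 L)) (F 130 L)) (V (S (S (F 130 L) (F 130 L)) (F 2 L)) (F 2 L)))) (U (S (V (F 130 L) (F 162 L)) (S (S (F 34 L) (F 34 L)) (F 2 L))) (S (V (F 130 L) (F 162 L)) (S (F 2 L) (F 2 L))))) (T (U (F 98 (S (S (F 2 L) L) (S L (V L (F 2 L))))) (S (V (F 162 L) (F 99 L)) (F 98 (S L (S L L))))) (F 98 (S (S L L) (S L (S L L)))))))))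
noncomputable def v3_29 : Tr := (S (F 1058 (V (F 28 (T (U (S (V (K 2) (S (F 1 L) (K 2))) (K 2)) (V (K 2) (S (S (F 32 L) (F 32 L)) (F 33 (S (T (K 2) L) (K 2)))))) (U (S (S (F 1 L) (F 1 L)) (K 2)) (S (S (F 1 L) (F 1 L)) (V (K 2) (S (F 1 L) (F 1 L))))))) (T (U (S (V (S (F 24 L) (F 24 L)) (T (F 16 L) (S (S (F 24 L) (F 24 L)) (S (F 24 L) (F 24 L))))) (V (F 28 (S (S L L) (K 2))) (T (F 16 L) (S (F 24 L) (F 12 L))))) (S (V (S (F 25 L) (F 28 L)) (S (F 24 L) (F 24 L))) (V (F 28 (T (S (S (F 32 L) (F 32 L)) (S (F 32 L) (F 32 L))) L)) (S (S (F 24 L) (F 24 L)) (V (F 28 (S L L)) (F 24 L)))))) (U (S (V (S (F 24 L) (F 12 L)) (S (F 8 L) (F 8 L))) (V (S (F 12 L) (F 268 L)) (S (F 8 L) (S (F 12 L) (F 12 L))))) (S (V (F 12 L) (F 8 L)) (S (T (F 12 L) (F 12 L)) (F 12 L))))))) (F 1312 (V (F 389 (T (K 1) (S (U (K 1) (S (T (K 1)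 L) (K 1))) (K 1)))) (T (U (S (V (K 5) (S (T (S (F 136 L) (F 140 L)) (F 132 L)) (F 140 (T (K 2) L)))) (K 5)) (S (V (F 133 (V (K 2) (T (S (F 16 L) (K 2)) L))) (T (S (S (F 132 L) (F 133 L)) (F 133 (S L L))) (F 132 L))) (F 133 (V (K 2) (S L L))))) (U (S (V (F 388 L) (F 132 L)) (V (K 5) (S (F 388 L) (F 324 L)))) (S (V (F 388 (S L (F 32 L))) (F 132 L)) (V (F 389 L) (S (F 196 L) (F 325 (S L L))))))))))
noncomputable def v3_30 : Tr := (U (F 1184 (S (V (F 388 (T (U (K 1) (S (V (K 1) L) (K 1))) (U (S (S L L) (K 1)) (S (S L L) L)))) (T (U (S (V (S (F 384 L) (F 384 L)) (S (T (F 128 L) (F 128 L)) (S (F 128 L) (F 128 L)))) (V (F 388 (T (K 1) (S L (K 1)))) (S (F 128 L) (F 4 L)))) (S (V (S (F 384 L) (F 132 L)) (S (S (F 128 L) (F 128 L)) (F 128 L))) (V (F 388 (S (S L L) L)) (S (F 128 L) (F 132 L))))) (U (S (V (S (F 384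 L) (F 388 L)) L) (V (F 388 (S L L)) (V (F 260 L) (S (F 320 L) (F 324 L))))) (S (V (S (F 132 L) (F 388 L)) L) (V (F 388 (S L (F 1 L))) (S (F 68 L) (F 324 L))))))) (V (F 479 (T (K 0) (U (K 0) (S (K 0) (K 0))))) (T (U (S (V (K 5) (S (F 260 L) (S (F 260 L) (F 324 L)))) (K 5)) (S (V (F 388 L) (V (F 260 L) (F 68 L))) (F 324 (V (K 1) (S L L))))) (F 324 (U (S (V L (S L L)) (F 47 (T (K 0) (K 0)))) (S (V L (S L L)) (S L L)))))))) (S (F 1184 (V (F 388 (T (S (S L L) L) (S (S L L) L))) (T (U (S (V (S (F 132 L) (F 132 L)) (S (F 128 L) (F 128 L))) (V (F 388 (S L L)) (F 4 L))) (S (V (F 132 L) (S (F 128 L) (F 128 L))) (V (F 388 (S L L)) (F 4 L)))) (U (S (V (F 388 (S L L)) (F 4 L)) (V (F 388 L) (F 68 L))) (S (V (F 132 L) (F 4 L)) (V (F 388 L) (F 68 L))))))) (F 1408 (V (T (F 385 (U (K 1) (S (F 8 L) (F 1 L)))) (F 448 (S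 (V (F 32 L) (F 4 L)) (S (F 32 L) (F 32 L))))) (T (U (S (V (F 392 L) (S (F 72 L) (F 328 L))) (F 328 (S L L))) (S (V (F 392 L) (F 72 L)) (F 328 (S L (S (F 32 L) (F 32 L)))))) (F 328 (U (S (V L L) L) (S (S L L) L))))))))
noncomputable def v3_31 : Tr := (V (T (U (S (F 98 (V (V (S (S (F 2 L) (F 2 L)) (T (F 2 L) (F 2 L))) (T L (S (F 2 L) (F 2 L)))) (V (S (F 2 L) L) L))) (V (T (F 98 (S L L)) (F 1058 (S (S L L) L))) (S (T (F 98 L) (F 1058 L)) (F 96 L)))) (S (V (F 1058 (S (V (F 16 L) (F 16 L)) (T (S (F 16 L) (F 16 L)) L))) (T (F 1122 (S L L)) (F 1184 (S (F 128 L) L)))) (V (F 1058 (V (S (S (F 16 L) (F 16 L)) (S (F 16 L) (F 16 L))) (T (S (F 16 L) (F 16 L)) L))) (T (F 98 (S L L)) (F 1184 (S L L)))))) (U (S (V (S (T (F 1058 L) (F 1184 (S (F 128 L) L))) (F 1184 (V (T (F 128 L) (F 128 L)) L))) (F 1184 (S L (S L L))))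 (F 1184 (V (S (V (S L L) L) (S L L)) (V (S L L) (S L (S L L)))))) (F 1184 (S (V (S (V (F 128 L) (F 128 L)) (V (S (F 128 L) (F 128 L)) L)) (S L L)) (V (S (S L L) L) (S (S L L) (T L L))))))) (T (U (S (F 228 (V (U (K 7) (S (K 7) L)) (K 7))) (V (U (F 52 (S L L)) (F 164 (S L L))) (K 0))) (S (V (T (F 610 L) (F 1696 L)) (K 0)) (F 164 (V (S (S (F 2 L) L) L) (S (T (F 36 L) (F 2 L)) (S (F 32 L) (F 32 L))))))) (U (S (F 1184 (V (T (S (F 2 L) (F 64 L)) (S (F 66 L) (F 64 L))) (K 8))) (F 164 (V (S (V (T (F 2 L) (F 2 L)) (F 2 L)) (T L (S (F 2 L) (F 2 L)))) (S (K 8) (F 2 L))))) (F 1184 (S (V (S (S (F 66 L) (F 2 L)) (S (F 64 L) (F 64 L))) (V (F 66 L) (K 8))) (V (S (T (S (F 64 L) (F 64 L)) (F 64 L)) (V (S (F 64 L) (F 64 L)) (F 64 L))) (S (F 66 L) (F 64 L))))))))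
noncomputable def v3_32 : Tr := (T (U (S (V (T (F 52 (S L L)) (F 164 (S (S L L) (S L L)))) (F 52 (S (T L (S (F 16 L) (F 16 L))) (T L (S (F 16 L) (F 16 L)))))) (V (T (F 52 (S L L)) (F 164 (S (S L (F 32 L)) (S (F 32 L) (F 32 L))))) (F 180 (S (V (S L L) (S L L)) (T (S L L) L))))) (F 164 (S (V (S (S L L) (S L L)) (S (T (S (F 32 L) (F 32 L)) (F 32 L)) (V (S (F 32 L) (F 32 L)) (F 32 L)))) (V (V (S (F 32 L) (F 32 L)) (S (F 32 L) (F 32 L))) (S (V (F 32 L) (F 32 L)) (T (F 32 L) (F 32 L))))))) (F 164 (U (S (V (T (S L L) (S (S (F 2 L) (F 2 L)) (F 2 L))) (T (S (F 32 L) (F 32 L)) (S (F 34 L) (F 34 L)))) (V (U (T (S (F 32 L) (F 32 L)) (S (F 34 L) (F 34 L))) (S (S (F 2 L) (F 2 L)) (F 2 L))) (T (S (F 32 L) (F 32 L)) (S (F 34 L) (F 34 L))))) (S (V (S (V (S (F 2 L) (F 2 L)) (F 2 L)) (V (F 2 L) (F 2 L))) (S (F 2 L) (S (F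 2 L) (F 2 L)))) (V (S (S (F 2 L) (F 2 L)) (S (F 2 L) (F 2 L))) (T (S (S (F 34 L) (F 34 L)) (F 34 L)) (S (F 34 L) (F 42 L))))))))
noncomputable def v3_33 : Tr := (V (T (U (S (F 1058 (V (T (F 16 L) (S (F 8 L) (F 8 L))) (T (F 16 L) (S (F 8 L) (F 8 L))))) (V (F 1058 (T (S (F 16 L) (F 16 L)) (S (F 8 L) (F 8 L)))) (T (F 1058 L) (F 1184 L)))) (F 1186 (S (V (S (S (F 8 L) (F 8 L)) L) (S (S (F 2 L) (F 2 L)) L)) (V (S L L) (S L L))))) (F 1184 (U (S (V (S (S (F 128 L) (F 128 L)) (T (F 128 L) (F 128 L))) (S (F 2 L) L)) (V (S L L) (S L L))) (S (V (S (F 128 L) (F 128 L)) (S (F 2 L) (F 2 L))) (V (S (F 128 L) (F 4 L)) (S L L)))))) (F 1184 (T (U (S (V (S (F 130 L) (F 2 L)) (S (F 67 L) (F 66 L))) (V (V (F 64 L) (F 64 L)) (S (S (F 66 L) (F 66 L)) (F 64 L)))) (S (V (S (F 130 L) (F 2 L)) (T (F 67 (V L L)) (F 66 L))) (V (S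 (F 2 L) (F 64 L)) (S (F 66 L) (S (F 66 L) (F 66 L)))))) (U (S (V (V (F 2 L) (S (F 66 L) (F 66 L))) (S (F 98 L) (F 66 L))) (V (S (S (F 64 L) (F 64 L)) (T (F 64 L) (F 64 L))) (S (F 66 L) (F 64 L)))) (S (V (V (F 2 L) (S (F 66 L) (F 66 L))) (F 66 L)) (V (S (F 64 L) (F 64 L)) (S (F 66 L) (F 66 L))))))))
noncomputable def v3_34 : Tr := (V (F 1184 (T (U (S (V (S (F 128 L) (T (F 132 L) (F 132 L))) (S L (F 64 L))) (V (S (F 132 L) (F 68 L)) (S (V (F 68 L) (F 64 L)) (S (F 68 L) (F 68 L))))) (S (V (S (S (F 132 L) (F 132 L)) (S (F 132 L) (F 132 L))) (S (F 64 L) (F 64 L))) (V (S (F 5 L) (S (F 5 L) (F 69 L))) (V (F 68 L) (S (F 68 L) (F 68 L)))))) (U (S (V (S (F 4 L) (F 4 L)) (S (T (F 64 L) (F 64 L)) (S (F 64 L) (F 64 L)))) (V (F 68 L) (S (V (F 68 L) (F 68 L)) (S (F 68 L) (F 68 L))))) (S (V (S (F 4 L) (F 4 L)) (S (S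 (F 64 L) (F 64 L)) (V (F 68 L) (F 64 L)))) (V (F 68 L) (V (F 68 L) (S (F 68 L) (F 68 L)))))))) (F 164 (T (U (S (V (T L (V (F 2 L) (F 2 L))) (S (F 2 L) (T (F 32 L) (F 2 L)))) (V (T (S (F 32 L) (F 32 L)) (S (F 2 L) (S (F 10 L) (F 10 L)))) (T (F 32 L) (S (F 2 L) (F 34 L))))) (S (V (S (F 2 L) (F 2 L)) (S (F 2 L) (F 2 L))) (V (S (F 2 L) (S (F 10 L) (F 10 L))) (S (F 2 L) (S (F 34 L) (F 34 L)))))) (U (S (V (S (T (F 2 L) (F 2 L)) (S (F 2 L) (F 2 L))) (S (F 2 L) (F 2 L))) (V (S (F 2 L) (S (F 10 L) (F 10 L))) (S (F 2 L) (F 34 L)))) (S (V (S (F 2 L) (F 2 L)) (F 2 L)) (V (S (S (F 10 L) (F 10 L)) (F 10 L)) (S (F 10 L) (F 10 L))))))))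
noncomputable def v3_35 : Tr := (S (V (T (U (S (V (S (S L L) (S L L)) (S L (S L L))) (V (S (S L L) L) (S (T L (F 64 L)) (T (S (F 64 L) (F 64 L)) (F 64 L))))) (S (V (S L L) (S (F 64 L) L)) (V (S L L) (S (T L (F 64 L)) (T (F 64 L) (F 64 L)))))) (U (S (V (S L L) (S (F 96 L) (F 64 L))) (V (S (F 64 L) (F 64 L)) (S (F 64 L) (F 64 L)))) (S (V (S (F 64 L) (F 64 L)) (F 64 L)) (V (S (F 64 L) (F 68 L)) (S (F 64 L) (F 64 L)))))) (T (U (S (V (S (T (F 66 L) (F 98 L)) (F 64 L)) (K 8)) (V (S (F 64 L) (S (F 64 L) (F 64 L))) (S (F 98 L) (F 96 L)))) (S (V (S (F 66 L) (F 66 L)) (F 98 (S L L))) (V (S (F 64 L) (F 64 L)) (F 98 (S L L))))) (U (S (F 98 (V (S L L) L)) (V (S (F 96 L) (F 96 L)) (F 98 L))) (S (F 98 (S (S L L) (S L L))) (V (F 96 L) (F 98 L)))))) (V (T (U (S (V (S (S (F 64 L) (F 64 L)) (T (F 68 L) (F 68 L))) (T (V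 (F 64 L) (F 64 L)) (S (F 64 L) (F 68 L)))) (V (S (F 68 L) (F 324 (S L L))) (S (S (F 64 L) (F 68 L)) (F 68 L)))) (S (V (S (T (F 4 L) (F 68 L)) (S (F 68 L) (F 68 L))) (S (S (F 64 L) (F 64 L)) (F 64 L))) (V (S (F 68 L) (F 324 L)) (V (F 68 L) (S (F 68 L) (F 84 L)))))) (U (S (V (S (F 68 L) (F 68 L)) (S (F 64 L) (F 68 L))) (V (F 324 (S L (F 4 L))) (F 68 L))) (S (V (S (F 68 L) (F 324 L)) (S (F 68 L) (F 68 L))) (V (F 324 L) (F 68 L))))) (T (U (S (V (S (S (F 64 L) (F 64 L)) (F 64 L)) (S (F 96 L) (F 80 L))) (V (S (F 64 L) (F 68 L)) (S (F 80 L) (F 112 L)))) (S (V (S (F 64 L) (F 64 L)) (F 64 L)) (V (S (F 68 L) (F 68 L)) (F 80 L)))) (U (S (S (F 96 L) (F 96 L)) (S (F 96 L) (F 68 L))) (S (S (F 96 L) (F 96 L)) (S (F 68 L) (F 100 L)))))))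
noncomputable def v3_36 : Tr := (S (V (T (U (S (V (S L L) (S (F 2 L) (F 64 L))) (V (S L (F 64 L)) (S (S (F 64 L) (F 64 L)) (F 64 L)))) (S (S (V (F 128 L) (F 2 L)) L) (V (S (F 64 L) (F 4 L)) (S (F 64 L) (F 64 L))))) (U (S (S (F 64 L) (F 64 L)) (V (S (F 68 L) (F 68 L)) (F 64 L))) (S (V (F 64 L) (F 66 L)) (V (S (F 68 L) (F 68 L)) (F 64 L))))) (T (U (S (V (S (F 66 L) (F 66 L)) (F 98 (S L L))) (V (S (F 64 L) (F 64 L)) (F 98 (S L L)))) (S (V (S (F 66 L) (F 66 L)) (F 98 (S L L))) (V (F 64 L) (F 66 L)))) (U (S (F 98 (S L L)) (V (F 96 L) (F 98 L))) (F 98 (S (S L L) (S L L)))))) (V (T (U (S (V (S (S (F 68 L) (F 68 L)) (F 68 L)) (S (F 64 L) (S (F 68 L) (F 68 L)))) (V (F 68 L) (S (F 68 L) (F 68 L)))) (S (V (S (S (F 68 L) (F 68 L)) (F 68 L)) (S (S (F 68 L) (F 68 L)) (S (F 68 L) (F 68 L)))) (V (F 68 L) (S (F 68 L)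 (F 84 L))))) (U (S (V (F 68 L) (S (F 68 L) (F 68 L))) (V (F 324 L) (F 68 L))) (S (V (F 68 L) (S (F 68 L) (F 68 L))) (S (F 68 L) (F 68 L))))) (T (U (S (S (F 64 L) (F 64 L)) (V (S (F 68 L) (F 68 L)) (F 68 L))) (S (S (F 64 L) (F 64 L)) (V (S (F 68 L) (F 84 L)) (F 68 L)))) (U (S (F 100 (S L L)) (F 68 L)) (S (F 68 L) (F 68 L))))))
noncomputable def v3_37 : Tr := (V (T (U (F 1058 (S (V (K 6) (T (U (S (V (K 6) (S (V (F 16 L) (S (F 16 L) (F 16 L))) (T (K 6) (S (F 16 L) (F 16 L))))) (K 6)) (S (V (S (F 16 L) (K 6)) (S (S (F 16 L) (F 16 L)) (S (F 16 L) (F 16 L)))) (V (K 6) (T (F 16 L) (S (F 16 L) (S (F 24 L) (F 24 L))))))) (U (S (V (S (S (F 24 L) (F 24 L)) (K 6)) (U (T (S (F 16 L) (F 16 L)) (S (F 8 L) (F 8 L))) (T (S (F 16 L) (F 8 L)) (S (F 8 L) (F 8 L))))) (V (K 6) (S (T (F 8 L) (F 8 L)) (F 8 L)))) (S (V (S (F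 24 L) (F 24 L)) (S (T (F 8 L) (F 8 L)) (T (F 8 L) (F 8 L)))) (V (F 268 (T (K 1) (S L (K 1)))) (S (S (F 8 L) (F 8 L)) (T (F 12 L) (F 12 L)))))))) (V (K 6) (T (K 6) (U (K 6) (S (V (K 6) (S (F 12 L) (S (F 12 L) (K 6)))) (K 6))))))) v3_29) v3_30) (T (U (S v3_31 (V (T (U (S (V (F 1058 (T (K 6) (S L (K 6)))) (U (T (S (F 98 L) (F 100 L)) (F 36 L)) (S (F 36 L) (F 164 L)))) (V (K 3) (U (F 52 (S L (K 6))) (F 164 (S L (S (F 32 L) (F 8 L))))))) (S (V (T (F 1122 (S L L)) (F 1184 (S (F 128 L) (F 4 L)))) (F 1184 (V L (S L (F 64 L))))) (F 164 (V (T (K 6) (F 10 L)) (T (S (F 32 L) (F 40 L)) (S (F 2 L) (S (F 10 L) (F 10 L)))))))) (F 1184 (U (S (V (S L (S (F 64 L) (F 4 L))) (T (S (S L L) (S L (F 64 L))) (S (S L (F 64 L)) (S (F 64 L) (F 64 L))))) (V (U (K 5) (S (F 68 L) (K 5))) (S (T (F 64 L) (F 64 L)) (T (S (F 64 L) (F 68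 L)) (F 68 L))))) (S (V (S L (F 4 L)) (V (S L (F 64 L)) (S (S (F 64 L) (F 64 L)) (F 64 L)))) (V (T (F 68 L) (F 68 L)) (T (S (F 64 L) (F 68 L)) (V (F 68 L) (F 68 L)))))))) v3_32)) (S v3_33 v3_34)) (F 1184 (U v3_35 v3_36))))
noncomputable def v3_38 : Tr := (U (S (F 10 (V (S (T (F 32 L) (S (F 32 L) (F 32 L))) (T (F 32 L) (S (F 32 L) (F 32 L)))) (T (U (S (S (F 32 L) (F 32 L)) (V (F 32 L) (S (F 32 L) (F 32 L)))) (S (S (F 32 L) (F 32 L)) (V (F 32 L) (F 32 L)))) (U (S (V (F 32 L) (F 32 L)) (V L L)) (S (S (F 32 L) (F 32 L)) (V (F 32 L) (S (F 32 L) (F 32 L)))))))) (V (T (F 9 (U (S (S (F 33 L) (F 48 L)) (S (F 48 L) (F 17 L))) (F 48 (S (S L L) (S L L))))) (F 12 (U (S (F 16 L) (S (F 1 L) (F 1 L))) (S (F 48 (S L L)) (S (F 48 L) (F 33 L)))))) (T (F 10 (U (S (V (S (F 32 L) (F 32 L)) (S (F 32 L) (S (F 32 L) (F 32 L))))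 (V (S (F 32 L) (F 32 L)) (S (S (F 32 L) L) (S L L)))) (S (V (F 32 L) (S (F 32 L) (F 32 L))) (V (S (F 32 L) (F 32 L)) (T (S (F 32 L) (F 32 L)) L))))) (U (S (F 10 (V L (S L L))) (S (S (F 2 L) (F 2 L)) L)) (S (V (F 10 L) (F 2 L)) (S (F 2 L) (F 2 L))))))) (F 3 (S (V (T (F 48 (V (F 8 (S L L)) (S L L))) (S (F 16 L) (F 48 (S L L)))) (T (S (V (F 16 L) (F 16 L)) (V (F 16 L) (S (F 16 L) (F 16 L)))) (S (V (F 16 L) (F 16 L)) (V (F 16 L) (S (F 16 L) (F 16 L)))))) (V (S (F 48 (V L (T L (S L L)))) (V (F 48 (S L L)) (T (F 48 (S L L)) (S (F 48 L) (F 32 L))))) (T (U (S (V (F 16 L) (S (F 16 L) (F 16 L))) (V (V (F 48 (S L L)) (F 16 L)) (S (F 16 L) (F 16 L)))) (S (V (F 16 L) (F 16 L)) (V (F 48 (S L L)) (S (F 16 L) (F 32 L))))) (U (S (V (S (F 16 L) (F 16 L)) L) (V (S (F 32 L) (F 32 L)) (S L L))) (S (S L L) (V (S (F 32 L) (F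 32 L)) (V (F 32 L) L)))))))))
noncomputable def v3_39 : Tr := (U (S (V (T (F 10 (S L L)) (S (F 2 L) (F 6 (S L L)))) (T (S (S (F 10 L) (F 2 L)) (V (F 2 L) (F 2 L))) (S (F 2 L) (V (F 2 L) (F 2 L))))) (V (T (U (S (F 6 (S (F 16 L) (F 1 L))) (F 132 L)) (S (F 6 L) (F 132 L))) (S (S (F 6 L) (F 132 L)) (F 132 (S L L)))) (T (U (S (V (F 2 L) (S (F 10 L) (F 2 L))) (V (F 4 L) (S (F 2 L) (F 2 L)))) (S (S (F 2 L) (F 2 L)) (V (F 6 (S L L)) (F 2 L)))) (U (S (V (F 2 L) (F 2 L)) (V (F 4 L) (F 2 L))) (S (S (F 2 L) (F 2 L)) (V (F 6 (S L L)) (F 2 L))))))) (S (V (T (F 3 (S (S (F 16 L) (F 16 L)) (S (F 32 L) (F 32 L)))) (F 6 (S L L))) (T (F 3 (S (S L L) (V L L))) (S (F 3 (S L L)) (F 2 L)))) (V (F 6 (T (U (S (F 32 L) (F 1 L)) (S (F 32 L) (V (F 33 L) (F 32 L)))) (S L (S (F 1 L) (F 1 L))))) (T (S (V (F 6 L) (F 2 L)) (F 6 (V (S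 L L) (S L L)))) (S (V (F 6 (S L L)) (F 2 L)) (F 6 (V L (S L L))))))))
noncomputable def v3_40 : Tr := (S (F 1602 (V (T (F 6 (S (V L L) (V (S L (S L L)) (U L L)))) (U (S (F 22 (V L L)) (S (F 6 (S L L)) (F 4 L))) (S (F 6 (S (F 4 L) L)) (S (F 4 L) (F 4 L))))) (T (U (S (F 18 L) (V (F 6 (S (F 4 L) L)) (F 50 L))) (F 18 (S L L))) (S (F 18 (S L L)) (V (F 20 L) (F 48 L)))))) (V (F 610 (T (U (S (V (S (F 5 (S L L)) (T (F 5 L) (F 4 L))) (F 5 (S (S L L) (V L L)))) (V (T (F 5 (S (S L L) (V L L))) L) (S (S (F 1 L) (F 1 L)) (T (F 1 L) L)))) (S (V (F 5 (S L (S L L))) (S (F 5 (S L L)) (F 1 L))) (V (S (V (F 5 L) (F 1 L)) (F 1 L)) (S (F 1 L) (S (F 1 L) (F 1 L)))))) (U (S (V L (F 1 L)) (V (S L L) (S L L))) (S (V (S (F 1 L) (F 1 L)) (F 1 L)) (V L (S L L)))))) (T (F 1600 (U (S (V (F 68 (S (F 16 L) L)) (F 80 (S (F 2 L) (F 8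 L)))) (V (F 68 (S L L)) (F 36 (S (F 2 L) L)))) (S (F 68 (S (T (F 16 L) (F 4 L)) L)) (V (F 68 (S L L)) (F 36 (S (F 2 L) L)))))) (U (V (F 610 (S (F 1 L) L)) (F 1604 (S (S (F 48 L) (F 20 L)) (S (F 20 L) (F 4 L))))) (F 1600 (V (S (F 68 L) (S (F 68 L) (F 4 L))) (S (F 112 L) (F 36 (S (F 4 L) L)))))))))
noncomputable def v3_41 : Tr := (U (S (F 578 (V (T (S (F 41 (S L L)) (V (F 9 L) (F 40 (S (F 32 L) L)))) (F 40 (S (S (F 32 L) (F 32 L)) (S L L)))) (F 33 (S (S (F 2 L) (F 2 L)) (T (V (F 8 L) (F 2 L)) (F 2 L)))))) (V (F 608 (T (S (V (S (F 64 L) (F 64 L)) (F 64 L)) (V (S (S (F 64 L) (F 64 L)) (S (F 64 L) (F 64 L))) (S (F 64 L) (F 64 L)))) (U (S (S (F 80 L) (F 64 L)) (S (F 64 L) (F 32 L))) (S (S (F 80 L) (F 64 L)) (S (F 64 L) (F 32 L)))))) (F 584 (T (U (S (V (F 72 L) (F 97 L)) (F 40 (S L L))) (S (F 33 (S (F 2 L) (S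 (F 8 L) (F 8 L)))) (F 40 (V L (S (F 32 L) (F 32 L)))))) (U (F 40 (S L L)) (S (F 33 L) (F 40 L))))))) (S (F 1602 (V (T (V (S (F 20 L) (F 4 L)) (F 16 L)) (S (F 16 L) (V (F 4 L) (F 20 L)))) (F 48 (S (S L L) (T (S L L) L))))) (V (F 608 (T (U (S (S (F 65 L) (F 64 L)) (S (F 64 L) (F 64 L))) (S (F 65 (S L L)) (V (F 64 L) (F 65 L)))) (U (S (F 64 L) (S (F 96 L) (F 32 L))) (S (F 96 L) (S (F 96 L) (F 34 L)))))) (F 1604 (T (U (S (F 48 (S L L)) (V (F 4 L) (F 20 L))) (S (F 48 (S L L)) (V (F 4 L) (F 48 L)))) (S (F 48 (S L L)) (F 20 (S L L))))))))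
noncomputable def v3_42 : Tr := (S (V (F 1314 (T (F 6 (S (V (F 1 L) L) (V (S (F 1 L) (F 1 L)) (S L (V (S (F 1 L) (F 1 L)) L))))) (S (V (F 70 (S L L)) (S (F 6 L) (F 68 L))) (V (F 66 L) (F 68 (S L L)))))) (F 98 (T (U (S (V (S (F 9 L) (F 12 (T (F 32 L) L))) (V (F 9 (S L L)) (F 8 L))) (V (F 5 (S (T (F 16 L) L) (T (F 16 L) (F 16 L)))) (T (S (S (F 9 L) (F 5 L)) (F 5 (S L L))) (F 4 L)))) (S (V (F 13 (S L L)) (S (F 3 (T (F 16 L) L)) (F 5 L))) (F 5 (T (V (S (F 16 L) (F 16 L)) (S L L)) (S (S L L) L))))) (U (S (V (F 4 L) L) (S (F 4 L) (F 4 L))) (S (S (F 4 L) (F 4 L)) (V (F 5 L) (F 4 L))))))) (V (F 1315 (T (V (F 2 L) (S (S (U (F 6 (T (K 1) L)) (F 2 L)) (F 2 L)) (F 2 L))) (S (V (F 2 L) L) (S (F 2 L) (F 2 L))))) (T (F 1314 (U (S (T (V (F 6 (S L L)) (S (F 4 L) (F 4 L))) (S (S (F 4 L) (F 4 L)) (F 4 L))) (V (S (V (F 66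 L) (F 6 L)) (F 66 L)) (S (F 4 L) (F 4 L)))) (S (V (T (F 6 (S L L)) (F 4 L)) (S (F 4 L) (F 4 L))) (V (F 66 (S L L)) (F 4 L))))) (U (S (F 354 (V (S (F 1 L) (F 65 L)) L)) (F 1312 (V (F 192 (S (F 8 L) (F 1 L))) (F 36 (S L L))))) (F 1312 (S (V (F 68 (S L (F 1 L))) (V (F 68 L) (F 4 L))) (V (F 224 L) (F 36 L))))))))
noncomputable def v3_43 : Tr := (U (S (F 352 (V (F 192 (T (S L (S (F 32 L) (F 32 L))) (S L L))) (T (S (V (F 64 L) (S (S (F 64 L) (F 64 L)) (F 64 L))) (V (F 64 L) L)) (U (S (S (F 64 L) (F 64 L)) (V (F 192 L) (F 32 L))) (S (S (F 64 L) (F 64 L)) (S (F 32 L) (F 160 L))))))) (V (F 1315 (S (T L (S (F 32 L) (F 32 L))) (T (S (F 32 L) (F 32 L)) (F 32 L)))) (T (U (F 352 (S (V (F 192 L) (F 32 L)) (F 160 (S L (F 32 L))))) (S (V (F 1315 (S (F 4 L) (F 32 L))) (F 356 L)) (F 1317 (V (F 32 L) (S (F 4 L) (F 4 L))))))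 (F 357 (U (S (S L L) L) (S (S L L) (S (F 1 L) (F 1 L)))))))) (S (V (F 1315 (S (T (S (F 4 L) (F 4 L)) (S (F 4 L) (F 4 L))) (T (F 4 L) (F 32 L)))) (F 352 (T (U (S (F 66 (V L (S L L))) (F 64 L)) (S (F 66 (V L L)) (F 65 (S L L)))) (U (S (T (F 64 L) (F 66 L)) (S (F 96 L) (F 160 L))) (S (F 66 (S L L)) (F 96 L)))))) (F 292 (V (F 193 (S (T L L) (S L L))) (T (U (S (V (F 193 (S L L)) (F 9 L)) (F 129 L)) (V (F 193 (S L L)) (S (F 9 L) (F 129 L)))) (U (S (F 136 L) (F 129 L)) (F 129 (S L (F 1 L)))))))))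
noncomputable def v3_44 : Tr := (V (T (U (F 98 (S (V (S (F 2 L) (F 1 L)) (S (F 3 (V L L)) (F 2 L))) (V (S (F 1 L) (F 1 L)) L))) (S (F 610 (V (T (S (F 1 L) (F 1 L)) L) (V (S (F 1 L) (F 1 L)) (S (F 1 L) (F 1 L))))) (F 1120 (V (S (F 64 L) (F 66 (S L L))) (V (S (F 65 L) (F 66 L)) (F 1 L)))))) (U (S (V (F 98 (T L L)) (F 608 (S L L))) (V (S (F 98 L) (F 352 L)) (F 100 (S L L)))) (S (F 608 (V (S (F 64 L) (F 64 L)) L)) (V (F 354 (S L L)) (F 100 (S (F 2 L) (F 4 L))))))) (T (U (S (F 1632 (V (S L L) (S (F 16 L) (T (F 16 L) (F 16 L))))) (V (S (F 1632 (S L L)) (F 100 L)) (F 612 (T (S (V (F 1 L) (F 1 L)) (V (F 1 L) (F 1 L))) L)))) (F 1632 (S (V (S (S (F 32 L) L) L) (S (F 16 L) (S (F 16 L) (F 16 L)))) (V (V (S (F 16 L) (F 16 L)) (S (F 16 L) (F 16 L))) (V (S (F 16 L) (F 16 L)) (S (F 16 L) (F 16 L))))))) (F 100 (U (S (S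 (F 2 L) (V (F 2 L) (F 2 L))) (V (S (S (F 2 L) (F 2 L)) L) (F 2 L))) (S (V (S (F 2 L) (F 2 L)) (F 3 (S L L))) (V (S (F 2 L) (F 2 L)) (F 2 L)))))))
noncomputable def v3_45 : Tr := (V (T (U (S (V (F 352 (T (F 65 (V (S L L) (S L L))) (S (F 64 L) (F 1 L)))) (V (F 1376 (S L L)) (F 100 (S (F 1 L) (F 4 L))))) (F 352 (V (S (F 1 L) (S (F 1 L) (F 33 L))) (T (F 33 (V (S L L) (S L L))) (F 32 L))))) (F 1376 (S (V (V (S (F 32 L) (F 32 L)) (S (F 32 L) (F 32 L))) (V L (S (F 16 L) (F 16 L)))) (V (S L (S (F 16 L) (F 16 L))) (V (S (F 16 L) (F 16 L)) (S (F 16 L) (F 16 L))))))) (F 352 (U (S (V (S L (F 32 L)) (S (T (F 32 L) (F 32 L)) (S (F 32 L) (F 32 L)))) (V (F 32 L) (S (F 32 L) (F 32 L)))) (S (V (S (F 32 L) (F 32 L)) (S (F 32 L) (F 32 L))) (V (F 33 (T (S L L) L)) (S (F 32 L) (F 32 L))))))) (F 100 (T (U (S (V L (T (S (F 1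 L) (F 1 L)) (F 2 L))) (V (V (S (F 4 L) (F 5 (S L L))) (F 4 L)) (S (F 1 L) (F 4 L)))) (S (V (S (F 1 L) (T (F 5 L) (F 4 L))) (V (S (F 3 L) (F 5 L)) (F 3 (S L L)))) (F 5 (V (V (S L L) (S L L)) (S (S L L) L))))) (U (S (V (S L (S (F 4 L) (F 4 L))) (F 2 L)) (V (S (F 4 L) (F 4 L)) (F 4 L))) (S (V (S (F 4 L) (F 4 L)) (F 2 L)) (V (F 4 L) (F 4 L)))))))
noncomputable def v3_46 : Tr := (V (T (F 1120 (U (S (F 65 (V (S L L) (S L L))) (V (S (T (S (F 65 L) (F 66 L)) (F 66 L)) (F 66 L)) (S (F 65 (S L L)) (F 3 (S L L))))) (S (F 65 (V (S L (S (F 32 L) (F 32 L))) (S L L))) (F 3 (V (V (S (F 2 L) (F 2 L)) (S (F 2 L) (F 2 L))) (S (V (S (F 2 L) (F 2 L)) L) L)))))) (U (S (F 608 (V (S (F 65 L) (S (F 65 L) (F 66 L))) (S (F 1 L) (F 1 L)))) (F 352 (V (S (F 64 L) (F 1 L)) (S (F 2 L) (F 32 L))))) (F 608 (S (V (T (F 65 (S L (S (F 32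 L) (F 32 L)))) (F 66 L)) (S (F 65 L) (F 3 L))) (V (F 3 (S (S L L) L)) (T (F 3 (S L L)) (F 34 L))))))) (F 608 (T (U (V (S (S (F 65 (S L L)) (F 1 L)) (F 33 (S (S L L) (S L L)))) (F 33 (S (S L L) (S L L)))) (S (V (F 65 (S L L)) (F 33 L)) (F 33 (V (S L (S L (T (F 32 L) (F 32 L)))) (S L L))))) (U (S (F 33 (V (S L L) L)) (V (S (F 33 (S L L)) (F 32 L)) (F 33 (S L L)))) (F 33 (S (V (S L L) L) (V (S L (T (S (F 32 L) (F 32 L)) (F 32 L))) L)))))))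
noncomputable def v3_47 : Tr := (V (F 352 (T (U (S (V (F 65 (S L (S L L))) (S (F 1 L) (F 33 (S L L)))) (V (S (S (F 65 L) (F 33 L)) (F 33 L)) (F 33 (V (S L L) (S L L))))) (S (V (F 65 (S L L)) (S (F 3 (S L L)) (F 33 L))) (F 33 (V (S L L) (S L L))))) (U (S (V (T (F 1 L) (F 32 L)) (S (F 32 L) (F 33 (S L L)))) (F 33 (V (S L L) (S (S L L) L)))) (F 33 (S (V (S L L) (S L L)) (V (S L L) (S L L))))))) (F 100 (T (U (S (V (S (V (S (F 3 L) (F 5 L)) (F 3 L)) (F 5 (S L L))) (F 3 (S L (S L (T (F 32 L) (F 32 L)))))) (F 5 (V (S L L) (S L L)))) (F 5 (S (V (V (S (S (F 32 L) (F 32 L)) (S (F 32 L) (F 32 L))) (S (S (F 32 L) (F 32 L)) (S (F 32 L) (F 32 L)))) (S (V (S (F 32 L) (F 32 L)) (F 32 L)) (T (F 32 L) (F 32 L)))) (V (S L L) (S (S (F 32 L) (F 32 L)) L))))) (U (S (V (T (F 4 L) (F 4 L)) (S (F 3 L) (F 6 L))) (F 5 (V (S L L)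 L))) (F 5 (S (V (S (V (S (F 32 L) (F 32 L)) (F 32 L)) (T L (F 32 L))) (S (S (F 32 L) (F 32 L)) (S (F 32 L) (F 32 L)))) (V (S L L) (S (F 32 L) (F 32 L)))))))))
noncomputable def v3_48 : Tr := (U (S (V (T (U (S (V (F 98 L) (F 612 (S L L))) (V (F 352 (S L (F 32 L))) (F 100 L))) (S (F 608 (V L (S (F 32 L) (F 32 L)))) (F 100 (V (S (F 4 L) (F 4 L)) (S (F 2 L) (F 4 L)))))) (F 100 (U (S (V L (F 2 L)) (V (S (F 4 L) (F 4 L)) (F 4 L))) (S (V (F 6 (S L L)) (F 2 L)) (S (F 4 L) (F 4 L)))))) (F 612 (T (S (V (S L L) (S (F 16 L) (F 16 L))) (S L (S L L))) (U (S (S (F 16 L) (F 16 L)) (S (F 16 L) (F 16 L))) (S (F 16 L) (S (F 16 L) (F 2 L))))))) (F 100 (V (T (S (V (S (S (F 4 L) (F 4 L)) (F 4 L)) (S (S (F 4 L) (F 4 L)) (S (F 4 L) (F 4 L)))) (V (F 4 L) (S (F 4 L) (F 4 L)))) (S (V (S (F 4 L) (F 4 L)) (S (F 4 L) (F 4 L))) (S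 (F 4 L) (F 4 L)))) (T (U (S (S L (S (F 4 L) (F 4 L))) (S (F 4 L) (F 4 L))) (S (V (F 4 L) (F 6 L)) (S (F 4 L) (F 4 L)))) (S (V (F 4 L) (F 6 L)) (F 4 L)))))) (S (V (T (U (S (F 608 (V (F 2 L) (F 32 L))) (F 356 (V L (S (F 2 L) (F 2 L))))) (F 864 (S (S L (T L (F 16 L))) (V (S (F 16 L) (F 16 L)) (S (F 16 L) (F 16 L)))))) (F 868 (S (V (S L L) L) (V (S L L) (S L L))))) (F 612 (T (S (V L (F 1 L)) (S (S (F 2 L) (F 2 L)) (V (F 2 L) (F 2 L)))) (S (T (F 16 L) (F 18 L)) (S (F 2 L) (F 2 L)))))) (F 356 (V (T (S (V (S (F 1 L) (F 1 L)) L) (V (S (F 1 L) (F 1 L)) (S (F 1 L) (F 1 L)))) (S (S L L) L)) (S (T (V (S (F 2 L) (F 2 L)) (F 2 L)) (S (F 2 L) (F 2 L))) (V (S L L) (S (F 2 L) (F 2 L))))))))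
noncomputable def v3_49 : Tr := (S (V (F 98 (T v3_38 v3_39)) (T (U v3_40 (F 1600 (S (V (T (F 66 (S (V (F 16 L) (F 4 L)) (V (S (F 16 L) (F 16 L)) (U (S (F 16 L) (F 16 L)) L)))) (S (F 66 (V (F 16 L) (F 4 L))) (F 68 (S L L)))) (V (S (F 82 L) (T (F 66 L) (F 112 L))) (F 80 (S (T (F 16 L) (F 18 L)) (T (F 16 L) (F 2 L)))))) (V (F 68 (T (U (S (V (S (F 16 L) (S (F 16 L) (F 16 L))) (S (S (F 16 L) (F 16 L)) L)) (V (S L L) (S L L))) (S (V (S (F 16 L) (F 16 L)) (S (F 16 L) L)) (V L L))) (S (V (S L L) (S L L)) (V (S L L) (S (S L L) (S L L)))))) (T (U (S (S (F 80 L) (F 68 L)) (V (F 68 (S L L)) (S (F 96 L) (F 36 L)))) (S (F 96 L) (V (F 68 L) (F 96 L)))) (U (S (V (F 68 L) (F 112 L)) (V (F 68 (S L L)) (F 48 L))) (S (F 96 (V L (F 2 L))) (S (F 96 L) (F 36 L))))))))) v3_41)) (V (T (U v3_42 (S (V (F 1314 (T (V (F 67 (S (F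 8 (S L L)) L)) (S (F 7 (S L L)) (U (F 6 L) (F 3 L)))) (S (V (F 67 L) (F 5 L)) (F 66 L)))) (F 98 (T (U (S (V (F 5 (T (S (F 48 L) (F 16 L)) (S (F 32 L) (F 32 L)))) (F 3 (S L (V (F 32 L) (F 32 L))))) (F 5 (V (S (F 16 L) (F 16 L)) (S L L)))) (F 5 (S (V (T (F 48 (S L L)) (F 32 L)) (S (F 32 L) (F 32 L))) (S (V (F 32 L) (S (F 32 L) (F 32 L))) L)))) (S (V (F 7 (S (S L L) (S L L))) (S (F 6 (U L (S (F 32 L) (F 32 L)))) (F 5 (U L (T (F 32 L) (F 32 L)))))) (F 5 (V L (S (S L L) L))))))) (F 1314 (V (S (F 66 (S L L)) (T (F 66 L) (F 96 L))) (T (U (S (S (F 4 L) (F 4 L)) (S (F 4 L) (F 64 L))) (S (F 4 L) (V (F 96 L) (F 32 L)))) (U (S (S (F 4 L) (F 4 L)) (V (F 96 L) (F 32 L))) (S (S (F 4 L) (F 32 L)) (V (F 96 L) (F 32 L))))))))) v3_43) (T (U (S v3_44 v3_45) (S v3_46 v3_47)) v3_48)))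
noncomputable def v3_50 : Tr := (T (U (F 1800 (S v3_2 (V (F 1090 v3_3) (T (F 2130 v3_4) (U (S (V (F 98 (T (U (S (V (T (F 33 L) (F 32 L)) (S (F 37 (S L L)) (F 33 L))) (V (K 6) (T (F 33 L) (F 32 L)))) (S (V (S (F 5 L) (F 33 L)) (F 37 (V (S L L) L))) (V (T (F 33 L) (F 1 L)) (V (F 33 L) (F 33 L))))) (U (S (V (S L L) (T (F 32 L) L)) (V (S L (K 6)) (V (S (F 32 L) L) (S (F 32 L) (S (F 32 L) (F 32 L)))))) (S (V (S (F 2 L) (F 2 L)) (S (F 4 L) (F 32 L))) (V (T L L) (S (F 32 L) L)))))) (T (F 2162 (U (S (K 6) (V (V L (K 6)) (K 6))) (S (V (V (F 2 L) (K 6)) (K 6)) (V (T L (S L L)) (V (S (K 6) (F 32 L)) (K 6)))))) (U (F 112 (S (K 8) (V (V (S (F 128 L) (F 128 L)) (S (K 8) (F 64 L))) (K 8)))) (S (F 610 (V (V (S (F 1 L) (F 16 L)) (S (K 7) (F 16 L))) (K 7))) (F 112 (V (V (F 128 L) (S (F 192 L) (F 64 L))) (S (K 8) (F 64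 L)))))))) v3_5) (S v3_6 v3_7)))))) v3_22) (U (S (F 1416 (V v3_25 (T (U v3_26 (S (F 1570 (V (T (U (V (S (F 13 L) (T (F 9 L) (F 12 L))) (F 13 (S (K 0) L))) (F 13 (V (S L (S L L)) (S (F 4 L) L)))) (F 12 (U (V (S (F 32 L) L) (S (F 36 L) (T (F 32 L) (F 4 L)))) (S (F 36 (V L L)) (V L (F 32 L)))))) (F 5 (T (U (K 0) (S (K 0) (V (S (K 0) (F 16 L)) (K 0)))) (V (U (K 0) (S (F 20 L) (F 4 L))) (K 0)))))) v3_27)) v3_28))) (F 1672 v3_37)) (F 1194 v3_49)))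
noncomputable def v3_51 : Tr := (U (S (K 0) (V (T (U (K 0) (S (K 0) (V (V (S (F 264 L) (F 264 L)) (K 0)) (K 0)))) (U (S (K 0) (U (K 0) (V (S (K 0) (F 16 L)) (K 0)))) (S (K 0) (V (S (F 16 L) (S (F 16 L) (F 16 L))) (K 0))))) (K 0))) (S (V (T (F 328 (U (K 5) (S (K 5) (V (S L L) (K 5))))) (F 336 (U (K 5) (S (V (T (K 5) (U (K 5) (F 1 L))) (K 5)) (V (U (S (K 5) L) (V (S L L) (S (K 5) L))) (K 5)))))) (K 0)) (V (T (U (S (F 328 (V (V (S L L) (K 5)) (K 5))) (V (S (F 264 L) (F 264 L)) (S (K 0) (F 272 L)))) (S (V (T (F 328 L) (F 320 L)) (F 336 (S (K 5) (S (K 5) L)))) (V (S (F 264 L) (F 264 L)) (F 336 (S (S L L) (S L L)))))) (U (S (V (S (U (K 0) (T (F 336 (S (K 5) L)) (F 80 L))) (S (F 272 L) (F 272 L))) (K 0)) (T (V (S (F 272 L) (F 272 L)) (F 272 L)) (S (F 16 L) (F 16 L)))) (S (V (V (S (F 336 (S L L)) (F 272 L)) (F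 336 (S (S L L) (S L L)))) (F 336 (S (S (K 5) L) (S L L)))) (V (S (F 272 L) (F 272 L)) (S (F 336 (S L L)) (F 272 L)))))) (F 464 (T (K 4) (U (K 4) (S (K 4) (V (S (K 4) L) (K 4)))))))))
noncomputable def v3_52 : Tr := (U (S (K 0) (V (T (F 3202 (U (K 7) (S (F 90 (U (K 0) (V (V (S (K 0) L) (K 0)) (K 0)))) (V (S (F 66 (U (K 0) (T (F 4 L) (V (S (F 12 L) (F 8 L)) (K 0))))) (V (T (F 20 (V (F 8 L) (F 2 L))) (F 10 (V (S (F 16 L) (F 16 L)) (T (S (F 8 L) (F 8 L)) (F 2 L))))) (F 82 (U (K 0) L)))) (K 7))))) (F 3364 (U (F 12 (S (K 0) (V (T (K 0) (S (K 0) L)) (K 0)))) (S (F 50 (V (U (K 0) (V (S L L) (K 0))) (K 0))) (V (T (T (S (S (F 34 L) (F 40 L)) (S (F 40 L) (F 12 L))) (S (F 40 L) (F 36 L))) (S (F 48 L) (F 36 L))) (F 24 (S (K 0) L))))))) (K 0))) (F 3332 (S (F 98 (V (V (T (U (U (K 0) (F 2 L)) (F 2 L)) (S (T (F 2 L) (F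 4 L)) (S (F 4 L) (U (F 4 L) (F 4 L))))) (F 2 L)) (F 18 L))) (V (V (S (T (F 82 (V L (S (S (F 2 L) L) L))) (F 72 (S (F 18 (U (U L L) L)) (T (F 16 L) (F 2 L))))) (U (S (F 66 (T (U (U (T (F 4 L) (V (F 8 L) (F 12 L))) (F 4 L)) (F 4 L)) (F 8 L))) (F 80 (T (U (T (F 16 L) (T (F 16 L) (F 4 L))) (F 16 L)) (F 4 L)))) (F 80 (T (F 16 L) (F 4 L))))) (S (F 114 (U (T L L) L)) (T (F 82 (V L (S (F 2 L) L))) (F 56 (S (U (S (F 2 L) L) (F 2 L)) L))))) (F 114 (V (S L (T L L)) (F 8 (U (K 2) L))))))))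
noncomputable def v3_53 : Tr := (S (V (T (U (F 154 (V L L)) (T (F 154 (S L L)) (V (F 152 (S (F 32 L) (F 16 L))) (F 142 (S (S (F 16 L) (F 8 L)) (S (F 8 L) (F 8 L))))))) (U (S (T (F 156 (S L L)) (V (V (F 153 L) (F 140 (U (F 8 L) (S (F 32 L) (F 8 L))))) (F 140 (U (S (F 32 L) (F 8 L)) (F 32 L))))) (F 156 (V (S L L) L))) (S (F 141 (V (V (S (F 8 L) (F 8 L)) (S L (S (F 8 L) (F 8 L)))) L)) (S (F 141 (V (V (F 8 L) (S (F 8 L) (F 8 L))) (V (V (F 8 L) L) L))) (F 28 (T (V (F 18 L) (S (F 2 L) (F 16 L))) (V (F 34 (V L L)) (F 32 L)))))))) (V (S (F 141 (T (F 16 L) (U (S (K 0) (F 2 L)) (F 16 L)))) (T (F 158 (U L L)) (F 13 (U (F 16 L) (S (F 34 L) (F 32 L)))))) (F 15 (U (U (K 0) (U (K 0) (U (K 0) (U (K 0) (S (K 0) (S (K 0) (F 2 L))))))) (S (F 6 L) (T (F 6 L) (F 4 L))))))) (V (T (F 154 (V L (U L (S (S (F 8 L) (F 8 L)) (F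 8 L))))) (U (S (V (T (F 154 L) (F 60 (S L L))) (F 30 L)) (F 22 (V (S (F 24 (V L L)) (T (F 24 L) (F 8 L))) (F 16 L)))) (F 22 (S (V (T (F 18 (S L L)) (S (T (F 18 (S L L)) (F 32 L)) (F 16 L))) (U (F 16 L) (T (F 18 (S L L)) (F 32 L)))) (V (T (S (F 18 L) (F 24 L)) (S (F 8 L) (F 40 L))) (F 16 L)))))) (T (F 30 (S (T (V (S (F 2 L) (F 2 L)) (F 2 L)) L) (S L L))) (V (F 22 (U (S (F 16 L) (F 16 L)) (S (T (S (F 48 L) (F 16 L)) (F 32 L)) (S (F 32 L) (F 32 L))))) (F 7 (S (S (F 32 L) (F 16 L)) (F 16 L)))))))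
noncomputable def v3_54 : Tr := (T (U (F 1140 (S (V (T (F 40 (V L (K 0))) (S (U (K 6) (V (S (F 40 L) (F 12 L)) (K 6))) (F 12 (V (S L L) L)))) (K 6)) (S (V (T (F 8 L) (F 4 L)) (K 6)) (V (T (F 8 L) (F 4 L)) (F 4 L))))) (S (V (V (F 1120 (T (F 216 (S L L)) (S (S (V (F 141 L) (F 21 (T (F 16 L) (F 4 L)))) (F 85 L)) (F 85 (S L L))))) (F 1300 (S (T (F 68 (U (F 8 L) (S (F 32 L) (F 8 L)))) (F 25 (S L L))) (F 24 (T (F 8 L) (F 32 L)))))) (F 3476 (S (F 16 L) (S (F 2 L) (F 2 L))))) (F 1364 (V (S (T (F 12 (S L L)) (F 9 (V L L))) (T (F 12 (S L L)) (F 8 L))) (T (F 4 L) (U (S (F 9 L) (F 8 L)) (F 9 L))))))) (F 1316 (U (S (F 9 (V (S (S (F 8 L) (F 8 L)) (V (S (F 8 L) L) (F 8 L))) (K 0))) (V (S (V (T (F 24 L) (F 9 L)) (F 25 (U (T L L) (T L L)))) (T (F 24 L) (F 9 (V L (S L (T (F 8 L) (F 8 L))))))) (F 25 (S (U (K 0) L) (V (T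 (U (K 0) L) (S L L)) (S (K 0) L)))))) (S (V (F 9 (S (S (F 8 L) L) (S L L))) (F 17 (S (F 4 L) (F 8 L)))) (F 9 (V (V (S L L) (S (T (S (F 8 L) (F 8 L)) L) (T (S (F 8 L) (F 8 L)) L))) (S (S (F 8 L) (F 8 L)) (T (U (S (F 8 L) (F 8 L)) (F 8 L)) (F 8 L)))))))))
noncomputable def v3_55 : Tr := (V (F 100 (T (U (V (S (T (F 50 L) (F 42 L)) (F 42 (S L L))) (F 42 (S (S L L) (S L L)))) (F 42 (S (S (V L (V (F 32 L) (F 32 L))) (V L L)) (V (S L (S (F 16 L) (F 16 L))) L)))) (U (V (T (S (F 42 (S L L)) (F 40 L)) (S (S (F 11 (V L (S (T (F 8 L) (F 8 L)) (T (F 8 L) (F 8 L))))) (V (F 41 L) (F 42 (U L (F 32 L))))) (F 41 (S L L)))) (F 42 (S (S (T (V L (S (F 32 L) (F 32 L))) (S (F 32 L) (F 32 L))) (T L (S (F 32 L) (F 32 L)))) (T L (S (S (F 32 L) (F 32 L)) (F 32 L)))))) (S (F 11 (V (V (S (S L L) (T (F 8 L) L)) (S (T (S (F 8 L) (F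 8 L)) L) (T (F 8 L) (F 8 L)))) (S (T (V (S (F 8 L) (F 8 L)) (F 8 L)) (F 8 L)) (V (S (F 8 L) (F 8 L)) (F 8 L))))) (V (S (F 43 (V (S L L) (S L L))) (F 44 (T L (S (F 32 L) (F 32 L))))) (F 43 (S (V L L) (S L L)))))))) (F 1364 (T (U (V (S (F 8 L) (F 8 L)) (K 6)) (S (V (F 1 L) (F 17 L)) (S (F 1 L) (T (F 2 L) (F 9 L))))) (U (F 9 (S (U (K 0) (V (S L L) (K 0))) (V (S L L) (F 4 L)))) (S (V (F 9 L) (F 17 L)) (F 9 (V L (F 4 L))))))))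
noncomputable def v3_56 : Tr := (T (U (F 50 (S (V (S (S (F 32 L) (F 32 L)) (S (F 32 L) (F 32 L))) (V (F 32 L) (F 32 L))) (V (T (F 16 L) (T (S (F 16 L) (F 16 L)) (U (S (F 16 L) (F 16 L)) (U (S (F 16 L) (F 16 L)) (F 48 (V (S L L) (S L L))))))) (T (S (F 16 L) (F 16 L)) (V (U (F 16 L) (F 48 (S (S L L) L))) (S (F 32 L) (F 48 (S L L)))))))) (F 35 (S (V (V (S (S (F 8 L) (F 40 L)) (F 40 (S L L))) (T (F 32 L) (S (F 8 L) (U (F 8 L) (F 40 (S L L)))))) (S (F 32 L) (F 32 L))) (V (F 40 (V (S (S L L) (S L L)) (S (V L L) (V L L)))) (V (T (F 32 L) (F 40 (S (S L L) L))) (F 32 L)))))) (U (S (F 19 (V (V (S L L) (S (S (F 8 L) (F 8 L)) (S (F 8 L) (F 8 L)))) (S (S (F 8 L) (F 8 L)) (S (F 8 L) (F 8 L))))) (V (V (F 21 (S (S (F 32 L) (F 32 L)) (T (F 8 L) (F 8 L)))) (F 51 (S (S L (T (T (F 16 L) (F 16 L)) (F 16 L))) (T (S (F 16 L)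 (F 16 L)) (S (F 16 L) (F 16 L)))))) (F 51 (S (S L L) (T (V (S (F 16 L) (F 16 L)) (F 16 L)) (S (F 16 L) (F 16 L))))))) (F 19 (V (S (S L (T (F 32 L) (F 32 L))) (V (S (F 32 L) (S (F 32 L) (F 32 L))) (F 40 (S (T (S L L) L) (T L L))))) (S (S (F 8 L) (S (F 8 L) (U (F 8 L) (F 40 (T (T L L) L))))) (F 40 (S (T (V (S L L) L) (S L L)) (V (S L L) L))))))))
noncomputable def v3_57 : Tr := (S (V (T (U (V (S (V (S (F 3074 (T (U (T (F 172 L) (F 14 (S (F 8 L) (F 2 L)))) (F 38 (V (F 16 L) (F 2 L)))) (F 154 L))) (F 1364 (T (U (T (F 36 L) (S (F 33 L) (F 9 L))) (F 33 (T (V (F 8 L) (F 8 L)) L))) (F 9 L)))) (F 1300 (S (F 69 L) (T (T (U (F 76 L) (F 5 (S (F 2 L) (F 16 L)))) (F 73 L)) (F 25 L))))) (F 1364 (S (V (S (T (T (F 36 L) (F 9 L)) (F 9 L)) (F 9 L)) (F 9 L)) (F 9 (T L L))))) (F 3348 (S (F 34 L) (F 4 L)))) (F 3332 (S (V (V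 (S (F 82 L) (F 68 (T (S (F 16 L) (F 16 L)) (F 8 L)))) (F 82 L)) (F 82 L)) (F 20 (V (T (S (S (F 2 L) (F 2 L)) (F 8 L)) (S (F 8 L) (F 8 L))) (F 16 L)))))) (F 3364 (U (S (V (S (F 4 L) (F 4 L)) (F 24 L)) (V (T (S (F 4 L) (S (F 4 L) (F 4 L))) (F 4 L)) (F 12 (T (S L L) (S L L))))) (V (S (F 32 L) (S (F 4 L) (F 4 L))) (F 8 L))))) (F 3356 (S (V (F 2 L) (F 1 L)) (T (F 1 L) (F 1 L))))) (V (F 324 v3_56) (F 3348 (T (S (V (F 5 L) (F 17 L)) (F 5 (U (T (S L L) L) L))) (V (S (U (F 12 L) (F 9 L)) (F 12 (S (U L (F 16 L)) (U (S (F 16 L) (F 16 L)) (F 16 L))))) (S (F 17 L) (F 5 (S (F 4 L) (F 8 L)))))))))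
noncomputable def v3_58 : Tr := (S (V (T (F 1174 (U (S (K 6) (V (T (S (K 6) (F 8 L)) (U (K 6) (V (S (K 6) (S (F 9 L) (F 24 L))) (K 6)))) (K 6))) (S (F 37 (V (V (U (S (K 0) L) (S (S L L) L)) (F 8 (U (K 2) (S (K 2) L)))) (K 0))) (V (T (U (F 9 (S (V L (K 0)) L)) (V (S (F 7 L) (F 9 L)) (F 7 (V L (S (F 2 L) L))))) (U (V (S (F 5 L) (V (S (F 5 L) (F 9 L)) (F 5 L))) (F 5 (S (K 0) L))) (F 5 (S (V L (F 2 L)) L)))) (F 39 (U (K 0) (U (U (K 0) L) L))))))) v3_52) (K 0)) (V (T (F 1044 (U (S (V (V (F 152 (S (T L (U (V (F 4 L) (K 0)) (S (F 4 L) (F 4 L)))) (V (S (F 4 L) (F 4 L)) (U (S (F 4 L) (F 4 L)) (F 4 L))))) (T (F 152 L) (T (F 152 L) (F 28 (S (U (K 0) (F 2 L)) L))))) (K 8)) (V (T (F 152 (V (S (F 4 L) (F 20 (V (S L L) (S L L)))) (S L (F 16 L)))) (U (F 56 (S (V (T (F 2 L) L) L) (V (S (F 2 L) (F 16 L)) L))) (S (V (F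 184 (S L L)) (F 28 L)) (V (F 58 (S L L)) (F 28 (U (S (F 8 L) (F 8 L)) (F 16 L))))))) (T (V (S (S (F 152 L) (F 26 L)) (F 26 L)) (F 30 (U (K 0) L))) (F 28 (U (S (K 0) L) (V (S (F 16 L) (S (F 16 L) (F 16 L))) (S (K 0) (F 16 L)))))))) v3_53)) (U (S (V v3_54 (F 3356 (T (U (K 5) (S (K 5) (F 4 L))) (U (K 5) (U (F 8 L) (F 8 L)))))) v3_55) v3_57)) (F 1820 (T (U (K 5) (S (F 19 L) (S (F 3 L) (T (F 6 (U (V L (K 0)) (F 8 L))) (F 5 L))))) (U (F 5 (S (K 0) (T (K 0) (S (K 0) L)))) (S (F 3 L) (F 1 L)))))))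
noncomputable def v3_59 : Tr := (U (S (K 0) (V (T (U (S (K 0) (S (K 0) (V (S (F 24 L) (F 24 L)) (K 0)))) (S (V (S (K 0) (F 24 L)) (K 0)) (V (S (F 24 L) (F 24 L)) (F 280 L)))) (F 280 (U (S (K 6) (V (S L L) (K 6))) (S (V (T L (F 16 L)) (K 6)) (V (S L L) (F 16 L)))))) (K 0))) (S (F 400 (V (T (U (U (K 6) (S (K 6) (V (S (K 6) (F 8 L)) (K 6)))) (S (U (K 6) (V (S (F 17 L) (F 1 L)) (K 6))) (V (T (S (S (F 1 L) (F 1 L)) (S (F 1 L) (F 8 L))) (S (F 1 L) (F 8 L))) (F 25 (T (K 0) (S (K 0) (S (K 0) L))))))) (U (S (K 6) (V (S (F 16 L) (F 16 L)) (K 6))) (S (V (F 16 L) (K 6)) (V (F 16 L) (F 24 L))))) (K 6))) (V (T (U (S (V (T (S (F 152 L) (F 280 L)) (F 280 L)) (F 408 (S (K 5) L))) (T (F 24 L) (F 280 (S L L)))) (S (V (S (F 400 (V L (F 8 L))) (F 280 L)) (F 920 (S (S L L) (S L L)))) (F 280 (V (S L L) (F 2 L))))) (U (F 280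 (S (V (S (F 2 L) (F 2 L)) (F 18 L)) (T L (F 16 L)))) (F 400 (S (V L (F 24 L)) (S (F 8 L) (F 8 L)))))) (F 924 (S (T (K 3) (S L L)) (T (U (K 3) (S L L)) L))))))
noncomputable def v3_60 : Tr := (U (S (V (T (F 896 (U (V (S (F 4 L) (S (F 4 L) (S (F 4 L) (F 4 L)))) (S (F 24 (U (K 0) L)) (F 12 (S (V L (T (K 0) (F 4 L))) L)))) (V (S (F 4 L) (S (F 4 L) (F 4 L))) (S (F 24 L) (S (S (F 24 L) (F 20 L)) (F 12 L)))))) (F 404 (U (S (S (F 1 L) (F 1 L)) (V L (F 9 (S L L)))) (S (S (F 1 L) (F 1 L)) (S (F 1 L) (F 1 L)))))) (F 908 (S (S L L) (S L (U (S L (F 4 L)) L))))) (V (T (F 784 (U (S (V (S (S (F 1 L) (F 1 L)) (S (F 1 L) (F 1 L))) (F 9 (S L L))) (V (S (F 8 L) (F 8 L)) (F 9 (S L L)))) (S (V (S (F 1 L) (F 1 L)) (F 9 (S L L))) (V (S (F 1 L) (S (F 2 L) (F 10 L))) (F 9 (S L L)))))) (F 400 (U (S (S (F 16 L) (F 16 L)) (T (F 8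 L) (F 10 L))) (S (S (F 17 L) (F 9 L)) (S (F 3 L) (F 10 L)))))) (F 924 (T (S (S (S L L) L) (S L L)) (S L (F 1 L)))))) (F 896 (S (V (S (S (F 16 L) (V (F 4 L) (F 24 L))) (T (S (F 4 L) (F 4 L)) (F 20 (S L L)))) (F 24 (S L (S L L)))) (V (T (U (S (V (S (F 4 L) (F 4 L)) (F 12 L)) (V (F 5 (S (S L L) (S L L))) (F 12 (S (S L (F 16 L)) (S (F 16 L) (F 16 L)))))) (S (S (F 4 L) (F 5 (V L L))) (F 5 (V (S L L) (S (S (F 8 L) (F 8 L)) (F 8 L)))))) (F 5 (S (S L L) (S L L)))) (S (F 24 (U (S (F 4 L) (F 4 L)) (S (F 16 L) (F 16 L)))) (F 13 (T (V L (F 4 L)) (F 4 L))))))))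
noncomputable def v3_61 : Tr := (S (F 900 (V (T (U (S (F 18 (U (K 0) (V (V (S (K 0) (S L L)) (K 0)) (K 0)))) (V (T (U (S (K 5) (V (S (F 4 L) (F 4 L)) (K 5))) (S (S (F 16 L) (F 16 L)) (S (F 8 L) (F 8 L)))) (U (S (F 16 L) L) (S (F 16 L) (F 8 L)))) (S (K 5) (F 8 L)))) (S (V (T (V (F 18 (S L (S L L))) (F 24 (S (F 4 L) L))) (F 16 L)) (F 25 (S (F 4 L) L))) (S (V (T (F 16 L) (F 16 L)) (F 24 L)) (V (S (U L (F 16 L)) L) (F 8 L))))) (U (S (V (S (F 16 L) (S (F 16 L) (F 16 L))) (K 5)) (V (S L L) (F 8 L))) (S (S (F 24 L) (F 16 L)) (V (S (F 16 L) L) (F 9 L))))) (F 25 (U (K 0) (S (F 4 L) L))))) (V (T v3_60 (U (F 388 (S (V (T (S (F 9 (S L L)) (F 8 L)) (F 8 L)) (F 17 L)) (F 10 (V (T (S L (S L L)) (S L (F 4 L))) (F 20 (S L L)))))) (F 896 (S (V (S (F 16 L) (F 20 (T L (F 16 L)))) (F 25 (S L L))) (F 5 (V (T (S (S (F 4 L)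 (F 4 L)) L) (S (F 4 L) (F 4 L))) (F 12 (S L L)))))))) (F 972 (T (U (F 2 (S (K 0) (S L L))) (S L L)) (S L L)))))
noncomputable def v3_62 : Tr := (T (U (F 12168 (S (K 0) (V (T (U (F 266 (S (K 5) (V (T (U (K 5) (V (S (K 5) (F 2 L)) (K 5))) (U (K 5) (S (K 5) (V (S (K 5) L) (K 5))))) (K 5)))) (S (F 330 (V (T (U (K 4) (V (S (K 4) L) (K 4))) (U (K 4) (U (K 4) (V (S (K 4) (S (K 4) L)) (K 4))))) (K 4))) (V (T (F 330 (V (S (S L L) L) (S (K 4) (S L L)))) (U (V (S (F 330 (V (S (K 4) L) (K 4))) (S (F 328 L) (F 266 L))) (K 0)) (F 328 (V (S (T (S (F 16 L) (F 16 L)) L) (S L L)) (S (K 5) L))))) (K 0)))) v3_51) (K 0)))) (F 393 v3_58)) (F 9640 (U (S (F 916 (V (T (U (K 4) (S (K 4) (V (T (K 4) (U (K 4) (S (K 4) (S (K 4) L)))) (K 4)))) (U (K 4) (S (K 4) (V (T (S (K 4) (S L L)) (S L L)) (K 4))))) (K 4))) (V (T v3_59 (U (F 284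 (S (V (T (U (K 5) (S (K 5) (S (F 2 L) (F 2 L)))) (S (S (K 5) (F 2 L)) (S (F 2 L) (F 2 L)))) (K 5)) (V (T (U (S (V L (K 5)) (S L L)) (S (S (F 2 L) (F 2 L)) L)) (S (S (F 2 L) (F 2 L)) (S (F 2 L) (F 4 L)))) (S (K 5) (F 2 L))))) (S (F 388 (V (T (S (F 8 L) (S (F 24 L) (F 8 L))) (F 24 (S L L))) (F 17 (S L (S (F 4 L) (F 4 L)))))) (F 276 (V (T (S (S (F 2 L) (F 18 L)) (S (F 18 L) (F 20 L))) (F 18 (S L (S (F 8 L) (F 8 L))))) (F 18 (S (F 16 L) (F 8 L)))))))) (F 988 (T (K 2) (U (K 2) (S (K 2) (S (K 2) L))))))) v3_61)))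
noncomputable def v3_63 : Tr := (V (T (F 1200 (U (F 119 (S (K 0) (K 0))) (S (V (K 3) (V (S (F 32 L) (K 3)) (S (T (F 32 L) (F 32 L)) (F 48 (T L L))))) (V (K 3) (T (K 3) (V (K 3) (F 16 L))))))) (U (F 1172 (S (V (K 4) (S (T (S (F 8 L) (F 8 L)) (F 4 L)) (T (K 4) (F 4 L)))) (K 4))) (S (V (F 1666 (S (T (F 4 L) (S (F 2 L) (F 6 L))) (K 4))) (F 1156 (T (F 24 (S L L)) (F 5 (S L (S L L)))))) (F 1236 (V (K 3) (T (V (K 3) (F 4 L)) (S (F 1 L) (F 1 L)))))))) (T (F 1044 (U (S (V (F 20 (V (T (S (S (F 2 L) (F 2 L)) (K 2)) L) (S L L))) (S (F 16 L) (F 20 (S L L)))) (F 20 (V (S L L) (S L L)))) (S (F 20 (V (V (T (S (F 2 L) (F 2 L)) L) L) (S L L))) (V (F 20 (S L L)) (T (F 20 L) (F 12 L)))))) (U (S (V (F 148 (S (T (F 1 L) (F 8 L)) (F 9 (V L L)))) (T (F 1044 (S (F 8 L) (F 4 L))) (F 212 (S L L)))) (F 1172 (V (T (F 8 L) (F 4 L))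 (V (S (F 4 L) (F 4 L)) (S (F 4 L) (F 4 L)))))) (F 1236 (S (V (V (S L L) (S L L)) (V (S L L) (S L L))) (V (S L L) (T L L)))))))
noncomputable def v3_64 : Tr := (T (F 1072 (U (F 96 (S (V (K 1) (T (U (K 1) (V (K 1) (S (F 8 L) (K 1)))) (U (S (V (K 1) (S L (K 1))) (K 1)) (S (V (K 1) (S L L)) (V (K 1) (V (K 1) (F 8 L))))))) (K 1))) (S (V (F 68 (T (K 2) (U (K 2) (V (K 2) (S (S L (K 2)) (K 2)))))) (T (F 100 (V (S (S L L) (V (K 1) L)) (S L (S L L)))) (U (S (F 96 (V (V (K 1) (S (F 8 L) (F 8 L))) (S L (S (F 8 L) (F 8 L))))) (F 36 (V (K 2) (T (F 2 L) L)))) (F 36 (V (S (V (S (F 2 L) (F 2 L)) (S (F 2 L) (F 2 L))) (V (S (F 2 L) (K 2)) (S (F 2 L) (F 2 L)))) (S (V (F 2 L) (F 2 L)) (T (F 2 L) L))))))) (F 36 (V (K 2) (V (K 2) (T (S (V (K 2) (F 2 L)) (K 2)) (S (T (U (K 2) (F 2 L)) L) (S L (K 2)))))))))) (U (S (V (K 3) (T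 (F 52 (U (S (V (K 5) (T (F 1 L) L)) (F 9 (V (K 2) (V (K 2) (S L (K 2)))))) (S (V (V (K 5) (S (F 65 L) (F 9 L))) (S (F 1 L) (F 1 L))) (F 9 (V (K 2) (V L (S L L))))))) (U (S (V (F 52 (S L (K 5))) (T (F 52 L) (F 20 L))) (F 148 (V (K 5) (S L L)))) (S (V (F 148 (T (S (F 16 L) (T (F 17 L) (F 1 L))) L)) (F 84 (S L L))) (F 148 (V (F 9 (T (K 2) (S L (K 2)))) (T (F 1 L) (F 8 L)))))))) (F 1172 (V (K 4) (T (U (K 4) (V (K 4) (S (F 8 L) (K 4)))) (U (S (U (K 4) (T (K 4) (V (K 4) (F 4 L)))) (K 4)) (S (V (K 4) (S (F 4 L) (F 4 L))) (V (K 4) (F 4 L)))))))) (S v3_63 (F 1172 (V (F 5 (T (K 2) (U (K 2) (S (V (K 2) (T (K 2) L)) (K 2))))) (T (U (V (K 4) (S (F 8 L) (F 12 (S L (K 2))))) (S (T (S (F 8 L) (F 8 L)) (V (F 12 L) (F 4 L))) (F 12 (V (K 2) (S L L))))) (U (V (F 12 (U (K 2) (S L (K 2)))) (S (F 4 L) (F 12 L))) (S (V (F 4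 L) (F 4 L)) (T (F 12 L) (F 5 L))))))))))
noncomputable def v3_65 : Tr := (V (F 642 (T (T (F 50 (V (S (F 32 L) (F 34 L)) (U (F 2 L) (F 34 (S L L))))) (V (F 35 (S (F 8 L) (S (F 8 L) (F 2 L)))) (F 50 (S (V (F 32 L) (F 34 L)) (U (F 2 L) (F 34 (S L L))))))) (U (T (F 49 (S (S (S (F 32 L) (F 32 L)) (S (F 32 L) (F 2 L))) (V (F 2 L) (F 2 L)))) (S (F 49 (V (F 16 L) (S (F 8 L) (F 2 L)))) (V (F 37 (S (F 8 L) (F 2 L))) (F 161 (U (F 4 L) (S (F 4 L) (V (F 16 L) (F 20 (S L L))))))))) (V (S (F 23 (S (S L L) (T (S (F 8 L) (F 8 L)) L))) (F 37 (T (S (F 32 L) (F 34 L)) (F 2 L)))) (S (T (F 51 (V (S (F 16 L) (F 2 L)) (F 2 L))) (F 21 (S (S (F 32 L) (F 8 L)) (V (S (F 40 L) (F 10 L)) (F 10 L))))) (F 161 (S (T (T (F 36 (S L L)) (F 20 (V L L))) (F 20 (V (S L L) L))) (V (F 16 L) (F 20 (S L L)))))))))) (F 564 (T (F 74 (U (V L (S (F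 4 L) (F 4 L))) (T L (S L L)))) (U (S (F 24 (V (T (F 18 (S L L)) (F 2 L)) (T (F 18 (S L L)) (T (F 16 L) (F 8 L))))) (V (F 72 (U (F 4 L) (V (F 8 L) (F 12 (S L L))))) (F 28 (S L L)))) (S (V (T (F 75 (S L L)) (S (V (F 73 (U (F 4 L) (T (F 16 L) (F 8 L)))) (F 18 (T (S (F 10 L) (F 24 L)) (F 48 (S L L))))) (F 13 (V (F 2 L) (F 8 L))))) (F 10 (T (U (F 10 L) (T (F 10 L) (V (F 18 (S (F 2 L) L)) (F 24 L)))) (F 24 (S (S L L) L))))) (V (T (F 72 (T (F 16 L) (F 40 (S L L)))) (F 13 (V (S (F 2 L) (F 2 L)) (S (F 8 L) (F 8 L))))) (F 28 (T (S (F 8 L) (F 2 L)) L))))))))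
noncomputable def v3_66 : Tr := (U (F 688 (S (V (T (V (F 67 (S (S L L) (K 2))) (F 96 (S (S (F 16 L) (F 16 L)) (S (F 16 L) L)))) (V (F 65 (S L (S L (K 2)))) (F 96 (U (S (V (S (F 4 L) (F 4 L)) (F 4 L)) (V (K 1) (S (F 4 L) (K 1)))) (T L (S (S (F 4 L) (F 4 L)) (S (F 4 L) (F 4 L)))))))) (T (F 96 (S (V (U (F 4 L) (F 16 L)) (F 20 (V (S L L) L))) (V (S (F 4 L) (F 4 L)) (F 4 L)))) (F 40 (V (S (V (F 2 L) (F 2 L)) (U (V (S (F 2 L) (F 2 L)) (F 2 L)) (S (F 2 L) (F 2 L)))) (S (S (F 2 L) (F 2 L)) (S (F 2 L) L)))))) (V (F 96 (T (V (K 1) (S L (K 1))) (U (K 1) (V (K 1) (S (T (F 32 L) (S (F 32 L) (F 8 L))) (K 1)))))) (T (F 96 (V L (S (F 4 L) (V (F 4 L) (F 4 L))))) (V (S (F 104 (U (V (S L (K 1)) L) (V L L))) (U (F 104 (T (K 1) L)) (F 36 (T (F 2 L) (S (F 8 L) (F 8 L)))))) (F 40 (S (S L (V (F 8 L) (F 8 L))) (T L (V (F 8 L)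 (F 8 L)))))))))) (S v3_65 (F 660 (V (T (F 65 (V (F 48 (S L (V (F 8 L) L))) (S (U (T (F 36 L) (F 4 L)) (S (S (F 36 L) (F 48 L)) (F 48 L))) (F 48 (U (S L L) L))))) (F 68 (U (S (V (F 32 L) (V (F 32 L) (S (U (F 4 L) (F 32 L)) (F 32 L)))) (V (K 1) (F 32 L))) (V (F 48 (S L (V (F 8 L) L))) (S (F 32 L) (F 32 L)))))) (T (F 80 (U (S (S (F 16 L) (F 16 L)) L) (V (T (F 16 L) (S (S (F 24 L) (F 8 L)) (F 8 L))) (S (F 24 (S L L)) (S (F 24 L) (F 8 L)))))) (U (S (F 20 (V (T (F 2 L) (V (F 2 L) (F 8 L))) (F 8 L))) (V (V (F 69 L) (F 12 (S (F 8 L) (F 2 L)))) (F 28 (S L L)))) (V (F 5 (S (V (S (F 10 (S L L)) (F 2 L)) (T (F 10 L) (F 8 L))) (F 2 L))) (F 20 (S (V (F 40 (S L L)) (F 8 L)) (V (U (F 8 L) (F 32 L)) (F 8 L)))))))))))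
noncomputable def v3_67 : Tr := (T (U (F 736 (S (V (F 65 (S L (T (K 2) L))) (T (F 72 (S L (V (F 2 L) (F 2 L)))) (V (F 72 (S L (S (F 2 L) (F 2 L)))) (F 40 (S L L))))) (F 40 (V (K 2) (T (V (S (F 2 L) (K 2)) (S (F 2 L) (F 2 L))) (V (U (K 2) (S (F 2 L) (F 8 L))) (S (F 8 L) (F 8 L)))))))) (S (V (F 2722 (T (S (F 4 L) (S (F 6 L) (F 8 L))) (F 6 (S (V L L) (U (S L L) L))))) (F 608 (T (F 152 (V (S (F 32 L) (F 32 L)) (S (F 2 L) (F 2 L)))) (S (V (F 141 L) (F 69 L)) (V (F 13 (S (F 2 L) (F 4 L))) (F 85 L)))))) (V (F 2818 (V (F 82 (U (K 1) L)) (S (T (F 26 (S L L)) (F 6 (S (F 16 L) (F 2 L)))) (F 80 (U (K 1) (T (F 16 L) (T (F 16 L) (F 8 L)))))))) (V (S (F 548 (T (F 168 (U (F 4 L) (V (F 32 L) (F 4 L)))) (S (F 29 L) (F 52 (U (T (F 8 L) (F 32 L)) (F 32 L)))))) (F 532 (T (U (F 184 L) (F 140 (V (F 32 L) (F 4 L)))) (U (F 52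 (T (F 8 L) (F 32 L))) (F 29 L))))) (F 628 (T (S (F 40 L) (F 12 (S L L))) (F 5 (S L L)))))))) (F 832 (U (S (V (F 137 (T (S (V (F 16 L) (S (F 16 L) (F 16 L))) (S (T (F 16 L) (F 16 L)) (F 16 L))) (S L (F 2 L)))) (T (U (S (F 73 L) (F 88 L)) (F 73 (S L L))) (F 73 (S L L)))) (F 73 (V (V (K 2) (T (S (S (F 2 L) (K 2)) (K 2)) (F 8 L))) (S (V (S (F 8 L) (F 8 L)) (S (F 8 L) (F 8 L))) (S (F 8 L) (F 8 L)))))) (S (V (F 137 (T (S (S L L) (S L (F 2 L))) (S L (F 2 L)))) (F 73 (S L L))) (V (F 193 (T (S (S (F 8 L) (F 16 L)) (S (F 16 L) (F 4 L))) (F 4 L))) (F 73 (S (T (S (F 8 L) (F 8 L)) L) (T (F 8 L) (F 8 L)))))))))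
noncomputable def v3_68 : Tr := (S (V v3_67 (F 612 (T (U (S (V (F 24 (T (V (S (F 2 L) (F 2 L)) (F 2 L)) L)) (T (F 24 L) (F 20 L))) (V (T (F 24 L) (F 20 (S L (F 8 L)))) (T (F 24 L) (F 20 L)))) (S (V (T (F 24 (S (F 2 L) (F 8 L))) (F 20 L)) (F 20 (S (F 8 L) L))) (F 20 (T (V (S (F 8 L) (F 8 L)) (S (F 8 L) (F 8 L))) (V L L))))) (U (S (V (T (F 20 (S L L)) (F 5 (S (S L L) (V L (F 8 L))))) (F 20 (T (S L L) (S L L)))) (F 20 (V (T L (S (V (F 32 L) (F 32 L)) (F 32 L))) (T L L)))) (F 5 (S (V (V (S L (S L L)) (S (S L L) (T (F 8 L) (F 8 L)))) (V (S (T (F 8 L) (F 8 L)) (S (F 8 L) (F 8 L))) (S (S (F 8 L) (F 8 L)) (F 8 L)))) (V (V (S (S (F 8 L) (F 8 L)) (F 8 L)) (S (S (F 8 L) (F 8 L)) (F 8 L))) (V (S (F 8 L) (F 8 L)) (S (F 8 L) (F 8 L)))))))))) (F 788 (V (T (U (F 28 (S (V (K 2) (V (K 2) (T (K 2) L))) (K 2))) (S (V (F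 77 (V (K 1) (U (K 1) (T (K 1) (T (K 1) L))))) (V (F 5 (S (T (U (K 2) (F 2 L)) (F 16 L)) (T (K 2) (F 16 L)))) (S (F 24 (T (F 8 L) (F 32 L))) (F 13 L)))) (F 13 (V (K 2) (V (K 2) (S L L)))))) (F 9 (U (S (V (K 2) (S (F 8 L) (F 8 L))) (V (K 2) (S (F 1 L) (K 2)))) (S (V (T (V (K 2) (S (F 2 L) (F 17 L))) (F 1 L)) (F 8 L)) (V (F 3 (T (K 3) L)) (F 1 L)))))) (F 24 (T (U (S (V (S (S (F 8 L) (F 8 L)) (F 8 L)) (S L L)) (V (S (F 8 L) (F 8 L)) (S (F 8 L) (F 8 L)))) (S (V (T (S (F 8 L) (F 8 L)) (S (F 32 L) (F 32 L))) L) (V (T (F 8 L) (F 32 L)) L))) (U (S (V (T (F 32 L) (F 32 L)) (T L (F 32 L))) (V (F 32 L) (F 32 L))) (V (S (V (F 32 L) (S (F 32 L) (F 32 L))) (F 32 L)) (S (S (S (F 32 L) (F 32 L)) (F 32 L)) (S (F 32 L) (F 32 L))))))))))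
noncomputable def v3_69 : Tr := (T (U (S (V (F 2946 (S (F 6 (S L L)) (T (F 12 L) (S (F 6 L) (F 34 L))))) (F 2592 (S (F 138 (V (S (F 16 L) (F 16 L)) (T (S (F 16 L) (F 16 L)) (F 2 L)))) (T (V (F 134 (S (F 16 L) (F 2 L))) (S (F 200 (T (F 8 L) (F 16 L))) (V (T (F 198 L) (F 90 L)) (F 94 (T L L))))) (F 74 (V (F 2 L) (F 8 L))))))) (V (F 2950 (T (F 8 L) (S (F 2 L) (S (F 2 L) (F 8 L))))) (V (F 2566 (S (T (U (T (F 52 L) (F 6 (S (F 8 L) (F 4 L)))) (F 6 (S (F 8 L) (F 4 L)))) (F 26 L)) (F 34 (T (F 16 L) (F 8 L))))) (F 564 (T (S (T (U (F 88 L) (F 13 (S L L))) (F 21 L)) (F 5 (T (F 16 L) (F 8 L)))) (F 21 (S L L))))))) (F 2818 (S (V (F 6 (S (F 16 L) (F 2 L))) (F 72 (S (T (V (F 16 L) (F 24 (S L L))) (F 8 L)) (T (V (F 16 L) (S (F 24 L) (F 8 L))) (F 8 L))))) (V (F 82 L) (T (F 80 (V (F 16 L) (S (S (F 4 L) (F 4 L)) (F 16 L))))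 (F 68 (S (F 8 L) (F 4 L)))))))) (F 2884 (U (S (V (S (V (F 32 L) (F 36 (S L L))) (F 32 L)) (S (F 4 L) (F 4 L))) (V (S (F 34 L) (F 40 L)) (S (F 4 L) (S (F 4 L) (F 12 L))))) (S (V (F 32 L) (F 4 L)) (V (F 40 L) (S (F 4 L) (F 8 L)))))))
noncomputable def v3_70 : Tr := (S (V v3_69 (F 612 (T (U (S (V (T (V (S (T (F 88 L) (F 21 L)) (F 21 (S L L))) (F 28 L)) (F 21 (S L L))) (F 21 (S L L))) (F 20 (V (T (T (S (F 8 L) (F 8 L)) (S (F 32 L) (F 32 L))) (S (F 32 L) (F 32 L))) (S (F 32 L) (F 32 L))))) (F 21 (S (V (T (S (S L L) L) L) (S (V (F 16 L) (F 16 L)) L)) (V (S L L) L)))) (F 5 (V (S (S L (S L L)) (V (U (S (S (F 8 L) (F 8 L)) (F 8 L)) (S (F 8 L) (F 8 L))) (S (T (F 8 L) (F 8 L)) (T (F 8 L) (F 8 L))))) (S (V (S (S (F 8 L) (F 8 L)) (S (F 8 L) (F 8 L))) (T (S (F 8 L) (F 8 L)) (F 8 L))) (V (S (S (F 8 L) (F 8 L)) (S (F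 8 L) (F 8 L))) (S (F 8 L) (F 8 L))))))))) (F 788 (V (T (F 5 (V (U (S (V (S (F 2 L) (F 3 L)) (F 2 L)) (F 3 (T L L))) (S (F 2 L) (F 3 L))) (U (S (V (T (F 2 L) (S (F 16 L) (F 16 L))) (S (F 16 L) (F 16 L))) (T (F 2 L) (F 16 L))) (V (F 2 L) (S (S (F 16 L) (F 16 L)) (F 16 L)))))) (F 9 (V (U (S (S (F 2 L) (V (F 3 L) (F 1 L))) (F 3 (S (S L L) L))) (S (T (F 2 L) (F 1 L)) (F 3 L))) (S L (F 1 L))))) (T (U (S (F 24 (V (T (T (S (F 8 L) (F 8 L)) (F 32 L)) (S (F 32 L) (F 32 L))) (S (F 32 L) (F 32 L)))) (F 9 (V (S (F 16 L) (F 16 L)) (S (F 8 L) (F 8 L))))) (F 9 (S (V (S (F 8 L) (F 8 L)) (F 8 L)) (V (F 16 L) (S (F 8 L) (F 8 L)))))) (F 9 (V (S (U (T (S (F 8 L) (F 8 L)) (S (F 8 L) (F 8 L))) (V L (S (F 8 L) (F 8 L)))) L) (S (S (V (F 8 L) (F 8 L)) (T (F 8 L) (F 8 L))) (S (S (F 8 L) (F 8 L)) (F 8 L)))))))))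
noncomputable def v3_71 : Tr := (V (F 2818 (T (F 3 (U (F 59 (S (V (K 0) (T (K 0) (K 0))) (K 0))) (V (F 9 (S L (K 2))) (S (S (V (F 9 L) (T (F 24 L) (S (F 16 L) (F 8 L)))) (T (F 9 L) (T (F 9 L) (S (S (F 1 L) (F 1 L)) (F 9 (S L L)))))) (F 11 (U (K 2) (T L (U L L)))))))) (U (S (V (K 5) (T (F 130 (U (K 1) (S (S (F 8 L) (F 16 L)) (K 1)))) (U (F 14 (S (S (V (K 2) (S L (K 2))) (K 2)) (K 2))) (S (F 6 (V (F 1 L) (S L (F 2 L)))) (F 68 (U (K 1) (V (K 1) (V (K 1) (T (F 16 L) (F 1 L)))))))))) (K 5)) (S (V (F 131 (S L (F 1 L))) (T (F 130 (S (S (F 32 L) (F 32 L)) (V (F 33 L) (S (F 1 L) (S (F 1 L) (F 1 L)))))) (S (F 6 (V (F 1 L) (S (F 2 L) (F 2 L)))) (V (F 194 L) (U (S (F 68 (T (F 16 L) (F 1 L))) (F 192 (T (F 16 L) (F 8 L)))) (F 70 (S L (F 1 L)))))))) (F 192 (V (F 50 L) (T (F 18 (V (F 1 (U (K 0) L)) (S (T L L) L))) (V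 (F 18 L) (T (F 18 (U L L)) (S (S (F 8 L) (F 10 L)) (F 10 (S L (F 2 L))))))))))))) (T v3_66 (U v3_68 v3_70)))
noncomputable def v3_72 : Tr := (T (F 660 (U (S (V (K 5) (T (F 80 (U (K 1) (V (K 1) (S (F 4 L) (F 8 L))))) (F 12 (U (V (K 2) (S (S (F 8 L) (F 8 L)) (K 2))) (S (V (F 2 L) (S (F 8 L) (F 8 L))) (V (K 2) (F 8 L))))))) (F 140 (V (K 1) (T (K 1) (U (K 1) (U (K 1) (V (K 1) (S L (K 1))))))))) (S (V (F 69 (V (F 17 (U (K 2) L)) (U (T (K 1) (S (F 1 L) (K 1))) (T (S (F 16 L) (F 17 L)) (S (F 1 L) (F 1 L)))))) (T (F 68 (V (U (S (F 4 L) (F 33 L)) (F 48 (S L L))) (S (F 4 L) (F 32 L)))) (U (S (V (F 69 L) (F 28 (S L L))) (F 5 (V (V (F 3 L) (F 2 L)) (F 16 L)))) (F 5 (S (V (F 2 L) (F 16 L)) (V (F 3 L) (F 16 L))))))) (F 5 (V (F 35 (U (K 2) L)) (T (V (F 35 (U (K 2) (U (T (K 2) L) L))) (S (F 2 L) (F 3 (S (T L L) L))))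 (V (F 3 (S L L)) (S (V (F 1 L) (F 16 L)) (T (F 1 L) (F 17 (S L L))))))))))) (F 276 (U (S (V (F 285 (U (K 1) (T (K 1) (V (K 1) (S L (K 1)))))) (T (U (F 60 (S (T L L) (V (K 2) L))) (F 21 (S (V (F 16 L) (S (F 8 L) (F 8 L))) (V (F 17 (T (K 2) L)) (F 16 L))))) (F 21 (S (V (F 1 L) (F 8 L)) (S (F 1 L) (F 1 L)))))) (F 273 (V (K 1) (T (F 24 (V (K 2) (U (K 2) (S (S L L) L)))) (V (F 8 L) (S (F 20 L) (F 24 L))))))) (S (V (V (F 269 (T (F 1 L) (S (V (F 9 (S L L)) (F 8 L)) (F 9 L)))) (T (F 13 (U (V (F 3 (S L (K 3))) (S (S (F 16 L) (F 17 L)) (F 17 L))) (T (F 3 L) (S (F 17 L) (F 3 L))))) (F 277 (S L (F 8 L))))) (F 21 (T (U (V (S (F 16 L) (V (F 17 L) (F 16 L))) (S (S (F 8 L) (F 8 L)) (F 16 L))) (V (S (F 16 L) (S (F 16 L) (F 17 L))) (S (F 8 L) (F 16 L)))) (V (S (F 1 L) (F 1 L)) L)))) (F 261 (V (T (F 17 (S L (F 1 L))) (F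 24 (V (F 8 L) L))) (V (F 24 (S (T L L) L)) (T (S (S (F 8 L) (F 8 L)) (S (F 8 L) (F 24 L))) (F 8 L)))))))))
noncomputable def v3_73 : Tr := (S (V (T (U (K 6) (S (V (K 6) (V (S (F 10 L) (K 6)) (F 40 L))) (K 6))) (U (S (V (K 6) (U (K 2) (S (F 10 L) (F 42 L)))) (K 6)) (S (V (F 266 L) (S (F 10 L) (F 10 L))) (F 42 (V (K 2) (S L (F 1 L))))))) (T (U (S (V (S (T (F 32 L) (F 32 L)) (V (F 40 L) (S (F 40 L) (F 40 L)))) (S (T (F 32 L) (F 32 L)) (S (F 32 L) (F 32 L)))) (V (T (K 6) (F 40 L)) (S (T (F 40 L) (F 40 L)) (F 40 L)))) (S (V (V (S (F 40 L) (F 40 L)) (S (F 32 L) (F 40 L))) (S (F 32 L) (S (F 32 L) (F 40 L)))) (V (S (F 40 L) (F 42 L)) (S (F 40 L) (F 40 L))))) (U (S (V (T (V (F 40 L) (F 40 L)) (F 42 (S (S L L) L))) (T (F 32 L) (F 42 (S L L)))) (V (T (F 40 L) (K 2)) (T (F 40 L) (F 42 L)))) (S (V (S (S (F 10 L) (F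 10 L)) (F 42 (T L L))) (S (S (F 34 L) (F 34 L)) (F 42 (S L L)))) (F 42 (V (S L L) (S L L))))))) (V (F 299 (T (K 1) (U (K 1) (U (K 1) (V (K 1) (S L (K 1))))))) (T (U (S (V (K 6) (F 40 L)) (K 2)) (F 41 (S (V L (S L L)) (V (K 2) (F 32 L))))) (F 42 (U (K 4) (S (V (F 1 L) L) (F 33 (V L L))))))))
noncomputable def v3_74 : Tr := (S (V (T (U (S (V (F 11 (S L (K 2))) (S (F 10 L) (S (F 10 L) (F 11 L)))) (F 43 (V (K 2) (T L L)))) (F 11 (S (S (V L (T L L)) (S L L)) (V (V (K 2) (F 8 L)) (T (F 8 L) (F 8 L)))))) (U (S (V (F 266 L) (F 10 L)) (F 11 (V (S (F 1 L) (K 2)) (S (F 8 L) (F 8 L))))) (S (V (F 11 L) (F 10 L)) (F 11 (V (F 1 L) (F 8 L)))))) (T (U (S (V (T (S (F 40 L) (F 40 L)) (S (F 10 L) (F 42 L))) (S (F 32 L) (F 40 L))) (V (T (F 41 L) (F 42 L)) (S (F 40 L) (F 42 L)))) (S (V (S (F 10 L) (V (F 11 (S L L)) (F 42 L)))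 (T (F 40 L) (F 42 (S L L)))) (V (F 41 (S (T (T L (F 32 L)) (F 32 L)) (T (F 32 L) (F 32 L)))) (T (F 41 L) (F 42 L))))) (U (S (V (S (F 10 L) (F 42 (S L L))) (F 42 (S (S L L) L))) (F 42 (V L (S L (F 32 L))))) (S (V (S (F 10 L) (F 42 L)) (F 42 (S L L))) (F 42 (V L L)))))) (V (F 43 (T (U (K 2) (S (V (K 2) (S L (F 1 L))) (S (F 1 L) (K 2)))) (V (U (K 2) (F 1 L)) (S (U (F 1 L) (F 1 L)) (F 1 L))))) (T (F 41 (U (S (V (S (F 32 L) (F 32 L)) (T L (F 32 L))) (V (F 33 L) (F 32 L))) (S (V (F 32 L) (S (F 32 L) (F 32 L))) (S (F 32 L) (F 32 L))))) (F 42 (U (S (S L (F 32 L)) (F 33 (T L L))) (S (V (F 32 L) (F 32 L)) (F 33 (S L L))))))))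
noncomputable def v3_75 : Tr := (U (S (V (T (U (S (V (K 2) (S (F 10 L) (K 2))) (K 2)) (S (V (F 266 L) (F 10 L)) (F 298 (V L L)))) (F 266 (U (S (V (K 4) L) (K 4)) (S (S L L) (S (F 4 L) (F 36 L)))))) (F 42 (T (U (S (V (S (S L L) L) (S L L)) (V L L)) (S (V (S L L) (S L L)) (V L L))) (U (S (S L L) (S (F 1 L) (F 1 L))) (S (S L L) L))))) (F 298 (V (T (U (K 3) (V (K 1) (S (F 16 L) (K 3)))) (F 23 (T (K 0) (K 0)))) (T (U (K 3) (S (S L L) (S (F 16 L) (F 16 L)))) (V (S (F 16 L) (K 3)) (S L (F 16 L))))))) (S (V (T (U (S (V (F 266 L) (F 42 L)) (F 298 (V (F 16 L) L))) (S (S (F 10 L) (F 266 L)) (F 267 (S L (F 4 L))))) (F 266 (S (V L L) (S (F 4 L) (F 36 L))))) (T (U (S (V (F 10 L) (F 42 (S L L))) (F 42 (S L L))) (S (S (F 10 L) (F 10 L)) (F 42 (S L (F 1 L))))) (S (S (F 10 L) (F 42 L)) (F 42 L)))) (F 298 (V (T (S (V (F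 16 L) (F 16 L)) (F 16 L)) (S (F 16 L) (F 16 L))) (T (S (S L L) (S (F 16 L) (F 16 L))) (S L (F 16 L)))))))
noncomputable def v3_76 : Tr := (S (V (T (U (S (F 73 (V L (S (T L L) L))) (S (F 73 L) (F 81 (V (F 1 L) (F 8 L))))) (F 73 (S (V L (T L L)) (S L L)))) (F 73 (U (S (V L (S L L)) (V (F 1 L) (F 8 L))) (S (V L (S L L)) (S L (F 1 L)))))) (T (U (S (V (F 73 (S (T L L) (S L L))) (F 88 (T (T (S (S (F 32 L) (F 32 L)) (F 32 L)) L) (S L (F 32 L))))) (F 89 (V (S (V L L) (S L L)) (S (T L L) (S L L))))) (F 73 (S (V (S (S L L) L) (S L (S L (F 8 L)))) (V (S (S L L) (S (F 8 L) (F 8 L))) (S (S (F 8 L) (F 8 L)) (F 8 L)))))) (U (S (V (F 72 L) (F 88 (S L L))) (F 88 (V (S (F 32 L) (F 32 L)) L))) (S (V (F 73 (S L L)) (F 72 L)) (F 89 (V (S L L) (S L L))))))) (F 81 (V (T (U (S (V (F 1 L) (F 8 L)) (F 1 L)) (S (S (F 1 L) (F 1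 L)) (F 1 L))) (V (F 1 L) (U (F 9 (S L L)) (F 1 L)))) (T (S (V (U (F 8 L) (S (F 8 L) (F 8 L))) (V (S (F 8 L) (F 8 L)) (F 8 L))) (V (F 8 L) (F 8 L))) (U (S (T (F 8 L) (F 8 L)) (F 9 (S L L))) (V (F 8 L) (S (F 8 L) (F 9 L))))))))
noncomputable def v3_77 : Tr := (T (U v3_76 (S (V (T (U (F 73 (S (V L (S L L)) L)) (S (V (F 193 L) (F 73 L)) (F 81 L))) (S (F 73 (V L (S L L))) (S (F 73 L) (F 321 L)))) (F 73 (T (U (S (V (S L L) (S L L)) (V (S L (S (F 8 L) (F 8 L))) (S (F 8 L) (F 8 L)))) (S (V L L) (V (S L L) (S (F 8 L) (F 8 L))))) (U (S (V L L) (V L (F 8 L))) (S (V L L) (S L L)))))) (F 81 (V (T (S (V (F 1 L) L) (S (F 1 L) (F 1 L))) (V (F 1 L) (S (F 1 L) (F 9 L)))) (T (S (V (V L (S (F 8 L) (F 8 L))) (S (F 8 L) (F 8 L))) (V (F 1 L) (F 8 L))) (S (V (F 8 L) (F 8 L)) (F 8 L))))))) (U (S (V (T (U (F 328 (S (S L L) (F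 32 L))) (F 73 (S (S L L) (F 1 L)))) (F 328 (S (S L L) (F 32 L)))) (T (U (S (S (F 72 L) (F 72 L)) (F 88 L)) (S (F 72 L) (F 88 L))) (S (F 72 L) (F 88 L)))) (F 81 (V (S (T (F 1 L) (F 9 L)) (F 1 L)) (T (S (S (F 8 L) (F 9 L)) (F 9 L)) (F 9 (V L L)))))) (S (V (T (S (V (F 321 L) (F 73 L)) (F 321 L)) (V (F 321 L) (F 73 (S L (F 9 L))))) (F 73 (T (S (V L L) (S L (F 8 L))) (S L L)))) (F 81 (V (T (S (F 1 L) (F 9 L)) (F 1 L)) (S (T (F 8 L) (F 8 L)) (F 1 L)))))))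
noncomputable def v3_78 : Tr := (S (F 1408 (V (T (U (S (V (F 453 (U (K 0) (T (K 0) (S (S L L) (K 0))))) (T (U (F 193 (S (V (K 1) (V (F 1 L) (S (F 8 L) (F 1 L)))) (T (K 1) (F 1 L)))) (F 385 (S (S (T L (F 1 L)) (S (F 1 L) (F 1 L))) (S (F 1 L) (F 1 L))))) (F 321 (S (V (F 1 L) (S L (F 8 L))) (S (F 1 L) (F 1 L)))))) (F 337 (V (K 1) (V (U (K 1) (T (K 1) (F 1 L))) (T (U (K 1) (S (F 1 L) (K 1))) L))))) (F 321 (S (V (S (T (F 17 (S L L)) (F 1 L)) (F 17 L)) (S (V (T (S (F 1 L) (F 1 L)) (F 1 L)) (T (U (S (F 1 L) (F 1 L)) (F 1 L)) L)) (V (F 1 L) (T (F 1 L) (F 1 L))))) (V (F 21 (S L (F 1 L))) (T (V (F 17 (S L (F 4 L))) (S (S (F 1 L) (F 5 L)) (F 5 L))) (S (F 1 L) (F 5 L))))))) (F 321 (U (S (V (V (F 1 L) (S (F 1 L) (F 5 L))) (S (T L (F 8 L)) L)) (V (F 5 (S L (F 2 L))) (S (F 4 L) (F 4 L)))) (S (V (F 1 L) (S (S L L) L))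 (V (F 21 L) (S (F 4 L) (F 5 L))))))) v3_77)) (F 3220 (V (F 96 (T (U (V (K 0) (T (K 0) (S (F 4 L) (K 0)))) (F 12 (S (V (F 1 L) (T L L)) (F 1 L)))) (U (S (S L (F 4 L)) (F 20 L)) (S (S (F 8 L) (F 12 L)) (F 20 L))))) (T (U (S (V (F 66 (S (S L L) L)) (S (V (F 66 L) (F 10 (S L (F 1 L)))) (F 66 L))) (V (F 68 (S L (F 1 L))) (F 66 (S L L)))) (F 66 (S (V (S L L) (T (S L L) L)) (V (S (F 8 L) (F 9 L)) (S L L))))) (F 66 (U (S (V (S L (F 1 L)) (S (F 4 L) (F 4 L))) (V L (F 4 L))) (S (V L L) (V (F 1 L) (F 4 L)))))))))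
noncomputable def v3_79 : Tr := (T (U (F 1928 (S (V (K 3) v3_64) (F 1236 (V (K 3) (T (K 3) (U (K 3) (S (V (K 3) (T (U (K 3) (V (K 3) (S (F 4 L) (K 3)))) (V (K 3) (S (F 1 L) (F 33 (S L L)))))) (K 3)))))))) (F 1553 (S v3_71 (V (F 3991 (T (K 2) (U (K 2) (U (K 2) L)))) v3_72)))) (F 1696 (U (S (V (F 1413 (T (U (K 5) (S (V (K 5) (T (K 5) (U (K 5) (S (F 9 (V (K 1) L)) (F 65 L))))) (K 5))) (U (S (V (K 5) (T (K 5) (V (K 5) (S (F 8 L) (K 1))))) (K 5)) (S (V (F 65 (T (K 0) (S L (K 0)))) (T (S (F 9 (U L L)) (S (F 9 L) (F 17 L))) (F 9 (S (S L L) L)))) (F 17 (V (K 1) (S (S L L) L))))))) (F 292 (T (U v3_73 v3_74) v3_75))) (F 3221 (V (T (K 4) (U (K 4) (S (V (K 4) (S (F 32 L) (K 4))) (K 4)))) (T (U (F 10 (S (V (K 1) (T (U (K 1) (V (K 1) (S L (K 1)))) (K 3))) (F 13 (V (K 0) (S (K 0) (K 0)))))) (S (V (T (K 4) (F 2 L)) (F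 10 (T (V (S L L) (S L L)) (S L L)))) (V (K 4) (S (F 8 L) (F 4 L))))) (U (S (V (S (K 0) L) (K 0)) (F 46 (V (K 0) (K 1)))) (S (V (S (F 2 L) (F 2 L)) (F 10 (T L L))) (V (F 4 L) (F 2 L)))))))) v3_78)))
noncomputable def v3_80 : Tr := (U (F 1176 (S (V (T (U (F 36 (V (S L L) (K 0))) (S (F 32 L) (F 36 (V L L)))) (U (S (V (S (K 6) (F 32 L)) (K 6)) (V (S (F 32 L) (F 36 L)) L)) (S (V L (K 6)) (V (F 4 L) (S (F 4 L) (F 4 L)))))) (K 6)) (V (T (F 36 (U (V (K 1) (S L (K 1))) (V (S L (K 1)) (S L L)))) (U (S (V (K 4) (F 4 L)) (V (K 4) (F 4 L))) (V (S (F 4 L) (K 4)) (S (F 4 L) (F 12 L))))) (T (V (S (F 4 L) (F 4 L)) (S (K 6) (F 4 L))) (U (S (K 6) (V (F 4 L) (K 6))) (S (V (F 4 L) (K 6)) (F 12 (V (S L L) (S (K 0) L))))))))) (S (V (F 1176 (T (U (V (F 36 (S (F 8 L) L)) (S (F 34 L) (F 36 L))) (S (F 34 (V (S (F 8 L) (F 8 L))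 (S L (F 8 L)))) (F 36 (S L L)))) (U (S (S L L) (V (F 4 L) (F 4 L))) (S (V (F 4 L) (F 2 L)) (V (F 4 L) (F 4 L)))))) (T (F 1488 (U (V (S (K 5) (F 4 L)) (K 5)) (S L (V (F 4 L) (F 2 L))))) (F 1160 (U (F 20 (S (K 0) (V L (K 0)))) (S (V (T (F 18 L) (F 10 L)) (K 7)) (F 12 (V (T (F 8 L) L) (S (K 0) (F 16 L))))))))) (F 1216 (V (F 24 (T (V (S (S (F 2 L) (F 2 L)) (S (F 2 L) (F 2 L))) (S (F 2 L) (F 2 L))) (U (V (S L (F 2 L)) (S L (F 8 L))) (V (S L L) (S L (F 8 L)))))) (T (V (F 24 L) (F 12 (S (S L (F 8 L)) (F 8 L)))) (F 20 (U (S (V (S (F 8 L) (F 8 L)) (S (K 0) (F 8 L))) (V (F 8 L) L)) (V (S (S (F 8 L) (F 8 L)) (F 8 L)) (S L (F 8 L))))))))))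
noncomputable def v3_81 : Tr := (S (V (T (U (F 152 (S (V (T (S (F 1 L) (F 1 L)) L) (K 7)) (V (V (F 9 (S L L)) (F 1 L)) (S (K 7) (F 1 L))))) (F 1160 (S (V (V (F 16 L) (F 16 L)) (S (K 7) (F 16 L))) (V (T (F 20 (S L L)) (F 4 L)) (S (F 8 L) (F 8 L)))))) (U (S (V (V (F 136 L) (F 168 (S (K 7) L))) (K 0)) (F 168 (V (S L (S (F 8 L) (F 8 L))) (S L L)))) (F 168 (S (V (S L L) (S L L)) (V (S L (F 8 L)) L))))) (F 1192 (T (K 6) (U (K 6) (S (K 6) (S (K 6) L)))))) (F 200 (V (T (U (S (V (F 17 (S L L)) (T (F 17 L) (F 9 L))) (F 25 (V (K 2) (T L L)))) (S (V (F 17 (S L L)) (F 9 (S L L))) (F 17 (V (S L (F 8 L)) (S (F 8 L) (F 8 L)))))) (U (S (V (S (F 8 L) (F 9 (S L L))) (S (F 8 L) (F 8 L))) (F 9 (V (S L (K 4)) (S L L)))) (F 9 (S (V (T L L) (S L L)) (V L L))))) (T (F 9 (U (S (V (S (K 0) L) (K 0)) (V (S L (F 8 L)) (K 0))) (S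 (V (S L L) (K 0)) (V L L)))) (U (S (V (F 8 L) (K 7)) (F 9 (V (S L L) L))) (S (V (F 8 L) (F 9 L)) (F 9 (V L (F 32 L)))))))))
noncomputable def v3_82 : Tr := (S (V (T (F 1160 (U (S (V (S (F 16 L) (F 16 L)) (S (F 8 L) (F 8 L))) (V (T (F 20 L) (F 12 (S L L))) (S (F 8 L) (F 12 L)))) (S (V (V (S (F 24 L) (F 12 L)) (F 12 L)) (F 8 L)) (F 12 (V (S L L) (S L L)))))) (F 168 (U (S (V (V (F 1 L) (F 1 L)) (S (F 1 L) (F 1 L))) (V (T (F 9 (S L L)) (F 8 L)) (S (F 1 L) (F 9 L)))) (S (V (S (F 1 L) (F 9 (S L L))) (F 1 L)) (F 9 (V (S L L) (S L L))))))) (F 1192 (T (U (S (K 6) (T L L)) (S (S (F 2 L) (F 2 L)) (V (F 4 L) (F 6 (S L L))))) (U (S (V (F 2 L) (K 6)) L) (S (V (F 2 L) (F 19 (S (K 0) L))) (S (F 1 L) (F 5 L))))))) (F 1256 (V (T (U (S (V (S L L) L) (V (S (F 4 L) (F 4 L)) L)) (S (V (S L L) L) (V L L))) (U (S (V (S L L)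 (S L (F 1 L))) (V L L)) (V (S L L) (S L (F 1 L))))) (T (V (S (S L L) L) (S L L)) (U (S (S L L) (S L L)) (V (S L (F 1 L)) (S (F 1 L) (F 1 L))))))))
noncomputable def v3_83 : Tr := (T (F 20 (U (S (V (T (K 2) (U (K 2) (S L (K 2)))) (T (U (S L L) (S L (S (F 8 L) (F 8 L)))) (U (S (V (F 8 L) (F 8 L)) (V (F 8 L) (F 8 L))) (S (V (F 8 L) (F 8 L)) (V (F 8 L) (F 8 L)))))) (V (K 2) (T (V (K 2) (S (F 8 L) (F 8 L))) (V (U (K 2) (F 8 L)) (S (F 8 L) (F 8 L)))))) (S (V (T (V (S (S (F 2 L) (K 2)) (K 2)) (S (F 2 L) L)) (V (U (K 2) (S (F 8 L) (F 8 L))) (S (S (F 8 L) (F 8 L)) (S (F 8 L) (F 8 L))))) (T (V (S (F 8 L) (F 8 L)) (S (F 8 L) (F 8 L))) (U (V (S (F 8 L) (F 8 L)) (S (F 8 L) (F 8 L))) (V (S (F 8 L) (F 8 L)) (S (F 8 L) (F 8 L)))))) (V (T (K 2) (V (K 2) (U (K 2) (S (F 8 L) (F 8 L))))) (T (V (S (F 8 L) (S (F 8 L) (F 8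 L))) (S (F 8 L) (F 8 L))) (V (S (F 8 L) (F 8 L)) (S (F 8 L) (F 8 L)))))))) (U (F 12 (S (V (T (U (V (K 2) (S (S (F 8 L) (F 8 L)) (K 2))) (V (K 2) (S (F 8 L) (F 8 L)))) (U (F 47 (T (K 0) (K 0))) (V (S (F 8 L) (F 9 L)) L))) (T (U (S (V L L) (V (F 8 L) (F 8 L))) (S (V (F 8 L) (F 8 L)) (S L L))) (U (S (V L L) (T L L)) (S (S L L) L)))) (V (T (K 2) (V (K 2) (S (F 1 L) (K 4)))) (T (U (F 47 (T (K 0) (K 0))) (S L (F 8 L))) (U (K 4) L))))) (S (F 12 (V (T (V (S (V (F 8 L) (F 8 L)) (F 8 L)) (S L (F 8 L))) (V L (S L (F 32 L)))) (T (V (S L (F 8 L)) (S L (F 32 L))) (U (S L L) (V L (S (F 32 L) (F 40 L))))))) (V (T (F 24 (V (T (K 2) (F 1 L)) (S (F 8 L) (F 9 L)))) (F 9 (S (S (F 16 L) (F 17 L)) (F 1 L)))) (F 12 (T (S L L) (V (F 32 L) (F 32 L))))))))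
noncomputable def v3_84 : Tr := (T (U (S (V (T (F 12 (U (V (S (K 0) L) (K 0)) (V (S L L) (K 0)))) (U (S (K 6) (S (K 6) (F 8 L))) (S (F 8 L) (S (F 8 L) (F 8 L))))) (K 6)) (V (T (F 12 (U (V (S L L) (S L L)) (V (S L L) (S L L)))) (U (F 12 (S (V L L) (T L L))) (V (F 12 (S L L)) (F 8 L)))) (T (F 12 (U (S (K 0) (S (K 0) L)) (S (K 0) (S L L)))) (V (F 8 L) (K 5))))) (S (V (T (V (F 12 (S L L)) (F 4 L)) (S (F 8 L) (S (F 8 L) (F 8 L)))) (F 18 (S L (S L L)))) (V (T (F 12 (V (S L L) (S L L))) (S (S (F 8 L) (F 8 L)) (F 8 L))) (S (F 8 L) (S (F 8 L) (F 8 L)))))) (U (S (V (T (U (F 31 (S (K 0) (F 1 (S (K 0) (K 0))))) (S (F 8 L) (F 8 L))) (U (K 5) (V (F 8 L) (K 5)))) (F 31 (S (K 0) (K 1)))) (V (T (V (S (F 8 L) (F 12 L)) (F 95 (S (K 0) (K 0)))) (F 95 (S (K 0) (K 0)))) (K 5))) (S (V (T (S (F 8 L) (F 8 L)) (F 25 (S L L)))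 (F 27 (S L L))) (V (T (S (F 8 L) (F 8 L)) (F 9 (S L L))) (F 25 (S L L))))))
noncomputable def v3_85 : Tr := (U (F 560 (S (V (T (F 52 (V (S (F 18 (V L L)) (T (F 18 L) (F 2 L))) (S (S (F 16 L) (F 16 L)) (F 16 L)))) (U (S (V (F 52 L) (S (F 50 (S (F 8 L) (F 16 L))) (F 52 (S (F 16 L) (F 8 L))))) (F 52 (V L (S (F 8 L) (F 8 L))))) (S (V (F 52 (S (F 16 L) (F 8 L))) (F 38 (T (F 8 L) (S (F 16 L) (F 16 L))))) (F 60 (V L (T L L)))))) (T (F 30 (V (S L L) (S (V L L) (S L L)))) (U (S (V (S (F 26 L) (F 46 (S L L))) (F 14 L)) (V (F 44 (S (F 16 L) (F 8 L))) (F 14 L))) (F 14 (S (S L L) (V (S (F 8 L) (F 8 L)) (F 8 L))))))) (V (F 52 (T (V (S (F 2 L) (F 2 L)) (S (F 16 L) (F 8 L))) (V (S (V (F 8 L) (F 8 L)) (U (S (F 8 L) (F 8 L)) (F 8 L))) (S (S (F 8 L) (F 8 L)) (S (F 8 L) (F 8 L)))))) (T (F 28 (V (S (S (F 16 L) (F 8 L)) (F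 8 L)) (S (F 16 L) (F 16 L)))) (F 44 (U (S (S L L) (S L L)) (S (V (F 8 L) (F 16 L)) L))))))) (F 784 (S (V (T (F 26 (V (S (F 10 (S L L)) (T (F 10 L) (F 24 (S L L)))) (S (F 18 (S L L)) (F 16 L)))) (U (S (F 22 (V (F 24 (V L L)) (S (F 16 L) (F 8 L)))) (F 52 (V (T (F 8 L) (F 8 L)) (S (F 16 L) (F 16 L))))) (F 22 (S (V (F 24 (S L L)) (F 16 L)) (V (F 24 (S L L)) (F 8 L)))))) (F 22 (V (S (S (F 16 L) (F 16 L)) (S (F 16 L) (F 16 L))) (T (S (F 16 L) (F 16 L)) (S (F 32 L) (F 32 L)))))) (V (T (U (F 56 (V (T (F 2 L) (S (F 8 L) (F 8 L))) (S (F 24 L) (F 8 L)))) (F 44 (V (S (T (F 18 L) (F 24 L)) (F 8 L)) (F 24 (S L L))))) (F 52 (V (S (F 8 L) (S (F 8 L) (F 8 L))) (S (S (F 16 L) (F 16 L)) (F 8 L))))) (T (F 30 (V L (S L L))) (U (F 52 (S (V (F 16 L) (F 16 L)) L)) (F 22 (V (S (F 8 L) (F 8 L)) (F 32 L)))))))))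
noncomputable def v3_86 : Tr := (S (V (T (U (S (V (F 20 (S L L)) (S (F 18 L) (F 20 L))) (F 20 (V L L))) (F 20 (S (V L (V (F 16 L) (F 16 L))) (V L L)))) (U (S (V (F 20 (V (S L L) L)) (S (F 17 L) (F 20 (T (F 16 L) (F 32 L))))) (F 20 (V (S L L) L))) (F 20 (S (V (T L (S (F 32 L) (F 32 L))) (T (S (F 32 L) (F 32 L)) (F 32 L))) (V (T L (S (F 32 L) (F 32 L))) (S (F 32 L) (F 32 L))))))) (T (U (V (S (F 18 (S L (S (F 16 L) (F 16 L)))) (F 20 L)) (F 22 (S L L))) (F 6 (S (V (S (F 8 L) (F 8 L)) (F 32 L)) (V (S (F 8 L) (F 8 L)) (F 8 L))))) (F 17 (S (V (U (S (F 32 L) (F 32 L)) (F 48 (T (S L L) L))) (F 48 (S L L))) (V (S (F 16 L) (F 16 L)) (F 48 L)))))) (F 20 (V (T (U (S (V L L) (V L L)) (V (S L L) (S L (F 8 L)))) (U (V (S L (F 32 L)) (S L (F 32 L))) (S (V (S (F 32 L) (F 32 L)) (S (F 32 L) (F 32 L))) (V (F 32 L) (F 32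 L))))) (T (V (S L L) (S L (F 32 L))) (S (S (F 32 L) (F 32 L)) (S (F 32 L) (F 32 L)))))))
noncomputable def v3_87 : Tr := (S (V (T (U (F 20 (S (V (T (F 16 L) (S (F 16 L) (F 32 L))) (T (F 16 L) (U (F 16 L) (T (F 16 L) (F 48 (S L L)))))) (V L L))) (F 5 (V (S (F 40 (V (S L (S L L)) (S (S L L) (S L L)))) (S (F 8 L) (F 8 L))) (S (V (F 40 (S (S L L) (S L L))) (T (F 32 L) (F 40 (S L L)))) (F 40 (V (S L L) (S L L))))))) (F 21 (U (S (V (S (T L L) L) (S (V (S (F 16 L) (F 16 L)) (F 16 L)) (T L (F 16 L)))) (V (S L L) L)) (S (V (S (V (T (F 16 L) (F 16 L)) (S (F 16 L) (F 16 L))) L) (S (V (F 16 L) (F 16 L)) (S (F 16 L) (F 16 L)))) (V (S L L) (T L (F 16 L))))))) (F 7 (S (T (V (V (S L (T (F 8 L) (F 8 L))) L) L) (V (S (T (F 8 L) (F 8 L)) (S (F 8 L) (F 8 L))) (F 8 L))) (T (V (S (T L (F 8 L)) (T (F 8 L) (F 8 L))) L) (V (S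 (F 8 L) (F 8 L)) (F 8 L)))))) (F 21 (V (T (V (S (S L L) (V L L)) (S (S L L) (S L L))) (V (S (S L L) (S L L)) (S L L))) (T (U (S (V L (F 16 L)) (S L L)) (S (V (S (F 16 L) (F 16 L)) (F 16 L)) (S L L))) (S (V L (F 16 L)) L)))))
noncomputable def v3_88 : Tr := (U (F 808 (S (V (F 24 (T (V (T (S (F 2 L) (S (F 2 L) L)) (S (S (F 8 L) (F 8 L)) (S (F 8 L) (F 8 L)))) (S (F 8 L) (S (F 8 L) (F 8 L)))) (V (S (U (S (F 8 L) (F 8 L)) (F 8 L)) (U (F 8 L) (F 8 L))) (S (S (F 8 L) (F 8 L)) (S (F 8 L) (F 8 L)))))) (F 20 (T (V (S (F 8 L) (F 8 L)) (S (F 8 L) (F 8 L))) (S (S L L) (S L L))))) (F 12 (V (T (V (U (K 2) (S (F 8 L) (F 2 L))) (S (U (F 8 L) (F 8 L)) (U (F 8 L) (F 8 L)))) (V (S (T (F 8 L) (F 8 L)) (S (F 1 L) (F 1 L))) (S (S (F 8 L) (F 8 L)) (F 8 L)))) (T (V (S (S (F 8 L) (F 8 L)) (U (F 8 L) (F 8 L))) (S (F 8 L) (F 8 L)))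 (V (S (F 8 L) (F 8 L)) (S (F 8 L) (F 8 L)))))))) (F 896 (S (V (F 56 (T (S (V (F 8 L) (F 8 L)) (V (F 8 L) (F 8 L))) (V (S (T (F 8 L) L) (T (S (F 8 L) (F 8 L)) (S (F 32 L) (F 32 L)))) (S L (S (F 32 L) (F 32 L)))))) (T (F 28 (V (S (F 8 L) (F 8 L)) (S (F 16 L) (F 8 L)))) (F 56 (S L L)))) (V (T (V (S (F 60 L) (F 165 L)) (F 60 (S L (S L L)))) (F 41 (V (S (S (F 16 L) (F 16 L)) (F 16 L)) (S (S (F 8 L) (F 8 L)) (S (F 16 L) (F 16 L)))))) (F 56 (T (V (S (F 8 L) (S (F 8 L) (F 8 L))) (S (F 8 L) (F 8 L))) (S L (V (F 32 L) (F 32 L)))))))))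
noncomputable def v3_89 : Tr := (V (T v3_88 (F 424 (U (S (F 20 (V (T (S (T L L) (S L L)) (V (S (F 32 L) (F 32 L)) (S (F 32 L) (F 32 L)))) (T (V (S (F 32 L) (F 32 L)) (S (F 32 L) (F 32 L))) (S (S (F 32 L) (F 32 L)) (S (F 32 L) (F 32 L)))))) (V (T (U (S (F 28 L) (S (F 148 L) (F 137 L))) (F 5 (S (F 8 L) (F 1 L)))) (F 21 (S L (S (F 1 L) (F 1 L))))) (F 21 (T (V L (S L (F 8 L))) (S L L))))) (F 5 (S (V (V (T (S (S (F 8 L) (F 8 L)) (S (F 8 L) (F 8 L))) (S (F 8 L) (F 8 L))) (T (S (S (F 8 L) (F 8 L)) (F 8 L)) (S (F 8 L) (F 8 L)))) (V (T (S (F 8 L) (F 8 L)) (F 40 (S L L))) (S (F 8 L) (F 8 L)))) (V (T (U (S (F 8 L) (F 1 L)) (S L (F 1 L))) (S (F 8 L) (F 1 L))) (T (V (S (F 8 L) (F 8 L)) (S (F 8 L) (F 8 L))) (S (F 8 L) (F 9 L))))))))) (F 944 (T (U (S (V (T (V (F 4 L) (S (F 6 L) (F 12 L))) (S (F 8 L) (F 8 L))) (F 3 (S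 (F 4 L) L))) (V (T (F 12 (V (S L L) (S L L))) (S (F 8 L) (F 8 L))) (T (F 2 L) (F 9 L)))) (S (V (T (F 6 (S L L)) (S (F 3 L) (S (F 3 L) (F 9 L)))) (F 3 (S (F 4 L) L))) (V (T (S (F 2 L) (F 8 L)) (F 9 (V (S L L) L))) (F 3 (S L (S L L)))))) (F 9 (U (S (V (T (S L L) L) (F 20 L)) (V (T (S L L) (S (F 4 L) L)) (S (F 20 L) (F 4 L)))) (S (V (S (S (F 16 L) (F 16 L)) L) (F 20 L)) (V (V (S L L) L) (F 20 (S L L)))))))))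
noncomputable def v3_90 : Tr := (U (F 11136 (S (V (T v3_80 (U v3_81 v3_82)) (F 1248 (T (U (K 6) (S (K 6) (V (T (F 6 (U (K 0) (S (K 0) (S L L)))) (U (S (K 6) (F 8 L)) (S (F 18 L) (F 10 L)))) (K 6)))) (U (F 25 (S (K 0) (V (T (K 0) (U (K 0) (S (K 0) L))) (K 0)))) (S (F 27 (T (K 0) (S (K 0) (S (K 0) L)))) (V (T (V (F 8 L) (F 26 (S (K 0) L))) (F 25 (S (F 8 (S L L)) L))) (F 27 (S (K 0) L)))))))) (V (F 1096 v3_83) (F 1248 v3_84)))) (F 10753 (S (V (T v3_85 (F 688 (U v3_86 v3_87))) (F 1968 (T (U (S (V (T (S (V (F 2 L) (K 5)) (S (F 2 L) (F 2 L))) (V L (F 9 (S (K 0) L)))) (K 5)) (V (T (V (S (F 2 L) (F 2 L)) (S (F 2 L) (F 2 L))) L) (F 9 (S L L)))) (S (V (T (V (F 2 L) (F 3 L)) (V (F 1 L) (F 9 L))) (F 11 (S L L))) (V (S (S (F 1 L) (F 1 L)) (T (F 2 L) (F 1 L))) (F 9 L)))) (U (S (F 9 (V (T (S (S L L) L) (F 4 (S L L)))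 L)) (F 5 (V (V (S (S L L) (S L L)) (F 4 (S L L))) (F 4 L)))) (S (F 9 (S L (T L (F 4 L)))) (V (T (F 1 L) (F 13 (S L L))) (F 13 L))))))) v3_89)))
noncomputable def v3_91 : Tr := (U (S (V (T (U (S (V (S (S (F 24 L) (F 24 L)) (F 24 L)) (F 24 L)) (V (S (F 24 L) (F 88 L)) (F 24 L))) (S (V (S (F 24 L) (F 24 L)) (F 24 L)) (F 88 (V (S L L) L)))) (F 280 (U (S (V (S L L) (S (F 16 L) (F 20 L))) (V (S (F 4 L) (F 4 L)) (F 4 L))) (S (S L L) (V (S (F 4 L) (F 4 L)) (F 4 L)))))) (F 284 (T (U (K 5) (S (K 5) L)) (S (F 2 L) (F 4 L))))) (F 88 (V (T (U (S (V (S L (F 2 L)) L) (V (K 2) (F 2 L))) (S (V L (F 2 L)) (S L (F 1 L)))) (U (S (V (S (F 2 L) (F 3 L)) (F 2 L)) (S (F 2 L) (F 2 L))) (S (V (F 2 L) (F 18 L)) (F 2 L)))) (T (U (S (V (F 2 L) (K 6)) (S (F 2 L) (K 5))) (S (F 18 (S L L)) (F 2 L))) (F 18 (S (S L L) (S L L))))))) (S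 (V (T (U (S (F 280 (V (S L L) L)) (F 88 (V L (F 2 L)))) (F 280 (S (V (S L (F 4 L)) (F 4 L)) (V (S (F 4 L) (F 5 L)) (F 4 L))))) (F 280 (U (S (S L (S (F 4 L) (F 4 L))) (V (F 4 L) (F 20 L))) (S (S (F 4 L) (F 4 L)) (S (F 4 L) (F 4 L)))))) (F 284 (T (U (S (F 3 (S L L)) (F 4 L)) (S (F 3 (S L L)) (F 5 (S L L)))) (F 6 (S L L))))) (F 88 (V (T (U (S (V (F 1 L) (F 2 L)) (F 3 (V L L))) (F 3 (S (V (S L L) L) (V L L)))) (U (V (F 3 (S L (F 1 L))) (F 2 L)) (S (F 2 L) (F 3 L)))) (T (F 3 (S (S L L) (S L L))) (F 18 (S (F 8 L) (F 16 L))))))))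
noncomputable def v3_92 : Tr := (S (V (T v3_91 (F 280 (U (S (V (T (U (S (S (F 16 L) (F 16 L)) (F 20 (S L L))) (S (F 20 (S L L)) (F 4 L))) (F 20 (S (S L L) L))) (F 18 (S L (S (F 8 L) (F 8 L))))) (V (T (S (S (F 4 L) (F 4 L)) (F 4 L)) (F 20 (S L (F 1 L)))) (F 20 (S L L)))) (S (V (T (S (F 20 (S L L)) (F 4 L)) (F 20 (S L L))) (F 22 (S L L))) (V (S (S (F 4 L) (F 4 L)) (F 4 L)) (F 20 L)))))) (F 988 (T (U (F 1 (S (K 0) (S (S (K 0) (K 1)) (K 1)))) (S (S L L) (S L L))) (U (S (F 2 (S (K 0) (K 1))) (K 1)) (S L L))))) (F 88 (V (T (U (S (V (T (U (K 2) (S (F 1 L) (F 3 (S L (F 1 L))))) (F 3 (U (K 4) (S L (F 1 L))))) (T (F 3 (U (F 29 (S (S (K 0) (K 0)) (K 0))) (S (S L L) L))) (F 18 (S L (K 1))))) (F 3 (V (F 15 (T (K 0) (K 0))) (T (U (K 4) (S L (F 1 L))) (F 29 (S (K 0) (K 0))))))) (F 3 (S (V (T (V L (S L (F 1 L))) (S L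 (F 1 L))) (T (S (S L L) L) (S (F 4 L) (F 4 L)))) (V (T (S (F 1 L) (F 1 L)) (F 1 L)) (T (S L (F 1 L)) (F 1 L)))))) (U (F 66 (S (V (S (S L L) (S (F 16 L) (F 16 L))) (F 30 (S (K 0) (K 0)))) (F 22 (V (K 0) (K 1))))) (F 3 (S (V (V (F 1 L) (F 1 L)) (S (F 4 L) (F 5 L))) (V (F 1 L) (F 5 L)))))) (F 19 (T (U (F 13 (S (K 0) (K 0))) (S (V (S (F 8 L) L) (F 8 L)) (V (S L L) (F 8 L)))) (F 8 (U (K 1) (S L L))))))))
noncomputable def v3_93 : Tr := (T (U (S (V (T (U (S (V (S (F 8 L) (F 9 (S L L))) (F 9 (S L L))) (F 9 (V (S L L) L))) (F 9 (S (V (S (S L L) L) L) (V (S L L) L)))) (S (S (F 8 L) (F 8 L)) (S (F 8 L) (F 9 (S L L))))) (F 11 (T (S (V (S L L) (F 4 L)) (S L L)) (F 4 (S L L))))) (F 9 (V (T (U (S (V L L) (S L L)) (S (V L L) (S L L))) (S (V L L) (S L L))) (T (S L L) L)))) (S (V (T (U (F 9 (S (V (S L L) (S (F 16 L) (F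 16 L))) (V (S L L) L))) (S (V (S (F 3 L) (F 9 L)) (F 11 (S L L))) (F 9 (V L L)))) (U (F 9 (S (V L (F 16 L)) (S L L))) (S (F 3 (V L (F 8 L))) (F 9 L)))) (F 11 (S (V (S L L) (F 4 L)) (T L (F 4 L))))) (F 9 (V (T (S (V L L) (V L L)) (S (S L L) L)) (S (S (F 16 L) (F 16 L)) L))))) (U (S (V (T (S (F 10 L) (F 24 L)) (F 24 (S (F 8 L) L))) (F 27 (S L L))) (V (S (F 8 L) (F 9 L)) (F 27 (S L L)))) (S (V (T (F 9 (S (S (F 16 L) (F 16 L)) L)) (F 10 (S (F 4 L) (F 16 L)))) (F 27 (S L L))) (F 9 (V (S L L) (F 20 (S L L)))))))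
noncomputable def treeV3 : Tr := (F 0x3ffffffffffffffffffffffffffffffffffffffffffffbffffffebfffffffffffffffffffffffffffffff7affff7f73ffeeffffffb7ffffffffffffffffffffffb7ff (S (V v3_50 v3_62) (V v3_79 (T v3_90 (F 9896 (U v3_92 (S (F 336 (V v3_93 (F 27 (T (U (S L L) (S L L)) (S L L))))) (F 840 (V (T (U (S (V (T (V (F 4 L) (F 4 L)) (S (F 4 L) (F 36 L))) (S (S (F 4 L) (F 4 L)) (S (F 4 L) (F 4 L)))) (V (F 36 (V L L)) (S (F 4 L) (F 36 L)))) (S (V (T (S (F 4 L) (F 4 L)) (F 4 L)) (S (F 4 L) (F 4 L))) (V (S (F 32 L) (F 36 L)) (S (F 4 L) (F 36 L))))) (U (S (V (F 36 (S L L)) (F 12 L)) (F 36 (V L (F 2 L)))) (S (S (F 4 L) (F 36 (S L L))) (F 36 (V L (F 2 L)))))) (F 12 (T (U (S (F 8 (S L L)) (S L L)) (S (F 8 (S L L)) (S (F 8 L) L))) (F 8 (S L L)))))))))))))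

theorem pV3 : chkV par treeV3 64 64 160 32 320 64 54613 81919 Lc = true := by decide +kernel

noncomputable def v4_0 : Tr := (T (U (S (V (S (F 1 L) (F 1 L)) (T (S (F 1 L) (F 1 L)) (S (S (F 2 L) (F 2 L)) (V (F 3 L) (F 2 L))))) (V (S (F 1 L) (F 1 L)) (V (S (F 1 L) (F 1 L)) (S (F 1 L) (F 1 L))))) (S (V (S (F 1 L) (F 1 L)) (V (S (F 1 L) (F 1 L)) (S (T (F 5 L) (F 3 L)) (F 1 L)))) (V (F 1 L) (V (F 1 L) (F 1 L))))) (U (S (V (F 3 (S (S L L) (S L L))) (T (S (S (F 2 L) (F 2 L)) (V (F 3 L) (F 2 L))) (S (S (F 2 L) (F 2 L)) (S (F 2 L) (F 2 L))))) (V (T (F 1 L) (F 3 (S L L))) (T (S (F 3 (V L (S L L))) (V (F 1 L) (F 3 (S L L)))) (F 3 (S (V L (S L L)) (V (S L L) (S (S L L) (S L L)))))))) (S (F 3 (V (S (S L L) (S L L)) (S (V (S L L) (T L L)) (V (S L L) (T L L))))) (V (S (F 3 (S L L)) (F 1 L)) (F 3 (S (V (S L L) (T L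 (S L L))) (V (S L L) (T (S L L) (S L L)))))))))
noncomputable def v4_1 : Tr := (U (S (V (F 224 (T (U (F 12 (V L L)) (V (F 6 (S L (F 16 L))) (T (F 9 L) (F 10 L)))) (F 6 (S (V L L) (V L L))))) (F 456 (T (S (F 1 L) (U (F 2 L) (F 1 L))) (S (F 8 L) (F 4 L))))) (V (F 176 (T (V (F 9 L) (S (T (F 9 L) (F 5 L)) (F 9 L))) (F 6 (U (S (S L L) (V (S (F 16 L) (F 16 L)) L)) (V (S (F 16 L) (F 16 L)) (S L (F 16 L))))))) (T (F 712 (V (U (F 2 L) (F 3 (S L L))) (S (S (F 1 L) (F 1 L)) (F 3 (S (V L L) (S L L)))))) (F 448 (U (V (V (F 6 (S L (F 8 L))) (F 10 L)) (S (F 40 L) (F 10 (S L L)))) (S (S (F 9 L) (F 10 L)) (V (F 7 (S L L)) (F 41 (S L L))))))))) (F 896 (S (V (T (V (F 6 (S L (F 16 L))) (F 9 (S L (S (F 16 L) (F 16 L))))) (F 5 (V (S L (S (F 16 L) (F 16 L))) L))) (F 9 (V L (T (F 2 L) (F 2 L))))) (V (F 6 (S (T L (V (S (F 16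 L) (F 16 L)) (S (F 16 L) (F 16 L)))) (V L (S (F 16 L) (F 16 L))))) (V (S (F 9 (T (F 16 L) L)) (F 3 (T (F 8 L) L))) (F 9 (S (F 2 L) (V (T (F 16 L) (F 2 L)) (F 2 L)))))))))
noncomputable def v4_2 : Tr := (U (S (F 448 (V (V (F 6 (S (S L L) (S L L))) (T (S (F 12 L) (F 6 L)) (F 4 L))) (V (F 4 L) (T (F 40 (S (F 2 L) L)) (F 20 (S (F 2 L) L)))))) (F 336 (V (F 6 (T (S (V L (S L L)) (V (V (S (F 16 L) (F 16 L)) (S (F 16 L) (F 16 L))) (U L (S L (S (F 16 L) (F 16 L)))))) (U (V (S L (S L L)) (S (S L L) (S L L))) (S (V L L) (V (V (F 16 L) (S (F 16 L) (F 16 L))) (V (S (F 16 L) (F 16 L)) L)))))) (T (U (S (S (F 34 L) (F 2 L)) (V (F 6 L) (F 34 L))) (S (F 34 L) (V (F 6 L) (F 34 L)))) (V (S (F 2 L) (S (F 6 (S L L)) (F 4 L))) (F 34 (U (S L L) L))))))) (S (F 448 (V (V (S (F 5 L) (U (F 6 L) (F 5 L))) (F 5 L)) (V (F 5 L) (F 49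 (S L L))))) (V (F 848 (V (F 3 (S (T (S L L) (S L (S L L))) (T (S L L) (U (S L L) L)))) (S (T (V (F 3 (S L L)) (F 1 L)) (F 1 L)) (T (F 3 (U (S L L) L)) (T (F 3 (S (S L L) (S L L))) (F 2 L)))))) (T (F 960 (S (S (F 2 L) (F 2 L)) (V (V (F 3 (S L L)) (F 2 L)) (F 16 L)))) (F 336 (U (S (F 34 L) (V (F 3 L) (F 33 L))) (V (F 3 (S L L)) (F 33 (S (F 16 L) L)))))))))
noncomputable def v4_3 : Tr := (U (S (F 832 (V (F 35 (V (S L L) (S (S L L) (T (F 8 L) L)))) (V (F 33 (S (T (F 10 (S L L)) (S (F 16 L) (F 16 L))) (V (T (F 24 (S L L)) (F 18 (S L L))) (T (F 10 L) (F 18 (S L L)))))) (F 20 (S (T (F 18 (S L L)) (T (F 18 (V (S L L) L)) (F 2 L))) (T (F 18 L) (T (F 18 (S L L)) (F 8 L)))))))) (V (F 802 (V (S (S (F 3 L) (F 5 L)) (F 17 (T (F 4 (S L L)) L))) (T (F 21 (S L L)) (S (S (F 3 L) (T (F 17 L) (F 18 L))) (T (F 21 (V L L))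 (F 18 L)))))) (V (S (F 774 (V (F 5 (T (F 4 L) (F 8 (S L L)))) (F 10 (T (F 8 L) (F 4 (S L L)))))) (F 308 (V (T (F 19 L) (F 5 (S (F 2 L) (F 8 L)))) (T (F 18 (U (F 4 L) (F 8 L))) (F 5 L))))) (F 340 (T (F 18 (U L (F 8 (S L L)))) (F 5 (S L L))))))) (S (F 898 (V (T (F 6 (S L L)) (F 3 (V L (S L (F 2 L))))) (F 17 (V (S (S L (F 4 L)) (T (F 4 L) (F 8 (S L L)))) (F 4 (S (S L L) (S L L))))))) (F 772 (V (F 37 (V (T (F 4 (S L L)) L) (T (F 4 L) (S (F 8 (S L L)) L)))) (V (T (F 41 L) (F 38 (S (S (F 8 L) (F 4 L)) (F 4 (S L L))))) (F 10 (S (F 18 (S L L)) (T (F 18 L) (F 8 L)))))))))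
noncomputable def v4_4 : Tr := (S (F 8359 (V (F 304 (T (V (F 5 (S L L)) (F 4 L)) (U (V (F 1 L) (F 3 (S (S L L) (S L L)))) (S (F 3 (V L L)) (F 1 L))))) (T (F 296 (U (V (S (F 6 L) (F 20 L)) (F 18 (S L L))) (V (S (F 3 L) (F 17 L)) (F 3 (S (V L (F 2 (S (S L L) L))) (F 2 (V L (S L L)))))))) (U (F 224 (S (V (F 3 (S L L)) (V (F 5 (S L L)) (S (F 20 L) (T (F 5 L) (F 20 L))))) (V (F 3 (S L L)) (V (S (F 5 L) (T (F 5 L) (F 3 L))) (F 17 (S (V (T (F 4 L) L) (T (F 4 (S L L)) (S L L))) (T (F 4 (S L L)) (S L L)))))))) (F 448 (S (V (F 3 (S L L)) (V (F 5 (S L L)) (S (F 20 L) (T (F 5 L) (F 17 L))))) (V (F 3 (S L L)) (F 17 (V (T (F 4 (S L L)) L) (S (T (F 4 L) L) (T (F 4 L) L))))))))))) (F 397 (V (F 930 (T (V (S (F 2 L) (F 2 L)) (S (F 2 L) (S (F 2 L) (F 2 L)))) (U (S (S L L) (S L (S L L))) (S L (S L (T L L)))))) (T (F 662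 (U (S (V (F 4 L) (F 2 L)) (V (F 4 L) (F 1 L))) (V (T (F 4 L) (F 5 (S (S L L) (S L L)))) (S (F 1 L) (F 1 L))))) v4_3))))
noncomputable def v4_5 : Tr := (V (F 98 (T (F 3 (V (S (V (S L L) (S L L)) (V (S L (S L L)) (S L L))) (S (V (S L (S L L)) (S (S L L) L)) (V (S L L) (S L L))))) (U (S (V (V (F 3 (S L L)) (T (F 3 (S L L)) (F 1 L))) (S (F 2 L) (F 1 L))) (V (S (S (F 1 L) (F 1 L)) (F 1 L)) (S (F 1 L) (F 1 L)))) (S (V (T (F 3 (S L L)) (F 1 L)) (S (F 1 L) (F 1 L))) (V (S (F 1 L) (F 1 L)) (S (F 1 L) (F 1 L))))))) (T (U (S (F 98 (V (V (F 3 (S L L)) (F 2 L)) (S (S (F 2 L) (F 2 L)) (T (F 2 L) (F 16 L))))) (F 322 (V (S (T (F 3 L) (F 2 L)) (T (F 3 L) (F 2 L))) (T (S (V (F 3 L) (F 17 L)) (V (F 3 L) (F 18 L))) (F 18 (V (S L L) (S L L))))))) (S (F 386 (V (F 3 (V L (S L L))) (V (F 3 (S L L)) (F 16 L)))) (F 322 (V (T (F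 3 (S L L)) (F 2 L)) (S (T (F 17 L) (F 18 (S L L))) (F 18 (S L L))))))) (U (S (F 98 (V L (S (F 16 L) (F 16 L)))) (V (F 352 (V (F 16 L) (S (F 16 L) (F 8 L)))) (F 100 (S (S (F 16 L) (F 1 L)) (F 1 L))))) (S (V (F 354 (S L L)) (F 38 (U (F 4 L) (F 1 L)))) (F 352 (V (V (S (F 16 L) (F 16 L)) (S (S (F 16 L) (F 24 L)) (T (F 24 L) (F 8 L)))) (V (T (F 24 (S L L)) (F 8 L)) (F 8 L))))))))
noncomputable def v4_6 : Tr := (V (T (F 290 (U (S (V (V (F 1 L) (F 3 (S L L))) (F 3 (V (S L L) (S L L)))) (V (S (V (F 1 L) (F 3 L)) (F 1 L)) (S (T (F 3 L) (F 2 L)) (T (S (F 3 L) (F 1 L)) (V (F 2 L) (F 18 L)))))) (S (F 3 (V (V L L) (V L (S L L)))) (V (F 1 L) (T (S (F 3 L) (F 17 L)) (S (F 2 L) (F 18 (S L L)))))))) (U (S (F 352 (V (S (F 16 L) (F 16 L)) (V (F 16 L) (S (F 16 L) (S (F 16 L) (F 8 L)))))) (V (S (F 354 (S L L)) (F 70 L)) (T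 (S (F 354 L) (F 100 (S (F 1 L) (F 16 L)))) (F 356 (S L L))))) (S (F 352 (V (S (F 16 L) (F 16 L)) (S (F 16 L) (V (F 16 L) (T (F 24 L) (F 8 L)))))) (V (F 322 (S (F 2 L) (F 16 L))) (F 356 (V (S (T (F 8 L) L) (T (F 8 L) L)) (S L L))))))) (F 352 (T (U (S (V (T (V (F 17 L) (S (F 17 L) (F 24 L))) (S (F 16 L) (F 24 (S L L)))) (S (V (F 24 L) (F 8 L)) (S (F 8 L) (F 8 L)))) (V (F 24 (S (V L L) (V (S L L) L))) (F 10 (V (S L L) (S L L))))) (S (V (S (T (F 17 L) (F 24 L)) (F 24 (S L L))) (F 24 (S (S L L) (S L L)))) (V (F 24 (S (S L L) (S L L))) (S (F 8 L) (F 10 L))))) (U (S (V (V (S (S (F 16 L) (F 8 L)) (F 8 L)) (F 8 L)) (S (F 8 L) (F 8 L))) (V (S (F 8 L) (F 8 L)) (S (F 8 L) (F 8 L)))) (S (V (T (V (F 24 (S L L)) (F 8 L)) (F 8 L)) (F 8 L)) (V (S (F 8 L) (F 8 L)) (S (F 8 L) (F 8 L))))))))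
noncomputable def v4_7 : Tr := (S (V (F 226 (T (S (F 3 (V (S L L) (V L L))) (V (S (F 3 L) (F 1 L)) (F 3 (S L (S L L))))) (S (V (S (F 3 (S L L)) (F 2 L)) (S (F 2 L) (F 2 L))) (S (V (F 2 L) (F 2 L)) (V (F 2 L) (F 2 L)))))) (T (F 386 (S (V (F 7 (U (S L L) L)) (F 33 (S L L))) (V (F 6 (T (S (F 16 L) (F 16 L)) (S L (F 2 L)))) (F 34 (S (V (F 8 L) (F 16 L)) (S (F 8 L) (F 8 L))))))) (F 416 (V (S (V (F 34 L) (T (F 34 L) (F 48 L))) (F 50 (U (V (S L L) (S L L)) (V L L)))) (S (F 48 L) (U (S (F 48 (V (S (F 8 L) (F 8 L)) L)) (F 18 L)) (F 48 (T (S (F 8 L) (F 8 L)) L)))))))) (V (T (F 98 (V (S (F 5 L) (F 33 L)) (T (F 5 (S L (S (F 2 L) (F 2 L)))) (S (F 6 (S L L)) (F 36 (V L (F 8 L))))))) (F 352 (S (F 34 (V (S L L) (U (V (S (F 2 L) (F 2 L)) (S (F 2 L) (F 2 L))) (V (F 2 L) (F 2 L))))) (V (F 48 L) (U (V (F 48 (S (S (F 8 L)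 (F 8 L)) L)) (F 18 (T (S (F 2 L) (F 2 L)) L))) (F 50 (V L (S L L)))))))) (F 484 (T (S (V (S (S (F 8 L) (F 8 L)) (S (F 8 L) (F 8 L))) (S (S (F 8 L) (F 8 L)) (S (F 8 L) (F 8 L)))) (V (S (S (F 8 L) (F 8 L)) (S (F 8 L) (F 8 L))) (S (S (F 8 L) (F 8 L)) L))) (S (V (U (V (S (F 8 L) (F 8 L)) (S L L)) (V (F 8 L) (F 8 L))) (S L L)) (V (S L L) L))))))
noncomputable def v4_8 : Tr := (V (F 8991 (T (U (S (F 80 (V (S L (F 16 L)) (S (S L L) (S L L)))) (V (F 73 L) (F 80 (T (S L (F 2 L)) L)))) (S (F 80 (V L (S L L))) (S (F 80 (V (F 18 L) L)) (F 65 L)))) (U (S (V (S (F 112 (S L L)) (F 65 L)) (V (T (F 80 (S L L)) (F 96 (S (S (F 1 L) (S (F 1 L) (F 1 L))) (S (T (F 1 L) (F 1 L)) L)))) (S (F 80 (T (V L (S (F 1 L) (F 1 L))) (S (V (F 1 L) (F 1 L)) (V (F 1 L) (S (F 1 L) (F 1 L)))))) (T (F 80 L) (F 48 (S (T (V (F 1 L) (F 1 L)) L)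 (T (V (F 1 L) (S (F 1 L) (F 1 L))) L))))))) (V (F 65 L) (T (F 80 (U (S L L) L)) (S (V (F 96 L) (S (V (F 96 L) (F 48 (S L L))) (F 96 L))) (F 96 (S L L)))))) (S (V (F 80 (S (F 1 L) (F 16 L))) (T (F 80 (S L L)) (S (F 112 (V (S L L) (S L (S L L)))) (V (F 96 L) (F 48 (T (S (F 1 L) (F 1 L)) L)))))) (V (F 67 L) (T (F 66 L) (S (F 96 L) (S (F 96 L) (F 66 L))))))))) (T (U v4_4 (F 8351 (S (V (F 176 (T (V (S (F 2 L) (F 2 L)) (S (F 2 L) (F 2 L))) (S (V (F 8 L) (F 1 L)) L))) (T (F 136 (V (F 18 (S L L)) (T (F 18 L) (S (V (F 3 L) (F 17 (S L (F 8 L)))) (F 18 (V L (F 8 (S L L)))))))) (F 192 (S (V (F 3 (S L L)) (V (F 17 (S L L)) (F 20 L))) (V (V (F 3 L) (F 17 L)) (F 17 (U (F 4 (V (S L L) (S (S L L) L))) (S L (F 4 L))))))))) (V (F 176 (V (S L (T (F 2 L) (F 8 L))) (S (T (F 2 L) (F 8 L)) (T (F 10 (V L L)) (F 8 L))))) (F 34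 (T (F 9 (V (S L (F 4 (V L L))) L)) (S (V (S (V (F 5 L) (V (F 5 L) (F 3 L))) (F 5 L)) (F 11 (U (V (S L L) (S L L)) (S L L)))) (V (F 13 (U (V (S L L) (S L L)) (S L L))) (T (F 9 L) (F 10 (S L (V (F 4 (S L L)) L)))))))))))) (U (S (F 215 v4_5) (F 795 v4_6)) (F 31 v4_7))))
noncomputable def v4_9 : Tr := (T (F 706 (S (V (S (S (F 2 L) (F 2 L)) (V (F 2 L) (F 18 (S L L)))) (U (T (F 20 (S L L)) (F 17 (S (S L L) (S L L)))) (F 20 (V L (F 8 (S L L)))))) (V (F 18 (U (V (T (F 4 (S L L)) L) (S (S L L) (T (F 4 L) L))) (T (F 4 (S L L)) L))) (U (T (F 20 (S L L)) (V (F 18 (S L (F 4 (S L L)))) (F 20 (V L (F 8 (S L L)))))) (F 20 (S L L)))))) (S (V (F 226 (U (V (S (F 3 (S L L)) (T (F 3 L) (F 2 L))) (S (T (F 3 L) (F 2 L)) (T (F 3 (S L L)) (F 18 (S L L))))) (V (T (F 17 L) (S (F 3 L) (F 18 L))) (F 18 (U (S (F 8 (S L L)) (T (F 8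 L) L)) (F 8 (S L L))))))) (F 386 (U (T (V (S (F 5 (V (F 16 L) (F 2 L))) (F 34 (S (T (F 16 L) (F 8 L)) (F 8 L)))) (F 33 (S (F 8 L) (F 16 L)))) (F 36 (S L (V (S (F 8 L) (F 8 L)) L)))) (F 36 (V (S (F 16 L) (S (F 8 L) (F 8 L))) (F 16 L)))))) (F 100 (V (U (T (V (F 33 (S (F 8 L) (F 4 L))) (F 36 (S (T (F 16 L) (F 8 L)) (F 16 L)))) (F 34 (V L (S (S (F 8 L) (F 8 L)) L)))) (T (F 37 (S L L)) (F 34 (V (F 16 L) (S (F 8 L) (F 4 L)))))) (F 6 (U (T (S (V (F 2 L) (F 2 L)) (V (F 2 L) (F 2 L))) (V (S (S (F 2 L) (F 2 L)) (S (F 2 L) (F 2 L))) (S (S (F 2 L) (F 2 L)) L))) (T (S (F 2 L) (F 2 L)) (U (S (F 2 L) (F 2 L)) (F 2 L)))))))))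
noncomputable def v4_10 : Tr := (S (F 8327 (U (V (F 432 v4_0) (T v4_1 v4_2)) (V (F 912 (T (S (V (S (F 2 L) (F 2 L)) (U (S (F 2 L) (F 2 L)) (F 2 L))) (V (S (F 2 L) (F 2 L)) (V (S (F 2 L) (F 2 L)) (F 2 L)))) (S (V (T (F 2 L) (F 3 (S L L))) (U (F 3 (S (V L L) (V L (S L L)))) (V (F 3 L) (F 1 L)))) (V (S (F 3 (S L L)) (F 2 L)) (F 3 (U (S (V L (S L L)) (V L (S L L))) (S L L))))))) (T (F 896 (S (V (S (F 5 L) (T (F 6 L) (F 5 L))) (F 41 (V L (S (F 2 L) L)))) (V (F 6 (U (S (V (F 16 L) (F 16 L)) L) (S (F 16 L) (F 2 L)))) (F 40 (U (V (T (F 8 L) (F 16 L)) (F 16 L)) (F 16 L)))))) (F 848 (S (V (U (F 1 L) (F 17 L)) (F 17 (U (S (F 2 L) L) (F 2 L)))) (V (U (S (V (F 3 (S L L)) (F 1 L)) (V (F 3 (S L L)) (T (F 3 L) (F 1 L)))) (V (F 3 (S L L)) (F 17 (S L L)))) (U (U (S (F 17 L) (T (F 17 L) (F 16 L))) (F 17 L)) (F 17 L)))))))))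 (U v4_8 (F 31 (V (F 610 (T (S (U (F 2 L) (F 18 L)) (S (S (F 2 L) (F 48 L)) (F 48 L))) (S (V (F 32 L) (V (S (F 2 L) (F 16 L)) (T (F 2 L) (S (F 3 (S L L)) (F 1 L))))) (V (F 48 L) (F 16 L))))) v4_9))))
noncomputable def v4_11 : Tr := (T (F 578 (U (S (V (F 6 (S (V (F 16 L) L) (T (F 16 L) (S (F 16 L) (F 16 L))))) (T (F 6 (S (S L L) (S L L))) (S (F 6 (S L L)) (S (F 6 L) (F 4 L))))) (V (F 7 (S (T L (S L L)) (T L (S L L)))) (T (U (S (F 6 (V (F 16 L) L)) (F 5 (V (S (F 16 L) (F 16 L)) (S L L)))) (F 5 (S (V (F 16 L) (S (F 16 L) (F 16 L))) (V (S (F 16 L) (F 16 L)) (S (F 16 L) L))))) (U (S (V (F 5 L) (F 4 L)) (F 5 (V L (S L L)))) (F 5 (S (S L L) (V L L))))))) (S (V (F 7 (S (S L L) (S L L))) (S (F 3 (V (S (F 16 L) (F 16 L)) L)) (F 5 (T (V (F 16 L) (S (F 16 L) (F 16 L))) (S L L))))) (F 5 (V (S (S (F 16 L) (F 16 L))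 (S (F 16 L) (F 16 L))) (T (S (V (F 16 L) (S (F 16 L) (F 16 L))) (V (S (F 16 L) (F 16 L)) L)) (S (S L L) (S L L)))))))) (U (S (F 610 (V (S (T (S (F 3 L) (F 1 L)) (F 1 L)) (T (F 1 L) (S (F 1 L) (F 1 L)))) (S L (V (T (F 1 L) (S (F 1 L) (F 1 L))) L)))) (F 290 (V (S (F 5 (S L L)) (V (F 65 L) (F 5 (S L L)))) (T (F 5 (S (V (S L L) (S L L)) (V (S L L) (S L L)))) (S (V (F 4 L) (F 5 (S L L))) (V (F 5 (S L L)) (F 4 L))))))) (F 770 (S (V (F 6 (S (S L L) (S L L))) (S (F 2 L) (V (F 6 (S L L)) (F 2 L)))) (V (S (F 6 L) (F 68 L)) (F 6 (T (S (V L L) (V L L)) (S (S L L) (S L L)))))))))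
noncomputable def v4_12 : Tr := (T (F 578 (U (S (V (S (F 2 L) (V (T (F 6 (S L L)) (F 4 L)) (F 2 L))) (V (S (F 18 L) (S (F 18 L) (F 2 L))) (T (F 18 (S (F 2 L) L)) (F 48 L)))) (V (T (U (S (V (F 6 (S L L)) (F 4 L)) (V (F 4 L) (F 4 L))) (S (S (F 4 L) (F 4 L)) (F 5 (V L (S L L))))) (S (V (F 4 L) (F 4 L)) (V (F 5 (S (S L L) (S L L))) (S (F 4 L) (F 5 (T L L)))))) (S (V (F 32 L) (F 48 (T L L))) (V (T (F 4 L) (F 32 L)) (F 32 L))))) (S (V (U (F 2 L) (S (F 18 L) (F 3 L))) (F 48 (S (F 8 L) (S L L)))) (V (T (S (S (F 1 L) (F 5 (S L L))) (F 5 (V L (S L L)))) (S (V (F 5 L) (F 33 L)) (V (F 5 (S L L)) (F 1 L)))) (F 33 (S (V L (S (F 2 L) L)) (V (T L L) (S L L)))))))) (U (S (F 586 (V (S L (S L L)) (S (F 16 L) (S (F 16 L) (F 16 L))))) (V (T (F 610 (U (S L (V (S (F 1 L) (F 1 L)) L)) (S L (S (T (F 1 L) (F 1 L)) (V (F 1 L) (F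 1 L)))))) (U (F 98 (S (F 1 L) (V (F 2 L) (F 34 L)))) (F 322 (S (F 33 (S L L)) (V (S (F 5 L) (F 36 L)) (F 33 L)))))) (F 580 (S (F 48 (S L (S L L))) (V (S (F 48 L) (F 1 L)) (S (F 48 L) (F 17 L))))))) (F 578 (S (V (F 17 (S L (T L L))) (F 48 (U L (F 16 L)))) (V (T (S (F 1 L) (V (F 5 (S L L)) (F 33 L))) (F 33 (S L (S L (V (F 8 L) (F 8 L)))))) (F 33 (S (S (F 2 L) (T (F 2 L) (F 2 L))) (V L (S (F 2 L) (F 2 L))))))))))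
noncomputable def v4_13 : Tr := (T (F 1314 (U (S (V (V (F 67 (S L L)) (S (F 5 (T (F 16 L) L)) (F 3 L))) (F 5 (T (S (S (V L L) (V L L)) (V L (S L L))) (S (V (S L L) (S (S L L) (S L L))) (V L (S (S L L) (S L L))))))) (V (F 65 (S (T (F 16 L) L) (T (F 16 L) (F 1 L)))) (T (U (S (U (F 4 L) (F 1 L)) (F 96 (S L L))) (S (F 1 L) (F 33 L))) (S (S (F 1 L) (F 32 L)) (V (F 96 L) (F 32 L)))))) (S (V (F 3 (V (F 1 L) L)) (T (F 5 (S (S L L) (S L L))) (S (F 5 (S L L)) (S (F 1 L) (F 33 L))))) (V (F 65 (T (S (F 16 L) (F 17 L)) (F 1 L))) (F 33 (S (T L (S L L)) (V (S (F 1 L) (F 1 L)) (S L L)))))))) (U (S (F 290 (V (F 129 (S (S (F 32 L) (F 32 L)) (T (F 32 L) (F 1 L)))) (T (U (F 9 (S (V (F 32 L) (S (F 32 L) (F 32 L))) (S (T (F 32 L) (F 32 L)) (S (F 2 L) (F 2 L))))) (F 3 (S (S (S (F 16 L) (F 16 L)) (F 16 L)) (S (F 16 L) (F 2 L)))))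 (U (S (F 10 (T L (S (F 2 L) (F 2 L)))) (F 72 (S (F 16 L) (F 32 L)))) (S (F 10 (T (S (F 32 L) (F 32 L)) (F 2 L))) (F 67 (S L L))))))) (F 1316 (V (F 96 (S L L)) (T (V (F 96 (S L L)) (S (F 1 L) (F 96 L))) (S (F 64 L) (F 96 L)))))) (F 1824 (S (V (F 96 (S (S L (F 1 L)) (S (F 1 L) (F 1 L)))) (T (S (F 34 (S L L)) (F 48 (S L L))) (S (S (F 34 (T L (F 2 L))) (F 48 L)) (F 48 L)))) (V (F 112 (S L L)) (S (F 48 (T L (S (F 1 L) (F 1 L)))) (F 80 (V (F 1 L) L))))))))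
noncomputable def v4_14 : Tr := (V (T (U (S (F 68 (V (S (F 32 L) (F 32 L)) (S L (S (F 32 L) (F 32 L))))) (F 5 (V (S (S (F 2 L) (F 2 L)) (S (F 2 L) (F 2 L))) (S (T (F 2 L) (F 2 L)) (S L L))))) (F 69 (S (V (S L L) (S L L)) (V (S L L) (S (S L L) (S L L)))))) (F 5 (U (S (V (S (S (F 2 L) (F 2 L)) (S (F 2 L) (F 2 L))) (S (S (F 2 L) (F 2 L)) L)) (V (S (S (F 2 L) (F 2 L)) L) (S (S L (F 4 L)) (S (F 4 L) (F 4 L))))) (S (V (S (F 2 L) (F 2 L)) (S (F 2 L) (F 2 L))) (V (S (F 2 L) (S (F 2 L) (F 4 L))) (S (F 4 L) (F 4 L))))))) (T (U (S (V (F 68 (S L L)) (S (F 96 L) (F 36 L))) (V (F 5 (S (T L (F 4 L)) (T (F 4 L) (F 4 L)))) (F 36 (S L (S (F 32 L) (F 32 L)))))) (V (F 5 (S (S (S (F 2 L) (F 2 L)) (S (F 2 L) (F 4 L))) (S (S (F 4 L) (F 4 L)) (F 4 L)))) (F 33 (S (S (F 2 L) (F 2 L)) (S (F 16 L) (F 16 L)))))) (U (F 36 (S (S L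 (V (S (F 32 L) (F 32 L)) (F 32 L))) (V (S (S (F 32 L) (F 32 L)) (S (F 32 L) (F 32 L))) (S (F 32 L) (F 32 L))))) (F 33 (S (S L (V (F 16 L) (F 16 L))) (V (S (F 16 L) (F 16 L)) (S (F 16 L) (F 16 L))))))))
noncomputable def v4_15 : Tr := (S (V (F 6 (T (S (V (F 2 L) (S (F 2 L) (F 2 L))) (V (S (F 2 L) (F 2 L)) (S (S (F 2 L) (F 2 L)) (T (F 2 L) (S (F 2 L) (F 4 L)))))) (S (V (S (F 2 L) (F 2 L)) (S (F 2 L) (T (F 2 L) (F 6 (S L L))))) (V (S (S (F 2 L) (F 2 L)) (T (F 2 L) (F 6 (S L L)))) (S (U (F 4 L) (F 6 (S L L))) (F 4 L)))))) (T (V (S (F 66 (S (F 2 L) (V (T (F 16 L) (F 16 L)) (F 2 L)))) (F 6 (S (V (T (F 2 L) (F 6 L)) (F 4 L)) (S (F 4 L) (F 4 L))))) (F 34 (S (S (F 2 L) (F 2 L)) (S (F 2 L) (F 16 L))))) (F 34 (S (S (S (F 2 L) (F 2 L)) L) (V (S (F 16 L) (F 16 L)) (F 16 L)))))) (V (T (V (F 68 (S (S (S (F 16 L) (F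 2 L)) (F 2 L)) (S (F 2 L) (F 2 L)))) (F 36 (S (S (V (F 18 (T (S L L) L)) (F 16 L)) (S (F 16 L) (F 16 L))) (V L (S (F 16 L) (F 16 L)))))) (F 36 (S (V (S (F 2 L) (F 2 L)) (S (F 16 L) (F 16 L))) (S L L)))) (F 38 (T (S (V (S L L) (S L L)) (V (S L L) (S L L))) (S (V (S L L) (S L L)) (V (S L L) L))))))
noncomputable def v4_16 : Tr := (U (S (F 832 (V (T (U (S (F 5 (V (S (F 2 L) L) (S (F 4 L) (F 4 L)))) (F 36 (T (V (S (F 32 L) (F 32 L)) (S (F 32 L) (F 32 L))) (S L L)))) (F 5 (S (V (S (F 2 L) (F 4 L)) (S (F 4 L) (F 4 L))) (V (S (F 4 L) (F 4 L)) (S (F 4 L) (F 4 L)))))) (F 36 (U (S (S L L) (S L L)) (S (S (F 32 L) L) (V (F 32 L) (F 32 L)))))) (F 33 (T (S (S (S (F 16 L) (F 16 L)) (S (F 16 L) (F 16 L))) (V (S (F 16 L) (F 16 L)) (F 16 L))) (S (S (F 4 L) (F 16 L)) (S (F 16 L) (F 16 L))))))) (F 1380 (V (T (S (V (S (S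 (F 1 L) (F 1 L)) (F 1 L)) (S (S (F 1 L) (F 1 L)) (S (F 1 L) (F 1 L)))) (V L L)) (S (V (S (F 1 L) (F 1 L)) (S (F 1 L) (F 1 L))) L)) (T (S (V (S (F 1 L) (F 1 L)) (S (F 1 L) (F 1 L))) (V (S (F 1 L) (F 1 L)) (F 1 L))) (S (S (F 1 L) (F 1 L)) (S (F 1 L) (F 1 L))))))) (F 1792 (S (V (F 6 (T (S (V (S (S (F 2 L) (F 2 L)) (T (F 2 L) (F 6 L))) (S (F 6 (S L L)) (F 4 L))) (S (V (F 4 L) (F 4 L)) (V (F 4 L) (F 4 L)))) (S (S (F 6 (V L L)) (F 4 L)) (S (F 4 L) (F 4 L))))) (F 34 (T (S (F 2 L) (S (F 16 L) (F 16 L))) (S (F 4 L) (F 16 L))))) (F 36 (V (S (V L (T (S (F 16 L) (F 16 L)) (F 16 L))) (S L L)) (S (T (V (F 16 L) (F 16 L)) (F 16 L)) (T (V (F 16 L) (F 16 L)) (S (F 16 L) (F 16 L)))))))))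
noncomputable def v4_17 : Tr := (T (S (V (U (S (F 194 (V (T (F 2 L) (F 18 (S L L))) (S (F 16 L) (F 18 (T (S L L) L))))) (F 166 (V (S (T (F 2 L) (F 2 L)) L) (T (S (S (F 2 L) (F 2 L)) (S (F 2 L) (F 2 L))) (S (F 2 L) (F 2 L)))))) (F 134 (S (V (F 6 (S L L)) (F 2 L)) (V (F 4 L) (F 6 (T L L)))))) (F 198 (U (S (T L L) (V (S L (T (S (F 2 L) (F 2 L)) (F 2 L))) (S L L))) (S L L)))) (F 164 (V (U (V (S (S (F 16 L) (F 16 L)) (F 16 L)) (S (S (F 18 (T (S L L) L)) (S (F 16 L) (F 16 L))) (S (F 16 L) (F 16 L)))) (S (F 16 L) (F 16 L))) (U (S (T (V (U (F 2 L) (F 18 (S L L))) (F 2 L)) (S (F 2 L) (F 2 L))) (T (S (F 2 L) (F 2 L)) (S (F 2 L) (F 2 L)))) (S (T (F 18 (V L L)) (F 2 L)) (S (F 2 L) (F 2 L))))))) (S (V (S (F 198 (V (U (T (S (F 2 L) (F 2 L)) (F 2 L)) (F 2 L)) (S L L))) (F 164 (V (S (F 16 L) (F 16 L)) (U (S (F 2 L) (F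 2 L)) (F 18 L))))) (F 196 (S (T (F 16 L) (F 24 L)) (S (F 16 L) (F 2 L))))) (F 164 (V (U (S (S L (F 16 L)) L) (F 16 L)) (U (S (S (F 2 L) (F 2 L)) (S (F 2 L) (F 2 L))) (F 2 L))))))
noncomputable def v4_18 : Tr := (U (F 594 (V v4_13 (T (U (S (F 1600 v4_14) (F 1312 (V (T (U (S (V (F 68 (S (T (F 32 L) (F 32 L)) (T (F 32 L) L))) (F 5 (S (T L (F 4 L)) (T (F 4 L) (F 4 L))))) (V (V (F 96 L) (F 36 L)) (F 36 L))) (S (V (F 65 (S (F 16 L) (S (F 16 L) (F 2 L)))) (F 37 (S (S L L) (S L L)))) (F 33 (V (S (F 2 L) (F 2 L)) (S (S (F 16 L) (F 16 L)) (S (F 16 L) (F 16 L))))))) (U (F 36 (S (V (T L L) (S (S (F 32 L) (F 32 L)) (S (F 32 L) L))) (V L L))) (F 33 (S (V (S (F 16 L) (F 16 L)) (S (F 16 L) (F 16 L))) (V L (S (F 16 L) (F 16 L))))))) (F 37 (T (S (V (S (V L L) (V L L)) (S (T L L) (S L L))) (V (S (T L L) (T L L)) (S (S L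 L) (S L L)))) (S (V (S (T L L) (S L L)) (S (S L L) L)) (V (S (S L L) (S L L)) (S L L)))))))) (F 1792 v4_15)) v4_16))) (F 543 (V (T (S (F 162 (V (S (F 33 L) (T (F 33 L) (F 48 L))) (U (S (S (F 2 L) (F 16 L)) (F 16 L)) (F 16 L)))) (F 38 (V (T (F 33 L) (F 34 L)) (S (F 2 L) (V (F 34 L) (F 2 L)))))) (F 166 (S (V (S (S (F 16 L) (F 16 L)) (F 16 L)) (S (S L L) (S L L))) (V (F 16 L) (U (S (S L (F 16 L)) (F 16 L)) (S (F 16 L) (F 16 L))))))) v4_17)))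
noncomputable def v4_19 : Tr := (S (F 1226 (U (V (T (F 5 (U L (V L (F 8 (S L L))))) (S (F 3 L) (T (U (F 6 L) (U (F 6 L) (F 3 L))) (F 6 L)))) (S (F 3 L) (T (F 5 (U L (F 8 (S L L)))) (F 3 L)))) (F 3 (V (T (S L (F 8 L)) L) L)))) (V (F 1090 (T (F 45 (U (S L (F 8 (S L L))) (F 8 (S L L)))) (U (S (F 6 (V (T (F 20 (U L (F 1 L))) (U (F 20 L) (F 48 (S L L)))) (U (F 20 L) (T (F 52 L) (U (F 20 L) (F 36 L)))))) (F 43 (V (T (F 8 (S L L)) (T (F 8 (U (S L L) L)) L)) (T (F 8 (S L L)) (T (F 8 (U (S L L) L)) L))))) (F 3 (S (V (F 48 (S (T (F 2 L) L) (F 2 L))) (F 36 (T (F 1 L) L))) (F 20 (T (F 1 L) (S (T (F 1 L) L) L)))))))) (U (T (F 746 (T (F 1 L) (U (F 2 L) (F 3 (S L L))))) (F 328 (S (F 69 (V (U (S (F 8 L) (F 8 L)) (T (F 24 (S L L)) (F 16 L))) (T (T (S (F 16 L) (F 24 (U L L))) (F 16 L)) (F 16 L)))) (V (U (F 12 (T (F 18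 (U L (F 1 L))) (S (F 34 L) (F 48 L)))) (F 75 (T (F 8 L) (S L L)))) (F 15 (T (F 2 (U (S (U L L) L) L)) L)))))) (F 1866 (T (F 3 (S L L)) (S (F 1 L) (T (F 3 (S L L)) (F 2 L))))))))
noncomputable def v4_20 : Tr := (S (V (V v4_19 (F 968 (S (F 17 (U (T L L) L)) (U (T (T (F 18 L) (V (F 18 (U L (F 8 (S L L)))) (F 17 (S L L)))) (V (S (F 17 L) (T (V (F 18 (U (U L (F 8 (S L L))) (F 8 L))) (F 17 (S L L))) (F 3 L))) (F 17 (S L L)))) (F 17 (T (F 8 (V (S L L) L)) (S L L))))))) (F 1994 (V (S L L) (F 4 (U L L))))) (F 840 (V (T (F 38 (V (S (V (F 8 (U (S L L) L)) (U (T (F 8 L) L) (F 8 L))) (U L (F 8 (S L L)))) (S (U L (F 8 (V (S L L) L))) (U L (F 8 (V L L)))))) (V (S (V (F 5 (U (S (V (F 18 (U (S L L) (S L L))) (T (F 18 L) (F 16 L))) (T (F 18 (S L L)) (F 16 L))) (S (T (F 18 L) (F 2 L)) (F 18 (S L L))))) (U (F 6 (T (S (U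 (F 2 L) (F 18 (S L L))) (S (F 16 L) (F 18 L))) (F 16 L))) (F 37 (T (F 8 (S L L)) L)))) (F 5 (T (S (V (F 18 (U L L)) (F 16 L)) (F 16 L)) L))) (F 5 (S (T (S (V (T (U (S (F 16 L) (F 16 L)) (F 18 L)) (F 16 L)) (F 16 L)) (F 16 L)) L) (V (F 16 L) (F 16 L)))))) (V (S (T (F 38 (U (U L (F 8 (V (S L L) L))) (F 8 (S L L)))) (S (F 3 L) (F 5 L))) (F 5 (T (S (F 16 L) (F 16 L)) L))) (S (F 35 L) (F 5 (T (F 16 L) L)))))))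
noncomputable def v4_21 : Tr := (U (S (V (T (U (S (F 80 (S (F 16 L) (S (F 16 L) L))) (V (S (F 68 (T (F 4 L) (F 8 L))) (F 5 (T (F 8 L) (F 16 L)))) (F 81 L))) (S (F 65 (S (V (F 32 L) (F 36 L)) (F 4 L))) (V (S (F 81 L) (F 5 (S (F 2 L) (F 8 L)))) (F 81 L)))) (F 9 (S (S (S (F 2 L) (F 2 L)) L) (V (S L (S (F 16 L) (F 16 L))) (F 8 L))))) (F 49 (S (S (F 2 L) (F 2 L)) L))) (V (T (F 21 (U (S (V (V (S (S (F 8 L) (F 8 L)) (F 8 L)) L) L) (V (V (S (F 8 L) (F 8 L)) (S (F 8 L) (F 8 L))) L)) (S (V (S L (S (F 8 L) (F 8 L))) L) (V (V (F 8 L) (F 8 L)) L)))) (F 9 (V (S (S (S (F 16 L) (F 16 L)) (S (F 16 L) (F 16 L))) (S (S (F 16 L) (F 16 L)) (S (F 16 L) (F 16 L)))) (S (S (F 8 L) (V (S (F 16 L) (F 16 L)) (F 8 L))) (F 24 (S (T (V (S L L) L) (S L L)) (T (S L L) L))))))) (F 17 (V (U (T (F 16 L) (S (F 8 L) (F 24 (S L L)))) (F 16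 L)) (F 4 L))))) (S (V (T (F 81 (S (S (S (F 16 L) L) L) L)) (F 9 (S (F 2 L) (S (F 2 L) (F 8 L))))) (F 113 (S L L))) (V (T (F 21 (S (V (T (S (F 2 L) (F 2 L)) L) L) (V (S L (S (F 8 L) (F 8 L))) L))) (S (F 9 (V (F 16 L) (F 8 L))) (F 5 (V (S (F 16 L) (F 16 L)) (T (F 8 L) (F 24 (S L L))))))) (F 17 (S (F 4 L) (F 16 L))))))
noncomputable def v4_22 : Tr := (U (V (T (U v4_20 (F 1864 (S (F 17 (V (V (S (S L L) (U (T (F 8 (V L L)) (V (S L (F 8 (S L L))) L)) (T (F 8 L) (S L L)))) (S L L)) (S (F 2 L) L))) (V (V (F 18 (S (U (T (F 8 (S L L)) (V (F 8 (S (S L L) L)) (T (F 8 (S L L)) L))) (F 8 (V L (S L L)))) (U (T (F 8 (S L L)) (T (F 8 (S L L)) L)) (F 8 (V L L))))) (S (T (F 19 (V L L)) (S (F 17 L) (F 18 L))) (F 18 (T (F 8 (V L L)) (S L L))))) (V (S (F 17 L) (F 3 (T (F 2 (S L L)) L))) (F 17 L)))))) (F 1344 v4_21)) (F 1868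 (U (S (T (F 9 L) (F 8 L)) (T (F 1 L) L)) (T (F 9 L) (S (F 9 L) (F 8 L)))))) (F 1792 (V (T (F 80 (S (F 48 (V (U (T (T (F 1 (S L L)) L) L) (F 1 L)) (F 4 L))) (U (V (V (F 40 (T L (F 1 (S (S L L) (S L L))))) (F 24 (S (F 1 (S L L)) (T (F 1 L) L)))) (F 48 (T (F 1 L) L))) (F 56 (V (V (S L L) L) L))))) (S (F 82 (V (S (S (F 16 L) L) L) (F 2 L))) (V (V (U (T (F 86 (S L L)) (F 10 (S (F 2 L) (F 16 L)))) (F 74 (S (F 4 L) (S (F 8 L) (F 8 L))))) (F 18 (S (F 2 L) (S (F 2 L) (F 16 L))))) (F 18 (T (F 2 L) (F 4 L)))))) (F 114 (T (F 8 L) L)))))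
noncomputable def v4_23 : Tr := (S (U (V (T (U (S (F 50 (V (S (F 2 L) L) (F 10 L))) (V (F 48 (S L (T L L))) (F 25 (S (F 2 L) L)))) (F 49 (S (F 2 (S (F 1 L) L)) (V (U (T (S L L) L) L) (F 2 L))))) (F 17 (U (S (S (F 6 L) (F 2 L)) (S (S (F 2 L) (F 2 L)) L)) (S (F 6 L) (S (F 2 L) (F 2 L)))))) (F 57 (S (F 4 L) L))) (F 49 (V (T (S (F 2 (S (F 1 L) L)) (S (F 2 L) L)) (S (F 2 L) L)) (F 10 L)))) (U (V (T (U (S (V (T (U (S (F 16 L) (F 5 (S L L))) (S (F 17 L) (F 5 L))) (F 17 (S L L))) (F 25 (S L (S L L)))) (V (F 5 (T (S (V (S L L) L) (S (V L L) (T L L))) (S L L))) (F 9 (T (S (F 4 L) (V (F 8 L) (F 12 L))) (F 4 L))))) (S (V (V (S (F 33 L) (F 1 L)) (F 17 (S (F 2 L) L))) (F 25 (S (F 2 L) L))) (V (F 5 (S (T (S L L) L) (T (S L L) L))) (F 25 (S L L))))) (U (S (F 17 (S L L)) (V (F 5 (S (V L (F 4 L)) (T L (F 4 L)))) (F 25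 L))) (F 17 (S (S L L) (S L (S (F 8 L) (F 8 L))))))) (F 25 (S (S (F 2 L) L) (S L L)))) (V (T (S (V (F 33 (S (V L (F 2 L)) L)) (F 25 (S (F 2 L) L))) (V (S (F 33 L) (F 5 (T L L))) (F 25 (S L L)))) (F 17 (S (S (F 2 L) L) (S L L)))) (F 25 (S (F 2 L) L)))))
noncomputable def v4_24 : Tr := (V (T v4_10 (S (F 598 (U (V v4_11 v4_12) (F 770 (V (T (S (F 3 (V (U (S (F 16 L) (F 16 L)) (F 16 L)) (S L (V (T (F 16 L) (F 16 L)) L)))) (V (F 5 (S (S (F 16 L) (F 16 L)) L)) (F 6 (U (T (S (S (F 16 L) (F 16 L)) (S (F 16 L) (F 16 L))) (S L L)) (S (S (F 16 L) (F 16 L)) L))))) (S (V (F 6 (S L L)) (S (F 18 L) (F 2 L))) (V (S (F 6 L) (F 100 (S L L))) (F 6 (U (S (S L L) (T L (S (F 2 L) (F 2 L)))) (S (S (F 2 L) (F 2 L)) (S (F 2 L) (F 2 L)))))))) (T (S (V (F 3 (V L (U L (F 6 (S L L))))) (F 50 (S (F 8 (S L L)) (S L L)))) (V (U (T (S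 (F 3 L) (F 6 (S L L))) (V (S (F 34 L) (F 6 L)) (F 34 L))) (F 34 (S L L))) (F 34 (U (S (S (F 2 L) L) L) (S (F 2 L) (F 2 L)))))) (F 34 (S (V (S (F 2 L) (T L (F 2 L))) (F 2 L)) (V (S (S L L) (S L (S L L))) (S (S (F 2 L) (F 2 L)) (V L (F 2 L))))))))))) v4_18)) (F 4229 (T (S (F 1346 (U (V (T (F 18 (V (S (U (V (U (S (F 18 (S L L)) (T (F 16 L) (F 2 L))) (F 18 (T L L))) (F 18 L)) (F 18 L)) (V (U (U (S (F 16 L) (T (S (F 16 L) (F 16 L)) L)) (F 16 L)) (F 16 L)) (U (S (U (T (F 18 L) (S (F 18 L) (F 16 L))) (F 18 L)) (F 16 L)) (S (F 18 L) (F 16 L))))) (F 18 (U (T L L) L)))) (U (V (S (F 50 (S (F 8 L) (V L (F 8 L)))) (V (T (F 18 (U L (S (F 16 L) (F 16 L)))) (S (F 10 (S (F 2 L) L)) (F 9 L))) (U (F 48 (S (F 8 L) (T (F 8 L) (F 2 L)))) (F 17 (S (F 18 L) (T (F 16 L) (F 2 L))))))) (F 51 (U (S (F 2 L) (T L L)) L))) (F 3 (S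 (F 6 L) (V (V (T (F 4 L) (S (F 2 L) (F 8 L))) (F 6 (U (U (T L L) L) L))) (F 6 L)))))) (F 51 L)) (F 51 (U (U (T L (T L L)) L) L)))) v4_22) (F 1360 v4_23))))
noncomputable def v4_25 : Tr := (U (S (F 304 (V (V (F 65 (S (F 48 (T (F 2 (S L L)) (T (S L (F 2 (V L L))) L))) (V (U (T (F 52 L) (S (F 48 (T (F 2 L) L)) (F 20 L))) (F 52 (S L (U L L)))) (F 36 (T (F 1 L) (T (F 1 (S L L)) L)))))) (F 19 (T (F 18 (S (S L L) (S L L))) (S (T (F 18 (V (S L L) L)) (F 8 L)) (S (F 16 L) (F 16 L)))))) (F 18 (V (T (F 50 (S (S L L) (S L L))) (F 40 (S L L))) (T (T (F 18 L) (F 56 (S L L))) (F 40 L)))))) (F 1304 (V (V (S (V (F 34 (U (T (F 20 (S L L)) (F 4 L)) (T (F 20 L) (U (F 4 L) (F 16 L))))) (F 11 (T (F 2 (S L L)) (S L L)))) (F 34 (T (V (S (T (F 20 L) (F 16 L)) (F 16 L)) (U (S (F 20 L) (F 4 L)) (F 20 (S L L)))) (F 4 L)))) (F 10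 (S (T (F 18 (V (S L L) L)) (F 16 L)) (T (V (U (F 2 L) (F 18 L)) (F 18 (S L L))) (F 16 L))))) (F 9 (V (T (S (F 18 (S L L)) (F 16 L)) (S (F 8 L) (F 8 L))) (T (S (F 16 L) (F 16 L)) (F 8 L))))))) (F 1800 (S (V (F 44 (V (F 8 (S (S L L) (V (S L L) (S L L)))) (S (F 8 (V L L)) (T (F 8 L) L)))) (T (F 37 (V (F 4 (S L L)) L)) (F 14 (S L L)))) (V (F 40 (V (S (V (T (F 20 L) (F 16 L)) (F 20 (S L L))) (F 16 L)) (S (T (F 20 L) (F 4 L)) (T (F 20 (S L L)) (F 4 L))))) (F 12 (T (V (F 18 (S L L)) (F 16 L)) (S (F 8 L) (F 8 L))))))))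
noncomputable def v4_26 : Tr := (V (F 9003 (V (F 192 (S (T (F 6 (S L L)) (S (F 2 L) (S (F 16 L) (F 16 L)))) (F 20 (U (T L L) L)))) (S (V (F 192 (T (F 6 (S L (F 2 (U (S L L) L)))) (U (S (F 6 L) (T (F 6 L) (F 18 L))) (S (F 18 L) (F 20 L))))) (T (F 154 (U L (F 1 L))) (F 80 (U (S (T (F 5 L) (F 17 L)) (V (U (T (F 21 (S L L)) (S (F 17 L) (F 20 L))) (F 17 (T (F 4 L) L))) (U (S (F 17 (T (F 4 L) L)) (F 20 (T (F 8 L) L))) (F 17 (S (T (F 4 L) L) (T (F 4 L) L)))))) (F 17 (S (S L L) (T (F 4 (S L L)) L))))))) (F 10 (U (T (T (F 9 L) (F 3 (V L (S (F 4 (S L L)) L)))) (V (F 3 (S L L)) (S (V (F 3 (S L L)) (U (F 10 (T (S (F 8 L) (T (F 8 L) L)) L)) (F 3 (T (F 4 (S L L)) L)))) (F 3 L)))) (F 3 (V L (T (F 4 (S L L)) L)))))))) (F 4361 (T (F 682 (V (F 9 (S (V (U L (F 8 L)) (F 8 (U (S L L) L))) (V (U (U L (F 8 (S L L))) (F 8 (S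 L L))) (U (U L (F 8 (S L L))) (F 8 (S L L)))))) (S (F 3 (V (F 4 (U (S L L) L)) L)) (F 10 (V (F 8 (U (S L L) (S L L))) (U L (F 8 L))))))) v4_25)))
noncomputable def v4_27 : Tr := (U (S v4_26 (F 5913 (V (F 226 (V (S L (V (F 8 L) L)) (T L (U (S (S L L) L) L)))) (T (F 96 (V (S (U (V (F 17 (S (V L (F 4 (S L L))) L)) (T (F 20 L) (U (F 20 L) (F 17 (S (F 4 L) L))))) (F 17 (V L (F 4 (S L L))))) (F 17 (S L L))) (S (F 20 (V (U (T L L) (F 8 (S L L))) (U L (F 8 (S L L))))) (U (V (S (F 20 (T L L)) (F 17 L)) (F 20 L)) (V (F 17 L) (F 5 (T (F 2 (S L L)) L))))))) (U (S (V (F 160 (S (V (F 17 L) (T (U (F 20 L) (V (F 17 L) (F 5 L))) (F 20 L))) (F 16 L))) (F 136 (T (F 3 (S L L)) (F 4 L)))) (V (F 162 L) (F 136 (T (F 2 L) (F 4 L))))) (F 192 (S (V (F 17 (S L L)) (T (F 5 L) (F 6 (S L L)))) (V (F 17 L) (F 1 L))))))))) (F 4383 (S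 (V (F 146 (V (S (F 4 L) (F 4 L)) (S (U (T (F 6 (S L L)) (S (F 2 L) (F 4 L))) (T (F 6 L) (F 4 L))) (S (F 4 L) (F 4 L))))) (T (F 170 (V (F 2 (S (V (S L L) (S L L)) (U (S L L) L))) (S L (V (F 2 (S L L)) L)))) (S (F 40 (V (F 21 (U (V (S L (S L L)) (S L L)) (V L L))) (T (F 17 (V (F 4 (S L L)) L)) (V (F 20 L) (S (F 18 L) (F 6 L)))))) (F 24 (V (V (F 17 L) (S (F 20 (T (F 8 (S L L)) L)) (F 17 L))) (T (F 5 (U (V (F 2 (S L L)) L) (F 2 (S L L)))) (F 6 (S L L)))))))) (F 24 (V (F 17 (V (S L (F 1 L)) L)) (V (F 17 (S (S L L) L)) (S (U (V (F 17 (T (F 4 L) L)) (F 5 (T (F 2 L) L))) (T (F 21 L) (S (F 20 L) (F 17 L)))) (T (F 17 L) (F 1 L)))))))))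
noncomputable def v4_28 : Tr := (V (T (U (S (V (F 194 L) (F 18 (T (S (F 3 (V L L)) (F 2 L)) (S (F 4 L) (F 4 L))))) (V (F 66 (S (F 1 L) (F 8 L))) (F 10 (T (F 2 L) (F 4 L))))) (F 130 (S (V (F 1 L) (V (F 1 L) (F 6 (S L L)))) (S (F 1 L) (V (F 9 L) (F 8 L)))))) (U (F 34 (S (V L (S (F 4 L) (F 4 L))) (S L (F 8 L)))) (S (F 160 (V (F 16 L) (S (F 2 L) (F 16 L)))) (F 42 L)))) (T (U (F 48 (S (V (S (S (F 1 L) (F 1 L)) (V (S (F 17 L) (F 5 L)) (F 5 L))) (F 5 (V (S L L) (S L L)))) (V (S (F 4 L) (F 4 L)) (V (F 4 L) (F 5 (S L L)))))) (F 160 (S (V (S (F 18 (S L L)) (S (F 2 L) (F 2 L))) (F 6 (V L L))) (V (S (F 6 (V L L)) (F 4 L)) (F 6 (V (S L L) (S L L))))))) (F 48 (U (S (V (S (F 1 L) (F 4 L)) (S (F 1 L) (S (F 1 L) (F 4 L)))) (V (S (F 4 L) (F 4 L)) (S (F 4 L) (F 4 L)))) (V (S (S (F 1 L) (F 1 L)) (S (F 1 L) (F 4 L))) (S (S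 (F 1 L) (F 1 L)) (S (S (F 1 L) (F 4 L)) (F 4 L))))))))
noncomputable def v4_29 : Tr := (U (S v4_28 (V (T (F 10 (V (S (T (F 3 L) (F 2 L)) (F 34 (U L (F 8 L)))) (U (U (U (S (T (F 2 L) (F 4 L)) (F 6 L)) (F 2 L)) (F 2 L)) (T (F 3 L) (F 2 L))))) (F 40 (V (S (S (F 16 L) (F 48 L)) (F 48 L)) L))) (F 40 (T (U (S (V (F 4 L) (F 4 L)) (S L L)) (S (T (S (F 4 L) (F 4 L)) (S (F 4 L) (F 4 L))) L)) (V L (S (S (F 4 L) (F 4 L)) L)))))) (S (V (F 130 (T (S (S (F 1 L) (F 1 L)) (S (F 1 L) (V (F 9 L) (F 8 L)))) (S (V (F 2 L) (F 2 L)) (F 2 L)))) (T (S (F 144 (V (S (F 18 (S L L)) (T (F 20 L) (F 2 L))) (F 6 (V (S L L) L)))) (F 136 (V (T (S (F 20 L) (F 18 L)) (F 2 L)) (F 6 (U (S L L) L))))) (F 160 (V (S (S (F 2 L) (F 2 L)) (F 4 L)) (S (S (F 2 L) (F 2 L)) (U (S (S (F 2 L) (F 6 L)) (F 6 (T L L))) (F 6 (S L L)))))))) (F 136 (V (V (F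 17 (S L (F 1 (S L L)))) (T (T (F 17 L) (F 16 L)) (S (F 2 L) (F 34 L)))) (T (S (V (F 2 L) (T (S (F 6 L) (F 2 L)) (F 2 L))) (F 2 L)) (V (F 2 L) (S (F 2 L) (F 2 L))))))))
noncomputable def v4_30 : Tr := (U (V (F 8987 (T (F 200 (V (F 24 L) (U (S (V (S (F 16 L) (F 24 L)) (T (F 8 L) (S (F 8 L) (F 8 L)))) (F 24 (T L L))) (F 24 (U (U (T L (U L L)) L) L))))) (U (V (F 195 (S L (F 5 L))) (S (V (F 195 (T L (S L L))) (S (F 130 (T (F 1 L) (S (F 2 L) (F 2 L)))) (F 66 (V (F 33 (S L L)) (T (F 9 L) (F 2 L)))))) (F 75 (S (U (T (F 1 (T L L)) L) (F 1 L)) (F 1 L))))) (F 195 (S (T L (U L L)) (F 4 L)))))) (T v4_27 (F 4891 v4_29))) (F 4383 (V (F 147 (U (U (T (F 4 L) (S L (F 5 L))) (F 4 L)) (F 4 L))) (T (F 138 (S (V (U (T (F 6 (S L L)) (F 4 L)) (F 6 L)) (U (V (S (F 6 (V L L)) (T (F 6 L) (F 4 L))) (S (F 2 L) (V (F 6 L) (F 2 L))))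 (V (F 6 (S L L)) (F 2 L)))) (V (S (F 4 L) (F 20 L)) (U (V (F 4 L) (T (F 6 (S L L)) (F 4 L))) (F 4 L))))) (S (V (F 18 (T (S (F 1 L) (S (F 1 L) (F 9 L))) (S (F 2 L) (F 2 L)))) (F 80 (U (V (S (T (F 18 L) (F 16 L)) (T (F 20 L) (F 4 L))) (S (T (S (F 18 L) (F 6 L)) (F 2 L)) (T (F 6 L) (F 4 L)))) (V (F 20 (S L L)) (S (S (F 18 L) (F 20 L)) (F 20 L)))))) (F 24 (V (U (V (F 49 L) (F 18 (S L (F 1 L)))) (F 49 L)) (U (V (T (F 18 L) (F 2 L)) (F 2 L)) (F 18 L)))))))))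
noncomputable def v4_31 : Tr := (U (V (F 99 (T L L)) (T (U (S (V (F 34 (T (F 17 L) (U (S (V (F 17 L) (T (F 1 L) (F 16 L))) (F 17 L)) (F 17 L)))) (S (V (F 34 (U (T (F 1 L) L) (F 1 L))) (F 96 (T (V (F 8 L) (S (F 8 L) (F 8 L))) L))) (F 96 (V (S (F 8 L) (F 8 L)) (T (U (F 8 L) (F 8 L)) L))))) (F 96 (V (F 24 L) (V (F 24 (T L (U (S L L) L))) (S (T (F 8 L) L) (T (V (F 24 L) (F 8 L)) (F 16 L))))))) (F 96 (V (F 24 (S L (F 4 L))) (S (U (S (F 8 L) (F 8 L)) (F 8 L)) (U (T (F 24 L) (V (F 24 L) (F 16 L))) (F 24 L)))))) (U (S (V (F 33 (T (S (V (F 17 L) (F 16 L)) (F 17 L)) (V (F 18 L) (F 2 L)))) (S (F 16 L) (S (S (F 16 L) (F 17 L)) (F 17 L)))) (V (F 35 (T (F 1 L) (F 2 (S L (F 4 L))))) (F 17 (T (S (S L (F 2 L)) (F 2 L)) L)))) (S (V (F 67 (T (F 1 L) (F 2 (S L L)))) (S (F 80 L) (F 17 (T (F 1 L) L)))) (F 81 (V (F 9 L) (S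 L L))))))) (V (F 115 L) (V (F 99 (T L L)) (T (F 98 (U (S L (F 8 L)) (F 8 L))) (F 80 (S (S L (F 16 L)) (S (F 16 L) (F 24 L))))))))
noncomputable def v4_32 : Tr := (T (U (S (V (S (T (V (F 2 L) (F 16 L)) L) L) (T (U (S (V (F 16 L) (F 80 (S L L))) (V (F 16 L) (F 24 (S L L)))) (S (F 80 (V (S L L) (S L L))) (S (F 16 L) (F 16 L)))) (U (S (S (F 16 L) (F 16 L)) (F 16 L)) (S (V (F 16 L) (F 80 L)) (F 16 L))))) (V (V (F 9 (S L L)) (S (F 8 L) (F 9 L))) (S (V (F 8 L) (F 24 (T (S L L) L))) (S (F 8 L) (F 8 L))))) (S (V (T (V (F 66 L) (F 64 L)) (F 64 L)) (T (S (F 80 (V (S L L) L)) (S (V (F 72 L) (F 80 L)) (F 64 L))) (F 80 (S (V (S L L) L) (S L L))))) (V (F 9 (T (V (F 1 L) L) L)) (T (U (F 8 L) (F 72 (S L L))) (F 8 L))))) (U (S (V (V (S (F 1 L) (F 9 L)) L) (T (S (V (F 16 L) (F 80 L)) (F 16 L)) (V (F 16 L) (F 80 (S L (F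 2 L)))))) (V (F 9 (T (S L (F 16 L)) L)) (S (F 8 L) (F 9 L)))) (S (V (V (F 65 (S L (F 16 L))) (F 64 L)) (S (V (F 64 L) (F 80 (S L L))) (F 64 L))) (V (F 9 L) (S (F 72 L) (F 9 L))))))
noncomputable def v4_33 : Tr := (S (U (V (T (F 3 (U (S (V (U (T (F 3 (S L L)) (F 2 L)) (F 3 L)) (S (U (T L L) L) L)) (V (F 11 L) (S (F 8 L) (F 8 L)))) (S (V (F 3 L) (S (U (T (S (F 1 L) (F 1 L)) L) (F 1 L)) (F 1 L))) (F 9 (V (F 4 L) (S L L)))))) (U (S (V (F 3 L) (S (F 1 L) (F 3 L))) (F 3 (S L (F 8 L)))) (F 3 (S (V (F 1 L) (S L (F 1 L))) (S (F 1 L) (F 9 L)))))) v4_32) (V (F 67 (T (S (V (F 1 L) (S L L)) (F 1 (S L (F 2 L)))) (S (V (F 4 L) (S L (F 4 L))) (F 4 L)))) (T (S (V (F 66 (U (T L L) (S L (F 16 L)))) (U (S (V (F 64 L) (F 80 L)) (F 64 L)) (S (F 80 L) (F 72 L)))) (V (F 65 (S (S L (F 16 L)) (F 4 L))) (F 72 (T (S L L) L)))) (S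 (V (F 65 (S L L)) (S (F 64 L) (F 65 L))) (F 73 (V L (T (S L L) L))))))) (F 9 (U (V (F 17 (S (T (F 4 (U (T L (S L L)) L)) (S L L)) (F 4 (S L L)))) (T (U (S (V L (T (S L L) L)) (V (F 18 L) (S L (F 1 L)))) (S (V (F 1 L) (S L L)) (T (F 1 L) L))) (U (S (V L L) (S L L)) (S (V (F 1 L) L) L)))) (V (F 19 (S L L)) (T (S (V (F 17 L) (T (S (F 1 L) (F 1 L)) (F 1 L))) (F 1 L)) (S (V (F 17 L) (F 1 L)) (F 1 L)))))))
noncomputable def v4_34 : Tr := (U (S (V (T (F 6 (V (T (F 34 (S L L)) (U (F 18 (S L L)) (F 34 (S (F 1 (S L L)) L)))) (S (T (F 18 L) (F 48 L)) (F 48 L)))) (F 11 (U (S (V (T (F 16 L) (F 8 L)) L) (V (S (F 8 L) (F 8 L)) L)) (S (V (S (F 16 L) (F 8 L)) (F 16 L)) (V (S (F 8 L) (F 8 L)) (F 8 L)))))) (F 11 (T (V (S (F 16 L) (F 16 L)) (S (F 16 L) (F 16 L))) (V (S L L) (S L L))))) (V (T (F 6 (U (V (S (F 10 L) (S (F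 10 L) (F 40 L))) (F 16 L)) (S (V (F 34 L) (F 48 L)) (V (F 40 (S L L)) (F 48 L))))) (F 24 (U (S (V (T (F 24 L) (F 32 L)) (F 48 (S L L))) (T (S (F 16 L) (F 32 L)) (S (F 32 L) (F 32 L)))) (F 48 (S (V (S L L) L) (V (S L L) (S L L))))))) (F 10 (T (V (F 16 L) (F 48 (S L L))) (V (S (F 32 L) (F 32 L)) (S (F 32 L) (F 32 L))))))) (F 3 (S (V (T (V (F 34 (S L L)) (F 48 (S (F 4 (V L L)) (S L L)))) (S (S (S (F 16 L) (F 16 L)) (F 16 L)) (V (F 24 (S L L)) (F 18 L)))) (T (F 48 (S (S L L) (S L L))) (S (F 16 L) (F 16 L)))) (V (T (S (V (F 34 L) (F 48 L)) (S (F 32 L) (V (F 40 L) (F 48 L)))) (S (V (F 24 (S L L)) (F 16 L)) (F 24 (V (S L L) (S L L))))) (T (F 48 (V (S L L) (S L L))) (S (F 16 L) (F 16 L)))))))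
noncomputable def v4_35 : Tr := (S (V (T (F 21 (V (S (V (U (S (F 8 L) (F 8 L)) (F 8 L)) (U (S (F 8 L) (F 8 L)) (F 8 L))) (V (U (S (F 8 L) (F 8 L)) (S (F 8 L) (F 8 L))) (S (S (F 8 L) (F 8 L)) (S (F 8 L) (F 8 L))))) (S (V (T L (S (F 8 L) (F 8 L))) L) (V (S (F 8 L) (F 8 L)) (S (F 8 L) (F 8 L)))))) (F 12 (U (S (F 40 (V (S (V (S L L) L) (T (S L L) L)) (S (S L L) L))) (V (T (F 8 L) (F 8 L)) (F 40 (S L L)))) (V (S (S (S (F 32 L) (F 40 L)) (F 40 (S L L))) (F 40 (V (S L L) L))) (F 40 (S (S L L) (S L L))))))) (F 21 (T (V (S L L) (S L L)) (S (S (S (F 8 L) (F 8 L)) (S (F 8 L) (F 8 L))) (S (S (F 8 L) (F 8 L)) (F 8 L)))))) (F 28 (V (T (V (S (U L (S (S (F 16 L) (F 16 L)) L)) (S L L)) (S (V (S (F 16 L) (F 16 L)) (S (F 16 L) (F 16 L))) (T L L))) (U (S (V L L) (S L L)) (S (V L (S (F 16 L) (F 16 L))) (S L L)))) (T (S (V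 (S (F 16 L) (F 16 L)) (F 16 L)) (V (S (F 16 L) (F 16 L)) (F 16 L))) (S (S (F 16 L) (F 16 L)) (S (F 16 L) (F 16 L)))))))
noncomputable def v4_36 : Tr := (V (T (F 104 v4_34) (F 1184 (U v4_35 (S (F 5 (V (V (S (T (F 24 (V L (S L L))) (S (F 16 L) (F 24 (T L L)))) (F 24 (T (U (S L L) L) (S (S L L) (S L L))))) (S (T (F 8 L) (F 24 (S (S L L) L))) (T (S (F 8 L) (F 24 L)) (F 24 (S L L))))) (V (T (S (F 8 L) (F 8 L)) (F 24 (S L L))) (S (F 8 L) (F 8 L))))) (F 17 (V (T (V (S (F 24 (U (S L L) (S L L))) (V (F 8 L) (F 24 (S L L)))) (F 24 (S (S L L) (S L L)))) (S (F 24 (V (T (S L L) L) (S L L))) (V (F 8 L) (F 24 (S L L))))) (S (T (F 16 L) (F 24 (S L L))) (F 24 (T (V L L) (S L L)))))))))) (F 1736 (T (U (S (V (T (F 3 (S L L)) (S (F 10 L) (F 2 L))) (F 11 L)) (V (S (F 2 L) (S (F 2 L) (F 2 L))) (F 10 L))) (S (F 10 (S L L))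 (V (S (F 2 L) (F 2 L)) (F 10 L)))) (U (F 10 (S (S L L) (S L (T L (F 4 L))))) (S (S (F 12 L) (F 10 L)) (F 10 (T (S L L) (F 4 (S L L)))))))))
noncomputable def v4_37 : Tr := (U (S (V (T (F 296 (U (F 24 (S (T (F 16 L) (F 8 L)) (T (F 16 L) (F 8 L)))) (F 3 (S (V (F 24 L) (F 48 L)) (V (F 10 L) (F 24 (S L L))))))) (F 1208 (T (V (S (S (F 4 L) (F 4 L)) (F 2 L)) (S (F 4 L) (F 4 L))) (V (S (F 4 L) (F 4 L)) (S (F 4 L) (F 4 L)))))) (F 232 (T (S (F 6 (S L L)) (T (F 6 L) (F 2 L))) (V (F 9 (S (S (F 16 L) (F 16 L)) L)) (F 3 (S L (S (F 8 L) (F 8 L)))))))) (V (F 56 (T (U (S (T (F 22 L) (F 13 L)) (F 7 L)) (F 7 (S L L))) (F 9 (V (F 16 L) (S (F 8 L) (F 16 L)))))) (F 168 (T (U (F 28 (V (S L L) (S L L))) (S (F 9 (S (F 32 L) (F 8 L))) (F 17 (V (F 16 L) (F 8 L))))) (F 25 (V (S L L) (S L L))))))) (F 1576 (S (V (T (F 9 (S (V (F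 8 L) (F 8 L)) (V (F 2 L) (F 8 L)))) (F 10 (S (V L (V (F 8 L) (F 8 L))) L))) (F 6 (T (S L L) (V (S L (S (F 8 L) (F 8 L))) L)))) (V (V (F 9 (S L (F 1 L))) (T (F 9 L) (F 10 L))) (T (V (S (F 6 L) (F 10 (S L L))) (F 6 (S L L))) (F 10 (V (S L L) (S (F 8 L) L))))))))
noncomputable def v4_38 : Tr := (V (T v4_37 (F 1208 (U (S (V (V (T (S (S (F 4 L) (F 4 L)) (F 4 L)) L) (T (S (F 4 L) (F 4 L)) (S (F 4 L) (F 4 L)))) (T (S (V (F 4 L) (F 5 L)) (S (F 4 L) (F 4 L))) (S (F 4 L) (F 4 L)))) (V (V (S L (F 32 L)) L) (T (S (S (F 4 L) (F 4 L)) (F 4 L)) (S (F 4 L) (F 36 L))))) (S (V (V (U L (F 1 L)) (S (F 5 (T (S L L) L)) (S (F 1 L) (F 1 L)))) (F 5 (T (S (V L L) (V L L)) (S (S L L) L)))) (V (S L (F 32 L)) (V L (S (F 5 (S L L)) (F 1 L)))))))) (F 1256 (T (U (S (V (V (S (F 1 L) (F 1 L)) (S (F 1 L) (F 1 L))) (F 1 L)) (V (T (S (F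 1 L) (F 1 L)) (V (F 4 L) (F 1 L))) (S (F 1 L) (F 1 L)))) (S (V (S (F 1 L) (S (F 1 L) (F 1 L))) (F 1 L)) (V (V (T (F 1 L) (F 5 (S L L))) (S (F 1 L) (F 1 L))) (S (F 1 L) (F 1 L))))) (U (S (F 5 (V (S (S L L) (S L L)) (F 4 L))) (V (T (F 5 (S L L)) (F 4 L)) (F 5 L))) (F 5 (S (V (S L (S L L)) (F 4 L)) (V (S (S L L) (S L L)) L)))))))
noncomputable def v4_39 : Tr := (S (U v4_36 (F 1544 (V (T (F 12 (S (V (U (V (T (F 34 L) (F 18 (S L L))) (F 18 (T (F 1 (S L L)) (S L L)))) (T (F 34 L) (F 18 (S L L)))) (U (T (F 48 (S (F 4 (S L L)) L)) (F 16 L)) (F 18 (S (F 1 L) L)))) (V (U (T (F 34 (S L L)) (S (F 16 L) (F 24 (S L L)))) (T (F 34 L) (S (F 18 L) (F 24 L)))) (S (S (F 16 L) (F 16 L)) (S (F 16 L) (F 16 L)))))) (F 10 (S (V (U (V (F 24 (S (T L (S L L)) (T L (S L L)))) (T (F 16 L) (F 24 (S L L)))) (S (T (F 18 L) (F 24 L))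 (F 24 (T L L)))) (U (T (F 16 L) (F 24 (S L L))) (F 16 L))) (V (U (V (S (F 24 (T L L)) (F 8 L)) (F 24 (S (T L L) (T L L)))) (S (F 24 (T L L)) (F 8 L))) (T (S (F 16 L) (S (F 16 L) (F 16 L))) (F 24 (U (S L L) (S L L)))))))) (F 6 (T (S (S (F 38 L) (F 20 L)) (V (F 16 L) (F 20 L))) (S (F 4 L) (V (F 16 L) (F 28 L)))))))) (U v4_38 (F 1576 (V (T (S (V (U (T (F 33 (S (F 8 L) (F 4 L))) (F 10 L)) (F 41 L)) (F 6 (U (S L (S L L)) L))) (V (F 9 (U (S (F 16 L) (F 1 L)) (S (F 18 L) (F 3 L)))) (U (S (V (F 10 L) (F 6 L)) (F 10 L)) (F 10 L)))) (F 10 (S (V (U (T (S L L) L) L) (U (T (S (S (F 8 L) (F 8 L)) (S (F 8 L) (F 8 L))) (S (F 8 L) (F 8 L))) (V L (S (F 8 L) (F 8 L))))) (V (S (S L L) (T (F 1 L) (F 1 L))) (V L (S L (F 1 L))))))) (F 6 (T (S (U (V (S L L) (F 4 L)) L) (V (U (T L L) L) (S L L))) (S (V (T L (F 8 L)) (F 4 L))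 (V (U (S (F 8 L) (F 8 L)) (F 8 L)) (F 8 L)))))))))
noncomputable def v4_40 : Tr := (V (T (U (F 12 (S (V (T (U (S (V (S (F 32 L) (F 40 L)) (F 40 (S L L))) (V (F 8 L) (F 40 L))) (F 40 (S (V (S L L) L) (V (S L L) L)))) (S (S (F 32 L) (F 32 L)) (F 40 (V (S L L) L)))) (F 40 (S (T L (F 2 L)) L))) (V (T (S (S (F 8 L) (F 8 L)) (S (F 8 L) (F 8 L))) (S (F 8 L) (F 8 L))) (F 40 (S L (S L L)))))) (S (F 5 (V (T (S (V (F 16 L) (F 24 (S L L))) (F 24 (V (S L L) L))) (S (F 16 L) (F 24 (S L L)))) (S (S (F 12 L) (F 24 L)) (F 24 L)))) (F 25 (V (S (T (V (S (F 8 L) (F 8 L)) (F 8 L)) (S (F 8 L) (F 8 L))) (V L (S (F 8 L) (F 8 L)))) (S (F 8 L) (F 8 L)))))) (F 12 (U (S (V (S (F 32 L) (S (F 32 L) (F 40 (S L L)))) (F 44 (S L L))) (V (T (F 8 L) (F 40 L)) (F 44 (S L L)))) (S (V (S (F 32 L) (F 40 (S L L))) (F 44 (S L L))) (F 40 (S (T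 L (F 2 L)) L)))))) (F 61 (T (S (S L L) (S L L)) (S L L))))
noncomputable def v4_41 : Tr := (V (T (S v4_30 (F 5915 v4_31)) (F 4955 v4_33)) (F 4121 (T v4_39 (F 1168 (S (U v4_40 (V (T (S (F 5 (V (U (S (S (F 16 L) (F 16 L)) (F 24 (T (S L L) L))) (S (F 16 L) (F 24 (S L L)))) (S (F 12 L) (F 24 L)))) (F 25 (V (U (S (V L (F 8 L)) L) L) (S (S (F 8 L) (F 8 L)) (S (F 8 L) (F 8 L)))))) (F 13 (S (V (S L L) (F 12 (S L L))) (S (T (F 8 L) (F 12 L)) (F 8 L))))) (F 53 (T (S L (F 4 (S L L))) (F 4 (S L L)))))) (F 24 (U (V (T (U (S (V (V L (S (F 8 L) (F 9 L))) (S (F 8 L) (F 8 L))) (V (S (F 1 L) (F 9 L)) (F 8 L))) (S (V L (F 40 (S L L))) (V (F 1 L) (F 8 L)))) (U (S (S (F 8 L) (F 9 L)) (F 9 (S L L))) (S (F 33 (V L (F 2 L))) (F 1 L)))) (F 44 (T (U (S L (S L L)) (S L L)) (S L (F 4 L))))) (V (T (S (V (T (F 32 L) (F 33 L)) (F 40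 (S L L))) (F 33 (V (S L L) L))) (F 33 (S (V L (F 2 L)) L))) (F 44 (T (S (S L L) L) (F 4 (S L L))))))))))))
noncomputable def treeV4 : Tr := (F 0x3ffffffffffffffffffffffffffffffffffffffffffffbffffffebffffffffffffffffffffffffffffffffaffff7f73ffeeffffffb7ffffffffffffffffffffffb7ff (S v4_24 v4_41))

theorem pV4 : chkV par treeV4 64 64 160 32 320 64 81919 109226 Lc = true := by decide +kernel

noncomputable def v5_0 : Tr := (U (S (V (T (U (S (K 4) (F 128 L)) (S (F 130 L) (S (F 130 L) (F 132 L)))) (F 130 (U (K 5) (S L (S (F 2 L) (F 16 L)))))) (T (U (S (F 34 (S L L)) (V (F 2 L) (F 34 (S (F 2 L) L)))) (S (F 34 (S L L)) (V (F 2 L) (F 34 L)))) (F 34 (U (S (S L L) (S L (K 5))) (S L L))))) (V (T (U (S (V (F 132 L) (F 128 L)) (F 132 (S L L))) (F 132 (S (S L L) (S L L)))) (F 132 (U (S (S (K 5) L) (S L (F 1 L))) (S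 L L)))) (T (U (S (T L (K 0)) (V (S (F 128 L) (F 132 L)) (K 0))) (S (S (F 2 L) (F 2 L)) L)) (U (K 0) (S (F 34 L) (F 196 (S L L))))))) (S (V (T (S (F 2 L) (V (F 130 L) (F 2 L))) (F 130 (S L (V (F 16 L) L)))) (T (U (S (F 34 (S L L)) (S (F 34 L) (F 2 L))) (S (F 34 (S L L)) (F 2 L))) (F 34 (S (S L L) (S L L))))) (V (F 132 (T (S (S L L) (S L L)) (S L L))) (T (U (S (F 2 L) (F 4 L)) (S (F 2 L) (F 4 L))) (U (S (F 34 L) (F 196 (S L L))) (F 6 (S (F 4 L) (F 2 L))))))))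
noncomputable def v5_1 : Tr := (U (S (F 618 (V (T (U (S (S (K 1) L) (S L L)) (S L (S (F 16 L) L))) (U (S (S (F 16 L) (F 16 L)) (S (F 16 L) (F 16 L))) (S (S (F 16 L) (F 16 L)) (S (F 16 L) (F 16 L))))) (T (U (K 5) (S (K 5) (F 16 L))) (S (S (F 16 L) (F 16 L)) (S (F 16 L) (F 16 L)))))) (V (T (U (F 104 (S (V (F 66 (S (F 2 L) L)) (F 34 L)) (V (S (F 34 L) (F 32 L)) (F 34 (S (F 2 L) L))))) (F 608 (S (S (F 80 L) (F 48 L)) (V (F 32 L) (F 48 L))))) (F 620 (U (S (S (F 16 L) L) (S L (K 0))) (S L L)))) (F 620 (T (U (S L (S (F 16 L) L)) (S L L)) (S L (S L L)))))) (S (F 586 (V (T (U (S (F 8 L) (F 8 L)) (S (F 40 L) (F 8 L))) (F 40 (U (S L (S L L)) (S L L)))) (T (S (F 33 L) (F 40 L)) (S (F 33 L) (F 40 L))))) (F 608 (V (T (U (S (S (F 80 L) (F 48 L)) (V (F 32 L) (F 48 L))) (S (S (F 80 L) (F 48 L)) (F 48 (S L L)))) (F 48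 (S (S (F 2 L) L) L))) (F 48 (T (S L (S L L)) (S L L)))))))
noncomputable def v5_2 : Tr := (V (T (F 98 v5_0) (U (F 98 (S (F 34 (V (T (U (K 5) (S (F 1 L) (F 17 L))) (F 27 (S (K 1) (K 0)))) (T (S (S L (F 1 L)) (S (F 2 L) (F 2 L))) (S (F 2 L) (F 3 L))))) (V (F 132 (T (S L (S (F 1 L) (F 1 L))) (S (F 3 L) (F 1 L)))) (F 224 (T (U (K 4) (S (F 8 L) (F 4 L))) (K 4)))))) (S (F 610 (V (F 66 (S (S (F 2 L) (F 2 L)) (T L (F 3 L)))) (T (S (F 16 L) (F 48 L)) (F 112 (S L (F 4 L)))))) (F 356 (V (F 96 (S (S (F 8 L) L) (S L L))) (F 18 (S (T (S (F 2 L) (F 2 L)) (F 3 L)) (T (S (F 1 L) (F 1 L)) (F 3 L))))))))) (T v5_1 (F 588 (U (S (F 40 (V (T (U (S L (S L L)) (S L L)) (S (S L L) (S L L))) (T (S (S L L) (S L L)) (U (S L L) (S L L))))) (V (T (S (F 8 L) (F 8 L)) (F 40 (S L (K 2)))) (T (S (F 8 L) (F 8 L)) (S (F 8 L) (K 2))))) (S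 (V (F 40 (T (S L L) (S L L))) (S (F 32 L) (F 40 (S L L)))) (V (S (F 40 (S L L)) (F 10 L)) (S (F 40 (S L L)) (F 8 L))))))))
noncomputable def v5_3 : Tr := (U (S (V (F 355 (T (U (S (S L L) (S (F 32 L) (F 32 L))) (S (S (F 32 L) (F 32 L)) (S (F 32 L) (F 32 L)))) (U (S (S (F 32 L) (F 32 L)) (S (F 32 L) (F 32 L))) (S (S (F 32 L) (F 32 L)) (S (F 32 L) (F 32 L)))))) (T (U (S (V (F 355 (S L (F 32 L))) (F 100 L)) (F 357 (V L (S L L)))) (F 352 (S (V (F 192 L) (F 32 L)) (F 160 (V L L))))) (F 357 (U (S (S (K 0) L) (S L L)) (S L L))))) (F 357 (V (T (U (K 1) (S (F 32 L) (F 33 (S L (K 0))))) (U (K 1) (S (F 32 L) (F 32 L)))) (T (U (S (S L L) (S L (K 1))) (S (S L L) L)) (U (S (S L (F 32 L)) L) (S L L)))))) (F 289 (S (V (F 136 (T (U (S L (S (F 1 L) (F 1 L))) (S L (F 1 L))) (U (S (F 1 L) (F 1 L)) (S (F 1 L) (F 1 L))))) (T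 (U (S (T (F 8 L) (F 72 L)) (F 72 (S L L))) (F 72 (S (S L L) (S L L)))) (F 72 (S (S L L) (S L L))))) (V (F 192 (T (S (S (F 4 L) (F 4 L)) (F 32 L)) (S (F 4 L) (F 32 L)))) (F 72 (T (S (V L L) (S L (F 32 L))) (S (S L L) L)))))))
noncomputable def v5_4 : Tr := (T (U (S (V (T (U (S (V (K 0) (F 32 L)) (S L (F 4 L))) (S (S (F 32 L) (F 32 L)) (S (F 4 L) (F 4 L)))) (U (K 0) (S (F 34 L) (F 36 L)))) (F 34 (T (U (S (S L L) (S L L)) (S L L)) (S (S L L) L)))) (V (T (U (F 132 (S (V L L) (S L L))) (S (S (F 4 L) (F 132 L)) (F 132 (S L L)))) (F 132 (U (F 55 (S (K 0) (K 0))) (S L (F 2 L))))) (F 36 (T (S (S L L) (S L (F 4 L))) L)))) (S (V (T (U (S (T (F 2 L) (F 34 L)) (F 4 L)) (S (S (F 34 L) (F 6 L)) (F 4 L))) (F 36 (S (S (F 16 L) (F 16 L)) L))) (F 34 (T (S (S L L) (S L L)) (S L (F 16 L))))) (V (T (U (S (F 4 L) (F 132 (S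 L (F 4 L)))) (S (F 4 L) (F 132 (S L L)))) (F 132 (S L L))) (F 36 (S (T L (F 16 L)) L))))) (F 36 (U (F 17 (S (V (U (K 1) (S (S L (K 1)) (K 1))) (K 1)) (K 1))) (S (V (T (S (F 16 L) (F 1 L)) (F 17 L)) (S (F 16 L) (F 16 L))) (V (S (F 1 L) (S (F 1 L) (F 1 L))) (F 17 (S L (K 1))))))))
noncomputable def v5_5 : Tr := (T (U (S (V (S (T (F 2 L) (F 6 L)) (F 6 (T (S L L) (S (F 1 L) (F 1 L))))) (S (F 34 (T (V L L) L)) (T (S (F 2 L) (F 2 L)) (F 34 L)))) (V (T (S (F 6 (V (F 1 L) L)) (F 132 L)) (F 132 (U (S (F 16 L) (F 1 L)) (S (F 16 L) (F 1 L))))) (T (U (S (F 2 L) (S (F 6 L) (F 68 L))) (F 6 (S (S L L) (S L L)))) (F 6 (S (S (F 4 L) (F 2 L)) (S (F 2 L) (F 2 L))))))) (S (V (F 6 (S (S L L) (T L (S (F 1 L) (F 1 L))))) (T (S (F 34 L) (F 2 L)) (V (F 66 (S (F 2 L) (F 16 L))) (F 34 L)))) (F 6 (V (T (S (S (F 1 L) (F 1 L)) (S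 (F 1 L) (F 1 L))) (S (F 1 L) (S (F 1 L) (F 3 L)))) (S (T (S L L) (S (F 2 L) (F 2 L))) (T (S L L) (S (F 2 L) (F 2 L)))))))) (U (S (V (F 134 (S (S (F 2 L) (F 2 L)) (T (F 1 L) (F 3 L)))) (F 98 (S (S L L) (S (F 8 L) (F 8 L))))) (F 68 (V (S (F 17 (S L L)) (S (F 1 L) (F 1 L))) (S (F 18 (T L (F 8 L))) (F 17 (T L (F 8 L))))))) (F 6 (S (V (T (S (F 1 L) (F 3 L)) (F 7 (S L L))) (S (T (F 4 L) (F 6 L)) (F 6 (S L L)))) (V (F 3 (S (S L L) (T L L))) (S (F 6 (S L L)) (F 3 (T L (F 8 L)))))))))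
noncomputable def v5_6 : Tr := (V (T (U (S (F 352 (V (F 192 (T (S L (S (F 1 L) (F 1 L))) (S (S (F 1 L) (F 1 L)) (F 1 L)))) (T (U (S (F 32 L) (F 160 (S L L))) (S (S (F 96 L) (F 160 L)) (F 160 (S L L)))) (F 160 (S L L))))) (F 293 (V (S (S (F 64 L) (F 65 L)) (F 65 (S L L))) (S (T (S (F 8 L) (F 8 L)) (F 8 L)) (S (F 8 L) (F 8 L)))))) (F 292 (S (V (F 192 (T (S (F 4 L) (F 32 L)) (S (F 4 L) (F 32 L)))) (T (U (S (S (F 10 L) (F 72 L)) (F 136 L)) (S (F 74 (S L L)) (F 136 L))) (F 136 (S (S (F 16 L) (F 16 L)) L)))) (V (F 193 (S (S L L) L)) (S (F 136 (S L L)) (F 129 (S L L))))))) (F 293 (U (S (V (F 72 (S (S L L) (T L L))) (S (F 10 (S (F 2 L) L)) (F 8 L))) (V (S (F 64 L) (F 1 L)) (S (S (F 8 L) (F 8 L)) (S (F 8 L) (F 8 L))))) (S (V (S (F 72 L) (F 64 L)) (F 10 (S (S (F 1 L) (F 1 L)) L))) (V (V (F 65 L) (F 1 L)) (S (F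 8 L) (F 1 L))))))) (F 100 (T (U (S (V (T (S (F 6 (S L (S L L))) (S (F 4 L) (F 4 L))) (F 6 (S (S (F 4 L) (F 4 L)) L))) (F 34 (S (T L (F 16 L)) (T (S (F 16 L) (F 16 L)) (F 16 L))))) (V (S (T (S (F 4 L) (F 4 L)) (F 132 L)) (V (F 132 (S L L)) (F 4 L))) (F 36 (T (S (S (F 16 L) (F 16 L)) L) (S (F 16 L) (F 16 L)))))) (S (F 6 (V (S (T (S L L) (F 4 L)) (S (S L L) (S L L))) (S (S (F 4 L) (F 4 L)) (T (S (F 4 L) (F 4 L)) (F 4 L))))) (V (S (T (F 4 L) (F 6 L)) (F 132 (T L L))) (F 6 (S (V L (F 4 L)) (T L (F 4 L))))))) (U (F 36 (S (S (S (F 16 L) (F 16 L)) (T (F 16 L) (F 17 L))) (S (T (V (F 1 L) (F 17 L)) (F 17 L)) (V (S (F 1 L) (F 1 L)) (F 17 L))))) (S (F 38 (S (S L L) (T L (F 1 L)))) (F 132 (S (T (V (F 16 L) (F 18 L)) (F 18 L)) (V (S (F 2 L) (F 2 L)) (F 18 L)))))))))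
noncomputable def v5_7 : Tr := (U (S v5_2 (V (T v5_3 (F 293 (U (S (V (T (F 72 (U (S (S L L) (S L L)) (S L L))) (S (F 72 (S L L)) (F 8 L))) (T (S (F 40 (S L L)) (F 8 L)) (F 40 (S L (K 2))))) (V (T (S (F 8 L) (F 8 L)) (S (S (F 72 L) (F 8 L)) (F 8 L))) (T (S (S (F 40 L) (F 8 L)) (F 8 L)) (K 2)))) (S (V (T (S (F 72 (S L L)) (F 8 L)) (S (F 72 L) (F 8 L))) (S (F 40 L) (F 8 L))) (V (S (S (F 8 L) (F 8 L)) (F 1 L)) (S (S (F 8 L) (F 8 L)) (S (F 8 L) (F 8 L)))))))) (F 100 v5_4))) (S (V (F 98 v5_5) (T (U (F 584 (S (V (F 72 (T (S L (S L L)) (S (F 2 L) (S (F 2 L) (F 2 L))))) (F 97 (S (S L L) (S L L)))) (V (T (U (S (S (F 72 L) (F 40 L)) (F 40 (S L L))) (F 40 (S (S (F 2 L) L) L))) (F 40 (U (S (F 2 L) (F 16 L)) (S (F 2 L) (F 16 L))))) (S (S (F 96 L) (F 40 L)) (F 40 (S L L)))))) (S (F 586 (V (T (S (F 33 L) (F 8 L)) (S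 (F 33 L) (F 40 L))) (F 33 (S L L)))) (F 580 (V (T (U (S (F 104 (S L L)) (F 10 L)) (S (F 104 (S L L)) (F 10 L))) (F 40 (S (T (F 2 L) (F 18 L)) (F 16 L)))) (T (S (F 97 L) (F 42 L)) (F 104 (S (F 16 L) (F 8 L)))))))) (F 588 (U (S (V (F 40 (S (S L L) (S L L))) (S (F 33 L) (F 40 L))) (V (S (F 40 (T L (F 8 L))) (F 10 L)) (S (F 40 L) (F 10 L)))) (S (F 34 (V (S L L) (S (F 16 L) (F 16 L)))) (S (F 34 (V (S (F 4 L) (F 4 L)) L)) (F 10 (S L L)))))))) v5_6))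
noncomputable def v5_8 : Tr := (V (F 215 (T (U (S (U (K 0) (S (S L L) (K 0))) (U (K 0) (S (K 0) (S L (K 1))))) (S (S (S L L) L) (S L (S L L)))) (U (S (S L (K 1)) (K 1)) (S L L)))) (T (F 134 (U (S (V (S (T (S (F 8 L) (F 8 L)) (F 8 L)) (F 8 L)) (T (U (S (S (F 8 L) (F 8 L)) (S (F 8 L) (K 2))) (S (F 8 L) (F 8 L))) (U (S (S L (F 8 L)) (K 2)) (S L (F 8 L))))) (K 2)) (S (V (S (S (F 8 L) (F 10 L)) (F 10 L)) (T (S (F 8 L) (F 8 L)) (S L (F 8 L)))) (V (F 42 (S L L)) (S (S (F 8 L) (F 10 L)) (F 10 (S L (K 2)))))))) (U (S (V (F 150 (T (S L (K 2)) (F 18 (U (K 1) (S (S L (K 1)) (K 1)))))) (T (U (S (V (F 146 L) (F 134 (S L (K 2)))) (K 5)) (F 134 (S (S L L) (F 8 L)))) (U (S (S (F 4 L) (K 5)) (K 5)) (F 134 (S (S L L) (K 2)))))) (K 5)) (S (V (F 214 (S (S L (F 8 L)) (F 8 L))) (T (F 134 (U (S L (F 8 L)) (S (F 2 L) (F 10 L))))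 (F 196 (S (S L (F 16 L)) (F 16 L))))) (F 215 (S (U (K 1) (T L L)) (K 1)))))))
noncomputable def v5_9 : Tr := (S (F 294 (V (F 42 (T (U (S (S L L) (S L (S L L))) (S (S L L) (S L (S L L)))) (S (S L L) (U L L)))) (T (U (S (V (S (F 2 L) (F 10 L)) (S L (F 2 L))) (S (V (F 42 L) (F 2 L)) (F 10 (T L (F 1 L))))) (S (S (S (F 2 L) (F 2 L)) (F 2 L)) (V (F 42 (S L L)) (F 2 L)))) (U (S (V (F 34 (S L (F 2 L))) (S (S (F 2 L) (F 2 L)) (F 2 L))) (F 34 (V (F 2 L) (S L (F 2 (S L L)))))) (S (V (F 34 L) (F 2 L)) (F 34 (V (F 2 L) (S L L)))))))) (F 145 (V (T (U (S (V (S (F 104 (S (F 4 L) L)) (F 64 L)) (F 42 (S (F 1 L) L))) (V L (V (F 8 L) (F 40 (S (F 8 L) L))))) (S (V (F 66 (S (F 1 L) L)) (F 42 (S (F 1 L) L))) (V (F 65 (S L L)) (F 34 (S L L))))) (U (S (F 40 (S (F 9 (T (S L L) (F 5 (S (K 0) (K 0))))) (T (V L (K 2)) (K 2)))) (V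 (T (F 32 L) (K 2)) (K 2))) (S (F 98 (V (S L (T L L)) (F 2 (S L (S L L))))) (V (S (F 34 (T L (F 1 L))) (F 49 L)) (F 34 L))))) (F 42 (T (U (S (S L L) (S L (K 2))) (S (S (T L (F 1 L)) L) (S L L))) (F 1 (U (S (S L (K 1)) (K 1)) (S (S L L) (S L (K 1))))))))))
noncomputable def v5_10 : Tr := (U (S (V (T (U (F 148 (S (K 5) (V (S (K 5) (S L L)) (K 5)))) (S (F 390 (V (S (S L L) (S L L)) (K 4))) (V (S (F 388 L) (F 148 L)) (F 388 (S (F 16 L) (F 8 L)))))) (U (S (F 134 (V (T (K 5) (V (S (F 1 L) (F 8 L)) (K 5))) (K 5))) (F 148 (V (T (S L L) (S (S (F 16 L) (F 16 L)) (K 2))) (F 27 (T (K 0) (S (K 0) (K 1))))))) (S (F 390 (V (S (S L L) (S L L)) (S L L))) (V (S (F 134 L) (F 148 L)) (F 390 (S L L)))))) (F 462 (T (K 2) (U (K 2) (S (K 2) (V (S L L) L)))))) (V (T (U (F 156 (S (V (T (S L L) (S L (K 2))) (S (K 4) L)) (F 27 (V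 (S (S (K 0) (K 0)) (K 0)) (K 0))))) (S (V (F 148 (S L L)) (F 140 (S (F 1 L) (F 10 L)))) (F 212 (V (S L (S (F 4 L) (F 4 L))) (F 4 L))))) (F 148 (U (K 2) (S (S L (T (F 2 L) (K 2))) (K 2))))) (F 460 (T (U (F 6 (S (K 0) (K 1))) (S (S L L) (F 2 (S L (K 2))))) (U (F 6 (S (V (K 1) (K 0)) (K 1))) (S (V (S (F 4 (S L L)) L) (F 4 L)) (K 0))))))) (S (V (T (F 388 (U (S (S (F 16 L) (S (F 16 L) (F 16 L))) (T L (F 16 L))) (S (F 17 (S L L)) (V (S (F 17 L) (F 1 L)) (F 25 L))))) (F 134 (U (S (S (F 1 L) (S (F 1 L) (F 1 L))) (V L (F 3 (S (F 2 L) L)))) (F 3 (S (S L L) (V (S L L) (F 2 L))))))) (F 462 (S L (T L (S L L))))) (F 196 (V (T (U (S (V (S (F 4 L) (F 4 L)) (F 9 L)) (V (S (F 4 L) (F 4 L)) (F 12 L))) (S (S (F 1 L) (F 5 (S L L))) (S (F 5 (S L L)) (F 4 L)))) (U (S (V (S (F 4 L) (F 4 L)) (F 1 L)) (S (F 4 L) (S (F 4 L) (F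 12 L)))) (S (S (F 1 L) (F 4 L)) (S (F 4 L) (F 4 L))))) (F 9 (T (S (F 2 (S L L)) L) (U (S (F 2 (S L L)) L) (S (F 2 L) L))))))))
noncomputable def v5_11 : Tr := (U (S (V (T (U (S (T (S (F 386 L) (F 134 L)) (F 2 L)) (F 479 (T (K 0) (K 0)))) (S (S (F 386 L) (F 134 L)) (F 134 (V L L)))) (U (S (V (S (F 130 L) (F 130 L)) (F 2 L)) (K 5)) (S (S (F 258 L) (F 66 L)) (F 2 L)))) (T (U (S (F 386 (V (S L L) L)) (S (F 258 L) (F 258 L))) (F 386 (S L (S (F 1 L) L)))) (U (S (V (F 258 L) (F 386 L)) (V (F 2 L) (F 322 (S L L)))) (F 322 (S (S (F 1 L) (F 1 L)) (S L L)))))) (F 322 (V (K 1) (T (U (K 1) (S (S L (K 1)) (K 1))) (U (K 1) (S (V (K 1) L) (K 1))))))) (S (V (T (U (S (F 386 L) (F 134 L)) (F 134 (S (F 1 L) (F 2 L)))) (U (S (F 194 (S (F 1 L) L)) (F 66 L)) (F 194 (S (F 1 L) L)))) (F 450 (T (S L L) (S L (S L L))))) (V (F 70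 (T (U (S (S (F 2 L) (K 2)) (K 2)) (S (F 2 L) (K 2))) (U (S (S L (K 2)) (K 2)) (S (S (F 2 L) (F 2 L)) (K 2))))) (T (F 194 (U (S (S (F 1 L) (F 16 L)) (K 1)) (S (F 1 L) (F 16 L)))) (U (F 322 (S (S (F 1 L) L) (K 1))) (F 70 (S (F 1 L) L)))))))
noncomputable def v5_12 : Tr := (V (T (U (S (V (F 134 (T (U (S (S (K 5) L) L) (S (S (F 1 L) (F 1 L)) L)) (U (S (V L (S (K 5) (F 1 L))) (T L (K 2))) (S (S (F 1 L) (F 1 L)) (S L L))))) (F 386 (T (U (K 5) (S (K 5) (F 16 L))) (U (S (K 5) (T (K 5) (S (K 5) L))) (S (F 16 L) (S (F 16 L) (F 16 L))))))) (F 134 (V (T (U (K 2) (S L (K 2))) (K 2)) (T (U (K 2) (S (S (F 1 L) (F 1 L)) (K 2))) (U (K 2) (S (S (F 1 L) (K 2)) (K 2))))))) (F 134 (S (V (T (S (F 1 L) (F 1 L)) (S (F 1 L) L)) (S (F 1 L) (S (F 1 L) (F 1 L)))) (V (T (S (F 8 L) (F 8 L)) (S L (S (F 2 L) (K 2)))) (T (S (F 1 L) (F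 2 L)) (S (F 3 (S L L)) (S (F 2 L) (F 2 L)))))))) v5_11) (F 322 (T (U (S (K 5) (V (F 17 (T (U (K 0) (S (K 0) L)) (U (F 6 (S (K 1) (K 0))) (S L (S L (K 3)))))) (F 9 (T (K 0) (S (K 0) L))))) (F 17 (S (V (S (F 2 L) L) (K 2)) (V (S L L) (F 2 (S L L)))))) (U (S (V (T (S (K 2) (S (F 1 L) (F 1 L))) (S (K 2) (S (F 1 L) L))) (K 2)) (V (T (U (S (S L (K 1)) (K 1)) (S (F 1 L) L)) (U (S (S L L) (K 1)) (S L (S L (K 1))))) (T (S (K 2) (S (F 9 L) (F 8 L))) (F 9 (U (F 3 (S (K 1) (S (K 1) (K 0)))) (S (K 2) L)))))) (S (S (F 1 L) (T (F 1 L) (F 1 L))) (V (S (S (F 1 L) (F 1 L)) (S (F 1 L) L)) (F 9 (S L L))))))))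
noncomputable def v5_13 : Tr := (S (F 194 (V (T (U (S (F 17 (V (S L (S L L)) (S L L))) (V (S (F 16 L) (F 16 L)) (F 17 (S L (S L L))))) (S (F 17 (S L (S L L))) (V (S (F 17 L) (F 16 L)) (F 17 L)))) (U (S (V (S (F 1 L) (S (F 16 L) (F 16 L))) (S (F 17 L) (F 1 L))) (V (S (S (F 16 L) (F 16 L)) (S (F 16 L) (F 16 L))) (S (F 1 L) (S (F 16 L) (F 16 L))))) (S (V (F 17 (S L L)) (F 1 L)) (V (S (F 17 L) (F 16 L)) (F 17 (S L L)))))) (T (F 25 (U (S (S L L) (S L L)) (S L L))) (U (S (S (F 9 L) (F 1 L)) (S (F 1 L) (F 1 L))) (S (F 17 L) (F 1 L)))))) (V (F 196 (T (U (S (V (S (F 16 L) (F 4 L)) (S (F 16 L) (F 16 L))) (K 1)) (S (V (F 16 L) (S (F 17 L) (F 16 L))) (S (F 4 L) (F 36 L)))) (U (S (V (S (F 16 L) (K 1)) (S (S (F 16 L) (F 16 L)) (F 16 L))) (K 1)) (S (S (V (F 48 (S L L)) (F 16 L)) (V (F 48 L) (F 16 L))) (F 48 (T (V (K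 2) L) (K 2))))))) (T (F 198 (U (S (V (S (F 9 L) (F 1 L)) (F 9 L)) (S (V (S (F 8 L) (K 1)) (F 9 L)) (K 1))) (S (F 9 (S L L)) (V (S (F 1 L) (F 8 L)) (F 9 L))))) (U (F 322 (S (V (S (F 17 (S L L)) (T (F 17 L) (F 16 L))) (F 9 (S (F 2 L) L))) (F 24 (V (K 2) (S (S L (K 2)) (K 2)))))) (F 198 (S (V (F 1 L) (F 9 L)) (V (S (F 1 L) (S (F 8 L) (K 1))) (F 9 (S L L)))))))))
noncomputable def v5_14 : Tr := (V (T (U (F 81 (S (V (T (K 4) (S (F 1 L) (K 4))) (T (S L (K 1)) (S L (K 1)))) (F 45 (V (K 0) (F 1 (S (K 0) (K 0))))))) (S (V (F 321 (T (S (F 32 L) (F 40 L)) (F 8 L))) (S (F 81 (S L (F 1 L))) (F 329 L))) (F 329 (V (S (F 16 L) (F 16 L)) (S L (F 16 L)))))) (U (S (V (F 329 (T (S L (F 16 L)) (S L (F 4 L)))) (F 81 (T (S L (F 8 L)) (K 2)))) (F 265 (V (S (F 2 L) (F 32 L)) (S (F 2 L) (K 0))))) (S (V (F 329 (S L (F 16 L))) (S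 (F 81 L) (F 329 L))) (F 329 (V L L))))) (T (U (S (V (F 81 (T (U (S L (K 1)) (S L (F 8 L))) (S L (F 8 L)))) (F 92 (T (U (F 27 (S (K 0) (K 0))) (S L (F 16 L))) (K 2)))) (F 89 (V (T (S L (K 1)) (S (F 1 L) (K 1))) (S L (F 8 L))))) (S (V (F 81 (T (S L (F 8 L)) (S L (F 9 L)))) (F 88 (T (S L (F 32 L)) (F 40 (S L L))))) (F 89 (V (T (S (F 1 L) (F 1 L)) (F 1 L)) (S L (F 1 L)))))) (F 81 (U (F 59 (S (K 0) (K 0))) (S (V (S (S (F 16 L) (F 16 L)) (F 8 L)) (K 2)) (F 9 (V (S L (F 2 L)) (K 2))))))))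
noncomputable def v5_15 : Tr := (S (V (F 321 (T (U (S (V (S (F 32 L) (F 40 L)) (S L (F 8 L))) (V (F 40 L) (F 8 L))) (S (V (F 32 L) L) (F 40 (V L L)))) (U (S (V (F 8 L) (S L (F 8 L))) (S (F 8 L) (F 8 L))) (S (V (F 40 L) L) (S (F 8 L) (F 40 L)))))) (T (U (S (V (F 81 (T (S L (F 1 L)) L)) (S (F 84 L) (F 89 (S L L)))) (F 73 (V (S (F 1 L) (F 9 L)) (S (F 8 L) (F 9 L))))) (S (V (V (F 321 L) (S (F 81 L) (F 329 L))) (S (F 208 L) (F 89 L))) (F 329 (V L (V L (F 4 L)))))) (U (S (F 81 (S (S (F 16 L) (F 16 L)) (V (F 8 L) (F 24 L)))) (F 73 (V (F 1 L) (F 24 L)))) (S (V (S (F 85 L) (F 329 L)) (F 85 (S (F 2 L) (F 8 L)))) (F 329 (V L (F 12 (S L L)))))))) (F 265 (V (T (U (V (F 36 L) (F 34 (S L L))) (V (F 35 L) (F 2 L))) (U (S (F 34 (S L L)) (F 32 L)) (F 34 (S L L)))) (T (U (S (S (F 2 L) (F 2 L)) (S (F 10 L) (F 2 L))) (S (S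 (F 2 L) (F 2 L)) (F 2 L))) (U (S (F 2 L) (F 18 L)) (S (F 2 L) (F 18 L)))))))
noncomputable def v5_16 : Tr := (T (U (S v5_14 (F 265 (V (T (U (S (V (K 4) L) (K 4)) (S (V (F 36 L) (F 2 L)) (S (F 32 L) (F 36 L)))) (U (S (V L (S (K 0) (F 2 L))) (V (F 36 L) L)) (S (F 34 (V L L)) (S (F 32 L) (F 32 L))))) (T (U (S (F 10 (V (K 3) (S L (K 3)))) (V L (K 0))) (S (F 10 (V L L)) (S (F 2 L) L))) (U (F 10 (S (F 11 (S (K 0) (K 0))) (S L (K 3)))) (S (F 10 (T L (F 2 L))) (F 2 L))))))) v5_15) (U (F 265 (S (V (T (U (F 59 (S (K 0) (S (K 0) (K 0)))) (S (V (T (F 2 L) (F 2 L)) (K 2)) (V (F 2 L) (F 2 L)))) (F 59 (U (K 0) (S (K 0) (K 0))))) (K 2)) (V (T (U (S (V L (K 2)) (V L L)) (S (S (F 2 L) (F 2 L)) (S (F 2 L) (F 2 L)))) (F 18 (U (F 11 (S (K 0) (K 0))) (S (K 2) (S (K 2) L))))) (F 59 (T (U (K 0) (S (K 0) (K 0))) (K 0)))))) (S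 (V (F 73 (T (U (S (V (F 1 L) (S L (F 1 L))) (S (F 1 L) (F 33 L))) (S (V (F 1 L) (F 1 L)) (F 1 L))) (F 17 (U (F 11 (S (S (K 0) (K 0)) (S (K 0) (K 0)))) (S (V L (T L (K 2))) L))))) (F 69 (T (U (F 59 (S (S (K 0) (K 0)) (K 0))) (S (S (F 10 L) (V (F 17 L) (F 26 L))) (F 17 (V L (F 11 (S (K 0) (K 0))))))) (F 59 (U (K 0) (S (K 0) (K 0))))))) (F 329 (V (T (S (S L (F 16 L)) L) (S (S (F 8 L) (F 9 L)) (F 8 L))) (T (S (S (F 8 L) (F 8 L)) (S (F 8 L) (F 8 L))) (F 29 (S (K 0) (K 0)))))))))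
noncomputable def v5_17 : Tr := (S (V (T (F 6156 v5_7) (U (S (F 9802 v5_8) (F 23708 (V (T (U (F 111 (S (V (T (S (K 0) (K 0)) (K 0)) (K 0)) (K 0))) (S (V (S (F 11 (S L L)) (S (F 9 L) (F 8 L))) (F 42 (S (F 8 L) L))) (V (S (S (F 8 L) (F 8 L)) (F 4 L)) (F 111 (S (K 0) (K 0)))))) (F 111 (U (K 0) (S (K 0) (K 0))))) (F 111 (T (U (K 0) (S (S (K 0) (K 0)) (K 0))) (K 0)))))) (F 7180 v5_9))) (F 3658 (T v5_10 (U (S v5_12 (F 322 (V (F 61 (T (U (K 0) (S (V (K 0) (T (K 0) (K 0))) (K 0))) (K 0))) (T (F 17 (U (F 7 (S (V (K 0) (T (K 0) (K 0))) (K 0))) (S (V (S (S L L) (K 3)) (F 2 (S L (S L (K 0))))) (K 3)))) (U (F 61 (S (V (K 0) (T (K 0) (K 0))) (K 0))) (S (V (T (F 17 (U (K 3) (S L (K 3)))) (U (K 1) (S (F 16 L) (K 1)))) (S (F 8 L) (S (F 8 L) (K 1)))) (K 1))))))) v5_13)))) (F 7316 (V v5_16 (F 88 (T (U (S (V (T (U (F 59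 (S (K 0) (K 0))) (S (F 10 (S (S L L) L)) (S (F 10 L) (F 40 L)))) (K 2)) (F 59 (T (U (K 0) (S (K 0) (K 0))) (K 0)))) (F 40 (V (T (U (F 12 (S (K 0) (S (K 0) (K 1)))) (S (S L (F 8 L)) (F 8 (S L L)))) (K 1)) (K 1)))) (S (V (T (U (F 10 (S (S (S L L) L) (S L (F 1 L)))) (S (F 10 (S L L)) (F 9 (V (S (F 8 L) (F 1 L)) (F 8 L))))) (F 10 (S (S (S L L) (S L (F 1 L))) (F 1 (S L L))))) (F 11 (T (S (S L L) L) (U (K 2) (S (S L (K 2)) (K 2)))))) (F 33 (V (T (S (V L (F 2 L)) (F 2 (S L L))) (F 2 (S (F 1 (S L L)) L))) (F 10 (T L (F 2 (S (K 0) (K 0))))))))) (F 59 (U (K 0) (S (V (T (S (K 0) (K 0)) (K 0)) (T (K 0) (K 0))) (S (K 0) (K 0))))))))))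
noncomputable def v5_18 : Tr := (V (T (U (F 610 (S (V (S (F 2 L) (F 2 L)) (T (S (F 1 L) (F 2 L)) (F 18 (S L L)))) (V (F 66 (T (S L L) (S L (F 1 L)))) (S (T (F 2 L) (F 34 L)) (F 34 (T (S L L) L)))))) (F 770 (S (F 5 (V (S (F 16 L) (F 16 L)) (T (S (F 4 L) (F 16 L)) (S (F 6 L) (F 18 L))))) (V (F 73 (S (V (F 1 L) (S (F 8 L) (F 8 L))) (S (F 1 L) (F 1 L)))) (F 12 (T (S (V (F 32 L) (F 34 (S L L))) (U (F 2 L) (F 34 (S L L)))) (F 2 L))))))) (F 770 (U (S (V (F 140 (S (T (F 2 L) (F 3 L)) (F 1 L))) (F 100 (S L (F 4 L)))) (F 76 (V (S (F 1 L) (F 1 L)) (S (F 2 L) (T (F 1 L) (F 3 L)))))) (S (F 68 (S (V (F 11 (S L L)) (F 34 L)) (V (F 9 L) (F 10 L)))) (F 72 (V (F 1 L) (F 10 (T L (F 8 (S L L)))))))))) (F 580 (T (U (S (F 97 (V (S L (T L (F 16 L))) L)) (V (T (U (F 72 (S (T (F 2 L) (F 18 L)) (F 16 L))) (F 66 (S (S (F 34 L)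 (F 10 L)) (F 8 L)))) (F 106 (S L (S L L)))) (F 35 (S (S (F 2 L) (F 2 L)) L)))) (F 66 (S (F 34 (V (S L (S L L)) L)) (V (T (S (F 34 L) (F 40 (S L L))) (S (F 34 L) (S (F 34 L) (F 10 L)))) (F 34 (S L L)))))) (F 98 (U (S (V (S (F 16 L) (F 4 L)) (S (F 16 L) (F 16 L))) (S L (V (F 4 L) (F 4 L)))) (S (S (F 16 L) (F 16 L)) (S (F 16 L) (F 16 L))))))))
noncomputable def v5_19 : Tr := (V (F 292 (T (U (S (V (F 193 (S (T (S (F 16 L) (F 16 L)) (F 16 L)) L)) (T (U (F 10 (S (S (F 2 L) (F 2 L)) (F 1 L))) (S (F 74 L) (F 131 L))) (F 138 (S (S (F 1 L) (F 1 L)) L)))) (F 129 (V (S (F 1 L) (F 33 L)) (S L L)))) (F 3 (S (V (F 3 (S (S L L) L)) (T (S (F 18 (S L L)) (F 3 (S L L))) (S (F 18 L) (F 3 L)))) (V (F 3 (S L L)) (S (S (F 1 L) (F 1 L)) (F 1 L)))))) (F 130 (U (S (V (S (F 1 L) (F 33 (S L L))) (S (F 9 (S L L)) (F 8 L))) (V (F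 33 (S L L)) (S (F 32 L) (F 32 L)))) (S (F 33 (S (S L L) (S L L))) (V (F 33 L) (F 32 L))))))) (T (U (F 356 (S (V (S (F 2 L) (F 2 L)) (F 18 (T (S L L) L))) (V (T (S (F 2 L) (F 1 L)) (F 66 (S L L))) (T (F 2 L) (F 18 (S L L)))))) (F 1796 (S (V (F 6 (S (T L (F 2 L)) L)) (F 18 (S L (T (F 8 L) (F 8 L))))) (V (S (F 6 (S L L)) (F 68 L)) (F 6 (S (T L (F 4 L)) L)))))) (F 804 (U (S (F 20 (S L (T L (F 1 L)))) (S (V (F 68 (T L (F 2 L))) (F 20 L)) (F 68 (V L (F 2 L))))) (S (F 20 (T (S (F 16 L) (F 16 L)) (F 1 L))) (F 80 (S (F 4 L) (V (F 16 L) (F 4 L)))))))))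
noncomputable def v5_20 : Tr := (S (F 96 (U (V (F 13 (T (S (S (S L L) L) (S (S L L) (S L L))) (S L (S L L)))) (T (U (S (V (F 9 L) (F 40 L)) (F 12 (S L (F 8 (S L L))))) (S (F 40 L) (F 9 (S (F 1 L) (F 4 L))))) (U (S (V (F 9 L) (F 40 L)) (F 9 (S L (F 4 L)))) (F 9 (S (F 1 (S L L)) L))))) (F 33 (V (S (F 2 (S L (F 2 (S L L)))) (F 4 (S (F 2 (S L L)) L))) (F 2 (S (S L L) (S L L))))))) (U (F 136 (V (T (U (S (F 3 (S (V L (F 4 L)) (S L L))) (T (S (F 32 L) (F 32 L)) (F 34 (S L L)))) (S (V (F 33 L) (F 3 L)) (V (F 33 L) (F 34 L)))) (F 3 (U (S (S (F 4 (S L L)) L) (V (F 1 (S (S L L) (S L (F 1 L)))) L)) (S (S (F 4 L) (F 1 L)) (F 1 (S L L)))))) (F 10 (T (U (S (S (F 8 (S L L)) L) (S L L)) (S (F 8 (S L L)) L)) (S (F 8 (S (S L L) (S L L))) (T L (F 8 (S L L)))))))) (F 161 (V (F 5 (S (S L L) (S L L))) (U (S (F 9 (S L (F 2 (T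 L L)))) (F 12 (T L (F 4 L)))) (F 13 (S L L)))))))
noncomputable def v5_21 : Tr := (T (S (F 17 (U (V (T (U (S L (S L L)) (S (F 2 L) L)) (U (S L (S L L)) (S (F 2 L) L))) (F 2 (S (F 1 L) L))) (V (S L (S L L)) (F 2 L)))) (U (V (T (U (S (F 1 L) (F 5 (S L L))) (S (F 1 L) (S (F 9 L) (F 5 L)))) (U (S (S (F 17 L) (F 1 L)) (S (F 1 L) (F 5 L))) (S (F 17 (S L L)) (F 5 L)))) (F 25 (T (S L L) (S L (S L L))))) (V (S (F 17 (S L L)) (S (F 17 L) (F 9 L))) (F 25 (S L L))))) (S (F 17 (U (V (T (U (S (S L L) (S L L)) (S L L)) (U (S (S L L) (S L L)) (S L L))) (T (F 2 (S L L)) (S L L))) (V (S L (F 1 (S L L))) (F 2 (S L (F 4 L)))))) (U (V (T (U (S (V (F 16 L) (F 17 L)) (S (F 20 L) (F 36 L))) (S (F 17 L) (F 33 (S (F 1 L) (F 4 L))))) (U (S (V (F 48 L) (F 17 L)) (F 48 (S L (F 2 L)))) (F 49 (S (S L L) L)))) (F 24 (T (F 8 (S L (S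 L (S L L)))) (U (S (F 8 (S L L)) (S (F 8 L) (F 1 (V (V L (F 1 L)) (F 1 L))))) (F 9 (S L (S L L))))))) (F 49 (V (S L (S L (F 1 L))) (F 1 (S L L)))))))
noncomputable def v5_22 : Tr := (T (S (U (V (F 129 (T (U (S (V (F 5 L) L) (F 5 (T L L))) (S (S (F 1 L) (F 5 L)) (F 5 L))) (U (S (S L (F 4 L)) (F 4 L)) (S (F 1 L) (F 37 L))))) (T (U (S (V (F 129 L) (F 9 (S (F 32 L) (F 1 L)))) (F 145 (V L L))) (S (F 3 (S (V (F 1 L) (F 16 L)) (F 1 L))) (F 145 (T L L)))) (U (S (F 130 (V (F 32 L) (F 10 (S L L)))) (F 177 (S L L))) (F 131 (S (V (F 4 L) (S (F 10 (S L L)) (F 6 L))) (T (F 4 L) (F 6 L))))))) (F 131 (V (T (S (S (F 1 L) (F 5 L)) (F 5 L)) (S (F 1 L) (F 7 L))) (T (S L (S (F 4 L) (F 4 L))) (S (F 2 L) (F 6 L)))))) (F 145 (U (V (T (V (F 17 L) L) (S (F 16 L) (F 17 L))) (T (S (V (F 16 L) L) L) (S L (F 2 L)))) (V (F 17 (S L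 L)) (S (F 16 L) (F 17 L)))))) (F 130 (S (U (V (T (S (S (F 32 L) (F 36 L)) (F 36 L)) (F 38 (S (V (F 4 (S L L)) (S L (F 4 L))) L))) (T (S (S (V (F 34 L) (F 10 L)) (F 34 (S (F 2 (T L L)) (F 4 (T L L))))) (F 38 (S (S L L) L))) (F 6 (S (V (F 1 L) (F 4 (U L (F 4 L)))) (F 1 L))))) (F 38 (V (F 4 (S L L)) (T L (F 4 L))))) (F 36 (U (V (T L (F 4 L)) (F 4 (S (V L L) L))) (F 12 (V L L)))))))
noncomputable def v5_23 : Tr := (T (S (U (F 36 (V (T (F 40 (U (S (V (S L (F 2 (S L L))) (F 2 L)) (F 2 (T L (F 1 (S L L))))) (S (S L (F 2 L)) (F 2 (S L (F 1 L)))))) (S (S (F 40 L) (F 13 (U L (F 1 L)))) (F 45 (U (S L L) L)))) (F 36 (S (S L L) (F 2 (T L L)))))) (F 33 (V (S (F 24 (T (S L (F 2 L)) (F 8 (S L (F 2 L))))) (F 13 (U (V L (F 2 L)) (F 2 L)))) (F 20 (S (F 4 L) (F 8 L)))))) (F 153 (U (V (T (V (S (F 4 L) (F 2 L)) (F 6 (S L L)))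 (F 6 (S L L))) (F 6 (T L L))) (F 6 (T (S (S L L) L) L))))) (F 36 (S (U (U (S (V (F 13 (T L (K 1))) (F 36 (T (S (F 4 L) (F 8 L)) (F 4 (S (V (T L (F 1 L)) (F 1 L)) (F 3 (T (K 0) (K 0)))))))) (F 45 (T (V L (K 0)) (K 0)))) (F 33 (S (V (F 2 (T (S L (F 2 L)) (F 2 (T L (F 2 (U L L)))))) (F 12 (V (S L L) L))) (F 6 (T L (F 1 L)))))) (F 37 (U (V (F 2 (T L (F 1 L))) (F 4 L)) (F 6 L)))) (F 45 (U (T (V L L) (S L (K 0))) (F 2 (S L L)))))))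
noncomputable def treeV5 : Tr := (F 0x3ffffffffffffffffffffffffffffffffffffffffffffbfffffffbffffffffffffffffffffffffffffffd7bffff7ff3fffeffffffb7ffffffffffefffffffffefb7ff (U v5_17 (F 6156 (S (V (T (S (U v5_18 (F 1798 (V (T (S (V (F 6 (S L L)) (F 18 (S L (S L L)))) (V (F 36 (S L L)) (F 6 (S L L)))) (S (V (F 6 (U (T (S (F 2 L) (F 1 L)) (F 3 (S L L))) (F 3 L))) (F 18 L)) (V (F 36 L) (F 22 (U (S L (F 1 (S L L))) (F 1 L)))))) (F 18 (T (S (S L (S L L)) (S (S L L) (V L L))) (S L L)))))) (U v5_19 (F 1796 (V (F 100 (T (S (S (V L (S L L)) (V L (S L L))) (V L (S L L))) (S (S L L) (S L L)))) (T (S (F 34 (V (S (S (F 2 L) (F 8 L)) (F 8 L)) (S (F 2 L) (F 2 L)))) (V (F 68 (S L L)) (F 22 (S L L)))) (F 18 (S (V (U (S (F 10 L) (F 9 L)) (F 11 (S L L))) (F 2 L)) (F 9 (S (S L L) L))))))))) (F 772 v5_20)) (F 844 v5_21)) (V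 (F 292 v5_22) (F 772 v5_23))))))

theorem pV5 : chkV par treeV5 64 64 224 32 320 64 54613 109226 Lc = true := by decide +kernel

noncomputable def v6_0 : Tr := (U (S (F 203 (V (T (F 8 (U (K 2) (V (K 2) L))) (F 2 (U (F 3 (S (K 0) (K 0))) (S (F 1 L) (S L (T L L)))))) (F 8 (T (U (F 6 (S (K 0) (K 0))) L) (U (K 0) (T L (K 0))))))) (V (F 75 (T (U (S (K 0) (V (T (U (K 0) (S (K 0) (F 8 L))) (F 12 (U (K 1) (S L L)))) (F 12 (S (K 2) L)))) (S (V (S L (F 8 L)) L) (V (T (S (F 8 L) (S (F 12 L) (F 8 L))) (F 12 (S L L))) (F 8 L)))) (U (F 12 (S (F 2 (V (T (K 0) (S (K 0) (K 1))) (T (K 0) (S (K 0) (K 1))))) (V (S L (K 1)) (S L (K 0))))) (S (S (F 4 L) (F 12 (S L L))) (F 12 (S (S L L) (S L L))))))) (T (F 74 (U (S (F 18 (V (F 7 (S (K 0) (K 0))) L)) (V (F 12 (S (K 3) L)) (S (F 18 L) (F 6 L)))) (S (F 34 (S (F 1 L) L)) (S (F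 2 L) L)))) (U (F 98 (S (F 10 (V (T L (F 1 (S (K 1) L))) (K 2))) (V (F 12 (T L (K 1))) (T (F 2 L) (F 43 (S (K 1) (K 0))))))) (F 194 (S (V (F 10 L) (F 32 L)) (F 34 (V (F 2 (S L L)) L)))))))) (F 67 (S (F 18 (V (T (F 1 (S (F 2 L) L)) (F 4 (S (F 4 L) (S L (S L L))))) (F 1 (T (F 1 L) L)))) (V (T (S (U (S (F 18 L) (F 16 L)) (F 18 L)) (F 24 (U (V (T (S L L) (F 2 (S L L))) L) (S L (S L L))))) (F 20 (S (U (S (F 4 L) L) (F 4 (S L L))) (F 2 (U (S (S L L) L) (S L L)))))) (T (S (F 50 L) (S (F 18 L) (F 16 L))) (S (F 18 (S L (F 4 L))) (F 6 (S (F 2 L) L))))))))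
noncomputable def v6_1 : Tr := (V (F 41 (T (F 36 (U (F 4 (S (V (F 3 (T (K 0) (K 0))) (T (U (K 2) (S L (K 2))) (U (K 2) (S L (K 2))))) (K 2))) (S (V (T L (F 4 (S (S L L) (K 2)))) (F 4 (S L L))) (F 14 (V (S (K 0) (K 0)) (T (K 0) (K 0))))))) (U (S (V (K 4) (T (F 38 (U (K 0) (S (S L (K 0)) (K 0)))) (U (F 39 (S (V (K 0) (K 1)) (K 0))) (S (V (F 6 L) (F 34 L)) (K 4))))) (K 4)) (S (V (F 6 (T (F 1 (S (V (S L (K 2)) L) (K 2))) (U (S (S L (K 1)) (K 1)) (F 1 (S (S L (S L (K 2))) (K 2)))))) (T (F 38 (S L (S L L))) (U (S (F 34 L) (F 7 (S L (K 1)))) (F 39 (S L L))))) (F 47 (V (K 0) (T (K 0) (K 0)))))))) (F 170 (T (U (S (V (T (S (K 2) (F 2 L)) (F 18 (U (K 1) (S (K 1) L)))) (K 2)) (F 19 (V (K 0) (T (S (K 1) (K 0)) (U (S (K 1) (K 0)) (S (K 1) (K 0))))))) (F 18 (S (V (S L L) (K 1)) (V (S L (S L (K 0))) (F 4 (S L L))))))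 (U (S (V (T (F 18 (U (K 1) (S (K 1) (S (K 1) L)))) (F 17 (U (K 1) (S (K 1) (V L (K 1)))))) (K 2)) (F 17 (V (F 6 (T (K 0) (K 0))) (T (F 4 (U (S (K 0) (K 1)) (S (K 0) (K 1)))) (U (F 4 (S (K 0) (K 1))) (S (K 1) (S L (K 0)))))))) (S (V (T (F 18 (S L (F 4 L))) (F 17 (S L L))) (K 2)) (F 19 (V (T (S L (K 0)) (S (S L L) (K 0))) (S (S (K 1) L) (S L L)))))))))
noncomputable def v6_2 : Tr := (U (S (F 169 (V (T (F 18 (U (S (F 1 (V (F 2 (S (K 0) (K 0))) (K 1))) (V (T (U (K 2) (S (K 2) L)) (U (K 2) (S L L))) (T (S (K 1) L) (U (K 1) (S (K 1) L))))) (S (F 1 (V L (K 1))) (V (S L L) (S (F 1 L) L))))) (U (S (K 2) (V (T (F 18 (U (S (V (U (K 2) (S (K 1) L)) (K 1)) (K 0)) (S (S L L) (S L (K 0))))) (U (F 19 (S (V (T (S (K 1) (K 0)) (S (K 1) (K 0))) (K 1)) (V (K 0) (S (K 1) (K 0))))) (S (V (S (F 16 L) (F 16 L)) (K 2)) (V (S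 L (K 3)) L)))) (K 2))) (S (V (T (F 18 (S (K 1) L)) (S (K 2) (S (F 16 L) (F 16 L)))) (K 2)) (V (T (F 18 (S L (S L L))) (U (S (F 18 (S L L)) (S (F 16 L) (F 2 L))) (F 18 (S L L)))) (T (F 18 (S (K 1) L)) (S (K 2) (F 16 L))))))) (K 2))) v6_1) (F 35 (S (F 18 (V (T (F 4 (S (F 4 (V L L)) (V (S L L) (S (F 4 L) (F 1 L))))) (S (V (T (F 4 L) L) (F 5 L)) (F 4 (U (V (S L L) (S L (F 1 L))) (F 1 (S L L)))))) (F 12 (U (S (K 0) (U (K 0) (S (K 0) (T L (F 2 L))))) (F 2 L))))) (V (F 20 (T (S (U (V (S (F 4 L) L) (F 4 L)) (F 12 (S L L))) (U (S (T (F 2 L) (F 4 L)) (F 10 (T L L))) (F 8 (S (F 1 L) (F 2 L))))) (F 4 (S (U (V (S (F 1 (S L L)) (T L (F 1 (S L L)))) (F 1 (S L L))) (F 1 (S L L))) (F 1 (U (S (V L L) (F 2 (T (K 0) (K 0)))) (S L (F 2 L)))))))) (F 6 (T (S (V (F 2 L) (F 8 L)) (F 10 (S L L))) (F 10 (S (V (S L L) (S (F 2 L)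 L)) (V L L)))))))))
noncomputable def treeV6 : Tr := (F 0x3fffffffffffffffffffffffffffffffffffffffffffefffffffffffffffffffffffffffffffffffffffdffffff7fbbffefffffffffffffffffffffffffffffefb7ff (T v6_0 v6_2))

theorem pV6 : chkV par treeV6 64 64 192 64 448 64 54613 109226 Lc = true := by decide +kernel

noncomputable def v7_0 : Tr := (V (F 96 (T (F 56 (U (S (V (U (U (U (S (V (S L (F 1 L)) (F 1 (S L L))) (F 1 L)) (F 1 L)) (F 3 L)) (F 7 L)) (F 1 L)) (F 1 (V (S L (F 2 L)) L))) (F 7 L))) (U (S (V (T (F 20 (U (S (U (V (S (F 2 L) (F 4 L)) (F 2 (S L L))) (F 7 L)) (V (F 5 L) (F 2 L))) (F 15 L))) (U (S (V (F 6 (U (U (S (V L L) L) (F 2 L)) (F 7 L))) (F 20 (U (S (F 2 (S L L)) L) (F 14 L)))) (F 20 (V (F 4 (U (S L (F 4 L)) (F 6 L))) (U (V L L) (F 7 L))))) (F 63 L))) (F 29 (U (U (T L (U (S L L) L)) (F 1 L)) (F 3 L))))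 (F 20 (V (F 1 (T (V (F 2 L) L) (F 2 (U (U (T L (U (U (T L L) L) L)) (F 2 L)) (F 3 L))))) (T (U (V (S (F 2 L) (F 1 L)) (F 2 L)) (F 15 L)) (U (S (V (U (V L L) (F 11 L)) (F 10 (U L (F 2 L)))) (V (U (V (F 1 L) L) (F 13 L)) (U (U (S (F 8 L) (V L (F 8 L))) (F 8 L)) (F 11 L)))) (F 15 L)))))) (F 63 L)))) (F 142 (T (F 11 (U L (F 1 L))) (U (S (F 9 (T (F 2 L) L)) (V (F 3 (U (U (U (S L L) L) (F 1 L)) (F 3 L))) (F 8 (T (F 6 L) L)))) (F 15 L)))))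
noncomputable def v7_1 : Tr := (T (U (S (V (F 368 (U (U (T L (S (S (F 1 L) (F 1 L)) (F 1 L))) (F 9 (S L L))) (F 27 L))) (F 322 (U (T (S (F 25 L) (T (F 10 L) (F 3 L))) (F 5 (S (V L (F 6 L)) (S L L)))) (F 31 L)))) (V (F 306 (S (V (F 16 L) (T (F 2 L) L)) (F 16 L))) (U (T (F 354 (S (V (S (F 2 L) (F 2 L)) (F 5 (S L L))) (V (F 6 (S L L)) (F 4 L)))) (F 146 (S (F 3 (V (F 8 (U (U (S L L) L) L)) L)) (V (F 5 L) (F 6 (S L L)))))) (F 507 L)))) (F 511 L)) (U (S (V (F 176 (U (T (F 3 (U (S L (S L (F 2 (S L L)))) (F 2 L))) (S (F 18 (S (F 2 L) (F 1 L))) (F 48 (S (F 4 L) L)))) (F 59 L))) (F 214 (U (U (S (F 1 (T L L)) (T (S L L) L)) (F 1 L)) (F 13 L)))) (F 146 (V (F 36 (U (U (T (F 8 (S (S L L) L)) (S L L)) (F 8 L)) (F 11 L))) (U (T (U (U (S (V (F 6 (S L L)) (F 18 L)) (V (F 36 L) (F 6 (S L L)))) (F 6 (S L L))) (F 6 L)) (S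 (S (F 18 L) (F 6 L)) (S (F 6 L) (F 36 L)))) (F 62 L))))) (F 511 L)))
noncomputable def v7_2 : Tr := (V (F 50 (T (U (S (V (F 41 L) (U (T (F 9 (S (F 4 (U L (F 4 L))) (F 1 L))) (F 10 (S (V (F 8 L) (S L L)) (V (F 9 L) L)))) (F 47 L))) (F 43 (U (U (S L L) (F 2 L)) (F 2 L)))) (F 63 L)) (U (S (V (F 34 (S L (F 10 L))) (U (U (T (S (S (F 2 L) (F 34 L)) (F 42 (T L L))) (F 34 (S L (F 2 L)))) (F 42 (S L L))) (F 62 L))) (F 42 (V (F 4 L) (S (T (S L L) L) L)))) (F 63 L)))) (T (U (S (F 200 (V (U (T (F 18 (U (V (F 8 (S L L)) (S (F 8 L) (S (F 8 L) (F 4 L)))) (F 8 L))) (U (S (T (F 18 L) (F 6 L)) (F 6 (V L L))) (F 22 (S L L)))) (F 31 L)) (S (F 24 L) (F 10 (U L (F 14 L)))))) (V (U (T (S (F 170 (V (F 5 L) (F 2 L))) (F 312 (V (F 24 L) (F 1 L)))) (F 184 (S (V (F 16 L) (S (F 2 L) (F 16 L))) (F 16 L)))) (F 507 L)) (F 232 (U (T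 L (S (F 6 (S L L)) (F 2 L))) (F 30 L))))) (F 511 L)) (F 152 (U (S (V (U (T (S (V (F 6 (S L L)) (F 26 L)) (F 6 L)) (F 14 (S L (F 1 L)))) (F 62 L)) (F 10 (S L (F 4 L)))) (F 36 (V (T (S L L) (F 2 L)) (F 6 (U (S L L) (F 2 L)))))) (F 63 L)))))
noncomputable def v7_3 : Tr := (V (T (U (S (V (F 1156 v7_1) (F 654 (T (F 10 (U (U (U (S (F 13 L) (S (F 9 L) (T (F 3 (V L (F 6 L))) (F 8 L)))) (F 11 L)) (F 15 L)) (F 31 L))) (F 20 (U (S (F 12 (S (F 4 L) (T L L))) (U (U (V (S (S (F 12 L) (F 8 L)) (S (F 8 L) (F 4 L))) (F 13 L)) (F 12 L)) (F 29 L))) (F 31 L)))))) (F 644 v7_2)) (F 4095 L)) (F 1702 (U (S (V (T (U (S (V (F 3 (U (S (F 2 (S L L)) (F 4 (S L L))) (F 7 L))) (F 18 (S L (F 8 (S L L))))) (F 3 (U (U (V (F 4 (S (S L L) L)) (F 2 (S L (F 2 (S L L))))) (F 6 (S L L))) (F 14 L)))) (F 63 L)) (F 3 (U (S (F 2 (S L (F 2 L)))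 (F 4 (S (F 2 L) (F 1 L)))) (F 15 L)))) (F 22 (T (U (S (S (F 1 L) L) (S L (F 4 L))) (F 7 L)) (F 4 (U (S (S L L) L) (F 3 L)))))) (F 13 (V (T (U (S (V L (F 4 (S (S L L) L))) (F 4 (V L L))) (F 7 L)) (F 4 (S (S L L) L))) (F 6 (U (U (S (S L L) L) L) (F 1 L)))))) (F 63 L)))) (F 970 (T (U (S (F 50 (V (T L (F 2 L)) (F 6 L))) (V (T (U (S (F 18 L) (F 24 (U (S (F 2 L) L) (F 14 L)))) (F 63 L)) (F 20 (U (S (F 4 L) (F 8 L)) (F 15 L)))) (F 3 (T L (F 8 L))))) (F 63 L)) (F 23 (U (S (F 1 L) (V (S L L) L)) (F 3 L))))))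
noncomputable def treeV7 : Tr := (F 0x3ffffffffffffffffffffffffffffffffffffffffffffffffffffffffffffffffffffffffffffffffffffffffff7f33ffeeffbfffb7ffffffffffffffffffffffb7ff (T (F 1097 v7_0) v7_3))

theorem pV7 : chkV par treeV7 64 64 128 128 384 128 109226 218453 Lc = true := by decide +kernel

noncomputable def treeV8 : Tr := (F 0x3ffffffffffffffffffffffffffffffffffffffffffffffffffffffffffffffffffffffffffffffffffffffffffffffffffffffffffffffffffffffffffffffffffff L)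

theorem pV8 : chkV par treeV8 64 64 128 128 384 128 218453 436907 Lc = true := by decide +kernel


end Pool.Agent.Lib.H56.Gen.D7
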