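import Pool.Agent.Lib.H56.Gen.Split
import Pool.Agent.Lib.H56.Gen.D7.V0

/-!
# Certificate tree V
-/

set_option maxRecDepth 100000

namespace Pool.Agent.Lib.H56.Gen.D7

noncomputable def treeV : Tr := (Tr.V treeV0 (Tr.U (Tr.U (Tr.U treeV1 (Tr.T treeV2 (Tr.V (Tr.T (Tr.U treeV3 treeV4) treeV5) treeV6))) treeV7) treeV8))

theorem okV : chkV par treeV 64 64 128 128 256 256 0 436907 Lc = true :=
  (chkV_V (c1 := 128) (c2 := 384) (h := 128) (by decide +kernel) (by decide +kernel) (by decide +kernel)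
  pV0
  (chkV_U (c1 := 218453) (by decide +kernel)
  (chkV_U (c1 := 109226) (by decide +kernel)
  (chkV_U (c1 := 54613) (by decide +kernel)
  pV1
  (chkV_T (c1 := 64) (c2 := 192) (h := 64) (by decide +kernel) (by decide +kernel) (by decide +kernel)
  pV2
  (chkV_V (c1 := 320) (c2 := 448) (h := 64) (by decide +kernel) (by decide +kernel) (by decide +kernel)
  (chkV_T (c1 := 160) (c2 := 224) (h := 32) (by decide +kernel) (by decide +kernel) (by decide +kernel)
  (chkV_U (c1 := 81919) (by decide +kernel)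
  pV3
  pV4)
  pV5)
  pV6)))
  pV7)
  pV8))

end Pool.Agent.Lib.H56.Gen.D7
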