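import Pool.Agent.Lib.H56.Gen.D7.Par
import Pool.Agent.Lib.H56.Gen.D7.Cos

/-!
# Certificate tree W, part 0
-/

set_option maxRecDepth 100000

namespace Pool.Agent.Lib.H56.Gen.D7

open Tr

noncomputable def w0_0 : Tr := (S (T (S (V (S L L) (T (S L L) (U (S L L) (V L (S L L))))) (V (S L L) (U (T (S L L) (V L (S L L))) (T L (T L (U L (S L L))))))) (V (S (U (T L L) (V L (T L (S L L)))) (U L (T L L))) (S (U (T (V (S L L) (S (S L L) (S L L))) (V (S (T L L) (S L L)) (S (T L L) (T L L)))) (V (T (U (S L L) (S L L)) (U (T L L) (S L L))) (T (S L L) (S L (S L L))))) (U (T (V (S L L) (S (S L L) (S L L))) (V (S L L) (S (T L L) (S L L)))) (T (V (S L L) (S (S L L) (S L L))) (V (T (S L L) L) (T (S L L) (S L L)))))))) (V (U (T L L) (T (S L L) (T L L))) (U (T (S (U (S L L) (S L L)) L) (V (T (S L L) (S L (K 2))) (T (S (T (V L L) L) L) (S (S L L) L)))) (T (S (T L (V L (S L L))) (T L (V L (S L L)))) (S (V (T (S L L)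 (S L L)) (T (S L L) (S L L))) (T (V L L) (S L L)))))))
noncomputable def w0_1 : Tr := (U (F 6145 (T (K 7) (F 4635 (S (S (T (K 3) (S (T (K 3) (V (K 3) (V (K 3) (V (K 3) (U (K 3) (U (K 5) (S L L))))))) L)) L) L)))) (F 39953 (U (S (F 517 (T (K 3) (V (K 3) (U (U (S (T (K 3) (S (T L (S L L)) L)) L) (S (V (K 3) (T (S (K 3) L) (S (V L (T (S L L) (S (S L L) L))) (S L L)))) (T L L))) (S (T (V (K 3) (V (K 3) (T (S (K 3) L) (S L (S L L))))) (V (S L L) (S (T (V (S L L) (S (S L L) (S L L))) (V (S L L) (S (T L (S L L)) (T L L)))) (V (T L L) (T (U L (S L L)) (S (T L L) L)))))) (T L (S (U L (S L L)) L))))))) (T L (F 513 (S L L)))) (T (F 517 (V (K 3) (S (T (K 3) (V (K 3) (S (U L (S L L)) (U L L)))) (S L L)))) (F 513 (S (F 64 (V (S (T (K 3) L) L) w0_0)) (V (S L L) (F 64 (S (U (T L L) (V L (T (S L L) (U L (T L L))))) L)))))))))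
noncomputable def w0_2 : Tr := (U (T (S (V (V L (T (K 2) L)) L) (V (T (K 2) (T L (V (S L L) (S L L)))) (T L (U L (S L L))))) (V (T (S (V (T (S L L) (V L (S L L))) (U L (S L L))) (V (T (S L L) (S L L)) (T (S L L) (S L L)))) (S (T (V (S L L) (S L L)) (V (S L L) L)) (V (T (S L L) (S (S L L) (S L L))) (T (S (S L L) L) (S L (S L L)))))) (T (S L (V (T (U L L) (S L L)) L)) (S L (T (S L L) L))))) (T (V (T (S (K 2) L) (S (T L (U L L)) (V (S L L) (S (T L L) L)))) (T (S L L) (V (S (S L L) (S L L)) (S (S L L) (S L L))))) (T (V (S (V (T (S L L) (S L L)) (T L (S L L))) (V (T L (S L L)) (T (S L L) (S (S L L) (S L L))))) (S (V (T L (S L L)) L) (V (T L (S L L)) (S L L)))) (V (S (V (T (T L L) (T L L)) (T (S L L) (S L L))) (T (V (S L L) (T L L)) (V (S L L) (T L (S L L))))) (S (T (S L L) L) (V (T (S (S L L) L) (S L L)) (S L L)))))))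
noncomputable def w0_3 : Tr := (U (T (K 4) (S (T (K 4) (K 3)) (F 32 (V (U (T (K 2) (S (S (K 2) L) (V (U (T (K 2) (S L (T L (S L L)))) (S (T (K 2) L) (T (T (K 2) (U L L)) (V (T (S L L) (S L (S L L))) L)))) (S (K 3) L)))) (S (T (K 2) (S L (T L (U L L)))) (T (U (K 2) (T (K 2) (S (K 2) (V (S (K 2) L) L)))) (V (S (U (T (S (K 2) L) (T L (S L L))) (T (V (S L L) L) (V (T L L) L))) (T (V (V (T L (S L L)) (T L (S L L))) (U (S L L) (S L (S L L)))) (V (T (S (S L L) (S L L)) (S (S L L) (S L L))) (T (S L (S L L)) (S L L))))) (S L (T L L)))))) (T L L))))) (S (T (K 4) (T (F 32 (V (K 2) L)) (F 32 (S (K 3) (U L (S L (V (V (T L L) (K 3)) (K 3)))))))) (F 32 (T (V (K 2) (T (K 2) (S (K 2) L))) (V (S (T (U (K 2) (T (K 2) (V (S (K 2) L) (S L L)))) (U (V (T (U L (V L L)) (S (S (K 3) L) (V (T L L) L))) (S (K 3) L)) (V (T (S (T L L) (V (S L L) (S L L))) (S (V L L) (V (T (S L L) L) (S L L)))) (S L (T (S L L) L))))) w0_2)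 (S (T L L) (T (U L (T L L)) (T (S (S L L) L) L))))))))
noncomputable def w0_4 : Tr := (U (F 128 (S (V (U (K 3) (S (S L L) (S L L))) (S (T (U L L) (U (S L (S L L)) (V L (S L L)))) (T (U L L) (V (U L (S L L)) (U (S L (S L L)) (S L L)))))) (U (T L (V (S L L) (S (U L (S L L)) L))) (V (S (T L L) L) (T (S L L) (S (V (T L L) (T L (S L L))) (V (T L (S L L)) (S (S L L) L)))))))) (S (F 128 (T (S (U L L) (U (S L L) L)) (V (U (S (S L L) (S L L)) (F 64 (S L L))) (S (V (T L (S L L)) (S L L)) (V (T L (S L L)) (T L (S L L))))))) (V (F 1 (T (V L L) (U (F 1 (U L (S L L))) (S (F 1 (S L L)) (V (F 2 (S L L)) L))))) (F 128 (T (U (S (S L L) (S L L)) (F 64 (S L L))) (S (V (T L (S L L)) (T L (S L L))) (U (V (S (S L L) L) (S L L)) (F 64 (S L L)))))))))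
noncomputable def w0_5 : Tr := (T (V (U (S (T L (S L L)) (T L (S L L))) (T (S L L) (S (S L L) (S L L)))) (S (U (T (U (S L L) L) (U (V L (S L L)) (S L L))) (T L (S L L))) (T (U (S L L) L) (U (S (T L L) (T L L)) (S L L))))) (V (S (T (U (V (S L L) (S L L)) (V L L)) (U (V (S L L) (S (S L L) (S L L))) (V (S L L) (S L L)))) (T (U (V (S L L) (S L L)) (V L L)) (U (V (S L L) (S L L)) (V (S L L) (S L L))))) (S (T (U (S (U (V L L) (S L L)) (T (S L L) (U L L))) (V L L)) (U (S (T (U (T L L) L) (U (V L L) L)) (U (V L (S L L)) (S L L))) (V (S L L) (S L L)))) (T (U (S (V L (U L L)) (V L (U L L))) (V L L)) (U (S (V (S L L) (U L L)) (V (S L L) (U L L))) (V (S L L) (S L L)))))))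
noncomputable def w0_6 : Tr := (V (S (T (U (S L L) (T (S L L) (V L (S L L)))) (U (V L (S (T L (S L L)) (S L L))) (V (U (S L L) (T (S L L) (S (S L L) (S L L)))) (T (S (T L L) (S L L)) (S (V L (S L L)) (V L L)))))) (U (T L (S L L)) (T (T (S L L) (V (S L L) (S L L))) (V (U L (U (S L L) L)) (T (S (S L L) (S L L)) (S (T L L) (S L L))))))) (S w0_5 (T (V (U (T (S L L) (S (S L L) (T L L))) (T (S L L) (S (S L L) (S L L)))) (S (T (U (S L L) L) (U (V (S L L) (U (S L L) L)) (S L L))) (U (T (U (S L L) L) (V L (U (S L L) L))) (T L (S L L))))) (V (U (S (T (V L (S L L)) (U L (S L L))) (T (T L L) L)) (T (S (V L L) (S L L)) (S (V L L) (V L L)))) (U (T (S (S (V L (U L L)) (T (S L L) (S L L))) (V (S L L) (U L (S L L)))) (S (U (V (U L L) (S L L)) (V L (S L L))) (U (V L L) (T L L)))) (S (T (V L L) (V (S L L) (S L L))) (T (V L L) (V L L))))))))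
noncomputable def w0_7 : Tr := (V (T (S (U (T (S (S L L) (S L L)) (V (S L L) (S L L))) (V (F 64 (S L L)) (V L (S L L)))) (U (V (F 64 (S L L)) (T (S L L) (S L L))) (F 64 (T L (S L L))))) (S (V (U (T (V L (S L L)) (V L (S L L))) (F 64 (T L L))) (T (S (U (S L L) L) (U (S L L) L)) (S (U (S L L) (S L L)) (U (S L L) L)))) (V (F 64 (T (U (S L L) L) (U (S L L) L))) (U (T (S (S L L) (S L L)) (S (S L L) (T L L))) (F 64 (T L L)))))) (T (S (V (T (S L (S L L)) (S (V L L) (V L L))) (S (T L (S L L)) (T L (S L L)))) (V (T (S (S L L) (S L L)) (S (V L L) (V L L))) (T (S L (S L L)) (S (S L L) (V L L))))) (S (V (T (S (U (S L L) L) (U (S L L) L)) (S (U (S L L) (S L L)) (U (S L L) L))) (S (T (V (S L L) L) (U (S L L) L)) (T (U (S L L) L) (U (S L L) L)))) (V (T (S (U (S L L) L) (U (S L L) L)) (S (U (S L L) L) (U (S L L) L))) (T (S (U (S L L) L) (U (S L L) L)) (S (U (S L L) L) (U (S L L) L)))))))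
noncomputable def w0_8 : Tr := (V (U (S (F 2 (U L (T L L))) (T L (K 3))) (T (F 2 (S (T (U L (S L L)) (V L (U (S L L) (T L L)))) (S (U (S L L) (F 64 (T L L))) L))) (S (F 2 (V (F 64 (U L L)) (T (U L (S L (S L L))) (S L L)))) (F 128 (S L L))))) (F 2 (U (V (S (T (U L (T L (S L L))) (U (S L L) (S L L))) (T L L)) (S (T (U (S (T L (U L (S L L))) (S L L)) (T (S L L) (S (S L L) (S L L)))) (U (V (S L L) (T (S L L) L)) (S (T (S L L) L) (S L L)))) (T (T L L) (U L L)))) (S (T (V (T (V L L) (V (T L L) (S L L))) (T (V L L) (S (S L L) (T L L)))) (V (T (S (S L L) (U L (S L L))) (S (S L L) (V L L))) (T (S (T L L) (S L L)) (S (V L L) (T L L))))) (T (V (T (S (S L L) (S L L)) (U (S L L) (S L (S L L)))) (T (S (S L L) (S L L)) (S (V L L) (T L L)))) (V (U (T L L) (T (S (S L L) L) (S L L))) (U (S (T L L) (S L L)) (T (S L (T L L)) (S L L)))))))))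
noncomputable def w0_9 : Tr := (V (S (F 258 (T (T (F 64 (U (S L L) L)) (U (V L (S (S L L) L)) (F 64 (S L L)))) (U (V (F 64 (T (S L L) L)) (S (V L (T L L)) (F 64 (S L L)))) (F 64 (V L (T L L)))))) (F 1 (T (F 128 (U (F 64 (V L (T L (S L L)))) (V (F 32 (T L L)) (F 64 (S L L))))) (F 2 (U (F 64 (T L L)) (T (F 1 (S L L)) (F 1 (S L L)))))))) (F 258 (T (S (V (T (S (S L L) (S L L)) (U (S L L) (S L L))) (T (S (S L L) (S L L)) (S (S L L) (S L L)))) (V (U (V (F 64 (S L L)) (T L (S L L))) (F 64 (S L L))) (T (U (S L L) L) (U (V (S L L) (S L L)) (S L L))))) (S (V (T (S (U (S L L) L) (U (S L L) L)) (S (U (S L L) (S L L)) (U (S L L) L))) (T (S (V (S L L) (S L L)) (U (S L L) L)) (S (U (S L L) L) (U (S L L) L)))) (V (U (V (F 64 (S L L)) (U (T (S L L) L) (F 64 (S L L)))) (F 64 (T L L))) (T (U (V (S L L) (S L L)) (S L L)) (U (S (S L L) (U (S L L) L)) (S (S L L) L))))))))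
noncomputable def w0_10 : Tr := (S (F 258 (V (U (V (F 194 (U (K 2) L)) (F 1 (U (S L L) (F 128 (T (S (K 2) L) (V (S L L) (F 64 (S L L)))))))) (F 3 (T (V (F 4 (U (S L L) L)) (U (V L (S L (V L L))) (S (S L L) (F 4 (T L (S L L)))))) (S (V (U L L) (V (U (U (T L (S L L)) (F 4 (S L L))) (F 4 (T L L))) (F 1 (T (U L L) (U (S L L) (S L L)))))) (V (F 6 (U (S L L) L)) (T (U (S (V L L) L) (T (S L L) L)) (F 2 (U (S L L) (S L L))))))))) (F 257 (U w0_6 w0_7)))) (U (V (F 512 (V (F 192 (U (T (K 3) (T L (K 4))) (S (F 2 (V (T (K 4) L) L)) (V (T (F 4 (U (K 4) (S (K 4) L))) (F 4 (S L (U L (T L L))))) (T (F 2 (S L L)) (F 2 (S L L))))))) (F 256 (U (F 2 (T L (K 3))) (T (F 384 (S L L)) (F 258 (T (S L L) (K 2)))))))) (F 1027 w0_8)) (V (F 516 (V (F 64 (U (S (F 130 (T L (V (T L L) L))) (T (S L (F 4 (V (U L L) L))) (V (F 4 (T (F 32 (S L L)) (F 32 (S L L)))) (F 130 (T (S L L) L))))) (F 128 (T (T L (F 32 (S L (S L L)))) (T (F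 32 (S L (V L L))) (F 32 (S (S L L) (V L L)))))))) (F 129 (T (F 64 (U (S L L) (V L (T (S L L) (S L L))))) (S (F 64 (U (V L (V L L)) (T (S L L) (S L L)))) (U (T (F 2 (V L L)) (S (S L L) L)) (V (F 2 (T L L)) (T L (S L (T (S L L) L)))))))))) (F 1026 w0_9))))
noncomputable def w0_11 : Tr := (V (F 32 (U (T (S (K 2) (V (V (S L L) L) (S L L))) (S (T L (S (K 3) L)) (V (U (T (S L L) (V L L)) (S (T L L) (T (V L (S L L)) (S L L)))) (U L (T L L))))) (T (S (V (U L (V L (S L L))) (U L (V L (S L L)))) (T (V L (S L L)) (V (U (V L (S L L)) (V L L)) (U (S L L) (S (S L L) L))))) (S (V (U (U L (T L L)) (T (S (V (S L L) L) (S L L)) (S L L))) (U (T L L) (T (S L (S L L)) (S L L)))) (T (V (S (U (S L L) (S L L)) (S (S L L) (S L L))) (V (S (T L L) L) (S (T L L) L))) (V (S (T (U L L) L) (T (S L L) (S L L))) (S (U L L) (T (S L L) L)))))))) (U (T L (F 32 (T (S (K 3) L) (K 3)))) (S (T (V (F 32 (T L (T L L))) (F 65 (S L L)))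 (T (F 96 (S L L)) L)) (F 32 (T (U (V (V L (S L L)) (T (S L L) (S L L))) (T (V (S L L) L) (V (S (S L L) (S L L)) L))) (T (V (S (S L L) (U L (S L L))) (U L L)) (V (S (S L L) L) L)))))))
noncomputable def w0_12 : Tr := (T (F 4 (V (F 32 (S (U (V (U (T L (S L L)) (T L (S L L))) (T (V L L) (S L (V L L)))) (F 64 (V (S L L) (T L L)))) (V (U (S (T (U L L) L) (T (S L L) L)) (T L (S L L))) (U (T (S (S L L) L) (S (V L L) (S L L))) (T L (S L L)))))) (V (F 32 (S (F 64 (T L L)) (U (T (S L (S L L)) (S (T L L) (T L L))) (F 64 (T L L))))) (F 1 (S (F 2 (T L L)) (F 4 (U (T L (S L L)) (T L L)))))))) (V (F 12 (S (T (U (V (S (V (S L L) (S L L)) (T L L)) (S L (U (T L L) L))) (V (T L L) L)) (V (U (V (T L (S L L)) (S (S L L) L)) (S L (S L L))) (U (U (S L L) L) L))) (T (V (S (U (S L L) L) (U (S L L) L)) (S (U (T L L) L) (U (T L L) L))) (V (S (U (T L L) (S L L)) (U (S L L) L)) (S (U (T L L) L) (U (T L (S L L)) (S L L)))))))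 (S (F 258 (T (F 48 (U L L)) (F 16 (U L (S L L))))) (F 12 (U (V (T (T (S L L) (S L L)) (U (S L (S L L)) L)) (F 1 (T L L))) (F 1 (T (S L L) (V L L))))))))
noncomputable def w0_13 : Tr := (T (F 1 (S (F 258 (T (F 1 (V (T L L) (F 1 (S L L)))) (V (F 65 (V (U L (S L L)) (F 1 (S L L)))) (F 128 (T (F 64 (S L L)) (V (F 64 (S L L)) (U (S L L) L))))))) (F 528 (V (F 32 (T (F 64 (S L L)) (T L (F 2 (V L (T L L)))))) (F 192 (T L (T L L))))))) (F 1 (V (F 516 (T (F 64 (U (S (S (F 65 (T L L)) (T L (T L L))) (F 4 (V (F 16 (S L L)) L))) (S (T (F 64 (T L L)) (V (S L L) L)) (F 4 (T (T L L) (T L L)))))) (F 64 (S (U (V (S (T L L) (F 4 (T L L))) (F 1 (T L L))) (V (T (S (T L (S L L)) L) (S (T (S L L) L) L)) (F 1 (T L L)))) (F 4 (U (V (T (S L L) (S L L)) L) (T (S L L) (S L L)))))))) (F 3 (U (S (T (F 2 (V (F 64 (T L L)) (V (F 64 (S L L)) (S (T L L) L)))) (V (F 129 (T L L)) (F 2 (S (T (V L L) L) L)))) (F 129 (T (T L L) (V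 L (T (S L L) L))))) (F 1 (T (S (F 64 (V L (T L L))) (F 1 (T L L))) (S (T (F 64 (V L L)) (F 1 (V L L))) (F 1 (V L (T L L)))))))))))
noncomputable def w0_14 : Tr := (U (V (F 130 (T (T (F 136 (V (K 3) L)) (F 12 (V (U (K 4) (U (K 4) (V L L))) (U L (V (S L L) (T L (S L L))))))) (F 4 w0_11))) (T (S (F 517 (U (V L L) (V (F 128 (T L (F 32 (S L L)))) (F 1 (T L (V (U L L) (S L L))))))) (F 64 (V (F 260 (U L (T L (F 1 (V L L))))) (F 513 (T (F 2 (S L L)) (F 2 (V L L))))))) (V (F 2 (U (T (S L L) (K 6)) (F 516 (S (F 64 (U (T (S L (S L L)) (K 4)) (V (T (S L L) (S L L)) (F 1 (T (T L L) L))))) (F 16 (T (F 2 (V L L)) (T L (K 4)))))))) (F 1537 (U (S (T (F 64 (S L L)) (S L (K 4))) (F 1 (S L L))) (S (T (F 64 (V (T (U L L) L) (T (S L L) (U L (V (S L L) L))))) (V (F 1 (S L L)) (F 64 (S (T (U L (S L L)) L) L)))) (F 1 (S (V (F 1 (T L L)) (T L (T L L))) L)))))))) (V (F 258 (T (F 4 (T (F 35 (V L L)) (V (F 32 (U (S L (V (V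 L L) (S L L))) (F 64 (S L (T L L))))) (S (F 3 (S L L)) (F 32 (T (F 64 (T L L)) (V (U (S L L) L) (F 64 (S L L))))))))) w0_12)) w0_13))
noncomputable def w0_15 : Tr := (S (T (V (U (S (V L L) (V (S L L) (S L L))) (S (V L (S L L)) (V (S L L) (S L L)))) (V (U (S (S L L) (S L L)) (S L (S L L))) (T (S L L) (S L L)))) (V (U (S (T (S L L) (S L L)) (V (T L L) (T (S L L) (S L L)))) (S (T (S L L) L) (T (S L L) (S L L)))) (S (S L L) (V (T L L) L)))) (T (V (S (V (T L (S L L)) (U (T L L) (T L L))) (U (T (V (S L L) L) (S (S L L) (T L L))) (V (S L L) (T L (S L L))))) (S (V (S (S L L) (U L L)) (T L L)) (V (S (U (S L L) L) (U (S L L) L)) (T L (S L L))))) (V (S (U (V (T (S L L) (S L L)) (T (S L L) (S L L))) (T (S L L) (S L L))) (S (U (V (T L L) (T L L)) (T L L)) (U (V (T L L) (T L L)) (T L L)))) (S (V (T (S L L) (S L L)) (T L L)) (V (T (S L L) (S L L)) (T (S L L) (S L L)))))))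
noncomputable def w0_16 : Tr := (V (S (T (V (S (S (S L L) (U L L)) (S (U (S L L) L) (U (S L L) L))) (S (V (S L L) L) (T (S L L) (S L L)))) (V (S (V (S L L) (S L L)) (T (S L L) (S L L))) (S (V (S L L) (S L L)) (T (S L L) (S L L))))) (T (V (S (T (U L L) (S L L)) (T (S L L) (S L L))) (S (V (S L L) (S L L)) (T (S L L) (S L L)))) (V (S (V (S L L) (T L L)) (T (S L L) (V L L))) (S (V (S L L) (S L L)) (V (T L L) (T L L)))))) (S (T (V (S (V L (T L L)) (T L L)) (U (S L L) (S (S L L) (S L L)))) (V (S (T L L) (T (S L L) L)) (S L (S L L)))) (V (T (S (T (S L L) (S L L)) (T (S L L) (S L L))) (S (T (S L L) (S L L)) (T (S L L) (S L L)))) (T (S (T L L) (T L L)) (U (S L L) (S (T L L) (S L L)))))))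
noncomputable def w0_17 : Tr := (U (V (T (S (V (T (S L L) (U (S L (V L L)) (S (S L L) (S L L)))) (U (T (S (K 4) L) (V (S L L) L)) (T L (S (S L L) (S L L))))) (V (T (U (V L (S L L)) (S L L)) (S (V (U L L) (S L L)) (T (T L L) (U (T L L) L)))) (S (T (U (S L L) L) (S (U (T L L) L) (V (U L L) L))) (T (U (U L L) (S L L)) (S (V (U L L) L) (V (T L (S L L)) L)))))) w0_15) (T (S (U (T L L) (V (T L (S L L)) L)) (V (S (T (V (S L L) L) (V (T L L) L)) (T (U (S L L) L) (V (S L L) L))) (T (S L L) L))) (S (V (T (V (S L L) L) (S L L)) L) (V (T (S (T (S L L) (S L L)) (V (T L L) (S L L))) (S (S L L) (U L (T L L)))) (S L L))))) (T (V (S (T (V (U L (S L L)) (U (S L L) (S L L))) (V (V (S L L) (S (S L L) (S L L))) (S (V L L) (T L L)))) (T (S (V (V L L) (S L L)) (V (V L L) (S L L))) (S (V (U (S L L) L) (V L L)) (V (U (S L L) L) (V (S L L) L))))) (S (V (T (S (S L L) (T L L)) (V (T L L) (T L L))) (T (S (T L L) (T L L))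 (U (S L L) (T L (S L L))))) (V (T (S (S L L) (S L L)) (S (T L L) (T L L))) (T (S L (S L L)) (S (S L L) (S L L)))))) w0_16))
noncomputable def w0_18 : Tr := (V (S (T (V (S (U (S L L) L) (U (S L L) L)) (S (U (S L L) L) (U (T L L) L))) (V (S (U (T L L) (S L L)) (U (T L L) (S L L))) (S (U (T L (S L L)) (S L L)) (U (T L L) (S L L))))) (T (V (S (U (S L L) L) (U (S L L) L)) (S (U (T L L) (S L L)) (U (T L L) (S L L)))) (V (S (U (T L L) (S L L)) (U (T L (S L L)) (S L L))) (S (U (T (S L L) (S L L)) (S L L)) (U (V (S L L) (S L L)) (S L L)))))) (S (T (V (S (U (T L L) L) (U (T L L) (S L L))) (U (S L (T L L)) L)) (V (S (U (T (S L L) (S L L)) L) (U (T L L) (S L L))) (U (S L (T L L)) (F 1 (S L L))))) (T (V (S (U (T L L) (S L L)) (U (T L L) (S L L))) (U (S (T L L) (T L L)) L)) (V (S (U (T L L) (S L L)) (U (V (S L L) (S L L)) (S L L))) (U (S (V (S L L) L) (T L L)) (F 1 (S L L)))))))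
noncomputable def w0_19 : Tr := (V (F 4 (T (V (S (T (V (U (U (S L L) L) L) (U (S L L) L)) (V (S (T L L) (T L L)) (S (V L L) (V L (S L L))))) (T (V (S L L) (S (S L L) (S L L))) (V (S (T L L) (S L L)) (S (T L (S L L)) (U (S L L) L))))) (S (T (V (U (S L L) (S L L)) (U (S L L) L)) (V (U (S (S L L) (S L L)) (S L L)) (S L (U (S L L) L)))) (T (V (S (S L L) (S L L)) (U (S L L) (S L L))) (V (S (U (S L L) L) (U (S L L) L)) (S (U (S L L) L) (T L (S L L))))))) w0_18)) (T (V (V (F 4 (S (F 1 (T (U L L) (U L L))) (T (T L L) (F 1 (S (S L L) L))))) (F 128 (T (S (F 32 (U L L)) (F 16 (S L L))) (S (F 32 (U L L)) (T (F 16 (S L L)) (S L L)))))) (F 128 (T (F 32 (U L L)) (F 32 (U L (F 1 (S L L))))))) (F 128 (S (V (T (V (F 16 (S L (T L L))) (F 32 (U L L))) (F 32 (U (S L (S L L)) (S L L)))) (F 96 (U (T L L) (T L L)))) (V (T (V (F 16 (U (S L L) (S L L))) (U (V L L) L)) (V (F 16 (U (S L L) (S L L))) (F 32 (U (S L L) L))))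 (U (F 64 (T L L)) (F 96 (S L L))))))))
noncomputable def w0_20 : Tr := (U (V (F 4 (T (T (V (S L (S L L)) (S L (U L (S L L)))) (U (V (S (V (K 4) L) (T L (V (U L L) (S L L)))) (S (S L L) (T L (U L (V L L))))) (V (V (S (S L L) (S L L)) (S (U L L) (U (S L L) (S L L)))) (S (V (V L L) (T L (S L L))) (V (T L (S L L)) (T L (S L L))))))) w0_17)) (T (U (V (F 4 (T L (S L L))) L) (V (F 4 (T L (U (S L L) (V (T (S L L) (S L L)) L)))) (F 129 (S L L)))) (V (U (T (S (S L L) L) (S (K 4) (S L L))) (T (V (F 4 (T (S (T L L) L) (S (S L L) (S (S L L) L)))) (F 128 (S (F 64 (S L L)) L))) (S (F 128 (V (F 16 (S L L)) L)) (V (F 4 (V (U (S L L) (T (S L L) L)) L)) (F 128 (S L L)))))) (F 129 (U L (T (S L L) L)))))) (T (V (F 4 (V (S (T (U L L) (T (U (S L L) L) (U (V (S L L) (S L L)) (S L L)))) (T (U (S L L) L) (T (U (S L L) L) (S (U (S L L) L) (U (S L L) L))))) (T (U (T L (V L (S L L))) (F 1 (S L L))) (S (V (T (S L L) (U (S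 L L) L)) (U (T L (S L L)) L)) (V (T (S L L) (S L L)) (T (S L L) (S L L))))))) (T (V (F 4 (T (F 1 (S L L)) (F 1 (U L L)))) (F 128 (U L L))) (V (U (F 4 (V (S (F 1 (T L L)) (T L (S L L))) (F 1 (S L L)))) (F 128 (T (F 16 (S L L)) (V L (S L L))))) (F 128 (U L (F 64 (S L L))))))) w0_19))
noncomputable def w0_21 : Tr := (T (F 0x55045afe84120bc0 (U (F 189014279232 (S (K 13) (F 143726848 (V (K 12) (F 8260 (T (F 8320 (U (K 9) (F 28715 (S (K 5) L)))) (F 16432 (U (S (K 9) L) (F 8227 (V L L)))))))))) (F 55406771911 (S (F 581640 (T (F 131 (V (K 8) (F 5 (U (T L L) (F 513 (S L L)))))) (F 24709 (S (V (K 6) (F 1 (U (T (S L L) (F 96 (S L L))) (T L L)))) (F 16 (U (V (K 3) (F 256 (T L L))) (F 1 (T L (F 8 (V L (V L L))))))))))) (F 17281 (T (F 6 (U (F 16 (V (K 6) (F 9 (U L (T L L))))) (F 7168 (V L (F 1 (S L L)))))) (F 57 (U (T (F 512 (S L (F 96 (S L L)))) (F 33 (S (V (K 4) L) (F 66 (V (F 4 (V (K 3) L)) L))))) (F 512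 (V (F 608 (T L (F 68 (S L L)))) (F 1 (T (S L (F 8 (V L L))) (F 33 (U (S L L) (S L (F 16 (V L L))))))))))))))))) (F 0x56860ef3a47503c4 (U (F 8589951904 (S (F 169084146 (V (F 16 (U (K 8) (F 69665 (V (K 6) (F 260 (S (K 5) (F 512 (S (K 4) L)))))))) (F 67584 w0_1))) (F 7607522 (V (F 28674 (U (F 4096 (U L (F 4621 (S (K 3) (F 4 (U L (T (K 4) L))))))) (F 13833 w0_3))) (U (T (F 5 (S L (K 10))) (K 8)) (F 149539 (T (F 2048 (S (V L (F 1537 (S L L))) (F 64 (V L (K 6))))) (U (K 6) (F 2048 (T (V (F 256 (S (K 5) L)) (K 3)) (K 4))))))))))) (F 15542026147 (S (F 9216 (T (F 132 (V (S (F 514 (U (K 3) (F 1 (T L (U (S (K 4) L) L))))) (F 256 (U (F 32 (S (K 4) (U (K 4) (F 4 (V (K 3) L))))) (F 1 (T (F 10 (S L L)) (V (F 12 (T L L)) (F 2 (U L L)))))))) (F 514 w0_4))) (F 128 w0_10))) (F 9232 (S w0_14 (F 322 w0_20))))))))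
noncomputable def w0_22 : Tr := (U (F 11665668 (S (F 805568560 (V (F 18874640 (T (F 1082372 (U (F 32768 (S (F 2592 (S L L)) (F 32 (T L L)))) (F 58368 (S (F 257 (T (F 33 (S L L)) (S L L))) (F 512 (S L L)))))) (F 1065094 (U (F 16 (U L (F 3 (S L (K 4))))) (F 57360 (S (T (F 512 (S L L)) (F 516 (U L (F 4 (S L L))))) (F 256 (T L (F 390 (S L L)))))))))) (F 1310849 (T (F 136192 (U (S (F 131104 (U L (F 32834 (S L L)))) (K 6)) (F 42016 (S (F 8193 (V L L)) L)))) (F 16512 (U (F 264192 (U (K 10) (F 8195 (S L (K 5))))) (F 475144 (S (F 2048 (V (F 4104 (S L L)) (F 673 (S L L)))) (F 1024 (V (K 4) L)))))))))) (F 273434636 (V (F 2097248 (T (F 131088 (U (F 256 (U (K 10) L)) (F 28673 (S (F 2 (S L L)) L)))) (F 393780 (U (K 4) (F 1032 (V (F 512 (S L (K 2))) (K 7))))))) (K 8))))) (F 10631512455 (S (F 2154496 (T (F 16393 (V (F 4357 (U (S (F 1056 (T L (F 128 (S L L)))) (F 32 (U L (F 512 (S L L))))) (F 3 (S L (F 32 (T L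 L)))))) (F 128 (U (S (F 4112 (S L L)) (F 10240 (S L L))) (F 6 (S L L)))))) (F 212996 (U (V (F 3137 (S (V (F 2 (T L (F 4 (S L (F 32 (S L L)))))) (T L L)) (F 2 (T (F 16 (V L L)) (F 12 (U (S L L) (S L L))))))) (F 8 (S (F 4 (V (F 545 (S L L)) L)) (F 4 (V L L))))) (F 2048 (V (F 4166 (S (T (F 256 (S L L)) (F 260 (S L L))) (F 256 (T L (F 48 (S L L)))))) (F 513 (S (S L L) (F 512 (S L L)))))))))) (F 2253056 (T (F 24585 (U (V (F 65 (T (F 1 (S L L)) L)) (F 1024 (S L (K 2)))) (F 1025 (V (F 33 (S L L)) (F 2 (S L L)))))) (F 66068 (V (F 3138 (U (T (F 128 (S L L)) (F 272 (V (S L L) L))) (F 1 (T (F 2 (S L L)) (F 19 (S L L)))))) (F 4 (U (F 1152 (U (K 6) (F 128 (S L (K 2))))) (F 133 (S L L)))))))))))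
noncomputable def w0_23 : Tr := (U (U (S (T (V (S L L) L) (V (S (T (V (S L L) (S L L)) (V (S (S L L) (S L L)) (S L L))) (T (V (S L L) (S L L)) (V (S L L) (S L L)))) (T L (S L L)))) (T (K 1) (S (V (T (K 1) L) (S L L)) L))) (S (T (V (T L (S (S L L) (S L L))) (S L L)) (V (S (T (V (S L L) (S L L)) (V (S (S L L) (S L L)) (S L L))) (T (V (S L L) (S L L)) (V (T (S L L) L) (S L L)))) (V (S (T L L) (T L L)) (S L L)))) (T (S (K 1) (K 1)) (V (S (T (T (K 1) L) (T L L)) (K 1)) (T (S L (K 1)) L))))) (S (T (V (T (S L L) (S (V L L) (V L L))) (S L (S L L))) (V (S (T (V (S L L) (S L L)) (V (S (S L L) (S L L)) (S L L))) (T (V (S L L) (S L L)) (V (S (S L L) L) (S L (S L L))))) (S (T (S L L) (S L L)) (T (V (S L L) L) (S L L))))) (T (S (V (V L L) (S L (K 1))) (K 1)) (V (S (T (V (S L L) (S L L)) (V L (S L L))) (T (K 1) L)) (S (V (T L L) L) (T (K 1) L))))))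
noncomputable def w0_24 : Tr := (S (T (V (S (T (S L L) (V (S L L) L)) (T (V L L) (V (S L L) (S L L)))) (S (T L (S L L)) (T (S L L) (V L L)))) (V (S (T (V (S (S L L) (S L L)) (S L L)) (V (S (S L L) (S L L)) (S (S L L) (S L L)))) (T (V (S (S L L) (S L L)) (S L L)) (V (S (S L L) (S L L)) (S (S L L) (S L L))))) (S (T (S L (S L L)) (V (S L L) L)) (T (V (S L L) L) (V (S L L) (S L L)))))) (T (V (S (T L (V (V L L) (S L L))) (V (T L L) (S L L))) (S (T L (V (S L L) L)) (V L L))) (V (T (V (S (T L (V L L)) (T L L)) (S (T L (S L L)) (S L L))) (S (V (S (S L L) L) (S (S L L) (S L L))) (U (T L L) (T L L)))) (T (S (V (V L L) (S L L)) (S (V L L) L)) (S (V (S L L) (S L L)) (U (T L L) (V L L)))))))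
noncomputable def w0_25 : Tr := (T (T (S L L) (V (S (S (T L L) (V L L)) (V (S L L) L)) (S L L))) (V (S (T (V (S (T L (V L L)) (T (S L L) (V (S L L) L))) (S (S L L) (T L (S L L)))) (V (S (T (V (S L L) (S L L)) (V (S L L) (S L L))) (T (V (S L L) (S L L)) (V (S L L) (S L L)))) (S (T (S L L) (S L L)) (T (S L L) (V (S L L) L))))) (T (V (T (S (S L L) L) (S (V (S L L) L) (V (S L L) (S L L)))) (S (T (S L L) (S L L)) (T L (V L L)))) (V (S (T (V (T (S L L) L) (S L L)) (V (T L (S L L)) (S L (S L L)))) (T (V (S L L) (S L L)) (V (S L L) (T L L)))) (S (T (V (S L L) L) (V (S L L) L)) (T (V (S L L) L) (V (S L L) L)))))) (S (T (S L L) (S L (T L L))) (T (V (S L (S L L)) L) (V (S (T L L) (T L L)) L)))))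
noncomputable def w0_26 : Tr := (U (F 128 (S (T (F 192 (T L (U L (V (S L (S L (K 1))) L)))) (F 192 (U (V (U (S (T L (U (U L L) (V (U (S (S (S L L) L) L) (S (T L (V (S (S L L) (S L L)) L)) (T (K 1) L))) L))) (T (K 1) L)) (U (S (T (S L L) (V (S (T (V L L) (V (S (S L L) (S L L)) (S L L))) (T (V L L) (V L L))) L)) (T (K 1) (T (K 1) L))) (S (T (V (S L L) L) (V (T (S (V (S L L) L) (V (S L L) (S L (K 1)))) (S (V (S (S L L) (S L L)) (S L L)) (V (S L L) (S L L)))) (S L L))) (T (K 1) (T (K 1) (T L L)))))) (S L L)) (V w0_23 (V (T (S L L) (S L (S L L))) L))))) (F 192 (T (K 1) (T (K 1) (V (V (K 1) L) L)))))) (S (F 134 (U (T (T (S L L) (V (S (V (S L L) L) (V L L)) (S L L))) (V w0_24 (S (V (T (T L L) (S L (S L L))) L) (V (T (S (S L L) L) (V (S (S L L) (S L L)) L)) L)))) w0_25)) (F 134 (U (T (T (S (K 5) (K 5)) (K 5)) (S (V (T (K 5) (V (T L L) (U L (V (S L L) L)))) (T L (S L L))) (T (K 5) L))) (T (V (T L (S (V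 L (K 5)) (K 5))) (S L (K 5))) (V (S (T (V (S (V L L) L) (T (K 5) (V L (S L (K 5))))) (V (S (T (V L (S L L)) (U L L)) L) (S (T (V L L) (U (T L L) (S L L))) (T L L)))) (T (K 5) (T (K 5) L))) (S (V (T (S L L) (S (T L L) (S L L))) (S L L)) (T L L))))))))
noncomputable def w0_27 : Tr := (S (T (V (S (T (T L L) (V L L)) (V (T (S L L) (U L L)) (T L L))) (S (T L L) (T L (S L L)))) (V (S (T (V (S L L) (S L L)) (V (S L (U L L)) (S L L))) (T (U (V (S L L) L) (T L L)) (U (V (U (S L L) L) (S L L)) (S L (S L L))))) (S (T (S L L) (S L (S L L))) (T (S L (S L L)) (V (S L L) L))))) (T (S (V (T (U (S L L) L) (U (V L (S L L)) (S L L))) (T L (S L L))) (V (V (T (S L L) (S L L)) (U (T L L) (S L L))) (V (U (T L L) L) (S L L)))) (V (S (T (S (T L (T L L)) (T L (S L L))) (V (S L L) (U (S L L) L))) (T (V (S L L) (S L L)) (V (S L L) (S L L)))) (S (V (U (T L L) (T L L)) (T L L)) (T (U (S L (S L L)) L) (U (V L L) (S L L)))))))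
noncomputable def w0_28 : Tr := (T (V (F 32 (U (S (T L (V (S L (S L L)) (S L L))) (T (S L (S L L)) (V (U (S (S L L) L) (S L L)) (U (S L L) L)))) (T (S L L) (S (V (S L (S L L)) L) (S (V L L) (V L L)))))) (T (F 32 (S L L)) (F 32 (U (S L (S L L)) (S L L))))) (F 32 (U (V w0_27 (S (T (S L L) (S (S L L) (T L L))) (T (V (S (S L L) (S L L)) L) (V (S (T L L) (T L L)) (S L L))))) (S (V (T (V (T (U (S L L) L) (U (S (S L L) (S L L)) (S L L))) (S L (U L L))) (V (S (U (V (T (S L L) L) (S L L)) (T L L)) (V (U (T L L) (S L L)) (T L L))) (S (T L L) (V (T (S L L) (S L L)) L)))) (T L (S L L))) (V (T (V (S (U (T L (S L L)) (S L L)) (U (T L (S L L)) (S L L))) (T (S L L) (S (S L L) L))) (V (S (V (U (T L L) (S L L)) (T L L)) (V (T (S L L) (U L L)) (T L L))) (S (T L (T L L)) (T L (S L L))))) (T (S L (U L L)) (V (S L (T L L)) L)))))))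
noncomputable def w0_29 : Tr := (T (V (T (S L L) (S (V (T L (S L L)) (U L L)) (V (S L L) L))) (T (S L (K 5)) (S (S L (S L L)) L))) (V (S (T (V (U (S (T L (V L L)) (T L L)) (T (S L L) (S (S L L) (S L L)))) (U (S (T L (T L L)) (S L L)) (T (S L L) (S L L)))) (V (T (S (V (V L L) (T L L)) (U (T L L) (S L L))) (U (S (V L L) (S L L)) (S (S L L) L))) (T (S (U (T L L) L) (U (V L L) L)) (S (V (S L L) L) (U (V L L) (S L L)))))) (T (V (T L (S L L)) (T L (S L L))) (U (V L (T L L)) (V (T (S L L) L) (S (T L (S L L)) L))))) (S (V (T (U (S (S L L) L) (S L L)) (U (S (T L L) (T (S L L) L)) (T (S L L) (S L L)))) (T (S L L) (T L L))) (T (T (S L L) (V (S L L) (S L L))) (U (S (T L L) L) (V (S (S L L) L) (S L L)))))))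
noncomputable def w0_30 : Tr := (T (V (T (S (S L L) (S L L)) (S (V (S L (S L L)) (S L L)) (V (U L (S L L)) (S L L)))) (T (S L L) (S (V L L) (S L L)))) (V (T (S (V (S (T (S L L) (U (S L L) L)) (U (T L (S L L)) (S L L))) (S (T L L) (T L L))) (V (U (T (S L L) (V (S L L) L)) (T (S L L) (S L L))) (T (S L L) (S (S L L) (S L L))))) (S (V (T (V (S (S L L) (S L L)) (S L L)) (V (S (U L L) (S L L)) (S L L))) (S (T (S L L) (S L L)) (T L (S L L)))) (V (U (T (S L L) (S L L)) (T (V (S L L) L) (V (S L L) L))) (T (S (S L L) (S L L)) (S (S L L) (T L L)))))) (S (T (T (S L L) (V (S L L) L)) (S (T L L) (T L (S L L)))) (T (V (U (S L L) (S L L)) (T L L)) (V (T (S L L) (S L L)) (S L L))))))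
noncomputable def w0_31 : Tr := (T (T (S (U (V L L) L) (U (V (S L L) L) (F 1 (S L L)))) (V (S (S (U (S L L) L) (U (T L L) L)) (U (T (S L L) (V L (S L L))) (V (S L L) L))) (S (S L L) (V (S L L) L)))) (V (T (S (T (S (U (S L L) L) (U (S L L) L)) (S (U (V L L) (S L L)) (U (V L L) (S L L)))) (T (U (V (S L L) (S L L)) (V L L)) (U (V (S L L) (U L (S L L))) (V L L)))) (S (S (T (U (V L (S L L)) (S L L)) (U (V (S L L) L) (S L L))) (T (U (V L (S L L)) (S L L)) (U (V L L) (S L L)))) (T (U (V (S L (S L L)) (S L L)) (U (V L L) L)) (U (V (S L (S L L)) (S L L)) (U (V (S L L) L) L))))) (S (T (V (S L L) L) (V (U (S L L) (S L L)) (T L L))) (T (V (U (S L L) L) (S L L)) (V (U (S L L) (S L L)) (S L L))))))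
noncomputable def w0_32 : Tr := (V (F 397694 (U (F 128 (S w0_28 (F 32 (U w0_29 w0_30)))) (S (F 128 (T (S (T (V (F 32 (S L L)) L) (F 32 (S (V L L) (U (T L L) L)))) (F 32 (T (S L (S L L)) (V (S (U (S L L) L) (T L (S L L))) (S L L))))) (F 32 (S (T (V (S (U (T L (S L L)) (S L L)) (U (T L (S L L)) (S L L))) (U L L)) (V (S (T (U (S L (S L L)) L) (U (S (S L L) (S L L)) L)) (T (U (V L L) L) (U (V L L) (S L L)))) (U (S L L) L))) (V (T (S (U (T (S L L) (V L L)) (T L L)) (T (U (S L L) L) (U (V L L) L))) (S (T (U (V L L) (S L L)) (U (V (S L L) (S L L)) (S L L))) (T (U (V L (S L L)) (S L L)) (U (V L L) (S L L))))) (T (U (S L L) L) (U (T L L) (S L L)))))))) (F 132 w0_31)))) (F 128 (S (F 58370 (U (T (F 4 (V (F 545 (T L (F 66 (S L L)))) (F 2048 (U L L)))) (F 642 (V (F 257 (S L (F 2 (S L L)))) (F 512 (U (S L L) L))))) (F 4 (T (F 1024 (S L (F 1 (S L L)))) (F 1032 (V (F 34 (S L L)) L)))))) (F 62480 (U (F 1024 (V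 (F 273 (T (F 2 (U L (S L L))) (F 2 (U (S (S L L) L) (S (S L L) (T (S L L) L)))))) (T (S L L) (F 528 (U (S L L) (F 1 (S L L))))))) (F 1026 (V (F 273 (T (U (S L L) L) (T (S L L) (S L L)))) (F 512 (T (S L L) (S L L))))))))))
noncomputable def w0_33 : Tr := (U (T (F 64 (T (K 1) (K 1))) (V (T (F 64 (T (K 1) (K 1))) (V (S L (K 5)) (F 64 (S L L)))) (F 64 (U (T (K 1) L) (T (S (S L L) (K 1)) (V (S L L) L)))))) (T (F 64 (V (T (S L L) (V (U (S L (K 1)) (S L L)) (S L (K 1)))) (S (V (S L L) L) (K 1)))) (V (T (F 64 (V (U (S (T L L) (K 1)) (T (S L L) (S (V (S L L) L) (T L L)))) (S (T L (S L L)) (V (S L (K 1)) L)))) (V (S (F 64 (U (T L L) (T (V (S L (S L L)) (S L L)) (S L L)))) (F 1 (S L L))) (F 64 (U (S (V (S L L) (S L L)) L) (S (T (V (S L L) L) (V (S L L) L)) (S (T (S L L) (S L L)) L)))))) (F 64 (T (S (V (V (S L L) L) L) (V (S L L) L)) (S (V (T (V (S L L) L) (S L (T L L))) (T L (S L L))) (V (U (T L L) (T (S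 L L) (S (S L L) L))) (T (S L L) (U L (S L L))))))))))
noncomputable def w0_34 : Tr := (V (T (T (F 2 (U (S (V (S L (S L L)) (U L (S L L))) (V L (S L L))) (F 64 (S (S L L) (S L L))))) (F 2 (U (S (V (S (S L L) (T L L)) (S L (S L L))) (V L (U (S L L) L))) (F 64 (S (S L L) (S (S L L) L)))))) (S (F 2 (U (V (T (S (T L L) (U (S L L) L)) (S (U (T L L) L) (F 1 (T L L)))) (T (S (S L L) (T L L)) (S (S L L) (T L L)))) (T (F 64 (V L L)) (F 64 (V L (S L L)))))) (V (F 129 (U (U (S L L) (T L L)) (T L L))) (T (F 2 (S (U (V L L) L) L)) (F 130 (U (S L L) L)))))) (T (F 2 (U (S (V (T L (S L L)) (S L L)) (S (U (V L L) L) L)) (S (F 64 (S L L)) (F 64 (S L L))))) (F 2 (S (V (U (T (S L L) (S L L)) (S L L)) (U (S L L) L)) (U (S (U (V (T L L) L) (F 64 (S L L))) (F 64 (V (S L L) L))) (F 64 (T (S L L) (S L L))))))))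
noncomputable def w0_35 : Tr := (U (F 98304 (S (F 22801 (V (F 2 w0_33) (T (F 4 (V (F 64 (U L L)) L)) (F 4 (U (S L L) (V (F 64 (T (S L L) (S L (U L (T L L))))) (S L L))))))) (F 22808 (V (F 2 (T (T (K 5) (K 5)) (F 1 (U (V (K 2) (T (K 2) L)) (V (F 64 (T (K 3) (S L L))) (S (T (S L (K 2)) (V L (F 2 (S L L)))) L)))))) (F 256 (U (T L L) (T (F 64 (S L L)) (F 64 (S (F 2 (U L (S L L))) (F 65 (S L L))))))))))) (F 13 (T (F 5126 (V (F 544 (S (F 64 (V (T (S (U (S L L) L) L) (S (U (T (S L L) (V (S L L) (S L L))) (F 1 (S L L))) (F 16 (U (S L L) L)))) (T (U L L) (S (U (V L L) L) (F 16 (V L L)))))) (F 132 (T (S L L) (V (T L L) (S L L)))))) (S (F 2 (U (F 1 (T L L)) (F 256 (V L L)))) (F 577 (T L L))))) (F 70 (S (F 8 (V (F 257 w0_34) (F 128 (V (F 258 (U (T (S L (S L L)) (S L (S L L))) (F 64 (T L L)))) (F 1 (S L L)))))) (F 1163 (V (V (F 1 (U (T (S L L) (V (T L (S L L)) (S L L))) (T (S (S L L) L) (S (S L L) (V L L)))))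 (T (S (V (S L L) L) (F 1 (V L L))) (F 1 (U (V (S L L) (S L L)) (V (S L L) L))))) (V (U (S (T L L) (F 1 (S L L))) (S (S L L) (F 1 (T L L)))) (S L L)))))))))
noncomputable def w0_36 : Tr := (U (F 6 (T (F 1 (U (K 2) (U (K 2) L))) (K 5))) (F 514 (T (F 64 (V (S (T (U (K 2) L) (K 2)) (K 2)) (U (S (T (V (S (T L (K 2)) (K 2)) (U (S (T (V L (S (T L L) L)) (V (K 2) L)) (T (S L (K 2)) (K 2))) (S (T (V (S L L) (S (T (S L L) L) (S L L))) (V L (S L L))) (T (V L (S L L)) L)))) (V (K 2) (U (K 2) (V (K 2) (S L (K 2)))))) (K 2)) (S (T (V (S (T (U L (V L L)) (S L L)) (T (S L L) (K 2))) (S (T (U (V (S (S L L) L) (S (T L L) (T L L))) (V (S (T L L) L) (S (S L L) (T L L)))) (U (V L (S L L)) (V L (S L L)))) (T (U (V L (S L L)) (V L (S (S L L) L))) (U (S L L) (S L L))))) (V (U (K 2) L) (T (S (U L L) L) (S L (K 2))))) (T (V (K 2) (S (T (U (S L L) (S L L)) (S L (K 2))) (U (K 2) L))) (K 2)))))) (F 64 (V (K 2) (U (K 2) (S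 (S L (K 2)) (K 2))))))))
noncomputable def w0_37 : Tr := (T (S (V (S (U (K 3) (T (T L L) (K 3))) (T (U (T L L) (V (S L L) (S L L))) (U (K 3) (S L L)))) (K 3)) (V (T (U (S (T (V (S L L) L) (V (S L L) L)) (V (T (S (S L L) (S L L)) (S (S L L) (S L L))) (T (S L L) (S L L)))) (S (V (T (T L (S L L)) (S L L)) (S L (T L L))) (V (S (T (S L L) (S L L)) (T L L)) (T (U (S L L) (S L L)) (U L L))))) (S (U (V (S L L) L) (T (S L L) L)) (U (V (T (S L L) (S L L)) (T (S L L) L)) (T (V (V L (S L L)) (S L L)) (S L (T L L)))))) (T (S (U (K 3) (S L L)) (U (S L L) (T (S L L) L))) (S L (U L (S L L)))))) (S (T (V (S (K 3) L) (K 3)) (K 3)) (V (U (T (S L (S L (T L L))) L) (T (S (S L L) (T (S L L) L)) (S L L))) (S (K 3) (T L (K 3))))))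
noncomputable def w0_38 : Tr := (S (T (U (S (V (T (V (S L L) (S (S L L) (S L L))) (U (S L L) (S L L))) (U (T (V (S (S L L) (S L L)) (T L L)) (V (S (S L L) L) (S L L))) (T (S (S L L) (S L L)) (V L L)))) (V (T (U L (S L L)) L) (U (T (V (U L L) (S L L)) (V L L)) (T (V (S L L) (S L L)) (S L L))))) (V (S (T (V (S L L) (S L L)) (V L L)) (T (V (S L L) (S L L)) (V L L))) (S (T (V (S L L) (S L L)) (S (S L L) (S L L))) (T (V (S L L) (S L L)) (T (S L L) (S L L)))))) (U (S (T (V L (U (S L L) (V L L))) (V L L)) (T (U (S L L) (S L L)) L)) (V (S (U L (S L L)) L) (S (T (S L L) (S L L)) (U (S L L) (S L L)))))) (T (U (V (S (T L L) L) (U (T (S (V L L) (S L L)) (S L L)) (S (T (S (S L L) L) (S L L)) (S L L)))) (V (T (S (V L L) (S L L)) (S L L)) (S (T (V (S L L) (U L L)) (U L (S L L))) (T (S (S L L) (S L L)) (S L L))))) (U (S (U L L) L) (V (S L L) (S (S L L) L)))))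
noncomputable def w0_39 : Tr := (V (T (S (V (U (V (F 1 (S L L)) (U (T (S L L) L) (F 1 (S L L)))) (F 1 (T L L))) (T (S (U (S L L) L) (U (S L L) (S L L))) (S (U (S L L) L) (U (S L L) L)))) (U (V (F 1 (S L L)) (T (S (T L L) (T L L)) (S L L))) (F 1 (T (V L L) (S L L))))) (S (U (V (S L L) (T (S (S L L) L) L)) (V L (S (T L L) L))) (S (U (S L L) L) L))) (S (T (V (T (S (U (S L L) L) (U (S L L) L)) (S (U (S L L) L) (U (S L L) L))) (S (T (U (S L L) L) (V (S L L) L)) (T (U (S L L) L) (V (S L L) L)))) (V (S (T (V L L) (S L L)) (T (V L L) (S L L))) (S (T (S L L) L) (T (S L L) L)))) (T (V (T (S (U (S L L) L) (U (S L L) (S L L))) (S (U (S L L) L) (U (S L L) L))) (T (S (U (S L L) L) (U (S L L) L)) (S (V (S L L) L) (U (S L L) L)))) (U (V (S (S L L) L) (T (S L L) L)) (V (T (S L L) (S L L)) (S L (S L L)))))))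
noncomputable def w0_40 : Tr := (T (V (U (F 2 (S (F 2 (U (K 5) (F 128 (T (V (K 1) (V L L)) (K 1))))) (K 3))) (F 514 (T (F 1 (S (V (F 2 (U L (S L L))) (S (V (U (V L L) (F 2 (S L L))) (F 1 (U L (T L L)))) (F 2 (V (U L (S L L)) L)))) (F 2 (U (V L (S L L)) (V L (T (S L L) L)))))) (F 64 (S (F 64 (U L (S L L))) (U (K 4) (V (S L L) L))))))) (F 259 (U (V (T (S (U (V L (T (S L L) L)) (V (T (S (S L L) L) (S L L)) (T (S (V L (S L L)) (S L L)) (S (S L L) L)))) (U (S L (K 2)) (V (S L L) (T (S L L) L)))) (S (U (S L (K 2)) (S (T L L) L)) (K 2))) w0_38) w0_39))) (F 2 (V (U (K 3) (F 1 (U (K 5) (F 2 (S L (K 2)))))) (F 258 (U (T (S (V L (U (V L L) (S L L))) (U (K 4) (S L L))) (S L L)) (T (S (V (U L L) (U (S (S L L) L) (V (S L L) L))) (V L (U L (S L L)))) (U (S L L) L)))))))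
noncomputable def w0_41 : Tr := (V (F 512 (U (F 128 (V (T (F 4 (T (T (F 64 (S (K 3) (F 2 (S (K 3) L)))) (K 3)) (K 3))) (K 5)) (K 5))) (T (F 128 (T (F 2 (V (F 64 (U (S (F 64 (S L L)) (V L L)) (F 64 (S (V (S L L) L) (V L (S L L)))))) (F 1 (U (U (K 4) (T (S L L) (K 4))) (S (T L (S L L)) (T (V L (U (S L L) (S L L))) (S L L))))))) (F 258 (U (V (F 32 (S (K 3) L)) (K 2)) (V (S (S L L) L) (S L L)))))) (F 385 (T (S (K 4) L) (K 4)))))) (F 1026 (T (U (F 256 (T (V (S (F 64 (U (K 2) (V (K 2) (S L (K 2))))) (K 4)) (F 64 (U (S (V (K 2) (U (S L (K 2)) (S L L))) (K 2)) (S (V (S (S L L) L) (T (S (S L L) L) (S L L))) (V (U (K 2) L) (U (S L (K 2)) (S L L))))))) (V (K 4) (F 64 (S (U (K 2) (S L L)) (K 2)))))) (V (T (S (F 258 (V L (S (U (T L L) L) L))) (F 129 (U (F 1 (S L L)) (V (S L (U L (T L L))) L)))) (F 129 (S L (S L L)))) (F 256 (T (F 64 (S (U (V (T (S (T L L) (S L L)) (S L L)) (T (S (S L L) (S L L)) (S (S L L)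 L))) (V (T (S (S L L) L) L) (T (S L L) (S L L)))) (V (F 64 (U L L)) (U (T (U (S L L) (S L L)) (S L L)) (S L L))))) (S (F 64 (U (V L (S L L)) (V L (S (S L L) L)))) (F 1 (U L L))))))) (U (K 3) (T (V (F 129 (S L (K 4))) (F 256 (S (F 64 (S L L)) L))) L)))))
noncomputable def w0_42 : Tr := (U (F 8 (V (F 32 (T (T (V (U (S (K 3) (S L (S L L))) (S (S L L) (S (S L L) (V (S L L) L)))) (U (K 3) (S (S (K 3) L) (S L (S L L))))) (V (U (S (K 3) (S (K 3) L)) (S L (S L (S L L)))) (S (K 3) (S (K 3) (S L L))))) (S (K 3) (U (K 3) (V (T (S L L) L) (K 3)))))) (T (S (K 3) (F 32 (S (K 3) (U (K 3) (T (S L L) (K 3)))))) (K 3)))) (T (F 8 (V (F 32 (S (T (U (V (S (T L L) (T L L)) (U L L)) (V (S L (S L L)) L)) (V (U (S L (S L L)) L) (F 2 (S L L)))) (T (V (S (U (T L L) (S L L)) (U (T L L) (S L L))) (U (S (T (S L L) L) (T (S L L) (S L L))) (S L (S L L)))) (U (V (S (T L L) (T L L)) (S L (T L L))) (V (S (S L L) (S L L)) (F 64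 (S L L))))))) (S (F 65 (U (S L L) (V L L))) (V (F 32 (S L (T (U (T L L) L) L))) (F 65 (T L L)))))) (F 8 (V (F 32 (S (V (S L (U (T L L) L)) L) (T (U (V (S L (S L L)) (S L L)) (V (S L (S L L)) L)) (U (S L (S L L)) (U (S L (S L L)) L))))) (F 65 (S L (V L L)))))))
noncomputable def w0_43 : Tr := (S (U (T (V (S (T (U L L) (S L L)) (T (U (V (S L L) L) (S L L)) (U (S L L) (S L L)))) (S L (T L L))) (V (S (T L L) (T (U L L) (S L L))) (S (K 3) L))) (T (V (S (V (S L L) (S L L)) (T (V L L) (S L L))) (S (T L L) (T (S L L) (S L L)))) (V (S (T (S L L) L) (V (S L L) (S L L))) (S (S L L) (T L L))))) (V (T (S (U (T (S (U (S L L) L) (U (T L L) (S L L))) (S (U (S L L) L) (U (S L L) L))) (T (V L L) (V L L))) (U (T (S (U (T L L) L) (U (T L L) (S L L))) (S (U (T L L) L) (U (T L L) L))) (T (V L L) (V L L)))) (S (U (T (U (S L (S L L)) (S L L)) (V (S L L) L)) (V (S L L) (S L L))) (U (V (T (U (S L L) L) (T L L)) (T (S L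 L) (S L L))) (V (S L L) (S L L))))) (T (U (S (V (T (S L L) L) (S L L)) (V (T (S L L) (S L L)) (T (S L L) L))) (S (T (S L L) (S L L)) (V (T L L) (S L L)))) (U (S (T L L) (T (V (S L L) L) (S L L))) (S (T (S L L) (S L L)) (V (S L L) (S L L)))))))
noncomputable def w0_44 : Tr := (V (S (T (V (S (U (T L L) (S L L)) (U (T (S L L) L) (S L L))) (S (U (T (S L L) (S L L)) (S L L)) (U (T (S L L) (S L L)) (S L L)))) (V (S (U (T L L) (S L L)) (U (T L L) (S L L))) (S (U (T (S L L) L) (S L L)) (U (T L L) (S L L))))) (T (V (S (U (T (S L L) (S L L)) (S L L)) (U (T (S L L) (S L L)) (S L L))) (S (U (T (S L L) (S L L)) (S L L)) (U (T (S L L) (S L L)) (S L L)))) (V (S (U (V L (S L L)) (S L L)) (U (T L L) (S L L))) (S (U (T (S L L) L) (S L L)) (U (T (S L L) L) (S L L)))))) (S (U (V (T (S (T (S L L) L) (T L (S L L))) (S (S L L) (T L L))) (F 64 (T L L))) (F 64 (T (V (S L L) (S L L)) (S L (S L L))))) (T (V (S (U (T L L)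 (S L L)) (U (T (S L L) L) (S L L))) (U (U (V (S L L) L) (F 64 (S L L))) (F 64 (S L L)))) (V (S (U (T L L) L) (U (T L L) (S L L))) (U (U (T (S L L) L) L) (F 64 (S L L)))))))
noncomputable def w0_45 : Tr := (U (F 32 (T (V w0_43 (S (U (S (K 3) L) (T (V (S L (S L L)) (S L L)) (S L (S L L)))) (U (V (T (S L (S L L)) (S L L)) L) (T (V (S (T (S L L) L) (T (S L L) (S L L))) (U L (S L (S L L)))) (V (S (S L L) (T (S L L) L)) (S L L)))))) (V (S (T (V (U (S L (S L L)) (S (S L L) (V (S L L) L))) (U L (S L L))) (V (U L (S L L)) (S L L))) (T (V (S (U (T (V L L) (S L L)) (T (S L L) L)) (U (V (T L L) (S L L)) (T (S L L) (S L L)))) (U (S L (T L L)) (S (T L L) (V (S L L) L)))) (U (V (S (S L L) (V (S L L) L)) L) (V (S (S L L) (S L L)) (S L (S L L)))))) (S (T (U (K 3) (S (K 3) L)) (K 3)) (U (S (K 3) L) (T (S L (T L L)) (S L L))))))) (T (F 32 w0_44) (V (F 32 (S (T (V (S (U (S L L) L) (U (S L L) L)) (U (S (S L L) (S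 L L)) (S L (S L L)))) (U (S (V (S L L) L) (V (S L L) L)) (V (S L L) L))) (T (V (S (U (S L L) L) (U (S L L) L)) (S (U (S L L) L) (U (S L L) (S L L)))) (V (S (V L L) (T L L)) (S (U (S L L) L) (T L L)))))) (S (V (F 32 (T (U (S L L) L) L)) (F 65 (S L L))) (F 32 (U (V (T (S (S L L) (S L L)) (U L L)) (F 64 (T L L))) (F 64 (T (S L L) (S L L)))))))))
noncomputable def w0_46 : Tr := (V (F 517 (T (S w0_42 (F 8 w0_45)) (F 8 (S (U (V (F 32 (T (S (K 3) (S (K 3) L)) (K 3))) (K 3)) (T (V (F 32 (S L (U (T L L) (F 64 (S L L))))) (F 1 (S (K 4) L))) L)) (U (V (F 32 (T (S (T (U L (S L L)) L) (U (T (U L (S L L)) L) (T (V (S L L) L) (T L L)))) (U L (S L (S L L))))) (V (F 32 (T (U (K 3) (S (K 3) L)) L)) (K 3))) (T (V (F 32 (S (T (U (S L (S L L)) (V (S L L) L)) (U L L)) (T (V (S (S L L) (S L L)) (U (S L L) L)) (U (V L L) L)))) (F 1 (S L (U L (T L L))))) (V (F 32 (T (V (S L (S L L)) L) (F 64 (S L L)))) (F 1 (U L L)))))))))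 (T (U (U (K 5) (F 515 (T (S (F 2 (V (K 3) (F 128 (S (V (K 3) (S L (K 3))) (K 3))))) (F 264 (V (S (K 2) (V L L)) (K 2)))) (K 5)))) (F 515 (S (V (F 256 (T (U (F 64 (S (V L L) L)) (F 64 (S (V (S (U L L) L) L) (F 4 (T L L))))) (F 64 (U (K 4) (S (S L L) L))))) (F 3 (T (U (S (V L (S L L)) (F 1 (S L L))) (F 1 (S (V (S L L) (S L L)) (V L L)))) (F 1 (U L (S L L)))))) (F 264 (T (V (S (F 32 (T (U L (S L L)) (U L L))) (U (T (V (F 16 (S L L)) (U L L)) (V (S (S L L) L) L)) (V (T (F 16 (S L L)) (S L L)) (F 96 (S L L))))) (F 32 (U (F 1 (S L L)) (F 1 (S L (S L L)))))) (V (U (S L (U (S (K 2) L) L)) (F 32 (S L (T (S L L) L)))) (F 32 (U L (F 1 (S L L)))))))))) (F 3 (U (K 6) (F 516 (S (F 64 (V (K 4) (F 1 (S L L)))) (F 80 (T (V (S L L) (F 1 (S L L))) (S (K 3) L)))))))))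
noncomputable def w0_47 : Tr := (T (F 0x55d054112085ff9a4 (U (F 17179869280 (S (F 15165822112 (V (K 9) (F 1015817 (S (F 4736 w0_36) (K 5))))) (F 13404278817 (V (F 42016 (S (K 8) (F 6144 (U (F 640 (T (F 3100 (S (K 3) (S (K 3) (S (K 3) (T (T (U (K 2) (U (K 3) L)) (K 3)) (K 3)))))) (K 6))) (F 3715 (T (F 4 (V (U (S (K 3) (T (V (U (T (S (T (S (K 3) L) (K 3)) (V (T (U L (S L L)) (S L L)) L)) (S (K 3) L)) (T (S (V (T (S L L) L) L) (V (T (S (S L L) (S L L)) (S L (S L L))) (T (S L L) L))) (S (S (K 3) L) (V (T (S L L) L) L)))) (T (S (K 3) L) (K 3))) (U L (S (K 3) L)))) w0_37) (S (K 3) (T (T (S (K 3) L) (K 3)) (K 3))))) (U (K 4) (V (F 4 (S (K 3) (U L (S L L)))) (K 4))))))))) (K 8))))) (F 171262213735 (S (F 69712 (S (F 21 w0_40) (F 20 w0_41))) (F 13392 w0_46))))) (F 0x1150c2810081f0100 (U (F 1125917086712576 (S (K 22) (F 83626251322906 (V (F 38020416 (T (F 13174920 (U (K 7) (F 29185 (T L (K 6))))) (K 13)))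 (K 15))))) (F 1248977566024479 (S (F 60571652 (V (K 6) (F 4352 (T (F 24598 (U (F 1024 (S (F 256 (U (K 3) L)) (K 5))) (S (F 1027 (S L L)) L))) (F 57345 (U (F 2432 (S (K 5) (K 5))) (F 2432 (S L L)))))))) (F 23609506 (T (F 17437 (U (S (K 7) (F 552 (V (V (F 32 (S L L)) (K 3)) (K 3)))) (F 2056 (V (F 34 (S (S (K 5) L) (T (F 4 (V (F 16 (S L L)) L)) L))) (F 256 (S (K 5) (F 9 (S (K 3) L)))))))) (F 85507 (V (F 256 (U (F 8 (T (S (K 4) L) L)) (F 2 (S L L)))) (F 516 (U (K 5) L)))))))))))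
noncomputable def w0_48 : Tr := (S (V (T (V (S (T (V (U (S (S L L) (S L L)) (S L L)) (U (S (S L L) (S L L)) (S L L))) (V (U (S (S L L) L) (S L L)) (U (S L L) (S L L)))) (T (V (U (S (S L L) (S L L)) (S L (T L L))) (S (T (S L L) L) (T (S L L) L))) (U (V (S L L) (S L L)) (V (S L L) (S L L))))) (S (T (V (U (S L L) (S L L)) (S L L)) (V (S L L) (S L L))) (T (V (S (S L L) (T L L)) (S L L)) (V (U L L) (S L L))))) (U (T (S (V (V L L) L) (V L L)) (S L L)) (T (V (S (S L L) L) (S L L)) (S (V L L) L)))) (T (V (S (S L L) (T L L)) L) (S L L))) (T (V (U (S (T (V (V (S L L) (S (S L L) L)) (V (S L L) L)) (V (S L L) L)) (T (V (S L L) (S L L)) L)) (V (S (T (V (S L L) (S L L)) (S L L)) (T (V L L) L)) (S (T (V (S L L) L) (S L L)) (T (V (S L L) L) L)))) (V (S (T L L) (S L L)) L)) (V (T (U (S L L) (V L L)) L) (S L L))))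
noncomputable def w0_49 : Tr := (T (F 25 (S (F 192 (U (U (V (S (T (U (V (S (T (V (S L L) L) L) L) L) (V (S (T (V (S (T L L) L) (S L L)) L) (V (S L L) L)) (S L (S L L)))) (V L (K 5))) (V (V (K 2) L) L)) (S (K 5) (K 5))) (V (S (T (V (S (T (V (S (T L L) (T L L)) (S (S L L) (T L L))) (V (U L (S L L)) (S L L))) (T (V (S (T L L) L) (S (T L L) (T L L))) (V L L))) (S (T (S L L) (S L L)) (T (S L L) L))) (S (V (S L L) L) L)) (T (V (T (U L (V L L)) L) (U L (V L L))) L)) (S (T L (K 5)) (S (K 5) (K 5))))) w0_48)) (F 192 (U (T (V L L) L) (V (S (T (U (V (T L (K 2)) L) (T (V (S L L) (S (S L L) L)) (S L L))) L) (T L (K 2))) (T (U (S L L) (S (S (S L L) L) L)) L)))))) (F 16 (S (F 128 (U (T (F 9 (V (F 64 (S L L)) L)) L) (F 1 (T (F 64 (S (F 2 (V (U L L) L)) L)) (V L L))))) (F 1024 (U (S L L) (F 4 (S L L)))))))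
noncomputable def w0_50 : Tr := (U (S (V (T (V (T (S (V (U (S L L) (S L L)) (S L L)) (U (V (T L L) (S L L)) (S L L))) (S (U (V (S L L) L) (V L L)) (U (V (S L L) (S L L)) (S L L)))) (S (T (S L L) (S L L)) (T (V (S L L) L) (S L L)))) (T (V (S (U (S L (S L L)) L) (S L L)) (S L L)) (S (V (S L L) L) (V L L)))) (T (S (S L L) (T L L)) (S L L))) (T (V (V (S (T (V (S L L) (T L L)) (V (S L L) (T L L))) (T (V (S L L) (S L L)) (U L L))) (T (S (V (U L L) L) (U (T L L) L)) (S (U (S L L) L) (S L L)))) (V (S (S L L) (T L L)) L)) (V (S (T (V (S L L) (V L L)) (S L L)) (V L (S L L))) (S L (S L L))))) (V (T (S (V (S (U (T (S L L) L) (T (S L L) L)) (V (T (U L L) (S L L)) (T L L))) (S (T L (S L L)) (U (T L L) (S L L)))) (V (S (V (T (U L L) (S L L)) (T L L)) (T (V (S L L) L) (S L L))) (S (T L L) (T (S L L) L)))) (S (V (S (T L L) (T L L)) (S (S L L) L)) (V (T (S L L) L) (S L L)))) (S (T (S L L) L) (T (V (U (S L L) (S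 L L)) L) (S L L)))))
noncomputable def w0_51 : Tr := (U (F 1024 (T (F 448 (U (T (S (V (V (S (T (U L L) L) (U L L)) (S (T (V (S L L) L) (S L L)) (T (V L L) L))) (V (T (S (U L L) L) (U L L)) L)) (V (U (V L (S L L)) (V (S L L) (S L L))) (U (S L L) (S (T L L) L)))) (S (V (V L (S L L)) (S L L)) (S (V L L) L))) (S (T (V (V (T (U (S (S L L) L) (S (S L L) (S L L))) (S (S L L) L)) (T (S L L) (S L L))) (S (S L L) (T L L))) (V (T (V L (S L L)) L) (S L L))) (T (V (V (T (S L (S L L)) L) (T (S L (V L L)) (S L L))) (V (S L (T L L)) L)) (V (V L L) (S L L)))))) (F 128 (S (F 2 (T (F 64 (V L L)) L)) (F 2 (U L (S L L))))))) (F 1026 (T (F 192 (V (U (S (T (V (S (T L (S L L)) (T L (V L L))) (T (S L L) (S L L))) (V (U (S L L) (S L L)) (S L L))) (T (V (U (T (V (S L L) L) (S L L)) (T (S L L) (S L L))) (T (S L L) (S L L))) (T (V (S L L) L) L))) (T (S (T (S (S L L) (S L L)) (S (S L L) (S L L))) (U (V (T (S L L) L) (S L L))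 (F 1 (S L L)))) (S (T (S L L) (S L L)) (S L L)))) (S (T (V (S L (S L L)) L) (S L L)) (T (V (T (S L L) L) L) (S L L))))) (F 128 (T (U (S (F 2 (S L L)) L) (F 1 (V (F 64 (S L L)) L))) L)))))
noncomputable def w0_52 : Tr := (V (F 133221 (S (F 768 (U (F 512 (T (F 192 w0_50) (S (F 128 (V (F 2 (U (T (V L (S L L)) L) (T (S L L) L))) (T (F 2 (S L L)) L))) (F 128 (T (F 2 (U (S L L) (V (S L L) L))) (S L L)))))) (F 514 (T (F 64 (S (V (T (S (U (V (T L L) L) (T L L)) (T (U (V L L) (S L L)) (U (V L L) L))) (U (V (S (T L L) (T (S L L) L)) (S L L)) (S L (S L L)))) (U (T (S L L) L) (S L L))) (V (T (S (T (U (V (S L L) L) (S L L)) (U (V L L) L)) (U (V (T L (S L L)) (S L L)) (T (S L L) L))) (U (V (S (T (S L L) L) (T L L)) (S L L)) (T (S L L) L))) (T (S L (S L L)) (S L L))))) (V (T (F 64 (S (U (S L (S L L)) L) (U (U L L) L))) (U (S L L) (F 128 (S L L)))) (T (S L L) L)))))) (F 512 w0_51))) (F 128 (U (S (F 4096 (T (F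 16909 (V (F 769 (S L (F 2 (S L L)))) (F 1024 (U (S L L) (S L L))))) (F 36 (V (F 1091 (T (F 1 (U L L)) (S L L))) (F 4128 (S (F 1024 (S L L)) L)))))) (F 6208 (T (F 5 (V (F 515 (S (F 6 (S L L)) (F 6 (U L L)))) (U (F 32 (S L L)) (F 2050 (S L L))))) (F 20 (V (F 2049 (U (S L L) (F 512 (S L L)))) (F 1056 (S L L))))))) (F 20480 (S (T (F 8213 (S (F 1024 (S L L)) (F 544 (S L L)))) (F 8220 (S L (F 1536 (S L L))))) (F 265 (T (F 1538 (V (F 256 (T (F 64 (S L L)) (S L L))) L)) (F 512 (S (F 1 (V L L)) (F 1 (V L L)))))))))))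
noncomputable def w0_53 : Tr := (U (F 1 (T (F 20 (S (F 256 (U (U (V (V (K 3) L) L) (V (V (K 3) (S L (K 3))) (T L L))) (V (S (T (F 2 (V (S (S L L) L) (U L (S L L)))) (F 2 (S L L))) (F 128 (T (V (S L (K 3)) (T L L)) (K 3)))) (T (F 2 (U (S (V L L) (V (S L L) (S L L))) (S (V (S L (S L L)) L) (V (S (S L L) L) (T L L))))) (F 2 (U L (S L L))))))) (F 261 (U (T L L) (T (V (S L L) (U L L)) (F 1 (V (K 2) L))))))) (F 1 (S (V (F 321 (S (K 3) (K 3))) (F 128 (U L (F 2 (S L L))))) (F 517 (S L (K 4))))))) (F 2048 (S (F 1026 (T (F 64 (U (V (T (S (F 2 (U (V (V L (S L L)) (T (S L L) L)) (S (V (T L L) (S L L)) (F 64 (S L L))))) (F 128 (V (F 64 (V L L)) (S L L)))) (S (F 2 (U L L)) L)) (T (F 2 (S (V (T (S L L) L) L) (S (V (V L (S L L)) L) L))) (F 2 (S (S L L) L)))) (T (F 1 (V (S (F 64 (T (S L L) (S L L))) (F 1 (T (V L L) (V L L)))) (F 64 (S L (S L L))))) (F 1 (V (F 1 (V L L)) (F 64 (S L L))))))) (F 256 (T (V (F 130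 (U L L)) (F 1 (S L L))) L)))) (F 1538 (T (F 160 (V (F 16 (U (T (S (S L L) L) L) (T (S (T L L) (U (S L L) L)) (S L L)))) (T (F 16 (U (V L L) (S L L))) (F 16 (V L L))))) (F 130 (T (F 2 (V L L)) L)))))))
noncomputable def w0_54 : Tr := (U (F 876445958176 (S (F 6215434844 (V (F 393345 (U (F 4352 (U L (F 4112 (T (F 1216 (V (F 2 (U L (S L (K 4)))) L)) (S (F 128 (S L L)) L))))) (F 4609 w0_49))) (F 256 (T (F 4 (U (S (F 32800 (V (K 2) (F 16 (S L L)))) (K 13)) (F 33 (S (V (F 20739 (U (S L (K 8)) (S L L))) (F 8224 (S L (F 2050 (S L L))))) (F 16386 (U (V (K 10) (F 256 (S L (K 2)))) (F 10 (V (F 257 (S L (K 7))) L)))))))) (U (F 64 (S (F 16417 (V (F 2051 (S L (K 9))) (F 4096 (S L L)))) (F 16384 (T (K 3) (F 37633 (S L (K 8))))))) (F 147460 (S (F 8 (V (F 1537 (S L L)) (F 4128 (S L L)))) (F 528 (V (F 4355 (S L L)) (S L L)))))))))) (F 5946998873 (V (F 1048725 (U (F 2051 (S (F 1024 (S (K 4) (K 4))) (K 7))) (F 10243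 (T (F 528 (S (F 640 (S L L)) L)) (F 512 (S L (K 4))))))) (F 524288 (T (F 131074 (S (K 15) (F 139337 (U (K 1) (F 4 (S (K 10) L)))))) (F 64 (U (K 15) (F 147861 (S (F 2176 (S L L)) (F 138 (S L L)))))))))))) (F 893084793135 (S (F 524304 w0_52) (F 270480 (V (F 32812 w0_53) (U (F 32768 (T (F 4096 (S (F 41 (U (F 1 (V (F 6 (S L L)) L)) (F 256 (V (F 514 (S (F 64 (S L L)) (F 64 (T (U L L) L)))) (F 32 (S L L)))))) (F 8209 (T (F 836 (U L (S (F 2 (U L L)) L))) (F 9 (V L (F 9 (S L L)))))))) (F 21008 (S (F 8 (U (V L L) (S (F 128 (T L L)) (F 514 (S L L))))) (F 513 (V L (F 64 (S L L)))))))) (F 5 (T (F 1024 (S (F 2060 (V (F 257 (T (F 2 (S L L)) (S L L))) (F 512 (S L L)))) (F 5127 (V (F 1 (T (F 34 (U (S L L) L)) (S L L))) (F 8 (S L L)))))) (F 1024 (S (F 13 (V (F 3 (S L L)) (F 32 (T (S L L) L)))) (F 5249 (V (F 256 (T L L)) (F 64 (T (S L L) L))))))))))))))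
noncomputable def w0_55 : Tr := (S (F 52207624 (T (F 8192 (S (F 8196 (U (V (F 24712 (T (F 1025 (U L (S L L))) (U (S L L) L))) (F 258 (V (F 1089 (S L L)) (F 260 (S L L))))) (F 14 (V (F 2179 (S (T L L) (U L L))) (F 64 (S L (F 256 (S L L)))))))) (F 12548 (U (T (F 1024 (V (F 2049 (S L L)) (F 1056 (V (F 513 (S L L)) L)))) (F 4162 (U (S L L) (F 6 (S L L))))) (F 1026 (V (F 1539 (T L L)) (F 32 (S (V L L) L)))))))) (F 538 (S (F 1040 (U (V (F 3600 (S L L)) (S (F 1024 (S L L)) (F 656 (S L L)))) (F 514 (V L (S L L))))) (F 292 (U (F 1024 (V (F 516 (S L L)) (F 64 (S L (F 64 (V L L)))))) (V (F 1153 (S L L)) (F 8 (S (F 8 (V L L)) L))))))))) (F 18687044 (T (F 73735 (U (F 4 (V (S (F 512 (T L L)) (K 5)) (F 580 (S (U (T L L) (S L L)) (F 4 (U L (S L L))))))) (F 6 (S (F 2 (V L (F 136 (V L L)))) (F 192 (V L (V L (F 32 (T (S L L) L))))))))) (F 66053 (S (F 4616 (U (T (V L (F 264 (S L L))) L) (F 258 (V L (F 32 (T (F 32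 (S L L)) (S L L))))))) (F 4132 (V (F 129 (T L L)) (F 20 (U (F 4 (T L L)) (F 6 (T L L)))))))))))
noncomputable def w0_56 : Tr := (T (F 0x7ecbff987fa37a0fc1c203bf905c930b011ff1ffffc0ee00 (V (F 0x21482000a8a401448950b8 w0_21) (F 0x1295084211014691400045 (T (F 0x7755c9fe49800250 w0_22) (F 0xc6d4e4f8e18440c0 (U (F 9437312 (S (F 20411061233 (V (F 786867 (U (F 17 (U L (F 264 (T (T L L) (F 192 (U L L)))))) (F 521 w0_26))) (F 32768 (T (F 839680 (U (F 24576 (V (F 1 (S L (K 5))) L)) (F 16384 (S (U (F 1 (T L L)) (F 1025 (T L (F 4 (S L L))))) (F 3089 (V L L)))))) (F 262179 (U (S (F 65 (S L L)) (K 13)) (F 97 (V (F 3073 (U (S L L) (F 6 (S (S L L) (S L L))))) (S (F 5632 (S L L)) (F 3072 (S L L))))))))))) (F 30119838621 (U (F 8192 (T (K 9) (F 180231 (S (F 1033 (S L L)) L)))) (F 679954 (T (F 9729 (V (K 4) (V (K 4) (F 8 (S L (K 5)))))) (F 2049 (S (F 9 (V (F 384 (V (K 2) (F 2 (T (K 5) L)))) (F 64 (S L L)))) (F 524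 (V (K 4) L)))))))))) (F 244603422871 (S (F 2129924 w0_32) (F 376864 w0_35))))))))) (F 0x7f2dfc89fe187b3ff461e49e51fc53c3f583ff8004cfc007 (V (F 0x28212100028120161104c1 w0_47) (F 0x5460608140081c802021c (T (F 0x386a474c08407fc80 w0_54) (F 0x24ac710400427c201 (U (F 37383462455360 (S (F 1204946485336 (V (F 134218304 (T (F 29524108 (U (F 32768 (S (F 1 (S L L)) L)) (F 57352 (S (F 512 (S (F 2048 (T L L)) L)) (F 4097 (S L L)))))) (F 12748804 (U (F 128 (S (F 131138 (U L L)) (K 10))) (F 245761 (S (F 641 (U (F 512 (S L L)) L)) L)))))) (F 2130181 (T (F 4521992 (U (F 65536 (S (F 32 (U (F 128 (S L L)) (F 24600 (V L L)))) (F 20513 (U L L)))) (F 118792 (S (F 1024 (V (F 4104 (T (F 2 (S L L)) (F 576 (S L L)))) (F 1058 (S L L)))) (F 513 (U (S (T L L) L) (S (F 8 (S L L)) (F 1026 (S L L))))))))) (F 4460552 (U (S (F 50 (U L (F 20 (V L (S L L))))) (F 327770 (U L L))) (F 114690 (S (F 3072 (S (F 512 (S L L)) (F 4620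 (V L L)))) (F 6673 (U (T L L) (S L L))))))))))) (F 139289166021 (V (F 35653669 (T (F 4326412 (S (K 9) (K 9))) (K 11))) (F 134287632 (U (F 16384 (U (F 2097152 (S (F 2359592 (S L L)) L)) (F 3940487 (S (F 8200 (S L L)) L)))) (F 14762526 (T (F 7169 (S (U L (F 256 (S L L))) L)) (F 1092 (S (F 1024 (U L L)) (F 1556 (T L L)))))))))))) (F 40665288398927 w0_55))))))))
noncomputable def treeW0 : Tr := (F 0x600080a000aa022aa50a1140505412a0150810aa05500290aa5420422a822a8822a85000aa2a00510a485008ce763339cce732c9b4d00606007806044551224924d9 (U (F 0x20401820004044751965201000200410004000000469402206020080002010000000000220002000520 (T (F 0x2032b198809814381c1c08fe224035530030940e113fe7020102000b5009a9a1c0c00303818117e12 (U L (F 0x200fdffe00400001f999988efdc00000004c63fdcb0c63beccab3 (V (F 0x5182656802b019a1101c724060c7002d (T (K 61) (F 0x27481382702a5ba47d80e1 (S (F 410122513809704 (U (K 23) (F 403671261 (S (K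 9) L)))) (F 76420833609544 (V (K 24) (K 23))))))) (F 0x87008000909040043c0800204201a90 (T (F 0x87083038003f805c3304c122a (S (F 0x4a5b96010ad0000034 (V (F 722379743987756 (U L (F 51874955488 (U L (F 18 (S L L)))))) (K 30))) (K 22))) (F 0xe240938081e2b2c1aabcc921c9 (S (F 0x2e480202c0700006 (V (K 29) (F 61916390097168 (U (K 7) (F 67788546102 (S L (K 17))))))) (F 0x102c021390d09847 (V (K 29) (F 34508637190 (S (K 7) (K 7))))))))))))) (F 0x2009d044cfc60c060b03040200c34020d2e842428008024002111ffe02c18fe830010000c2042ce0f (U L (F 0x7e3000007bc000007d110889f24730000003381ff8d20608fd187cc (V (K 42) (F 0x44b0060201408002100023a20010920204815 (T (F 0x3121fee0203467fa00f32b042444d3 (S (F 0x1e49f2a08e84304878 (V (F 3573491581000 (U (K 5) L)) (F 549760532532 (U (K 7) (F 65806434340 (T (K 15) (F 8258 (S L (K 5))))))))) (F 0x122fa50061cda00889 (V (K 31) (K 35))))) (F 0x18008380240e2ce0d8aa43cd6c8ca9 (S (F 0x8cc005906482087e1bc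 (V (F 316661766815972 (U (K 8) (F 488621654016 (S (F 34606608 (T (K 6) L)) (K 15))))) (F 68723683336 (U (F 3307158380545 (S L L)) (F 8685026934848 (U L (F 4360 (T L (F 2101249 (S L L)))))))))) (F 0x94b805834cd82800229 (V (K 30) (F 917061553487916 (U (F 2147551232 (S L (K 22))) (F 160028689344 (U L L)))))))))))))))) (F 0xca5c330601c7020000000006401ffffffffffffff225c044000000000038f012bfffffffffffffad7e1207ff w0_56)))

theorem pW0 : chkW par treeW0 64 64 128 128 128 128 0 109226 Lc = true := by decide +kernel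

noncomputable def w1_0 : Tr := (S (F 2 (V (F 1 (U (T (F 128 (V (F 48 (S L L)) (S (T L (S L L)) (F 16 (T L (S L L)))))) (F 128 (V (F 48 (S (S L L) (S L L))) (S (V (F 16 (T L L)) (U (U (F 64 (S L L)) (F 64 (S L L))) (F 64 (S L L)))) (F 32 (V L (T (S L L) (S L L)))))))) (F 128 (V (F 48 (T L L)) (T (S L L) (S (V L (F 64 (S L L))) (F 32 (S L L)))))))) (F 2 (U (V (F 128 (S (F 64 (T (T (S L L) (S L L)) (T (S L L) (S L L)))) (T (U (F 64 (T L L)) (F 64 (S L L))) (U (F 64 (T (S L L) (S L L))) (F 64 (S L L)))))) (F 1 (T (F 1 (S (V (S L L) L) (V (S L L) (S L L)))) (S (U (V (F 1 (S L L)) (S L L)) (F 1 (S L L))) (F 1 (V (S L L) (S L L))))))) (F 129 (T (V (S L L) (S L L)) (S (V (S L L) L) (V (S L L) L)))))))) (F 512 (V (F 64 (T (F 2 (U (S (F 32 (V (U L L) L)) (F 32 (V (T (S L L) (V L L)) (U (T L L) L)))) (F 32 (V (T L (S L L)) L)))) (F 2 (U (V (F 32 (U (S (T L L) (S (T L L) L)) (S (S L L) (T L L)))) (V (F 32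 (T (S L L) (S L L))) (S (F 1 (T L L)) (T (F 32 (S L L)) (S L L))))) (V (F 32 (S (S L L) (S L L))) (S (F 1 (S L L)) (S L L))))))) (F 128 (U (V (T (F 128 (T (F 64 (S (S L L) (V L L))) (S (U (U L L) L) L))) (S (F 128 (V (F 32 (T (S L L) L)) (F 64 (T L L)))) (F 3 (T L (S L L))))) (F 129 (T (S (T L (S L L)) (V (T L L) (S L L))) (S (V (T L L) (S L L)) (T (V L L) (V L L)))))) (F 1 (T (V (S (F 1 (S L L)) (F 64 (T L L))) (F 1 (S L L))) (V (S (S L L) (F 64 (S L L))) (S (F 1 (S L L)) (S L L))))))))))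
noncomputable def w1_1 : Tr := (U (F 16 (T (F 131 (S (F 258 (V (F 16 (T (U L L) (U (V (S L L) (S L L)) (S L L)))) (U (T (F 64 (V (S L L) (S L L))) (V (S (F 64 (S L L)) (U L L)) (F 64 (S L (S L L))))) (F 64 (T (S L L) (V (S L L) L)))))) (F 2 (V (F 32 (U (T (F 64 (S L L)) (U (F 64 (V L (S L L))) (F 66 (S L L)))) (F 64 (T (S L L) (F 16 (S L L)))))) (F 128 (U (F 64 (T (V (S L L) (S L L)) (V (T (S L L) (U (S L L) L)) (S (S L L) (T L L))))) (F 64 (T (S L L) (V (S L L) (S L L)))))))))) (F 129 w1_0))) (F 6144 (T (F 513 (V (F 12 (S (T L (S L L)) (F 48 (S L L)))) (F 17 (U (F 16 (S (S L L) (T L L))) (F 16 (S L L)))))) (F 576 (S (F 256 (U (F 16 (T (V L (F 1 (S L L))) (V (S (S L L) L) (F 1 (S L L))))) (F 16 (T (S L L) (S L L))))) (F 8 (V (F 64 (U (T (F 2 (S L L)) (S L L)) L)) (F 128 (T (F 64 (S L (S L L))) (S (F 64 (S L L)) (F 1 (S L L))))))))))))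
noncomputable def w1_2 : Tr := (S (F 1 (V (F 4 (U (T (F 32 (V (F 4 (S L L)) (S L L))) (F 32 (V (F 4 (S (V L L) (T L L))) (S (F 2 (T L (S L L))) (F 4 (T L (S L L))))))) (F 32 (T L (T (F 4 (S L L)) (F 4 (V L L))))))) (T (F 2 (V (F 96 (U (U L L) L)) (U (F 129 (S L L)) (F 128 (S L L))))) (F 2 (V (F 64 (U (V (F 2 (T (S L L) (S L L))) (F 1 (T (S L L) (S L L)))) (S (F 64 (S L L)) (F 4 (S L L))))) (U (F 128 (S (F 64 (T L (S L L))) (F 1 (T L (S L L))))) (F 128 (T L L)))))))) (F 129 (V (U (F 12 (T (V (S L L) (S L L)) (V (S (S L L) (S L L)) (S (T L L) (S L L))))) (F 12 (T (S L L) (V L (S L L))))) (U (T (F 8 (V (U (F 16 (S L L)) (F 16 (S L L))) (F 64 (S L L)))) (F 8 (V (F 16 (T (U (S L L) L) (U (S L L) L))) (F 64 (T (S L L) L))))) (F 8 (V (F 16 (T (S L L) (T L L))) (F 64 (T L (S L L)))))))))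
noncomputable def w1_3 : Tr := (S (T (F 256 (U (V (F 48 (S (T (V L L) (V L L)) (V L (S L L)))) (S (F 64 (V L (U (F 2 (T L L)) L))) (F 16 (U (F 4 (T L L)) (F 4 (S L L)))))) (F 32 (T (F 4 (V L (S L L))) (T (F 4 (V L L)) (F 4 (V L L))))))) (F 256 (U (V (F 48 (S (T (V L L) (V L L)) (T (S L L) (V L (S L L))))) (S (F 96 (T (T L L) L)) (F 16 (V (F 4 (T L (S L L))) (F 2 (T L (S L L))))))) (F 32 (V (T (F 4 (S L L)) (F 4 (S L L))) (S (F 2 (S L L)) (S L L))))))) (F 8 (U (T (F 32 (S (F 64 (V (T L (S L L)) (T (S L L) (S L L)))) (F 64 (V (T L (S L L)) (T (S L L) (S L L)))))) (V (F 32 (S (T (F 64 (S L L)) (F 64 (V L (S L L)))) (U (V (T (S L L) (S L L)) (F 64 (S L L))) (F 64 (T L L))))) (F 1 (S (U (F 4 (T (S L L) (S L L))) (F 4 (T L L))) (F 4 (T (V (S L L) (S L L)) (U (S L L) L))))))) (F 33 (T (V (S L L) (S (S L L) (S L L))) (S (V (S L L) (T L L)) (V (S L L) (T L L))))))))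
noncomputable def w1_4 : Tr := (S (T (F 2 (U (V (F 64 (V (S (T (F 2 (S L L)) (S L L)) L) (F 1 (T (U (S L L) L) (U (S L L) L))))) (F 128 (S (F 64 (V L (T L L))) (F 1 (T (T L L) (V L L)))))) (F 64 (V (S (T L (U (S L L) L)) (F 4 (T L L))) (F 1 (U (S L L) L)))))) (F 6 (U (V (V (S (U (S (S L L) (F 16 (S L L))) (T (T L L) (S L L))) (F 16 (T (S L L) L))) (F 64 (T (S L L) (S L L)))) (U (F 64 (S (T L (S L L)) (T (S L L) L))) (F 64 (S (S L L) (S L L))))) (V (S (V (S L L) L) (F 16 (S L L))) (F 64 (S (S L L) (S L L))))))) (F 4 (T (U (T (F 16 (V (S (S (F 2 (S L L)) L) (V L L)) L)) (F 16 (V (S (V (U (S L L) L) L) (V (U L L) (F 1 (S L L)))) (F 3 (S L L))))) (F 16 (V (S (T L L) (F 4 (T L L))) L))) (V (U (F 16 (T (S (T (F 2 (S L L)) (F 2 (S L L))) (V (U L L) (F 1 (S L L)))) (S (F 2 (U (S L L) L)) (V (U (U L L) L) L)))) (F 16 (S (F 2 (T L L)) (V (F 4 (S L L)) (F 1 (S L L)))))) (F 192 (U (F 2 (S (S L L) (S L L)))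 (S L L)))))))
noncomputable def w1_5 : Tr := (T (F 574627933 (U (F 34820 (S (F 299009 (U (F 16384 (T (F 9344 (U (F 16 (V (S L L) L)) (F 144 (V L L)))) (F 8393 (V (F 16 (U (F 32 (S L L)) L)) (F 1 (U (S (T L L) (F 16 (T L (F 4 (S L L))))) (F 32 (S (S L L) (F 4 (S L L)))))))))) (F 17537 (T (F 288 (V L L)) (F 129 (V (F 12 (S L L)) (F 17 (V L (S L L))))))))) (F 262145 (U (F 768 (T (F 1537 (V (F 41 (U L L)) (F 2304 (S (F 384 (T L L)) (F 216 (S L L)))))) (F 17042 (V (F 12 (U (T L (F 32 (S (F 64 (S L L)) (F 4 (S L L))))) (F 49 (S L L)))) (U (S (F 514 (T L (F 16 (V L L)))) (F 52 (T L (V L L)))) (F 560 (V L (F 64 (S L L))))))))) (F 71584 (T (F 224 (V L L)) (F 528 (T (F 14 (S L L)) (F 128 (S L L)))))))))) (F 3217543 (T (F 2920 (S L (F 6 (S L L)))) (F 2376 (S (F 4 (U L L)) (F 30 (S L L)))))))) (F 805896217 (U (F 1681483 (S (F 512 w1_1) (F 258 (U (F 48 (T w1_2 (V (F 128 w1_3) (F 1 w1_4)))) (F 2096 (T (F 64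 (S (T (F 138 (V L L)) (V (F 12 (S L L)) (F 2 (S L (F 16 (S L L)))))) (F 8 (V (F 16 (T L (S L L))) (V (F 16 (T L (S L L))) (F 64 (T L L))))))) (F 64 (S (V (F 4 (T (V L (F 32 (S L L))) (S (F 32 (S L L)) (F 16 (S L L))))) (F 2 (U (T (S L L) (S L (S L L))) (F 64 (S L L))))) (F 8 (T (V (F 16 (S (S L L) L)) (U (S L (T L L)) L)) (U (V (F 16 (S L L)) (T (S L L) L)) (V L L)))))))))))) (F 12684107 (S (F 2116 (T (F 776 (V L (F 64 (S L L)))) (F 264 (U (S (F 1 (S L L)) (F 64 (T L L))) L)))) (F 1346 (T (U (F 128 (V L (F 64 (S L L)))) L) (F 128 (U (S (F 64 (T L L)) (F 16 (T L L))) L)))))))))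
noncomputable def w1_6 : Tr := (T (F 1026 (U (F 576 (V (F 8 (S (T (F 1 (V (S L L) (S L L))) (F 1 (V (S (S L L) (V L L)) (U (S L L) L)))) (U (F 16 (V (F 1 (T L L)) (T L (S L L)))) (F 80 (T L (S L L)))))) (S (F 128 (T L L)) (T L (F 128 (U L L)))))) (F 576 (S (F 128 (V (F 8 (V (T L (S L L)) (S L L))) (S L L))) (F 5 (V (F 16 (T L (S L L))) (T L L))))))) (F 16 (S (F 1538 (V (F 8 (U (T (T (F 1 (V (S (S L L) (S L L)) (U (S L L) L))) (F 1 (V (S (S L L) (V L L)) (U (S L L) L)))) (V (S (F 1 (U (T L L) (S L L))) (F 64 (U (T (S L L) (S L L)) (S L L)))) (F 1 (U (V (S L (S L L)) L) (S L L))))) (T (V (S L L) L) (V (S L (F 64 (S L L))) L)))) (F 128 (V (F 8 (U (T L L) (S L L))) L)))) (F 1058 (U (F 1 (V (F 64 (T (U (V (F 2 (S L L)) (U L L)) (F 2 (V L L))) (U (V (S L L) (S (S L L) L)) (F 2 (V (S L L) (S L L)))))) (U (S (T L L) (F 80 (S L L))) L))) (F 11 (V (T (S L L) (S L L)) (T L L))))))))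
noncomputable def w1_7 : Tr := (S (F 32774 (U (F 6 (T (F 39 (S (U (V (F 33 (V (F 16 (S L (S L L))) (S L L))) (S L L)) (V (F 33 (S L L)) L)) (V (F 41 (U (V (T (S L L) (S L L)) (S L L)) (T L (S L L)))) (U (S L L) L)))) (F 2 (S (F 1024 (T (F 9 (U (F 8 (V (F 136 (S (S L L) (V (S L L) L))) L)) (V (F 41 (S L L)) L))) (F 128 (S (V (F 80 (U (F 128 (U (T L (S L L)) L)) L)) (F 512 (U L L))) (F 576 (U (V (F 136 (V (S L L) L)) L) (V L L))))))) (F 3208 (V (F 136 (U (T (S (V (S L L) L) (V (T L L) (S L L))) (S (V (T (S L L) (S L L)) (S L L)) (V (T L (S L L)) (S L L)))) (T (S L L) (S L (S L L))))) (U (T L (S L L)) (S L L)))))))) (F 16390 (T (F 19 (V (F 33 (S L (S L L))) (S L L))) (F 258 (V (F 81 (S (F 1 (S L L)) (U (T L L) L))) (F 512 (S L L)))))))) (F 163975 (U w1_6 (F 17 (T (F 514 (S (F 128 (V (F 8 (T L (S L L))) L)) (F 5 (V (F 16 (S L L)) L)))) (F 512 (S (V (F 136 (U (T (S L L) (S L L)) L)) (S L L)) (F 133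 (V (F 16 (T L L)) L)))))))))
noncomputable def w1_8 : Tr := (S (F 256 (V (F 256 (T (U (V (F 96 (S (F 32 (S L L)) (T L L))) (F 1 (S (T (S (V L (U L L)) (F 2 (S L L))) (F 2 (S L L))) (F 2 (T (S L L) (S L L)))))) (F 1 (V L (S (S L L) (F 2 (S L L)))))) (F 64 (U (S (F 64 (V L (T (S L L) L))) (V (F 2 (U L L)) (F 64 (S L L)))) (S (V L L) (T (S L L) L)))))) (F 128 (U (V (F 1 (S (F 1 (T (T (V (S L L) L) (V L L)) (T (S L L) (S L L)))) (T (U (F 1 (T (S L L) (S L L))) (F 1 (S L L))) (U (F 1 (S L L)) (F 1 (S L L)))))) (F 128 (S (T (U (V (F 64 (S L L)) (S L L)) (F 64 (S L L))) (F 64 (V (S L L) L))) (F 64 (T (U (V (S L L) L) (S L L)) (V (S L L) L)))))) (F 129 (T (S (V (S L L) L) (V (S L L) L)) (S (V L L) (V L L)))))))) (F 257 (V (F 2 (T (U (V (U (F 32 (T (S L L) (S L L))) (F 32 (T (S L L) L))) (T (S (F 1 (S L L)) (U (T (S L L) L) (S L L))) (U (S (S L L) (S L L)) (S L L)))) (V (F 32 (S L L)) (T (U (S L L) L)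 (S L L)))) (U (V (F 32 (S (T L L) (T L L))) (U (S L L) (S L L))) (V (F 32 (S L L)) (S L L))))) (T (U (V (S (F 130 (V (T L L) L)) (F 3 (T (S L L) L))) (F 129 (S (V (S L L) (S L L)) (V L (S L L))))) (F 1 (V (F 64 (S (S L L) L)) (S L L)))) (F 1 (U (V (F 64 (S (S L L) (T L L))) (S (F 1 (V L L)) (F 64 (S L L)))) (S (T L L) (F 64 (S L L)))))))))
noncomputable def w1_9 : Tr := (V (F 8 (T (U (V (F 32 (S (F 64 (T (V (S L L) (S L L)) (V (S L L) (S L L)))) (T (U (V (S L L) L) L) (F 64 (V L (S L L)))))) (F 1 (S (U (T (F 4 (S L L)) (V L L)) (F 4 (T L L))) (U (F 4 (T (S L L) (S L L))) (F 4 (T L L)))))) (F 33 (S (V (S L L) (T L L)) (V (S L L) (T L L))))) (F 1 (U (V (F 4 (S (T (V L (S L L)) (S L L)) (T (S L L) (S L L)))) (T (S (V L L) (U (F 4 (S L L)) L)) (F 4 (S (S L L) (S L L))))) (F 4 (S (V (S L L) (S L L)) (V (S L L) (T L L)))))))) (F 256 (V (F 16 (T (S (F 2 (U (V (T (S L L) (S L L)) L) (S L L))) (V (U (T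 (S L (U (S L L) L)) (S L L)) (S L L)) (F 3 (T (S L L) L)))) (F 2 (U (S (T L L) (T (T L L) (S L L))) (S L (S L L)))))) (F 192 (T (U (F 2 (S (S L L) (S L L))) (S L L)) (U (F 2 (S L L)) (S L L)))))))
noncomputable def w1_10 : Tr := (T (F 4 (S (F 256 (V (T (V (F 16 (U (F 4 (S (V (T L L) (F 16 (S L L))) (T (V (S L L) (S L L)) (V (S L L) (S L L))))) (F 4 (S (S L L) (S L L))))) (S (F 64 (U (T (F 4 (S L L)) L) (T (S L L) L))) (F 16 (U (S (F 6 (S L L)) (T (V L L) L)) L)))) (V (F 16 (U (S (U (F 4 (T L L)) L) (F 4 (T (V L L) (S L L)))) (F 4 (S L (S L L))))) (F 64 (U (F 4 (S (T L L) (T (S L L) L))) (S (S L L) (F 4 (S L L))))))) (F 64 (T (U (V (S (U (V (S L L) L) (T L L)) (F 4 (T (S L L) L))) (F 1 (U (S (T L L) (T L L)) (S (S L L) L)))) (V (V (T (S L L) (S L L)) (F 1 (S L L))) (F 1 (S L L)))) (U (V (S (S (F 1 (S L L)) L) (F 4 (S L L))) (F 1 (U (S L (S L L)) (S L L)))) (V (S L (S L L)) L)))))) w1_9)) (F 1 (S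 (F 128 (V (F 16 (T (S (F 2 (U (U L (S L L)) L)) (V (U (T (F 4 (S L L)) L) L) (F 2 (U L L)))) (F 2 (U (S L L) (S L L))))) (F 64 (T (U (S (F 1 (V L L)) L) (S L L)) (F 1 (U L L)))))) (F 136 (V (T (S (V (U (F 16 (T (S L L) L)) L) (F 32 (U (T L L) L))) (F 16 (U (V (T (S L L) L) (T (S L L) L)) (T L L)))) (V (U (F 16 (S (S L L) (S L L))) (F 16 (S L L))) (F 32 (U (U L (S L L)) (S L L))))) (U (F 32 (T (V (S L (S L L)) (F 1 (S L L))) (S L L))) (F 32 (T (S L L) L))))))))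
noncomputable def w1_11 : Tr := (S (F 8321 (U (T (F 528 w1_8) (F 18 (S (F 5 (V (F 2 (U (T (S L (S L L)) L) (T (S L L) L))) (F 128 (U (T (U (F 64 (S (V L L) (S L L))) (F 64 (S (S L L) (S L L)))) (F 64 (S (S L L) L))) (F 64 (T (S (S L L) L) L)))))) (F 261 (T (U (V (S (V L L) (S L L)) (F 1 (V L (S L L)))) (V (S L L) (F 1 (S L L)))) (U (V L L) (V L L))))))) (F 2066 (T (F 2 (S (V (F 2 (T (F 1 (S L L)) (S L L))) (F 1 (U (T (F 1 (S L L)) (S L L)) (F 1 (S L L))))) (V (F 2 (T (V L (T (S L L) L)) (T L L))) (F 1 (U (T (S L L) L) L))))) (S (V (F 130 (T (S L L) L)) (F 256 (V (F 65 (S L L)) (F 128 (S L L))))) (F 128 (V (F 64 (T L L)) (F 1 (S L L))))))))) (F 10754 (U (F 16 w1_10) (F 1024 (T (F 34 (S (T (U (V (T L (F 8 (S L L))) (F 2 (S L L))) (F 2 (S L L))) (U (V (F 8 (V L L)) (F 2 (S L L))) (F 2 (S L L)))) (F 8 (V (F 16 (T (U (S (S L L) L) L) (U (S L L) L))) (F 32 (T (S (S L L) (S L L)) (S L L))))))) (S (F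 290 (V (U (T (S L L) L) L) (F 1 (S L L)))) (F 34 (V (F 8 (T (T (F 16 (S L L)) L) (S L L))) (F 3 (T (S L L) L))))))))))
noncomputable def w1_12 : Tr := (U (F 1116225 (S (F 1130511 (U (F 2 (T (F 2212 (S (F 6 (V (F 2 (T L L)) (F 1 (U L L)))) (F 6 (V (F 2 (T L L)) (F 128 (T L L)))))) (F 1024 (U (F 128 (S (F 68 (T L L)) (F 64 (V L (F 1 (S L L)))))) (F 1152 (S (F 32 (T L L)) (F 32 (V L L)))))))) (F 4626 (T (F 768 (S (F 8 (T L L)) (F 8 (T (S L L) L)))) (V (T (F 768 (S L L)) L) (F 1568 (S L L))))))) (F 180231 (V (F 2 (U (F 577 (T (F 1576 (S (F 64 (T (F 2 (S L L)) L)) (T (F 32 (S (F 2 (V L L)) (U (V L L) L))) (F 64 (U (S L L) L))))) (S (F 42 (T L L)) (F 1568 (U (F 136 (S L L)) L))))) (F 8265 (T (F 518 (U (F 32 (S L (F 4 (S L L)))) L)) (F 112 (S L (F 128 (S L L)))))))) (U (F 33412 (T (F 1284 (T (F 2 (S (F 128 (U L L)) (F 162 (S L L)))) (F 1 (U (F 32 (S L L)) (F 128 (S L L)))))) (F 2368 (U (F 9 (S L L))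 (F 65 (S L L)))))) (F 37398 (T (F 800 (S (S L L) L)) (F 528 (S L L))))))))) (F 127503341 (S (F 256 (T (S L L) (F 1 (S L L)))) (F 256 (T (F 8 (S L (F 160 (S L L)))) L)))))
noncomputable def w1_13 : Tr := (U (F 8 (T (F 4099 (S (F 3 (V (F 2 (U (T (S (T (F 64 (U (V L L) (S L L))) (F 64 (V L L))) (F 1 (V (U (V L L) L) (T L L)))) (V (F 1 (U (S L L) (S L L))) (S L L))) (T (V (F 1 (S L L)) (S L L)) (F 1 (T L L))))) (F 1 (U (T L L) L)))) (F 7 (V (F 2 (U (T (U (V (F 2 (S L L)) (S (S L L) L)) (F 2 (V (S L L) L))) (U (V (F 2 (S L L)) (S L L)) (F 2 (S L L)))) (F 2 (T (S L L) (S L L))))) (U (V (T (F 2 (S L L)) (S L L)) L) (S L L)))))) (F 6147 (V (F 3 (U (S (T (V (F 2 (T L L)) (S L L)) (S L L)) (V (F 34 (U (T L L) (S L L))) (U (S L L) L))) (S (T (S L L) L) (F 32 (T (S L L) (S L L)))))) (S (F 256 (U (S L L) L)) (F 18 (U (V L L) (S L L)))))))) (F 12299 (T (S (F 256 (U (V (F 65 (S L L)) L) L)) (F 416 (U (V (F 16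 (S L L)) L) L))) (F 128 (V (F 1 (U (S (S L L) L) (S L L))) (V (F 1 (S L L)) L))))))
noncomputable def w1_14 : Tr := (U (F 596096 (S (F 16388 (U (F 34 (T (F 6 (S (F 2 (U (F 64 (V (F 289 (S (T (U (V (S L (S L L)) L) L) (F 1 (S L L))) (T (V (S L L) L) (F 1 (S L L))))) (F 512 (S (S L L) (S L L))))) (F 1 (V (F 593 (S (S L L) (S L L))) (S L L))))) (F 162 (V (F 258 (T (F 64 (U (S (V (S L L) L) (V (T (S L L) L) (S L L))) (S L L))) (F 64 (U (S (S L L) (V (S L L) L)) (S L L))))) (F 1 (U (S L L) L)))))) (F 262 (S (F 1026 (V (F 8 (U (F 1 (S (S L L) (S L (S L L)))) (F 1 (S L L)))) (T L L))) (F 1024 (V (F 776 (U (S (T (S L L) L) (V L L)) (S L (S L L)))) (V (F 264 (U L L)) L))))))) (F 49186 (T (F 1024 (V (F 81 (S (F 1 (S L L)) (V (F 2 (T (S L L) L)) L))) (F 1024 (S L L)))) (F 1088 (S (F 512 (V L L)) (V (F 33 (S L L)) L))))))) (F 2690 w1_13))) (F 7936202 (S (F 1024 (U (V (F 81 (T L L)) (S L L)) (F 1 (S L L))))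 (F 2560 (U (F 32 (T (F 256 (S L L)) (S L L))) (F 9 (S L L)))))))
noncomputable def w1_15 : Tr := (V (F 20968383184896 (T (F 16777382009 (U (F 3294033 w1_11) (F 15877973 (S (F 512 (U (T (F 16 (S (F 2 (S L L)) L)) (F 2 (S L L))) (F 18 (S L L)))) (F 288 (U (T (F 128 (S (F 64 (S L L)) (F 16 (T L L)))) (S (F 2 (S L L)) L)) (F 2 (T L L)))))))) (F 11018567851 w1_12))) (F 40408134472000 (T (F 8325735115 w1_14) (F 4328522441 (U (F 2667528 (S (F 2162718 (U (T (F 107036 (V (F 776 (S (U (S L L) L) (F 1 (U L L)))) (F 16 (S (S L L) (S (F 1 (S L L)) L))))) (F 32772 (S (F 11328 (V (F 1057 (U L L)) L)) (F 19649 (V (F 17 (U L L)) (F 64 (S L L))))))) (F 74260 (T (F 513 (S (F 2 (S L L)) (F 5 (S L L)))) (F 2337 (S L L)))))) (F 4228107 (U (F 33313 (T (F 3592 (S (F 256 (V (F 128 (U (T L L) L)) (F 17 (U (S L L) L)))) (F 256 (U (F 16 (V L (S L L))) (F 32 (V (F 1 (S L L)) L)))))) (F 65 (S (F 10 (U (T (F 132 (V L L)) (F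 9 (U L L))) (F 132 (V L L)))) (F 12 (V (F 32 (U (T L L) L)) (F 137 (U (S L L) L)))))))) (F 102969 (T (F 128 (V (F 1 (S L L)) (S L L))) (F 16 (S (F 2 (V L L)) (F 8 (V L L)))))))))) (F 1046578362 (S (F 14592 (U (F 136 (S L L)) L)) (F 22528 (U (F 88 (T (F 8 (S L L)) (F 40 (S L L)))) L)))))))))
noncomputable def treeW1 : Tr := (F 0x3fffffffffffffffffffffffffffffffffffffffff551bed2fff6ab7bfffffffffffffffffffffffffffb7a6fc6623239cc673245248ffffffffffffffffffe092489 (T (F 0x2e1ffe1e6003939e9b5abb (V (F 100949690368 w1_5) (F 275012650240 (T (F 8627683835 (U (F 2363392 (S (F 230400 (U (F 39040 (S (F 6144 (T (V (F 1089 (S L L)) (F 288 (S L L))) (F 1024 (S (F 64 (V L L)) (F 64 (V L (U L L))))))) (F 4096 (T (F 2 (U (S L L) L)) (F 2065 (V (F 264 (V (S L L) L)) (U L L))))))) (F 104579 (T (F 528 (S L L)) (F 64 (V (F 33 (S L L)) L)))))) (F 1377808 (U (F 2 (T (F 4099 (U (F 288 (V (F 8 (S L L)) L)) (F 288 (S (S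 L L) L)))) (F 8721 (U (V (F 40 (S (F 129 (V L L)) (F 144 (S L L)))) (F 513 (S L L))) (F 537 (V (F 8 (S L L)) L)))))) (F 25730 (T (F 256 (S L L)) (F 816 (S L L)))))))) (F 12782651 (U (F 129 (S (F 8 (V L (S L L))) (F 299 (S L L)))) (F 4745 (S L L)))))) (F 30118789609 (U (F 2176 w1_7) (F 919566 (S (F 3 (U (F 16 (V (F 532 (S L L)) (S L L))) (F 17 (S L L)))) (F 6912 (U (F 16 (T (F 2 (S L L)) (S L L))) (S L L))))))))))) (F 0xfe19a01fe70c04034e363e w1_15)))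

theorem pW1 : chkW par treeW1 64 64 128 128 128 128 109226 218453 Lc = true := by decide +kernel

noncomputable def treeW2 : Tr := (F 0x3ffffffffffffffffffffffffffffffffffffffffffffffffffffffffffffffffffffffffffffffffffffffffbc3623f88c6e1effb4ffffffffffffffffffffdf3fff (T (F 12724760625 (U (F 128 (U (F 65 (T (F 12929 (S L L)) (F 2569 (S L L)))) L)) L)) (F 16775147553 (U (F 147584 (U (F 4100 (T (F 1 (S L (F 832 (S L L)))) (F 531 (S L (F 160 (S L L)))))) (F 28708 (S L L)))) L))))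

theorem pW2 : chkW par treeW2 64 64 128 128 128 128 218453 436907 Lc = true := by decide +kernel

noncomputable def w3_0 : Tr := (T (F 0x20b04822082c17120f434fec9004e76204b523038467fe38001000806601845c938082030181a087c0 (U L (F 0x200fff7f001000000fec4888eff700000003639ffc31863dd605b3 (V (F 0x260700212007803d87600408108e17002 (T (F 0x1980341c191e00833092300 (S (F 0xac35d200b58241014 (V (F 3573683324552 (U L (F 24974360984 (U L L)))) (F 588448547104 (U L (F 8530559800 (S L L)))))) (F 0xac16a004271141004 (V (K 30) (F 4675072041056 (U (F 279224789002 (S (K 18) (K 18))) (F 492163630656 (S L L)))))))) (F 0x63b80340c1f1749943465721 (S (F 13686789596250112 (V (F 53876073992200 (U (F 2147709120 (S (K 21) (K 21))) (F 2720876855528 (S (F 8430608 (S L L)) L)))) (K 47))) (F 23133999563024129 (V (F 137982132225 (T (K 7) (K 7))) (F 51539611664 (U L (F 13509787672 (T L (F 2097317 (S L L)))))))))))) (F 0x8be80c0506200080b82c4040188504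 (T (K 70) (F 0xc6200cc001802cb4f63865903 (S (F 0xb19801720088c4d0 (V (K 43) (K 31))) (F 0x32cc01d4820ebab1 (V (K 38) (K 30))))))))))) (F 0x8008048fe64200c1a3a0a284021fa0014bce1192a000510440000bff805c047e4440830000430208c7 (U L (F 0xfc200000f7e0000003b18c8c4f91198100001300ffc6410dc76187cc (V (F 0x20e5201030a8010235e43b2208151018100d0 (T (F 0x4fec0f9802031780311484955523 (S (F 0x235f5c401a9242704 (V (F 549756937220 (U (F 134221312 (S L L)) (F 54934765604 (U L (F 8 (S (F 640 (S L L)) L)))))) (F 35165569057 (U (K 0) (F 55603331108 (T (K 20) (F 18 (U (K 0) L)))))))) (F 0x52de7013201240608 (V (F 6609993467904 (U (F 288358400 (S L (K 26))) (F 271272312864 (V (K 17) (F 65812 (S L L)))))) (F 310311412241 (U (F 2172655616 (S L L)) (F 54827810888 (S (F 1052685 (T L L)) (F 40961 (S L L)))))))))) (F 0x46880061068194023c29cc249b10 (S (F 0xc8c05c20dd40007e090 (V (F 228717745933364 (U (F 67395584 (S (K 10) L))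 (F 262804865168 (U L (F 16515 (T (F 4325512 (S L L)) (F 29884416 (S L L)))))))) (F 1104007933953 (U (F 173080 (S L (K 25))) (F 2192057040984 (U L (F 16777218 (T L (F 16787968 (S L L)))))))))) (F 0xc567004008481044138 (V (F 10168455606583458 (U (F 602403766272 (S L (K 10))) (F 1971572573056 (U L L)))) (F 79164879215632 (U (K 19) (F 113940903233312 (S (K 12) (F 33915044 (S (K 11) (K 11))))))))))))) (F 0x2001a4085c9503600881000c415080e0600920 (T (F 0x9a9c2eea0a0804fe8028a4b53fd33 (S (F 0x43cc02b7c8803e34 (V (K 37) (K 28))) (F 269655828313687552 (V (F 15393167015936 (U (K 0) (F 1504395919432 (S (K 24) L)))) (F 129194006530 (U (F 2415919136 (S (K 22) (K 5))) L)))))) (F 0x8e1021050b6734a812010fa113b39 (S (F 0x1006043986e4045f0d0 (V (F 4707347079280 (U (F 1275068928 (S (K 21) (K 32))) (F 8535801856 (S (K 13) (F 2162696 (T (K 0) L)))))) (K 32))) (F 0x11e390603e8c0722110 (V (F 34360787328 (U (K 19) (F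 1003306883288 (U L (F 4718593 (S L (K 11))))))) (F 3380141515296 (U (F 570427392 (S (K 20) L)) (F 15076164352 (S (K 14) (F 1378313 (S L L)))))))))))))))))
noncomputable def w3_1 : Tr := (S (F 655368 (V (F 1024 (T (F 11392 (S (F 2050 (V L L)) (F 2 (U (F 32 (T L L)) L)))) (F 8226 (S (F 8496 (V L (F 32 (U L L)))) (F 8480 (U (F 64 (V L (F 16 (S L L)))) (F 512 (S L L)))))))) (F 4768 (T (F 1088 (S (F 1298 (U (T L L) (F 128 (S L L)))) (F 1040 (U (F 4 (U (V L L) (F 1 (T L L)))) (F 772 (S L L)))))) (F 1088 (U (F 1024 (S (F 4 (V (T L (F 513 (S L L))) (F 1 (S L L)))) (F 1025 (V (F 8 (U L L)) (F 128 (U L (S L L))))))) (F 3073 (S (F 256 (T L L)) (F 2 (V (S L L) (S L L))))))))))) (F 688960 (V (F 2080 (T (S (F 2304 (U L L)) (F 2081 (S L L))) (F 35 (U (V L (F 32 (S L L))) (S (F 1 (S L L)) L))))) (F 64 (T (F 768 (U (F 256 (S (F 1034 (V L (T L L))) (F 1065 (U L L)))) (F 385 (S (F 2 (T L (F 128 (S L L)))) (F 19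 (T L L)))))) (F 8259 (U (F 24 (V (S (F 2 (T L L)) L) (U (F 4 (S (F 32 (S L L)) (V L L))) (F 4 (S L L))))) (S (F 392 (V L (S L L))) (F 400 (V (S L L) L))))))))))
noncomputable def w3_2 : Tr := (S (F 40534278754 (V (F 11 (T (F 4329472 (U (F 589828 (U L (F 69633 (S (F 192 (S L L)) (F 1156 (S L L)))))) (F 786469 (S (F 258 (V (F 64 (U (S L L) (F 768 (S L L)))) (F 260 (U L (F 256 (S L L)))))) (F 4242 (V (F 4 (S L L)) (F 160 (T L L)))))))) (F 524353 (U (S (F 2563 (U L (F 12288 (T L L)))) (F 528993 (V L (F 12352 (S L L))))) (F 524323 (S (F 8706 (V (U (F 192 (S L L)) (F 5 (S L L))) (F 65 (S L L)))) (F 36864 (V (F 4240 (U L (S L L))) (T L (S L L)))))))))) (F 32788 (T (F 5343360 (U (F 65536 (V (F 8192 (S (F 4097 (S (K 1) L)) L)) (K 1))) (F 98321 (S (F 4098 (T L L)) (F 6160 (V (T (F 258 (S L L)) (F 2 (S L L))) L)))))) (F 557057 (U (F 16384 (S (K 1) (F 495617 (V (S L L) (K 12))))) (F 524299 (S (F 41488 (V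 (S L L) (K 11))) (F 36880 (V (T L L) (F 1282 (S L L)))))))))))) (F 44043338855 (V (F 65585 (T (F 791042 (U (F 2048 (V (K 2) L)) (F 2081 (S (F 2304 (S L L)) L)))) (F 819200 (U (S (F 4099 (U L (F 2048 (S (F 16 (S L L)) L)))) (K 13)) (F 4096 (S (F 51200 (V L (T L L))) (F 50192 (V (K 8) (S L L))))))))) (F 200 (T (F 1843232 (U (F 2050 (U L (F 1024 (S L (F 1168 (T L L)))))) (F 2067 (S (F 1344 (V (F 8 (U L (T L L))) (F 64 (U L L)))) (F 288 (V (U (S L L) L) (F 144 (U (S L L) (F 64 (S L L)))))))))) (F 1835008 (U (U (F 8194 (S L L)) (F 8195 (S (F 4240 (V L (F 512 (S (K 0) L)))) (F 2128 (V (S L L) (F 576 (S L L))))))) (F 8195 (S (F 4096 (V (T (F 708 (S L L)) (S L L)) (F 2624 (U (S L L) L)))) (F 2064 (T (F 1156 (V L (F 16 (S L L)))) (F 1024 (V L (S L L))))))))))))))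
noncomputable def w3_3 : Tr := (S (F 445419521 (V (F 16385 (T (F 59394 (S (U (F 16 (V (F 1152 (S L L)) (F 64 (S L L)))) (F 3 (V L L))) (V (F 544 (U (S L L) L)) (F 65 (S (F 144 (S L L)) L))))) (F 180224 (S (F 8200 (U (F 64 (V (F 256 (S L L)) (F 16 (S L L)))) (F 6144 (V L L)))) (F 1024 (U (F 64 (V (F 72 (S L L)) (T (F 2058 (S L L)) L))) (F 4096 (V L (F 64 (S L L)))))))))) (F 2578 (T (F 46112 (U (V (S (F 544 (S L L)) (F 544 (U L (S L L)))) (F 288 (S (F 2 (S L L)) (S L L)))) (S (F 545 (V (S L L) L)) (F 32 (V (F 2 (S L L)) (S L L)))))) (F 8224 (U (S (F 17 (V (S L L) (F 36 (U L (F 2 (S L L)))))) (F 513 (V (S L L) (F 16 (S L L))))) (F 5 (S (F 2562 (V L L)) (F 16 (V L (F 256 (S L L)))))))))))) (F 211419233 (V (F 5120 (S (F 234496 (U (F 64 (T (F 1280 (S (F 288 (T L L)) (F 288 (S L L)))) (V (F 256 (U L L)) (U L L)))) (F 2 (T (F 514 (V L L)) (F 64 (V L L)))))) (F 233488 (U (F 136 (T (F 642 (T L L)) (V (F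 130 (V L L)) (T L L)))) (T (F 26 (U (F 34 (S L L)) (F 514 (S L L)))) (F 138 (T (F 128 (S L L)) (F 256 (T L L))))))))) (F 8327 (T (F 12560 (V (U (F 32 (S (F 160 (S L L)) (F 132 (U (S L L) L)))) (S (F 4 (S L L)) L)) (F 256 (U (F 32 (S (F 4 (V L (S L L))) (F 16 (S (F 32 (S L L)) L)))) (S L (S L L)))))) (F 4096 (U (F 32 (V (S (T L L) (F 80 (S L L))) (S (F 144 (U (S L L) L)) (F 20 (S (F 32 (S L L)) L))))) (S (F 34 (V (S L L) L)) (F 2562 (V L (T L L)))))))))))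
noncomputable def w3_4 : Tr := (T (F 0x59250db9b48081e0 (U (F 202407936 (S (F 4027659264 (V (F 1576997 (T (F 393216 (U (S (F 2 (U L (F 132 (S L L)))) (F 16906 (U (K 8) L))) (F 20994 (S (F 3072 (V L L)) (F 1280 (S L L)))))) (F 264320 (U (F 5 (U (S L L) (F 6 (S (F 2560 (T L L)) L)))) (F 26629 (S (F 1 (V (F 2 (S L L)) (F 4 (U L L)))) (F 257 (U L L)))))))) (F 72 (T (F 7344272 (U (F 520 (S (F 2 (U L L)) (F 8198 (S L L)))) (F 23050 (S (U (F 2 (T L L)) (F 2 (T L L))) (F 128 (T L (F 256 (V L L)))))))) (F 7356930 (U (F 8192 (U L (F 4114 (S L L)))) (F 38920 (S (F 12 (T (F 2 (U L (S L L))) (F 1024 (S L L)))) (F 2061 (V (F 16 (U (S L L) (S L L))) L)))))))))) (F 8483287556 (V (F 49153 (U (T (K 10) (F 4296 (T (K 4) L))) (F 4168 (T (F 1 (S L (K 8))) (F 6273 (S L L)))))) (F 130 (U (U L (F 74016 (S L L))) (F 74032 (U (S (F 384 (T (S L L) L)) (F 1440 (T L L))) (T (F 384 (S (F 2 (T L L)) L)) (F 3105 (V (F 2 (S L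 L)) (F 4 (S (F 32 (S L L)) (F 32 (T L L))))))))))))))) (F 41238439167 w3_1))) (F 0x288504e3c08121e0 (U (F 7055872000 w3_2) (F 6818260586559 w3_3))))
noncomputable def w3_5 : Tr := (U (V (S (K 0) (K 0)) (T (K 2) (U (T L (S L (U L (T L (U L (S L (T L (S L L)))))))) (S (T (K 2) (T (K 2) L)) (V (S L L) (T (S (K 2) (U L (S L L))) (S (T (V L L) (V L L)) (V (T L (S L L)) (T (S L L) (S (S L L) (S L L))))))))))) (V (S (S (K 0) (K 0)) (S L L)) (T (S (K 2) (S (K 2) (U (K 2) (T (K 2) (S L L))))) (T (S (V L (K 2)) (V (S L L) (V (S (U L L) (U L (S L L))) (S (U L (S L L)) (T (S L L) (V L (S L L))))))) (S (S (V L L) (V (U L L) (U (V L L) (V (S L L) L)))) (V (S (T L (S L L)) (T L (S L L))) (S (V (T (U L (S L L)) (S (S L L) (S L L))) (T (U L (S L L)) (S (S L L) (S L L)))) (V (T (S L L) (S (S L L) (S L L))) (T (S (S L L) (S L L)) (S (S L L) (S L L)))))))))))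
noncomputable def w3_6 : Tr := (S (U (V (T (S L (S L L)) (S (U (S L L) (V L L)) (T (V L L) (V L (S L L))))) (T (S (K 2) (T L (V L (S L L)))) (S (U (S L L) (T L L)) (V (T (S L L) (S L L)) (T (S L L) (S L L)))))) (V (T (S (S L L) (S L L)) (S (V (S L L) (S (S L L) L)) (V (S L L) (S L L)))) (T (S (V L (S L L)) (V (S L L) (U L L))) (S (V (T L L) (T L L)) (T (V L (S L L)) (V (S L L) (T L L))))))) (T (V (S (U (V L L) (S L L)) (V (S L L) (T L (S L L)))) (S (U (V (U L L) (T L (S L L))) (V (S L L) (T L (S L L)))) (T (V (V L L) (U (S L L) L)) (V (S L L) (U (S L L) (S L L)))))) (S (V (V (U (S L L) (S L L)) (T (S L L) (S (S L L) (S L L)))) (V (T (U (S L L) L) (U (S L L) (S L L))) (T (U (S L L) (S L L)) (S (T L L) (U L L))))) (V (V (T L (S L L)) (T (S L L) (S L L))) (V (T (U (S L L) L) (U (S L L) (S L L))) (T (S (S L L) (T L L)) (U (S L L) (S L L))))))))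
noncomputable def w3_7 : Tr := (V (F 262144 (T (F 135184 (U (F 2304 (S (K 0) (F 256 (T L L)))) (F 2064 (V (F 2080 (S L (U (S L L) L))) (F 768 (S L (S L L))))))) (F 131096 (U (F 256 (V (F 32 (T L (F 17 (S (K 0) L)))) (K 0))) (F 17 (V (S (S (K 0) (F 512 (T L L))) (F 4608 (U (T L L) (T L (F 20 (S L L)))))) (F 832 (S (F 132 (S (K 0) (K 0))) (U L (T L (F 4 (S L L)))))))))))) (F 49729 (U (F 257 (T (K 8) (F 541 (S (K 2) (S L (T L (S L (T L (V (K 0) (V (K 0) (V L (U (K 0) (U (K 2) (T L L)))))))))))))) (F 777 (T (F 8 (V (S (K 2) (S (K 2) L)) (K 2))) (F 13 (U (S (T (K 2) (U L (T L L))) w3_5) (S (T (V L (K 2)) (S (V L (T (K 2) L)) (U (V L (T (K 2) (V L L))) (V (S L (S L L)) (T (V (S (K 2) L) L) (V (S L (U (T L L) (S L L))) (U L (S L L)))))))) (V (T (S L L) (S (V L (U (S L L) (T L (S L L)))) (V L (T (U L L) (S (S L L) (S L L)))))) (T (S (U (K 2) (V (S L L) (T (K 2) (V L L)))) (T (V L (S (K 2) L)) (U (V (S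 L L) (S L (V L (S L L)))) (V (S L L) (S (V L L) (V L L)))))) w3_6))))))))))
noncomputable def w3_8 : Tr := (T (F 2 (T (F 262 (S L L)) (F 260 (S (F 32 (S L (F 2 (S L L)))) (F 16 (V L (S L L))))))) (F 192 (S (F 194 (U (V (T L (V (S L L) L)) (T L (V L (S L L)))) (V (T L (V L L)) (T (S L L) (S (V L L) (S L L)))))) (V (T (F 4 (S (F 3 (S L L)) (U (U (S L L) L) L))) (F 4 (U (S (T (F 1 (S L L)) (U (V L (S L L)) (F 1 (S L L)))) (V (S L L) (T (S L L) (S L L)))) (F 1 (S (T L (S L L)) (S L L)))))) (U (T (S L (F 4 (S L (T L (V (S L L) (T L L)))))) (V (T (F 4 (S L (S (T L L) (S L L)))) (F 4 (S (F 32 (S L L)) (S (T L L) (T L L))))) (S (F 130 (S L (F 16 (T L L)))) (F 4 (U (T (S L (S L L)) (S L (T L L))) (S (F 1 (S L L)) (T (T L L) (S L L)))))))) (T (F 128 (S (F 33 (T L L)) (F 16 (V L (U (S L L) L))))) (F 128 (S (F 32 (T (F 32 (S L L)) (S L L))) (F 16 (T (V L L) (V (S L L) L)))))))))))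
noncomputable def w3_9 : Tr := (V (F 32768 (U (F 68 (T (F 42 (S (F 2694 (T L L)) (F 24 (V L L)))) (F 24 (S (F 2820 (U (S L L) (F 2 (T (F 130 (S L L)) (F 4 (S (F 33 (S L L)) (F 16 (U L L)))))))) (F 2072 (U (V (S L L) L) (V (T L (F 8 (S L L))) (F 138 (T L (S (U L (T L L)) L)))))))))) (F 45056 (T (F 2181 (S (F 514 (T L (S L L))) (F 24 (U (S L L) L)))) (S (F 6279 (T (V L (F 134 (U L L))) (F 134 (U (T L L) L)))) (F 2944 (V (F 512 (T (S L L) L)) (F 324 (U (T (S L L) (S L L)) (F 1 (T L L))))))))))) (F 25692 (U (F 4 (S (F 6 (T (K 4) (F 4 (V (U L (T L (F 32 (U L L)))) (F 32 (T (K 2) (S L L))))))) (F 130 (T (F 64 (V (S (K 3) L) (K 3))) (U (V (F 4 (T L (T L L))) (T (K 3) (V L (S (K 3) L)))) (V (F 4 (T (S L (S L L)) (U (V (S (S L L) L) (S L (S L L))) (V (S (V L (S L L)) (S L L)) (S (T L (S L (S L L))) (T L (S L L))))))) (S (T (K 3) (V (F 4 (U L (T L L))) (F 2 (S L L)))) (F 4 (T (V L (S (K 4) L)) (V (U (T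 L L) (T (S L L) (S (T L L) (S L L)))) (U L (V (T L (S L L)) (T L L))))))))))))) (F 512 w3_8))))
noncomputable def w3_10 : Tr := (U (T (V (U L (S L L)) (S (K 2) (V (S L L) (V L L)))) (V (S (T L (U (S L L) (S L (S L L)))) (V (T L L) (U (S (U L L) (T L L)) (T L (S L L))))) (S (U (V (S L L) L) (V (T L (U L L)) (T L L))) (V (T (U (S L L) (S L L)) (S (U (V L L) (S L L)) (V (U L L) (S L L)))) (U (T (U L (S L L)) (S (S L L) (V (S L L) L))) (T (S L (S L L)) (S (S L L) (V L L)))))))) (V (T (S (S L L) (U L L)) (S (V (S L L) (T (S L L) (S L L))) (T (S L L) (S (S L L) L)))) (T (S (V (S L L) (S L L)) (V (U (S L L) (S L L)) (T L (U (S L L) (S L L))))) (S (V (T (S (S L L) (S L L)) (V (S L L) (S (S L L) L))) (U (T (S L L) (S L L)) (T (S (S L L) L) (S (S L L) (S L L))))) (T (V (S L L) (S (T L L) (S L L))) (V (S (S L L) (S L L)) (T (S L L) (V (S L L) (S (S L L) (S L L))))))))))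
noncomputable def w3_11 : Tr := (U (S (V (T (S L L) (V L (S (S L L) L))) (T (S (V (U (V L L) L) (V (V L L) (U L L))) (V (V L (U L L)) (T (S L L) (U (S L L) L)))) (V (S (U (V L (S L L)) (S L L)) (V (S L L) (S (U L L) L))) (S (T (V L L) (V (S L L) (S L L))) (T (U (S L L) (S L L)) (V (U L L) (S L L))))))) (V (V L (T (S L L) (S L L))) (V (T (S (S L L) (S L L)) (S (V (S L L) (S L L)) (V L (S L L)))) (T (S (U (V (S L L) (T L (S L L))) (T L L)) (T (S L L) (V L (U L L)))) (U (S (V (S L L) (T (S L L) (S L L))) (T (S L L) (V L L))) (S (T (S L L) (S L L)) (V L (T L L)))))))) (S (V (V L (S (T L (S L L)) (S L L))) (T (V (S L L) (S (S L L) (S (S L L) L))) (V (S (S L L) (T L L)) (S (V (S L L) (U L (S L L))) (V (S L L) (U L (S L L))))))) (V (T L (S L L)) (T (S (V (S L L) (T L L)) (V L (U (S L L) L))) (V (S (U (S L L) L) (S L L)) (S (V (T L L) (U (S L L) L)) (U (T L (S L L)) (S L L))))))))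
noncomputable def w3_12 : Tr := (S (V (T (S (U (T L L) L) (T L L)) (S (V (S L L) (T (T L L) (S L L))) (T (S L L) (S (S L L) L)))) (S (T (U (V (T L (S L L)) (T L (V L (S L L)))) (T (F 64 (S L L)) (F 64 (V L L)))) (U (V (T (S L L) (S L L)) (T (V (S L L) (U L (S L L))) (S (U (T L L) L) (S L L)))) (T (S L (T L L)) (U (V (S L L) (S L L)) L)))) (T (U (V (S L L) (T (S L L) (T L L))) (V L (S L L))) (S (U (V (T L L) (T (U L L) (S L L))) (T (S L L) (T L L))) (U (V (T L L) (T (U L L) (S L L))) (T (S L L) (T L L))))))) (T (V (S (U L L) (U L L)) (U (S (T (S L L) (V L (S (S L L) (S L L)))) (T (S L L) (V L (S (S L L) L)))) (S (V L (S L L)) (S (S L L) (S L L))))) (S (V (T (T L L) (U (S L L) L)) (S (U (T (V L (U (S L L) L)) (V L (S L L))) (T (S L L) (T L L))) (U (T (V L (U L L)) (V L (S L L))) (T (S L L) (T L L))))) (V (U (T L (S L L)) L) (S (U (T (V L (T L L)) (V (S L L) (S L L))) (T (S L L) (S L L))) (U (T (V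 L (S L L)) (T (S L L) (S L L))) (T L (S L L))))))))
noncomputable def w3_13 : Tr := (V (S (U (F 1024 (T (F 512 (V (F 33 (S L L)) (F 4 (S L (S L L))))) (F 512 (V (T (F 33 (S L L)) (F 20 (S L L))) (F 276 (U (T L (F 64 (S L L))) (S (F 64 (T L L)) (S L L)))))))) (F 1036 (T (F 512 (V (S L L) (U (S L L) L))) (V (F 512 (S L L)) (F 320 (T (S L L) (F 32 (S L L)))))))) (T (F 1028 (U (V (F 1056 (T L L)) (F 256 (U (S L L) L))) (F 1024 (V (S L L) (F 2 (S L L)))))) (U (F 1024 (V (F 2048 (T (F 2 (S L L)) (F 4 (U L L)))) (F 832 (S (T (S L L) L) (V L (F 64 (T L L))))))) (F 1036 (V (F 512 (S L L)) (T L (F 320 (S L L)))))))) (F 1036 (U (F 68 (T (S (F 2 (T L (V (U L L) (U (K 2) (S (K 2) L))))) (U (V L (F 2 (T (K 2) (S L (S L L))))) (F 2 (T L (V L (S (S L L) (T L L))))))) (F 2 (S w3_10 (T (U (V (S (S L L) (S L L)) (S (T (S L (V L L)) (U (V (S L L) (S L (T L L))) (V L (S L L)))) (V (S (T L L) (T L L)) (S (U (V L (S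 L L)) (T L L)) (T (S L L) (T L (S L L))))))) (S (V (U L L) (V (T (S L L) (S L L)) (T (S L L) (S L (S L L))))) (V L (T (V L (S L L)) (V (S L L) (S L (U L L))))))) w3_11))))) (F 256 (T (S (F 64 (T L (F 32 (V (S L L) (U (S L (S L L)) (F 1 (S L L))))))) (T (V (F 1 (S L L)) (F 68 (S L L))) (F 68 (S (U (V L (S L L)) (T L L)) (U (S L L) L))))) (F 68 w3_12))))))
noncomputable def w3_14 : Tr := (V (F 16387 (T (F 2097176 (U (F 524288 (S (F 331904 (U (S L L) (T (F 1 (S L L)) (V L L)))) (F 8256 (U (F 4 (V L (F 32832 (S L L)))) (F 37 (T L L)))))) (F 524357 (S (V (F 32 (T (F 65 (S L L)) (F 8 (S (F 66 (S L L)) (F 34 (S L L)))))) (F 128 (S (F 4 (S L L)) L))) (F 4096 (S (V (F 768 (S L L)) L) (F 256 (T L L)))))))) (F 1 (U (F 802818 (S (F 165888 (U (F 384 (S L L)) (T (S L (S L L)) (F 162 (S L L))))) (F 36864 (U (F 1024 (V (S L L) (F 16480 (S L L)))) (F 1 (S (F 2048 (T L L)) (F 32 (T L L)))))))) (F 786443 (S (F 4096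 (V (F 1032 (T (F 4096 (U (S L L) L)) (F 4736 (S L L)))) (F 384 (U (S L L) (F 4096 (S L L)))))) (F 8224 (U (S (F 8 (T L L)) (F 512 (T L L))) (F 10 (S (F 512 (S L L)) (F 512 (S L L)))))))))))) (F 2129956 (T (F 1065480 (U (S (K 16) (F 131072 (V (F 32768 (U (F 256 (S (K 0) L)) (F 17 (S L L)))) (K 0)))) (F 131073 (S (F 16384 (V (F 1 (S L L)) (K 14))) (F 2048 (V (F 1 (U L (S L L))) (F 130 (S L L)))))))) (F 1066496 (U (F 131072 (S (F 4 (U (K 15) (F 1 (S (K 0) L)))) (F 4 (V (F 2 (U L L)) (F 128 (S (K 0) L)))))) (F 147457 (S (F 4352 (U (S L L) (F 4 (V L L)))) (F 1024 (V (F 1 (U (S L L) L)) (F 36 (S L L)))))))))))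
noncomputable def w3_15 : Tr := (V (F 1069061 (T (F 4 (U (V (K 14) (S (F 8197 (S (U L L) L)) (F 6213 (S L (K 3))))) (F 8193 (S (F 16384 (V (F 529 (S L L)) (T L (S L L)))) (F 50192 (V (F 128 (S L (K 3))) (S L L))))))) (F 128 (U (F 32768 (U (F 16 (S (F 4 (S L L)) L)) (F 65536 (S (F 2050 (V L (F 64 (S L L)))) L)))) (F 36865 (S (F 8192 (V (F 16 (T L (F 2304 (S L L)))) (T (S L L) (F 162 (S L L))))) (F 8980 (V (F 513 (S L L)) (U (S L L) (S L L)))))))))) (F 18 (T (F 2060 (U (F 16384 (U (S (F 196736 (V L L)) (F 196688 (S L L))) (F 131072 (S (F 513 (V (F 64 (T L L)) L)) (F 5153 (T (F 4096 (S L L)) (F 64 (S L L)))))))) (F 3 (S (F 16 (V (T (F 9 (S L L)) (S (F 392 (S L L)) (F 8704 (S L L)))) (F 392 (U (S L L) (F 4100 (S L L)))))) (F 4144 (V (F 256 (T L (F 4100 (S L L)))) (F 64 (U (F 4 (T L L)) (F 4100 (S L L)))))))))) (F 4160 (U (F 197120 (U (S L L) (F 65536 (S (V (F 1 (S L L)) L) (F 2145 (S L L)))))) (F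 196609 (S (F 1024 (V (F 129 (T (S (F 1024 (V L L)) (F 4 (S L L))) (F 5156 (S L L)))) (F 272 (U (S L L) (F 2052 (S L L)))))) (F 68628 (V (F 416 (U L (S L L))) (U (S L L) (F 2 (V L L))))))))))))
noncomputable def w3_16 : Tr := (S (F 262160 (V (F 1025 (T (F 77824 (S (F 2 (U (V (S L L) (F 128 (S L L))) (F 5120 (V (F 512 (S L L)) L)))) (U (V (F 128 (S L L)) (U (S L L) (S L L))) (F 7 (S (T L L) L))))) (F 46080 (S (V (F 128 (U (S L L) L)) (S L (S L L))) (V (F 128 (S L L)) (T (U L L) L)))))) (F 32 (U (T (F 74112 (S (F 5 (V (S L L) (F 640 (U L (F 1 (S L L)))))) (F 1 (V (S L L) (F 2176 (S (F 4 (T L L)) L)))))) (F 35328 (S (F 204 (V (F 1024 (S L L)) (F 520 (S L L)))) (F 8 (V (F 8448 (S L L)) (F 2176 (T L (F 528 (S L L))))))))) (F 8192 (S (F 559 (T (F 128 (V L L)) (F 256 (T (F 4 (U (S L L) L)) (F 4 (U L (S L L))))))) (F 17 (T (F 30720 (V L (F 8 (S L L)))) (F 27136 (V L (F 9 (U L (S L L))))))))))))) (F 32784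 (V (F 1089 (T (F 32768 (U (F 256 (S (F 9216 (V (F 64 (U L (S L L))) (S L L))) (F 8192 (V (F 128 (T (F 16 (S L L)) L)) (T L L))))) (F 1 (S (F 11264 (V L L)) (F 3140 (V L (S L L))))))) (F 25600 (S (U (F 128 (V (F 32 (U (S L L) (F 1 (S L L)))) (S L L))) (F 5 (V (F 96 (S L L)) (S L L)))) (F 1217 (U (V (F 1 (S (S L L) (F 32 (S L L)))) (S L (F 8 (T L L)))) (V (U (S L L) L) (S L L)))))))) (F 4 (T (F 200704 (S (F 4 (V (F 256 (U (S L L) L)) (F 4 (U (F 64 (T (F 64 (S L L)) L)) (F 5 (T L L)))))) (F 4096 (V (F 128 (U (F 640 (T L L)) (F 12 (S L L)))) (F 1032 (U (T L (F 16 (S L L))) (F 4 (T L L)))))))) (F 34816 (S (F 88 (U (S (F 4096 (V L L)) (F 4100 (V L (S L L)))) (F 6144 (S (F 256 (S L L)) (F 256 (S L L)))))) (F 8209 (U (F 256 (V (F 16 (S (S L L) L)) (T L L))) (F 4096 (V (S L L) (F 10 (S L L)))))))))))))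
noncomputable def w3_17 : Tr := (V (F 16850976 (T (F 33816592 (U (F 1048580 (S (F 82016 (U (F 16513 (S L L)) (F 12305 (V (F 1028 (S L L)) (F 128 (S L L)))))) (F 1277956 (U (F 1088 (S L L)) (F 15360 (S L L)))))) (F 1474597 (S (F 14340 (S (F 512 (V L L)) (T L L))) (F 12300 (U (V (F 64 (S L L)) L) (F 4 (V L L)))))))) (F 55902224 (U (S (U (F 65536 (S L L)) (F 65536 (S L (F 32768 (S L L))))) (F 98308 (U (F 512 (S L (K 4))) L))) (F 90112 (S (S (F 8208 (V L L)) (F 8192 (T L L))) (F 8224 (S (S L L) L)))))))) (F 37765128 (T (F 2883648 (U (F 524864 (S (F 295072 (U L (F 3080 (S L L)))) (F 278528 (U (F 2176 (S L L)) (F 14336 (V L L)))))) (F 753729 (S (F 10512 (U (S L L) (T (F 516 (S L L)) (F 4 (S L L))))) (F 4352 (V (F 137 (U L L)) (F 516 (S (F 512 (S L L)) L)))))))) (F 33892864 (U (S (F 8224 (U (F 32772 (S L L)) (F 57348 (V (F 1025 (S L L)) L)))) (F 139312 (U (F 64 (S L (K 6))) (F 24 (S L L))))) (F 180272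 (S (F 6152 (T (F 257 (U (S L L) (F 256 (S L L)))) (F 385 (U L (S L L))))) (F 2080 (S (F 516 (T (F 1032 (S L L)) L)) (S L L))))))))))
noncomputable def w3_18 : Tr := (S (F 9068672 (V (F 2329 (S (T (F 4124 (V (S L L) (U (S L L) L))) (F 16 (S L (F 512 (S L L))))) (T (F 4120 (S (V L L) (F 516 (U L L)))) (F 2080 (U (S L L) L))))) (T (F 32824 (S (F 8712 (U (F 16 (S (F 2064 (V L (F 65 (S L L)))) (T (F 2068 (S L L)) L))) (F 1 (T (F 260 (V (S L L) L)) (F 256 (S L (F 130 (S L L)))))))) (U (F 8 (V (F 4385 (S L L)) (F 3140 (T (F 68 (S L L)) (F 1104 (S L L)))))) (F 45064 (V L (F 264 (S L L))))))) (F 2333 (S (F 592 (U (F 128 (S (F 266 (S L L)) (F 8 (T L L)))) (F 198 (S L L)))) (F 2088 (U (F 64 (S L L)) (F 2 (T (F 8 (S L L)) L))))))))) (F 12075040 (V (F 133161 (U (F 1568 (S (T (F 768 (V (F 16 (S L (S L L))) (S L L))) (S L L)) (F 544 (T (F 4 (V (F 257 (S L (F 4 (U (T L L) L)))) (S L (F 33 (T L L))))) (F 16 (V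 (F 257 (T L L)) L)))))) (F 32 (S (F 52 (T (F 12 (V (F 16 (S L L)) L)) (S L (F 5 (S L L))))) (F 2177 (T (F 68 (T (S (F 40 (V L L)) (F 288 (S L L))) (F 296 (V L L)))) (F 209 (U L L)))))))) (F 8320 (T (F 20492 (S (F 2056 (U (S (F 2048 (T L L)) L) (F 2048 (S L L)))) (F 2305 (U (S L (F 8 (S L L))) (F 1280 (S L L)))))) (F 143488 (S (U (F 16 (S L L)) (F 4 (S L L))) (F 1156 (U L L)))))))))
noncomputable def w3_19 : Tr := (U (U (U (U L (U L (V L (S L (T (V L (S L (T (S L (T L L)) L))) L))))) (U (S L (T (V L (V L (S L (T (S L (T L L)) L)))) L)) (V (T L L) (S L (T (V (T L L) (S L (T (V (S L L) (S L (T L L))) (S L L)))) (S L L)))))) (U (V (T L L) (S L (T (V (T L L) (S (S (K 3) L) (T (S (T L L) (T (T L L) (S L L))) (S L L)))) (S L L)))) (V (T L (S L L)) (S (T L (K 3)) (T (V (T (T L (S L L)) (S L L)) (S (T L (K 3)) (T (S (T L L) (T (V L (S L L)) (V L (S L L)))) (T (V L (S L L)) L)))) (S (S L L) (S L L)))))))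 (U (V (T (T L (S L L)) (S L L)) (S (T L (K 3)) (T (V (T (S L (S (S L L) L)) (S L (T (S L L) L))) (S (T L (S (K 3) L)) (T (S (T (S L L) (S L L)) (T (V L (S L L)) (V (S L L) (S L L)))) (S (V L L) (V (S L L) L))))) (S (V L (K 3)) (V (S L (K 5)) L))))) (V (T (S L (S (K 0) L)) (S (S L L) (T L L))) (S (T L (K 3)) (T (S (T (V L (S (K 3) L)) (S L (V L (S (K 3) L)))) (T (V (V L (S (S L L) (S L L))) (S (T (V L L) (T L L)) (T (V (S L L) (S L L)) (V (S L L) (S L L))))) (V (S (T (S L L) L) L) (T (S (S L L) (V (S L L) L)) (S L (S L L)))))) (S (V (S L L) (K 3)) (T (V (S L (K 5)) (S L L)) L)))))))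
noncomputable def w3_20 : Tr := (U (V (T (S L (S (S (K 0) (K 0)) (S L L))) (S (S L L) (T (S (S L L) L) L))) (S (T L (K 3)) (T (S (T (V (S L L) (T L L)) (S (S L L) (V (S L L) (S (K 3) L)))) (T (V (S (T L L) (S L L)) (S (T (V (S L L) L) (V (S L L) L)) (V (T (S L L) (S L L)) (T (S L L) (S L L))))) (V (S (V L (T L L)) (T L L)) (S (T (S L L) (S L L)) (V (T (S L L) L) (S L L)))))) (S (V (T L L) (K 3)) (T (V (S L L) (S L L)) (S L (K 5))))))) (S (T (V L (T L L)) (V (T L L) (K 3))) (T (V (V (S (K 0) L) (S (T L (S (K 0) L)) (T L L))) (S (T (S (T L L) (V (T L L) (T L L))) (S (T L L) (V (T L L) (T L L)))) (T (V (S (T L (S L L)) (T L (S L L))) (S (T (V (S L L) L) (V (S L L) L)) (V (T (S L L) (S L L)) (T (S L L) (S L L))))) (V (S (V (S L L) (T L L)) (V L (T (S L L) L))) (S (T (V (S L L) L) (S L L)) (V (T (S L L) L) (T (S L L) L))))))) (V (V L (S (T (S L L) L) (S L L))) (T (S (S (S L L) (V L L)) (V (S (V L L)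 (S L L)) (S L (S L L)))) (S L (S L (K 5))))))))
noncomputable def w3_21 : Tr := (T (V (S (V (K 0) (T (S L L) (S L L))) (T L (S L L))) (S (T (V (S L (V L (T L L))) (S (S L L) (T (V L L) (S L L)))) (S (V L (K 3)) (V (T (S L L) (S L L)) (T L L)))) (T (V (S (V (S L L) (T L (S L L))) (V L (T L (S L L)))) (S (T (V (S L L) (S L L)) (V (S L L) (S L L))) (V (T (S L L) (S L L)) (T (S L L) (S L L))))) (V (S (V (S L L) (T (S L L) (S L L))) (V (S L L) (T (S L L) L))) (S (T (V (S L L) L) (S L L)) (V (T (S L L) (S L L)) (T (S L L) L))))))) (V (S (V L (T (S L L) L)) (T (S L L) L)) (T (S (V (S L (T L L)) (S (K 3) L)) (V (S (V (S L L) (S L L)) (V L L)) (S (S L L) (V (S L L) L)))) (S (V L (K 3)) (V (S L (K 5)) L)))))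
noncomputable def w3_22 : Tr := (S (V (V (S L L) (T (S L L) (S (S L L) (S L L)))) (T (V (S (T (V L (S L L)) (V L (S L L))) (V (T L L) (T (S L L) (S L L)))) (S (V (T L L) L) (T (V (S L L) (S L L)) (V (S L L) L)))) (V (S (T (V L L) (S L L)) (V (T (S L L) L) (T (S L L) (S L L)))) (S (T L L) (T (V (S L L) L) (S L L)))))) (V (V (S L L) (T (S (S L L) L) (S (S L L) (S L L)))) (T (V (S (V (T L L) (T (S L L) (S L L))) (V (S L L) (T (S L L) (S L L)))) (S (V (T (S L L) (S L L)) (T (S (S L L) L) (S L L))) (T (V (S L L) (S L L)) (V (S L L) (S (S L L) L))))) (V (S (V (T (S L L) L) (T (S L L) (S L L))) (V (S L L) (T (S L L) (S L L)))) (S (T (V (S L L) (S L L)) (V (S L L) L)) (V (T (S L L) (S L L)) (T (S L L) (S L L))))))))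
noncomputable def w3_23 : Tr := (T (S (T (S (V L (T L (K 3))) (V (T (S L L) (T (S L L) (S L L))) (T (V (V L L) (S (K 3) L)) (V (T (S L L) L) (K 3))))) (S (V L (K 3)) (T (V (T (S L L) L) (V (S (K 3) L) (K 3))) (V (S L L) (S (K 3) L))))) (T w3_22 (V (S (V (T L (S L L)) (T (S (S L L) (S L L)) (S (S L L) (U L L)))) (V (T L L) (T (S (S L L) (T L L)) (S L L)))) (T (S (V (S (T L L) (T (V L L) (S L L))) (S (K 3) (T L L))) (V (S (V (S L L) (T L L)) (V (S L L) (T L L))) (S (T (V (S L L) L) (S L L)) (V (S (S L L) L) (S (S L L) L))))) (S (V (S L (T L L)) (S (K 3) L)) (V (S (V L (S L L)) L) (T (S L L) L))))))) (S (V (T (S L (T L L)) L) (K 3)) (T (V (S (V L (S L L)) (S L (K 5))) (T (S (V L L) (V L L)) (S L L))) (S L L))))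
noncomputable def w3_24 : Tr := (V (S (V (S L L) (T (S (S L L) (S L L)) (S (T L L) (S L L)))) (V (S L L) (T (S (S L L) L) (S (S L L) L)))) (S (T (V (S (V (S L L) (S (S L L) (S L L))) (V (S L L) (T L L))) (S (T (V L L) (S L L)) (T (V (S L L) (S L L)) (V (S L L) (S L L))))) (V (S (V (S L L) (T L L)) (T (V L L) (S L L))) (S (T L L) (T (V (S L L) L) (S L L))))) (V (T (S (V (S L L) (T L L)) (V (S L L) (S L L))) (S (T (S L L) (S L L)) (V (S L L) (T L L)))) (T (S (V (T (S L L) (S L L)) (S (T (S L L) (S L L)) (T L L))) (V (T (S L L) (S L L)) (T (S L L) (S L L)))) (S (V (T (S L L) (S L L)) (T (S L L) (S L L))) (T (V (S L L) (S L L)) (V (S L L) (S L L))))))))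
noncomputable def w3_25 : Tr := (S (T (S (V (T L L) (V (T L L) (K 3))) (V (V (S L L) (T (S L (S L L)) (S L (S L L)))) (T (V (S (S L L) (T (S L L) (S L L))) (S L (S L L))) (V (S L (T L L)) (S (K 3) L))))) (S (V (T L L) (K 3)) (V (T (V L (S L (S L L))) (V L (S L L))) (V (T (S L L) L) (K 3))))) (T w3_24 (V (S (T (V (S L L) (S (S L L) (S L L))) (V (S L L) (S (S L L) (S L L)))) (V (S L L) (T (S (S L L) (S L L)) (S (S L L) L)))) (S (V (T (S (T (S L L) L) (V (S L L) (S L L))) (S L (T L L))) (T (S L (T (S L L) L)) (V L L))) (V (T (S (V (S L L) (S L L)) (V (S L L) (S L L))) (S (S L L) (S L L))) (T (S (T (V L L) (S L L)) (T (V L L) (V L (S L L)))) (V (S L L) (S L L))))))))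
noncomputable def w3_26 : Tr := (V (F 133 (T (F 28 (U (S (K 15) (F 4225 (V (S L L) L))) (F 1 (S (F 9480 (V (S (F 4 (V L L)) (F 8 (V L (F 132 (S L L))))) (F 270 (U (K 0) (T (S (K 0) L) (S L (S L L))))))) (F 1800 (V (U L (F 2 (T L (S L L)))) (F 258 (U (T (F 128 (S (K 7) L)) L) (F 128 (T (S L L) (F 2 (S (S L L) L)))))))))))) (F 2048 (U (F 24576 (U (F 1028 (S (K 13) L)) (F 37892 (S (F 512 (S (K 0) L)) L)))) (F 49193 (S (F 12 (V (S (F 4 (S L L)) (F 256 (S L L))) (F 262 (U (S L L) (F 64 (T (S (S L L) (S L L)) L)))))) (F 532 (V (V L L) (F 132 (U L (T (F 64 (S L L)) L))))))))))) (F 230658 (U (F 18440 (U L (F 1049 (S (F 192 (U L (T L L))) (F 192 (U L (U L L))))))) (F 53004 (U (U (T (F 2 w3_19) (F 2 (T (S (S L L) (V L (S L L))) L))) (F 2 (U (T w3_20 (T (S (S L L) (V L (S L L))) (S L L))) (T (S (T (V (S L L) (V (S (K 3) L) (K 3))) (S (T L L) (V (T L L) (T (S (K 3) L) (K 3))))) w3_21) (T (S (V L (K 3)) (V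 (S L (K 5)) (S L L))) (S L L)))))) (F 2 (U w3_23 (T w3_25 (T (S (S (V L (K 3)) (V (T (S L L) (S L L)) (S (K 3) L))) (V (S (T (V L (S L L)) (S L L)) (V L (S L L))) (S (T (V (S L L) L) L) (T (V (S L L) L) L)))) (S (S L L) (S L (S L L))))))))))))
noncomputable def w3_27 : Tr := (S (F 1 (T (F 2 (V (S (F 1 (U L L)) (V (F 16 (S L L)) (S (U L L) L))) (U (S L (T L L)) (S (F 1 (S L L)) (T L L))))) (F 2 (U (V (S L L) L) (V (V L (S L L)) (S L L)))))) (T (S (V (F 32 (U (U (S (F 64 (S L L)) (V L (T L L))) (F 64 (T L L))) (F 64 (T (S L L) L)))) (U (V (F 32 (T L (F 2 (S L L)))) L) (F 65 (V L (S L L))))) (F 32 (V (V (T (S L L) (S L L)) (T (U (S L L) L) (U (S L L) L))) (T (U (V (V (S L L) (T L L)) (S L (U L L))) (F 64 (V (S L L) L))) (U (V (U (S L L) (S L L)) (S L L)) (F 64 (S L L))))))) (T (F 32 (U (V (S (V L L) (V L (S L L))) (S L (S L (T L L)))) (F 64 (V (S (S L L) (S L L)) (S L (S L L)))))) (F 32 (U (S (V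 L L) (V (T (S L L) L) (S L L))) (F 64 (V (S L L) (S L L))))))))
noncomputable def w3_28 : Tr := (T (F 532 (U (V (S (U (U L (T (S L L) L)) (S (F 65 (T L L)) (T (F 64 (V L (V L (S L L)))) L))) (F 32 (U (T (S L (U (S L L) (V (S L L) (S L L)))) (T (S L L) (S L L))) (T (S (U (T (V L L) L) (V (T L L) (T (S L L) L))) (V (T L L) (T (U (S L L) (S L L)) (T L L)))) (S (V L L) (T (V L L) (S L L))))))) (S (F 64 (U (K 3) (S L (U (K 3) (S L L))))) (U (S (K 3) (F 32 (T (V (T L L) (K 3)) (K 3)))) (T (S (V (F 32 (S L (V L L))) (F 64 (S (K 3) L))) (F 32 (V (T (U (S L L) (S L L)) (S L L)) (U (S (K 3) L) (S L (S L L)))))) (F 32 (S (K 3) (T (S L L) L))))))) w3_27)) (F 512 (S (F 288 (U (F 2 (S (K 3) (K 3))) (F 128 (T (F 32 (U L (S L L))) L)))) (F 224 (T (U (V (T (U L (S L L)) (S L L)) (K 3)) (U (V (S (T L L) (V L L)) (S (K 3) (S L L))) (F 64 (S (S L L) (V (S L L) L))))) (U (S L (S L L)) (S L (U (S L L) L))))))))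
noncomputable def w3_29 : Tr := (V (F 4096 (T (F 14336 (U (F 768 (S (F 256 (U (S L L) (S (F 161 (T L L)) (F 96 (T (V L (U (S L (T L L)) (T L (S L L)))) (U L L)))))) (F 4 (S (F 66 (U (S L L) (T (U (S L L) (T L L)) (S L L)))) (F 66 (V L (T (U L L) (U L (S L L))))))))) (F 2 (S (F 1036 (V (F 32 (T L (S L L))) (F 16 (T (S (F 66 (T L L)) (F 4 (U (S L L) L))) (F 4 (U L (S L L))))))) (F 20 (T (F 32 (V L (F 4 (S (S (F 1 (S L L)) L) (S L L))))) (F 64 (V L (F 4 (S (S L L) (S L L))))))))))) (F 12312 (U (S (F 258 (U (S L L) (F 128 (T (S L L) L)))) (F 2 (T (F 4 (S (F 2 (U L (S L L))) (F 2 (U (S L L) (T L L))))) (F 4 (S (F 2 (U L L)) (F 2 (U (S L L) (S L L)))))))) (F 258 (S (F 384 (T (U L (S L L)) (S L L))) (F 128 (T (V (S L L) (S (F 32 (S L L)) (F 32 (S L L)))) (S L (T L L)))))))))) (F 10268 w3_28))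
noncomputable def w3_30 : Tr := (T (F 50 (S (F 128 (U (F 640 (V (T (F 128 (S L L)) (F 384 (S L L))) (F 388 (S (U (T L (S L L)) (T (S L L) (S L L))) (T (S L L) (T L (S L L))))))) (F 518 (T (F 8 (V L (F 32 (S L (S L L))))) (V (S L L) (F 12 (S (S L L) (T L L)))))))) (F 16 (U (F 544 (T (V (F 512 (U (S L L) L)) (F 388 (S (S L L) L))) (F 256 (V (U L L) (F 66 (S (S L L) (U L L))))))) (F 514 (V (F 512 (S L L)) (F 288 (T (S L L) (F 32 (S L L)))))))))) (F 8212 (U (S (F 1604 (S (F 2 (T (F 4 (U (S L L) L)) (V L (F 4 (U L L))))) (F 64 (T (F 64 (U (S L L) L)) (U (S L L) L))))) (F 520 (V (S (F 32 (T L L)) L) (F 294 (T (U (S (S L L) L) (S L L)) (S L L)))))) (F 2560 (S (F 18 (T (S (F 4 (S L L)) (F 8 (U L L))) (F 4 (U (S L (S L L)) (F 1 (S L L)))))) (F 128 (V (S L (F 512 (S L L))) (F 292 (U (T (S L L) (S L L)) (T (S L L) L))))))))))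
noncomputable def w3_31 : Tr := (U (V (S (T (V L (U (S L L) (S L L))) (V (T L L) (S L (S L L)))) (V (T (S L L) (S L L)) (T (S (T L L) (U (S L L) L)) (S (S L L) (U (S L L) L))))) (S (T (V (U (S L L) (S L L)) (U L L)) (V (S L L) (S (K 3) L))) (T (V (S (V (S L L) (S L L)) (V (T L L) (T L L))) (S (T L L) (T (U L L) (V L L)))) (V (S (U L L) (V (T L L) (S L L))) (U (S L (S L L)) (S L (T L L))))))) (S (V (V (T L L) (T (S L L) (S L L))) (V (T (S (S L L) (S L L)) (S L (S L L))) (T (U (S L L) (S L (S L L))) (S L L)))) (V (T (S (S L L) (S L L)) (S (T L L) (S L L))) (T (V (S (S L L) (T L L)) (U (S (T L L) (V L (S L L))) (S (S L L) (S L L)))) (V (S (S L L) (S L L)) (S (U L L) (T (U L L) (S L L))))))))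
noncomputable def w3_32 : Tr := (T (S (V (T (V L (S L L)) (V (S L L) (U (S L L) (S L L)))) (T (U (V (V (S L L) (U L (S L L))) (S (T L L) (S L L))) (U (V (S L L) (S L L)) L)) (U (S (V (U L L) (S L L)) (V (T L L) (S L L))) (U (V (S L L) (S L L)) (F 1 (S L L)))))) (V (T (V L (S L L)) (V L (U (S L L) (S L L)))) (T (S (U (V (U L L) (S L L)) (V L L)) (U (V (T L L) (S L L)) (V L L))) (S (U (V (T (S L L) L) (S L L)) (V L L)) (U (V (T L (S L L)) (S L L)) (V L L)))))) (S (V (U (T (S (S L L) (S L L)) (V L (S L L))) (U (T (S L L) L) L)) (T (U (V (S L L) (S L (S L L))) (U (V (S L L) (S L L)) L)) (U (V (S L L) L) (U (V L L) L)))) (V (U (V (S L L) (T (S L L) (S L L))) (T (S L L) (S L L))) (T (V (S (S L L) (S L L)) (S (U (S L L) L) (U (S L L) L))) (V (S (S L L) (S L L)) (S (T L L) (T L L)))))))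
noncomputable def w3_33 : Tr := (S (V (T (S (T (U (S L L) L) (U (T L L) L)) (V (S L L) (U (S L L) (S L L)))) (S (T (U (T L L) L) (U (T L L) L)) (U (V (S L L) (T (S L L) L)) (T L L)))) (T (S (V (T (S L L) (S L L)) (T (S L L) (S L L))) (T (V (T L L) (S L L)) (V (T L L) (S L L)))) (U (S (T (S L L) L) (T (V L L) (S L L))) (S (V (S L L) (S L L)) (V (S L L) (S L L)))))) (V (T (S (V (S L L) (T L (S L L))) (T (S L L) (S L L))) (S (V (S L L) (T (S L L) L)) (V (S L L) (T L L)))) (T (T (S (U (V L (S L L)) (S L L)) (V (S L L) (U (S L L) L))) (U (S (V L (S L L)) (V L (S L L))) (S (T L (S L L)) (V L (S L L))))) (U (S (T (V L (S L L)) (T (S L L) (S L L))) (V (S L L) (T L (S L L)))) (S (V (T L L) (S L L)) (V (S L L) (T (S L L) L)))))))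
noncomputable def w3_34 : Tr := (S (V (U (T (V (S L L) (S (S L L) (S L L))) (V (S L L) (S (U L L) (S L L)))) (V (S L L) (T (S (S L L) (S L L)) (S L (S L L))))) (T (U (V (S (T (S L L) (S L L)) (V (S L L) (U (S L L) L))) (U (S (T L L) (V (S L L) L)) (S (S L L) (T (S L L) L)))) (S (V (U (S L L) L) (V L (S L L))) (V (U (S L L) L) (T (S L L) L)))) (U (S (V (U (S L L) L) L) (V (V L (U L L)) (T L L))) (V (S (U (S L L) L) (S L L)) (S (S L L) (S L L)))))) (V (T (V (S L L) (U (S (S L L) (S L L)) (S L L))) (U (S (T L L) (V L L)) (S L L))) (T (U (V (S (T (S L L) (S L L)) (V (S L L) (S L L))) (S (S (U (V (S L L) L) (S L L)) (U (V L L) (S L L))) (U (V (S L L) (S (S L L) L)) (T (S L L) L)))) (S (T (V (U L L) (S L L)) (V (U L L) L)) (T (V (U L L) (S L L)) (V (U L L) L)))) (U (V (S (T (S L L) (S L L)) (U (S L L) (S L L))) (S (T (S L L) L) (U (T (S L L) L) (S L L)))) (S (V (U L L) (S L L)) (V (S L L) (S L L)))))))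
noncomputable def w3_35 : Tr := (T (S (V (U (T (S L L) (S L L)) (V L (T L (S L L)))) (T (S (U (V (T L L) (T L L)) (V L L)) (U (V (T L L) (S L L)) (V L L))) (V (S (U (S L L) L) (S L L)) (S (U (S L L) L) (U (S L L) L))))) (T (U (V (S L L) (S (V (S L L) (S L L)) (T (S L L) (S L L)))) (V L (V (S L L) (S L L)))) (S (U (V L (V L (S L L))) (V L (V L L))) (U (V L (V (S L L) (S L L))) (V L (T L L)))))) (S (V (U (T (V L (S L L)) (S (S L L) (T L L))) (T L L)) (T (V (S (S L L) (S L L)) (S (U (S L L) L) (U (S L L) L))) (V (S (S L L) (S L L)) (S (S L L) (S L L))))) (V (U (V L (S (T (S L L) L) L)) (T L L)) (T (V (S (S L L) (T L L)) (S (T (S L L) L) (V L (S L L)))) (V (S L L) (S (S L L) (S L L)))))))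
noncomputable def w3_36 : Tr := (S (U (T w3_31 (S (V (U (T (V (S L L) (S L L)) (V (S L L) L)) (T (V L (S L L)) (V L (S L L)))) (U (V (T L L) (K 3)) (T (V (T L (S L L)) L) (S L L)))) (V (T (U (V (S L L) (S (S L L) (U (S L L) L))) (S (T L L) (S L L))) (U (S (V (S L L) L) (V L (U L L))) (V L (S L L)))) (U (T (V (S (S L L) (T (S L L) L)) (U (S (K 3) L) (S L L))) (V (S L (S L L)) L)) (T (S (V (U L (S L L)) L) (V (V L (S L L)) (T L L))) (S (T L L) (V (U L L) L))))))) w3_32) (U (T (U (V (S (T (V (S L L) (S (S L L) (S L L))) (V (S L L) (S (S L L) (S L L)))) (T (S (T L L) (S L L)) (V L (S (S L L) (S L L))))) w3_33) (S (V (V (S L L) (T (S (S L L) L) (S (S L L) (S L L)))) (T (V (S (S L L) (S L L)) (S (U (V L (S L L)) (S L L)) (U (V L (S L L)) (S L L)))) (S (V (T L L) (T (S L L) (S L L))) (V (T L (S L L)) (T (S L L) (S L L)))))) (V (T (S L L) (S L L)) (T (S (V (U (S L L) L) (S (U (S L L) L) (U (S L L) L)))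 (V (S L L) (U (T (S L L) L) (S L L)))) (S (T (V (S L L) (S L L)) (V (U L L) (S L L))) (V (U L (S L L)) (T (S L L) (S L L)))))))) w3_34) w3_35))
noncomputable def w3_37 : Tr := (U (T (S (U (V (S (V (S L L) (T (S L L) L)) (T (V L L) (S L L))) (T (V (U (S L L) (S L L)) (S L L)) (U L L))) (V (V (S L L) (T (T L L) (S L L))) (T (V (S L L) (S L L)) (V (S L L) L)))) (U (V (T (V L (S L L)) L) (T (U (V (S (S L L) L) (S L L)) (V (S L L) (S L L))) (U L (V L L)))) (V (V L (S (T L L) (T L L))) (T (V (S L (S L L)) (S L L)) (V L (S L L)))))) (U (T (V (S (S L L) L) (S L L)) (S L (S L L))) (V (S (U (S L L) (S L L)) L) (S (T L L) (V L (S L L)))))) (T (V (S (T (S L L) (S L L)) (U (S (T L L) L) (S L L))) (S (T (V (S L L) (S (S L L) L)) (V (S L L) (S L L))) (T (V (S L L) (S L L)) (V (S L L) (S L L))))) (V (U (S (S L L) (S L L)) (F 1 (S L L))) (S (U (V L L) L) (U (V L (S L L)) L)))))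
noncomputable def w3_38 : Tr := (U (F 139889475712 (S (F 16122121568 (V (F 98304 (U (F 32 (S (K 16) (K 16))) (F 270345 (S (F 6154 (T L (F 512 (U L L)))) (F 6164 (T (F 516 (U (K 8) (T L L))) (F 768 (U (T L L) (S L (T L L)))))))))) (F 16436 (U (F 160 (S (K 7) (K 7))) (F 77881 (S (F 64 (S (K 4) (K 4))) (F 66 (V (F 4 (T (U L (T L L)) (T L (K 3)))) (K 4))))))))) (F 6599743729 w3_26))) (F 1373416485023 (S (F 610816 w3_29) (F 299048 (V w3_30 (F 12606 (T (F 4 w3_36) (S (F 4 (T (U (S (T (V (U (S L L) (S L L)) (S L L)) (V (T (S L L) L) L)) (U (V (T (S (S L L) (V L L)) (S L L)) (T (S L L) L)) (V (V (T L L) (T (S L L) (S L L))) (T (S L (S L L)) L)))) (V (S (S (U (V L L) (S L L)) (U (V L L) (S L L))) (S (U (V L L) L) (U (V L L) L))) (S (T (U (S L L) (V L L)) (S L L)) (T (V (S L L) (U (S L L) (S L L))) (U (S L L) (S L L)))))) (U (S (U L (S L L)) (U (T (V (S L L) L) L) (V (V L L) L))) (S (U (V L L) (F 1 (S L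 L))) (V (T (S L L) L) (U (S L L) L)))))) (F 4 w3_37)))))))))
noncomputable def w3_39 : Tr := (S (F 104964368 (T (F 57372 (U (S (F 2048 (V (F 384 (T (F 4 (S L L)) L)) (K 4))) (F 24 (S (F 2 (V (T L L) (K 5))) (F 6 (T (F 4 (V (S L L) L)) (V L L)))))) (F 6144 (S (F 1 (V (F 24 (T L (F 64 (S L L)))) (F 2 (S (K 2) L)))) (F 65 (T (F 12 (S L (T L L))) (U (F 8 (S L L)) (F 8 (S L L))))))))) (F 10253 (U (V (F 40 (S (F 1281 (T L L)) (F 68 (U (S L L) (F 512 (T L L)))))) (F 10258 (S (K 3) L))) (F 10248 (S (F 641 (T L L)) (F 1 (V (F 80 (T L L)) L)))))))) (F 101810760 (V (F 8192 (U (F 32 (T (F 8248 (S (F 1160 (T (F 128 (V (S L L) (F 128 (S L L)))) (U L (F 1 (S L L))))) (F 20 (T (F 256 (S L L)) L)))) (F 1061 (S (F 136 (S (F 2 (V L (F 512 (T L L)))) L)) L)))) (F 36872 (T (F 2060 (S (F 2184 (S (F 1 (T (F 4 (S L L)) (S L L))) (F 65 (U (S L L) L)))) (F 1044 (V L (F 72 (U L L)))))) (F 1285 (S (F 64 (U (S L L) L)) (F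 1552 (S L L)))))))) (F 4388 (T (F 14376 (U (S (F 64 (T (F 12 (U L (S L L))) L)) (F 32 (T (F 12 (U L (V L L))) L))) (F 64 (T (F 260 (S (F 16 (U L L)) (F 16 (V (S L L) (S L L))))) (F 256 (S (S L L) (F 24 (S L L)))))))) (F 16544 (U (F 256 (T (F 1024 (S L L)) (F 1024 (S (S L L) L)))) (F 257 (S (F 514 (S L L)) (F 784 (V L L)))))))))))
noncomputable def w3_40 : Tr := (V (F 0x8721044602840c0204004 (T (F 0x19c76236428443ff60 (U (F 8589934592 (S (F 11885609552 w3_14) (F 29073866777 w3_15))) (F 85362532927 w3_16))) (F 0x1329e291420403e000 (U (F 145137153868864 (S (F 1615047165008 w3_17) (F 315551121604 (V (F 75551106 (T (F 1703940 (U (S (F 20481 (U L (F 60 (S L L)))) (F 30353 (S L L))) (F 31233 (S (F 132 (V (S L (F 256 (T L L))) L)) (F 148 (U (V L L) (V (F 129 (S L L)) (S L L)))))))) (F 1974272 (U (F 128 (U (F 4 (S L L)) (F 60 (S (S L L) L)))) (F 15488 (S (V (F 1 (S L L)) L) (F 33 (U (S L L) L)))))))) (F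 2097165 (T (F 17829896 (U (F 262144 (S (F 36900 (T L (K 5))) (F 82588 (S L L)))) (F 249856 (S (F 2056 (V L (F 128 (T L L)))) (F 5156 (V L L)))))) (F 16814088 (U (K 7) (F 233576 (S (F 8192 (S L (K 3))) L)))))))))) (F 167092482573439 w3_18))))) (F 0x4608004520a0052a782 (T (F 0x45c06e118100ff1c8 w3_38) (F 0x4d4326000180f8908 (U (F 71468802179200 (S (F 520540424240 (V (F 155648 (T (F 655508 (U (F 2048 (S L (F 73728 (S L L)))) (F 28673 (S L (F 2056 (U L (F 4 (T L L)))))))) (F 131088 (U (F 4096 (S (K 10) (F 557572 (U L L)))) (F 376849 (S (F 12304 (T L L)) (F 80 (T L L)))))))) (K 10))) (F 70642648084 (V (F 29425673 (T (F 3145728 (U (F 20480 (S (F 24576 (U L L)) (K 10))) (F 118808 (S (F 2056 (T (F 516 (U L (F 128 (S L L)))) (F 136 (S L L)))) (F 528 (T (F 264 (S (K 6) (K 6))) (K 4))))))) (F 3277440 (U (S (F 2048 (S (F 4112 (T L L)) L)) (K 6)) (F 12328 (S (F 8 (T (S L L) L)) (F 32 (S L (K 4))))))))) (F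 1704002 (T (F 3145744 (U (F 4096 (S (F 86152 (S (K 6) L)) (F 20664 (T L L)))) (F 118865 (S (F 3096 (U L L)) (F 2064 (T (F 390 (S L L)) L)))))) (F 3163144 (U (S (F 67092 (S (K 6) L)) (F 29184 (T L L))) (F 29713 (S (F 1024 (S L L)) (F 1040 (S L L)))))))))))) (F 83528792782983 w3_39))))))
noncomputable def w3_41 : Tr := (U (F 8521 (S (F 23 (U (T (F 2080 (V (F 2048 (U (F 1024 (S (F 1 (S L L)) (T L L))) (F 3072 (S L (S L L))))) (F 40 (S (F 1570 (S L L)) (F 34 (U (F 2 (S L L)) L)))))) (F 18464 (V (V (F 1024 (S L (S L L))) (F 16 (S (F 2 (U L L)) (F 2 (S L L))))) (F 16 (U (S (F 258 (T L L)) (F 16 (V (S L L) L))) (S L (F 16 (S L L)))))))) (F 16384 (V (F 4356 (S (F 1024 (T L L)) (T L L))) (F 32 (T (F 5634 (S L L)) (F 32 (S L L)))))))) (F 8197 (V (F 33792 (U (T (F 4134 (U (F 8 (V (F 1 (S L L)) (F 8 (S L L)))) (F 520 (S L L)))) (F 514 (U (S (F 2048 (V L L)) (F 2240 (S L L))) (F 2048 (S (S L L) L))))) (F 513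 (T (F 130 (S L L)) (F 2048 (S L L)))))) (F 8320 (U (T (F 16 (U (F 16 (S (F 641 (V L L)) (F 640 (T L L)))) (F 6192 (S L L)))) (F 513 (S (F 2048 (U (T L L) (F 256 (S L L)))) (F 2052 (U (V L L) L))))) (F 515 (T (F 20 (V L (S L L))) (F 4 (S L L)))))))))) (F 15737161 (S (F 8192 (U (F 8192 (T (F 261 (S L L)) (F 512 (V L L)))) (F 8194 (S L L)))) (F 5632 (U (V (F 256 (S L L)) (F 32 (S L L))) (F 2 (S L L)))))))
noncomputable def w3_42 : Tr := (S (F 4166 (T (F 129 (U (T (V L L) (V (V L L) (F 64 (V (S L L) (F 16 (S L L)))))) (V (S L L) (F 64 (T L (S L L)))))) (F 128 (V (U (T (F 128 (S (F 1 (T L L)) L)) (F 64 (U (F 32 (S L L)) L))) (F 128 (T L L))) (F 64 (U (T (F 1 (V (U L L) (F 2 (U (S L L) L)))) (F 32 (U (V (T L (S L L)) (T L L)) (F 32 (V (S L L) (S L L)))))) (F 33 (T (S L L) (S L L))))))))) (F 4164 (U (V (T (F 32 (U (F 256 (S L L)) L)) (F 96 (V L (F 64 (S L L))))) (F 130 (T (F 4 (T L (U (F 1 (S (F 2 (S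 L L)) (F 4 (S L L)))) L))) (F 4 (T (V (F 16 (S L L)) (S (F 32 (U (T L L) L)) (F 16 (U (S L L) L)))) (V (F 16 (U (T (S L L) (S L L)) (S L L))) (S (F 32 (U (T (S L L) (S L L)) (S L L))) (F 16 (U (T L L) (S L L)))))))))) (T (F 321 (V L (F 2 (T (S L L) L)))) (F 64 (V (F 8 (V L L)) (F 132 (T (S L (S L L)) (V L (S (F 32 (S L L)) L))))))))))
noncomputable def w3_43 : Tr := (V (F 16388 (U (F 256 (T (F 144 (U (F 64 (S (F 256 (S L L)) (S L L))) (F 65 (V (S L L) L)))) (F 2056 (S (F 72 (T L (U L L))) (F 64 (U (T L (S L L)) (T L L))))))) (F 641 (T (F 72 (U L L)) (F 8 (S L (S L L))))))) (F 8704 (U (F 1088 (T (F 8 (T (F 193 (U (V (S L L) (F 32 (S (S L L) L))) (S L L))) (F 65 (U (F 64 (S (F 16 (V L (U (S (S L L) L) L))) (V L (F 16 (S (S L L) L))))) (F 4 (S L L)))))) (F 280 (S (T (F 1 (U (F 4 (S (V L (T L L)) (T L (S L L)))) (F 4 (S L L)))) (F 33 (U (S (V (T L L) (V L (S L L))) (V (S L L) (T L (S L L)))) (S (S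 L L) (S L L))))) (U (T (S (F 33 (S L L)) (F 1 (T L L))) (F 32 (S (T (F 64 (S L L)) (F 64 (S (S L L) L))) (U (V L (T (S L L) (S L L))) L)))) (F 33 (T (S L L) (S L L)))))))) (F 1921 (T (F 4 (T L (S L L))) (F 64 (S (F 16 (T L L)) (F 16 (S L L)))))))))
noncomputable def w3_44 : Tr := (T (F 1146101820 (U (F 1114432 (S (F 82177 (U (F 8192 (T (F 2049 (T (F 4 (U (F 64 (S L L)) (F 104 (S L L)))) (F 40 (U (F 8 (S L L)) (F 136 (S L L)))))) (F 10897 (U (V (S L L) L) (V (S L L) (F 2 (V L L))))))) (F 25156 (T (F 192 (S L L)) (F 576 (V (S L L) (F 2 (S L L)))))))) (F 16641 (U (F 136 (T (F 130 (S (F 2053 (U (T L L) (F 40 (S L L)))) (F 2085 (V L (T L L))))) (F 8224 (V (F 40 (U (V (F 10 (S L L)) (F 65 (S L L))) (F 67 (S L L)))) (F 2064 (T (F 224 (S L L)) (F 224 (U (S L L) L)))))))) (F 50569 (T (F 144 (V L L)) (F 48 (V L (F 4 (S L L)))))))))) (F 7886040 (S (F 2564 (T L L)) (F 2720 (T (F 4 (S L L)) (F 4 (S L L))))))))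 (F 3367510136 (U (F 2208 (S (F 16454 (U w3_42 (F 4100 (T (F 545 (V (U (S L L) L) (F 2 (S (F 1 (S L L)) (F 32 (S L L)))))) (V (U (S L L) (F 640 (S L L))) (F 418 (S (F 66 (T L L)) (T (F 2 (S L L)) (F 2 (S L L)))))))))) (F 16388 w3_43))) (F 919724 (S (F 1024 (T (F 1154 (S L L)) (F 6 (S (F 9 (S L L)) L)))) (F 448 (T (V L (F 36 (S L L))) (U (V L (F 36 (S L L))) L))))))))
noncomputable def w3_45 : Tr := (U (F 2496652 (S (F 30 (V (F 1024 (U (S (F 1 (U (F 16 (T L (F 16 (S L L)))) (F 18 (V L L)))) (F 257 (T (F 64 (U (S L L) (S L L))) (F 64 (U (S L L) L))))) (F 257 (T (S L L) (F 64 (S L (S L L))))))) (F 8320 (U (T (S (F 8 (U (F 272 (S L L)) L)) (F 128 (U (V L (F 128 (S L L))) (S L L)))) (F 130 (S (T L (F 256 (S L L))) (U (S L L) L)))) (F 128 (T (S (F 2 (S L L)) (S L L)) (S L L))))))) (F 9228 (V (U (S (F 6400 (T (F 1 (U (V L L) L)) (T (F 1 (V L L)) L))) (F 4100 (T (F 83 (S L (T L L))) (F 210 (V (F 129 (S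 L L)) L))))) (F 12288 (T (F 9 (S L L)) (F 521 (S L L))))) (F 2048 (T (F 2 (U (S (F 2048 (U (S L L) (F 256 (S L L)))) (F 2052 (U (S L L) (F 64 (S L L))))) (F 2052 (S (T L L) L)))) (F 2 (U (S (F 2052 (V L (F 2 (S L L)))) (F 4 (U (V (S L L) L) (F 1 (S L L))))) (F 2052 (U (S L L) L)))))))))) (F 65411148 (S (F 4097 (U (V (F 8 (S L L)) (F 64 (T L L))) (F 8 (S L L)))) (F 2560 (T (V (U (F 256 (S L L)) L) L) (U (F 2048 (S (S L L) L)) L))))))
noncomputable def w3_46 : Tr := (T (F 128 (U (F 4 (V (S (T (F 80 (U (S L L) L)) (V L (F 80 (S L L)))) (F 32 (V L (F 4 (T L (S L L)))))) (F 16 (S (F 2 (V (T (U (V (S L L) (T L (S L L))) (S L L)) (U (S L L) (S L L))) (T (U (S L (T L L)) (T L L)) (U (S (S L L) L) (S L L))))) (T (V (F 4 (U (S (T L L) L) (S L L))) (S (F 2 (S (T (S L L) L) L)) (F 4 (T (S L L) (S L L))))) (V (F 4 (S (S L L) (S L L))) (S (F 2 (T L L)) (F 4 (V (S L L) L))))))))) (F 4 (S (F 64 (V (V L (F 4 (T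 L L))) (F 4 (T (S L (V L L)) (V L (S L L)))))) (V (F 32 (S L L)) (F 16 (T (V (F 4 (S L L)) (S L L)) (V (F 4 (S L L)) (F 2 (S L L)))))))))) (F 192 (V (F 4 (S (U (U (V L (F 32 (S L L))) (F 32 (S L L))) (F 32 (S L L))) (U (T (S (S L L) L) (S L L)) (S L L)))) (S (F 10 (U (T (T (V L L) (S L L)) L) (T (S L L) L))) (F 12 (T (V (S L (T L L)) (F 16 (S L (S L L)))) (U (S L (V L L)) L)))))))
noncomputable def w3_47 : Tr := (T (F 512 (S (F 1344 (V (U (T L (S L L)) (S L L)) (F 48 (T (U (V (S (S L L) (S L L)) (S (T (S L L) (S L L)) (T (S L L) (S L L)))) (V L (S L L))) (U (V (S (S L L) (S L L)) (S (T (S L L) (S L L)) (T (S L L) (S L L)))) (V (S L L) (S L L))))))) (U (F 264 (V (F 1 (V L (F 32 (T (S L L) (S L L))))) (F 72 (T (S (F 64 (V L (T (S L L) (S L L)))) (V L (T (S L (S L L)) (F 64 (S L L))))) (F 64 (S (V L (T (S L L) (S L L))) (V L (T (S L L) L)))))))) (F 1024 (V (T (F 64 (S L L)) L) (F 202 (T (S (S L L)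 L) (S (S L L) L)))))))) (F 5 (S (F 8 (V (F 64 (U (F 32 (S (S L L) (S L L))) (S L L))) (F 36 (T (F 4 (U (S (V L (T L L)) (V L (T L L))) (S (S L L) (S L L)))) (U (F 4 (S (V L L) (V L L))) (F 4 (S L L))))))) (F 4 (V (U (V (S L L) (F 36 (U L L))) (F 32 (S L L))) (F 100 (T (U (S (V L (S L L)) (V L (S L L))) (S L L)) (U (V (S L L) (S L L)) (S L L)))))))))
noncomputable def w3_48 : Tr := (S (F 5279 (U (F 16 (T (F 7206 (S (F 14 (V (F 32 (U (S L L) L)) (S L L))) (F 24 (U (T (F 32 (V L L)) (U (S L L) L)) (F 32 (V L (F 2 (S L L)))))))) (F 5376 (S (F 2058 (U (F 18 (S L L)) (F 146 (S L L)))) (F 2192 (U (F 2 (T (F 8 (S L (S L L))) L)) (F 322 (S L L)))))))) (F 18552 (T (F 386 (S (F 2 (S L L)) (F 4 (T L L)))) (F 640 (S (F 128 (S L L)) (F 132 (S L L)))))))) (F 3608655 (U (F 11328 (T (F 64 (S (V (F 4 (U (F 4 (S L L)) L)) (F 64 (U (T (F 48 (S L L)) (S L L)) (F 32 (V (S L L) L))))) (V (F 4 (U (T L L) L)) (F 64 (U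 (F 16 (T (F 4 (S L L)) (S L L))) (F 32 (V (S L L) (F 4 (S L L))))))))) (S (V (U L (F 16 (S L L))) (F 260 (U (T L L) (F 16 (S L L))))) (V (F 16 (U (S L L) L)) (F 4 (U (F 32 (S L L)) (F 48 (S L L)))))))) (F 8256 (T (F 774 (S (V L (F 32 (S L L))) (F 4 (V L L)))) (F 64 (S (F 520 (V L L)) (F 272 (V L (F 10 (S L L)))))))))))
noncomputable def w3_49 : Tr := (V (F 19791746173188 (T (F 634111658095 w3_45) (F 552003961355 (U (F 25175312 (S (F 4194398 (V (F 32768 (U (F 824 (S (F 4368 (T (F 385 (S L L)) (F 576 (S L L)))) (F 4356 (T (F 385 (S L L)) (F 65 (S L L)))))) (F 17155 (T (F 5132 (S L L)) (F 6288 (S L L)))))) (F 82944 (U (F 8 (T (F 49688 (S (F 320 (V L (F 68 (S L L)))) (F 384 (U L L)))) (F 17000 (S (F 641 (S L L)) (F 33 (T L L)))))) (F 12419 (T (F 1028 (S L L)) (F 1624 (S L L)))))))) (F 557629 (V (U (F 66316 (T (F 1556 (S (F 256 (S L L)) (V (F 17 (S L L)) (F 64 (T L L))))) (F 25 (S (T L L) (F 5 (V (F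 72 (S L L)) (T L L))))))) (F 213532 (T (F 260 (S L L)) (F 1058 (S L L))))) (F 8200 (U (F 130 (S (F 10248 (T (F 384 (U L L)) (F 16 (S L L)))) (F 12 (U (F 64 (T (F 260 (S L L)) (F 1024 (S L L)))) (F 5 (T (F 4 (S L L)) L)))))) (F 12427 (T (F 4 (S L L)) (F 32 (S L L)))))))))) (F 4281386296 (S (F 11269 (T (F 2 (S L L)) L)) (F 7168 (U (F 2080 (S (S L L) (F 96 (S L L)))) L)))))))) (F 36921687475233 (T (F 12750815293 (U (F 1803264 (S (F 6187 (U (F 4 w3_46) (F 20 (T (F 64 (S (F 2 (V (T L L) (F 16 (T (S L L) L)))) (V L (F 8 (U (T (S L L) (S L L)) L))))) (F 64 (S (F 2 (T (V L L) L)) (V L (F 2 (T (S L L) (S L L)))))))))) (F 25602 (U (F 16 w3_47) (F 4100 (T (V (F 128 (S (S L L) (F 8 (S L L)))) (F 266 (U (F 4 (S (F 16 (T L L)) (F 16 (T L L)))) (F 12 (S L L))))) (F 130 (S (F 4 (V (S L L) (F 4 (U (T (S L L) (S L L)) L)))) (F 8 (V L (F 36 (T L L)))))))))))) (F 7963732 (S (F 3586 (U (F 32 (T (T L L) (F 2 (S L L))))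 (F 128 (S L L)))) (F 1282 (U (T (V (S L L) (F 332 (S L L))) (F 260 (S (S L L) L))) (F 4 (T L L)))))))) (F 276832267 (U (F 16778370 w3_48) (F 530105778 (S (F 2816 (U (F 64 (T L L)) L)) (F 1792 (U (F 260 (S (T L L) (F 32 (S L L)))) L)))))))))
noncomputable def w3_50 : Tr := (U (F 0x400000000008008000000000200000248a0000840a0020000400010010020080010006042110a40000000100010048b51 (U (F 0x20088000200020000050d813921000101000000200040080080088810004400400100080040000002400088508 w3_0) (F 0x214ef090700c7020000000000000fffffffffffffe652ea00040800000afebc4c4fffffffffffffffda00887ff (T (F 0x1f692ff87f3183ff0c6277ee0bce1a1a893fe3ffffa0ec0 (V (F 0x81390000002c0421042 w3_4) (F 0x8204102a020210510 (T (F 0xd8ca1bfc0a800dc0 (U (F 103263767232 (S (K 13) (F 239472770 (V (F 160 (U (T (K 10) (F 132024 (S (K 6) L))) (F 131384 (T (F 130 (T L (F 81 (S (K 4) L)))) (F 4224 (S L (F 512 (T L (F 64 (S L L)))))))))) (K 9)))))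 (F 20958956239 (S (F 5439826 (U (F 8192 (V (F 8708 (V (F 128 (T (F 16 (S L L)) (T L (F 17 (S L L))))) (K 4))) (K 7))) (F 8193 (T (F 4 (T L (F 3 (V L (K 6))))) (F 2065 (V (F 260 (S L L)) L)))))) (F 1116516 (T (F 16914 (V (F 2180 (U (T (F 8 (S L L)) (F 256 (S L L))) (S L L))) (F 513 (U (K 5) L)))) (F 49681 (V (F 1032 (U (F 8 (V (S L (F 16 (S L L))) L)) (V (F 8 (S L (S L L))) (F 2 (S L L))))) (F 256 (U (T (K 5) L) (T L L))))))))))) (F 0x670a09f18a0207c4 (U (F 2214593944 (S (F 5926569442 (T (F 369 (U (K 8) (F 35 (V (F 32 (S L L)) (K 7))))) (F 1081873 (U (F 16 (V (K 13) (K 9))) (F 1 (S (F 6264 (S L L)) (F 2058 (V (K 0) (F 1796 (V L (K 4))))))))))) (F 5528121829 w3_7))) (F 855168263583 (S (F 4653057 w3_9) (F 5472713 w3_13))))))))) (F 0x1f2d9fc9701993ffca1c9bc67fc01e1fc447ff00099f807 w3_40))))) (F 0xfffffffffffffffffffffffffffffffff80a7eafffcc6ffffffffffffffffffffff9c96000000210007ffffffffffffffc0101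 (T (F 0x74ffe0a6401c39d0d96ef (V (F 1103810809088 (T (F 8606712185 (U (F 1181728 (S (F 786440 (U (F 65568 (T (F 1554 (S (F 4162 (V (F 12 (S L L)) (F 17 (T L L)))) (F 5184 (V (S L L) (F 649 (S L L)))))) (F 199746 (V (S (F 2320 (S L L)) (F 2176 (V L L))) (F 2384 (U (S L L) (F 1 (S L L)))))))) (F 987298 (V (S (F 2 (S L L)) L) (F 522 (T (F 32 (S L L)) (F 1 (S L L)))))))) (F 266240 (U (F 196864 (T (F 18981 (V (F 2048 (U (S L L) (F 1028 (S L L)))) (F 650 (U (S (F 1 (S L L)) L) L)))) (F 198721 (V (F 4354 (U (S L L) L)) (F 164 (S (F 264 (V L L)) (F 338 (T L L)))))))) (F 1839945 (V (F 18 (S L L)) (F 2593 (T L (F 4 (S L L)))))))))) (F 130223418 (U (F 2 (S (F 1 (V L L)) (F 101 (T L L)))) (F 5248 (S L L)))))) (F 21778956657 w3_41))) (F 2828254969892 w3_44))) (F 0x3e1cc01ff30f0007870cfc w3_49))))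
noncomputable def treeW3 : Tr := (F 0x20204140281004014020000a88400800140040400100080400002810800100041000108001141100050010a2440200018c42310000008010180060020000810000040 (U (F 0x1820300200010004004080241244024c03332300000a420001022200000100080021100100004080020010000000000000400045100081000010 w3_50) (F 0x5fedf7fffffffffffffffffedbfde080be2123ffffffffffffffffffffffffffffffffffffffffffffffffffffffffffffffffffffffffffffff (T (F 823210425 (U (F 18696 (U (F 8208 (T (F 12291 (S L L)) (F 4096 (S (F 4096 (S L L)) (F 29 (T L L)))))) (F 8215 (S L L)))) L)) (F 940588701 (U (F 35104 (U (F 32 (T (F 4100 (S (F 2050 (S L L)) (F 36 (T L L)))) (F 6273 (S L L)))) (F 39 (S L L)))) L))))))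

theorem pW3 : chkW par treeW3 64 64 128 128 384 128 0 436907 Lc = true := by decide +kernel


end Pool.Agent.Lib.H56.Gen.D7
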