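import Pool.Agent.Lib.H56.Gen.Split
import Pool.Agent.Lib.H56.Gen.D7.W0

/-!
# Certificate tree W
-/

set_option maxRecDepth 100000

namespace Pool.Agent.Lib.H56.Gen.D7

noncomputable def treeW : Tr := (Tr.V (Tr.U (Tr.U treeW0 treeW1) treeW2) treeW3)

theorem okW : chkW par treeW 64 64 128 128 256 256 0 436907 Lc = true :=
  (chkW_V (c1 := 128) (c2 := 384) (h := 128) (by decide +kernel) (by decide +kernel) (by decide +kernel)
  (chkW_U (c1 := 218453) (by decide +kernel)
  (chkW_U (c1 := 109226) (by decide +kernel)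
  pW0
  pW1)
  pW2)
  pW3)

end Pool.Agent.Lib.H56.Gen.D7
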