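import Pool.Agent.Lib.H56.Gen.D7.Rows
import Pool.Agent.Lib.H56.Gen.D7.Poly
import Pool.Agent.Lib.H56.Gen.D7.TreeW
import Pool.Agent.Lib.H56.Gen.D7.TreeV

/-!
# The certificate
-/

set_option maxRecDepth 100000

namespace Pool.Agent.Lib.H56.Gen.D7

lemma parOK : ParOK E7 par where
  D := by decide +kernel
  al := by decide +kernel
  be := by decide +kernel
  ga := by decide +kernel
  hn := by decide +kernel
  hd := by decide +kernel

lemma eKB : ((par.KB : ℕ) : ℤ) = 1024 := by decide +kernel

theorem cert : CertOK E7 q7 par (-1, 1) (-1, 0) Le Lc treeW treeV 64 256 436907 34 :=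
  certOK_of_checks comp7 ep7 epw7 Ms7 hgen ent nodup parOK okpar
    (by rw [eKB]; exact small) (by rw [eKB]; exact cos) (by decide +kernel) (by decide +kernel)
    (by decide +kernel) (by decide +kernel) (by decide +kernel) (by decide +kernel) okW okV

end Pool.Agent.Lib.H56.Gen.D7
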