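import Pool.Agent.Lib.H56.Gen.D7.Cert
import Pool.Agent.Lib.H56.Gen.Final

/-!
# The eigenvalue bound
-/

set_option maxRecDepth 100000

namespace Pool.Agent.Lib.H56.Gen.D7

theorem gap7 : GapAt q7 d7.K (5 / 4) := by
  have h : GapAt q7 d7.K ((5 : ℕ) / (4 : ℕ)) :=
    gapAt_LD (bn := 5) (bd := 4) cert okpd (by decide +kernel) (by decide +kernel)
      (by decide +kernel) (by norm_num) (by decide +kernel) d7 (ka := 1) (kb := 7) (by norm_num)
      (by norm_num) k0_7 (dP := 28) (Pu := 52916) (Pv := 10000)
      (by decide +kernel) (by decide +kernel) (by norm_num) (by norm_num) (by decide +kernel)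
      (by decide +kernel) (by decide +kernel)
  simpa only [Nat.cast_ofNat] using h


end Pool.Agent.Lib.H56.Gen.D7
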