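import Pool.Agent.Lib.H56.Gen.Fields
import Pool.Agent.Lib.H56.Gen.D7.Cos

/-!
# Certificate data: the list of cusps
-/

set_option maxRecDepth 100000

namespace Pool.Agent.Lib.H56.Gen.D7

noncomputable def r0 (t : List Ent) : List Ent :=
 ⟨⟨.ofNat 0, .ofNat 1, .negSucc 0, .ofNat 0, .ofNat 7, .negSucc 1⟩, (.negSucc 0, .ofNat 0), (.ofNat 0, .ofNat 0), (.negSucc 1, .ofNat 4)⟩ ::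
 ⟨⟨.ofNat 0, .ofNat 1, .negSucc 0, .ofNat 0, .ofNat 3, .negSucc 0⟩, (.ofNat 2, .negSucc 0), (.ofNat 1, .ofNat 1), (.negSucc 1, .negSucc 0)⟩ ::
 ⟨⟨.ofNat 0, .ofNat 1, .negSucc 0, .ofNat 0, .negSucc 0, .ofNat 0⟩, (.negSucc 0, .ofNat 0), (.ofNat 1, .negSucc 0), (.ofNat 1, .ofNat 0)⟩ ::
 ⟨⟨.ofNat 0, .ofNat 1, .negSucc 0, .ofNat 1, .ofNat 10, .negSucc 2⟩, (.ofNat 2, .negSucc 5), (.ofNat 10, .negSucc 6), (.negSucc 56, .ofNat 11)⟩ ::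
 ⟨⟨.ofNat 0, .ofNat 1, .negSucc 0, .ofNat 1, .ofNat 6, .negSucc 1⟩, (.negSucc 0, .ofNat 0), (.negSucc 0, .ofNat 0), (.negSucc 0, .ofNat 3)⟩ ::
 ⟨⟨.ofNat 0, .ofNat 1, .negSucc 0, .ofNat 1, .ofNat 2, .negSucc 0⟩, (.negSucc 0, .ofNat 0), (.negSucc 0, .ofNat 0), (.ofNat 0, .ofNat 1)⟩ ::
 ⟨⟨.ofNat 0, .ofNat 1, .negSucc 0, .ofNat 1, .negSucc 1, .ofNat 0⟩, (.negSucc 1, .ofNat 0), (.ofNat 0, .negSucc 0), (.ofNat 1, .negSucc 0)⟩ ::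
 ⟨⟨.ofNat 0, .ofNat 1, .ofNat 1, .negSucc 0, .ofNat 6, .negSucc 1⟩, (.negSucc 0, .ofNat 0), (.ofNat 1, .ofNat 0), (.negSucc 0, .ofNat 3)⟩ ::
 ⟨⟨.ofNat 0, .ofNat 1, .ofNat 1, .negSucc 0, .ofNat 2, .negSucc 0⟩, (.negSucc 0, .ofNat 0), (.ofNat 1, .ofNat 0), (.ofNat 0, .ofNat 1)⟩ ::
 ⟨⟨.ofNat 0, .ofNat 1, .ofNat 1, .negSucc 0, .negSucc 1, .ofNat 0⟩, (.negSucc 0, .ofNat 0), (.ofNat 1, .ofNat 0), (.ofNat 1, .negSucc 0)⟩ ::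
 ⟨⟨.ofNat 0, .ofNat 1, .ofNat 1, .ofNat 0, .ofNat 7, .negSucc 1⟩, (.negSucc 0, .ofNat 0), (.ofNat 0, .ofNat 0), (.negSucc 1, .ofNat 4)⟩ ::
 ⟨⟨.ofNat 0, .ofNat 1, .ofNat 1, .ofNat 0, .ofNat 3, .negSucc 0⟩, (.negSucc 0, .ofNat 0), (.ofNat 0, .ofNat 0), (.negSucc 0, .ofNat 2)⟩ ::
 ⟨⟨.ofNat 0, .ofNat 1, .ofNat 1, .ofNat 0, .negSucc 0, .ofNat 0⟩, (.negSucc 0, .ofNat 0), (.ofNat 0, .ofNat 0), (.ofNat 0, .ofNat 0)⟩ ::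
 ⟨⟨.ofNat 0, .ofNat 1, .ofNat 1, .ofNat 1, .ofNat 8, .negSucc 2⟩, (.negSucc 0, .ofNat 0), (.negSucc 0, .ofNat 0), (.negSucc 1, .ofNat 5)⟩ ::
 ⟨⟨.ofNat 0, .ofNat 1, .ofNat 1, .ofNat 1, .ofNat 4, .negSucc 1⟩, (.negSucc 0, .ofNat 0), (.negSucc 0, .ofNat 0), (.negSucc 0, .ofNat 3)⟩ ::
 ⟨⟨.ofNat 0, .ofNat 1, .ofNat 1, .ofNat 1, .ofNat 0, .negSucc 0⟩, (.negSucc 0, .ofNat 0), (.negSucc 1, .ofNat 1), (.ofNat 2, .ofNat 0)⟩ ::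
 ⟨⟨.ofNat 0, .ofNat 1, .ofNat 3, .negSucc 0, .ofNat 4, .negSucc 2⟩, (.ofNat 0, .negSucc 0), (.negSucc 2, .ofNat 2), (.negSucc 0, .ofNat 3)⟩ ::
 ⟨⟨.ofNat 0, .ofNat 1, .ofNat 3, .negSucc 0, .ofNat 0, .negSucc 1⟩, (.negSucc 0, .ofNat 0), (.ofNat 0, .ofNat 1), (.ofNat 1, .ofNat 0)⟩ ::
 ⟨⟨.ofNat 0, .ofNat 1, .ofNat 3, .negSucc 0, .negSucc 3, .negSucc 0⟩, (.negSucc 1, .ofNat 0), (.negSucc 1, .ofNat 3), (.ofNat 5, .negSucc 1)⟩ ::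
 ⟨⟨.ofNat 0, .ofNat 1, .ofNat 3, .ofNat 0, .ofNat 7, .negSucc 3⟩, (.negSucc 0, .ofNat 0), (.negSucc 1, .ofNat 2), (.ofNat 2, .ofNat 4)⟩ ::
 ⟨⟨.ofNat 0, .ofNat 1, .ofNat 3, .ofNat 0, .ofNat 3, .negSucc 2⟩, (.ofNat 0, .negSucc 0), (.negSucc 2, .ofNat 1), (.ofNat 0, .ofNat 2)⟩ ::
 ⟨⟨.ofNat 0, .ofNat 1, .ofNat 3, .ofNat 0, .negSucc 0, .negSucc 1⟩, (.negSucc 0, .ofNat 0), (.negSucc 0, .ofNat 1), (.ofNat 1, .ofNat 0)⟩ ::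
 ⟨⟨.ofNat 0, .ofNat 1, .ofNat 3, .ofNat 1, .ofNat 6, .negSucc 4⟩, (.negSucc 0, .ofNat 0), (.negSucc 2, .ofNat 2), (.ofNat 4, .ofNat 3)⟩ ::
 ⟨⟨.ofNat 0, .ofNat 1, .ofNat 3, .ofNat 1, .ofNat 2, .negSucc 3⟩, (.ofNat 0, .negSucc 0), (.negSucc 2, .ofNat 0), (.ofNat 1, .ofNat 2)⟩ ::
 ⟨⟨.ofNat 0, .ofNat 1, .ofNat 3, .ofNat 1, .negSucc 1, .negSucc 2⟩, (.negSucc 0, .ofNat 0), (.negSucc 1, .ofNat 1), (.ofNat 2, .ofNat 0)⟩ ::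
 ⟨⟨.ofNat 0, .ofNat 2, .negSucc 0, .negSucc 0, .ofNat 10, .negSucc 2⟩, (.negSucc 0, .ofNat 0), (.ofNat 1, .ofNat 0), (.negSucc 0, .ofNat 3)⟩ ::
 ⟨⟨.ofNat 0, .ofNat 2, .negSucc 0, .negSucc 0, .ofNat 2, .negSucc 0⟩, (.negSucc 0, .ofNat 0), (.ofNat 1, .ofNat 0), (.ofNat 0, .ofNat 1)⟩ ::
 ⟨⟨.ofNat 0, .ofNat 2, .negSucc 0, .ofNat 1, .ofNat 7, .negSucc 1⟩, (.ofNat 1, .negSucc 1), (.ofNat 0, .ofNat 0), (.negSucc 5, .ofNat 0)⟩ ::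
 ⟨⟨.ofNat 0, .ofNat 2, .negSucc 0, .ofNat 1, .negSucc 0, .ofNat 0⟩, (.negSucc 0, .ofNat 0), (.ofNat 0, .ofNat 0), (.ofNat 0, .ofNat 0)⟩ ::
 ⟨⟨.ofNat 0, .ofNat 2, .ofNat 0, .negSucc 0, .ofNat 7, .negSucc 1⟩, (.ofNat 1, .negSucc 1), (.ofNat 0, .ofNat 0), (.negSucc 5, .ofNat 0)⟩ ::
 ⟨⟨.ofNat 0, .ofNat 2, .ofNat 0, .negSucc 0, .ofNat 3, .negSucc 0⟩, (.ofNat 2, .negSucc 0), (.negSucc 0, .ofNat 0), (.negSucc 0, .negSucc 0)⟩ ::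
 ⟨⟨.ofNat 0, .ofNat 2, .ofNat 0, .negSucc 0, .negSucc 0, .ofNat 0⟩, (.negSucc 0, .ofNat 0), (.ofNat 0, .ofNat 0), (.ofNat 0, .ofNat 0)⟩ ::
 ⟨⟨.ofNat 0, .ofNat 2, .ofNat 0, .ofNat 1, .ofNat 11, .negSucc 2⟩, (.ofNat 2, .negSucc 4), (.ofNat 1, .negSucc 3), (.negSucc 24, .ofNat 3)⟩ ::
 ⟨⟨.ofNat 0, .ofNat 2, .ofNat 0, .ofNat 1, .ofNat 7, .negSucc 1⟩, (.negSucc 0, .ofNat 0), (.ofNat 0, .ofNat 0), (.negSucc 0, .ofNat 2)⟩ ::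
 ⟨⟨.ofNat 0, .ofNat 2, .ofNat 0, .ofNat 1, .ofNat 3, .negSucc 0⟩, (.ofNat 1, .negSucc 1), (.ofNat 1, .negSucc 1), (.negSucc 2, .ofNat 1)⟩ ::
 ⟨⟨.ofNat 0, .ofNat 2, .ofNat 0, .ofNat 1, .negSucc 0, .ofNat 0⟩, (.ofNat 1, .negSucc 1), (.ofNat 0, .ofNat 0), (.ofNat 1, .ofNat 0)⟩ ::
 ⟨⟨.ofNat 0, .ofNat 2, .ofNat 1, .negSucc 0, .ofNat 7, .negSucc 1⟩, (.negSucc 0, .ofNat 0), (.ofNat 0, .ofNat 0), (.negSucc 0, .ofNat 2)⟩ ::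
 ⟨⟨.ofNat 0, .ofNat 2, .ofNat 1, .negSucc 0, .negSucc 0, .ofNat 0⟩, (.ofNat 1, .negSucc 1), (.ofNat 0, .ofNat 0), (.ofNat 1, .ofNat 0)⟩ ::
 ⟨⟨.ofNat 0, .ofNat 2, .ofNat 1, .ofNat 1, .ofNat 10, .negSucc 2⟩, (.negSucc 0, .ofNat 0), (.negSucc 0, .ofNat 0), (.negSucc 0, .ofNat 3)⟩ ::
 ⟨⟨.ofNat 0, .ofNat 2, .ofNat 1, .ofNat 1, .ofNat 2, .negSucc 0⟩, (.negSucc 0, .ofNat 0), (.negSucc 0, .ofNat 0), (.ofNat 0, .ofNat 1)⟩ ::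
 ⟨⟨.ofNat 0, .ofNat 2, .ofNat 3, .negSucc 0, .ofNat 8, .negSucc 2⟩, (.negSucc 0, .ofNat 0), (.ofNat 0, .ofNat 1), (.ofNat 0, .ofNat 2)⟩ ::
 ⟨⟨.ofNat 0, .ofNat 2, .ofNat 3, .negSucc 0, .ofNat 0, .negSucc 0⟩, (.negSucc 0, .ofNat 0), (.ofNat 0, .ofNat 1), (.ofNat 1, .ofNat 0)⟩ ::
 ⟨⟨.ofNat 0, .ofNat 2, .ofNat 3, .ofNat 1, .ofNat 9, .negSucc 3⟩, (.negSucc 0, .ofNat 0), (.negSucc 0, .ofNat 1), (.ofNat 0, .ofNat 2)⟩ ::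
 ⟨⟨.ofNat 0, .ofNat 2, .ofNat 3, .ofNat 1, .ofNat 1, .negSucc 1⟩, (.negSucc 0, .ofNat 0), (.negSucc 0, .ofNat 1), (.ofNat 1, .ofNat 0)⟩ ::
 ⟨⟨.ofNat 0, .ofNat 2, .ofNat 3, .ofNat 3, .ofNat 10, .negSucc 6⟩, (.ofNat 3, .negSucc 0), (.ofNat 5, .negSucc 3), (.negSucc 7, .negSucc 2)⟩ ::
 ⟨⟨.ofNat 0, .ofNat 2, .ofNat 3, .ofNat 3, .ofNat 2, .negSucc 4⟩, (.negSucc 0, .ofNat 0), (.negSucc 1, .ofNat 1), (.ofNat 2, .ofNat 0)⟩ ::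
 ⟨⟨.ofNat 0, .ofNat 2, .ofNat 4, .negSucc 0, .ofNat 9, .negSucc 3⟩, (.ofNat 1, .negSucc 1), (.negSucc 3, .ofNat 1), (.negSucc 6, .ofNat 2)⟩ ::
 ⟨⟨.ofNat 0, .ofNat 2, .ofNat 4, .negSucc 0, .ofNat 5, .negSucc 2⟩, (.ofNat 0, .negSucc 0), (.negSucc 0, .ofNat 0), (.negSucc 2, .ofNat 1)⟩ ::
 ⟨⟨.ofNat 0, .ofNat 2, .ofNat 4, .negSucc 0, .ofNat 1, .negSucc 1⟩, (.ofNat 1, .negSucc 1), (.negSucc 3, .ofNat 1), (.ofNat 0, .ofNat 2)⟩ ::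
 ⟨⟨.ofNat 0, .ofNat 2, .ofNat 4, .negSucc 0, .negSucc 2, .negSucc 0⟩, (.ofNat 0, .negSucc 0), (.negSucc 0, .ofNat 0), (.ofNat 1, .ofNat 0)⟩ ::
 t

noncomputable def r1 (t : List Ent) : List Ent :=
 ⟨⟨.ofNat 0, .ofNat 2, .ofNat 4, .ofNat 1, .ofNat 9, .negSucc 4⟩, (.ofNat 1, .negSucc 1), (.negSucc 2, .negSucc 0), (.negSucc 6, .ofNat 2)⟩ ::
 ⟨⟨.ofNat 0, .ofNat 2, .ofNat 4, .ofNat 1, .ofNat 5, .negSucc 3⟩, (.negSucc 0, .negSucc 1), (.negSucc 3, .ofNat 0), (.negSucc 4, .ofNat 4)⟩ ::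
 ⟨⟨.ofNat 0, .ofNat 2, .ofNat 4, .ofNat 1, .ofNat 1, .negSucc 2⟩, (.ofNat 0, .negSucc 0), (.negSucc 2, .ofNat 0), (.ofNat 1, .ofNat 2)⟩ ::
 ⟨⟨.ofNat 0, .ofNat 2, .ofNat 4, .ofNat 1, .negSucc 2, .negSucc 1⟩, (.negSucc 0, .ofNat 0), (.negSucc 1, .ofNat 1), (.ofNat 2, .ofNat 0)⟩ ::
 ⟨⟨.ofNat 0, .ofNat 2, .ofNat 5, .negSucc 0, .ofNat 5, .negSucc 3⟩, (.ofNat 3, .negSucc 0), (.ofNat 0, .negSucc 2), (.negSucc 3, .negSucc 1)⟩ ::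
 ⟨⟨.ofNat 0, .ofNat 2, .ofNat 5, .negSucc 0, .negSucc 2, .negSucc 1⟩, (.ofNat 1, .negSucc 1), (.negSucc 2, .negSucc 0), (.ofNat 0, .ofNat 2)⟩ ::
 ⟨⟨.ofNat 0, .ofNat 2, .ofNat 5, .ofNat 1, .ofNat 4, .negSucc 4⟩, (.negSucc 0, .negSucc 1), (.negSucc 5, .ofNat 1), (.negSucc 0, .ofNat 4)⟩ ::
 ⟨⟨.ofNat 1, .negSucc 1, .negSucc 2, .negSucc 0, .negSucc 8, .ofNat 2⟩, (.negSucc 1, .ofNat 2), (.ofNat 3, .ofNat 1), (.ofNat 7, .ofNat 0)⟩ ::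
 ⟨⟨.ofNat 1, .negSucc 1, .negSucc 2, .negSucc 0, .negSucc 6, .ofNat 2⟩, (.negSucc 2, .ofNat 1), (.ofNat 0, .ofNat 3), (.ofNat 4, .ofNat 2)⟩ ::
 ⟨⟨.ofNat 1, .negSucc 1, .negSucc 2, .negSucc 0, .negSucc 5, .ofNat 2⟩, (.ofNat 0, .ofNat 1), (.ofNat 3, .ofNat 0), (.ofNat 3, .negSucc 2)⟩ ::
 ⟨⟨.ofNat 1, .negSucc 1, .negSucc 2, .negSucc 0, .negSucc 4, .ofNat 2⟩, (.ofNat 1, .ofNat 1), (.ofNat 2, .negSucc 0), (.ofNat 2, .negSucc 1)⟩ ::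
 ⟨⟨.ofNat 1, .negSucc 1, .negSucc 2, .negSucc 0, .negSucc 3, .ofNat 2⟩, (.negSucc 1, .ofNat 1), (.ofNat 1, .ofNat 2), (.ofNat 3, .negSucc 0)⟩ ::
 ⟨⟨.ofNat 1, .negSucc 1, .negSucc 2, .negSucc 0, .negSucc 2, .ofNat 2⟩, (.negSucc 0, .ofNat 1), (.ofNat 2, .ofNat 1), (.ofNat 2, .negSucc 1)⟩ ::
 ⟨⟨.ofNat 1, .negSucc 1, .negSucc 2, .negSucc 0, .negSucc 1, .ofNat 2⟩, (.negSucc 0, .ofNat 0), (.negSucc 0, .ofNat 1), (.ofNat 1, .ofNat 0)⟩ ::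
 ⟨⟨.ofNat 1, .negSucc 1, .negSucc 2, .negSucc 0, .ofNat 0, .ofNat 2⟩, (.ofNat 0, .ofNat 2), (.ofNat 3, .ofNat 1), (.ofNat 1, .negSucc 1)⟩ ::
 ⟨⟨.ofNat 1, .negSucc 1, .negSucc 2, .negSucc 0, .ofNat 1, .ofNat 2⟩, (.ofNat 0, .ofNat 1), (.ofNat 3, .ofNat 0), (.negSucc 0, .negSucc 1)⟩ ::
 ⟨⟨.ofNat 1, .negSucc 1, .negSucc 2, .negSucc 0, .ofNat 2, .ofNat 2⟩, (.ofNat 1, .ofNat 1), (.ofNat 2, .negSucc 0), (.negSucc 2, .ofNat 1)⟩ ::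
 ⟨⟨.ofNat 1, .negSucc 1, .negSucc 1, .negSucc 2, .negSucc 13, .ofNat 4⟩, (.negSucc 3, .ofNat 9), (.ofNat 13, .ofNat 13), (.ofNat 60, .negSucc 22)⟩ ::
 ⟨⟨.ofNat 1, .negSucc 1, .negSucc 1, .negSucc 2, .negSucc 12, .ofNat 4⟩, (.negSucc 2, .ofNat 2), (.negSucc 1, .ofNat 4), (.ofNat 12, .ofNat 4)⟩ ::
 ⟨⟨.ofNat 1, .negSucc 1, .negSucc 1, .negSucc 2, .negSucc 11, .ofNat 4⟩, (.ofNat 1, .ofNat 2), (.ofNat 6, .ofNat 2), (.ofNat 13, .negSucc 11)⟩ ::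
 ⟨⟨.ofNat 1, .negSucc 1, .negSucc 1, .negSucc 2, .negSucc 10, .ofNat 4⟩, (.ofNat 2, .ofNat 2), (.ofNat 7, .ofNat 1), (.ofNat 12, .negSucc 12)⟩ ::
 ⟨⟨.ofNat 1, .negSucc 1, .negSucc 1, .negSucc 2, .negSucc 9, .ofNat 4⟩, (.negSucc 0, .ofNat 0), (.negSucc 1, .ofNat 1), (.ofNat 1, .ofNat 2)⟩ ::
 ⟨⟨.ofNat 1, .negSucc 1, .negSucc 1, .negSucc 2, .negSucc 7, .ofNat 4⟩, (.ofNat 0, .ofNat 2), (.ofNat 5, .ofNat 1), (.ofNat 4, .negSucc 4)⟩ ::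
 ⟨⟨.ofNat 1, .negSucc 1, .negSucc 1, .negSucc 2, .negSucc 6, .ofNat 4⟩, (.negSucc 3, .ofNat 2), (.negSucc 4, .ofNat 7), (.ofNat 14, .negSucc 0)⟩ ::
 ⟨⟨.ofNat 1, .negSucc 1, .negSucc 1, .negSucc 2, .negSucc 5, .ofNat 4⟩, (.ofNat 1, .ofNat 1), (.ofNat 3, .ofNat 0), (.ofNat 2, .negSucc 2)⟩ ::
 ⟨⟨.ofNat 1, .negSucc 1, .negSucc 1, .negSucc 2, .negSucc 4, .ofNat 4⟩, (.negSucc 1, .ofNat 1), (.negSucc 2, .ofNat 3), (.ofNat 6, .ofNat 0)⟩ ::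
 ⟨⟨.ofNat 1, .negSucc 1, .negSucc 1, .negSucc 2, .negSucc 3, .ofNat 4⟩, (.negSucc 0, .ofNat 1), (.negSucc 0, .ofNat 2), (.ofNat 4, .negSucc 0)⟩ ::
 ⟨⟨.ofNat 1, .negSucc 1, .negSucc 1, .negSucc 2, .negSucc 2, .ofNat 4⟩, (.negSucc 0, .ofNat 0), (.negSucc 1, .ofNat 1), (.ofNat 2, .ofNat 0)⟩ ::
 ⟨⟨.ofNat 1, .negSucc 1, .negSucc 1, .negSucc 2, .negSucc 0, .ofNat 4⟩, (.ofNat 1, .ofNat 0), (.ofNat 2, .negSucc 0), (.negSucc 1, .ofNat 0)⟩ ::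
 ⟨⟨.ofNat 1, .negSucc 1, .negSucc 1, .negSucc 2, .ofNat 0, .ofNat 4⟩, (.ofNat 0, .ofNat 1), (.ofNat 1, .ofNat 1), (.ofNat 0, .negSucc 0)⟩ ::
 ⟨⟨.ofNat 1, .negSucc 1, .negSucc 1, .negSucc 2, .ofNat 1, .ofNat 4⟩, (.ofNat 1, .ofNat 1), (.ofNat 5, .ofNat 0), (.negSucc 4, .negSucc 1)⟩ ::
 ⟨⟨.ofNat 1, .negSucc 1, .ofNat 0, .ofNat 0, .negSucc 7, .ofNat 0⟩, (.negSucc 0, .ofNat 0), (.ofNat 0, .ofNat 0), (.negSucc 0, .ofNat 2)⟩ ::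
 ⟨⟨.ofNat 1, .negSucc 1, .ofNat 0, .ofNat 0, .negSucc 5, .ofNat 0⟩, (.ofNat 1, .ofNat 0), (.ofNat 0, .ofNat 0), (.ofNat 1, .negSucc 1)⟩ ::
 ⟨⟨.ofNat 1, .negSucc 1, .ofNat 0, .ofNat 0, .negSucc 4, .ofNat 0⟩, (.ofNat 0, .ofNat 1), (.negSucc 0, .ofNat 0), (.ofNat 3, .negSucc 0)⟩ ::
 ⟨⟨.ofNat 1, .negSucc 1, .ofNat 0, .ofNat 0, .negSucc 3, .ofNat 0⟩, (.negSucc 1, .ofNat 0), (.ofNat 0, .ofNat 0), (.negSucc 0, .ofNat 2)⟩ ::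
 ⟨⟨.ofNat 1, .negSucc 1, .ofNat 0, .ofNat 0, .negSucc 2, .ofNat 0⟩, (.ofNat 2, .ofNat 0), (.ofNat 0, .ofNat 0), (.ofNat 1, .negSucc 1)⟩ ::
 ⟨⟨.ofNat 1, .negSucc 1, .ofNat 0, .ofNat 0, .negSucc 1, .ofNat 0⟩, (.negSucc 0, .ofNat 1), (.negSucc 0, .ofNat 0), (.ofNat 1, .ofNat 0)⟩ ::
 ⟨⟨.ofNat 1, .negSucc 1, .ofNat 0, .ofNat 0, .negSucc 0, .ofNat 0⟩, (.negSucc 0, .ofNat 0), (.ofNat 0, .ofNat 0), (.ofNat 0, .ofNat 0)⟩ ::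
 ⟨⟨.ofNat 1, .negSucc 1, .ofNat 0, .ofNat 0, .ofNat 1, .ofNat 0⟩, (.ofNat 1, .ofNat 0), (.ofNat 0, .ofNat 0), (.ofNat 0, .ofNat 0)⟩ ::
 ⟨⟨.ofNat 1, .negSucc 1, .ofNat 1, .negSucc 1, .negSucc 11, .ofNat 1⟩, (.negSucc 1, .ofNat 2), (.negSucc 1, .ofNat 3), (.ofNat 11, .ofNat 1)⟩ ::
 ⟨⟨.ofNat 1, .negSucc 1, .ofNat 1, .negSucc 1, .negSucc 9, .ofNat 1⟩, (.negSucc 2, .ofNat 1), (.negSucc 1, .ofNat 1), (.ofNat 2, .ofNat 6)⟩ ::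
 ⟨⟨.ofNat 1, .negSucc 1, .ofNat 1, .negSucc 1, .negSucc 8, .ofNat 1⟩, (.ofNat 0, .ofNat 1), (.negSucc 0, .ofNat 1), (.ofNat 6, .negSucc 1)⟩ ::
 ⟨⟨.ofNat 1, .negSucc 1, .ofNat 1, .negSucc 1, .negSucc 7, .ofNat 1⟩, (.negSucc 2, .ofNat 2), (.negSucc 1, .ofNat 1), (.ofNat 6, .ofNat 4)⟩ ::
 ⟨⟨.ofNat 1, .negSucc 1, .ofNat 1, .negSucc 1, .negSucc 6, .ofNat 1⟩, (.negSucc 1, .ofNat 1), (.negSucc 0, .ofNat 1), (.ofNat 2, .ofNat 2)⟩ ::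
 ⟨⟨.ofNat 1, .negSucc 1, .ofNat 1, .negSucc 1, .negSucc 5, .ofNat 1⟩, (.negSucc 0, .ofNat 1), (.ofNat 0, .ofNat 1), (.ofNat 2, .ofNat 0)⟩ ::
 ⟨⟨.ofNat 1, .negSucc 1, .ofNat 1, .negSucc 1, .negSucc 4, .ofNat 1⟩, (.negSucc 1, .ofNat 2), (.negSucc 1, .ofNat 3), (.ofNat 5, .negSucc 0)⟩ ::
 ⟨⟨.ofNat 1, .negSucc 1, .ofNat 1, .negSucc 1, .negSucc 2, .ofNat 1⟩, (.ofNat 0, .ofNat 2), (.ofNat 0, .ofNat 1), (.ofNat 3, .negSucc 0)⟩ ::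
 ⟨⟨.ofNat 1, .negSucc 1, .ofNat 1, .negSucc 1, .negSucc 1, .ofNat 1⟩, (.ofNat 0, .ofNat 1), (.negSucc 0, .ofNat 1), (.ofNat 2, .negSucc 0)⟩ ::
 ⟨⟨.ofNat 1, .negSucc 1, .ofNat 1, .negSucc 1, .negSucc 0, .ofNat 1⟩, (.ofNat 1, .ofNat 1), (.ofNat 0, .ofNat 1), (.ofNat 1, .negSucc 0)⟩ ::
 ⟨⟨.ofNat 1, .negSucc 1, .ofNat 1, .negSucc 1, .ofNat 0, .ofNat 1⟩, (.negSucc 1, .ofNat 1), (.negSucc 0, .ofNat 1), (.ofNat 0, .negSucc 0)⟩ ::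
 t

noncomputable def r2 (t : List Ent) : List Ent :=
 ⟨⟨.ofNat 1, .negSucc 0, .negSucc 1, .negSucc 0, .negSucc 4, .ofNat 1⟩, (.negSucc 0, .ofNat 0), (.negSucc 0, .ofNat 1), (.ofNat 0, .ofNat 2)⟩ ::
 ⟨⟨.ofNat 1, .negSucc 0, .negSucc 1, .negSucc 0, .negSucc 1, .ofNat 2⟩, (.negSucc 0, .ofNat 0), (.negSucc 0, .ofNat 1), (.ofNat 1, .ofNat 0)⟩ ::
 ⟨⟨.ofNat 1, .negSucc 0, .negSucc 1, .negSucc 0, .ofNat 1, .ofNat 3⟩, (.negSucc 0, .ofNat 0), (.negSucc 0, .ofNat 1), (.ofNat 2, .negSucc 1)⟩ ::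
 ⟨⟨.ofNat 1, .negSucc 0, .negSucc 0, .negSucc 1, .negSucc 7, .ofNat 1⟩, (.negSucc 0, .ofNat 1), (.ofNat 2, .ofNat 1), (.ofNat 5, .negSucc 0)⟩ ::
 ⟨⟨.ofNat 1, .negSucc 0, .negSucc 0, .negSucc 1, .negSucc 4, .ofNat 2⟩, (.negSucc 1, .ofNat 0), (.negSucc 2, .ofNat 3), (.ofNat 4, .ofNat 1)⟩ ::
 ⟨⟨.ofNat 1, .negSucc 0, .negSucc 0, .negSucc 1, .negSucc 1, .ofNat 3⟩, (.ofNat 1, .ofNat 1), (.ofNat 4, .negSucc 0), (.negSucc 2, .negSucc 0)⟩ ::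
 ⟨⟨.ofNat 1, .negSucc 0, .negSucc 0, .ofNat 0, .negSucc 3, .negSucc 0⟩, (.negSucc 0, .ofNat 1), (.ofNat 2, .negSucc 0), (.ofNat 4, .ofNat 0)⟩ ::
 ⟨⟨.ofNat 1, .negSucc 0, .negSucc 0, .ofNat 0, .negSucc 0, .ofNat 0⟩, (.negSucc 0, .ofNat 0), (.ofNat 0, .ofNat 1), (.ofNat 1, .ofNat 0)⟩ ::
 ⟨⟨.ofNat 1, .negSucc 0, .negSucc 0, .ofNat 0, .ofNat 2, .ofNat 1⟩, (.ofNat 1, .ofNat 1), (.ofNat 2, .negSucc 0), (.negSucc 2, .ofNat 1)⟩ ::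
 ⟨⟨.ofNat 1, .negSucc 0, .ofNat 0, .negSucc 0, .negSucc 4, .negSucc 0⟩, (.negSucc 0, .ofNat 0), (.negSucc 0, .ofNat 0), (.negSucc 0, .ofNat 3)⟩ ::
 ⟨⟨.ofNat 1, .negSucc 0, .ofNat 0, .negSucc 0, .negSucc 1, .ofNat 0⟩, (.negSucc 1, .ofNat 0), (.negSucc 0, .ofNat 1), (.ofNat 0, .ofNat 1)⟩ ::
 ⟨⟨.ofNat 1, .negSucc 0, .ofNat 0, .negSucc 0, .ofNat 1, .ofNat 1⟩, (.negSucc 0, .ofNat 0), (.negSucc 0, .ofNat 0), (.ofNat 1, .negSucc 0)⟩ ::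
 ⟨⟨.ofNat 1, .negSucc 0, .ofNat 0, .ofNat 1, .negSucc 4, .negSucc 0⟩, (.negSucc 1, .ofNat 2), (.negSucc 0, .negSucc 2), (.ofNat 11, .ofNat 0)⟩ ::
 ⟨⟨.ofNat 1, .negSucc 0, .ofNat 0, .ofNat 1, .negSucc 1, .ofNat 0⟩, (.negSucc 1, .ofNat 0), (.ofNat 1, .negSucc 0), (.ofNat 0, .ofNat 1)⟩ ::
 ⟨⟨.ofNat 1, .negSucc 0, .ofNat 0, .ofNat 1, .ofNat 1, .ofNat 1⟩, (.negSucc 0, .ofNat 0), (.ofNat 1, .ofNat 0), (.ofNat 1, .negSucc 0)⟩ ::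
 ⟨⟨.ofNat 1, .negSucc 0, .ofNat 1, .negSucc 1, .negSucc 6, .ofNat 0⟩, (.negSucc 0, .ofNat 1), (.ofNat 0, .ofNat 1), (.ofNat 5, .ofNat 1)⟩ ::
 ⟨⟨.ofNat 1, .negSucc 0, .ofNat 1, .negSucc 1, .negSucc 3, .ofNat 1⟩, (.negSucc 1, .ofNat 0), (.negSucc 2, .ofNat 1), (.ofNat 1, .ofNat 2)⟩ ::
 ⟨⟨.ofNat 1, .negSucc 0, .ofNat 1, .negSucc 1, .negSucc 0, .ofNat 2⟩, (.negSucc 0, .ofNat 1), (.ofNat 0, .ofNat 1), (.negSucc 0, .negSucc 0)⟩ ::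
 ⟨⟨.ofNat 1, .negSucc 0, .ofNat 1, .ofNat 0, .negSucc 6, .negSucc 1⟩, (.negSucc 0, .ofNat 0), (.ofNat 0, .ofNat 0), (.negSucc 1, .ofNat 4)⟩ ::
 ⟨⟨.ofNat 1, .negSucc 0, .ofNat 1, .ofNat 0, .negSucc 3, .negSucc 0⟩, (.negSucc 0, .ofNat 0), (.ofNat 0, .ofNat 0), (.negSucc 0, .ofNat 2)⟩ ::
 ⟨⟨.ofNat 1, .negSucc 0, .ofNat 1, .ofNat 0, .negSucc 0, .ofNat 0⟩, (.negSucc 0, .ofNat 0), (.ofNat 0, .ofNat 0), (.ofNat 0, .ofNat 0)⟩ ::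
 ⟨⟨.ofNat 1, .negSucc 0, .ofNat 2, .negSucc 0, .negSucc 6, .negSucc 0⟩, (.negSucc 0, .ofNat 0), (.negSucc 0, .negSucc 0), (.ofNat 0, .ofNat 4)⟩ ::
 ⟨⟨.ofNat 1, .negSucc 0, .ofNat 2, .negSucc 0, .negSucc 3, .ofNat 0⟩, (.negSucc 0, .ofNat 0), (.negSucc 0, .negSucc 0), (.ofNat 1, .ofNat 2)⟩ ::
 ⟨⟨.ofNat 1, .negSucc 0, .ofNat 2, .negSucc 0, .negSucc 0, .ofNat 1⟩, (.negSucc 0, .ofNat 0), (.negSucc 0, .negSucc 0), (.ofNat 2, .ofNat 0)⟩ ::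
 ⟨⟨.ofNat 1, .ofNat 0, .negSucc 0, .ofNat 0, .ofNat 2, .negSucc 4⟩, (.ofNat 0, .ofNat 0), (.ofNat 0, .ofNat 0), (.ofNat 1, .ofNat 0)⟩ ::
 ⟨⟨.ofNat 1, .ofNat 0, .negSucc 0, .ofNat 0, .ofNat 1, .negSucc 2⟩, (.ofNat 0, .ofNat 0), (.ofNat 0, .ofNat 0), (.ofNat 1, .ofNat 0)⟩ ::
 ⟨⟨.ofNat 1, .ofNat 0, .negSucc 0, .ofNat 0, .ofNat 0, .negSucc 0⟩, (.ofNat 0, .ofNat 0), (.ofNat 0, .ofNat 0), (.ofNat 1, .ofNat 0)⟩ ::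
 ⟨⟨.ofNat 1, .ofNat 0, .negSucc 0, .ofNat 0, .negSucc 0, .ofNat 1⟩, (.ofNat 0, .ofNat 0), (.ofNat 0, .ofNat 0), (.ofNat 1, .ofNat 0)⟩ ::
 ⟨⟨.ofNat 1, .ofNat 0, .negSucc 0, .ofNat 0, .negSucc 1, .ofNat 3⟩, (.ofNat 0, .ofNat 0), (.ofNat 0, .ofNat 0), (.ofNat 1, .ofNat 0)⟩ ::
 ⟨⟨.ofNat 1, .ofNat 0, .negSucc 0, .ofNat 1, .ofNat 2, .negSucc 5⟩, (.ofNat 0, .ofNat 0), (.ofNat 0, .ofNat 0), (.ofNat 1, .ofNat 0)⟩ ::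
 ⟨⟨.ofNat 1, .ofNat 0, .negSucc 0, .ofNat 1, .ofNat 1, .negSucc 3⟩, (.ofNat 0, .ofNat 0), (.ofNat 0, .ofNat 0), (.ofNat 1, .ofNat 0)⟩ ::
 ⟨⟨.ofNat 1, .ofNat 0, .negSucc 0, .ofNat 1, .ofNat 0, .negSucc 1⟩, (.ofNat 0, .ofNat 0), (.ofNat 0, .ofNat 0), (.ofNat 1, .ofNat 0)⟩ ::
 ⟨⟨.ofNat 1, .ofNat 0, .negSucc 0, .ofNat 1, .negSucc 0, .ofNat 0⟩, (.ofNat 0, .ofNat 0), (.ofNat 0, .ofNat 0), (.ofNat 1, .ofNat 0)⟩ ::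
 ⟨⟨.ofNat 1, .ofNat 0, .negSucc 0, .ofNat 1, .negSucc 1, .ofNat 2⟩, (.ofNat 0, .ofNat 0), (.ofNat 0, .ofNat 0), (.ofNat 1, .ofNat 0)⟩ ::
 ⟨⟨.ofNat 1, .ofNat 0, .ofNat 0, .negSucc 0, .ofNat 1, .negSucc 3⟩, (.ofNat 0, .ofNat 0), (.ofNat 0, .ofNat 0), (.ofNat 1, .ofNat 0)⟩ ::
 ⟨⟨.ofNat 1, .ofNat 0, .ofNat 0, .negSucc 0, .ofNat 0, .negSucc 1⟩, (.ofNat 0, .ofNat 0), (.ofNat 0, .ofNat 0), (.ofNat 1, .ofNat 0)⟩ ::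
 ⟨⟨.ofNat 1, .ofNat 0, .ofNat 0, .negSucc 0, .negSucc 0, .ofNat 0⟩, (.ofNat 0, .ofNat 0), (.ofNat 0, .ofNat 0), (.ofNat 1, .ofNat 0)⟩ ::
 ⟨⟨.ofNat 1, .ofNat 0, .ofNat 0, .negSucc 0, .negSucc 1, .ofNat 2⟩, (.ofNat 0, .ofNat 0), (.ofNat 0, .ofNat 0), (.ofNat 1, .ofNat 0)⟩ ::
 ⟨⟨.ofNat 1, .ofNat 0, .ofNat 0, .negSucc 0, .negSucc 2, .ofNat 4⟩, (.ofNat 0, .ofNat 0), (.ofNat 0, .ofNat 0), (.ofNat 1, .ofNat 0)⟩ ::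
 ⟨⟨.ofNat 1, .ofNat 0, .ofNat 0, .ofNat 0, .ofNat 2, .negSucc 3⟩, (.ofNat 0, .ofNat 0), (.ofNat 0, .ofNat 0), (.ofNat 1, .ofNat 0)⟩ ::
 ⟨⟨.ofNat 1, .ofNat 0, .ofNat 0, .ofNat 0, .ofNat 1, .negSucc 1⟩, (.ofNat 0, .ofNat 0), (.ofNat 0, .ofNat 0), (.ofNat 1, .ofNat 0)⟩ ::
 ⟨⟨.ofNat 1, .ofNat 0, .ofNat 0, .ofNat 0, .ofNat 0, .ofNat 0⟩, (.ofNat 0, .ofNat 0), (.ofNat 0, .ofNat 0), (.ofNat 1, .ofNat 0)⟩ ::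
 ⟨⟨.ofNat 1, .ofNat 0, .ofNat 0, .ofNat 0, .negSucc 0, .ofNat 2⟩, (.ofNat 0, .ofNat 0), (.ofNat 0, .ofNat 0), (.ofNat 1, .ofNat 0)⟩ ::
 ⟨⟨.ofNat 1, .ofNat 0, .ofNat 0, .ofNat 1, .ofNat 2, .negSucc 5⟩, (.ofNat 0, .ofNat 0), (.ofNat 0, .ofNat 0), (.ofNat 1, .ofNat 0)⟩ ::
 ⟨⟨.ofNat 1, .ofNat 0, .ofNat 0, .ofNat 1, .ofNat 1, .negSucc 3⟩, (.ofNat 0, .ofNat 0), (.ofNat 0, .ofNat 0), (.ofNat 1, .ofNat 0)⟩ ::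
 ⟨⟨.ofNat 1, .ofNat 0, .ofNat 0, .ofNat 1, .ofNat 0, .negSucc 1⟩, (.ofNat 0, .ofNat 0), (.ofNat 0, .ofNat 0), (.ofNat 1, .ofNat 0)⟩ ::
 ⟨⟨.ofNat 1, .ofNat 0, .ofNat 0, .ofNat 1, .negSucc 0, .ofNat 0⟩, (.ofNat 0, .ofNat 0), (.ofNat 0, .ofNat 0), (.ofNat 1, .ofNat 0)⟩ ::
 ⟨⟨.ofNat 1, .ofNat 0, .ofNat 0, .ofNat 1, .negSucc 1, .ofNat 2⟩, (.ofNat 0, .ofNat 0), (.ofNat 0, .ofNat 0), (.ofNat 1, .ofNat 0)⟩ ::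
 ⟨⟨.ofNat 1, .ofNat 0, .ofNat 1, .negSucc 1, .negSucc 0, .negSucc 4⟩, (.ofNat 0, .ofNat 0), (.ofNat 0, .ofNat 0), (.ofNat 1, .ofNat 0)⟩ ::
 ⟨⟨.ofNat 1, .ofNat 0, .ofNat 1, .negSucc 1, .negSucc 1, .negSucc 2⟩, (.ofNat 0, .ofNat 0), (.ofNat 0, .ofNat 0), (.ofNat 1, .ofNat 0)⟩ ::
 t

noncomputable def r3 (t : List Ent) : List Ent :=
 ⟨⟨.ofNat 1, .ofNat 0, .ofNat 1, .negSucc 1, .negSucc 2, .negSucc 0⟩, (.ofNat 0, .ofNat 0), (.ofNat 0, .ofNat 0), (.ofNat 1, .ofNat 0)⟩ ::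
 ⟨⟨.ofNat 1, .ofNat 0, .ofNat 1, .negSucc 1, .negSucc 3, .ofNat 1⟩, (.ofNat 0, .ofNat 0), (.ofNat 0, .ofNat 0), (.ofNat 1, .ofNat 0)⟩ ::
 ⟨⟨.ofNat 1, .ofNat 0, .ofNat 1, .negSucc 1, .negSucc 4, .ofNat 3⟩, (.ofNat 0, .ofNat 0), (.ofNat 0, .ofNat 0), (.ofNat 1, .ofNat 0)⟩ ::
 ⟨⟨.ofNat 1, .ofNat 0, .ofNat 1, .negSucc 0, .ofNat 1, .negSucc 3⟩, (.ofNat 0, .ofNat 0), (.ofNat 0, .ofNat 0), (.ofNat 1, .ofNat 0)⟩ ::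
 ⟨⟨.ofNat 1, .ofNat 0, .ofNat 1, .negSucc 0, .ofNat 0, .negSucc 1⟩, (.ofNat 0, .ofNat 0), (.ofNat 0, .ofNat 0), (.ofNat 1, .ofNat 0)⟩ ::
 ⟨⟨.ofNat 1, .ofNat 0, .ofNat 1, .negSucc 0, .negSucc 0, .ofNat 0⟩, (.ofNat 0, .ofNat 0), (.ofNat 0, .ofNat 0), (.ofNat 1, .ofNat 0)⟩ ::
 ⟨⟨.ofNat 1, .ofNat 0, .ofNat 1, .negSucc 0, .negSucc 1, .ofNat 2⟩, (.ofNat 0, .ofNat 0), (.ofNat 0, .ofNat 0), (.ofNat 1, .ofNat 0)⟩ ::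
 ⟨⟨.ofNat 1, .ofNat 0, .ofNat 1, .ofNat 0, .ofNat 2, .negSucc 4⟩, (.ofNat 0, .ofNat 0), (.ofNat 0, .ofNat 0), (.ofNat 1, .ofNat 0)⟩ ::
 ⟨⟨.ofNat 1, .ofNat 0, .ofNat 1, .ofNat 0, .ofNat 1, .negSucc 2⟩, (.ofNat 0, .ofNat 0), (.ofNat 0, .ofNat 0), (.ofNat 1, .ofNat 0)⟩ ::
 ⟨⟨.ofNat 1, .ofNat 0, .ofNat 1, .ofNat 0, .ofNat 0, .negSucc 0⟩, (.ofNat 0, .ofNat 0), (.ofNat 0, .ofNat 0), (.ofNat 1, .ofNat 0)⟩ ::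
 ⟨⟨.ofNat 1, .ofNat 0, .ofNat 1, .ofNat 0, .negSucc 0, .ofNat 1⟩, (.ofNat 0, .ofNat 0), (.ofNat 0, .ofNat 0), (.ofNat 1, .ofNat 0)⟩ ::
 ⟨⟨.ofNat 1, .ofNat 0, .ofNat 2, .negSucc 1, .negSucc 1, .negSucc 3⟩, (.ofNat 0, .ofNat 0), (.ofNat 0, .ofNat 0), (.ofNat 1, .ofNat 0)⟩ ::
 ⟨⟨.ofNat 1, .ofNat 0, .ofNat 2, .negSucc 1, .negSucc 2, .negSucc 1⟩, (.ofNat 0, .ofNat 0), (.ofNat 0, .ofNat 0), (.ofNat 1, .ofNat 0)⟩ ::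
 ⟨⟨.ofNat 1, .ofNat 0, .ofNat 2, .negSucc 1, .negSucc 3, .ofNat 0⟩, (.ofNat 0, .ofNat 0), (.ofNat 0, .ofNat 0), (.ofNat 1, .ofNat 0)⟩ ::
 ⟨⟨.ofNat 1, .ofNat 0, .ofNat 2, .negSucc 1, .negSucc 4, .ofNat 2⟩, (.ofNat 0, .ofNat 0), (.ofNat 0, .ofNat 0), (.ofNat 1, .ofNat 0)⟩ ::
 ⟨⟨.ofNat 1, .ofNat 0, .ofNat 2, .negSucc 0, .ofNat 1, .negSucc 5⟩, (.ofNat 0, .ofNat 0), (.ofNat 0, .ofNat 0), (.ofNat 1, .ofNat 0)⟩ ::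
 ⟨⟨.ofNat 1, .ofNat 0, .ofNat 2, .negSucc 0, .ofNat 0, .negSucc 3⟩, (.ofNat 0, .ofNat 0), (.ofNat 0, .ofNat 0), (.ofNat 1, .ofNat 0)⟩ ::
 ⟨⟨.ofNat 1, .ofNat 0, .ofNat 2, .negSucc 0, .negSucc 0, .negSucc 1⟩, (.ofNat 0, .ofNat 0), (.ofNat 0, .ofNat 0), (.ofNat 1, .ofNat 0)⟩ ::
 ⟨⟨.ofNat 1, .ofNat 0, .ofNat 2, .negSucc 0, .negSucc 1, .ofNat 0⟩, (.ofNat 0, .ofNat 0), (.ofNat 0, .ofNat 0), (.ofNat 1, .ofNat 0)⟩ ::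
 ⟨⟨.ofNat 1, .ofNat 0, .ofNat 2, .negSucc 0, .negSucc 2, .ofNat 2⟩, (.ofNat 0, .ofNat 0), (.ofNat 0, .ofNat 0), (.ofNat 1, .ofNat 0)⟩ ::
 ⟨⟨.ofNat 1, .ofNat 0, .ofNat 3, .negSucc 0, .negSucc 0, .negSucc 5⟩, (.ofNat 0, .ofNat 0), (.ofNat 0, .ofNat 0), (.ofNat 1, .ofNat 0)⟩ ::
 ⟨⟨.ofNat 1, .ofNat 0, .ofNat 3, .negSucc 0, .negSucc 1, .negSucc 3⟩, (.ofNat 0, .ofNat 0), (.ofNat 0, .ofNat 0), (.ofNat 1, .ofNat 0)⟩ ::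
 ⟨⟨.ofNat 1, .ofNat 0, .ofNat 3, .negSucc 0, .negSucc 2, .negSucc 1⟩, (.ofNat 0, .ofNat 0), (.ofNat 0, .ofNat 0), (.ofNat 1, .ofNat 0)⟩ ::
 ⟨⟨.ofNat 1, .ofNat 0, .ofNat 3, .negSucc 0, .negSucc 3, .ofNat 0⟩, (.ofNat 0, .ofNat 0), (.ofNat 0, .ofNat 0), (.ofNat 1, .ofNat 0)⟩ ::
 ⟨⟨.ofNat 1, .ofNat 0, .ofNat 3, .negSucc 0, .negSucc 4, .ofNat 2⟩, (.ofNat 0, .ofNat 0), (.ofNat 0, .ofNat 0), (.ofNat 1, .ofNat 0)⟩ ::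
 ⟨⟨.ofNat 1, .ofNat 1, .negSucc 1, .ofNat 1, .ofNat 7, .negSucc 4⟩, (.negSucc 1, .ofNat 1), (.negSucc 0, .negSucc 0), (.ofNat 4, .ofNat 4)⟩ ::
 ⟨⟨.ofNat 1, .ofNat 1, .negSucc 1, .ofNat 1, .ofNat 2, .negSucc 1⟩, (.negSucc 1, .negSucc 0), (.ofNat 1, .negSucc 1), (.negSucc 0, .ofNat 2)⟩ ::
 ⟨⟨.ofNat 1, .ofNat 1, .negSucc 0, .ofNat 0, .ofNat 3, .negSucc 1⟩, (.negSucc 0, .negSucc 0), (.ofNat 2, .negSucc 0), (.negSucc 1, .ofNat 2)⟩ ::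
 ⟨⟨.ofNat 1, .ofNat 1, .negSucc 0, .ofNat 0, .negSucc 1, .ofNat 1⟩, (.negSucc 1, .ofNat 1), (.ofNat 1, .negSucc 0), (.ofNat 0, .negSucc 0)⟩ ::
 ⟨⟨.ofNat 1, .ofNat 1, .ofNat 0, .negSucc 0, .ofNat 6, .negSucc 3⟩, (.ofNat 1, .negSucc 0), (.negSucc 0, .ofNat 0), (.negSucc 3, .negSucc 0)⟩ ::
 ⟨⟨.ofNat 1, .ofNat 1, .ofNat 0, .negSucc 0, .ofNat 1, .negSucc 0⟩, (.negSucc 1, .ofNat 1), (.ofNat 1, .ofNat 0), (.ofNat 1, .ofNat 1)⟩ ::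
 ⟨⟨.ofNat 1, .ofNat 1, .ofNat 0, .negSucc 0, .negSucc 3, .ofNat 2⟩, (.negSucc 0, .negSucc 0), (.negSucc 0, .ofNat 2), (.ofNat 4, .negSucc 0)⟩ ::
 ⟨⟨.ofNat 1, .ofNat 1, .ofNat 0, .ofNat 1, .ofNat 6, .negSucc 3⟩, (.ofNat 1, .negSucc 0), (.ofNat 1, .ofNat 0), (.negSucc 3, .negSucc 0)⟩ ::
 ⟨⟨.ofNat 1, .ofNat 1, .ofNat 0, .ofNat 1, .ofNat 1, .negSucc 0⟩, (.negSucc 1, .ofNat 1), (.negSucc 0, .ofNat 0), (.ofNat 1, .ofNat 1)⟩ ::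
 ⟨⟨.ofNat 1, .ofNat 1, .ofNat 1, .ofNat 0, .ofNat 3, .negSucc 1⟩, (.negSucc 0, .negSucc 0), (.negSucc 1, .ofNat 1), (.negSucc 1, .ofNat 2)⟩ ::
 ⟨⟨.ofNat 1, .ofNat 1, .ofNat 1, .ofNat 0, .negSucc 1, .ofNat 1⟩, (.negSucc 1, .ofNat 1), (.negSucc 0, .ofNat 1), (.ofNat 0, .negSucc 0)⟩ ::
 ⟨⟨.ofNat 1, .ofNat 1, .ofNat 2, .negSucc 0, .ofNat 2, .negSucc 1⟩, (.negSucc 1, .ofNat 1), (.ofNat 1, .ofNat 1), (.ofNat 2, .ofNat 1)⟩ ::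
 ⟨⟨.ofNat 1, .ofNat 1, .ofNat 2, .negSucc 0, .negSucc 2, .ofNat 1⟩, (.negSucc 0, .negSucc 0), (.negSucc 0, .ofNat 0), (.ofNat 2, .negSucc 0)⟩ ::
 ⟨⟨.ofNat 1, .ofNat 1, .ofNat 3, .negSucc 1, .ofNat 3, .negSucc 3⟩, (.ofNat 1, .negSucc 0), (.negSucc 1, .negSucc 0), (.negSucc 4, .ofNat 1)⟩ ::
 ⟨⟨.ofNat 1, .ofNat 1, .ofNat 3, .negSucc 1, .negSucc 1, .negSucc 0⟩, (.negSucc 1, .ofNat 1), (.ofNat 1, .ofNat 2), (.ofNat 3, .negSucc 0)⟩ ::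
 ⟨⟨.ofNat 1, .ofNat 1, .ofNat 3, .ofNat 0, .ofNat 7, .negSucc 5⟩, (.negSucc 1, .ofNat 1), (.negSucc 0, .ofNat 2), (.ofNat 5, .ofNat 4)⟩ ::
 ⟨⟨.ofNat 1, .ofNat 1, .ofNat 3, .ofNat 0, .ofNat 2, .negSucc 2⟩, (.negSucc 1, .negSucc 0), (.negSucc 2, .ofNat 1), (.negSucc 1, .ofNat 3)⟩ ::
 ⟨⟨.ofNat 1, .ofNat 1, .ofNat 3, .ofNat 0, .negSucc 2, .ofNat 0⟩, (.negSucc 0, .negSucc 0), (.negSucc 1, .negSucc 0), (.ofNat 1, .ofNat 1)⟩ ::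
 ⟨⟨.ofNat 1, .ofNat 1, .ofNat 4, .negSucc 0, .ofNat 2, .negSucc 3⟩, (.ofNat 1, .negSucc 0), (.negSucc 0, .negSucc 1), (.negSucc 4, .ofNat 2)⟩ ::
 ⟨⟨.ofNat 1, .ofNat 1, .ofNat 4, .negSucc 0, .negSucc 2, .negSucc 0⟩, (.ofNat 1, .negSucc 1), (.negSucc 2, .negSucc 0), (.ofNat 2, .ofNat 2)⟩ ::
 ⟨⟨.ofNat 1, .ofNat 1, .ofNat 5, .ofNat 0, .ofNat 5, .negSucc 7⟩, (.ofNat 1, .negSucc 0), (.ofNat 0, .negSucc 2), (.negSucc 8, .ofNat 3)⟩ ::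
 ⟨⟨.ofNat 1, .ofNat 1, .ofNat 5, .ofNat 0, .ofNat 0, .negSucc 4⟩, (.ofNat 1, .negSucc 0), (.ofNat 0, .negSucc 2), (.negSucc 5, .ofNat 4)⟩ ::
 ⟨⟨.ofNat 1, .ofNat 1, .ofNat 5, .ofNat 0, .negSucc 4, .negSucc 1⟩, (.ofNat 1, .negSucc 1), (.negSucc 1, .negSucc 2), (.ofNat 1, .ofNat 4)⟩ ::
 ⟨⟨.ofNat 1, .ofNat 2, .negSucc 2, .ofNat 0, .ofNat 9, .negSucc 4⟩, (.ofNat 0, .negSucc 3), (.ofNat 6, .ofNat 0), (.negSucc 14, .ofNat 6)⟩ ::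
 ⟨⟨.ofNat 1, .ofNat 2, .negSucc 2, .ofNat 0, .ofNat 0, .negSucc 0⟩, (.negSucc 0, .ofNat 0), (.ofNat 1, .negSucc 0), (.ofNat 1, .ofNat 0)⟩ ::
 t

noncomputable def r4 (t : List Ent) : List Ent :=
 ⟨⟨.ofNat 1, .ofNat 2, .negSucc 2, .ofNat 1, .ofNat 7, .negSucc 3⟩, (.negSucc 1, .ofNat 0), (.ofNat 0, .negSucc 0), (.negSucc 0, .ofNat 3)⟩ ::
 ⟨⟨.ofNat 1, .ofNat 2, .negSucc 1, .negSucc 0, .ofNat 7, .negSucc 3⟩, (.ofNat 2, .negSucc 0), (.negSucc 0, .ofNat 1), (.negSucc 1, .negSucc 1)⟩ ::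
 ⟨⟨.ofNat 1, .ofNat 2, .negSucc 1, .negSucc 0, .negSucc 1, .ofNat 0⟩, (.negSucc 1, .ofNat 0), (.ofNat 2, .ofNat 0), (.ofNat 1, .ofNat 0)⟩ ::
 ⟨⟨.ofNat 1, .ofNat 2, .negSucc 1, .ofNat 0, .ofNat 8, .negSucc 3⟩, (.negSucc 1, .ofNat 0), (.ofNat 2, .negSucc 0), (.negSucc 0, .ofNat 4)⟩ ::
 ⟨⟨.ofNat 1, .ofNat 2, .negSucc 1, .ofNat 0, .negSucc 0, .ofNat 0⟩, (.negSucc 0, .ofNat 0), (.ofNat 0, .ofNat 0), (.ofNat 0, .ofNat 0)⟩ ::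
 ⟨⟨.ofNat 1, .ofNat 2, .negSucc 1, .ofNat 1, .ofNat 8, .negSucc 3⟩, (.negSucc 0, .negSucc 1), (.ofNat 2, .negSucc 1), (.negSucc 6, .ofNat 4)⟩ ::
 ⟨⟨.ofNat 1, .ofNat 2, .negSucc 1, .ofNat 1, .negSucc 0, .ofNat 0⟩, (.negSucc 0, .ofNat 0), (.ofNat 0, .ofNat 0), (.ofNat 0, .ofNat 0)⟩ ::
 ⟨⟨.ofNat 1, .ofNat 2, .negSucc 1, .ofNat 2, .ofNat 7, .negSucc 3⟩, (.negSucc 0, .ofNat 0), (.ofNat 0, .negSucc 0), (.ofNat 0, .ofNat 2)⟩ ::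
 ⟨⟨.ofNat 1, .ofNat 2, .negSucc 0, .negSucc 0, .ofNat 8, .negSucc 3⟩, (.negSucc 1, .ofNat 0), (.ofNat 2, .ofNat 0), (.negSucc 0, .ofNat 4)⟩ ::
 ⟨⟨.ofNat 1, .ofNat 2, .negSucc 0, .negSucc 0, .negSucc 0, .ofNat 0⟩, (.negSucc 0, .ofNat 0), (.ofNat 0, .ofNat 0), (.ofNat 0, .ofNat 0)⟩ ::
 ⟨⟨.ofNat 1, .ofNat 2, .negSucc 0, .ofNat 0, .ofNat 2, .negSucc 0⟩, (.negSucc 1, .ofNat 0), (.ofNat 1, .negSucc 0), (.ofNat 0, .ofNat 1)⟩ ::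
 ⟨⟨.ofNat 1, .ofNat 2, .negSucc 0, .ofNat 1, .ofNat 4, .negSucc 1⟩, (.negSucc 1, .ofNat 0), (.ofNat 0, .ofNat 0), (.negSucc 0, .ofNat 2)⟩ ::
 ⟨⟨.ofNat 1, .ofNat 2, .negSucc 0, .ofNat 2, .ofNat 14, .negSucc 6⟩, (.negSucc 1, .ofNat 0), (.ofNat 0, .negSucc 0), (.negSucc 2, .ofNat 7)⟩ ::
 ⟨⟨.ofNat 1, .ofNat 2, .negSucc 0, .ofNat 2, .ofNat 5, .negSucc 2⟩, (.negSucc 0, .ofNat 0), (.negSucc 0, .ofNat 0), (.ofNat 0, .ofNat 1)⟩ ::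
 ⟨⟨.ofNat 1, .ofNat 2, .ofNat 0, .negSucc 1, .ofNat 7, .negSucc 3⟩, (.ofNat 0, .negSucc 1), (.negSucc 0, .ofNat 1), (.negSucc 6, .ofNat 2)⟩ ::
 ⟨⟨.ofNat 1, .ofNat 2, .ofNat 0, .negSucc 1, .negSucc 1, .ofNat 0⟩, (.ofNat 0, .negSucc 1), (.negSucc 0, .ofNat 1), (.ofNat 1, .ofNat 0)⟩ ::
 ⟨⟨.ofNat 1, .ofNat 2, .ofNat 0, .negSucc 0, .ofNat 4, .negSucc 1⟩, (.negSucc 1, .ofNat 0), (.ofNat 0, .ofNat 0), (.negSucc 0, .ofNat 2)⟩ ::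
 ⟨⟨.ofNat 1, .ofNat 2, .ofNat 0, .ofNat 1, .ofNat 4, .negSucc 1⟩, (.negSucc 1, .ofNat 0), (.ofNat 0, .ofNat 0), (.negSucc 0, .ofNat 2)⟩ ::
 ⟨⟨.ofNat 1, .ofNat 2, .ofNat 0, .ofNat 2, .ofNat 7, .negSucc 3⟩, (.ofNat 0, .negSucc 1), (.ofNat 1, .negSucc 0), (.negSucc 6, .ofNat 2)⟩ ::
 ⟨⟨.ofNat 1, .ofNat 2, .ofNat 1, .negSucc 1, .ofNat 5, .negSucc 2⟩, (.negSucc 0, .ofNat 0), (.ofNat 1, .ofNat 0), (.ofNat 0, .ofNat 1)⟩ ::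
 ⟨⟨.ofNat 1, .ofNat 2, .ofNat 1, .negSucc 1, .negSucc 3, .ofNat 1⟩, (.negSucc 1, .ofNat 0), (.ofNat 0, .ofNat 1), (.ofNat 1, .negSucc 0)⟩ ::
 ⟨⟨.ofNat 1, .ofNat 2, .ofNat 1, .negSucc 0, .ofNat 4, .negSucc 1⟩, (.negSucc 1, .ofNat 0), (.ofNat 0, .ofNat 0), (.negSucc 0, .ofNat 2)⟩ ::
 ⟨⟨.ofNat 1, .ofNat 2, .ofNat 1, .ofNat 0, .ofNat 2, .negSucc 0⟩, (.negSucc 1, .ofNat 0), (.negSucc 0, .ofNat 1), (.ofNat 0, .ofNat 1)⟩ ::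
 ⟨⟨.ofNat 1, .ofNat 2, .ofNat 1, .ofNat 1, .ofNat 8, .negSucc 3⟩, (.ofNat 1, .negSucc 1), (.ofNat 1, .negSucc 1), (.negSucc 6, .ofNat 1)⟩ ::
 ⟨⟨.ofNat 1, .ofNat 2, .ofNat 1, .ofNat 1, .negSucc 0, .ofNat 0⟩, (.negSucc 0, .ofNat 0), (.ofNat 0, .ofNat 0), (.ofNat 0, .ofNat 0)⟩ ::
 ⟨⟨.ofNat 1, .ofNat 2, .ofNat 2, .negSucc 1, .ofNat 7, .negSucc 3⟩, (.negSucc 0, .ofNat 0), (.ofNat 0, .ofNat 1), (.ofNat 0, .ofNat 2)⟩ ::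
 ⟨⟨.ofNat 1, .ofNat 2, .ofNat 2, .negSucc 1, .negSucc 1, .ofNat 0⟩, (.negSucc 0, .ofNat 0), (.ofNat 0, .ofNat 1), (.ofNat 1, .ofNat 0)⟩ ::
 ⟨⟨.ofNat 1, .ofNat 2, .ofNat 2, .negSucc 0, .ofNat 8, .negSucc 3⟩, (.negSucc 0, .negSucc 1), (.negSucc 1, .ofNat 2), (.negSucc 6, .ofNat 4)⟩ ::
 ⟨⟨.ofNat 1, .ofNat 2, .ofNat 2, .negSucc 0, .negSucc 0, .ofNat 0⟩, (.negSucc 0, .ofNat 0), (.ofNat 0, .ofNat 0), (.ofNat 0, .ofNat 0)⟩ ::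
 ⟨⟨.ofNat 1, .ofNat 2, .ofNat 2, .ofNat 0, .ofNat 8, .negSucc 3⟩, (.negSucc 0, .negSucc 1), (.negSucc 2, .ofNat 1), (.negSucc 6, .ofNat 4)⟩ ::
 ⟨⟨.ofNat 1, .ofNat 2, .ofNat 2, .ofNat 0, .negSucc 0, .ofNat 0⟩, (.negSucc 0, .ofNat 0), (.ofNat 0, .ofNat 0), (.ofNat 0, .ofNat 0)⟩ ::
 ⟨⟨.ofNat 1, .ofNat 2, .ofNat 2, .ofNat 1, .ofNat 7, .negSucc 3⟩, (.ofNat 2, .negSucc 0), (.ofNat 1, .negSucc 0), (.negSucc 1, .negSucc 1)⟩ ::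
 ⟨⟨.ofNat 1, .ofNat 2, .ofNat 2, .ofNat 1, .negSucc 1, .ofNat 0⟩, (.negSucc 1, .ofNat 0), (.negSucc 1, .ofNat 0), (.ofNat 1, .ofNat 0)⟩ ::
 ⟨⟨.ofNat 1, .ofNat 2, .ofNat 2, .ofNat 2, .ofNat 14, .negSucc 7⟩, (.ofNat 0, .negSucc 1), (.negSucc 0, .negSucc 2), (.negSucc 12, .ofNat 6)⟩ ::
 ⟨⟨.ofNat 1, .ofNat 2, .ofNat 2, .ofNat 2, .ofNat 5, .negSucc 3⟩, (.ofNat 0, .negSucc 1), (.negSucc 0, .negSucc 2), (.negSucc 4, .ofNat 4)⟩ ::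
 ⟨⟨.ofNat 1, .ofNat 2, .ofNat 3, .negSucc 0, .ofNat 7, .negSucc 3⟩, (.negSucc 1, .ofNat 0), (.ofNat 0, .ofNat 1), (.negSucc 0, .ofNat 3)⟩ ::
 ⟨⟨.ofNat 1, .ofNat 2, .ofNat 3, .negSucc 0, .negSucc 1, .ofNat 0⟩, (.negSucc 0, .ofNat 0), (.negSucc 0, .ofNat 1), (.ofNat 1, .ofNat 0)⟩ ::
 ⟨⟨.ofNat 1, .ofNat 2, .ofNat 3, .ofNat 0, .ofNat 9, .negSucc 4⟩, (.ofNat 1, .negSucc 2), (.negSucc 3, .negSucc 0), (.negSucc 10, .ofNat 3)⟩ ::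
 ⟨⟨.ofNat 1, .ofNat 2, .ofNat 3, .ofNat 0, .ofNat 0, .negSucc 0⟩, (.negSucc 0, .ofNat 0), (.negSucc 0, .ofNat 1), (.ofNat 1, .ofNat 0)⟩ ::
 ⟨⟨.ofNat 1, .ofNat 2, .ofNat 3, .ofNat 1, .ofNat 10, .negSucc 5⟩, (.negSucc 0, .negSucc 1), (.negSucc 2, .ofNat 0), (.negSucc 8, .ofNat 5)⟩ ::
 ⟨⟨.ofNat 1, .ofNat 2, .ofNat 3, .ofNat 1, .ofNat 1, .negSucc 1⟩, (.negSucc 0, .negSucc 1), (.negSucc 2, .ofNat 0), (.ofNat 0, .ofNat 1)⟩ ::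
 ⟨⟨.ofNat 1, .ofNat 2, .ofNat 4, .negSucc 1, .ofNat 5, .negSucc 3⟩, (.negSucc 1, .ofNat 0), (.ofNat 0, .ofNat 2), (.ofNat 1, .ofNat 2)⟩ ::
 ⟨⟨.ofNat 1, .ofNat 2, .ofNat 4, .negSucc 1, .negSucc 3, .ofNat 0⟩, (.ofNat 0, .negSucc 0), (.negSucc 0, .ofNat 0), (.ofNat 1, .ofNat 0)⟩ ::
 ⟨⟨.ofNat 1, .ofNat 2, .ofNat 4, .negSucc 0, .ofNat 1, .negSucc 1⟩, (.negSucc 1, .ofNat 0), (.negSucc 0, .ofNat 1), (.ofNat 0, .ofNat 1)⟩ ::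
 ⟨⟨.ofNat 1, .ofNat 2, .ofNat 4, .ofNat 0, .ofNat 5, .negSucc 3⟩, (.ofNat 0, .negSucc 1), (.negSucc 3, .negSucc 0), (.negSucc 4, .ofNat 4)⟩ ::
 ⟨⟨.ofNat 1, .ofNat 2, .ofNat 4, .ofNat 1, .ofNat 8, .negSucc 5⟩, (.ofNat 1, .negSucc 2), (.negSucc 2, .negSucc 1), (.negSucc 9, .ofNat 3)⟩ ::
 ⟨⟨.ofNat 1, .ofNat 2, .ofNat 4, .ofNat 1, .negSucc 0, .negSucc 1⟩, (.ofNat 1, .negSucc 2), (.negSucc 2, .negSucc 1), (.ofNat 1, .ofNat 2)⟩ ::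
 ⟨⟨.ofNat 1, .ofNat 2, .ofNat 4, .ofNat 2, .ofNat 10, .negSucc 7⟩, (.negSucc 3, .ofNat 0), (.negSucc 5, .ofNat 2), (.negSucc 0, .ofNat 10)⟩ ::
 ⟨⟨.ofNat 1, .ofNat 2, .ofNat 4, .ofNat 2, .ofNat 1, .negSucc 3⟩, (.negSucc 0, .ofNat 0), (.negSucc 1, .ofNat 1), (.ofNat 2, .ofNat 0)⟩ ::
 ⟨⟨.ofNat 1, .ofNat 2, .ofNat 5, .negSucc 1, .ofNat 1, .negSucc 2⟩, (.ofNat 0, .negSucc 0), (.negSucc 2, .ofNat 1), (.ofNat 0, .ofNat 2)⟩ ::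
 t

noncomputable def r5 (t : List Ent) : List Ent :=
 ⟨⟨.ofNat 1, .ofNat 2, .ofNat 5, .ofNat 0, .ofNat 5, .negSucc 4⟩, (.negSucc 0, .ofNat 0), (.negSucc 1, .ofNat 1), (.ofNat 1, .ofNat 2)⟩ ::
 ⟨⟨.ofNat 1, .ofNat 2, .ofNat 5, .ofNat 0, .negSucc 3, .negSucc 0⟩, (.ofNat 1, .negSucc 1), (.negSucc 2, .negSucc 0), (.ofNat 3, .ofNat 2)⟩ ::
 ⟨⟨.ofNat 1, .ofNat 2, .ofNat 5, .ofNat 1, .ofNat 10, .negSucc 7⟩, (.negSucc 1, .ofNat 0), (.negSucc 2, .ofNat 1), (.negSucc 0, .ofNat 6)⟩ ::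
 ⟨⟨.ofNat 1, .ofNat 2, .ofNat 5, .ofNat 1, .ofNat 1, .negSucc 3⟩, (.negSucc 1, .ofNat 0), (.negSucc 2, .ofNat 1), (.ofNat 1, .ofNat 2)⟩ ::
 ⟨⟨.ofNat 1, .ofNat 2, .ofNat 5, .ofNat 2, .ofNat 14, .negSucc 10⟩, (.ofNat 0, .negSucc 1), (.negSucc 3, .negSucc 2), (.negSucc 12, .ofNat 9)⟩ ::
 ⟨⟨.ofNat 1, .ofNat 2, .ofNat 5, .ofNat 2, .ofNat 5, .negSucc 6⟩, (.ofNat 0, .negSucc 1), (.negSucc 3, .negSucc 2), (.negSucc 4, .ofNat 7)⟩ ::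
 ⟨⟨.ofNat 1, .ofNat 2, .ofNat 5, .ofNat 2, .negSucc 3, .negSucc 2⟩, (.negSucc 1, .ofNat 0), (.negSucc 3, .ofNat 2), (.ofNat 5, .negSucc 1)⟩ ::
 ⟨⟨.ofNat 1, .ofNat 2, .ofNat 6, .negSucc 1, .ofNat 1, .negSucc 3⟩, (.negSucc 1, .ofNat 0), (.negSucc 1, .ofNat 2), (.ofNat 1, .ofNat 2)⟩ ::
 ⟨⟨.ofNat 1, .ofNat 2, .ofNat 6, .negSucc 0, .ofNat 1, .negSucc 3⟩, (.negSucc 3, .ofNat 0), (.negSucc 3, .ofNat 4), (.ofNat 3, .ofNat 2)⟩ ::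
 ⟨⟨.ofNat 1, .ofNat 2, .ofNat 6, .ofNat 0, .ofNat 9, .negSucc 7⟩, (.negSucc 3, .ofNat 0), (.negSucc 5, .ofNat 5), (.ofNat 3, .ofNat 8)⟩ ::
 ⟨⟨.ofNat 1, .ofNat 2, .ofNat 6, .ofNat 0, .ofNat 0, .negSucc 3⟩, (.negSucc 0, .ofNat 0), (.negSucc 0, .ofNat 1), (.ofNat 1, .ofNat 0)⟩ ::
 ⟨⟨.ofNat 1, .ofNat 2, .ofNat 7, .negSucc 1, .ofNat 5, .negSucc 6⟩, (.ofNat 1, .negSucc 2), (.negSucc 5, .negSucc 0), (.negSucc 10, .ofNat 5)⟩ ::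
 ⟨⟨.ofNat 1, .ofNat 2, .ofNat 7, .negSucc 1, .negSucc 3, .negSucc 2⟩, (.negSucc 0, .negSucc 1), (.negSucc 6, .ofNat 3), (.ofNat 7, .ofNat 2)⟩ ::
 ⟨⟨.ofNat 1, .ofNat 2, .ofNat 7, .negSucc 0, .ofNat 7, .negSucc 7⟩, (.negSucc 1, .ofNat 0), (.negSucc 3, .ofNat 3), (.ofNat 3, .ofNat 5)⟩ ::
 ⟨⟨.ofNat 1, .ofNat 2, .ofNat 7, .negSucc 0, .negSucc 1, .negSucc 3⟩, (.negSucc 0, .ofNat 0), (.negSucc 0, .ofNat 1), (.ofNat 1, .ofNat 0)⟩ ::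
 ⟨⟨.ofNat 1, .ofNat 2, .ofNat 7, .ofNat 0, .ofNat 8, .negSucc 8⟩, (.ofNat 2, .negSucc 0), (.ofNat 1, .negSucc 2), (.negSucc 5, .negSucc 0)⟩ ::
 ⟨⟨.ofNat 1, .ofNat 2, .ofNat 7, .ofNat 0, .negSucc 0, .negSucc 4⟩, (.ofNat 1, .negSucc 1), (.negSucc 1, .negSucc 2), (.negSucc 4, .ofNat 4)⟩ ::
 ⟨⟨.ofNat 1, .ofNat 2, .ofNat 7, .ofNat 1, .ofNat 8, .negSucc 9⟩, (.negSucc 1, .ofNat 0), (.negSucc 4, .ofNat 3), (.ofNat 5, .ofNat 4)⟩ ::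
 ⟨⟨.ofNat 1, .ofNat 2, .ofNat 7, .ofNat 1, .negSucc 0, .negSucc 5⟩, (.ofNat 4, .negSucc 1), (.ofNat 4, .negSucc 6), (.negSucc 10, .ofNat 5)⟩ ::
 ⟨⟨.ofNat 1, .ofNat 2, .ofNat 8, .negSucc 0, .ofNat 8, .negSucc 9⟩, (.negSucc 3, .ofNat 0), (.negSucc 5, .ofNat 6), (.ofNat 5, .ofNat 8)⟩ ::
 ⟨⟨.ofNat 1, .ofNat 2, .ofNat 8, .negSucc 0, .negSucc 0, .negSucc 5⟩, (.negSucc 0, .negSucc 1), (.negSucc 7, .ofNat 0), (.negSucc 1, .ofNat 8)⟩ ::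
 ⟨⟨.ofNat 1, .ofNat 2, .ofNat 8, .ofNat 0, .ofNat 2, .negSucc 7⟩, (.ofNat 1, .negSucc 2), (.negSucc 4, .negSucc 3), (.negSucc 10, .ofNat 8)⟩ ::
 ⟨⟨.ofNat 1, .ofNat 2, .ofNat 8, .ofNat 0, .negSucc 6, .negSucc 3⟩, (.ofNat 4, .negSucc 1), (.ofNat 3, .negSucc 6), (.negSucc 8, .ofNat 8)⟩ ::
 ⟨⟨.ofNat 2, .negSucc 1, .negSucc 3, .negSucc 0, .negSucc 4, .ofNat 2⟩, (.negSucc 0, .ofNat 2), (.ofNat 4, .negSucc 0), (.ofNat 2, .negSucc 1)⟩ ::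
 ⟨⟨.ofNat 2, .negSucc 1, .negSucc 3, .negSucc 0, .ofNat 1, .ofNat 4⟩, (.ofNat 2, .ofNat 1), (.ofNat 3, .negSucc 2), (.negSucc 5, .ofNat 2)⟩ ::
 ⟨⟨.ofNat 2, .negSucc 1, .negSucc 2, .negSucc 0, .negSucc 6, .ofNat 0⟩, (.negSucc 0, .ofNat 0), (.negSucc 0, .ofNat 1), (.ofNat 0, .ofNat 2)⟩ ::
 ⟨⟨.ofNat 2, .negSucc 1, .negSucc 2, .negSucc 0, .negSucc 3, .ofNat 1⟩, (.negSucc 0, .ofNat 0), (.ofNat 0, .ofNat 1), (.ofNat 1, .ofNat 0)⟩ ::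
 ⟨⟨.ofNat 2, .negSucc 1, .negSucc 2, .negSucc 0, .negSucc 0, .ofNat 2⟩, (.negSucc 0, .ofNat 0), (.negSucc 0, .ofNat 1), (.ofNat 1, .ofNat 0)⟩ ::
 ⟨⟨.ofNat 2, .negSucc 1, .negSucc 2, .negSucc 0, .ofNat 2, .ofNat 3⟩, (.negSucc 2, .ofNat 2), (.ofNat 1, .ofNat 2), (.negSucc 0, .negSucc 2)⟩ ::
 ⟨⟨.ofNat 2, .negSucc 1, .negSucc 1, .negSucc 2, .negSucc 10, .ofNat 1⟩, (.negSucc 0, .ofNat 2), (.ofNat 3, .ofNat 1), (.ofNat 9, .negSucc 1)⟩ ::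
 ⟨⟨.ofNat 2, .negSucc 1, .negSucc 1, .negSucc 2, .negSucc 4, .ofNat 3⟩, (.negSucc 0, .ofNat 0), (.negSucc 0, .ofNat 1), (.ofNat 1, .ofNat 0)⟩ ::
 ⟨⟨.ofNat 2, .negSucc 1, .negSucc 1, .negSucc 0, .negSucc 6, .negSucc 0⟩, (.negSucc 3, .ofNat 1), (.negSucc 0, .ofNat 2), (.ofNat 1, .ofNat 7)⟩ ::
 ⟨⟨.ofNat 2, .negSucc 1, .negSucc 1, .negSucc 0, .negSucc 0, .ofNat 1⟩, (.negSucc 0, .ofNat 0), (.negSucc 0, .ofNat 1), (.ofNat 1, .ofNat 0)⟩ ::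
 ⟨⟨.ofNat 2, .negSucc 1, .negSucc 1, .ofNat 1, .negSucc 4, .negSucc 0⟩, (.ofNat 2, .ofNat 1), (.negSucc 0, .negSucc 0), (.ofNat 4, .negSucc 3)⟩ ::
 ⟨⟨.ofNat 2, .negSucc 1, .negSucc 1, .ofNat 1, .ofNat 1, .ofNat 1⟩, (.negSucc 0, .ofNat 0), (.ofNat 1, .ofNat 0), (.ofNat 1, .negSucc 0)⟩ ::
 ⟨⟨.ofNat 2, .negSucc 1, .negSucc 0, .negSucc 2, .negSucc 10, .ofNat 0⟩, (.negSucc 0, .ofNat 2), (.ofNat 3, .ofNat 1), (.ofNat 9, .negSucc 1)⟩ ::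
 ⟨⟨.ofNat 2, .negSucc 1, .negSucc 0, .negSucc 2, .negSucc 7, .ofNat 1⟩, (.negSucc 2, .ofNat 2), (.ofNat 1, .ofNat 4), (.ofNat 8, .negSucc 0)⟩ ::
 ⟨⟨.ofNat 2, .negSucc 1, .negSucc 0, .negSucc 2, .negSucc 4, .ofNat 2⟩, (.ofNat 1, .ofNat 1), (.ofNat 3, .ofNat 0), (.ofNat 2, .negSucc 2)⟩ ::
 ⟨⟨.ofNat 2, .negSucc 1, .negSucc 0, .negSucc 2, .negSucc 1, .ofNat 3⟩, (.negSucc 0, .ofNat 1), (.ofNat 1, .ofNat 2), (.ofNat 2, .negSucc 2)⟩ ::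
 ⟨⟨.ofNat 2, .negSucc 1, .negSucc 0, .ofNat 1, .negSucc 6, .negSucc 1⟩, (.negSucc 0, .ofNat 0), (.ofNat 0, .ofNat 0), (.negSucc 0, .ofNat 2)⟩ ::
 ⟨⟨.ofNat 2, .negSucc 1, .negSucc 0, .ofNat 1, .negSucc 3, .negSucc 0⟩, (.negSucc 2, .ofNat 2), (.ofNat 0, .negSucc 0), (.ofNat 3, .ofNat 2)⟩ ::
 ⟨⟨.ofNat 2, .negSucc 1, .negSucc 0, .ofNat 1, .negSucc 0, .ofNat 0⟩, (.negSucc 0, .ofNat 0), (.ofNat 0, .ofNat 0), (.ofNat 0, .ofNat 0)⟩ ::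
 ⟨⟨.ofNat 2, .negSucc 1, .negSucc 0, .ofNat 1, .ofNat 2, .ofNat 1⟩, (.negSucc 0, .ofNat 0), (.ofNat 1, .ofNat 0), (.ofNat 1, .negSucc 0)⟩ ::
 ⟨⟨.ofNat 2, .negSucc 1, .ofNat 0, .negSucc 4, .negSucc 12, .ofNat 4⟩, (.negSucc 0, .ofNat 2), (.ofNat 2, .ofNat 3), (.ofNat 10, .negSucc 3)⟩ ::
 ⟨⟨.ofNat 2, .negSucc 1, .ofNat 0, .negSucc 4, .negSucc 6, .ofNat 6⟩, (.negSucc 1, .ofNat 3), (.ofNat 1, .ofNat 6), (.ofNat 9, .negSucc 6)⟩ ::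
 ⟨⟨.ofNat 2, .negSucc 1, .ofNat 0, .negSucc 2, .negSucc 8, .ofNat 0⟩, (.negSucc 0, .ofNat 0), (.negSucc 1, .ofNat 1), (.ofNat 1, .ofNat 2)⟩ ::
 ⟨⟨.ofNat 2, .negSucc 1, .ofNat 0, .negSucc 2, .negSucc 2, .ofNat 2⟩, (.negSucc 0, .ofNat 0), (.negSucc 1, .ofNat 1), (.ofNat 2, .ofNat 0)⟩ ::
 ⟨⟨.ofNat 2, .negSucc 1, .ofNat 0, .negSucc 0, .negSucc 6, .negSucc 1⟩, (.negSucc 0, .ofNat 0), (.ofNat 0, .ofNat 0), (.negSucc 0, .ofNat 2)⟩ ::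
 ⟨⟨.ofNat 2, .negSucc 1, .ofNat 0, .negSucc 0, .negSucc 0, .ofNat 0⟩, (.negSucc 0, .ofNat 0), (.ofNat 0, .ofNat 0), (.ofNat 0, .ofNat 0)⟩ ::
 ⟨⟨.ofNat 2, .negSucc 1, .ofNat 0, .ofNat 1, .negSucc 6, .negSucc 1⟩, (.negSucc 0, .ofNat 2), (.ofNat 0, .ofNat 0), (.ofNat 8, .ofNat 0)⟩ ::
 t

noncomputable def r6 (t : List Ent) : List Ent :=
 ⟨⟨.ofNat 2, .negSucc 1, .ofNat 0, .ofNat 1, .negSucc 0, .ofNat 0⟩, (.negSucc 0, .ofNat 2), (.ofNat 0, .ofNat 0), (.ofNat 1, .ofNat 0)⟩ ::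
 ⟨⟨.ofNat 2, .negSucc 1, .ofNat 1, .negSucc 0, .negSucc 6, .negSucc 1⟩, (.negSucc 0, .ofNat 2), (.ofNat 0, .ofNat 0), (.ofNat 8, .ofNat 0)⟩ ::
 ⟨⟨.ofNat 2, .negSucc 1, .ofNat 1, .negSucc 0, .negSucc 3, .negSucc 0⟩, (.ofNat 1, .ofNat 1), (.ofNat 1, .ofNat 0), (.ofNat 3, .negSucc 1)⟩ ::
 ⟨⟨.ofNat 2, .negSucc 1, .ofNat 1, .negSucc 0, .negSucc 0, .ofNat 0⟩, (.negSucc 0, .ofNat 2), (.ofNat 0, .ofNat 0), (.ofNat 1, .ofNat 0)⟩ ::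
 ⟨⟨.ofNat 2, .negSucc 1, .ofNat 2, .negSucc 0, .negSucc 4, .negSucc 0⟩, (.ofNat 2, .ofNat 1), (.ofNat 1, .ofNat 1), (.ofNat 4, .negSucc 3)⟩ ::
 ⟨⟨.ofNat 2, .negSucc 0, .negSucc 0, .negSucc 1, .negSucc 4, .negSucc 1⟩, (.negSucc 0, .negSucc 0), (.negSucc 2, .ofNat 2), (.negSucc 2, .ofNat 4)⟩ ::
 ⟨⟨.ofNat 2, .negSucc 0, .negSucc 0, .negSucc 1, .negSucc 2, .ofNat 1⟩, (.ofNat 0, .ofNat 1), (.ofNat 3, .negSucc 0), (.ofNat 0, .negSucc 1)⟩ ::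
 ⟨⟨.ofNat 2, .negSucc 0, .negSucc 0, .negSucc 1, .negSucc 0, .ofNat 4⟩, (.ofNat 0, .ofNat 1), (.ofNat 3, .negSucc 0), (.negSucc 3, .negSucc 0)⟩ ::
 ⟨⟨.ofNat 2, .negSucc 0, .negSucc 0, .negSucc 0, .negSucc 1, .negSucc 0⟩, (.negSucc 1, .ofNat 1), (.ofNat 1, .ofNat 0), (.ofNat 1, .ofNat 1)⟩ ::
 ⟨⟨.ofNat 2, .negSucc 0, .negSucc 0, .negSucc 0, .ofNat 0, .ofNat 2⟩, (.negSucc 2, .ofNat 1), (.negSucc 0, .ofNat 2), (.ofNat 1, .negSucc 1)⟩ ::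
 ⟨⟨.ofNat 2, .negSucc 0, .negSucc 0, .ofNat 0, .negSucc 2, .negSucc 3⟩, (.negSucc 0, .negSucc 0), (.ofNat 0, .ofNat 1), (.negSucc 5, .ofNat 4)⟩ ::
 ⟨⟨.ofNat 2, .negSucc 0, .negSucc 0, .ofNat 0, .negSucc 0, .negSucc 0⟩, (.negSucc 0, .negSucc 0), (.ofNat 0, .ofNat 1), (.negSucc 0, .ofNat 1)⟩ ::
 ⟨⟨.ofNat 2, .negSucc 0, .negSucc 0, .ofNat 0, .ofNat 1, .ofNat 2⟩, (.ofNat 0, .ofNat 1), (.ofNat 1, .negSucc 0), (.negSucc 1, .ofNat 0)⟩ ::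
 ⟨⟨.ofNat 2, .negSucc 0, .negSucc 0, .ofNat 1, .negSucc 1, .negSucc 1⟩, (.negSucc 1, .ofNat 1), (.ofNat 1, .negSucc 1), (.ofNat 3, .ofNat 1)⟩ ::
 ⟨⟨.ofNat 2, .negSucc 0, .negSucc 0, .ofNat 1, .ofNat 0, .ofNat 1⟩, (.negSucc 0, .negSucc 0), (.ofNat 1, .ofNat 0), (.ofNat 2, .negSucc 0)⟩ ::
 ⟨⟨.ofNat 2, .negSucc 0, .ofNat 1, .negSucc 2, .negSucc 5, .negSucc 0⟩, (.negSucc 2, .ofNat 1), (.negSucc 0, .ofNat 4), (.ofNat 6, .ofNat 1)⟩ ::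
 ⟨⟨.ofNat 2, .negSucc 0, .ofNat 1, .negSucc 2, .negSucc 3, .ofNat 2⟩, (.negSucc 0, .negSucc 0), (.negSucc 3, .ofNat 1), (.ofNat 3, .ofNat 1)⟩ ::
 ⟨⟨.ofNat 2, .negSucc 0, .ofNat 1, .negSucc 1, .negSucc 4, .negSucc 3⟩, (.ofNat 0, .ofNat 1), (.ofNat 1, .ofNat 1), (.ofNat 8, .negSucc 2)⟩ ::
 ⟨⟨.ofNat 2, .negSucc 0, .ofNat 1, .negSucc 1, .negSucc 2, .negSucc 0⟩, (.negSucc 1, .negSucc 0), (.negSucc 2, .ofNat 1), (.negSucc 1, .ofNat 3)⟩ ::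
 ⟨⟨.ofNat 2, .negSucc 0, .ofNat 1, .negSucc 1, .negSucc 0, .ofNat 2⟩, (.negSucc 1, .ofNat 1), (.negSucc 0, .ofNat 1), (.ofNat 0, .negSucc 0)⟩ ::
 ⟨⟨.ofNat 2, .negSucc 0, .ofNat 1, .negSucc 0, .negSucc 1, .negSucc 1⟩, (.negSucc 1, .ofNat 1), (.negSucc 0, .ofNat 2), (.ofNat 3, .ofNat 1)⟩ ::
 ⟨⟨.ofNat 2, .negSucc 0, .ofNat 1, .negSucc 0, .ofNat 0, .ofNat 1⟩, (.negSucc 0, .negSucc 0), (.negSucc 0, .ofNat 0), (.ofNat 2, .negSucc 0)⟩ ::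
 ⟨⟨.ofNat 2, .negSucc 0, .ofNat 1, .ofNat 0, .negSucc 2, .negSucc 3⟩, (.negSucc 0, .negSucc 0), (.ofNat 0, .negSucc 0), (.negSucc 5, .ofNat 4)⟩ ::
 ⟨⟨.ofNat 2, .negSucc 0, .ofNat 1, .ofNat 0, .negSucc 0, .negSucc 0⟩, (.negSucc 0, .negSucc 0), (.ofNat 0, .negSucc 0), (.negSucc 0, .ofNat 1)⟩ ::
 ⟨⟨.ofNat 2, .negSucc 0, .ofNat 1, .ofNat 1, .negSucc 3, .negSucc 3⟩, (.negSucc 1, .ofNat 1), (.negSucc 0, .ofNat 0), (.ofNat 3, .ofNat 4)⟩ ::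
 ⟨⟨.ofNat 2, .negSucc 0, .ofNat 1, .ofNat 1, .negSucc 1, .negSucc 0⟩, (.negSucc 1, .ofNat 1), (.negSucc 0, .ofNat 0), (.ofNat 1, .ofNat 1)⟩ ::
 ⟨⟨.ofNat 2, .negSucc 0, .ofNat 3, .negSucc 2, .negSucc 7, .negSucc 2⟩, (.ofNat 0, .ofNat 1), (.ofNat 1, .ofNat 2), (.ofNat 9, .negSucc 4)⟩ ::
 ⟨⟨.ofNat 2, .negSucc 0, .ofNat 3, .negSucc 2, .negSucc 5, .ofNat 0⟩, (.negSucc 0, .ofNat 2), (.ofNat 2, .ofNat 3), (.ofNat 5, .negSucc 3)⟩ ::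
 ⟨⟨.ofNat 2, .negSucc 0, .ofNat 3, .negSucc 2, .negSucc 3, .ofNat 3⟩, (.negSucc 1, .ofNat 1), (.negSucc 2, .ofNat 2), (.ofNat 3, .negSucc 0)⟩ ::
 ⟨⟨.ofNat 2, .ofNat 0, .negSucc 1, .ofNat 0, .ofNat 1, .negSucc 3⟩, (.negSucc 0, .ofNat 0), (.ofNat 0, .ofNat 0), (.negSucc 0, .ofNat 2)⟩ ::
 ⟨⟨.ofNat 2, .ofNat 0, .negSucc 1, .ofNat 0, .negSucc 0, .ofNat 0⟩, (.negSucc 0, .ofNat 0), (.ofNat 2, .ofNat 0), (.ofNat 2, .ofNat 0)⟩ ::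
 ⟨⟨.ofNat 2, .ofNat 0, .negSucc 1, .ofNat 1, .ofNat 1, .negSucc 3⟩, (.negSucc 0, .ofNat 0), (.ofNat 0, .ofNat 0), (.negSucc 0, .ofNat 2)⟩ ::
 ⟨⟨.ofNat 2, .ofNat 0, .negSucc 1, .ofNat 1, .negSucc 0, .ofNat 0⟩, (.negSucc 0, .ofNat 0), (.ofNat 2, .negSucc 0), (.ofNat 2, .ofNat 0)⟩ ::
 ⟨⟨.ofNat 2, .ofNat 0, .negSucc 0, .negSucc 0, .ofNat 1, .negSucc 3⟩, (.negSucc 0, .ofNat 0), (.ofNat 1, .ofNat 1), (.ofNat 1, .ofNat 2)⟩ ::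
 ⟨⟨.ofNat 2, .ofNat 0, .negSucc 0, .negSucc 0, .negSucc 0, .ofNat 0⟩, (.negSucc 0, .ofNat 0), (.ofNat 1, .ofNat 1), (.ofNat 2, .ofNat 0)⟩ ::
 ⟨⟨.ofNat 2, .ofNat 0, .negSucc 0, .ofNat 1, .ofNat 2, .negSucc 4⟩, (.negSucc 0, .ofNat 0), (.ofNat 1, .ofNat 0), (.negSucc 0, .ofNat 3)⟩ ::
 ⟨⟨.ofNat 2, .ofNat 0, .negSucc 0, .ofNat 1, .ofNat 0, .negSucc 0⟩, (.negSucc 0, .ofNat 0), (.ofNat 1, .ofNat 0), (.ofNat 0, .ofNat 1)⟩ ::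
 ⟨⟨.ofNat 2, .ofNat 0, .ofNat 0, .negSucc 0, .ofNat 1, .negSucc 2⟩, (.negSucc 0, .ofNat 0), (.negSucc 0, .ofNat 1), (.ofNat 0, .ofNat 2)⟩ ::
 ⟨⟨.ofNat 2, .ofNat 0, .ofNat 0, .negSucc 0, .negSucc 0, .ofNat 1⟩, (.ofNat 0, .negSucc 0), (.negSucc 0, .ofNat 0), (.ofNat 1, .ofNat 0)⟩ ::
 ⟨⟨.ofNat 2, .ofNat 0, .ofNat 0, .ofNat 0, .ofNat 1, .negSucc 1⟩, (.negSucc 0, .ofNat 0), (.negSucc 0, .ofNat 0), (.ofNat 0, .ofNat 1)⟩ ::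
 ⟨⟨.ofNat 2, .ofNat 0, .ofNat 0, .ofNat 1, .ofNat 3, .negSucc 6⟩, (.negSucc 13, .negSucc 0), (.ofNat 5, .negSucc 8), (.negSucc 27, .ofNat 53)⟩ ::
 ⟨⟨.ofNat 2, .ofNat 0, .ofNat 0, .ofNat 1, .ofNat 1, .negSucc 2⟩, (.negSucc 0, .ofNat 0), (.ofNat 1, .negSucc 0), (.ofNat 0, .ofNat 2)⟩ ::
 ⟨⟨.ofNat 2, .ofNat 0, .ofNat 0, .ofNat 1, .negSucc 0, .ofNat 1⟩, (.negSucc 0, .ofNat 0), (.negSucc 0, .ofNat 0), (.ofNat 1, .negSucc 0)⟩ ::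
 ⟨⟨.ofNat 2, .ofNat 0, .ofNat 1, .negSucc 0, .ofNat 2, .negSucc 4⟩, (.negSucc 0, .ofNat 0), (.negSucc 0, .ofNat 0), (.negSucc 0, .ofNat 3)⟩ ::
 ⟨⟨.ofNat 2, .ofNat 0, .ofNat 1, .negSucc 0, .ofNat 0, .negSucc 0⟩, (.negSucc 0, .ofNat 0), (.negSucc 0, .ofNat 0), (.ofNat 0, .ofNat 1)⟩ ::
 ⟨⟨.ofNat 2, .ofNat 0, .ofNat 1, .ofNat 1, .ofNat 3, .negSucc 7⟩, (.negSucc 0, .ofNat 0), (.ofNat 0, .ofNat 0), (.negSucc 1, .ofNat 4)⟩ ::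
 ⟨⟨.ofNat 2, .ofNat 0, .ofNat 1, .ofNat 1, .ofNat 1, .negSucc 3⟩, (.negSucc 0, .ofNat 0), (.negSucc 0, .negSucc 0), (.ofNat 1, .ofNat 2)⟩ ::
 ⟨⟨.ofNat 2, .ofNat 0, .ofNat 1, .ofNat 1, .negSucc 0, .ofNat 0⟩, (.negSucc 0, .ofNat 0), (.negSucc 0, .negSucc 0), (.ofNat 2, .ofNat 0)⟩ ::
 ⟨⟨.ofNat 2, .ofNat 0, .ofNat 2, .negSucc 2, .negSucc 2, .negSucc 1⟩, (.negSucc 0, .ofNat 0), (.negSucc 1, .ofNat 2), (.ofNat 3, .ofNat 2)⟩ ::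
 ⟨⟨.ofNat 2, .ofNat 0, .ofNat 2, .negSucc 2, .negSucc 4, .ofNat 2⟩, (.ofNat 0, .negSucc 0), (.negSucc 2, .ofNat 1), (.ofNat 4, .ofNat 1)⟩ ::
 t

noncomputable def r7 (t : List Ent) : List Ent :=
 ⟨⟨.ofNat 2, .ofNat 0, .ofNat 2, .negSucc 1, .negSucc 0, .negSucc 1⟩, (.negSucc 0, .ofNat 0), (.negSucc 1, .ofNat 1), (.ofNat 1, .ofNat 2)⟩ ::
 ⟨⟨.ofNat 2, .ofNat 0, .ofNat 2, .negSucc 1, .negSucc 2, .ofNat 2⟩, (.negSucc 0, .ofNat 0), (.ofNat 0, .ofNat 1), (.ofNat 2, .negSucc 1)⟩ ::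
 ⟨⟨.ofNat 2, .ofNat 0, .ofNat 2, .negSucc 0, .ofNat 1, .negSucc 3⟩, (.negSucc 0, .ofNat 0), (.ofNat 0, .ofNat 0), (.negSucc 0, .ofNat 2)⟩ ::
 ⟨⟨.ofNat 2, .ofNat 0, .ofNat 2, .negSucc 0, .negSucc 0, .ofNat 0⟩, (.negSucc 0, .ofNat 0), (.negSucc 1, .ofNat 1), (.ofNat 2, .ofNat 0)⟩ ::
 ⟨⟨.ofNat 2, .ofNat 0, .ofNat 2, .ofNat 0, .ofNat 1, .negSucc 3⟩, (.negSucc 0, .ofNat 0), (.ofNat 0, .ofNat 0), (.negSucc 0, .ofNat 2)⟩ ::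
 ⟨⟨.ofNat 2, .ofNat 0, .ofNat 2, .ofNat 0, .negSucc 0, .ofNat 0⟩, (.negSucc 0, .ofNat 0), (.ofNat 0, .ofNat 0), (.ofNat 0, .ofNat 0)⟩ ::
 ⟨⟨.ofNat 2, .ofNat 0, .ofNat 3, .negSucc 2, .negSucc 1, .negSucc 4⟩, (.negSucc 0, .ofNat 1), (.ofNat 1, .ofNat 2), (.ofNat 8, .negSucc 0)⟩ ::
 ⟨⟨.ofNat 2, .ofNat 0, .ofNat 3, .negSucc 2, .negSucc 3, .negSucc 0⟩, (.negSucc 0, .ofNat 1), (.ofNat 1, .ofNat 2), (.ofNat 5, .negSucc 1)⟩ ::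
 ⟨⟨.ofNat 2, .ofNat 0, .ofNat 3, .negSucc 0, .ofNat 1, .negSucc 5⟩, (.negSucc 0, .ofNat 0), (.negSucc 0, .ofNat 1), (.ofNat 0, .ofNat 2)⟩ ::
 ⟨⟨.ofNat 2, .ofNat 0, .ofNat 3, .negSucc 0, .negSucc 0, .negSucc 1⟩, (.negSucc 0, .ofNat 0), (.negSucc 1, .ofNat 0), (.ofNat 1, .ofNat 2)⟩ ::
 ⟨⟨.ofNat 2, .ofNat 0, .ofNat 4, .negSucc 2, .negSucc 2, .negSucc 4⟩, (.ofNat 0, .negSucc 0), (.negSucc 2, .negSucc 0), (.negSucc 5, .ofNat 5)⟩ ::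
 ⟨⟨.ofNat 2, .ofNat 0, .ofNat 4, .negSucc 2, .negSucc 4, .negSucc 0⟩, (.negSucc 0, .ofNat 0), (.negSucc 2, .ofNat 2), (.ofNat 5, .ofNat 1)⟩ ::
 ⟨⟨.ofNat 2, .ofNat 0, .ofNat 4, .negSucc 1, .negSucc 0, .negSucc 5⟩, (.negSucc 0, .ofNat 0), (.negSucc 0, .ofNat 1), (.ofNat 0, .ofNat 2)⟩ ::
 ⟨⟨.ofNat 2, .ofNat 0, .ofNat 4, .negSucc 1, .negSucc 2, .negSucc 1⟩, (.negSucc 0, .ofNat 0), (.negSucc 2, .ofNat 1), (.ofNat 3, .ofNat 2)⟩ ::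
 ⟨⟨.ofNat 2, .ofNat 0, .ofNat 4, .negSucc 1, .negSucc 4, .ofNat 2⟩, (.negSucc 0, .ofNat 0), (.negSucc 2, .ofNat 1), (.ofNat 4, .ofNat 0)⟩ ::
 ⟨⟨.ofNat 2, .ofNat 0, .ofNat 4, .negSucc 0, .negSucc 0, .negSucc 4⟩, (.negSucc 0, .ofNat 0), (.negSucc 0, .ofNat 0), (.negSucc 0, .ofNat 3)⟩ ::
 ⟨⟨.ofNat 2, .ofNat 0, .ofNat 4, .negSucc 0, .negSucc 2, .negSucc 0⟩, (.negSucc 0, .ofNat 0), (.negSucc 0, .ofNat 0), (.ofNat 0, .ofNat 1)⟩ ::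
 ⟨⟨.ofNat 2, .ofNat 0, .ofNat 5, .negSucc 2, .negSucc 4, .negSucc 3⟩, (.negSucc 0, .ofNat 0), (.negSucc 1, .ofNat 2), (.ofNat 4, .ofNat 0)⟩ ::
 ⟨⟨.ofNat 2, .ofNat 0, .ofNat 5, .negSucc 2, .negSucc 6, .ofNat 0⟩, (.negSucc 0, .ofNat 0), (.negSucc 1, .ofNat 2), (.ofNat 5, .negSucc 1)⟩ ::
 ⟨⟨.ofNat 2, .ofNat 1, .negSucc 0, .negSucc 0, .ofNat 4, .negSucc 3⟩, (.ofNat 1, .negSucc 1), (.negSucc 0, .ofNat 2), (.negSucc 4, .ofNat 1)⟩ ::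
 ⟨⟨.ofNat 2, .ofNat 1, .negSucc 0, .negSucc 0, .negSucc 1, .ofNat 1⟩, (.negSucc 0, .negSucc 0), (.ofNat 1, .ofNat 0), (.ofNat 2, .negSucc 0)⟩ ::
 ⟨⟨.ofNat 2, .ofNat 1, .negSucc 0, .ofNat 0, .ofNat 7, .negSucc 5⟩, (.ofNat 1, .negSucc 1), (.ofNat 0, .ofNat 0), (.negSucc 7, .ofNat 0)⟩ ::
 ⟨⟨.ofNat 2, .ofNat 1, .negSucc 0, .ofNat 0, .ofNat 1, .negSucc 0⟩, (.negSucc 2, .ofNat 1), (.ofNat 2, .negSucc 0), (.ofNat 1, .ofNat 1)⟩ ::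
 ⟨⟨.ofNat 2, .ofNat 1, .negSucc 0, .ofNat 1, .ofNat 8, .negSucc 6⟩, (.negSucc 4, .negSucc 2), (.ofNat 5, .negSucc 3), (.negSucc 21, .ofNat 19)⟩ ::
 ⟨⟨.ofNat 2, .ofNat 1, .negSucc 0, .ofNat 1, .ofNat 2, .negSucc 1⟩, (.ofNat 1, .negSucc 0), (.ofNat 1, .ofNat 0), (.negSucc 0, .ofNat 0)⟩ ::
 ⟨⟨.ofNat 2, .ofNat 1, .negSucc 0, .ofNat 2, .ofNat 7, .negSucc 6⟩, (.ofNat 1, .negSucc 0), (.ofNat 1, .ofNat 0), (.negSucc 3, .negSucc 0)⟩ ::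
 ⟨⟨.ofNat 2, .ofNat 1, .negSucc 0, .ofNat 2, .ofNat 1, .negSucc 1⟩, (.negSucc 1, .negSucc 0), (.ofNat 1, .negSucc 0), (.negSucc 1, .ofNat 2)⟩ ::
 ⟨⟨.ofNat 2, .ofNat 1, .ofNat 1, .negSucc 1, .ofNat 1, .negSucc 1⟩, (.negSucc 1, .negSucc 0), (.negSucc 0, .ofNat 1), (.negSucc 1, .ofNat 2)⟩ ::
 ⟨⟨.ofNat 2, .ofNat 1, .ofNat 1, .negSucc 1, .negSucc 4, .ofNat 3⟩, (.negSucc 1, .negSucc 0), (.negSucc 0, .ofNat 1), (.ofNat 4, .negSucc 2)⟩ ::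
 ⟨⟨.ofNat 2, .ofNat 1, .ofNat 1, .negSucc 0, .ofNat 2, .negSucc 1⟩, (.negSucc 1, .negSucc 0), (.negSucc 0, .ofNat 2), (.negSucc 0, .ofNat 2)⟩ ::
 ⟨⟨.ofNat 2, .ofNat 1, .ofNat 1, .ofNat 0, .ofNat 7, .negSucc 5⟩, (.ofNat 1, .negSucc 1), (.ofNat 0, .ofNat 0), (.negSucc 7, .ofNat 0)⟩ ::
 ⟨⟨.ofNat 2, .ofNat 1, .ofNat 1, .ofNat 0, .ofNat 1, .negSucc 0⟩, (.negSucc 2, .ofNat 1), (.negSucc 1, .ofNat 1), (.ofNat 1, .ofNat 1)⟩ ::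
 ⟨⟨.ofNat 2, .ofNat 1, .ofNat 1, .ofNat 1, .ofNat 4, .negSucc 3⟩, (.ofNat 1, .negSucc 1), (.ofNat 1, .negSucc 1), (.negSucc 4, .ofNat 1)⟩ ::
 ⟨⟨.ofNat 2, .ofNat 1, .ofNat 1, .ofNat 2, .ofNat 5, .negSucc 5⟩, (.ofNat 1, .negSucc 0), (.ofNat 2, .negSucc 0), (.negSucc 3, .ofNat 0)⟩ ::
 ⟨⟨.ofNat 2, .ofNat 1, .ofNat 1, .ofNat 2, .negSucc 0, .negSucc 0⟩, (.negSucc 0, .negSucc 0), (.negSucc 0, .negSucc 1), (.ofNat 2, .ofNat 1)⟩ ::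
 ⟨⟨.ofNat 2, .ofNat 1, .ofNat 3, .negSucc 2, .ofNat 0, .negSucc 2⟩, (.ofNat 1, .negSucc 1), (.negSucc 3, .ofNat 1), (.negSucc 1, .ofNat 2)⟩ ::
 ⟨⟨.ofNat 2, .ofNat 1, .ofNat 3, .negSucc 2, .negSucc 5, .ofNat 2⟩, (.ofNat 1, .negSucc 1), (.negSucc 3, .ofNat 1), (.ofNat 5, .ofNat 2)⟩ ::
 ⟨⟨.ofNat 2, .ofNat 1, .ofNat 3, .negSucc 1, .ofNat 5, .negSucc 5⟩, (.ofNat 2, .negSucc 1), (.negSucc 1, .negSucc 0), (.negSucc 6, .negSucc 0)⟩ ::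
 ⟨⟨.ofNat 2, .ofNat 1, .ofNat 3, .negSucc 1, .negSucc 0, .negSucc 0⟩, (.ofNat 2, .negSucc 1), (.negSucc 1, .negSucc 0), (.negSucc 0, .ofNat 1)⟩ ::
 ⟨⟨.ofNat 2, .ofNat 1, .ofNat 3, .negSucc 0, .ofNat 2, .negSucc 2⟩, (.negSucc 0, .negSucc 0), (.negSucc 2, .ofNat 0), (.negSucc 1, .ofNat 3)⟩ ::
 ⟨⟨.ofNat 2, .ofNat 1, .ofNat 3, .ofNat 0, .ofNat 3, .negSucc 3⟩, (.negSucc 0, .negSucc 0), (.negSucc 0, .ofNat 0), (.negSucc 2, .ofNat 2)⟩ ::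
 ⟨⟨.ofNat 2, .ofNat 1, .ofNat 5, .negSucc 2, .negSucc 1, .negSucc 2⟩, (.negSucc 0, .negSucc 0), (.negSucc 2, .ofNat 2), (.ofNat 2, .ofNat 1)⟩ ::
 ⟨⟨.ofNat 2, .ofNat 1, .ofNat 5, .negSucc 1, .ofNat 5, .negSucc 7⟩, (.negSucc 0, .negSucc 0), (.negSucc 2, .ofNat 0), (.negSucc 6, .ofNat 6)⟩ ::
 ⟨⟨.ofNat 2, .ofNat 1, .ofNat 5, .negSucc 1, .negSucc 0, .negSucc 2⟩, (.negSucc 0, .negSucc 0), (.negSucc 2, .ofNat 0), (.negSucc 1, .ofNat 3)⟩ ::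
 ⟨⟨.ofNat 2, .ofNat 1, .ofNat 5, .negSucc 0, .ofNat 4, .negSucc 6⟩, (.negSucc 2, .ofNat 1), (.negSucc 1, .ofNat 3), (.ofNat 4, .ofNat 4)⟩ ::
 ⟨⟨.ofNat 2, .ofNat 1, .ofNat 5, .negSucc 0, .negSucc 1, .negSucc 1⟩, (.ofNat 2, .negSucc 1), (.ofNat 0, .negSucc 2), (.negSucc 2, .ofNat 2)⟩ ::
 ⟨⟨.ofNat 2, .ofNat 1, .ofNat 5, .ofNat 0, .ofNat 7, .negSucc 9⟩, (.negSucc 1, .ofNat 1), (.negSucc 2, .ofNat 3), (.ofNat 8, .ofNat 3)⟩ ::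
 ⟨⟨.ofNat 2, .ofNat 1, .ofNat 5, .ofNat 0, .ofNat 1, .negSucc 4⟩, (.negSucc 0, .negSucc 0), (.negSucc 3, .negSucc 0), (.negSucc 0, .ofNat 5)⟩ ::
 ⟨⟨.ofNat 2, .ofNat 1, .ofNat 5, .ofNat 0, .negSucc 4, .ofNat 0⟩, (.ofNat 1, .negSucc 0), (.ofNat 1, .negSucc 1), (.negSucc 0, .ofNat 2)⟩ ::
 ⟨⟨.ofNat 2, .ofNat 1, .ofNat 7, .negSucc 2, .negSucc 1, .negSucc 5⟩, (.negSucc 1, .ofNat 1), (.negSucc 0, .ofNat 4), (.ofNat 9, .negSucc 0)⟩ ::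
 t

noncomputable def r8 (t : List Ent) : List Ent :=
 ⟨⟨.ofNat 2, .ofNat 1, .ofNat 7, .negSucc 2, .negSucc 7, .negSucc 0⟩, (.ofNat 1, .negSucc 0), (.negSucc 0, .negSucc 1), (.negSucc 1, .ofNat 3)⟩ ::
 ⟨⟨.ofNat 2, .ofNat 1, .ofNat 7, .negSucc 1, .ofNat 1, .negSucc 7⟩, (.negSucc 0, .negSucc 0), (.negSucc 3, .ofNat 1), (.negSucc 1, .ofNat 4)⟩ ::
 ⟨⟨.ofNat 2, .ofNat 1, .ofNat 7, .negSucc 1, .negSucc 4, .negSucc 2⟩, (.negSucc 1, .negSucc 1), (.negSucc 7, .ofNat 1), (.ofNat 3, .ofNat 4)⟩ ::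
 ⟨⟨.ofNat 2, .ofNat 1, .ofNat 7, .negSucc 0, .ofNat 2, .negSucc 8⟩, (.ofNat 1, .negSucc 1), (.negSucc 1, .negSucc 2), (.negSucc 9, .ofNat 4)⟩ ::
 ⟨⟨.ofNat 2, .ofNat 1, .ofNat 7, .negSucc 0, .negSucc 3, .negSucc 3⟩, (.negSucc 0, .negSucc 0), (.negSucc 3, .negSucc 0), (.negSucc 0, .ofNat 5)⟩ ::
 ⟨⟨.ofNat 3, .negSucc 1, .negSucc 2, .negSucc 2, .negSucc 8, .ofNat 0⟩, (.negSucc 0, .ofNat 0), (.negSucc 0, .ofNat 1), (.ofNat 0, .ofNat 2)⟩ ::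
 ⟨⟨.ofNat 3, .negSucc 1, .negSucc 2, .negSucc 2, .negSucc 3, .ofNat 4⟩, (.negSucc 0, .ofNat 0), (.negSucc 0, .ofNat 1), (.ofNat 1, .ofNat 0)⟩ ::
 ⟨⟨.ofNat 3, .negSucc 1, .negSucc 2, .negSucc 1, .negSucc 6, .negSucc 0⟩, (.negSucc 0, .ofNat 2), (.ofNat 4, .negSucc 0), (.ofNat 5, .negSucc 1)⟩ ::
 ⟨⟨.ofNat 3, .negSucc 1, .negSucc 2, .negSucc 1, .negSucc 1, .ofNat 3⟩, (.negSucc 0, .ofNat 0), (.negSucc 0, .ofNat 1), (.ofNat 1, .ofNat 0)⟩ ::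
 ⟨⟨.ofNat 3, .negSucc 1, .negSucc 2, .ofNat 0, .negSucc 5, .negSucc 2⟩, (.negSucc 2, .ofNat 2), (.ofNat 4, .negSucc 0), (.ofNat 6, .ofNat 2)⟩ ::
 ⟨⟨.ofNat 3, .negSucc 1, .negSucc 2, .ofNat 0, .negSucc 0, .ofNat 1⟩, (.negSucc 0, .ofNat 0), (.ofNat 0, .ofNat 1), (.ofNat 1, .ofNat 0)⟩ ::
 ⟨⟨.ofNat 3, .negSucc 1, .negSucc 2, .ofNat 1, .negSucc 1, .ofNat 0⟩, (.negSucc 1, .ofNat 0), (.ofNat 2, .ofNat 0), (.ofNat 1, .ofNat 0)⟩ ::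
 ⟨⟨.ofNat 3, .negSucc 1, .negSucc 1, .negSucc 3, .negSucc 10, .ofNat 0⟩, (.negSucc 0, .ofNat 0), (.negSucc 0, .ofNat 1), (.ofNat 0, .ofNat 2)⟩ ::
 ⟨⟨.ofNat 3, .negSucc 1, .negSucc 1, .negSucc 3, .negSucc 5, .ofNat 4⟩, (.negSucc 0, .ofNat 0), (.negSucc 0, .ofNat 1), (.ofNat 1, .ofNat 0)⟩ ::
 ⟨⟨.ofNat 3, .negSucc 1, .negSucc 1, .negSucc 2, .negSucc 6, .ofNat 0⟩, (.negSucc 1, .ofNat 2), (.ofNat 4, .ofNat 1), (.ofNat 5, .negSucc 1)⟩ ::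
 ⟨⟨.ofNat 3, .negSucc 1, .negSucc 1, .negSucc 2, .negSucc 1, .ofNat 4⟩, (.negSucc 1, .ofNat 0), (.negSucc 1, .ofNat 3), (.ofNat 5, .negSucc 1)⟩ ::
 ⟨⟨.ofNat 3, .negSucc 1, .negSucc 1, .negSucc 1, .negSucc 3, .ofNat 0⟩, (.negSucc 0, .ofNat 0), (.ofNat 0, .ofNat 1), (.ofNat 1, .ofNat 0)⟩ ::
 ⟨⟨.ofNat 3, .negSucc 1, .negSucc 1, .negSucc 0, .negSucc 1, .ofNat 0⟩, (.negSucc 0, .ofNat 0), (.ofNat 0, .ofNat 1), (.ofNat 1, .ofNat 0)⟩ ::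
 ⟨⟨.ofNat 3, .negSucc 1, .negSucc 1, .ofNat 0, .negSucc 5, .negSucc 3⟩, (.negSucc 1, .ofNat 0), (.ofNat 1, .ofNat 1), (.negSucc 0, .ofNat 4)⟩ ::
 ⟨⟨.ofNat 3, .negSucc 1, .negSucc 1, .ofNat 0, .negSucc 0, .ofNat 0⟩, (.negSucc 0, .ofNat 0), (.ofNat 0, .ofNat 0), (.ofNat 0, .ofNat 0)⟩ ::
 ⟨⟨.ofNat 3, .negSucc 1, .negSucc 1, .ofNat 1, .negSucc 5, .negSucc 3⟩, (.negSucc 1, .ofNat 0), (.ofNat 2, .ofNat 0), (.negSucc 0, .ofNat 4)⟩ ::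
 ⟨⟨.ofNat 3, .negSucc 1, .negSucc 1, .ofNat 1, .negSucc 0, .ofNat 0⟩, (.negSucc 0, .ofNat 0), (.ofNat 0, .ofNat 0), (.ofNat 0, .ofNat 0)⟩ ::
 ⟨⟨.ofNat 3, .negSucc 1, .negSucc 1, .ofNat 2, .negSucc 6, .negSucc 3⟩, (.negSucc 1, .ofNat 2), (.ofNat 0, .negSucc 0), (.ofNat 7, .ofNat 2)⟩ ::
 ⟨⟨.ofNat 3, .negSucc 1, .negSucc 1, .ofNat 2, .negSucc 1, .ofNat 0⟩, (.negSucc 1, .ofNat 0), (.ofNat 2, .negSucc 0), (.ofNat 1, .ofNat 0)⟩ ::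
 ⟨⟨.ofNat 3, .negSucc 1, .negSucc 0, .negSucc 4, .negSucc 8, .ofNat 4⟩, (.negSucc 2, .ofNat 2), (.ofNat 2, .ofNat 4), (.ofNat 6, .negSucc 3)⟩ ::
 ⟨⟨.ofNat 3, .negSucc 1, .negSucc 0, .negSucc 3, .negSucc 7, .ofNat 1⟩, (.negSucc 1, .ofNat 2), (.ofNat 1, .ofNat 3), (.ofNat 8, .negSucc 0)⟩ ::
 ⟨⟨.ofNat 3, .negSucc 1, .negSucc 0, .negSucc 3, .negSucc 2, .ofNat 5⟩, (.negSucc 1, .ofNat 2), (.ofNat 1, .ofNat 3), (.ofNat 2, .negSucc 2)⟩ ::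
 ⟨⟨.ofNat 3, .negSucc 1, .negSucc 0, .negSucc 1, .negSucc 3, .negSucc 0⟩, (.negSucc 1, .ofNat 0), (.negSucc 1, .ofNat 2), (.ofNat 1, .ofNat 2)⟩ ::
 ⟨⟨.ofNat 3, .negSucc 1, .negSucc 0, .negSucc 0, .negSucc 5, .negSucc 3⟩, (.negSucc 2, .ofNat 2), (.ofNat 0, .ofNat 2), (.ofNat 7, .ofNat 4)⟩ ::
 ⟨⟨.ofNat 3, .negSucc 1, .negSucc 0, .negSucc 0, .negSucc 0, .ofNat 0⟩, (.negSucc 0, .ofNat 0), (.ofNat 0, .ofNat 0), (.ofNat 0, .ofNat 0)⟩ ::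
 ⟨⟨.ofNat 3, .negSucc 1, .negSucc 0, .ofNat 0, .negSucc 3, .negSucc 2⟩, (.negSucc 1, .ofNat 2), (.ofNat 2, .negSucc 0), (.ofNat 5, .ofNat 1)⟩ ::
 ⟨⟨.ofNat 3, .negSucc 1, .negSucc 0, .ofNat 0, .ofNat 1, .ofNat 1⟩, (.negSucc 1, .ofNat 2), (.ofNat 2, .negSucc 0), (.negSucc 0, .negSucc 0)⟩ ::
 ⟨⟨.ofNat 3, .negSucc 1, .negSucc 0, .ofNat 1, .negSucc 2, .negSucc 1⟩, (.negSucc 1, .ofNat 0), (.ofNat 0, .ofNat 0), (.negSucc 0, .ofNat 2)⟩ ::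
 ⟨⟨.ofNat 3, .negSucc 1, .negSucc 0, .ofNat 2, .negSucc 2, .negSucc 0⟩, (.negSucc 1, .ofNat 0), (.ofNat 1, .negSucc 0), (.ofNat 0, .ofNat 1)⟩ ::
 ⟨⟨.ofNat 3, .negSucc 1, .ofNat 0, .negSucc 4, .negSucc 9, .ofNat 2⟩, (.negSucc 1, .ofNat 0), (.negSucc 2, .ofNat 3), (.ofNat 4, .ofNat 1)⟩ ::
 ⟨⟨.ofNat 3, .negSucc 1, .ofNat 0, .negSucc 4, .negSucc 4, .ofNat 6⟩, (.negSucc 0, .ofNat 0), (.negSucc 1, .ofNat 1), (.ofNat 2, .ofNat 0)⟩ ::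
 ⟨⟨.ofNat 3, .negSucc 1, .ofNat 0, .negSucc 3, .negSucc 7, .ofNat 0⟩, (.negSucc 0, .ofNat 0), (.negSucc 1, .ofNat 1), (.ofNat 1, .ofNat 2)⟩ ::
 ⟨⟨.ofNat 3, .negSucc 1, .ofNat 0, .negSucc 3, .negSucc 2, .ofNat 4⟩, (.negSucc 0, .ofNat 1), (.ofNat 1, .ofNat 2), (.ofNat 2, .negSucc 2)⟩ ::
 ⟨⟨.ofNat 3, .negSucc 1, .ofNat 0, .negSucc 2, .negSucc 6, .negSucc 1⟩, (.negSucc 1, .ofNat 0), (.negSucc 1, .ofNat 1), (.negSucc 0, .ofNat 4)⟩ ::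
 ⟨⟨.ofNat 3, .negSucc 1, .ofNat 0, .negSucc 2, .negSucc 1, .ofNat 2⟩, (.negSucc 1, .ofNat 2), (.ofNat 0, .ofNat 3), (.ofNat 3, .negSucc 1)⟩ ::
 ⟨⟨.ofNat 3, .negSucc 1, .ofNat 0, .negSucc 1, .negSucc 6, .negSucc 3⟩, (.negSucc 0, .ofNat 0), (.negSucc 0, .ofNat 1), (.ofNat 0, .ofNat 2)⟩ ::
 ⟨⟨.ofNat 3, .negSucc 1, .ofNat 0, .negSucc 1, .negSucc 1, .ofNat 0⟩, (.negSucc 0, .ofNat 0), (.negSucc 0, .ofNat 1), (.ofNat 1, .ofNat 0)⟩ ::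
 ⟨⟨.ofNat 3, .negSucc 1, .ofNat 0, .negSucc 0, .negSucc 2, .negSucc 1⟩, (.negSucc 1, .ofNat 0), (.ofNat 0, .ofNat 0), (.negSucc 0, .ofNat 2)⟩ ::
 ⟨⟨.ofNat 3, .negSucc 1, .ofNat 0, .ofNat 1, .negSucc 2, .negSucc 1⟩, (.negSucc 1, .ofNat 2), (.ofNat 1, .negSucc 0), (.ofNat 4, .ofNat 1)⟩ ::
 ⟨⟨.ofNat 3, .negSucc 1, .ofNat 0, .ofNat 2, .negSucc 6, .negSucc 3⟩, (.negSucc 0, .ofNat 0), (.ofNat 1, .negSucc 0), (.ofNat 0, .ofNat 2)⟩ ::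
 ⟨⟨.ofNat 3, .negSucc 1, .ofNat 0, .ofNat 2, .negSucc 1, .ofNat 0⟩, (.negSucc 0, .ofNat 0), (.ofNat 1, .negSucc 0), (.ofNat 1, .ofNat 0)⟩ ::
 ⟨⟨.ofNat 3, .negSucc 1, .ofNat 1, .negSucc 5, .negSucc 12, .ofNat 3⟩, (.negSucc 3, .ofNat 0), (.negSucc 7, .ofNat 6), (.ofNat 9, .ofNat 4)⟩ ::
 ⟨⟨.ofNat 3, .negSucc 1, .ofNat 1, .negSucc 5, .negSucc 7, .ofNat 7⟩, (.ofNat 2, .ofNat 2), (.ofNat 10, .negSucc 0), (.negSucc 6, .negSucc 4)⟩ ::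
 ⟨⟨.ofNat 3, .negSucc 1, .ofNat 1, .negSucc 4, .negSucc 8, .ofNat 2⟩, (.negSucc 1, .ofNat 0), (.negSucc 3, .ofNat 3), (.ofNat 5, .ofNat 1)⟩ ::
 ⟨⟨.ofNat 3, .negSucc 1, .ofNat 1, .negSucc 3, .negSucc 10, .negSucc 2⟩, (.negSucc 10, .ofNat 4), (.negSucc 8, .ofNat 14), (.ofNat 24, .ofNat 17)⟩ ::
 t

noncomputable def r9 (t : List Ent) : List Ent :=
 ⟨⟨.ofNat 3, .negSucc 1, .ofNat 1, .negSucc 3, .negSucc 5, .ofNat 1⟩, (.negSucc 3, .ofNat 0), (.negSucc 4, .ofNat 3), (.ofNat 2, .ofNat 3)⟩ ::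
 ⟨⟨.ofNat 3, .negSucc 1, .ofNat 1, .negSucc 2, .negSucc 8, .negSucc 3⟩, (.negSucc 4, .ofNat 6), (.ofNat 4, .ofNat 6), (.ofNat 28, .ofNat 0)⟩ ::
 ⟨⟨.ofNat 3, .negSucc 1, .ofNat 1, .negSucc 2, .negSucc 3, .ofNat 0⟩, (.negSucc 0, .ofNat 0), (.negSucc 0, .ofNat 1), (.ofNat 1, .ofNat 0)⟩ ::
 ⟨⟨.ofNat 3, .negSucc 1, .ofNat 1, .negSucc 1, .negSucc 2, .negSucc 0⟩, (.negSucc 0, .ofNat 0), (.negSucc 0, .ofNat 0), (.ofNat 0, .ofNat 1)⟩ ::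
 ⟨⟨.ofNat 3, .negSucc 1, .ofNat 1, .negSucc 0, .negSucc 2, .negSucc 1⟩, (.negSucc 0, .ofNat 2), (.ofNat 0, .ofNat 0), (.ofNat 4, .ofNat 0)⟩ ::
 ⟨⟨.ofNat 3, .negSucc 1, .ofNat 1, .ofNat 0, .negSucc 3, .negSucc 2⟩, (.negSucc 1, .ofNat 2), (.negSucc 1, .ofNat 1), (.ofNat 5, .ofNat 1)⟩ ::
 ⟨⟨.ofNat 3, .negSucc 1, .ofNat 1, .ofNat 1, .negSucc 5, .negSucc 3⟩, (.negSucc 0, .ofNat 0), (.ofNat 0, .ofNat 0), (.negSucc 0, .ofNat 2)⟩ ::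
 ⟨⟨.ofNat 3, .negSucc 1, .ofNat 1, .ofNat 1, .negSucc 0, .ofNat 0⟩, (.negSucc 0, .ofNat 0), (.ofNat 0, .ofNat 0), (.ofNat 0, .ofNat 0)⟩ ::
 ⟨⟨.ofNat 3, .negSucc 1, .ofNat 2, .negSucc 5, .negSucc 15, .ofNat 0⟩, (.negSucc 0, .ofNat 2), (.ofNat 2, .ofNat 3), (.ofNat 13, .negSucc 3)⟩ ::
 ⟨⟨.ofNat 3, .negSucc 1, .ofNat 2, .negSucc 5, .negSucc 10, .ofNat 4⟩, (.negSucc 1, .ofNat 2), (.negSucc 0, .ofNat 5), (.ofNat 11, .negSucc 3)⟩ ::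
 ⟨⟨.ofNat 3, .negSucc 1, .ofNat 2, .negSucc 3, .negSucc 6, .ofNat 0⟩, (.negSucc 1, .ofNat 2), (.ofNat 1, .ofNat 3), (.ofNat 5, .negSucc 1)⟩ ::
 ⟨⟨.ofNat 3, .negSucc 1, .ofNat 2, .negSucc 2, .negSucc 8, .negSucc 3⟩, (.negSucc 0, .ofNat 0), (.negSucc 0, .ofNat 0), (.negSucc 0, .ofNat 3)⟩ ::
 ⟨⟨.ofNat 3, .negSucc 1, .ofNat 2, .negSucc 2, .negSucc 3, .ofNat 0⟩, (.negSucc 0, .ofNat 0), (.negSucc 0, .ofNat 0), (.ofNat 0, .ofNat 1)⟩ ::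
 ⟨⟨.ofNat 3, .negSucc 1, .ofNat 2, .negSucc 1, .negSucc 6, .negSucc 3⟩, (.negSucc 1, .ofNat 2), (.ofNat 0, .ofNat 1), (.ofNat 7, .ofNat 2)⟩ ::
 ⟨⟨.ofNat 3, .negSucc 1, .ofNat 2, .negSucc 1, .negSucc 1, .ofNat 0⟩, (.negSucc 1, .ofNat 0), (.negSucc 1, .ofNat 1), (.ofNat 1, .ofNat 0)⟩ ::
 ⟨⟨.ofNat 3, .negSucc 1, .ofNat 2, .negSucc 0, .negSucc 5, .negSucc 3⟩, (.negSucc 3, .ofNat 6), (.negSucc 4, .ofNat 3), (.ofNat 24, .ofNat 1)⟩ ::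
 ⟨⟨.ofNat 3, .negSucc 1, .ofNat 2, .negSucc 0, .negSucc 0, .ofNat 0⟩, (.negSucc 0, .ofNat 0), (.ofNat 0, .ofNat 0), (.ofNat 0, .ofNat 0)⟩ ::
 ⟨⟨.ofNat 3, .negSucc 1, .ofNat 2, .ofNat 0, .negSucc 5, .negSucc 3⟩, (.negSucc 1, .ofNat 0), (.negSucc 0, .negSucc 0), (.negSucc 0, .ofNat 4)⟩ ::
 ⟨⟨.ofNat 3, .negSucc 1, .ofNat 2, .ofNat 0, .negSucc 0, .ofNat 0⟩, (.negSucc 0, .ofNat 0), (.ofNat 0, .ofNat 0), (.ofNat 0, .ofNat 0)⟩ ::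
 ⟨⟨.ofNat 3, .negSucc 1, .ofNat 2, .ofNat 1, .negSucc 6, .negSucc 3⟩, (.negSucc 0, .ofNat 0), (.ofNat 0, .negSucc 0), (.ofNat 0, .ofNat 2)⟩ ::
 ⟨⟨.ofNat 3, .negSucc 1, .ofNat 2, .ofNat 1, .negSucc 1, .ofNat 0⟩, (.negSucc 0, .ofNat 0), (.ofNat 0, .negSucc 0), (.ofNat 1, .ofNat 0)⟩ ::
 ⟨⟨.ofNat 3, .negSucc 1, .ofNat 3, .negSucc 4, .negSucc 10, .ofNat 0⟩, (.negSucc 1, .ofNat 0), (.negSucc 3, .ofNat 1), (.ofNat 1, .ofNat 5)⟩ ::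
 ⟨⟨.ofNat 3, .negSucc 1, .ofNat 3, .negSucc 4, .negSucc 5, .ofNat 4⟩, (.negSucc 1, .ofNat 0), (.negSucc 3, .ofNat 1), (.ofNat 3, .ofNat 1)⟩ ::
 ⟨⟨.ofNat 3, .negSucc 1, .ofNat 3, .negSucc 3, .negSucc 10, .negSucc 2⟩, (.negSucc 0, .ofNat 0), (.negSucc 1, .ofNat 1), (.ofNat 1, .ofNat 2)⟩ ::
 ⟨⟨.ofNat 3, .negSucc 1, .ofNat 3, .negSucc 3, .negSucc 5, .ofNat 1⟩, (.negSucc 2, .ofNat 2), (.negSucc 1, .ofNat 3), (.ofNat 4, .ofNat 0)⟩ ::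
 ⟨⟨.ofNat 3, .negSucc 1, .ofNat 3, .negSucc 0, .negSucc 6, .negSucc 3⟩, (.negSucc 10, .ofNat 4), (.negSucc 6, .ofNat 1), (.ofNat 8, .ofNat 20)⟩ ::
 ⟨⟨.ofNat 3, .negSucc 1, .ofNat 3, .negSucc 0, .negSucc 1, .ofNat 0⟩, (.negSucc 1, .ofNat 0), (.negSucc 1, .ofNat 0), (.ofNat 1, .ofNat 0)⟩ ::
 ⟨⟨.ofNat 3, .negSucc 1, .ofNat 3, .ofNat 0, .negSucc 5, .negSucc 2⟩, (.negSucc 2, .ofNat 2), (.negSucc 3, .ofNat 1), (.ofNat 6, .ofNat 2)⟩ ::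
 ⟨⟨.ofNat 3, .negSucc 1, .ofNat 3, .ofNat 0, .negSucc 0, .ofNat 1⟩, (.negSucc 0, .ofNat 0), (.ofNat 0, .negSucc 0), (.ofNat 1, .ofNat 0)⟩ ::
 ⟨⟨.ofNat 3, .negSucc 1, .ofNat 4, .negSucc 1, .negSucc 8, .negSucc 3⟩, (.negSucc 1, .ofNat 0), (.negSucc 1, .negSucc 0), (.negSucc 0, .ofNat 6)⟩ ::
 ⟨⟨.ofNat 3, .negSucc 1, .ofNat 4, .negSucc 1, .negSucc 3, .ofNat 0⟩, (.negSucc 3, .ofNat 0), (.negSucc 3, .ofNat 0), (.ofNat 1, .ofNat 2)⟩ ::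
 ⟨⟨.ofNat 3, .negSucc 1, .ofNat 4, .negSucc 0, .negSucc 10, .negSucc 5⟩, (.negSucc 2, .ofNat 2), (.negSucc 2, .ofNat 0), (.ofNat 11, .ofNat 7)⟩ ::
 ⟨⟨.ofNat 3, .negSucc 1, .ofNat 4, .negSucc 0, .negSucc 5, .negSucc 1⟩, (.negSucc 0, .ofNat 0), (.negSucc 0, .ofNat 0), (.ofNat 0, .ofNat 1)⟩ ::
 ⟨⟨.ofNat 3, .negSucc 0, .negSucc 1, .ofNat 1, .negSucc 1, .negSucc 5⟩, (.ofNat 0, .ofNat 2), (.negSucc 0, .negSucc 0), (.ofNat 10, .negSucc 2)⟩ ::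
 ⟨⟨.ofNat 3, .negSucc 0, .negSucc 1, .ofNat 1, .negSucc 0, .negSucc 0⟩, (.negSucc 1, .ofNat 1), (.ofNat 1, .ofNat 0), (.ofNat 1, .ofNat 1)⟩ ::
 ⟨⟨.ofNat 3, .negSucc 0, .negSucc 0, .negSucc 1, .negSucc 2, .negSucc 3⟩, (.negSucc 1, .ofNat 1), (.ofNat 1, .ofNat 2), (.ofNat 5, .ofNat 2)⟩ ::
 ⟨⟨.ofNat 3, .negSucc 0, .negSucc 0, .negSucc 1, .negSucc 1, .ofNat 1⟩, (.negSucc 1, .ofNat 1), (.ofNat 1, .ofNat 2), (.ofNat 3, .negSucc 0)⟩ ::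
 ⟨⟨.ofNat 3, .negSucc 0, .negSucc 0, .ofNat 0, .negSucc 0, .negSucc 3⟩, (.negSucc 0, .ofNat 2), (.ofNat 0, .ofNat 0), (.ofNat 6, .ofNat 0)⟩ ::
 ⟨⟨.ofNat 3, .negSucc 0, .negSucc 0, .ofNat 0, .ofNat 0, .ofNat 1⟩, (.negSucc 0, .ofNat 2), (.ofNat 0, .ofNat 0), (.negSucc 0, .ofNat 0)⟩ ::
 ⟨⟨.ofNat 3, .negSucc 0, .negSucc 0, .ofNat 2, .negSucc 1, .negSucc 2⟩, (.negSucc 2, .ofNat 1), (.ofNat 0, .negSucc 0), (.ofNat 1, .ofNat 3)⟩ ::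
 ⟨⟨.ofNat 3, .negSucc 0, .ofNat 0, .negSucc 2, .negSucc 3, .negSucc 1⟩, (.negSucc 1, .negSucc 0), (.negSucc 2, .ofNat 3), (.ofNat 0, .ofNat 3)⟩ ::
 ⟨⟨.ofNat 3, .negSucc 0, .ofNat 0, .negSucc 2, .negSucc 2, .ofNat 3⟩, (.negSucc 1, .ofNat 1), (.ofNat 1, .ofNat 1), (.ofNat 0, .negSucc 1)⟩ ::
 ⟨⟨.ofNat 3, .negSucc 0, .ofNat 0, .negSucc 0, .negSucc 0, .negSucc 2⟩, (.ofNat 0, .ofNat 1), (.ofNat 1, .ofNat 0), (.ofNat 3, .negSucc 0)⟩ ::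
 ⟨⟨.ofNat 3, .negSucc 0, .ofNat 0, .ofNat 1, .negSucc 0, .negSucc 2⟩, (.negSucc 1, .ofNat 1), (.ofNat 1, .negSucc 0), (.ofNat 2, .ofNat 2)⟩ ::
 ⟨⟨.ofNat 3, .negSucc 0, .ofNat 1, .negSucc 3, .negSucc 5, .negSucc 0⟩, (.negSucc 1, .ofNat 1), (.negSucc 0, .ofNat 3), (.ofNat 6, .ofNat 1)⟩ ::
 ⟨⟨.ofNat 3, .negSucc 0, .ofNat 1, .negSucc 3, .negSucc 4, .ofNat 4⟩, (.negSucc 1, .ofNat 1), (.negSucc 0, .ofNat 3), (.ofNat 4, .negSucc 1)⟩ ::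
 ⟨⟨.ofNat 3, .negSucc 0, .ofNat 1, .negSucc 1, .negSucc 1, .negSucc 2⟩, (.negSucc 2, .ofNat 1), (.ofNat 0, .ofNat 1), (.ofNat 1, .ofNat 3)⟩ ::
 ⟨⟨.ofNat 3, .negSucc 0, .ofNat 1, .negSucc 1, .negSucc 0, .ofNat 2⟩, (.negSucc 2, .ofNat 1), (.ofNat 0, .ofNat 1), (.ofNat 0, .negSucc 1)⟩ ::
 ⟨⟨.ofNat 3, .negSucc 0, .ofNat 1, .ofNat 0, .negSucc 0, .negSucc 3⟩, (.negSucc 0, .ofNat 2), (.ofNat 0, .ofNat 0), (.ofNat 6, .ofNat 0)⟩ ::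
 ⟨⟨.ofNat 3, .negSucc 0, .ofNat 2, .negSucc 4, .negSucc 8, .negSucc 0⟩, (.negSucc 0, .negSucc 0), (.negSucc 4, .ofNat 2), (.ofNat 1, .ofNat 4)⟩ ::
 t

noncomputable def r10 (t : List Ent) : List Ent :=
 ⟨⟨.ofNat 3, .negSucc 0, .ofNat 2, .negSucc 4, .negSucc 7, .ofNat 4⟩, (.negSucc 1, .ofNat 1), (.ofNat 1, .ofNat 3), (.ofNat 4, .negSucc 4)⟩ ::
 ⟨⟨.ofNat 3, .negSucc 0, .ofNat 2, .negSucc 2, .negSucc 3, .negSucc 3⟩, (.negSucc 0, .ofNat 2), (.ofNat 3, .ofNat 1), (.ofNat 7, .negSucc 1)⟩ ::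
 ⟨⟨.ofNat 3, .negSucc 0, .ofNat 2, .negSucc 2, .negSucc 2, .ofNat 1⟩, (.negSucc 3, .ofNat 2), (.negSucc 0, .ofNat 3), (.ofNat 2, .negSucc 0)⟩ ::
 ⟨⟨.ofNat 3, .negSucc 0, .ofNat 2, .negSucc 0, .negSucc 1, .negSucc 5⟩, (.negSucc 0, .ofNat 2), (.negSucc 0, .ofNat 2), (.ofNat 10, .negSucc 0)⟩ ::
 ⟨⟨.ofNat 3, .negSucc 0, .ofNat 2, .negSucc 0, .negSucc 0, .negSucc 0⟩, (.negSucc 1, .ofNat 1), (.negSucc 0, .ofNat 0), (.ofNat 1, .ofNat 1)⟩ ::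
 ⟨⟨.ofNat 3, .negSucc 0, .ofNat 3, .negSucc 3, .negSucc 5, .negSucc 0⟩, (.negSucc 1, .negSucc 0), (.negSucc 4, .ofNat 2), (.ofNat 1, .ofNat 3)⟩ ::
 ⟨⟨.ofNat 3, .negSucc 0, .ofNat 3, .negSucc 3, .negSucc 4, .ofNat 4⟩, (.negSucc 1, .ofNat 1), (.negSucc 0, .ofNat 2), (.ofNat 1, .negSucc 1)⟩ ::
 ⟨⟨.ofNat 3, .negSucc 0, .ofNat 3, .negSucc 1, .negSucc 2, .negSucc 3⟩, (.negSucc 0, .negSucc 0), (.negSucc 1, .negSucc 0), (.negSucc 3, .ofNat 4)⟩ ::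
 ⟨⟨.ofNat 3, .negSucc 0, .ofNat 3, .negSucc 1, .negSucc 1, .ofNat 1⟩, (.ofNat 0, .ofNat 1), (.ofNat 1, .ofNat 1), (.ofNat 0, .negSucc 0)⟩ ::
 ⟨⟨.ofNat 3, .negSucc 0, .ofNat 3, .ofNat 0, .negSucc 2, .negSucc 5⟩, (.negSucc 1, .ofNat 1), (.negSucc 0, .ofNat 0), (.ofNat 3, .ofNat 4)⟩ ::
 ⟨⟨.ofNat 3, .negSucc 0, .ofNat 3, .ofNat 0, .negSucc 1, .negSucc 0⟩, (.negSucc 0, .negSucc 0), (.ofNat 0, .negSucc 0), (.negSucc 0, .ofNat 1)⟩ ::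
 ⟨⟨.ofNat 3, .negSucc 0, .ofNat 4, .negSucc 4, .negSucc 9, .negSucc 3⟩, (.negSucc 0, .negSucc 0), (.negSucc 4, .ofNat 0), (.negSucc 4, .ofNat 8)⟩ ::
 ⟨⟨.ofNat 3, .negSucc 0, .ofNat 4, .negSucc 4, .negSucc 8, .ofNat 1⟩, (.negSucc 1, .ofNat 1), (.negSucc 2, .ofNat 4), (.ofNat 9, .negSucc 0)⟩ ::
 ⟨⟨.ofNat 3, .negSucc 0, .ofNat 4, .negSucc 2, .negSucc 4, .negSucc 2⟩, (.ofNat 0, .ofNat 1), (.ofNat 1, .ofNat 1), (.ofNat 4, .negSucc 1)⟩ ::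
 ⟨⟨.ofNat 3, .negSucc 0, .ofNat 4, .negSucc 2, .negSucc 3, .ofNat 2⟩, (.ofNat 0, .ofNat 1), (.ofNat 1, .ofNat 1), (.ofNat 0, .negSucc 0)⟩ ::
 ⟨⟨.ofNat 3, .negSucc 0, .ofNat 5, .negSucc 3, .negSucc 7, .negSucc 2⟩, (.negSucc 1, .ofNat 1), (.negSucc 2, .ofNat 4), (.ofNat 9, .negSucc 0)⟩ ::
 ⟨⟨.ofNat 3, .negSucc 0, .ofNat 5, .negSucc 3, .negSucc 6, .ofNat 2⟩, (.negSucc 0, .ofNat 2), (.ofNat 2, .ofNat 3), (.ofNat 1, .negSucc 3)⟩ ::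
 ⟨⟨.ofNat 3, .ofNat 0, .ofNat 0, .ofNat 0, .ofNat 2, .negSucc 3⟩, (.negSucc 0, .ofNat 2), (.ofNat 0, .ofNat 0), (.ofNat 5, .ofNat 0)⟩ ::
 ⟨⟨.ofNat 3, .ofNat 0, .ofNat 0, .ofNat 0, .ofNat 1, .negSucc 1⟩, (.ofNat 1, .negSucc 1), (.ofNat 0, .ofNat 0), (.negSucc 1, .ofNat 0)⟩ ::
 ⟨⟨.ofNat 3, .ofNat 0, .ofNat 3, .negSucc 2, .negSucc 0, .negSucc 3⟩, (.negSucc 0, .negSucc 0), (.negSucc 1, .ofNat 1), (.negSucc 1, .ofNat 2)⟩ ::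
 ⟨⟨.ofNat 3, .ofNat 0, .ofNat 3, .negSucc 2, .negSucc 1, .negSucc 1⟩, (.ofNat 1, .negSucc 1), (.negSucc 2, .negSucc 0), (.negSucc 2, .ofNat 2)⟩ ::
 ⟨⟨.ofNat 3, .ofNat 0, .ofNat 3, .negSucc 2, .negSucc 3, .ofNat 2⟩, (.negSucc 0, .negSucc 0), (.negSucc 1, .ofNat 1), (.ofNat 3, .negSucc 0)⟩ ::
 ⟨⟨.ofNat 3, .ofNat 0, .ofNat 3, .ofNat 0, .ofNat 2, .negSucc 6⟩, (.negSucc 0, .ofNat 2), (.negSucc 0, .ofNat 2), (.ofNat 9, .negSucc 0)⟩ ::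
 ⟨⟨.ofNat 3, .ofNat 0, .ofNat 3, .ofNat 0, .ofNat 1, .negSucc 4⟩, (.negSucc 1, .ofNat 1), (.negSucc 0, .ofNat 1), (.ofNat 2, .ofNat 2)⟩ ::
 ⟨⟨.ofNat 3, .ofNat 0, .ofNat 3, .ofNat 0, .negSucc 0, .negSucc 0⟩, (.negSucc 0, .negSucc 0), (.negSucc 1, .negSucc 0), (.ofNat 1, .ofNat 1)⟩ ::
 ⟨⟨.ofNat 3, .ofNat 0, .ofNat 6, .negSucc 2, .negSucc 0, .negSucc 9⟩, (.negSucc 3, .ofNat 2), (.negSucc 2, .ofNat 5), (.ofNat 12, .ofNat 7)⟩ ::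
 ⟨⟨.ofNat 3, .ofNat 0, .ofNat 6, .negSucc 2, .negSucc 1, .negSucc 7⟩, (.negSucc 1, .ofNat 1), (.negSucc 2, .ofNat 3), (.ofNat 8, .ofNat 3)⟩ ::
 ⟨⟨.ofNat 3, .ofNat 0, .ofNat 6, .negSucc 2, .negSucc 3, .negSucc 3⟩, (.negSucc 0, .negSucc 0), (.negSucc 4, .ofNat 0), (.ofNat 0, .ofNat 5)⟩ ::
 ⟨⟨.ofNat 3, .ofNat 0, .ofNat 6, .negSucc 2, .negSucc 4, .negSucc 1⟩, (.negSucc 1, .negSucc 1), (.negSucc 7, .ofNat 1), (.ofNat 3, .ofNat 4)⟩ ::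
 ⟨⟨.ofNat 3, .ofNat 0, .ofNat 6, .negSucc 2, .negSucc 6, .ofNat 2⟩, (.negSucc 0, .negSucc 0), (.negSucc 4, .ofNat 0), (.ofNat 5, .ofNat 2)⟩ ::
 t

noncomputable def Le : List Ent :=
  r0 (r1 (r2 (r3 (r4 (r5 (r6 (r7 (r8 (r9 (r10 []))))))))))

theorem hgen : eqRL (gen E7) Le = true := by decide +kernel

theorem ent : allE (entOK E7) Le = true := by decide +kernel

theorem nodup : incK (keyR E7 2048) Le 0 = true := by decide +kernel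

theorem small : allE (fun x => smallR 1024 E7 x.r) Le = true := by decide +kernel

theorem cos : eqCL (cosOf 1024 E7) Lc Le = true := by decide +kernel

end Pool.Agent.Lib.H56.Gen.D7
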